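import Pool.Agent.H913.LG.Stmts

/-! LG A10: continuous representations have locally bounded operator norms. -/

open Matrix NormedSpace
open scoped Matrix ComplexConjugate

namespace Pool.Agent.H913.LG

open Pool.Agent.H913.SGP

theorem aBs_first_units (M : Type) [Monoid M] [TopologicalSpace M] [FirstCountableTopology M] :
    FirstCountableTopology Mˣ := by
  have h1 : FirstCountableTopology Mᵐᵒᵖ :=
    (MulOpposite.opHomeomorph (M := M)).symm.isInducing.firstCountableTopology
  exact (Units.isEmbedding_embedProduct (M := M)).isInducing.firstCountableTopology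

theorem aBs_first : FirstCountableTopology Gd := by
  have h0 : FirstCountableTopology (Matrix (Fin 2) (Fin 2) ℝ) :=
    inferInstanceAs (FirstCountableTopology (Fin 2 → Fin 2 → ℝ))
  have h1 : FirstCountableTopology (GL (Fin 2) ℝ) := aBs_first_units (Matrix (Fin 2) (Fin 2) ℝ)
  have h2 : FirstCountableTopology Gp := Topology.IsInducing.subtypeVal.firstCountableTopology
  infer_instance

/-- TARGET -/
theorem a_bs : S_bs := by
  intro E _ _ _ π hπ
  have hfc := aBs_first
  refine ⟨fun g => lt_max_of_lt_left one_pos, fun g => ?_, fun g h => ?_⟩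
  · by_contra hcon
    push Not at hcon
    obtain ⟨u, hu⟩ := (nhds g).exists_antitone_basis
    have hx : ∀ n : ℕ, ∃ x ∈ u n, (n : ℝ) < max 1 ‖π x‖ := fun n =>
      hcon (u n) (hu.1.mem_of_mem trivial) n
    choose x hxu hx using hx
    have hlim : Filter.Tendsto x Filter.atTop (nhds g) := hu.tendsto hxu
    have hb : ∀ y : E, ∃ C, ∀ n, ‖π (x n) y‖ ≤ C := by
      intro y
      have h1 : Filter.Tendsto (fun n => π (x n) y) Filter.atTop (nhds (π g y)) :=
        ((hπ y).tendsto g).comp hlim
      obtain ⟨C, hC⟩ := (h1.norm.bddAbove_range)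
      exact ⟨C, fun n => hC ⟨n, rfl⟩⟩
    obtain ⟨C', hC'⟩ := banach_steinhaus hb
    obtain ⟨n, hn⟩ := exists_nat_gt (max 1 C')
    have h2 : max 1 ‖π (x n)‖ ≤ max 1 C' := max_le_max le_rfl (hC' n)
    have h3 := hx n
    linarith
  · refine max_le ?_ ?_
    · exact one_le_mul_of_one_le_of_one_le (le_max_left _ _) (le_max_left _ _)
    · rw [map_mul]
      refine (norm_mul_le _ _).trans ?_
      exact mul_le_mul (le_max_right _ _) (le_max_right _ _) (norm_nonneg _)
        (zero_le_one.trans (le_max_left _ _))

end Pool.Agent.H913.LG
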