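import Pool.Agent.H913.LG.Stmts

open Matrix NormedSpace
open scoped Matrix ComplexConjugate

namespace Pool.Agent.H913.LG

open Pool.Agent.H913.SGP

theorem aCoef_dg {I : Type} (c : I → ℂ) (v : I →₀ ℂ) (i : I) : dg c v i = c i * v i := by
  classical
  unfold dg
  induction v using Finsupp.induction_linear with
  | zero => simp
  | add f g hf hg => rw [map_add, Finsupp.add_apply, hf, hg, Finsupp.add_apply, mul_add]
  | single j a =>
    rw [Finsupp.linearCombination_single]
    simp only [ee, Finsupp.smul_apply, Finsupp.single_apply, smul_eq_mul]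
    by_cases h : j = i
    · subst h
      simp [mul_comm]
    · simp [h]

/-- sums of roots of unity -/
theorem aCoef_geom (N : ℕ) (hN : 0 < N) (m : ℤ) (hm : |m| < N) :
    ∑ j ∈ Finset.range N, Complex.exp (Complex.I * (m * (2 * Real.pi * j / N : ℝ)))
      = if m = 0 then (N : ℂ) else 0 := by
  by_cases h0 : m = 0
  · rw [if_pos h0, h0]
    simp
  · rw [if_neg h0]
    have hN0 : (N : ℂ) ≠ 0 := by exact_mod_cast hN.ne'
    set ζ : ℂ := Complex.exp (2 * Real.pi * Complex.I * (m / N)) with hζ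
    have h1 : ∀ j ∈ Finset.range N,
        Complex.exp (Complex.I * (m * (2 * Real.pi * j / N : ℝ))) = ζ ^ j := by
      intro j _
      rw [hζ, ← Complex.exp_nat_mul]
      congr 1
      push_cast
      ring
    rw [Finset.sum_congr rfl h1]
    have h2 : ζ ^ N = 1 := by
      rw [hζ, ← Complex.exp_nat_mul, Complex.exp_eq_one_iff]
      refine ⟨m, ?_⟩
      field_simp
    have h3 : ζ ≠ 1 := by
      intro h
      rw [hζ, Complex.exp_eq_one_iff] at h
      obtain ⟨n, hn⟩ := h
      have hpi : (2 * Real.pi * Complex.I : ℂ) ≠ 0 := Complex.two_pi_I_ne_zero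
      have h4 : (m : ℂ) / N = n := by
        apply mul_left_cancel₀ hpi
        rw [hn]
        ring
      have h5 : (m : ℂ) = n * N := by
        rw [← h4]
        field_simp
      have h6 : m = n * N := by exact_mod_cast h5
      rcases eq_or_ne n 0 with hn0 | hn0
      · rw [hn0, zero_mul] at h6
        exact h0 h6
      · have h7 : 1 ≤ |n| := Int.one_le_abs hn0
        have h8 : |m| = |n| * N := by rw [h6, abs_mul, Nat.abs_cast]
        have h9 : (0 : ℤ) < N := by exact_mod_cast hN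
        nlinarith
    rw [geom_sum_eq h3, h2, sub_self, zero_div]

open scoped Classical in
theorem aCoef_proj {I : Type} {E : Type} [NormedAddCommGroup E] [NormedSpace ℂ E] (d : I → ℤ)
    (ι : (I →₀ ℂ) →ₗ[ℂ] E) (M₀ : ℝ)
    (hT : ∀ (φ : ℝ) v, ‖ι (dg (fun i => Complex.exp (-Complex.I * ((d i : ℂ) * φ))) v)‖ ≤ M₀ * ‖ι v‖)
    (a : ℤ) (v : I →₀ ℂ) : ‖ι (v.filter fun i => d i = a)‖ ≤ M₀ * ‖ι v‖ := by
  obtain ⟨N, hN0, hN⟩ : ∃ N : ℕ, 0 < N ∧ ∀ i ∈ v.support, |a - d i| < N := by
    refine ⟨1 + ∑ i ∈ v.support, (a - d i).natAbs, by omega, ?_⟩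
    intro i hi
    have h1 : (a - d i).natAbs ≤ ∑ i ∈ v.support, (a - d i).natAbs :=
      Finset.single_le_sum (f := fun i => (a - d i).natAbs) (fun _ _ => Nat.zero_le _) hi
    rw [Int.abs_eq_natAbs]
    exact_mod_cast (by omega : (a - d i).natAbs < 1 + ∑ i ∈ v.support, (a - d i).natAbs)
  have key : (N : ℂ) • (v.filter fun i => d i = a) = ∑ j ∈ Finset.range N,
      Complex.exp (Complex.I * (a * (2 * Real.pi * j / N : ℝ))) •
        dg (fun i => Complex.exp (-Complex.I * ((d i : ℂ) * (2 * Real.pi * j / N : ℝ)))) v := by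
    ext i
    rw [Finsupp.smul_apply, Finsupp.finsetSum_apply, Finsupp.filter_apply]
    simp only [Finsupp.smul_apply, aCoef_dg, smul_eq_mul]
    have h1 : ∀ j ∈ Finset.range N, Complex.exp (Complex.I * (a * (2 * Real.pi * j / N : ℝ))) *
        (Complex.exp (-Complex.I * ((d i : ℂ) * (2 * Real.pi * j / N : ℝ))) * v i)
        = Complex.exp (Complex.I * (((a - d i : ℤ) : ℂ) * (2 * Real.pi * j / N : ℝ))) * v i := by
      intro j _
      rw [← mul_assoc, ← Complex.exp_add]
      congr 2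
      push_cast
      ring
    rw [Finset.sum_congr rfl h1, ← Finset.sum_mul]
    by_cases hi : i ∈ v.support
    · rw [aCoef_geom N hN0 (a - d i) (hN i hi)]
      by_cases hd : d i = a
      · rw [if_pos hd, if_pos (by omega)]
      · rw [if_neg hd, if_neg (by omega)]
        simp
    · rw [Finsupp.notMem_support_iff] at hi
      simp [hi]
  have hNR : (0 : ℝ) < N := by exact_mod_cast hN0
  have h2 : (N : ℝ) * ‖ι (v.filter fun i => d i = a)‖ ≤ N * (M₀ * ‖ι v‖) := by
    have h3 : (N : ℝ) * ‖ι (v.filter fun i => d i = a)‖ = ‖ι ((N : ℂ) • (v.filter fun i => d i = a))‖ := by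
      rw [map_smul, norm_smul, Complex.norm_natCast]
    rw [h3, key, map_sum]
    refine (norm_sum_le _ _).trans ?_
    have h4 : ∀ j ∈ Finset.range N, ‖ι (Complex.exp (Complex.I * (a * (2 * Real.pi * j / N : ℝ))) •
        dg (fun i => Complex.exp (-Complex.I * ((d i : ℂ) * (2 * Real.pi * j / N : ℝ)))) v)‖
        ≤ M₀ * ‖ι v‖ := by
      intro j _
      rw [map_smul, norm_smul]
      have h5 : ‖Complex.exp (Complex.I * (a * (2 * Real.pi * j / N : ℝ)))‖ = 1 := by
        have h6 : Complex.I * (a * (2 * Real.pi * j / N : ℝ))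
            = (((a : ℝ) * (2 * Real.pi * j / N) : ℝ) : ℂ) * Complex.I := by
          push_cast
          ring
        rw [h6, Complex.norm_exp_ofReal_mul_I]
      rw [h5, one_mul]
      exact hT _ v
    refine (Finset.sum_le_sum h4).trans (le_of_eq ?_)
    rw [Finset.sum_const, Finset.card_range, nsmul_eq_mul]
  exact le_of_mul_le_mul_left h2 hNR

theorem aCoef_fin {I : Type} {E : Type} [NormedAddCommGroup E] [NormedSpace ℂ E]
    (ι : (I →₀ ℂ) →ₗ[ℂ] E) (hι : Function.Injective ι) (F : Set I) (hF : F.Finite) (i : I) :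
    ∃ C : ℝ, 0 ≤ C ∧ ∀ v : I →₀ ℂ, v ∈ Finsupp.supported ℂ ℂ F → ‖v i‖ ≤ C * ‖ι v‖ := by
  have hfin : Finite F := hF
  let W := Finsupp.supported ℂ ℂ F
  have hW : FiniteDimensional ℂ W := by
    have : FiniteDimensional ℂ (F →₀ ℂ) := inferInstance
    exact LinearEquiv.finiteDimensional (Finsupp.supportedEquivFinsupp F).symm
  let f : W →ₗ[ℂ] E := ι.domRestrict W
  have hf : Function.Injective f := by
    intro x y hxy
    apply Subtype.ext
    exact hι hxy
  let e : W ≃ₗ[ℂ] LinearMap.range f := LinearEquiv.ofInjective f hf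
  have hR : FiniteDimensional ℂ (LinearMap.range f) := LinearEquiv.finiteDimensional e
  let g : LinearMap.range f →ₗ[ℂ] ℂ := (Finsupp.lapply i ∘ₗ W.subtype) ∘ₗ e.symm.toLinearMap
  let G : LinearMap.range f →L[ℂ] ℂ := LinearMap.toContinuousLinearMap g
  refine ⟨‖G‖, ContinuousLinearMap.opNorm_nonneg G, fun v hv => ?_⟩
  have h1 := G.le_opNorm (e ⟨v, hv⟩)
  have h2 : G (e ⟨v, hv⟩) = v i := by
    show (Finsupp.lapply i ∘ₗ W.subtype) (e.symm (e ⟨v, hv⟩)) = v i
    rw [LinearEquiv.symm_apply_apply]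
    rfl
  rw [h2] at h1
  exact h1

/-- TARGET -/
theorem a_coef (h1 : S_K) (h2 : S_wbd) : S_coef := by
  classical
  intro I M h w hw q hq i
  obtain ⟨E, _, _, -, ι, π, hglob, hq, C, hC, hπ⟩ := hq
  obtain ⟨c, -, -, -, hc⟩ := h1
  obtain ⟨-, ⟨C', hC'⟩, -⟩ := h2 w hw
  have hM : ∀ k ∈ maxCompact rho, ‖π k‖ ≤ C * C' := fun k hk =>
    (hπ k).trans (mul_le_mul_of_nonneg_left (hC' k hk) hC.le)
  have hM0 : 0 ≤ C * C' := (norm_nonneg _).trans (hM 1 (Subgroup.one_mem _))
  have hk : ∀ (s t : ℝ) (v : I →₀ ℂ), ‖ι (M.kst s t v)‖ ≤ C * C' * ‖ι v‖ := by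
    intro s t v
    have e1 := hglob.intertwines_K (c (s, t)) v
    have e2 : (M.toHC h).κ (c (s, t)) v = M.kst s t v := by
      show kap M (c (s, t)) v = M.kst s t v
      rw [hc I M (s, t)]
    rw [← e2, ← e1]
    exact ((π (c (s, t)).1).le_opNorm _).trans
      (mul_le_mul_of_nonneg_right (hM _ (c (s, t)).2) (norm_nonneg _))
  have hμ := fun (v : I →₀ ℂ) => aCoef_proj M.μ ι (C * C') (fun φ v => by
    have := hk φ 0 v
    have e3 : M.kst φ 0 = dg (fun i => Complex.exp (-Complex.I * ((M.μ i : ℂ) * φ))) := by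
      unfold TMod.kst
      congr 1
      funext j
      congr 2
      push_cast
      ring
    rwa [e3] at this) (M.μ i) v
  have hν := fun (v : I →₀ ℂ) => aCoef_proj M.ν ι (C * C') (fun φ v => by
    have := hk 0 φ v
    have e3 : M.kst 0 φ = dg (fun i => Complex.exp (-Complex.I * ((M.ν i : ℂ) * φ))) := by
      unfold TMod.kst
      congr 1
      funext j
      congr 2
      push_cast
      ring
    rwa [e3] at this) (M.ν i) v
  obtain ⟨D, hD0, hD⟩ := aCoef_fin ι hglob.injective _ (h.fib (M.μ i) (M.ν i)) i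
  refine ⟨D * (C * C' * (C * C')), fun v => ?_⟩
  set u := v.filter (fun j => M.μ j = M.μ i) with hu
  set z := u.filter (fun j => M.ν j = M.ν i) with hz
  have hzmem : z ∈ Finsupp.supported ℂ ℂ {j | M.μ j = M.μ i ∧ M.ν j = M.ν i} := by
    rw [Finsupp.mem_supported]
    intro j hj
    rw [Finset.mem_coe, hz, Finsupp.support_filter, Finset.mem_filter, hu,
      Finsupp.support_filter, Finset.mem_filter] at hj
    exact ⟨hj.1.2, hj.2⟩
  have hzi : z i = v i := by
    rw [hz, Finsupp.filter_apply, if_pos rfl, hu, Finsupp.filter_apply, if_pos rfl]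
  have b1 := hD z hzmem
  have b2 := hν u
  have b3 := hμ v
  rw [hzi] at b1
  rw [hq]
  calc ‖v i‖ ≤ D * ‖ι z‖ := b1
    _ ≤ D * (C * C' * (C * C' * ‖ι v‖)) := by
        refine mul_le_mul_of_nonneg_left (b2.trans ?_) hD0
        exact mul_le_mul_of_nonneg_left b3 hM0
    _ = D * (C * C' * (C * C')) * ‖ι v‖ := by ring

end Pool.Agent.H913.LG
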