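import Pool.Agent.H913.LG.Stmts

open Matrix NormedSpace
open scoped Matrix ComplexConjugate ENNReal Topology

namespace Pool.Agent.H913.LG

open Pool.Agent.H913.SGP

section aFam

variable {W : Gd → ℝ} {Ω : Type} {E : Ω → Type} [∀ a, NormedAddCommGroup (E a)]
  [∀ a, NormedSpace ℂ (E a)]

variable (E) in
/-- bounded families -/
abbrev aFam_Y := lp (fun x : Ω × Gd => E x.1) ∞

theorem aFam_boundR (hW : IsWeight W) (h : Gd) (Φ : aFam_Y E) (x : Ω × Gd) :
    ‖(((W (x.2 * h) / W x.2 : ℝ) : ℂ) • (Φ (x.1, x.2 * h) : E x.1))‖ ≤ W h * ‖Φ‖ := by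
  have h1 : ‖(Φ (x.1, x.2 * h) : E x.1)‖ ≤ ‖Φ‖ :=
    lp.norm_apply_le_norm (by simp) Φ (x.1, x.2 * h)
  have h2 := hW.1 x.2
  have h3 := hW.1 (x.2 * h)
  have h4 := hW.2.2 x.2 h
  have h5 : 0 ≤ W (x.2 * h) / W x.2 := (div_pos h3 h2).le
  have h6 : W (x.2 * h) / W x.2 ≤ W h := by
    rw [div_le_iff₀ h2]
    linarith [mul_comm (W x.2) (W h)]
  rw [norm_smul, Complex.norm_real, Real.norm_of_nonneg h5]
  exact mul_le_mul h6 h1 (norm_nonneg _) (hW.1 h).le

theorem aFam_memR (hW : IsWeight W) (h : Gd) (Φ : aFam_Y E) :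
    Memℓp (fun x : Ω × Gd => (((W (x.2 * h) / W x.2 : ℝ) : ℂ) • (Φ (x.1, x.2 * h) : E x.1))) ∞ := by
  apply memℓp_infty
  refine ⟨W h * ‖Φ‖, ?_⟩
  rintro _ ⟨x, rfl⟩
  exact aFam_boundR hW h Φ x

/-- right translation -/
noncomputable def aFam_R0 (hW : IsWeight W) (h : Gd) : aFam_Y E →L[ℂ] aFam_Y E :=
  LinearMap.mkContinuous
    { toFun := fun Φ => ⟨_, aFam_memR hW h Φ⟩
      map_add' := by
        intro Φ Ψ
        ext x
        simp
      map_smul' := by
        intro c Φ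
        ext x
        simp [smul_comm c] } (W h) (by
    intro Φ
    refine lp.norm_le_of_forall_le (mul_nonneg (hW.1 h).le (norm_nonneg _)) ?_
    intro x
    exact aFam_boundR hW h Φ x)

theorem aFam_R0_apply (hW : IsWeight W) (h : Gd) (Φ : aFam_Y E) (x : Ω × Gd) :
    aFam_R0 hW h Φ x = (((W (x.2 * h) / W x.2 : ℝ) : ℂ) • (Φ (x.1, x.2 * h) : E x.1)) := rfl

theorem aFam_R0_norm (hW : IsWeight W) (h : Gd) : ‖(aFam_R0 hW h : aFam_Y E →L[ℂ] aFam_Y E)‖ ≤ W h :=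
  LinearMap.mkContinuous_norm_le _ (hW.1 h).le _

/-- right translation as a homomorphism -/
noncomputable def aFam_R (hW : IsWeight W) : Gd →* (aFam_Y E →L[ℂ] aFam_Y E) where
  toFun := aFam_R0 hW
  map_one' := by
    ext Φ x
    obtain ⟨a, g⟩ := x
    rw [aFam_R0_apply]
    have : W g ≠ 0 := (hW.1 g).ne'
    simp only
    rw [mul_one, div_self this, Complex.ofReal_one, one_smul]
    rfl
  map_mul' := by
    intro h k
    ext Φ x
    rw [aFam_R0_apply]
    change _ = aFam_R0 hW h (aFam_R0 hW k Φ) x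
    rw [aFam_R0_apply, aFam_R0_apply, smul_smul]
    have h1 : W x.2 ≠ 0 := (hW.1 x.2).ne'
    have h2 : W (x.2 * h) ≠ 0 := (hW.1 (x.2 * h)).ne'
    have h3 : ((W (x.2 * h) / W x.2 : ℝ) : ℂ) * ((W (x.2 * h * k) / W (x.2 * h) : ℝ) : ℂ) =
      ((W (x.2 * (h * k)) / W x.2 : ℝ) : ℂ) := by
      rw [← Complex.ofReal_mul, mul_assoc x.2 h k]
      congr 1
      field_simp
    simp only
    rw [h3, mul_assoc x.2 h k]

section fam

variable {V : Type} [AddCommGroup V] [Module ℂ V] {Mo : HCModule GRd rho V} {F : ∀ a, V → Gd → E a}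

theorem aFam_bdd (hW : IsWeight W) (hF : IsFam Mo W E F) (v : V) :
    BddAbove (Set.range fun x : Ω × Gd => ‖F x.1 v x.2‖ / W x.2) := by
  obtain ⟨C, hC⟩ := hF.bound v
  refine ⟨C, ?_⟩
  rintro _ ⟨x, rfl⟩
  exact (div_le_iff₀ (hW.1 x.2)).2 (hC x.1 x.2)

omit [AddCommGroup V] [Module ℂ V] in
theorem aFam_norm_eq (hW : IsWeight W) (v : V) (x : Ω × Gd) :
    ‖(((W x.2)⁻¹ : ℝ) : ℂ) • F x.1 v x.2‖ = ‖F x.1 v x.2‖ / W x.2 := by
  rw [norm_smul, Complex.norm_real, Real.norm_of_nonneg (inv_nonneg.2 (hW.1 x.2).le), div_eq_inv_mul]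

theorem aFam_le (hW : IsWeight W) (hF : IsFam Mo W E F) (v : V) (a : Ω) (g : Gd) :
    ‖F a v g‖ ≤ famNorm W E F v * W g := by
  rw [← div_le_iff₀ (hW.1 g)]
  exact le_ciSup (aFam_bdd hW hF v) (a, g)

theorem aFam_memi (hW : IsWeight W) (hF : IsFam Mo W E F) (v : V) :
    Memℓp (fun x : Ω × Gd => ((((W x.2)⁻¹ : ℝ) : ℂ) • (F x.1 v x.2 : E x.1))) ∞ := by
  apply memℓp_infty
  simp only [aFam_norm_eq hW]
  exact aFam_bdd hW hF v

/-- the embedding -/
noncomputable def aFam_i0 (hW : IsWeight W) (hF : IsFam Mo W E F) : V →ₗ[ℂ] aFam_Y E where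
  toFun := fun v => ⟨_, aFam_memi hW hF v⟩
  map_add' := by
    intro u v
    ext x
    simp [hF.add]
  map_smul' := by
    intro c v
    ext x
    simp [hF.smul, smul_comm c]

theorem aFam_i0_apply (hW : IsWeight W) (hF : IsFam Mo W E F) (v : V) (x : Ω × Gd) :
    aFam_i0 hW hF v x = (((W x.2)⁻¹ : ℝ) : ℂ) • (F x.1 v x.2 : E x.1) := rfl

theorem aFam_i0_norm (hW : IsWeight W) (hF : IsFam Mo W E F) (v : V) :
    ‖aFam_i0 hW hF v‖ = famNorm W E F v := by
  rw [lp.norm_eq_ciSup]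
  unfold famNorm
  congr 1
  ext x
  rw [aFam_i0_apply, aFam_norm_eq hW]

theorem aFam_i0_inj (hW : IsWeight W) (hF : IsFam Mo W E F) : Function.Injective (aFam_i0 hW hF) := by
  rw [injective_iff_map_eq_zero]
  intro v hv
  apply hF.inj
  intro a g
  have h1 : aFam_i0 hW hF v (a, g) = 0 := by rw [hv]; rfl
  rw [aFam_i0_apply] at h1
  have h2 := (hW.1 g).ne'
  rcases smul_eq_zero.1 h1 with h | h
  · simp only [Complex.ofReal_eq_zero, inv_eq_zero] at h
    exact absurd h h2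
  · exact h

theorem aFam_Ri0 (hW : IsWeight W) (hF : IsFam Mo W E F) (h : Gd) (v : V) (x : Ω × Gd) :
    aFam_R hW h (aFam_i0 hW hF v) x = (((W x.2)⁻¹ : ℝ) : ℂ) • (F x.1 v (x.2 * h) : E x.1) := by
  change aFam_R0 hW h (aFam_i0 hW hF v) x = _
  rw [aFam_R0_apply, aFam_i0_apply, smul_smul]
  congr 1
  rw [← Complex.ofReal_mul]
  congr 1
  have h1 : W x.2 ≠ 0 := (hW.1 x.2).ne'
  have h2 : W (x.2 * h) ≠ 0 := (hW.1 (x.2 * h)).ne'
  simp only
  field_simp

theorem aFam_derivAt (hF : IsFam Mo W E F) (a : Ω) (X : LieAlg GRd) (γ : ℝ → Gd)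
    (hγ : IsOneParam rho X.1 γ) (v : V) (g : Gd) (t : ℝ) :
    HasDerivAt (fun s : ℝ => F a v (g * γ s)) (F a (Mo.a X v) (g * γ t)) t := by
  have h1 := hF.deriv a X γ hγ v (g * γ t)
  have h3 : HasDerivAt (fun s : ℝ => F a v (g * γ t * γ s)) (F a (Mo.a X v) (g * γ t)) (t - t) := by
    rw [sub_self]; exact h1
  have h4 := HasDerivAt.comp_sub_const t t h3
  convert h4 using 1
  ext s
  rw [mul_assoc, ← hγ.2.1]
  congr 2
  ring_nf

theorem aFam_taylor {B : Type} [NormedAddCommGroup B] [NormedSpace ℂ B] (f f' f'' : ℝ → B) (C : ℝ)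
    (h1 : ∀ t, HasDerivAt f (f' t) t) (h2 : ∀ t, HasDerivAt f' (f'' t) t)
    (h3 : ∀ t, |t| ≤ 1 → ‖f'' t‖ ≤ C) (t : ℝ) (ht : |t| ≤ 1) :
    ‖f t - f 0 - (t : ℂ) • f' 0‖ ≤ C * t ^ 2 := by
  have hC : 0 ≤ C := (norm_nonneg _).trans (h3 0 (by simp))
  have hs : ∀ s ∈ Set.uIcc (0 : ℝ) t, |s| ≤ |t| := by
    intro s hs
    have := Set.abs_sub_left_of_mem_uIcc hs
    simpa using this
  have a1 : ∀ s ∈ Set.uIcc (0 : ℝ) t, ‖f' s - f' 0‖ ≤ C * |t| := by
    intro s hs'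
    have k1 := Convex.norm_image_sub_le_of_norm_hasDerivWithin_le (f := f') (f' := f'') (C := C)
      (s := Set.uIcc (0 : ℝ) t) (x := 0) (y := s) (fun x _ => (h2 x).hasDerivWithinAt)
      (fun x hx => h3 x ((hs x hx).trans ht)) (convex_uIcc 0 t) Set.left_mem_uIcc hs'
    refine k1.trans ?_
    rw [sub_zero, Real.norm_eq_abs]
    exact mul_le_mul_of_nonneg_left (hs s hs') hC
  have k2 := Convex.norm_image_sub_le_of_norm_hasDerivWithin_le (f := fun s => f s - s • f' 0)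
    (f' := fun s => f' s - f' 0) (C := C * |t|)
      (s := Set.uIcc (0 : ℝ) t) (x := 0) (y := t) (fun x _ => by
        have := ((h1 x).fun_sub ((hasDerivAt_id x).smul_const (f' 0))).hasDerivWithinAt (s := Set.uIcc (0 : ℝ) t)
        simpa using this)
      a1 (convex_uIcc 0 t) Set.left_mem_uIcc Set.right_mem_uIcc
  simp only [zero_smul, sub_zero] at k2
  rw [Complex.coe_smul]
  calc ‖f t - f 0 - t • f' 0‖ = ‖f t - t • f' 0 - f 0‖ := by congr 1; abel
    _ ≤ _ := k2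
    _ = C * t ^ 2 := by rw [Real.norm_eq_abs, mul_assoc, ← sq, sq_abs]

theorem aFam_isLittleO {B : Type} [NormedAddCommGroup B] [NormedSpace ℂ B] (f : ℝ → B) (y : B) (C : ℝ)
    (h : ∀ t : ℝ, |t| ≤ 1 → ‖f t - f 0 - (t : ℂ) • y‖ ≤ C * t ^ 2) : HasDerivAt f y 0 := by
  rw [hasDerivAt_iff_isLittleO]
  have h1 : (fun t : ℝ => f t - f 0 - (t - 0) • y) =O[𝓝 0] fun t : ℝ => t ^ 2 := by
    refine Asymptotics.IsBigO.of_bound C ?_
    have : ∀ᶠ t : ℝ in 𝓝 0, |t| ≤ 1 := by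
      have := Metric.closedBall_mem_nhds (0 : ℝ) one_pos
      filter_upwards [this] with t ht
      simpa using ht
    filter_upwards [this] with t ht
    have := h t ht
    rw [Complex.coe_smul] at this
    rw [sub_zero, Real.norm_of_nonneg (sq_nonneg t)]
    exact this
  refine h1.trans_isLittleO ?_
  simp only [sub_zero]
  exact Asymptotics.isLittleO_pow_id (by norm_num)

theorem aFam_hasDeriv (hW : IsWeight W) (hF : IsFam Mo W E F) (h3 : S_wbd) (X : LieAlg GRd)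
    (γ : ℝ → Gd) (hγ : IsOneParam rho X.1 γ) (v : V) :
    HasDerivAt (fun t : ℝ => aFam_R hW (γ t) (aFam_i0 hW hF v)) (aFam_i0 hW hF (Mo.a X v)) 0 := by
  obtain ⟨C, hC⟩ := (h3 W hW).1 γ hγ.1 1
  have hγ0 : γ 0 = 1 := by
    have := hγ.2.1 0 0
    rw [add_zero] at this
    exact (mul_eq_left.1 this.symm)
  have hn : 0 ≤ famNorm W E F (Mo.a X (Mo.a X v)) := by
    rw [← aFam_i0_norm hW hF]; exact norm_nonneg _
  refine aFam_isLittleO _ _ (famNorm W E F (Mo.a X (Mo.a X v)) * C) ?_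
  intro t ht
  have hC0 : 0 ≤ C := (hW.1 _).le.trans (hC 0 (by simp))
  refine lp.norm_le_of_forall_le (mul_nonneg (mul_nonneg hn hC0) (sq_nonneg _)) ?_
  rintro ⟨a, g⟩
  have h4 := aFam_taylor (fun s => F a v (g * γ s)) (fun s => F a (Mo.a X v) (g * γ s))
    (fun s => F a (Mo.a X (Mo.a X v)) (g * γ s)) (famNorm W E F (Mo.a X (Mo.a X v)) * C * W g)
    (fun s => aFam_derivAt hF a X γ hγ v g s) (fun s => aFam_derivAt hF a X γ hγ _ g s)
    (fun s hs => by
      refine (aFam_le hW hF _ a _).trans ?_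
      rw [mul_assoc]
      refine mul_le_mul_of_nonneg_left ?_ hn
      refine (hW.2.2 _ _).trans ?_
      rw [mul_comm]
      exact mul_le_mul_of_nonneg_right (hC s hs) (hW.1 g).le) t ht
  have h5 : (aFam_R hW (γ t) (aFam_i0 hW hF v) - aFam_R hW (γ 0) (aFam_i0 hW hF v) -
      (t : ℂ) • aFam_i0 hW hF (Mo.a X v)) (a, g) = (((W g)⁻¹ : ℝ) : ℂ) •
        (F a v (g * γ t) - F a v (g * γ 0) - (t : ℂ) • F a (Mo.a X v) (g * γ 0)) := by
    rw [lp.coeFn_sub, lp.coeFn_sub, lp.coeFn_smul]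
    simp only [Pi.sub_apply, Pi.smul_apply]
    rw [aFam_Ri0, aFam_Ri0, aFam_i0_apply, hγ0, mul_one]
    simp only [smul_sub]
    rw [smul_comm]
  rw [h5, norm_smul, Complex.norm_real, Real.norm_of_nonneg (inv_nonneg.2 (hW.1 g).le)]
  rw [inv_mul_le_iff₀ (hW.1 g)]
  refine h4.trans (le_of_eq ?_)
  ring

theorem aFam_R_le (hW : IsWeight W) (g : Gd) (y : aFam_Y E) : ‖aFam_R hW g y‖ ≤ W g * ‖y‖ := by
  refine lp.norm_le_of_forall_le (mul_nonneg (hW.1 g).le (norm_nonneg _)) ?_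
  intro x
  exact aFam_boundR hW g y x

theorem aFam_i_K0 (hW : IsWeight W) (hF : IsFam Mo W E F) (k : maxCompact rho) (v : V) :
    aFam_R hW k.1 (aFam_i0 hW hF v) = aFam_i0 hW hF (Mo.κ k v) := by
  ext x
  rw [aFam_Ri0, aFam_i0_apply, hF.K]

end fam

section cont

variable {B : Type} [NormedAddCommGroup B] [NormedSpace ℂ B] (π : Gd →* (B →L[ℂ] B)) (W)

theorem aFam_cont1 (hπ : ∀ g, ‖π g‖ ≤ W g) {T : Type} {f : Filter T} (γ : T → Gd) (D : Set B)
    (hD : Dense D) (hγ : ∀ x ∈ D, Filter.Tendsto (fun t => π (γ t) x) f (𝓝 x)) (C : ℝ)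
    (hC : ∀ᶠ t in f, W (γ t) ≤ C) (x : B) : Filter.Tendsto (fun t => π (γ t) x) f (𝓝 x) := by
  rw [Metric.tendsto_nhds]
  intro ε hε
  set C' := max C 0 with hC'
  have hC'0 : 0 ≤ C' := le_max_right _ _
  have h0 : 0 < ε / (3 * (C' + 1)) := by positivity
  obtain ⟨y, hy, hxy⟩ := Metric.dense_iff.1 hD x _ h0
  have h1 := (Metric.tendsto_nhds.1 (hγ y hxy)) (ε / 3) (by positivity)
  filter_upwards [h1, hC] with t ht1 ht2
  rw [Metric.mem_ball, dist_comm, dist_eq_norm] at hy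
  rw [dist_eq_norm] at ht1 ⊢
  have e1 : π (γ t) x - x = π (γ t) (x - y) + (π (γ t) y - y) - (x - y) := by
    rw [map_sub]; abel
  have h2 : ‖π (γ t) (x - y)‖ ≤ C' * ‖x - y‖ :=
    ((π (γ t)).le_opNorm _).trans (mul_le_mul_of_nonneg_right
      (((hπ _).trans ht2).trans (le_max_left _ _)) (norm_nonneg _))
  have h3 : (C' + 1) * ‖x - y‖ < ε / 3 := by
    calc (C' + 1) * ‖x - y‖ < (C' + 1) * (ε / (3 * (C' + 1))) :=
          mul_lt_mul_of_pos_left hy (by positivity)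
      _ = ε / 3 := by field_simp
  have h4 : ‖x - y‖ ≤ (C' + 1) * ‖x - y‖ := by
    nlinarith [norm_nonneg (x - y)]
  rw [e1]
  calc ‖π (γ t) (x - y) + (π (γ t) y - y) - (x - y)‖
      ≤ ‖π (γ t) (x - y)‖ + ‖π (γ t) y - y‖ + ‖x - y‖ :=
        (norm_sub_le _ _).trans (add_le_add_left (norm_add_le _ _) _)
    _ < ε := by nlinarith [norm_nonneg (x - y)]

theorem aFam_cont2 (hπ : ∀ g, ‖π g‖ ≤ W g) (l : ℕ) (γ : Fin l → ℝ → Gd)
    (C : Fin l → ℝ) (hC : ∀ i t, |t| ≤ 1 → W (γ i t) ≤ C i)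
    (hγ : ∀ i x, Filter.Tendsto (fun t => π (γ i t) x) (𝓝 0) (𝓝 x)) (τ : Fin l → Gd → ℝ)
    (hτ : ∀ i, Filter.Tendsto (τ i) (𝓝 1) (𝓝 0)) (x : B) :
    Filter.Tendsto (fun g => π (List.ofFn fun i => γ i (τ i g)).prod x) (𝓝 1) (𝓝 x) := by
  induction l with
  | zero => simp
  | succ l ih =>
    have ih' := ih (fun i => γ i.succ) (fun i => C i.succ) (fun i => hC i.succ) (fun i => hγ i.succ)
      (fun i => τ i.succ) (fun i => hτ i.succ)
    simp only [List.ofFn_succ, List.prod_cons, map_mul]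
    have h1 : Filter.Tendsto (fun g => π (γ 0 (τ 0 g)) x) (𝓝 1) (𝓝 x) := (hγ 0 x).comp (hτ 0)
    have h2 : ∀ᶠ g in 𝓝 (1 : Gd), |τ 0 g| ≤ 1 := by
      have := hτ 0 (Metric.closedBall_mem_nhds (0 : ℝ) one_pos)
      filter_upwards [this] with g hg
      simpa using hg
    rw [tendsto_iff_norm_sub_tendsto_zero] at ih' h1 ⊢
    have h3 : Filter.Tendsto (fun g => C 0 * ‖π (List.ofFn fun i : Fin l => γ i.succ (τ i.succ g)).prod x - x‖ +
      ‖π (γ 0 (τ 0 g)) x - x‖) (𝓝 (1 : Gd)) (𝓝 0) := by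
      have := (ih'.const_mul (C 0)).add h1
      simpa using this
    refine squeeze_zero' (Filter.Eventually.of_forall fun _ => norm_nonneg _) ?_ h3
    filter_upwards [h2] with g hg
    set y := π (List.ofFn fun i : Fin l => γ i.succ (τ i.succ g)).prod x with hy
    have e1 : (π (γ 0 (τ 0 g)) * π (List.ofFn fun i : Fin l => γ i.succ (τ i.succ g)).prod) x - x =
        π (γ 0 (τ 0 g)) (y - x) + (π (γ 0 (τ 0 g)) x - x) := by
      rw [map_sub, hy]
      change π (γ 0 (τ 0 g)) (π (List.ofFn fun i : Fin l => γ i.succ (τ i.succ g)).prod x) - x = _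
      abel
    rw [e1]
    refine (norm_add_le _ _).trans (add_le_add_left ?_ _)
    exact ((π _).le_opNorm _).trans (mul_le_mul_of_nonneg_right ((hπ _).trans (hC 0 _ hg))
      (norm_nonneg _))

theorem aFam_cont3 (hcont : ∀ x, Filter.Tendsto (fun g => π g x) (𝓝 1) (𝓝 x)) (x : B) :
    Continuous fun g => π g x := by
  rw [continuous_iff_continuousAt]
  intro g₀
  have h1 : Filter.Tendsto (fun g : Gd => g₀⁻¹ * g) (𝓝 g₀) (𝓝 1) := by
    have : Continuous fun g : Gd => g₀⁻¹ * g := continuous_const.mul continuous_id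
    have h := this.tendsto g₀
    rwa [inv_mul_cancel] at h
  have h2 := ((π g₀).continuous.tendsto x).comp ((hcont x).comp h1)
  refine h2.congr ?_
  intro g
  simp only [Function.comp]
  change (π g₀ * π (g₀⁻¹ * g)) x = _
  rw [← map_mul, mul_inv_cancel_left]

end cont

end aFam

section gen

variable {V : Type} [AddCommGroup V] [Module ℂ V] {Mo : HCModule GRd rho V} {W : Gd → ℝ}
  {Y : Type} [NormedAddCommGroup Y] [NormedSpace ℂ Y]

/-- the data -/
structure aFam_D (Mo : HCModule GRd rho V) (W : Gd → ℝ) (R : Gd →* (Y →L[ℂ] Y)) (j : V →ₗ[ℂ] Y) : Prop where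
  hW : IsWeight W
  bd : ∀ g y, ‖R g y‖ ≤ W g * ‖y‖
  inj : Function.Injective j
  deriv : ∀ (X : LieAlg GRd) (γ : ℝ → Gd), IsOneParam rho X.1 γ → ∀ v : V,
    HasDerivAt (fun t : ℝ => R (γ t) (j v)) (j (Mo.a X v)) 0
  K : ∀ (k : maxCompact rho) (v : V), R k.1 (j v) = j (Mo.κ k v)
  T : Taylor Mo (fun v => ‖j v‖)

variable (R : Gd →* (Y →L[ℂ] Y)) (j : V →ₗ[ℂ] Y)

/-- the closure of the image -/
noncomputable abbrev aFam_N : Submodule ℂ Y := (LinearMap.range j).topologicalClosure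

theorem aFam_N_closed : IsClosed (aFam_N j : Set Y) :=
  Submodule.isClosed_topologicalClosure _

theorem aFam_mem_N (v : V) : j v ∈ aFam_N j :=
  Submodule.le_topologicalClosure _ ⟨v, rfl⟩

variable {R j}

theorem aFam_stable0 (hD : aFam_D Mo W R j) (h1 : S_uniq) (g : Gd) (v : V) :
    R g (j v) ∈ aFam_N j := by
  have hcl : IsClosed (aFam_N j : Set Y) := aFam_N_closed j
  have key := h1 V Mo (fun v => ‖j v‖) (fun v => norm_nonneg _)
    hD.T W hD.hW (Y ⧸ aFam_N j)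
    (fun v g => (aFam_N j).mkQ (R g (j v)))
    (by
      intro X γ hγ v g
      have k1 := hD.deriv X γ hγ v
      let L : Y →L[ℂ] (Y ⧸ aFam_N j) := (aFam_N j).mkQL.comp (R g)
      have k2 := (L.restrictScalars ℝ).hasFDerivAt.comp_hasDerivAt (0 : ℝ) k1
      convert k2 using 1
      · ext t
        rw [map_mul]
        rfl
      · rfl)
    (by
      intro v g
      refine (Submodule.Quotient.norm_mk_le _ _).trans ?_
      refine (hD.bd g (j v)).trans ?_
      rw [mul_comm])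
    (by
      intro v
      rw [map_one]
      exact (Submodule.Quotient.mk_eq_zero _).2 (aFam_mem_N j v))
  exact (Submodule.Quotient.mk_eq_zero _).1 (key v g)

theorem aFam_stable (hD : aFam_D Mo W R j) (h1 : S_uniq) (g : Gd) (y : Y) (hy : y ∈ aFam_N j) :
    R g y ∈ aFam_N j := by
  have : (aFam_N j : Set Y) ⊆ (R g) ⁻¹' (aFam_N j : Set Y) := by
    change (closure (LinearMap.range j : Set Y)) ⊆ _
    refine closure_minimal ?_ ((aFam_N_closed j).preimage (R g).continuous)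
    rintro _ ⟨v, rfl⟩
    exact aFam_stable0 hD h1 g v
  exact this hy

/-- the representation on the closure -/
noncomputable def aFam_pi (hD : aFam_D Mo W R j) (h1 : S_uniq) :
    Gd →* (aFam_N j →L[ℂ] aFam_N j) where
  toFun := fun g => ((R g).comp (aFam_N j).subtypeL).codRestrict (aFam_N j)
    (fun y => aFam_stable hD h1 g y.1 y.2)
  map_one' := by
    ext y
    change R 1 y.1 = y.1
    rw [map_one]
    rfl
  map_mul' := by
    intro g h
    ext y
    change R (g * h) y.1 = R g (R h y.1)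
    rw [map_mul]
    rfl

theorem aFam_pi_coe (hD : aFam_D Mo W R j) (h1 : S_uniq) (g : Gd) (y : aFam_N j) :
    ((aFam_pi hD h1 g y : aFam_N j) : Y) = R g y.1 := rfl

theorem aFam_pi_norm (hD : aFam_D Mo W R j) (h1 : S_uniq) (g : Gd) :
    ‖aFam_pi hD h1 g‖ ≤ W g := by
  refine ContinuousLinearMap.opNorm_le_bound _ (hD.hW.1 g).le ?_
  intro y
  exact hD.bd g y.1

variable (j) in
/-- the embedding in the closure -/
noncomputable def aFam_i : V →ₗ[ℂ] aFam_N j :=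
  j.codRestrict (aFam_N j) (aFam_mem_N j)

theorem aFam_i_coe (v : V) : ((aFam_i j v : aFam_N j) : Y) = j v := rfl

theorem aFam_i_dense : DenseRange (aFam_i j) := by
  have : Dense (Set.range (aFam_i j)) := by
    rw [Subtype.dense_iff]
    intro y hy
    have h1 : y ∈ closure (LinearMap.range j : Set Y) := hy
    refine closure_mono ?_ h1
    rintro _ ⟨v, rfl⟩
    exact ⟨aFam_i j v, ⟨v, rfl⟩, rfl⟩
  exact this

theorem aFam_i_deriv (hD : aFam_D Mo W R j) (h1 : S_uniq) (X : LieAlg GRd)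
    (γ : ℝ → Gd) (hγ : IsOneParam rho X.1 γ) (v : V) :
    HasDerivAt (fun t : ℝ => aFam_pi hD h1 (γ t) (aFam_i j v)) (aFam_i j (Mo.a X v)) 0 := by
  have k1 := hD.deriv X γ hγ v
  rw [hasDerivAt_iff_tendsto] at k1 ⊢
  exact k1

theorem aFam_i_K (hD : aFam_D Mo W R j) (h1 : S_uniq) (k : maxCompact rho) (v : V) :
    aFam_pi hD h1 k.1 (aFam_i j v) = aFam_i j (Mo.κ k v) := by
  apply Subtype.ext
  rw [aFam_pi_coe, aFam_i_coe, aFam_i_coe, hD.K]

theorem aFam_gen [CompleteSpace Y] (hD : aFam_D Mo W R j) (h1 : S_uniq) (h2 : S_coord) (h3 : S_wbd)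
    (hK : KFin Mo) : IsNormIn1 Mo W (fun v => ‖j v‖) := by
  have hW := hD.hW
  have hc : CompleteSpace (aFam_N j) := (aFam_N_closed j).completeSpace_coe
  have hcont : ∀ x, Continuous fun g => aFam_pi hD h1 g x := by
    apply aFam_cont3
    obtain ⟨l, X, γ, τ, hγ, hτ, hev⟩ := h2
    have hC : ∀ i : Fin l, ∃ C, ∀ t, |t| ≤ 1 → W (γ i t) ≤ C := fun i => (h3 W hW).1 (γ i) (hγ i).1 1
    choose C hC using hC
    have hγ0 : ∀ i, γ i 0 = 1 := by
      intro i
      have := (hγ i).2.1 0 0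
      rw [add_zero] at this
      exact (mul_eq_left.1 this.symm)
    have h4 : ∀ (i : Fin l) (x), Filter.Tendsto (fun t => aFam_pi hD h1 (γ i t) x) (𝓝 0) (𝓝 x) := by
      intro i
      refine aFam_cont1 W _ (aFam_pi_norm hD h1) (γ i) (Set.range (aFam_i j))
        aFam_i_dense ?_ (C i) ?_
      · rintro _ ⟨v, rfl⟩
        have := (aFam_i_deriv hD h1 (X i) (γ i) (hγ i) v).continuousAt.tendsto
        simp only [hγ0 i, map_one] at this
        exact this
      · have := Metric.closedBall_mem_nhds (0 : ℝ) one_pos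
        filter_upwards [this] with t ht
        exact hC i t (by simpa using ht)
    intro x
    refine (aFam_cont2 W _ (aFam_pi_norm hD h1) l γ C hC h4 τ hτ x).congr' ?_
    filter_upwards [hev] with g hg
    rw [← hg]
  have hinj : Function.Injective (aFam_i j) := by
    intro u v huv
    exact hD.inj (congrArg Subtype.val huv)
  refine ⟨aFam_N j, inferInstance, inferInstance, hc, aFam_i j, aFam_pi hD h1,
    ⟨hinj, aFam_i_dense, hcont, aFam_i_K hD h1, aFam_i_deriv hD h1, ?_⟩, ?_,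
    aFam_pi_norm hD h1⟩
  · exact hK (aFam_N j) (aFam_i j) (aFam_pi hD h1) hinj aFam_i_dense hcont (aFam_i_K hD h1)
  · intro v
    rfl

end gen

/-- TARGET -/
theorem a_fam (h1 : S_uniq) (h2 : S_coord) (h3 : S_wbd) : S_fam := by
  intro V _ _ Mo hK W hW Ω E _ _ _ F hF hT
  have e : famNorm W E F = fun v => ‖aFam_i0 hW hF v‖ := by
    ext v
    exact (aFam_i0_norm hW hF v).symm
  have hD : aFam_D Mo W (aFam_R hW) (aFam_i0 hW hF) :=
    { hW := hW
      bd := aFam_R_le hW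
      inj := aFam_i0_inj hW hF
      deriv := aFam_hasDeriv hW hF h3
      K := aFam_i_K0 hW hF
      T := by rw [← e]; exact hT }
  rw [e]
  exact aFam_gen hD h1 h2 h3 hK

end Pool.Agent.H913.LG
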