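import Pool.Agent.H913.LG.Stmts

/- PROJECT LG (owner helper913): MP_c67f28_al, MP_d7c545_al, MP_a304db_al, MP_6a3a89_al: norms on Harish-Chandra modules of
G = GL(2,R)+ x GL(2,R)+ (Gd below); common infrastructure.
SETUP (once per box, about 2 minutes):
  cd /workdir/pool/outputs/live && git fetch -q origin && mkdir -p /workdir/pool/Pool/Agent/H913/LG /workdir/pool/Pool/Agent/H913/SGP && git show origin/main:Pool/Agent/H913/SGP/Definitions.lean > /workdir/pool/Pool/Agent/H913/SGP/Definitions.lean && for f in Defs HCBase HCAux Mod Stmts; do git show origin/helper913:Pool/Agent/H913/LG/$f.lean > /workdir/pool/Pool/Agent/H913/LG/$f.lean; done; cd /workdir/pool && lake build Pool.Agent.H913.LG.Stmts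
(ignore the sorry warnings of HCBase and HCAux: these are other jobs.) Read Defs, HCBase, Mod, Stmts first (short).
Put this file at Pool/Agent/H913/LG/AId.lean, replace the sorry of the TARGET by a proof; auxiliary lemmas before it are
welcome (give them names starting with aId_ to avoid clashes). Statement of the target unchanged. Hypotheses (h1 : S_xxx) of the
target are proved elsewhere, use them freely. No sorry, no axioms. Respect RULES.md Validity 2 (banned words such as notation,
macro, syntax, prefix, tactic; no straight double quotes; no line comment starting in odd places).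
If the target is false or awkward, message helper913 at once (the statement will be fixed).
Paste the whole compiled file in jobs.result with status='done', done_at=now(), then: team-sql notify inbox_helper913 done -/

open Matrix NormedSpace
open scoped Matrix ComplexConjugate

namespace Pool.Agent.H913.LG

open Pool.Agent.H913.SGP

/-! Proof. Apply S_uniq to Φ v g = L (π g (ι v)) - F v g, r' v = (‖L‖ + 1) * ‖ι v‖ + r v, weight W + W' (a sum of weights is a weight: (W+W')(gh) ≤ WgWh + W'gW'h ≤ (W+W')(g)(W+W')(h)). Taylor for r': take the minimum of the two t₀ (nonnegative terms, comparison; (‖L‖+1) constant). Derivative of t ↦ L (π (g * γ t) (ι v)) = (L ∘ π g) (π (γ t) (ι v)) at 0: continuous linear map. Φ v 1 = 0 since π 1 = 1. -/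

theorem aId_weight {W W' : Gd → ℝ} (h : IsWeight W) (h' : IsWeight W') :
    IsWeight (fun g => W g + W' g) := by
  refine ⟨fun g => add_pos (h.1 g) (h'.1 g), fun g => ?_, fun g k => ?_⟩
  · obtain ⟨U, hU, C, hC⟩ := h.2.1 g
    obtain ⟨U', hU', C', hC'⟩ := h'.2.1 g
    exact ⟨U ∩ U', Filter.inter_mem hU hU', C + C', fun x hx => add_le_add (hC x hx.1) (hC' x hx.2)⟩
  · have a1 := h.2.2 g k
    have a2 := h'.2.2 g k
    have b1 := h.1 g
    have b2 := h.1 k
    have b3 := h'.1 g
    have b4 := h'.1 k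
    have c1 := mul_pos b1 b4
    have c2 := mul_pos b3 b2
    nlinarith

theorem aId_taylor {V : Type} [AddCommGroup V] [Module ℂ V] (Mo : HCModule GRd rho V)
    {p r : V → ℝ} (hp : ∀ v, 0 ≤ p v) (hr : ∀ v, 0 ≤ r v) (c : ℝ) (hc : 0 ≤ c)
    (h1 : Taylor Mo p) (h2 : Taylor Mo r) : Taylor Mo (fun v => c * p v + r v) := by
  intro X
  obtain ⟨t1, ht1, k1⟩ := h1 X
  obtain ⟨t2, ht2, k2⟩ := h2 X
  refine ⟨min t1 t2, lt_min ht1 ht2, fun v => ?_⟩
  have ht : 0 ≤ min t1 t2 := (lt_min ht1 ht2).le
  refine Summable.of_nonneg_of_le (fun n => ?_) (fun n => ?_)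
    (((k1 v).mul_left c).add (k2 v))
  · have a1 := hp ((Mo.a X ^ n) v)
    have a2 := hr ((Mo.a X ^ n) v)
    positivity
  · have a1 := hp ((Mo.a X ^ n) v)
    have a2 := hr ((Mo.a X ^ n) v)
    have e1 : min t1 t2 ^ n / (n.factorial : ℝ) ≤ t1 ^ n / (n.factorial : ℝ) :=
      div_le_div_of_nonneg_right (pow_le_pow_left₀ ht (min_le_left _ _) n) (by positivity)
    have e2 : min t1 t2 ^ n / (n.factorial : ℝ) ≤ t2 ^ n / (n.factorial : ℝ) :=
      div_le_div_of_nonneg_right (pow_le_pow_left₀ ht (min_le_right _ _) n) (by positivity)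
    have e3 := mul_le_mul_of_nonneg_right e1 (mul_nonneg hc a1)
    have e4 := mul_le_mul_of_nonneg_right e2 a2
    calc min t1 t2 ^ n / (n.factorial : ℝ) * (c * p ((Mo.a X ^ n) v) + r ((Mo.a X ^ n) v))
        = min t1 t2 ^ n / (n.factorial : ℝ) * (c * p ((Mo.a X ^ n) v)) +
          min t1 t2 ^ n / (n.factorial : ℝ) * r ((Mo.a X ^ n) v) := by ring
      _ ≤ t1 ^ n / (n.factorial : ℝ) * (c * p ((Mo.a X ^ n) v)) +
          t2 ^ n / (n.factorial : ℝ) * r ((Mo.a X ^ n) v) := add_le_add e3 e4
      _ = c * (t1 ^ n / (n.factorial : ℝ) * p ((Mo.a X ^ n) v)) +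
          t2 ^ n / (n.factorial : ℝ) * r ((Mo.a X ^ n) v) := by ring

/-- TARGET -/
theorem a_id (h1 : S_uniq) : S_id := by
  intro V _ _ Mo E _ _ ι π W hW hπ hder htay B _ _ L F r W' hW' hr htr hF hFb hF1 v g
  have hLn : 0 ≤ ‖L‖ + 1 := by positivity
  have hr' : ∀ v, 0 ≤ (‖L‖ + 1) * ‖ι v‖ + r v := fun v =>
    add_nonneg (mul_nonneg hLn (norm_nonneg _)) (hr v)
  have key := h1 V Mo (fun v => (‖L‖ + 1) * ‖ι v‖ + r v) hr'
    (aId_taylor Mo (fun v => norm_nonneg _) hr _ hLn htay htr) (fun g => W g + W' g)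
    (aId_weight hW hW') B (fun v g => L (π g (ι v)) - F v g) ?_ ?_ ?_ v g
  · exact sub_eq_zero.1 key
  · intro X γ hγ v g
    have d1 := hder X γ hγ v
    have d2 : HasDerivAt (fun t : ℝ => L (π (g * γ t) (ι v))) (L (π g (ι (Mo.a X v)))) 0 := by
      have := ((L.comp (π g)).restrictScalars ℝ).hasFDerivAt.comp_hasDerivAt (0 : ℝ) d1
      refine this.congr_of_eventuallyEq (Filter.Eventually.of_forall fun t => ?_)
      simp only [map_mul, Function.comp_apply]
      rfl
    exact d2.sub (hF X γ hγ v g)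
  · intro v g
    have a1 : ‖L (π g (ι v))‖ ≤ ‖L‖ * (W g * ‖ι v‖) := by
      refine le_trans (L.le_opNorm _) (mul_le_mul_of_nonneg_left ?_ (norm_nonneg _))
      exact le_trans ((π g).le_opNorm _) (mul_le_mul_of_nonneg_right (hπ g) (norm_nonneg _))
    have a2 := hFb v g
    have b1 := (hW.1 g).le
    have b2 := (hW'.1 g).le
    have b3 := norm_nonneg (ι v)
    have b4 := hr v
    have b5 := norm_nonneg L
    refine le_trans (norm_sub_le _ _) ?_
    have c1 : 0 ≤ W g * ‖ι v‖ := mul_nonneg b1 b3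
    have c2 : 0 ≤ (‖L‖ + 1) * ‖ι v‖ * W' g := by positivity
    have c3 : 0 ≤ r v * W g := mul_nonneg b4 b1
    calc ‖L (π g (ι v))‖ + ‖F v g‖ ≤ ‖L‖ * (W g * ‖ι v‖) + r v * W' g := add_le_add a1 a2
      _ ≤ ((‖L‖ + 1) * ‖ι v‖ + r v) * (W g + W' g) := by nlinarith
  · intro v
    have : π 1 = 1 := map_one π
    simp only [this, hF1]
    exact sub_self _

end Pool.Agent.H913.LG
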