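import Pool.Agent.H913.LG.Stmts

/-! `K`-finite vectors of completions -/

open Matrix NormedSpace
open scoped Matrix ComplexConjugate

namespace Pool.Agent.H913.LG

open Pool.Agent.H913.SGP

section Avg

variable {E : Type} [NormedAddCommGroup E] [NormedSpace ℂ E]

/-- a strongly continuous periodic family of operators -/
structure aKfin_Circ (W : ℝ → E →L[ℂ] E) : Prop where
  cont : ∀ x, Continuous fun s => W s x
  one : W 0 = 1
  per : ∀ s, W (s + 2 * Real.pi) = W s

/-- the average against a character -/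
noncomputable def aKfin_Q (W : ℝ → E →L[ℂ] E) (a : ℤ) (z : E) : E :=
  ((1 / (2 * Real.pi) : ℝ) : ℂ) • ∫ s in (0:ℝ)..(2 * Real.pi),
    Complex.exp (Complex.I * (a * s)) • W s z

theorem aKfin_cont {W : ℝ → E →L[ℂ] E} (hW : aKfin_Circ W) (a : ℤ) (z : E) :
    Continuous fun s : ℝ => Complex.exp (Complex.I * (a * s)) • W s z := by
  have h := hW.cont z
  fun_prop

theorem aKfin_Q_add {W : ℝ → E →L[ℂ] E} (hW : aKfin_Circ W) (a : ℤ) (y z : E) :
    aKfin_Q W a (y + z) = aKfin_Q W a y + aKfin_Q W a z := by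
  unfold aKfin_Q
  rw [← smul_add, ← intervalIntegral.integral_add ((aKfin_cont hW a y).intervalIntegrable _ _)
    ((aKfin_cont hW a z).intervalIntegrable _ _)]
  congr 1
  refine intervalIntegral.integral_congr fun s _ => ?_
  simp only [map_add, smul_add]

theorem aKfin_Q_smul {W : ℝ → E →L[ℂ] E} (a : ℤ) (c : ℂ) (z : E) :
    aKfin_Q W a (c • z) = c • aKfin_Q W a z := by
  unfold aKfin_Q
  have h1 : ∫ s in (0:ℝ)..(2 * Real.pi), c • (Complex.exp (Complex.I * (a * s)) • W s z) =
      c • ∫ s in (0:ℝ)..(2 * Real.pi), Complex.exp (Complex.I * (a * s)) • W s z :=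
    intervalIntegral.integral_smul c _
  rw [smul_comm c, ← h1]
  congr 1
  refine intervalIntegral.integral_congr fun s _ => ?_
  simp only [map_smul]
  rw [smul_comm]

theorem aKfin_exp_norm (a : ℤ) (s : ℝ) : ‖Complex.exp (Complex.I * (a * s))‖ = 1 := by
  have : Complex.I * ((a : ℂ) * s) = (((a : ℝ) * s : ℝ) : ℂ) * Complex.I := by
    push_cast
    ring
  rw [this, Complex.norm_exp_ofReal_mul_I]

variable [CompleteSpace E]

theorem aKfin_Q_bound {W : ℝ → E →L[ℂ] E} (hW : aKfin_Circ W) (a : ℤ) :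
    ∃ C : ℝ, ∀ z, ‖aKfin_Q W a z‖ ≤ C * ‖z‖ := by
  obtain ⟨C, hC⟩ := banach_steinhaus (g := fun s : Set.Icc (0:ℝ) (2 * Real.pi) => W s.1) (by
    intro x
    obtain ⟨C, hC⟩ := (isCompact_Icc (a := (0:ℝ)) (b := 2 * Real.pi)).exists_bound_of_continuousOn
      (hW.cont x).continuousOn
    exact ⟨C, fun i => hC i.1 i.2⟩)
  refine ⟨C, fun z => ?_⟩
  unfold aKfin_Q
  have hpi := Real.two_pi_pos
  have h1 : ‖∫ s in (0:ℝ)..(2 * Real.pi), Complex.exp (Complex.I * (a * s)) • W s z‖ ≤
      (C * ‖z‖) * |2 * Real.pi - 0| := by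
    refine intervalIntegral.norm_integral_le_of_norm_le_const fun s hs => ?_
    rw [Set.uIoc_of_le hpi.le] at hs
    rw [norm_smul, aKfin_exp_norm, one_mul]
    refine ((W s).le_opNorm z).trans (mul_le_mul_of_nonneg_right ?_ (norm_nonneg z))
    exact hC ⟨s, hs.1.le, hs.2⟩
  rw [norm_smul, Complex.norm_real, Real.norm_of_nonneg (by positivity)]
  rw [sub_zero, abs_of_pos hpi] at h1
  calc 1 / (2 * Real.pi) * ‖∫ s in (0:ℝ)..(2 * Real.pi), Complex.exp (Complex.I * (a * s)) • W s z‖
      ≤ 1 / (2 * Real.pi) * (C * ‖z‖ * (2 * Real.pi)) :=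
        mul_le_mul_of_nonneg_left h1 (by positivity)
    _ = C * ‖z‖ := by field_simp

/-- the average as a continuous linear map -/
theorem aKfin_QL {W : ℝ → E →L[ℂ] E} (hW : aKfin_Circ W) (a : ℤ) :
    ∃ P : E →L[ℂ] E, ∀ z, P z = aKfin_Q W a z := by
  obtain ⟨C, hC⟩ := aKfin_Q_bound hW a
  exact ⟨LinearMap.mkContinuous
    { toFun := aKfin_Q W a
      map_add' := aKfin_Q_add hW a
      map_smul' := fun c z => aKfin_Q_smul a c z } C hC, fun z => rfl⟩

theorem aKfin_int (n : ℤ) : ((1 / (2 * Real.pi) : ℝ) : ℂ) *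
    ∫ s in (0:ℝ)..(2 * Real.pi), Complex.exp (Complex.I * (n * s)) = if n = 0 then 1 else 0 := by
  have hpi := Real.pi_pos.ne'
  split_ifs with hn
  · subst hn
    simp
    have : (Real.pi : ℂ) ≠ 0 := by exact_mod_cast hpi
    field_simp
  · have h1 : (Complex.I * n) ≠ 0 := mul_ne_zero Complex.I_ne_zero (by exact_mod_cast hn)
    have h2 : ∀ s : ℝ, Complex.exp (Complex.I * (n * s)) = Complex.exp (Complex.I * n * s) := by
      intro s
      rw [mul_assoc]
    simp only [h2]
    rw [integral_exp_mul_complex h1]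
    have h3 : Complex.exp (Complex.I * n * ((2 * Real.pi : ℝ) : ℂ)) = 1 := by
      have : Complex.I * (n : ℂ) * ((2 * Real.pi : ℝ) : ℂ) = n * (2 * Real.pi * Complex.I) := by
        push_cast
        ring
      rw [this, Complex.exp_int_mul_two_pi_mul_I]
    rw [h3]
    simp

theorem aKfin_Q_eig {W : ℝ → E →L[ℂ] E} (a m : ℤ) (e : E)
    (he : ∀ s : ℝ, W s e = Complex.exp (-Complex.I * (m * s)) • e) :
    aKfin_Q W a e = (if a = m then (1 : ℂ) else 0) • e := by
  unfold aKfin_Q
  have h1 : ∀ s : ℝ, Complex.exp (Complex.I * (a * s)) • W s e =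
      Complex.exp (Complex.I * (((a - m : ℤ) : ℂ) * s)) • e := by
    intro s
    rw [he, smul_smul, ← Complex.exp_add]
    congr 2
    push_cast
    ring
  simp only [h1]
  rw [intervalIntegral.integral_smul_const, smul_smul, aKfin_int]
  congr 1
  by_cases h : a = m
  · rw [if_pos h, if_pos (by omega)]
  · rw [if_neg h, if_neg (by omega)]

theorem aKfin_Q_mem {W : ℝ → E →L[ℂ] E} (hW : aKfin_Circ W) (a : ℤ) (F : Submodule ℂ E)
    (hF : IsClosed (F : Set E)) (z : E) (hz : ∀ s, W s z ∈ F) : aKfin_Q W a z ∈ F := by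
  unfold aKfin_Q
  refine F.smul_mem _ ?_
  have _i : CompleteSpace F := hF.completeSpace_coe
  let g : ℝ → F := fun s => ⟨Complex.exp (Complex.I * (a * s)) • W s z, F.smul_mem _ (hz s)⟩
  have hg : Continuous g := Continuous.subtype_mk (aKfin_cont hW a z) _
  have h1 : ∫ s in (0:ℝ)..(2 * Real.pi), F.subtypeL (g s) =
      F.subtypeL (∫ s in (0:ℝ)..(2 * Real.pi), g s) :=
    F.subtypeL.intervalIntegral_comp_comm (hg.intervalIntegrable _ _)
  have h2 : ∀ s, F.subtypeL (g s) = Complex.exp (Complex.I * (a * s)) • W s z := fun s => rfl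
  simp only [h2] at h1
  rw [h1]
  exact Subtype.mem _

theorem aKfin_uniq {W : ℝ → E →L[ℂ] E} (hW : aKfin_Circ W) (Λ : E →L[ℂ] ℂ) (x : E)
    (h : ∀ a : ℤ, Λ (aKfin_Q W a x) = 0) : Λ x = 0 := by
  have _i : Fact (0 < 2 * Real.pi) := ⟨Real.two_pi_pos⟩
  have hfc : Continuous fun s : ℝ => Λ (W s x) := Λ.continuous.comp (hW.cont x)
  have hper : Function.Periodic (fun s : ℝ => Λ (W s x)) (2 * Real.pi) := fun s => by
    simp only [hW.per]
  let g : C(AddCircle (2 * Real.pi), ℂ) := ⟨hper.lift, by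
    refine (QuotientAddGroup.isOpenQuotientMap_mk.isQuotientMap.continuous_iff).2 ?_
    exact hfc⟩
  have hgs : ∀ s : ℝ, g (s : AddCircle (2 * Real.pi)) = Λ (W s x) := fun s => rfl
  have hcoef : ∀ n : ℤ, fourierCoeff g n = 0 := by
    intro n
    rw [fourierCoeff_eq_intervalIntegral g n 0, zero_add]
    have h1 := h (-n)
    unfold aKfin_Q at h1
    rw [map_smul, ← Λ.intervalIntegral_comp_comm ((aKfin_cont hW (-n) x).intervalIntegrable _ _),
      smul_eq_mul] at h1
    have h2 : ∫ s in (0:ℝ)..(2 * Real.pi), Λ (Complex.exp (Complex.I * (((-n : ℤ) : ℂ) * s)) • W s x) = 0 := by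
      rcases mul_eq_zero.1 h1 with h3 | h3
      · exfalso
        have : (1 / (2 * Real.pi) : ℝ) = 0 := by exact_mod_cast h3
        have h4 : (1 / (2 * Real.pi) : ℝ) ≠ 0 := by positivity
        exact h4 this
      · exact h3
    have h5 : ∫ s in (0:ℝ)..(2 * Real.pi), (fourier (-n) (s : AddCircle (2 * Real.pi)) : ℂ) • g s =
        ∫ s in (0:ℝ)..(2 * Real.pi), Λ (Complex.exp (Complex.I * (((-n : ℤ) : ℂ) * s)) • W s x) := by
      refine intervalIntegral.integral_congr fun s _ => ?_
      simp only [hgs]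
      rw [map_smul, fourier_coe_apply]
      congr 2
      have : (Real.pi : ℂ) ≠ 0 := by exact_mod_cast Real.pi_pos.ne'
      push_cast
      field_simp
    rw [h5, h2, smul_zero]
  have hsum : HasSum (fun i => fourierCoeff g i • fourier i) g := by
    apply hasSum_fourier_series_of_summable
    have : fourierCoeff g = fun _ => 0 := funext hcoef
    rw [this]
    exact summable_zero
  have hg0 : g = 0 := by
    have h6 : (fun i : ℤ => fourierCoeff g i • (fourier i : C(AddCircle (2 * Real.pi), ℂ))) =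
        fun _ => 0 := by
      funext i
      rw [hcoef, zero_smul]
    rw [h6] at hsum
    exact hsum.unique hasSum_zero
  have h7 := hgs 0
  rw [hg0, hW.one] at h7
  simpa using h7.symm

end Avg

theorem aKfin_rot0 : rot 0 = 1 := by
  ext i j
  fin_cases i <;> fin_cases j <;> simp [rot]

theorem aKfin_rotp (s : ℝ) : rot (s + 2 * Real.pi) = rot s := by
  unfold rot
  rw [Real.cos_add_two_pi, Real.sin_add_two_pi]

theorem aKfin_inj {k k' : maxCompact rho} (h1 : mt k.1.1 = mt k'.1.1)
    (h2 : mt k.1.2 = mt k'.1.2) : k = k' :=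
  Subtype.ext (Prod.ext (Subtype.ext (Units.ext h1)) (Subtype.ext (Units.ext h2)))

theorem aKfin_sep {E : Type} [NormedAddCommGroup E] [NormedSpace ℂ E] (R : Submodule ℂ E)
    (hR : IsClosed (R : Set E)) (x : E) (h : ∀ Λ : E →L[ℂ] ℂ, (∀ y ∈ R, Λ y = 0) → Λ x = 0) :
    x ∈ R := by
  by_contra hx
  obtain ⟨f, u, h1, h2⟩ := RCLike.geometric_hahn_banach_closed_point (𝕜 := ℂ) (s := (R : Set E))
    (R.restrictScalars ℝ).convex hR hx
  have h3 : ∀ y ∈ R, f y = 0 := by
    intro y hy
    by_contra hne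
    have h4 := h1 ((((|u| + 1 : ℝ) : ℂ) / f y) • y) (R.smul_mem _ hy)
    rw [map_smul, smul_eq_mul, div_mul_cancel₀ _ hne] at h4
    have h5 : RCLike.re (((|u| + 1 : ℝ) : ℂ)) = |u| + 1 := Complex.ofReal_re _
    rw [h5] at h4
    have := le_abs_self u
    linarith
  have h6 := h f h3
  have h7 := h1 0 R.zero_mem
  rw [map_zero, map_zero] at h7
  rw [h6, map_zero] at h2
  linarith

/-- TARGET -/
theorem a_kfin (h1 : S_K) : S_kfin := by
  intro I M h E _ _ _ ι π hinj hdense hcont hK x hfin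
  obtain ⟨c, hc, -, hcr, hck⟩ := h1
  have hc0 : c (0, 0) = 1 := by
    apply aKfin_inj
    · rw [(hcr (0, 0)).1, aKfin_rot0]
      rfl
    · rw [(hcr (0, 0)).2, aKfin_rot0]
      rfl
  have hev : ∀ (p : ℝ × ℝ) (i : I), π (c p).1 (ι (ee i)) =
      Complex.exp (-Complex.I * ((M.μ i : ℂ) * p.1 + (M.ν i : ℂ) * p.2)) • ι (ee i) := by
    intro p i
    rw [hK]
    have e1 : (M.toHC h).κ (c p) = M.kst p.1 p.2 := hck I M p
    rw [e1, ← map_smul]
    congr 1
    unfold TMod.kst dg
    rw [Finsupp.linearCombination_single, one_smul]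
  let W1 : ℝ → E →L[ℂ] E := fun s => π (c (s, 0)).1
  let W2 : ℝ → E →L[ℂ] E := fun t => π (c (0, t)).1
  have hW1 : aKfin_Circ W1 := by
    refine ⟨fun y => ?_, ?_, fun s => ?_⟩
    · exact (hcont y).comp (continuous_subtype_val.comp (hc.comp (by fun_prop)))
    · show π (c (0, 0)).1 = 1
      rw [hc0]
      exact map_one π
    · show π (c (s + 2 * Real.pi, 0)).1 = π (c (s, 0)).1
      have : c (s + 2 * Real.pi, 0) = c (s, 0) := by
        apply aKfin_inj
        · rw [(hcr _).1, (hcr _).1]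
          exact aKfin_rotp s
        · rw [(hcr _).2, (hcr _).2]
      rw [this]
  have hW2 : aKfin_Circ W2 := by
    refine ⟨fun y => ?_, ?_, fun s => ?_⟩
    · exact (hcont y).comp (continuous_subtype_val.comp (hc.comp (by fun_prop)))
    · show π (c (0, 0)).1 = 1
      rw [hc0]
      exact map_one π
    · show π (c (0, s + 2 * Real.pi)).1 = π (c (0, s)).1
      have : c (0, s + 2 * Real.pi) = c (0, s) := by
        apply aKfin_inj
        · rw [(hcr _).1, (hcr _).1]
        · rw [(hcr _).2, (hcr _).2]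
          exact aKfin_rotp s
      rw [this]
  have hE1 : ∀ i (s : ℝ), W1 s (ι (ee i)) = Complex.exp (-Complex.I * (M.μ i * s)) • ι (ee i) := by
    intro i s
    have := hev (s, 0) i
    simpa using this
  have hE2 : ∀ i (s : ℝ), W2 s (ι (ee i)) = Complex.exp (-Complex.I * (M.ν i * s)) • ι (ee i) := by
    intro i s
    have := hev (0, s) i
    simpa using this
  -- the space spanned by the orbit
  set F : Submodule ℂ E := Submodule.span ℂ (Set.range fun k : maxCompact rho => π k.1 x) with hF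
  have _i : FiniteDimensional ℂ F := hfin
  have hFc : IsClosed (F : Set E) := F.closed_of_finiteDimensional
  have hxF : x ∈ F := by
    refine Submodule.subset_span ⟨1, ?_⟩
    show π (1 : maxCompact rho).1 x = x
    have : π (1 : maxCompact rho).1 = 1 := map_one π
    rw [this]
    rfl
  have hFinv : ∀ (k : maxCompact rho) (y : E), y ∈ F → π k.1 y ∈ F := by
    intro k y hy
    induction hy using Submodule.span_induction with
    | mem y hy =>
      obtain ⟨l, rfl⟩ := hy
      refine Submodule.subset_span ⟨k * l, ?_⟩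
      show π (k * l).1 x = π k.1 (π l.1 x)
      have : π (k * l).1 = π k.1 * π l.1 := map_mul π _ _
      rw [this]
      rfl
    | zero => rw [map_zero]; exact F.zero_mem
    | add y z _ _ hy hz => rw [map_add]; exact F.add_mem hy hz
    | smul a y _ hy => rw [map_smul]; exact F.smul_mem a hy
  let R : Submodule ℂ E := F ⊓ LinearMap.range ι
  have hRc : IsClosed (R : Set E) := by
    have _i : FiniteDimensional ℂ R := Submodule.finiteDimensional_of_le (inf_le_left : R ≤ F)
    exact R.closed_of_finiteDimensional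
  -- the weight spaces
  have hQR : ∀ (a b : ℤ) (z : E), aKfin_Q W1 a (aKfin_Q W2 b z) ∈ LinearMap.range ι := by
    intro a b z
    let Vab : Submodule ℂ E := Submodule.span ℂ ((fun i => ι (ee i)) '' {i | M.μ i = a ∧ M.ν i = b})
    have _i : FiniteDimensional ℂ Vab := FiniteDimensional.span_of_finite ℂ ((h.fib a b).image _)
    have hVc : IsClosed (Vab : Set E) := Vab.closed_of_finiteDimensional
    have hVr : Vab ≤ LinearMap.range ι := by
      rw [Submodule.span_le]
      rintro _ ⟨i, -, rfl⟩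
      exact ⟨ee i, rfl⟩
    obtain ⟨P1, hP1⟩ := aKfin_QL hW1 a
    obtain ⟨P2, hP2⟩ := aKfin_QL hW2 b
    have hP : ∀ z, P1 (P2 z) ∈ Vab := by
      intro z
      have hcl : IsClosed {z | P1 (P2 z) ∈ Vab} :=
        hVc.preimage (P1.continuous.comp P2.continuous)
      refine hdense.induction_on z hcl fun v => ?_
      show P1 (P2 (ι v)) ∈ Vab
      induction v using Finsupp.induction_linear with
      | zero => rw [map_zero, map_zero, map_zero]; exact Vab.zero_mem
      | add u v hu hv => rw [map_add, map_add, map_add]; exact Vab.add_mem hu hv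
      | single i r =>
        have e1 : (Finsupp.single i r : I →₀ ℂ) = r • ee i := by
          rw [Finsupp.smul_single, smul_eq_mul, mul_one]
        rw [e1, map_smul, map_smul, map_smul]
        refine Vab.smul_mem _ ?_
        rw [hP2, aKfin_Q_eig b (M.ν i) _ (hE2 i), map_smul, hP1, aKfin_Q_eig a (M.μ i) _ (hE1 i)]
        by_cases hi : M.μ i = a ∧ M.ν i = b
        · exact Vab.smul_mem _ (Vab.smul_mem _ (Submodule.subset_span ⟨i, hi, rfl⟩))
        · by_cases hb : b = M.ν i
          · have ha : ¬ a = M.μ i := fun ha => hi ⟨ha.symm, hb.symm⟩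
            rw [if_neg ha, zero_smul, smul_zero]
            exact Vab.zero_mem
          · rw [if_neg hb, zero_smul]
            exact Vab.zero_mem
    have h2 := hVr (hP z)
    rwa [hP1, hP2] at h2
  have hQF2 : ∀ b : ℤ, aKfin_Q W2 b x ∈ F := fun b =>
    aKfin_Q_mem hW2 b F hFc x fun s => hFinv _ x hxF
  have hQF1 : ∀ a b : ℤ, aKfin_Q W1 a (aKfin_Q W2 b x) ∈ F := fun a b =>
    aKfin_Q_mem hW1 a F hFc _ fun s => hFinv _ _ (hQF2 b)
  have hx : x ∈ R := by
    refine aKfin_sep R hRc x fun Λ hΛ => ?_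
    refine aKfin_uniq hW2 Λ x fun b => ?_
    refine aKfin_uniq hW1 Λ _ fun a => ?_
    exact hΛ _ ⟨hQF1 a b, hQR a b x⟩
  exact hx.2

end Pool.Agent.H913.LG
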