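import Pool.Agent.H913.LG.Stmts

open Matrix NormedSpace
open scoped Matrix ComplexConjugate

namespace Pool.Agent.H913.LG

open Pool.Agent.H913.SGP

theorem aMax_fam_bdd {V : Type} [AddCommGroup V] [Module ℂ V] {Mo : HCModule GRd rho V}
    {W : Gd → ℝ} (hW : ∀ g, 0 < W g) {Ω : Type} {E : Ω → Type} [∀ a, NormedAddCommGroup (E a)]
    [∀ a, NormedSpace ℂ (E a)] {F : ∀ a, V → Gd → E a} (hF : IsFam Mo W E F) (v : V) :
    BddAbove (Set.range fun x : Ω × Gd => ‖F x.1 v x.2‖ / W x.2) := by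
  obtain ⟨C, hC⟩ := hF.bound v
  refine ⟨C, ?_⟩
  rintro _ ⟨x, rfl⟩
  exact (div_le_iff₀ (hW x.2)).2 (hC x.1 x.2)

theorem aMax_fam_le {V : Type} [AddCommGroup V] [Module ℂ V] {Mo : HCModule GRd rho V}
    {W : Gd → ℝ} (hW : ∀ g, 0 < W g) {Ω : Type} {E : Ω → Type} [∀ a, NormedAddCommGroup (E a)]
    [∀ a, NormedSpace ℂ (E a)] {F : ∀ a, V → Gd → E a} (hF : IsFam Mo W E F) (v : V) (a : Ω)
    (g : Gd) : ‖F a v g‖ ≤ W g * famNorm W E F v := by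
  have h := le_ciSup (aMax_fam_bdd hW hF v) (a, g)
  have h2 : ‖F a v g‖ / W g ≤ famNorm W E F v := h
  rw [div_le_iff₀ (hW g)] at h2
  linarith [mul_comm (W g) (famNorm W E F v)]

theorem aMax_fam_SN {V : Type} [AddCommGroup V] [Module ℂ V] {Mo : HCModule GRd rho V}
    {W : Gd → ℝ} (hW : ∀ g, 0 < W g) {Ω : Type} {E : Ω → Type} [∀ a, NormedAddCommGroup (E a)]
    [∀ a, NormedSpace ℂ (E a)] {F : ∀ a, V → Gd → E a} (hF : IsFam Mo W E F) :
    IsSN (famNorm W E F) := by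
  have hnn : ∀ v, 0 ≤ famNorm W E F v := fun v =>
    Real.iSup_nonneg fun x => div_nonneg (norm_nonneg _) (hW x.2).le
  refine ⟨hnn, ?_, ?_⟩
  · intro u v
    refine Real.iSup_le (fun x => ?_) (add_nonneg (hnn u) (hnn v))
    rw [div_le_iff₀ (hW x.2), hF.add]
    have h1 := aMax_fam_le hW hF u x.1 x.2
    have h2 := aMax_fam_le hW hF v x.1 x.2
    have h3 := norm_add_le (F x.1 u x.2) (F x.1 v x.2)
    nlinarith
  · intro c v
    unfold famNorm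
    rw [Real.mul_iSup_of_nonneg (norm_nonneg c)]
    congr 1
    funext x
    rw [hF.smul, norm_smul, mul_div_assoc]

/-- the family of a realization -/
theorem aMax_isFam {V : Type} [AddCommGroup V] [Module ℂ V] {Mo : HCModule GRd rho V}
    {W : Gd → ℝ} {Ω : Type} (hΩ : Nonempty Ω) {E : Ω → Type} [∀ a, NormedAddCommGroup (E a)]
    [∀ a, NormedSpace ℂ (E a)] (ι : ∀ a, V →ₗ[ℂ] E a) (π : ∀ a, Gd →* (E a →L[ℂ] E a))
    (hg : ∀ a, IsGlobalization Mo (ι a) (π a))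
    (hb : ∀ v, ∃ C : ℝ, ∀ a g, ‖π a g (ι a v)‖ ≤ C * W g) :
    IsFam Mo W E (fun a v g => π a g (ι a v)) := by
  refine ⟨?_, ?_, ?_, ?_, hb, ?_⟩
  · intro a u v g
    simp
  · intro a c v g
    simp
  · intro a X γ hγ v g
    have h1 := (hg a).intertwines_lie X γ hγ v
    have h2 := (((π a g).restrictScalars ℝ).hasFDerivAt (x := π a (γ 0) (ι a v))).comp_hasDerivAt
      (0 : ℝ) h1
    refine h2.congr_of_eventuallyEq (Filter.Eventually.of_forall fun t => ?_)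
    simp [Function.comp]
  · intro a k v g
    have h1 := (hg a).intertwines_K k v
    simp only [map_mul]
    rw [← h1]
    rfl
  · intro v hv
    obtain ⟨a⟩ := hΩ
    have h1 := hv a 1
    simp only [map_one] at h1
    have h2 : ι a v = 0 := h1
    exact (hg a).injective (by rw [h2, map_zero])

theorem aMax_one_in {V : Type} [AddCommGroup V] [Module ℂ V] {Mo : HCModule GRd rho V}
    {w : Gd → ℝ} {p : V → ℝ} (hp : IsNormIn1 Mo w p) : IsNormIn Mo w p := by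
  obtain ⟨E, i1, i2, i3, ι, π, hg, hpv, hn⟩ := hp
  exact ⟨E, i1, i2, i3, ι, π, hg, hpv, 1, one_pos, fun g => by rw [one_mul]; exact hn g⟩

theorem aMax_SN {V : Type} [AddCommGroup V] [Module ℂ V] {Mo : HCModule GRd rho V}
    {w : Gd → ℝ} {p : V → ℝ} (hp : IsNormIn Mo w p) : IsSN p := by
  obtain ⟨E, i1, i2, i3, ι, π, hg, hpv, hn⟩ := hp
  refine ⟨fun v => ?_, fun u v => ?_, fun c v => ?_⟩
  · rw [hpv]; exact norm_nonneg _
  · rw [hpv, hpv, hpv, map_add]; exact norm_add_le _ _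
  · rw [hpv, hpv, map_smul, norm_smul]

theorem aMax_scale {V : Type} [AddCommGroup V] [Module ℂ V] {Mo : HCModule GRd rho V}
    {w : Gd → ℝ} {p : V → ℝ} (hp : IsNormIn1 Mo w p) {c : ℝ} (hc : 0 < c) :
    IsNormIn1 Mo w (fun v => c * p v) := by
  obtain ⟨E, i1, i2, i3, ι, π, hg, hpv, hn⟩ := hp
  have hc0 : (c : ℂ) ≠ 0 := by exact_mod_cast hc.ne'
  have hr : Set.range ((c : ℂ) • ι) = Set.range ι := by
    ext x
    constructor
    · rintro ⟨v, rfl⟩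
      exact ⟨(c : ℂ) • v, by simp⟩
    · rintro ⟨v, rfl⟩
      refine ⟨(c : ℂ)⁻¹ • v, ?_⟩
      rw [LinearMap.smul_apply, map_smul, smul_smul, mul_inv_cancel₀ hc0, one_smul]
  refine ⟨E, i1, i2, i3, (c : ℂ) • ι, π, ⟨?_, ?_, hg.continuous, ?_, ?_, ?_⟩, ?_, hn⟩
  · intro u v huv
    have h1 : (c : ℂ) • ι u = (c : ℂ) • ι v := huv
    exact hg.injective (smul_right_injective E hc0 h1)
  · unfold DenseRange
    rw [hr]
    exact hg.dense
  · intro k v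
    simp only [LinearMap.smul_apply, map_smul]
    rw [hg.intertwines_K]
  · intro X γ hγ v
    have h1 := (hg.intertwines_lie X γ hγ v).const_smul (c : ℂ)
    refine h1.congr_of_eventuallyEq (Filter.Eventually.of_forall fun t => ?_)
    simp only [LinearMap.smul_apply, map_smul, Pi.smul_apply]
  · intro x hx
    rw [hr]
    exact hg.K_finite x hx
  · intro v
    show c * p v = _
    rw [hpv, LinearMap.smul_apply, norm_smul]
    simp [abs_of_pos hc]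

/-- renormalization -/
theorem aMax_renorm {I : Type} {M : TMod I} {h : M.Good} {sz : I → ℕ} {w : Gd → ℝ}
    (hw : IsWeight w) (hPB : ∀ p, IsNormIn (M.toHC h) w p → PB sz p)
    (hT : ∀ p : (I →₀ ℂ) → ℝ, IsSN p → PB sz p → Taylor (M.toHC h) p) (h6 : S_fam)
    (hK : KFin (M.toHC h)) {p : (I →₀ ℂ) → ℝ} (hp : IsNormIn (M.toHC h) w p) :
    ∃ p' : (I →₀ ℂ) → ℝ, IsNormIn1 (M.toHC h) w p' ∧ (∀ v, p v ≤ w 1 * p' v) ∧
      ∃ C : ℝ, 0 < C ∧ ∀ v, p' v ≤ C * p v := by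
  obtain ⟨C0, N, hC0⟩ := hPB p hp
  have hpSN := aMax_SN hp
  obtain ⟨E, i1, i2, i3, ι, π, hg, hpv, C, hCpos, hn⟩ := hp
  have := i3
  have hb : ∀ v g, ‖π g (ι v)‖ ≤ (C * ‖ι v‖) * w g := by
    intro v g
    calc ‖π g (ι v)‖ ≤ ‖π g‖ * ‖ι v‖ := (π g).le_opNorm _
      _ ≤ (C * w g) * ‖ι v‖ := mul_le_mul_of_nonneg_right (hn g) (norm_nonneg _)
      _ = (C * ‖ι v‖) * w g := by ring
  have hF : IsFam (M.toHC h) w (fun _ : Unit => E) (fun _ v g => π g (ι v)) :=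
    aMax_isFam (Mo := M.toHC h) (W := w) ⟨()⟩ (fun _ : Unit => ι) (fun _ => π) (fun _ => hg)
      (fun v => ⟨C * ‖ι v‖, fun _ g => hb v g⟩)
  have hle : ∀ v, famNorm w (fun _ : Unit => E) (fun _ v g => π g (ι v)) v ≤ C * p v := by
    intro v
    refine Real.iSup_le (fun x => ?_) (mul_nonneg hCpos.le (hpSN.nonneg v))
    rw [div_le_iff₀ (hw.1 x.2), hpv]
    exact hb v x.2
  have hSN := aMax_fam_SN hw.1 hF
  have hPB' : PB sz (famNorm w (fun _ : Unit => E) (fun _ v g => π g (ι v))) := by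
    refine ⟨C * C0, N, fun i => (hle _).trans ?_⟩
    rw [mul_assoc]
    exact mul_le_mul_of_nonneg_left (hC0 i) hCpos.le
  refine ⟨famNorm w (fun _ : Unit => E) (fun _ v g => π g (ι v)), ?_, ?_, C, hCpos, hle⟩
  · exact h6 _ (M.toHC h) hK w hw Unit (fun _ => E) (fun _ v g => π g (ι v)) hF (hT _ hSN hPB')
  · intro v
    have h1 := aMax_fam_le hw.1 hF v () 1
    rw [hpv]
    simpa using h1

theorem aMax_wts {I : Type} {M : TMod I} (h : M.Good) {sz : I → ℕ} (hsz : M.Size sz) :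
    ∃ C : ℝ, 0 ≤ C ∧ ∀ i, |(M.μ i : ℝ)| ≤ C * (1 + sz i) ∧ |(M.ν i : ℝ)| ≤ C * (1 + sz i) := by
  obtain ⟨C1, hC1⟩ := hsz.bd Jm 0
  obtain ⟨C2, hC2⟩ := hsz.bd 0 Jm
  refine ⟨max (max C1 C2) 0, le_max_right _ _, fun i => ⟨?_, ?_⟩⟩
  · have h1 := hC1 i
    rw [h.J1 i, Finsupp.smul_single, Finsupp.sum_single_index (by simp)] at h1
    have h2 : ‖(-Complex.I * (M.μ i : ℂ)) • (1 : ℂ)‖ = |(M.μ i : ℝ)| := by
      simp
    rw [h2] at h1
    exact h1.trans (mul_le_mul_of_nonneg_right ((le_max_left _ _).trans (le_max_left _ _))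
      (by positivity))
  · have h1 := hC2 i
    rw [h.J2 i, Finsupp.smul_single, Finsupp.sum_single_index (by simp)] at h1
    have h2 : ‖(-Complex.I * (M.ν i : ℂ)) • (1 : ℂ)‖ = |(M.ν i : ℝ)| := by
      simp
    rw [h2] at h1
    exact h1.trans (mul_le_mul_of_nonneg_right ((le_max_right _ _).trans (le_max_left _ _))
      (by positivity))

theorem aMax_eig {I : Type} {M : TMod I} (h : M.Good) {sz : I → ℕ} (hsz : M.Size sz) {m : ℕ}
    (p q : Fin m → ℝ) : ∃ K : ℝ, 0 ≤ K ∧ ∀ i, eig M p q i ≤ K * (1 + (sz i : ℝ)) ^ 2 := by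
  obtain ⟨C, hC, hb⟩ := aMax_wts h hsz
  refine ⟨∑ l, ((|p l| + |q l|) * C) ^ 2, Finset.sum_nonneg fun l _ => sq_nonneg _, fun i => ?_⟩
  unfold eig
  rw [Finset.sum_mul]
  refine Finset.sum_le_sum fun l _ => ?_
  rw [← mul_pow]
  refine sq_le_sq.2 ?_
  have h0 : (0 : ℝ) ≤ 1 + (sz i : ℝ) := by positivity
  rw [abs_of_nonneg (a := (|p l| + |q l|) * C * (1 + (sz i : ℝ))) (by positivity)]
  calc |p l * M.μ i + q l * M.ν i| ≤ |p l * M.μ i| + |q l * M.ν i| := abs_add_le _ _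
    _ = |p l| * |(M.μ i : ℝ)| + |q l| * |(M.ν i : ℝ)| := by rw [abs_mul, abs_mul]
    _ ≤ |p l| * (C * (1 + sz i)) + |q l| * (C * (1 + sz i)) := by
        gcongr
        · exact (hb i).1
        · exact (hb i).2
    _ = (|p l| + |q l|) * C * (1 + (sz i : ℝ)) := by ring

theorem aMax_pow {I : Type} {M : TMod I} (h : M.Good) {sz : I → ℕ} (hsz : M.Size sz) {m : ℕ}
    (p q : Fin m → ℝ) (S : ℝ) : ∃ (K : ℝ) (N : ℕ), 0 ≤ K ∧ ∀ i,
      0 ≤ (1 + eig M p q i) ^ (S / 2) ∧ (1 + eig M p q i) ^ (S / 2) ≤ K * (1 + (sz i : ℝ)) ^ N := by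
  obtain ⟨K, hK, hb⟩ := aMax_eig h hsz p q
  obtain ⟨n, hn⟩ := exists_nat_ge (S / 2)
  refine ⟨(1 + K) ^ n, 2 * n, by positivity, fun i => ?_⟩
  have h0 : 0 ≤ eig M p q i := Finset.sum_nonneg fun l _ => sq_nonneg _
  have hs1 : (1 : ℝ) ≤ (1 + (sz i : ℝ)) ^ 2 := by
    have : (0 : ℝ) ≤ (sz i : ℝ) := by positivity
    nlinarith
  refine ⟨Real.rpow_nonneg (by linarith) _, ?_⟩
  have h1 : 1 + eig M p q i ≤ (1 + K) * (1 + (sz i : ℝ)) ^ 2 := by
    have := hb i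
    nlinarith
  calc (1 + eig M p q i) ^ (S / 2) ≤ (1 + eig M p q i) ^ ((n : ℕ) : ℝ) :=
        Real.rpow_le_rpow_of_exponent_le (by linarith) hn
    _ = (1 + eig M p q i) ^ n := Real.rpow_natCast _ _
    _ ≤ ((1 + K) * (1 + (sz i : ℝ)) ^ 2) ^ n := by
        exact pow_le_pow_left₀ (by linarith) h1 n
    _ = (1 + K) ^ n * (1 + (sz i : ℝ)) ^ (2 * n) := by rw [mul_pow, ← pow_mul]

/-- TARGET -/
theorem a_max (h1 : S_unif) (h2 : S_basis) (h3 : S_pow) (h4 : S_PB) (h5 : S_tay) (h6 : S_fam)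
    (h7 : S_kfin) : S_max := by
  intro I M h sz hsz w₀ w hw₀ hw p₀ hp₀ hp₀PB hex
  obtain ⟨p₁, hp₁⟩ := hex
  have hPB : ∀ p, IsNormIn (M.toHC h) w p → PB sz p := fun p hp =>
    h4 I M h sz hsz w₀ w hw₀ hw p₀ p hp₀ hp₀PB hp
  have hT : ∀ p : (I →₀ ℂ) → ℝ, IsSN p → PB sz p → Taylor (M.toHC h) p := fun p hp hp' =>
    h5 I M h sz hsz p hp hp'
  have hK := h7 I M h
  obtain ⟨b, hb⟩ := h2.1
  obtain ⟨p, q, hpq, -, -⟩ := h2.2 2 b hb
  obtain ⟨S, hS, hunif⟩ := h1 2 b hb w hw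
  obtain ⟨T, hTS, hTle⟩ := hunif (I →₀ ℂ) (M.toHC h) ⟨p₁, hp₁⟩
  have hTdg := ((h3 I M h 2 b p q hpq).2 S T).1 hTS
  have hp₁SN := aMax_SN hp₁
  -- the set of norms
  let P : Type := {q : (I →₀ ℂ) → ℝ // IsNormIn1 (M.toHC h) w q ∧ ∀ v, q v ≤ p₁ (T v)}
  have hP : ∀ q, IsNormIn (M.toHC h) w q → ∃ (a : P) (C : ℝ), 0 ≤ C ∧ ∀ v, q v ≤ C * a.1 v := by
    intro q hq
    obtain ⟨q', hq', hqq', C, hC, hq'q⟩ := aMax_renorm hw hPB hT h6 hK hq
    obtain ⟨D, hD⟩ := hTle p₁ q hp₁ hq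
    have hc : 0 < (|C * D| + 1)⁻¹ := by positivity
    refine ⟨⟨fun v => (|C * D| + 1)⁻¹ * q' v, aMax_scale hq' hc, ?_⟩, w 1 * (|C * D| + 1),
      mul_nonneg (hw.1 1).le (by positivity), ?_⟩
    · intro v
      have h0 := hp₁SN.nonneg (T v)
      have e1 : q' v ≤ C * (D * p₁ (T v)) :=
        (hq'q v).trans (mul_le_mul_of_nonneg_left (hD v) hC.le)
      have e2 : C * D ≤ |C * D| := le_abs_self _
      rw [inv_mul_le_iff₀ (by positivity)]
      nlinarith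
    · intro v
      have e1 := hqq' v
      have e3 : w 1 * (|C * D| + 1) * ((|C * D| + 1)⁻¹ * q' v) = w 1 * q' v := by
        field_simp
      show q v ≤ w 1 * (|C * D| + 1) * ((|C * D| + 1)⁻¹ * q' v)
      rw [e3]
      exact e1
  obtain ⟨a₀, -, -, -⟩ := hP p₁ hp₁
  have hch : ∀ a : P, IsNormIn1 (M.toHC h) w a.1 := fun a => a.2.1
  unfold IsNormIn1 at hch
  choose E i1 i2 i3 ι π hg hpv hn using hch
  have hbd : ∀ (a : P) (v : I →₀ ℂ) (g : Gd), ‖π a g (ι a v)‖ ≤ p₁ (T v) * w g := by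
    intro a v g
    have e1 : ‖ι a v‖ ≤ p₁ (T v) := by rw [← hpv a v]; exact a.2.2 v
    calc ‖π a g (ι a v)‖ ≤ ‖π a g‖ * ‖ι a v‖ := (π a g).le_opNorm _
      _ ≤ w g * p₁ (T v) := mul_le_mul (hn a g) e1 (norm_nonneg _) (hw.1 g).le
      _ = p₁ (T v) * w g := mul_comm _ _
  have hF : IsFam (M.toHC h) w E (fun a v g => π a g (ι a v)) :=
    aMax_isFam ⟨a₀⟩ ι π hg (fun v => ⟨p₁ (T v), fun a g => hbd a v g⟩)
  have hSN := aMax_fam_SN hw.1 hF
  have hle : ∀ v, famNorm w E (fun a v g => π a g (ι a v)) v ≤ p₁ (T v) := by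
    intro v
    refine Real.iSup_le (fun x => ?_) (hp₁SN.nonneg _)
    rw [div_le_iff₀ (hw.1 x.2)]
    exact hbd x.1 v x.2
  have hPBm : PB sz (famNorm w E (fun a v g => π a g (ι a v))) := by
    obtain ⟨K, N, hK0, hKN⟩ := aMax_pow h hsz p q S
    obtain ⟨C1, N1, hC1⟩ := hPB p₁ hp₁
    refine ⟨K * C1, N + N1, fun i => (hle _).trans ?_⟩
    have e1 : T (ee i) = (((1 + eig M p q i) ^ (S / 2) : ℝ) : ℂ) • ee i := by
      rw [hTdg]
      simp [dg]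
    obtain ⟨e2, e3⟩ := hKN i
    rw [e1, hp₁SN.smul, Complex.norm_real, Real.norm_of_nonneg e2, pow_add]
    have e4 := hC1 i
    have e5 := hp₁SN.nonneg (ee i)
    calc (1 + eig M p q i) ^ (S / 2) * p₁ (ee i)
        ≤ (K * (1 + (sz i : ℝ)) ^ N) * (C1 * (1 + (sz i : ℝ)) ^ N1) :=
          mul_le_mul e3 e4 e5 (by positivity)
      _ = K * C1 * ((1 + (sz i : ℝ)) ^ N * (1 + (sz i : ℝ)) ^ N1) := by ring
  have hmax := h6 _ (M.toHC h) hK w hw P E (fun a v g => π a g (ι a v)) hF (hT _ hSN hPBm)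
  refine ⟨famNorm w E (fun a v g => π a g (ι a v)), aMax_one_in hmax, ?_⟩
  intro q hq
  obtain ⟨a, C, hC, hqa⟩ := hP q hq
  refine ⟨C * w 1, fun v => (hqa v).trans ?_⟩
  have e1 := aMax_fam_le hw.1 hF v a 1
  rw [mul_assoc]
  refine mul_le_mul_of_nonneg_left ?_ hC
  rw [hpv a v]
  simpa using e1

end Pool.Agent.H913.LG
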