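import Pool.Agent.H913.LG.Stmts

open Matrix NormedSpace
open scoped Matrix ComplexConjugate

namespace Pool.Agent.H913.LG

open Pool.Agent.H913.SGP

theorem aMin_weight {w : Gd → ℝ} (hw : IsWeight w) {C : ℝ} (hC : 1 ≤ C) :
    IsWeight fun g => C * w g := by
  obtain ⟨h1, h2, h3⟩ := hw
  have hC0 : 0 < C := lt_of_lt_of_le one_pos hC
  refine ⟨fun g => mul_pos hC0 (h1 g), fun g => ?_, fun g h => ?_⟩
  · obtain ⟨U, hU, D, hD⟩ := h2 g
    exact ⟨U, hU, C * D, fun x hx => mul_le_mul_of_nonneg_left (hD x hx) hC0.le⟩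
  · have e1 : C * w (g * h) ≤ C * (w g * w h) := mul_le_mul_of_nonneg_left (h3 g h) hC0.le
    have e2 : 0 ≤ w g * w h := mul_nonneg (h1 g).le (h1 h).le
    have e3 : C * (w g * w h) ≤ C * (C * (w g * w h)) := by
      apply mul_le_mul_of_nonneg_left _ hC0.le
      nlinarith
    calc C * w (g * h) ≤ C * (C * (w g * w h)) := e1.trans e3
      _ = C * w g * (C * w h) := by ring

/-- the value at `1` depends on finitely many coordinates -/
theorem aMin_coord {I : Type} {B : Type} [NormedAddCommGroup B] [NormedSpace ℂ B]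
    (L : (I →₀ ℂ) →ₗ[ℂ] B) (S : Finset I) (hS : ∀ v : I →₀ ℂ, (∀ i ∈ S, v i = 0) → L v = 0)
    (q : (I →₀ ℂ) → ℝ) (hq : ∀ i, ∃ C : ℝ, ∀ v, ‖v i‖ ≤ C * q v) :
    ∃ C : ℝ, ∀ v, ‖L v‖ ≤ C * q v := by
  classical
  choose c hc using hq
  refine ⟨∑ i ∈ S, c i * ‖L (ee i)‖, fun v => ?_⟩
  have h1 : L v = ∑ i ∈ S, v i • L (ee i) := by
    have h2 : L (v - ∑ i ∈ S, v i • ee i) = 0 := by
      apply hS
      intro j hj
      rw [Finsupp.sub_apply, Finsupp.finsetSum_apply]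
      rw [Finset.sum_eq_single j]
      · simp
      · intro i _ hij
        simp [hij]
      · intro hj'
        exact absurd hj hj'
    rw [map_sub, sub_eq_zero, map_sum] at h2
    rw [h2]
    refine Finset.sum_congr rfl fun i _ => ?_
    rw [map_smul]
  rw [h1, Finset.sum_mul]
  refine (norm_sum_le _ _).trans (Finset.sum_le_sum fun i _ => ?_)
  rw [norm_smul]
  have := mul_le_mul_of_nonneg_right (hc i v) (norm_nonneg (L (ee i)))
  linarith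

/-- every continuous norm dominates the family -/
theorem aMin_dom (h1 : S_coef) (h2 : S_id) (h3 : S_PB) (h4 : S_tay) (I : Type) (M : TMod I)
    (h : M.Good) (sz : I → ℕ) (hsz : M.Size sz) (w₀ : Gd → ℝ) (hw₀ : IsWeight w₀)
    (p₀ : (I →₀ ℂ) → ℝ) (hp₀ : IsNormIn (M.toHC h) w₀ p₀) (hPB : PB sz p₀)
    (B : Type) [NormedAddCommGroup B] [NormedSpace ℂ B] [CompleteSpace B]
    (F : (I →₀ ℂ) → Gd → B) (hF : PreFam (M.toHC h) F)
    (hr : ∃ r : (I →₀ ℂ) → ℝ, IsSN r ∧ PB sz r ∧ ∀ v g, ‖F v g‖ ≤ r v * w₀ g)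
    (hS : ∃ S : Finset I, ∀ v : I →₀ ℂ, (∀ i ∈ S, v i = 0) → F v 1 = 0)
    (w : Gd → ℝ) (hw : IsWeight w) (q : (I →₀ ℂ) → ℝ) (hq : IsNormIn (M.toHC h) w q) :
    PB sz q ∧ (∀ v, 0 ≤ q v) ∧ ∃ C : ℝ, 0 ≤ C ∧ ∀ v g, ‖F v g‖ ≤ C * q v * w g := by
  have hqPB := h3 I M h sz hsz w₀ w hw₀ hw p₀ q hp₀ hPB hq
  have hq' := hq
  obtain ⟨E, _, _, hcomp, ι, π, hgl, hqn, C0, hC0, hπ⟩ := hq
  have _ : CompleteSpace E := hcomp
  have hqSN : IsSN q := by
    refine ⟨fun v => ?_, fun u v => ?_, fun c v => ?_⟩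
    · rw [hqn]; exact norm_nonneg _
    · rw [hqn, hqn, hqn, map_add]; exact norm_add_le _ _
    · rw [hqn, hqn, map_smul, norm_smul]
  refine ⟨hqPB, hqSN.nonneg, ?_⟩
  have hTq : Taylor (M.toHC h) q := h4 I M h sz hsz q hqSN hqPB
  have hTq' : Taylor (M.toHC h) (fun v => ‖ι v‖) := by
    have : q = fun v => ‖ι v‖ := funext hqn
    rwa [this] at hTq
  obtain ⟨r, hrSN, hrPB, hrb⟩ := hr
  have hTr : Taylor (M.toHC h) r := h4 I M h sz hsz r hrSN hrPB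
  obtain ⟨S, hS⟩ := hS
  -- the linear map
  let L0 : (I →₀ ℂ) →ₗ[ℂ] B :=
    { toFun := fun v => F v 1
      map_add' := fun u v => hF.add u v 1
      map_smul' := fun c v => hF.smul c v 1 }
  have hL0 : ∀ v, L0 v = F v 1 := fun v => rfl
  obtain ⟨C1, hC1⟩ := aMin_coord L0 S hS q (h1 I M h w hw q hq')
  have hC1' : ∀ v, ‖L0 v‖ ≤ C1 * ‖ι v‖ := fun v => by rw [← hqn]; exact hC1 v
  let L : E →L[ℂ] B := L0.extendOfNorm ι
  have hL : ∀ v, L (ι v) = L0 v := fun v =>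
    LinearMap.extendOfNorm_eq hgl.dense ⟨C1, hC1'⟩ v
  set C := max 1 C0 with hC
  have hC1le : 1 ≤ C := le_max_left _ _
  have hCpos : 0 < C := lt_of_lt_of_le one_pos hC1le
  have hWw : IsWeight fun g => C * w g := aMin_weight hw hC1le
  have hπ' : ∀ g, ‖π g‖ ≤ C * w g := fun g =>
    (hπ g).trans (mul_le_mul_of_nonneg_right (le_max_right _ _) (hw.1 g).le)
  have key := h2 (I →₀ ℂ) (M.toHC h) E ι π (fun g => C * w g) hWw hπ' hgl.intertwines_lie hTq'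
    B L F r w₀ hw₀ hrSN.nonneg hTr hF.deriv hrb (fun v => by rw [hL, hL0])
  refine ⟨‖L‖ * C, mul_nonneg (norm_nonneg _) hCpos.le, fun v g => ?_⟩
  rw [← key v g, hqn v]
  calc ‖L (π g (ι v))‖ ≤ ‖L‖ * ‖π g (ι v)‖ := L.le_opNorm _
    _ ≤ ‖L‖ * (‖π g‖ * ‖ι v‖) := mul_le_mul_of_nonneg_left ((π g).le_opNorm _) (norm_nonneg _)
    _ ≤ ‖L‖ * ((C * w g) * ‖ι v‖) :=
        mul_le_mul_of_nonneg_left (mul_le_mul_of_nonneg_right (hπ' g) (norm_nonneg _))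
          (norm_nonneg _)
    _ = ‖L‖ * C * ‖ι v‖ * w g := by ring

/-- TARGET -/
theorem a_min (h1 : S_coef) (h2 : S_id) (h3 : S_PB) (h4 : S_tay) (h5 : S_fam) (h6 : S_kfin) :
    S_min := by
  intro I M h sz hsz w₀ hw₀ p₀ hp₀ hPB B _ _ _ F hF hinj hr hS w hw hex
  have dom := fun q hq => aMin_dom h1 h2 h3 h4 I M h sz hsz w₀ hw₀ p₀ hp₀ hPB B F hF hr hS w hw q hq
  set fn : (I →₀ ℂ) → ℝ := famNorm w (fun _ : Unit => B) (fun _ => F) with hfn
  have hfn' : ∀ v, fn v = ⨆ x : Unit × Gd, ‖F v x.2‖ / w x.2 := fun v => rfl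
  have hle : ∀ q, IsNormIn (M.toHC h) w q → ∃ C : ℝ, 0 ≤ C ∧ (∀ v, fn v ≤ C * q v) ∧
      ∀ v (x : Unit × Gd), ‖F v x.2‖ / w x.2 ≤ C * q v := by
    intro q hq
    obtain ⟨-, hq0, C, hC, hb⟩ := dom q hq
    have e : ∀ v (x : Unit × Gd), ‖F v x.2‖ / w x.2 ≤ C * q v := fun v x => by
      rw [div_le_iff₀ (hw.1 x.2)]
      exact hb v x.2
    refine ⟨C, hC, fun v => ?_, e⟩
    rw [hfn']
    exact ciSup_le (e v)
  obtain ⟨p, hp⟩ := hex
  obtain ⟨hpPB, hp0, C, hC, hb⟩ := dom p hp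
  obtain ⟨Cp, hCp, hCp1, hCp2⟩ := hle p hp
  have hbdd : ∀ v, BddAbove (Set.range fun x : Unit × Gd => ‖F v x.2‖ / w x.2) := fun v =>
    ⟨Cp * p v, by rintro _ ⟨x, rfl⟩; exact hCp2 v x⟩
  have hSN : IsSN fn := by
    refine ⟨fun v => ?_, fun u v => ?_, fun c v => ?_⟩
    · rw [hfn']
      exact Real.iSup_nonneg fun x => div_nonneg (norm_nonneg _) (hw.1 _).le
    · rw [hfn' (u + v)]
      refine ciSup_le fun x => ?_
      have e1 := le_ciSup (hbdd u) x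
      have e2 := le_ciSup (hbdd v) x
      rw [hfn' u, hfn' v]
      refine le_trans ?_ (add_le_add e1 e2)
      rw [← add_div, hF.add]
      exact div_le_div_of_nonneg_right (norm_add_le _ _) (hw.1 _).le
    · rw [hfn', hfn', Real.mul_iSup_of_nonneg (norm_nonneg c)]
      congr 1
      funext x
      rw [hF.smul, norm_smul, mul_div_assoc]
  have hfPB : PB sz fn := by
    obtain ⟨D, N, hD⟩ := hpPB
    refine ⟨Cp * D, N, fun i => ?_⟩
    calc fn (ee i) ≤ Cp * p (ee i) := hCp1 _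
      _ ≤ Cp * (D * (1 + (sz i : ℝ)) ^ N) := mul_le_mul_of_nonneg_left (hD i) hCp
      _ = Cp * D * (1 + (sz i : ℝ)) ^ N := by ring
  have hTf : Taylor (M.toHC h) fn := h4 I M h sz hsz fn hSN hfPB
  have hFam : IsFam (M.toHC h) w (fun _ : Unit => B) (fun _ => F) :=
    { add := fun _ => hF.add
      smul := fun _ => hF.smul
      deriv := fun _ => hF.deriv
      K := fun _ => hF.K
      bound := fun v => ⟨C * p v, fun _ g => hb v g⟩
      inj := fun v hv => hinj v fun g => hv () g }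
  have hN1 : IsNormIn1 (M.toHC h) w fn :=
    h5 (I →₀ ℂ) (M.toHC h) (h6 I M h) w hw Unit (fun _ => B) (fun _ => F) hFam hTf
  refine ⟨?_, fun q hq => ?_⟩
  · obtain ⟨E, i1, i2, i3, ι, π, hgl, hn, hπ⟩ := hN1
    exact ⟨E, i1, i2, i3, ι, π, hgl, hn, 1, one_pos, fun g => by rw [one_mul]; exact hπ g⟩
  · obtain ⟨D, -, hD, -⟩ := hle q hq
    exact ⟨D, hD⟩

end Pool.Agent.H913.LG
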