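import Pool.Agent.H913.LG.Stmts

open Matrix NormedSpace
open scoped Matrix ComplexConjugate

namespace Pool.Agent.H913.LG

open Pool.Agent.H913.SGP

theorem aPB_weight {w₀ w : Gd → ℝ} (h₀ : IsWeight w₀) (h : IsWeight w) :
    IsWeight fun g => w₀ g + w g := by
  refine ⟨fun g => add_pos (h₀.1 g) (h.1 g), fun g => ?_, fun g k => ?_⟩
  · obtain ⟨U, hU, C, hC⟩ := h₀.2.1 g
    obtain ⟨U', hU', C', hC'⟩ := h.2.1 g
    exact ⟨U ∩ U', Filter.inter_mem hU hU', C + C', fun x hx =>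
      add_le_add (hC x hx.1) (hC' x hx.2)⟩
  · have a1 := h₀.2.2 g k
    have a2 := h.2.2 g k
    have b1 := h₀.1 g
    have b2 := h₀.1 k
    have b3 := h.1 g
    have b4 := h.1 k
    have c1 := mul_pos b1 b4
    have c2 := mul_pos b3 b2
    simp only
    nlinarith

theorem aPB_mono {V : Type} [AddCommGroup V] [Module ℂ V] {Mo : HCModule GRd rho V}
    {w w' : Gd → ℝ} (hw : ∀ g, w g ≤ w' g) {p : V → ℝ} (hp : IsNormIn Mo w p) :
    IsNormIn Mo w' p := by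
  obtain ⟨E, i1, i2, hE, ι, π, hg, hv, C, hC, hb⟩ := hp
  exact ⟨E, i1, i2, hE, ι, π, hg, hv, C, hC, fun g =>
    (hb g).trans (mul_le_mul_of_nonneg_left (hw g) hC.le)⟩

theorem aPB_smul {V : Type} [AddCommGroup V] [Module ℂ V] {Mo : HCModule GRd rho V}
    {w : Gd → ℝ} {p : V → ℝ} (hp : IsNormIn Mo w p) (c : ℂ) (v : V) :
    p (c • v) = ‖c‖ * p v := by
  obtain ⟨E, i1, i2, hE, ι, π, hg, hv, C, hC, hb⟩ := hp
  rw [hv, hv, map_smul, norm_smul]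

theorem aPB_nonneg {V : Type} [AddCommGroup V] [Module ℂ V] {Mo : HCModule GRd rho V}
    {w : Gd → ℝ} {p : V → ℝ} (hp : IsNormIn Mo w p) (v : V) : 0 ≤ p v := by
  obtain ⟨E, i1, i2, hE, ι, π, hg, hv, C, hC, hb⟩ := hp
  rw [hv]
  exact norm_nonneg _

theorem aPB_sum {I : Type} (c : ℂ) (i : I) :
    ((c • ee i : I →₀ ℂ).sum fun _ c => ‖c‖) = ‖c‖ := by
  rw [show (c • ee i : I →₀ ℂ) = Finsupp.single i c by simp [ee]]
  rw [Finsupp.sum_single_index]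
  simp

theorem aPB_wt {I : Type} (M : TMod I) (h : M.Good) (sz : I → ℕ) (hs : M.Size sz) :
    ∃ C : ℝ, 0 ≤ C ∧ ∀ i, |(M.μ i : ℝ)| ≤ C * (1 + sz i) ∧ |(M.ν i : ℝ)| ≤ C * (1 + sz i) := by
  obtain ⟨C1, h1⟩ := hs.bd Jm 0
  obtain ⟨C2, h2⟩ := hs.bd 0 Jm
  refine ⟨max 0 (max C1 C2), le_max_left _ _, fun i => ?_⟩
  have e1 := h1 i
  have e2 := h2 i
  rw [h.J1 i, aPB_sum] at e1
  rw [h.J2 i, aPB_sum] at e2
  have hpos : (0 : ℝ) ≤ 1 + sz i := by positivity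
  have n1 : ‖-Complex.I * (M.μ i : ℂ)‖ = |(M.μ i : ℝ)| := by
    rw [norm_mul, norm_neg, Complex.norm_I, one_mul]
    exact Complex.norm_intCast _
  have n2 : ‖-Complex.I * (M.ν i : ℂ)‖ = |(M.ν i : ℝ)| := by
    rw [norm_mul, norm_neg, Complex.norm_I, one_mul]
    exact Complex.norm_intCast _
  rw [n1] at e1
  rw [n2] at e2
  exact ⟨e1.trans (mul_le_mul_of_nonneg_right ((le_max_left _ _).trans (le_max_right _ _)) hpos),
    e2.trans (mul_le_mul_of_nonneg_right ((le_max_right _ _).trans (le_max_right _ _)) hpos)⟩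

theorem aPB_eig {I : Type} (M : TMod I) (h : M.Good) (sz : I → ℕ) (hs : M.Size sz) {m : ℕ}
    (p q : Fin m → ℝ) : ∃ C : ℝ, 0 ≤ C ∧ ∀ i, eig M p q i ≤ C * (1 + (sz i : ℝ)) ^ 2 := by
  obtain ⟨C, hC, hb⟩ := aPB_wt M h sz hs
  refine ⟨∑ l, ((|p l| + |q l|) * C) ^ 2, Finset.sum_nonneg fun l _ => sq_nonneg _, fun i => ?_⟩
  unfold eig
  rw [Finset.sum_mul]
  refine Finset.sum_le_sum fun l _ => ?_
  rw [← mul_pow, ← sq_abs]
  refine pow_le_pow_left₀ (abs_nonneg _) ?_ 2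
  obtain ⟨b1, b2⟩ := hb i
  calc |p l * M.μ i + q l * M.ν i| ≤ |p l * M.μ i| + |q l * M.ν i| := abs_add_le _ _
    _ = |p l| * |(M.μ i : ℝ)| + |q l| * |(M.ν i : ℝ)| := by rw [abs_mul, abs_mul]
    _ ≤ |p l| * (C * (1 + sz i)) + |q l| * (C * (1 + sz i)) :=
        add_le_add (mul_le_mul_of_nonneg_left b1 (abs_nonneg _))
          (mul_le_mul_of_nonneg_left b2 (abs_nonneg _))
    _ = (|p l| + |q l|) * C * (1 + sz i) := by ring

theorem aPB_dg {I : Type} (c : I → ℂ) (i : I) : dg c (ee i) = c i • ee i := by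
  unfold dg
  rw [Finsupp.linearCombination_single, one_smul]

/-- TARGET -/
theorem a_PB (h1 : S_unif) (h2 : S_basis) (h3 : S_pow) : S_PB := by
  intro I M h sz hs w₀ w hw₀ hw p₀ p hp₀ hPB hp
  obtain ⟨⟨b, hb⟩, h2'⟩ := h2
  obtain ⟨P, Q, hPQ, -, -⟩ := h2' 2 b hb
  obtain ⟨-, hpow⟩ := h3 I M h 2 b P Q hPQ
  have hW := aPB_weight hw₀ hw
  obtain ⟨S, hS, hu⟩ := h1 2 b hb _ hW
  have hp₀' : IsNormIn (M.toHC h) (fun g => w₀ g + w g) p₀ :=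
    aPB_mono (fun g => le_add_of_nonneg_right (hw.1 g).le) hp₀
  have hp' : IsNormIn (M.toHC h) (fun g => w₀ g + w g) p :=
    aPB_mono (fun g => le_add_of_nonneg_left (hw₀.1 g).le) hp
  obtain ⟨T, hT, hle⟩ := hu (I →₀ ℂ) (M.toHC h) ⟨p₀, hp₀'⟩
  obtain ⟨C, hC⟩ := hle p₀ p hp₀' hp'
  have hTe := (hpow S T).1 hT
  obtain ⟨C₀, N₀, hb₀⟩ := hPB
  obtain ⟨D, hD, heig⟩ := aPB_eig M h sz hs P Q
  refine ⟨max C 0 * ((1 + D) ^ (S / 2) * C₀), ⌈S⌉₊ + N₀, fun i => ?_⟩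
  have hz : (1 : ℝ) ≤ 1 + sz i := by
    have : (0 : ℝ) ≤ sz i := by positivity
    linarith
  have he0 : 0 ≤ eig M P Q i := by
    unfold eig
    exact Finset.sum_nonneg fun l _ => sq_nonneg _
  have e1 : p₀ (T (ee i)) = (1 + eig M P Q i) ^ (S / 2) * p₀ (ee i) := by
    rw [hTe, aPB_dg, aPB_smul hp₀, Complex.norm_real, Real.norm_of_nonneg]
    exact Real.rpow_nonneg (by linarith) _
  have e2 : (1 + eig M P Q i) ^ (S / 2) ≤ (1 + D) ^ (S / 2) * (1 + (sz i : ℝ)) ^ ⌈S⌉₊ := by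
    have s1 : 1 + eig M P Q i ≤ (1 + D) * (1 + (sz i : ℝ)) ^ 2 := by
      have := heig i
      have h1 : (1 : ℝ) ≤ (1 + (sz i : ℝ)) ^ 2 := one_le_pow₀ hz
      nlinarith
    calc (1 + eig M P Q i) ^ (S / 2) ≤ ((1 + D) * (1 + (sz i : ℝ)) ^ 2) ^ (S / 2) :=
          Real.rpow_le_rpow (by linarith) s1 (by linarith)
      _ = (1 + D) ^ (S / 2) * (1 + (sz i : ℝ)) ^ S := by
          rw [Real.mul_rpow (by linarith) (by positivity), ← Real.rpow_natCast (1 + (sz i : ℝ)) 2,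
            ← Real.rpow_mul (by linarith)]
          congr 2
          push_cast
          ring
      _ ≤ (1 + D) ^ (S / 2) * (1 + (sz i : ℝ)) ^ ⌈S⌉₊ := by
          refine mul_le_mul_of_nonneg_left ?_ (Real.rpow_nonneg (by linarith) _)
          rw [← Real.rpow_natCast]
          exact Real.rpow_le_rpow_of_exponent_le hz (Nat.le_ceil S)
  have n0 : 0 ≤ p₀ (ee i) := aPB_nonneg hp₀ _
  have nT : 0 ≤ p₀ (T (ee i)) := aPB_nonneg hp₀ _
  have nr : 0 ≤ (1 + D) ^ (S / 2) * (1 + (sz i : ℝ)) ^ ⌈S⌉₊ := by positivity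
  calc p (ee i) ≤ C * p₀ (T (ee i)) := hC (ee i)
    _ ≤ max C 0 * p₀ (T (ee i)) := mul_le_mul_of_nonneg_right (le_max_left _ _) nT
    _ ≤ max C 0 * (((1 + D) ^ (S / 2) * (1 + (sz i : ℝ)) ^ ⌈S⌉₊) *
        (C₀ * (1 + (sz i : ℝ)) ^ N₀)) := by
        refine mul_le_mul_of_nonneg_left ?_ (le_max_right _ _)
        rw [e1]
        exact mul_le_mul e2 (hb₀ i) n0 nr
    _ = max C 0 * ((1 + D) ^ (S / 2) * C₀) * (1 + (sz i : ℝ)) ^ (⌈S⌉₊ + N₀) := by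
        rw [pow_add]
        ring

end Pool.Agent.H913.LG
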