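import Pool.Agent.H913.LG.Stmts

open Matrix NormedSpace
open scoped Matrix ComplexConjugate

namespace Pool.Agent.H913.LG

open Pool.Agent.H913.SGP

/-- the sum of the absolute values of the coefficients -/
noncomputable def aTay_nn {I : Type} (v : I →₀ ℂ) : ℝ := v.sum fun _ c => ‖c‖

theorem aTay_nn_zero {I : Type} : aTay_nn (0 : I →₀ ℂ) = 0 := by
  simp [aTay_nn]

theorem aTay_nn_nonneg {I : Type} (v : I →₀ ℂ) : 0 ≤ aTay_nn v := by
  unfold aTay_nn Finsupp.sum
  exact Finset.sum_nonneg fun _ _ => norm_nonneg _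

theorem aTay_nn_add {I : Type} (u v : I →₀ ℂ) : aTay_nn (u + v) ≤ aTay_nn u + aTay_nn v := by
  classical
  unfold aTay_nn
  rw [Finsupp.sum_of_support_subset (s := u.support ∪ v.support) _ Finsupp.support_add _ (by simp),
    Finsupp.sum_of_support_subset u (s := u.support ∪ v.support) Finset.subset_union_left _ (by simp),
    Finsupp.sum_of_support_subset v (s := u.support ∪ v.support) Finset.subset_union_right _ (by simp),
    ← Finset.sum_add_distrib]
  apply Finset.sum_le_sum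
  intro i _
  rw [Finsupp.add_apply]
  exact norm_add_le _ _

theorem aTay_nn_smul {I : Type} (c : ℂ) (v : I →₀ ℂ) : aTay_nn (c • v) = ‖c‖ * aTay_nn v := by
  unfold aTay_nn
  rw [Finsupp.sum_of_support_subset (c • v) (s := v.support) Finsupp.support_smul _ (by simp)]
  unfold Finsupp.sum
  rw [Finset.mul_sum]
  apply Finset.sum_congr rfl
  intro i _
  rw [Finsupp.smul_apply, smul_eq_mul, norm_mul]

/-- expansion in weight vectors -/
theorem aTay_expand {I : Type} (v : I →₀ ℂ) : v = ∑ j ∈ v.support, v j • ee j := by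
  have h1 : v = ∑ j ∈ v.support, Finsupp.single j (v j) := (Finsupp.sum_single v).symm
  have h2 : ∀ j, Finsupp.single j (v j) = v j • ee j := fun j => by simp [ee]
  calc v = ∑ j ∈ v.support, Finsupp.single j (v j) := h1
    _ = _ := Finset.sum_congr rfl fun j _ => h2 j

/-- a seminorm bound from bounds on the weight vectors -/
theorem aTay_sum_le {I : Type} (p : (I →₀ ℂ) → ℝ) (h0 : p 0 ≤ 0)
    (hadd : ∀ u v, p (u + v) ≤ p u + p v) (s : Finset I) (f : I → (I →₀ ℂ)) :
    p (∑ j ∈ s, f j) ≤ ∑ j ∈ s, p (f j) := by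
  classical
  induction s using Finset.induction_on with
  | empty => simpa using h0
  | insert a s ha ih =>
    rw [Finset.sum_insert ha, Finset.sum_insert ha]
    exact (hadd _ _).trans (by linarith)

/-- one application of the operator -/
theorem aTay_step {I : Type} (D : Module.End ℂ (I →₀ ℂ)) (sz : I → ℕ)
    (hs : ∀ i, ∀ j ∈ (D (ee i)).support, sz j ≤ sz i + 1) (C : ℝ) (hC0 : 0 ≤ C)
    (hC : ∀ i, aTay_nn (D (ee i)) ≤ C * (1 + sz i)) (R : ℝ) (s : ℕ) (v : I →₀ ℂ)
    (h1 : ∀ j ∈ v.support, sz j ≤ s) (h2 : aTay_nn v ≤ R) :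
    (∀ j ∈ (D v).support, sz j ≤ s + 1) ∧ aTay_nn (D v) ≤ C * (1 + s) * R := by
  classical
  have hD : D v = ∑ j ∈ v.support, v j • D (ee j) := by
    conv_lhs => rw [aTay_expand v]
    rw [map_sum]
    exact Finset.sum_congr rfl fun j _ => map_smul _ _ _
  constructor
  · intro j hj
    rw [hD] at hj
    have h3 := Finsupp.support_finsetSum hj
    rw [Finset.mem_biUnion] at h3
    obtain ⟨i, hi, hij⟩ := h3
    have h4 := Finsupp.support_smul hij
    have h5 := hs i j h4
    have h6 := h1 i hi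
    omega
  · rw [hD]
    refine (aTay_sum_le aTay_nn aTay_nn_zero.le aTay_nn_add _ _).trans ?_
    calc ∑ j ∈ v.support, aTay_nn (v j • D (ee j))
        = ∑ j ∈ v.support, ‖v j‖ * aTay_nn (D (ee j)) :=
          Finset.sum_congr rfl fun j _ => aTay_nn_smul _ _
      _ ≤ ∑ j ∈ v.support, ‖v j‖ * (C * (1 + s)) := by
          apply Finset.sum_le_sum
          intro j hj
          apply mul_le_mul_of_nonneg_left _ (norm_nonneg _)
          refine (hC j).trans ?_
          apply mul_le_mul_of_nonneg_left _ hC0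
          have : (sz j : ℝ) ≤ s := by exact_mod_cast h1 j hj
          linarith
      _ = aTay_nn v * (C * (1 + s)) := by
          rw [← Finset.sum_mul]
          rfl
      _ ≤ R * (C * (1 + s)) := by
          apply mul_le_mul_of_nonneg_right h2
          positivity
      _ = C * (1 + s) * R := by ring

/-- iterates of the operator -/
theorem aTay_iter {I : Type} (D : Module.End ℂ (I →₀ ℂ)) (sz : I → ℕ)
    (hs : ∀ i, ∀ j ∈ (D (ee i)).support, sz j ≤ sz i + 1) (C : ℝ) (hC0 : 0 ≤ C)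
    (hC : ∀ i, aTay_nn (D (ee i)) ≤ C * (1 + sz i)) (s : ℕ) (v : I →₀ ℂ)
    (h1 : ∀ j ∈ v.support, sz j ≤ s) (n : ℕ) :
    (∀ j ∈ ((D ^ n) v).support, sz j ≤ s + n) ∧
      aTay_nn ((D ^ n) v) ≤ C ^ n * ((s + 1).ascFactorial n : ℕ) * aTay_nn v := by
  induction n with
  | zero => simpa using h1
  | succ n ih =>
    have h3 := aTay_step D sz hs C hC0 hC _ (s + n) ((D ^ n) v) ih.1 ih.2
    have h4 : (D ^ (n + 1)) v = D ((D ^ n) v) := by
      rw [pow_succ', Module.End.mul_apply]
    rw [h4]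
    refine ⟨fun j hj => (h3.1 j hj).trans (by omega), h3.2.trans (le_of_eq ?_)⟩
    rw [Nat.ascFactorial_succ]
    push_cast
    ring

/-- TARGET -/
theorem a_tay : S_tay := by
  intro I M h sz hsz p hp hPB X
  obtain ⟨C₀, hC₀⟩ := hsz.bd (b1 X.1) (b2 X.1)
  obtain ⟨C₁, N, hC₁⟩ := hPB
  set D : Module.End ℂ (I →₀ ℂ) := M.A (b1 X.1) (b2 X.1) with hD
  have ha : (M.toHC h).a X = D := rfl
  set C : ℝ := max C₀ 1 with hCdef
  have hC1 : 1 ≤ C := le_max_right _ _
  have hC0 : 0 ≤ C := by linarith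
  have hC : ∀ i, aTay_nn (D (ee i)) ≤ C * (1 + sz i) := by
    intro i
    refine (hC₀ i).trans ?_
    apply mul_le_mul_of_nonneg_right (le_max_left _ _)
    positivity
  set C' : ℝ := max C₁ 0 with hC'def
  have hC'0 : 0 ≤ C' := le_max_right _ _
  have hC' : ∀ i, p (ee i) ≤ C' * (1 + (sz i : ℝ)) ^ N := by
    intro i
    refine (hC₁ i).trans ?_
    apply mul_le_mul_of_nonneg_right (le_max_left _ _)
    positivity
  have hp0 : p 0 = 0 := by
    have := hp.smul 0 0
    simpa using this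
  have hpv : ∀ (s : ℕ) (v : I →₀ ℂ), (∀ j ∈ v.support, sz j ≤ s) →
      p v ≤ C' * (1 + (s : ℝ)) ^ N * aTay_nn v := by
    intro s v hv
    calc p v = p (∑ j ∈ v.support, v j • ee j) := by rw [← aTay_expand v]
      _ ≤ ∑ j ∈ v.support, p (v j • ee j) := aTay_sum_le p hp0.le hp.add _ _
      _ = ∑ j ∈ v.support, ‖v j‖ * p (ee j) := Finset.sum_congr rfl fun j _ => hp.smul _ _
      _ ≤ ∑ j ∈ v.support, ‖v j‖ * (C' * (1 + (s : ℝ)) ^ N) := by
          apply Finset.sum_le_sum
          intro j hj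
          apply mul_le_mul_of_nonneg_left _ (norm_nonneg _)
          refine (hC' j).trans ?_
          apply mul_le_mul_of_nonneg_left _ hC'0
          have : (sz j : ℝ) ≤ s := by exact_mod_cast hv j hj
          gcongr
      _ = C' * (1 + (s : ℝ)) ^ N * aTay_nn v := by
          rw [← Finset.sum_mul, mul_comm]
          rfl
  refine ⟨1 / (4 * C), by positivity, ?_⟩
  intro v
  rw [ha]
  set s : ℕ := v.support.sup sz with hsdef
  have hs : ∀ j ∈ v.support, sz j ≤ s := fun j hj => Finset.le_sup hj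
  have hbound : ∀ n : ℕ, (1 / (4 * C)) ^ n / (n.factorial : ℝ) * p ((D ^ n) v) ≤
      C' * aTay_nn v * 2 ^ s * 2 ^ (1 + s) *
        ((((n + (1 + s) : ℕ) : ℝ)) ^ N * (1 / 2) ^ (n + (1 + s))) := by
    intro n
    obtain ⟨h3, h4⟩ := aTay_iter D sz (hsz.supp _ _) C hC0 hC s v hs n
    have h5 := hpv (s + n) _ h3
    have h6 : (((s + 1).ascFactorial n : ℕ) : ℝ) ≤ n.factorial * 2 ^ (s + n) := by
      rw [Nat.ascFactorial_eq_factorial_mul_choose]
      push_cast
      apply mul_le_mul_of_nonneg_left _ (by positivity)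
      exact_mod_cast Nat.choose_le_two_pow _ _
    have h7 : p ((D ^ n) v) ≤ C' * (1 + ((s + n : ℕ) : ℝ)) ^ N *
        (C ^ n * (n.factorial * 2 ^ (s + n)) * aTay_nn v) := by
      refine h5.trans ?_
      apply mul_le_mul_of_nonneg_left _ (by positivity)
      refine h4.trans ?_
      apply mul_le_mul_of_nonneg_right _ (aTay_nn_nonneg v)
      apply mul_le_mul_of_nonneg_left h6 (by positivity)
    have hCpos : 0 < C := by linarith
    have hf : (0 : ℝ) < n.factorial := by exact_mod_cast Nat.factorial_pos n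
    calc (1 / (4 * C)) ^ n / (n.factorial : ℝ) * p ((D ^ n) v)
        ≤ (1 / (4 * C)) ^ n / (n.factorial : ℝ) * (C' * (1 + ((s + n : ℕ) : ℝ)) ^ N *
        (C ^ n * (n.factorial * 2 ^ (s + n)) * aTay_nn v)) :=
          mul_le_mul_of_nonneg_left h7 (by positivity)
      _ = _ := by
          have e1 : (1 / (4 * C)) ^ n = (1 / 2) ^ n * (1 / 2) ^ n * (C ^ n)⁻¹ := by
            rw [← mul_pow, ← inv_pow, ← mul_pow]
            congr 1
            field_simp
            norm_num
          have e2 : (C ^ n)⁻¹ * C ^ n = 1 := inv_mul_cancel₀ (by positivity)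
          have e3 : ((1 : ℝ) / 2) ^ n * 2 ^ n = 1 := by
            rw [← mul_pow]; norm_num
          have e4 : ((1 : ℝ) / 2) ^ (1 + s) * 2 ^ (1 + s) = 1 := by
            rw [← mul_pow]; norm_num
          have e5 : (n.factorial : ℝ)⁻¹ * n.factorial = 1 := inv_mul_cancel₀ hf.ne'
          rw [e1, pow_add 2 s n, pow_add (1 / 2 : ℝ) n (1 + s), div_eq_mul_inv]
          push_cast
          have e6 : (1 : ℝ) + (s + n) = n + (1 + s) := by ring
          rw [e6]
          calc (1 / 2 : ℝ) ^ n * (1 / 2) ^ n * (C ^ n)⁻¹ * (n.factorial : ℝ)⁻¹ *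
                (C' * ((n : ℝ) + (1 + s)) ^ N * (C ^ n * (n.factorial * (2 ^ s * 2 ^ n)) * aTay_nn v))
              = C' * aTay_nn v * 2 ^ s * ((n : ℝ) + (1 + s)) ^ N * (1 / 2) ^ n *
                ((C ^ n)⁻¹ * C ^ n) * ((n.factorial : ℝ)⁻¹ * n.factorial) *
                ((1 / 2 : ℝ) ^ n * 2 ^ n) := by ring
            _ = C' * aTay_nn v * 2 ^ s * ((n : ℝ) + (1 + s)) ^ N * (1 / 2) ^ n *
                ((1 / 2 : ℝ) ^ (1 + s) * 2 ^ (1 + s)) := by rw [e2, e3, e4, e5]; ring
            _ = _ := by ring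
  have hsum : Summable fun n : ℕ => C' * aTay_nn v * 2 ^ s * 2 ^ (1 + s) *
        ((((n + (1 + s) : ℕ) : ℝ)) ^ N * (1 / 2) ^ (n + (1 + s))) := by
    apply Summable.mul_left
    have h8 : Summable fun n : ℕ => ((n : ℝ)) ^ N * ((1 : ℝ) / 2) ^ n :=
      summable_pow_mul_geometric_of_norm_lt_one N (by norm_num)
    have h9 := (summable_nat_add_iff (f := fun n : ℕ => ((n : ℝ)) ^ N * ((1 : ℝ) / 2) ^ n) (1 + s)).2 h8
    exact h9
  refine Summable.of_nonneg_of_le ?_ hbound hsum
  intro n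
  have := hp.nonneg ((D ^ n) v)
  positivity

end Pool.Agent.H913.LG
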