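import Pool.Agent.H913.LG.Stmts

/-! Project LG, lemma AB1: uniqueness. -/

open Matrix NormedSpace
open scoped Matrix ComplexConjugate

namespace Pool.Agent.H913.LG

open Pool.Agent.H913.SGP

/-- one step of the Taylor estimate -/
theorem aUniq_step {B : Type} [NormedAddCommGroup B] [NormedSpace ℝ B] {f f' : ℝ → B} {T K : ℝ}
    {n : ℕ} (hf : ∀ t, HasDerivAt f (f' t) t) (h0 : f 0 = 0)
    (hb : ∀ t, 0 ≤ t → t ≤ T → ‖f' t‖ ≤ K * (t ^ n / (n.factorial : ℝ))) :
    ∀ t, 0 ≤ t → t ≤ T → ‖f t‖ ≤ K * (t ^ (n + 1) / ((n + 1).factorial : ℝ)) := by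
  intro t ht0 htT
  have hB : ∀ x : ℝ, HasDerivAt (fun x : ℝ => K * (x ^ (n + 1) / ((n + 1).factorial : ℝ)))
      (K * (x ^ n / (n.factorial : ℝ))) x := by
    intro x
    have h1 := ((hasDerivAt_pow (n + 1) x).div_const ((n + 1).factorial : ℝ)).const_mul K
    have e : K * (x ^ n / (n.factorial : ℝ)) =
        K * (((n + 1 : ℕ) : ℝ) * x ^ (n + 1 - 1) / ((n + 1).factorial : ℝ)) := by
      have h2 : ((n + 1 : ℕ) : ℝ) ≠ 0 := by positivity
      have h3 : (n.factorial : ℝ) ≠ 0 := by positivity
      rw [Nat.factorial_succ]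
      push_cast at h2 ⊢
      field_simp
    rw [e]
    exact h1
  refine image_norm_le_of_norm_deriv_right_le_deriv_boundary (f := f) (f' := f') (a := 0) (b := T)
    (fun x _ => (hf x).continuousAt.continuousWithinAt)
    (fun x _ => (hf x).hasDerivWithinAt) (B := fun x => K * (x ^ (n + 1) / ((n + 1).factorial : ℝ)))
    (B' := fun x => K * (x ^ n / (n.factorial : ℝ))) ?_ hB (fun x hx => hb x hx.1 hx.2.le)
    ⟨ht0, htT⟩
  simp [h0]

/-- TARGET -/
theorem a_uniq (h1 : S_wbd) (h2 : S_gen) : S_uniq := by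
  intro V _ _ Mo r hr hT W hW B _ _ Φ hD hbd h0 v g
  have hP : ∀ g : Gd, ∀ v, Φ v g = 0 := by
    apply h2 (fun g => ∀ v, Φ v g = 0) h0
    intro g X γ t hγ hg
    obtain ⟨t₀, ht₀, hsum⟩ := hT X
    obtain ⟨hγc, hγm, hγe⟩ := hγ
    have hγ0 : γ 0 = 1 := by
      have := hγm 0 0
      rw [add_zero] at this
      exact (mul_eq_left.1 this.symm)
    obtain ⟨C, hC⟩ := (h1 W hW).1 γ hγc t₀
    have hder : ∀ (g : Gd) (v : V) (t : ℝ),
        HasDerivAt (fun t : ℝ => Φ v (g * γ t)) (Φ (Mo.a X v) (g * γ t)) t := by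
      intro g v t
      have h3 := hD X γ ⟨hγc, hγm, hγe⟩ v (g * γ t)
      have h4 : HasDerivAt (fun s : ℝ => Φ v (g * γ (t + s))) (Φ (Mo.a X v) (g * γ t)) (t - t) := by
        rw [sub_self]
        refine h3.congr_of_eventuallyEq (Filter.Eventually.of_forall fun s => ?_)
        simp only [hγm, mul_assoc]
      have h5 := h4.comp_sub_const t t
      refine h5.congr_of_eventuallyEq (Filter.Eventually.of_forall fun s => ?_)
      simp
    have key : ∀ g : Gd, (∀ v, Φ v g = 0) → ∀ t, |t| ≤ t₀ → ∀ v, Φ v (g * γ t) = 0 := by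
      intro g hg t ht v
      have hC0 : 0 ≤ C := le_trans (hW.1 (γ 0)).le (hC 0 (by simpa using ht₀.le))
      set D : ℝ := W g * C with hDdef
      have hD0 : 0 ≤ D := mul_nonneg (hW.1 g).le hC0
      have hbase : ∀ (v : V) (s : ℝ), |s| ≤ t₀ → ‖Φ v (g * γ s)‖ ≤ D * r v := by
        intro v s hs
        calc ‖Φ v (g * γ s)‖ ≤ r v * W (g * γ s) := hbd v _
          _ ≤ r v * (W g * W (γ s)) := mul_le_mul_of_nonneg_left (hW.2.2 _ _) (hr v)
          _ ≤ r v * (W g * C) := mul_le_mul_of_nonneg_left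
              (mul_le_mul_of_nonneg_left (hC s hs) (hW.1 g).le) (hr v)
          _ = D * r v := by rw [hDdef]; ring
      have hind : ∀ (n : ℕ) (v : V), (∀ s, 0 ≤ s → s ≤ t₀ → ‖Φ v (g * γ s)‖ ≤
            D * r ((Mo.a X ^ n) v) * (s ^ n / (n.factorial : ℝ))) ∧
          (∀ s, 0 ≤ s → s ≤ t₀ → ‖Φ v (g * γ (-s))‖ ≤
            D * r ((Mo.a X ^ n) v) * (s ^ n / (n.factorial : ℝ))) := by
        intro n
        induction n with
        | zero =>
          intro v
          constructor
          · intro s hs hs'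
            simpa using hbase v s (by rw [abs_of_nonneg hs]; exact hs')
          · intro s hs hs'
            simpa using hbase v (-s) (by rw [abs_neg, abs_of_nonneg hs]; exact hs')
        | succ n ih =>
          intro v
          have e : (Mo.a X ^ (n + 1)) v = (Mo.a X ^ n) (Mo.a X v) := by
            rw [pow_succ]; rfl
          rw [e]
          constructor
          · apply aUniq_step (f := fun s => Φ v (g * γ s)) (f' := fun s => Φ (Mo.a X v) (g * γ s))
              (fun t => hder g v t) (by simp [hγ0, hg]) (ih (Mo.a X v)).1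
          · apply aUniq_step (f := fun s => Φ v (g * γ (-s)))
              (f' := fun s => - Φ (Mo.a X v) (g * γ (-s)))
              (fun t => ?_) (by simp [hγ0, hg])
              (fun s hs hs' => by rw [norm_neg]; exact (ih (Mo.a X v)).2 s hs hs')
            have h6 := (hder g v (-t)).scomp t (hasDerivAt_neg t)
            simpa [Function.comp_def] using h6
      have hlim : Filter.Tendsto (fun n : ℕ => D * (t₀ ^ n / (n.factorial : ℝ) *
          r ((Mo.a X ^ n) v))) Filter.atTop (nhds 0) := by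
        simpa using (hsum v).tendsto_atTop_zero.const_mul D
      have hle : ∀ n : ℕ, ‖Φ v (g * γ t)‖ ≤ D * (t₀ ^ n / (n.factorial : ℝ) *
          r ((Mo.a X ^ n) v)) := by
        intro n
        have hn : ‖Φ v (g * γ t)‖ ≤ D * r ((Mo.a X ^ n) v) * (|t| ^ n / (n.factorial : ℝ)) := by
          rcases le_total 0 t with h | h
          · have := (hind n v).1 t h (by rwa [abs_of_nonneg h] at ht)
            rwa [abs_of_nonneg h]
          · have := (hind n v).2 (-t) (by linarith) (by rwa [abs_of_nonpos h] at ht)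
            rw [neg_neg] at this
            rwa [abs_of_nonpos h]
        refine hn.trans ?_
        have h7 : |t| ^ n / (n.factorial : ℝ) ≤ t₀ ^ n / (n.factorial : ℝ) := by
          have := pow_le_pow_left₀ (abs_nonneg t) ht n
          gcongr
        calc D * r ((Mo.a X ^ n) v) * (|t| ^ n / (n.factorial : ℝ))
            ≤ D * r ((Mo.a X ^ n) v) * (t₀ ^ n / (n.factorial : ℝ)) :=
              mul_le_mul_of_nonneg_left h7 (mul_nonneg hD0 (hr _))
          _ = _ := by ring
      have h8 : ‖Φ v (g * γ t)‖ ≤ 0 := ge_of_tendsto' hlim hle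
      exact norm_le_zero_iff.1 h8
    -- all times
    obtain ⟨N, hN⟩ := exists_nat_gt (|t| / t₀)
    have hN0 : (0 : ℝ) < N := lt_of_le_of_lt (by positivity) hN
    have hs : |t / N| ≤ t₀ := by
      rw [abs_div, Nat.abs_cast, div_le_iff₀ hN0]
      rw [div_lt_iff₀ ht₀] at hN
      linarith
    have hk : ∀ k : ℕ, ∀ v, Φ v (g * γ (k * (t / N))) = 0 := by
      intro k
      induction k with
      | zero =>
        intro v
        simp [hγ0, hg]
      | succ k ih =>
        intro v
        have := key _ ih (t / N) hs v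
        rw [mul_assoc, ← hγm] at this
        have e : (((k + 1 : ℕ) : ℝ) * (t / N)) = k * (t / N) + t / N := by push_cast; ring
        rw [e]
        exact this
    intro v
    have := hk N v
    rwa [mul_div_cancel₀ t hN0.ne'] at this
  exact hP g v

end Pool.Agent.H913.LG
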