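import Pool.Agent.H913.LG.Stmts2

/- PROJECT LG (owner helper913): MP_c67f28_al, MP_d7c545_al, MP_a304db_al, MP_6a3a89_al: norms on Harish-Chandra modules of
G = GL(2,R)+ x GL(2,R)+ (Gd below); common infrastructure.
SETUP (once per box, about 2 minutes):
  cd /workdir/pool/outputs/live && git fetch -q origin && mkdir -p /workdir/pool/Pool/Agent/H913/LG /workdir/pool/Pool/Agent/H913/LGP /workdir/pool/Pool/Agent/H913/SGP && git show origin/helper913:Pool/Agent/H913/LGP/Definitions.lean > /workdir/pool/Pool/Agent/H913/LGP/Definitions.lean && git show origin/main:Pool/Agent/H913/SGP/Definitions.lean > /workdir/pool/Pool/Agent/H913/SGP/Definitions.lean && for f in Defs HCBase HCAux Mod Stmts Stmts2; do git show origin/helper913:Pool/Agent/H913/LG/$f.lean > /workdir/pool/Pool/Agent/H913/LG/$f.lean; done; cd /workdir/pool && lake build Pool.Agent.H913.LG.Stmts2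
(ignore the sorry warnings of HCBase and HCAux: these are other jobs.) Read Defs, HCBase, Mod, Stmts, Stmts2 first (short).
Put this file at Pool/Agent/H913/LG/CB4.lean, replace the sorry of the TARGET by a proof; auxiliary lemmas before it are
welcome (give them names starting with cB4_ to avoid clashes). Statement of the target unchanged. Hypotheses (h1 : S_xxx) of the
target are proved elsewhere, use them freely. No sorry, no axioms. Respect RULES.md Validity 2 (banned words such as notation,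
macro, syntax, prefix, tactic; no straight double quotes; no line comment starting in odd places).
If the target is false or awkward, message helper913 at once (the statement will be fixed).
Paste the whole compiled file in jobs.result with status='done', done_at=now(), then: team-sql notify inbox_helper913 done -/

open Matrix NormedSpace
open scoped Matrix ComplexConjugate

namespace Pool.Agent.H913.LG

open Pool.Agent.H913.SGP Pool.Agent.H913.LGP

/-! Proof. (E,ι,π) realization of Q, ‖π g‖ ≤ C₀ wk a g, C₀ ≥ 1. For real t let z_t be the element of Gd with mt z_t.1 = exp(t/2) • 1 (scalar), z_t.2 = 1: it is γ t for the one-parameter group with blocks ((1/2)•1, 0) (S_blk h1). On the module: MU.A ((1/2)•1) 0 (emb u v) = emb v 0 (al (1/2•1) is real, be = 0, trace 1). So d/dt π(z_t) ι(emb u 0) = π(z_t) ι(0) = 0, π(z_t) ι(emb u 0) = ι(emb u 0), and d/dt π(z_t) ι(emb u v) = π(z_t)ι(emb v 0) = ι(emb v 0), so π(z_t) ι(emb u v) = ι(emb u v) + t ι(emb v 0) (derivative at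 t from derivative at 0 by the group law). 
For g let R = AA g.1 ^ a ≥ 1, g₁ = g * z_{-xx g} (so xx g₁ = 0, AA g₁.1 = AA g.1: al, be scale and det scales). π g ι(emb v 0) = π g₁ ι (emb v 0), and R π(g₁) ι(emb v 0) = π(g₁ z_R) ι(emb u v) - π(g₁) ι(emb u v), so R ‖π g ι(emb v 0)‖ ≤ (C₀ max(R, 1+R) + C₀ R) Q(emb u v) ≤ 3 C₀ R Q(emb u v) (1 ≤ R). Hence ‖π g ι(emb v 0)‖ ≤ 3C₀ Q(emb u v) for all g, u, v.
N = famNorm 1 of the one-element family F v g = π g (ι (emb v 0)) (Ω = Unit). IsFam for M0.toHC h0: linear; deriv: lieAct MU X (emb v 0) = emb (lieAct M0 X v) 0; K: kap; injective. N v ≤ 3C₀ Q(emb u v) for all u; Q(emb v 0) ≤ N v (g = 1). N is PB for sz0: N(ee m) ≤ 3C₀ Q(emb 0 (ee m)) = 3 C₀ Q (ee (m,1)), Q is PB by S_PB (h4) with the base norm pU of S_base (h5). So Taylor (S_tay h6), IsNormIn1 by S_fam (h7), S_kfin (h8), so IsNormIn. -/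

theorem cB4_emb_add (u v u' v' : ℤ →₀ ℂ) : emb (u + u') (v + v') = emb u v + emb u' v' := by
  unfold emb
  rw [Finsupp.mapDomain_add, Finsupp.mapDomain_add]
  abel

theorem cB4_emb_add0 (u u' : ℤ →₀ ℂ) : emb (u + u') 0 = emb u 0 + emb u' 0 := by
  rw [← cB4_emb_add, add_zero]

theorem cB4_emb_smul0 (c : ℂ) (u : ℤ →₀ ℂ) : emb (c • u) 0 = c • emb u 0 := by
  unfold emb
  rw [Finsupp.mapDomain_smul, Finsupp.mapDomain_zero, add_zero, add_zero]

theorem cB4_emb_zero : emb 0 0 = 0 := by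
  unfold emb
  rw [Finsupp.mapDomain_zero, Finsupp.mapDomain_zero, add_zero]

theorem cB4_emb_single0 (m : ℤ) (c : ℂ) : emb (Finsupp.single m c) 0 = Finsupp.single (m, 0) c := by
  unfold emb
  rw [Finsupp.mapDomain_single, Finsupp.mapDomain_zero, add_zero]

theorem cB4_emb_single1 (m : ℤ) (c : ℂ) : emb 0 (Finsupp.single m c) = Finsupp.single (m, 1) c := by
  unfold emb
  rw [Finsupp.mapDomain_single, Finsupp.mapDomain_zero, zero_add]

theorem cB4_emb_split (u v : ℤ →₀ ℂ) : emb u v = emb u 0 + emb 0 v := by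
  rw [← cB4_emb_add, add_zero, zero_add]

theorem cB4_emb_inj (v : ℤ →₀ ℂ) (h : emb v 0 = 0) : v = 0 := by
  unfold emb at h
  rw [Finsupp.mapDomain_zero, add_zero] at h
  have hinj : Function.Injective (fun m : ℤ => (m, (0 : Fin 2))) :=
    fun a b hab => (Prod.mk.inj hab).1
  exact Finsupp.mapDomain_injective hinj (by rw [h, Finsupp.mapDomain_zero])

theorem cB4_A0 (X Y : Mat2) (v : ℤ →₀ ℂ) : MU.A X Y (emb v 0) = emb (M0.A X Y v) 0 := by
  induction v using Finsupp.induction_linear with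
  | zero => rw [cB4_emb_zero, map_zero, map_zero, cB4_emb_zero]
  | add f g hf hg => rw [cB4_emb_add0, map_add, hf, hg, map_add, cB4_emb_add0]
  | single m c =>
    rw [cB4_emb_single0]
    simp only [MU, M0, Finsupp.linearCombination_single]
    rw [cB4_emb_smul0]
    unfold emb
    simp

theorem cB4_half (m : ℤ) : vfm ((1 / 2 : ℝ) • (1 : Mat2)) m = 0 := by
  have h1 : be ((1 / 2 : ℝ) • (1 : Mat2)) = 0 := by
    apply Complex.ext <;> simp [be]
  have h2 : (al ((1 / 2 : ℝ) • (1 : Mat2))).im = 0 := by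
    simp [al]
  unfold vfm
  rw [h1, h2]
  simp

theorem cB4_tr : ((1 / 2 : ℝ) • (1 : Mat2)).trace = 1 := by
  simp [Matrix.trace_smul]

theorem cB4_A1 (u v : ℤ →₀ ℂ) : MU.A ((1 / 2 : ℝ) • (1 : Mat2)) 0 (emb u v) = emb v 0 := by
  have h0 : ∀ u : ℤ →₀ ℂ, MU.A ((1 / 2 : ℝ) • (1 : Mat2)) 0 (emb u 0) = 0 := by
    intro u
    rw [cB4_A0]
    have : M0.A ((1 / 2 : ℝ) • (1 : Mat2)) 0 u = 0 := by
      induction u using Finsupp.induction_linear with
      | zero => rw [map_zero]
      | add f g hf hg => rw [map_add, hf, hg, add_zero]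
      | single m c =>
        simp only [M0, Finsupp.linearCombination_single, cB4_half, smul_zero]
    rw [this, cB4_emb_zero]
  rw [cB4_emb_split, map_add, h0, zero_add]
  induction v using Finsupp.induction_linear with
  | zero => rw [cB4_emb_zero, map_zero]
  | add f g hf hg =>
    have : emb 0 (f + g) = emb 0 f + emb 0 g := by rw [← cB4_emb_add, add_zero]
    rw [this, map_add, hf, hg, cB4_emb_add0]
  | single m c =>
    rw [cB4_emb_single1, cB4_emb_single0]
    simp only [MU, Finsupp.linearCombination_single, cB4_half, Finsupp.mapDomain_zero, zero_add,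
      if_true, cB4_tr]
    simp

theorem cB4_kap (k : maxCompact rho) (v : ℤ →₀ ℂ) :
    kap MU k (emb v 0) = emb (kap M0 k v) 0 := by
  change kapFun MU k.1 (emb v 0) = emb (kapFun M0 k.1 v) 0
  induction v using Finsupp.induction_linear with
  | zero => rw [cB4_emb_zero, map_zero, map_zero, cB4_emb_zero]
  | add f g hf hg => rw [cB4_emb_add0, map_add, hf, hg, map_add, cB4_emb_add0]
  | single m c =>
    rw [cB4_emb_single0]
    simp only [kapFun, dg, Finsupp.linearCombination_single]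
    rw [cB4_emb_smul0, cB4_emb_smul0, cB4_emb_single0]
    simp only [MU, M0]

/-- one-parameter groups at time zero -/
theorem cB4_gamma_zero {X : Mat 4} {γ : ℝ → Gd} (h : IsOneParam rho X γ) : γ 0 = 1 := by
  have := h.2.1 0 0
  rw [add_zero] at this
  exact left_eq_mul.mp this

/-- derivative at an arbitrary time -/
theorem cB4_deriv {V : Type} [AddCommGroup V] [Module ℂ V] {Mo : HCModule GRd rho V}
    {E : Type} [NormedAddCommGroup E] [NormedSpace ℂ E] {ι : V →ₗ[ℂ] E} {π : Gd →* (E →L[ℂ] E)}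
    (hG : IsGlobalization Mo ι π) (X : LieAlg GRd) (γ : ℝ → Gd) (hγ : IsOneParam rho X.1 γ) (v : V)
    (g : Gd) (t₀ : ℝ) :
    HasDerivAt (fun t : ℝ => π (g * γ t) (ι v)) (π (g * γ t₀) (ι (Mo.a X v))) t₀ := by
  have h0 := hG.intertwines_lie X γ hγ v
  have h1 : HasDerivAt (fun t : ℝ => π (γ (t - t₀)) (ι v)) (ι (Mo.a X v)) t₀ := by
    rw [← sub_self t₀] at h0
    exact h0.comp_sub_const t₀ t₀
  have h2 := ((π (g * γ t₀)).restrictScalars ℝ).hasFDerivAt.comp_hasDerivAt t₀ h1
  have e : (fun t : ℝ => π (g * γ t) (ι v)) =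
      (((π (g * γ t₀)).restrictScalars ℝ) ∘ fun t : ℝ => π (γ (t - t₀)) (ι v)) := by
    funext t
    have : g * γ t = (g * γ t₀) * γ (t - t₀) := by
      rw [mul_assoc, ← hγ.2.1]
      congr 2
      ring
    rw [this, map_mul]
    rfl
  rw [e]
  exact h2

theorem cB4_const {E : Type} [NormedAddCommGroup E] [NormedSpace ℂ E] (f : ℝ → E) (c : E)
    (h : ∀ t, HasDerivAt f c t) (t : ℝ) : f t = f 0 + (t : ℂ) • c := by
  have h1 : ∀ s : ℝ, HasDerivAt (fun s : ℝ => f s - s • c) 0 s := by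
    intro s
    have h2 : HasDerivAt (fun s : ℝ => s • c) ((1 : ℝ) • c) s := (hasDerivAt_id s).smul_const c
    have h3 := (h s).sub h2
    rwa [one_smul, sub_self] at h3
  have h4 : ∀ x y : ℝ, (fun s : ℝ => f s - s • c) x = (fun s : ℝ => f s - s • c) y :=
    is_const_of_deriv_eq_zero (fun s => (h1 s).differentiableAt) (fun s => (h1 s).deriv)
  have h5 := h4 t 0
  simp only [zero_smul, sub_zero] at h5
  rw [← h5]
  have h6 : (t : ℂ) • c = t • c := (Complex.coe_smul t c)
  rw [h6]
  abel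

theorem cB4_exp (t : ℝ) : exp (t • ((1 / 2 : ℝ) • (1 : Mat2))) = Real.exp (t / 2) • (1 : Mat2) := by
  have h1 : t • ((1 / 2 : ℝ) • (1 : Mat2)) = Matrix.diagonal fun _ : Fin 2 => t / 2 := by
    rw [smul_smul, Matrix.smul_one_eq_diagonal]
    congr 1
    funext i
    ring
  rw [h1, Matrix.exp_diagonal, Matrix.smul_one_eq_diagonal]
  congr 1
  funext i
  rw [Pi.coe_exp, Real.exp_eq_exp_ℝ]

theorem cB4_det_pos (g : Gp) : 0 < (mt g).det := by
  have := g.2
  rw [Matrix.mem_glpos] at this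
  simpa using this

theorem cB4_mt_mul (g h : Gp) : mt (g * h) = mt g * mt h := by
  simp [mt]

/-- effect of the central one-parameter group -/
theorem cB4_center (g h : Gp) (t : ℝ) (hh : mt h = Real.exp (t / 2) • (1 : Mat2)) :
    AA (g * h) = AA g ∧ Real.log (mt (g * h)).det = Real.log (mt g).det + t := by
  have h1 : mt (g * h) = Real.exp (t / 2) • mt g := by
    rw [cB4_mt_mul, hh, Matrix.mul_smul, Matrix.mul_one]
  have h2 : al (mt (g * h)) = ((Real.exp (t / 2) : ℝ) : ℂ) * al (mt g) := by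
    rw [h1]
    apply Complex.ext
    · simp only [al, Matrix.smul_apply, smul_eq_mul, Complex.re_ofReal_mul]
      ring
    · simp only [al, Matrix.smul_apply, smul_eq_mul, Complex.im_ofReal_mul]
      ring
  have h3 : be (mt (g * h)) = ((Real.exp (t / 2) : ℝ) : ℂ) * be (mt g) := by
    rw [h1]
    apply Complex.ext
    · simp only [be, Matrix.smul_apply, smul_eq_mul, Complex.re_ofReal_mul]
      ring
    · simp only [be, Matrix.smul_apply, smul_eq_mul, Complex.im_ofReal_mul]
      ring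
  have h4 : (mt (g * h)).det = Real.exp t * (mt g).det := by
    rw [h1, Matrix.det_smul, Fintype.card_fin, ← Real.exp_nat_mul]
    congr 2
    push_cast
    ring
  have hpos := cB4_det_pos g
  constructor
  · unfold AA
    rw [h2, h3, h4, norm_mul, norm_mul, Complex.norm_real, Real.norm_eq_abs,
      abs_of_pos (Real.exp_pos _), ← mul_add, mul_pow, ← Real.exp_nat_mul]
    have : ((2 : ℕ) : ℝ) * (t / 2) = t := by push_cast; ring
    rw [this, mul_div_mul_left _ _ (Real.exp_pos t).ne']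
  · rw [h4, Real.log_mul (Real.exp_pos t).ne' hpos.ne', Real.log_exp]
    ring

/-- TARGET -/
theorem c_c4 (h1 : S_blk) (h2 : S_AA) (h3 : S_K) (h4 : S_PB) (h5 : S_base) (h6 : S_tay) (h7 : S_fam)
    (h8 : S_kfin) (h9 : S_wk) (h10 : S_good0) (h11 : S_goodU) : S_c4 := by
  intro a hU h0 Q hQin
  have hQin' := hQin
  obtain ⟨E, i1, i2, hc, ι, π, hG, hQ, C, hC, hπ⟩ := hQin
  obtain ⟨X₀, hX1, hX2⟩ := h1.1 ((1 / 2 : ℝ) • (1 : Mat2)) 0
  obtain ⟨γ, hγ⟩ := h1.2.1 X₀
  have hmt : ∀ t : ℝ, mt (γ t).1 = Real.exp (t / 2) • (1 : Mat2) := by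
    intro t
    rw [(h1.2.2 X₀ γ hγ t).1, hX1, cB4_exp]
  have hlie : ∀ u v, (MU.toHC hU).a X₀ (emb u v) = emb v 0 := by
    intro u v
    change MU.A (b1 X₀.1) (b2 X₀.1) (emb u v) = emb v 0
    rw [hX1, hX2]
    exact cB4_A1 u v
  have hAA1 : ∀ g : Gd, 1 ≤ AA g.1 ^ a := fun g => one_le_pow₀ (h2.1 g.1)
  have hw1 : ∀ g : Gd, 1 ≤ wk a g := fun g => (hAA1 g).trans (le_max_left _ _)
  -- the key estimate
  have hz0 : ∀ (g : Gd) (v : ℤ →₀ ℂ) (t : ℝ), π (g * γ t) (ι (emb v 0)) = π g (ι (emb v 0)) := by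
    intro g v t
    have h := cB4_const (fun t : ℝ => π (g * γ t) (ι (emb v 0))) 0 (fun s => by
      have := cB4_deriv hG X₀ γ hγ (emb v 0) g s
      rwa [hlie, cB4_emb_zero, map_zero, map_zero] at this) t
    simp only [smul_zero, add_zero] at h
    rw [h, cB4_gamma_zero hγ, mul_one]
  have hz1 : ∀ (g : Gd) (u v : ℤ →₀ ℂ) (t : ℝ), π (g * γ t) (ι (emb u v)) =
      π g (ι (emb u v)) + (t : ℂ) • π g (ι (emb v 0)) := by
    intro g u v t
    have h := cB4_const (fun t : ℝ => π (g * γ t) (ι (emb u v))) (π g (ι (emb v 0))) (fun s => by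
      have := cB4_deriv hG X₀ γ hγ (emb u v) g s
      rwa [hlie, hz0] at this) t
    rw [h, cB4_gamma_zero hγ, mul_one]
  have key : ∀ (g : Gd) (u v : ℤ →₀ ℂ), ‖π g (ι (emb v 0))‖ ≤ 3 * C * Q (emb u v) := by
    intro g u v
    set R : ℝ := AA g.1 ^ a with hR
    have hR1 : 1 ≤ R := hAA1 g
    set g₁ : Gd := g * γ (-xx g) with hg₁
    have hc1 := cB4_center g.1 (γ (-xx g)).1 (-xx g) (hmt _)
    have hg1AA : AA g₁.1 = AA g.1 := hc1.1
    have hg1xx : xx g₁ = 0 := by
      have := hc1.2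
      change Real.log (mt g₁.1).det = 0
      change Real.log (mt g₁.1).det = xx g + -xx g at this
      rw [this]
      ring
    have hc2 := cB4_center g₁.1 (γ R).1 R (hmt _)
    have hg2AA : AA (g₁ * γ R).1 = AA g.1 := hc2.1.trans hg1AA
    have hg2xx : xx (g₁ * γ R) = R := by
      have := hc2.2
      change Real.log (mt (g₁ * γ R).1).det = R
      change Real.log (mt (g₁ * γ R).1).det = xx g₁ + R at this
      rw [this, hg1xx, zero_add]
    have hw2 : wk a g₁ ≤ R := by
      unfold wk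
      rw [hg1AA, hg1xx, abs_zero, add_zero]
      exact max_le le_rfl hR1
    have hw3 : wk a (g₁ * γ R) ≤ 2 * R := by
      unfold wk
      rw [hg2AA, hg2xx, abs_of_pos (by linarith)]
      exact max_le (by rw [← hR]; linarith) (by linarith)
    have hQn : 0 ≤ Q (emb u v) := by rw [hQ]; exact norm_nonneg _
    have e1 : π g₁ (ι (emb v 0)) = π g (ι (emb v 0)) := hz0 g v _
    have e2 := hz1 g₁ u v R
    have e3 : (R : ℂ) • π g (ι (emb v 0)) = π (g₁ * γ R) (ι (emb u v)) - π g₁ (ι (emb u v)) := by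
      rw [e2, e1]
      abel
    have e4 : R * ‖π g (ι (emb v 0))‖ ≤ (C * (2 * R)) * Q (emb u v) + (C * R) * Q (emb u v) := by
      have e5 : ‖(R : ℂ) • π g (ι (emb v 0))‖ = R * ‖π g (ι (emb v 0))‖ := by
        rw [norm_smul, Complex.norm_real, Real.norm_eq_abs, abs_of_pos (by linarith)]
      rw [← e5, e3, hQ]
      refine (norm_sub_le _ _).trans (add_le_add ?_ ?_)
      · refine ((π (g₁ * γ R)).le_opNorm _).trans ?_
        refine mul_le_mul_of_nonneg_right ?_ (norm_nonneg _)
        exact (hπ _).trans (mul_le_mul_of_nonneg_left hw3 hC.le)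
      · refine ((π g₁).le_opNorm _).trans ?_
        refine mul_le_mul_of_nonneg_right ?_ (norm_nonneg _)
        exact (hπ _).trans (mul_le_mul_of_nonneg_left hw2 hC.le)
    have e6 : R * ‖π g (ι (emb v 0))‖ ≤ R * (3 * C * Q (emb u v)) := by
      calc _ ≤ _ := e4
        _ = _ := by ring
    exact le_of_mul_le_mul_left e6 (by linarith)
  -- the family
  let F : Unit → (ℤ →₀ ℂ) → Gd → E := fun _ v g => π g (ι (emb v 0))
  let N : (ℤ →₀ ℂ) → ℝ := famNorm (fun _ : Gd => (1 : ℝ)) (fun _ : Unit => E) F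
  have hNdef : ∀ v, N v = ⨆ x : Unit × Gd, ‖π x.2 (ι (emb v 0))‖ / 1 := fun v => rfl
  have hbdd : ∀ v, BddAbove (Set.range fun x : Unit × Gd => ‖π x.2 (ι (emb v 0))‖ / 1) := by
    intro v
    refine ⟨3 * C * Q (emb 0 v), ?_⟩
    rintro _ ⟨x, rfl⟩
    simp only [div_one]
    exact key x.2 0 v
  have hNle : ∀ u v, N v ≤ 3 * C * Q (emb u v) := by
    intro u v
    rw [hNdef]
    refine ciSup_le fun x => ?_
    rw [div_one]
    exact key x.2 u v
  have hleN : ∀ v g, ‖π g (ι (emb v 0))‖ ≤ N v := by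
    intro v g
    rw [hNdef]
    have := le_ciSup (hbdd v) ((), g)
    simpa using this
  have hNnn : ∀ v, 0 ≤ N v := fun v => (norm_nonneg _).trans (hleN v 1)
  have hSN : IsSN N := by
    refine ⟨hNnn, ?_, ?_⟩
    · intro u v
      rw [hNdef (u + v)]
      refine ciSup_le fun x => ?_
      rw [div_one, cB4_emb_add0, map_add, map_add]
      exact (norm_add_le _ _).trans (add_le_add (hleN u x.2) (hleN v x.2))
    · intro c v
      rw [hNdef, hNdef, Real.mul_iSup_of_nonneg (norm_nonneg c)]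
      congr 1
      funext x
      rw [cB4_emb_smul0, map_smul, map_smul, norm_smul, mul_div_assoc]
  have hfam : IsFam (M0.toHC h0) (fun _ : Gd => (1 : ℝ)) (fun _ : Unit => E) F := by
    refine ⟨?_, ?_, ?_, ?_, ?_, ?_⟩
    · intro _ u v g
      change π g (ι (emb (u + v) 0)) = π g (ι (emb u 0)) + π g (ι (emb v 0))
      rw [cB4_emb_add0, map_add, map_add]
    · intro _ c v g
      change π g (ι (emb (c • v) 0)) = c • π g (ι (emb v 0))
      rw [cB4_emb_smul0, map_smul, map_smul]
    · intro _ X γ' hγ' v g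
      have := cB4_deriv hG X γ' hγ' (emb v 0) g 0
      rw [cB4_gamma_zero hγ', mul_one] at this
      have e : (MU.toHC hU).a X (emb v 0) = emb ((M0.toHC h0).a X v) 0 :=
        cB4_A0 (b1 X.1) (b2 X.1) v
      rw [e] at this
      exact this
    · intro _ k v g
      change π (g * k.1) (ι (emb v 0)) = π g (ι (emb ((M0.toHC h0).κ k v) 0))
      rw [map_mul]
      change π g (π k.1 (ι (emb v 0))) = _
      rw [hG.intertwines_K k (emb v 0)]
      have e : (MU.toHC hU).κ k (emb v 0) = emb ((M0.toHC h0).κ k v) 0 := cB4_kap k v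
      rw [e]
    · intro v
      refine ⟨3 * C * Q (emb 0 v), ?_⟩
      intro _ g
      rw [mul_one]
      exact key g 0 v
    · intro v hv
      have h := hv () 1
      change π 1 (ι (emb v 0)) = 0 at h
      rw [map_one] at h
      change ι (emb v 0) = 0 at h
      exact cB4_emb_inj v (hG.injective (by rw [h, map_zero]))
  have hPBQ : PB sz1 Q := by
    refine h4 _ MU hU sz1 h11.2 (fun g : Gd => 1 + |xx g|) (wk a) h5.2.1.1 (h9 a) pU Q ?_
      (h5.2.1.2 hU).2 hQin'
    obtain ⟨E', j1, j2, hc', ι', π', hG', hp', hw'⟩ := (h5.2.1.2 hU).1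
    exact ⟨E', j1, j2, hc', ι', π', hG', hp', 1, one_pos, fun g => by rw [one_mul]; exact hw' g⟩
  have hPBN : PB sz0 N := by
    obtain ⟨C', n, hC'⟩ := hPBQ
    refine ⟨3 * C * C', n, ?_⟩
    intro m
    have h := hNle 0 (ee m)
    rw [cB4_emb_single1] at h
    refine h.trans ?_
    have h' := hC' (m, 1)
    have e : sz1 (m, 1) = sz0 m := rfl
    rw [e] at h'
    calc 3 * C * Q (ee (m, 1)) ≤ 3 * C * (C' * (1 + (sz0 m : ℝ)) ^ n) :=
          mul_le_mul_of_nonneg_left h' (by positivity)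
      _ = 3 * C * C' * (1 + (sz0 m : ℝ)) ^ n := by ring
  have htay : Taylor (M0.toHC h0) N := h6 _ M0 h0 sz0 h10.2 N hSN hPBN
  have hin1 : IsNormIn1 (M0.toHC h0) (fun _ : Gd => (1 : ℝ)) N :=
    h7 _ (M0.toHC h0) (h8 _ M0 h0) (fun _ : Gd => (1 : ℝ)) h5.1.1 Unit (fun _ => E) F hfam htay
  refine ⟨N, ?_, ⟨1, fun u => ?_⟩, ⟨3 * C, fun u v => hNle u v⟩⟩
  · obtain ⟨E', j1, j2, hc', ι', π', hG', hp', hw'⟩ := hin1
    exact ⟨E', j1, j2, hc', ι', π', hG', hp', 1, one_pos, fun g => by rw [one_mul]; exact hw' g⟩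
  · rw [one_mul, hQ]
    have := hleN u 1
    rw [map_one] at this
    exact this

end Pool.Agent.H913.LG
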