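import Pool.Agent.H913.LG.Stmts2

open Matrix NormedSpace
open scoped Matrix ComplexConjugate

namespace Pool.Agent.H913.LG

open Pool.Agent.H913.SGP Pool.Agent.H913.LGP

section detexp

attribute [local instance] Matrix.linftyOpNormedRing Matrix.linftyOpNormedAlgebra

theorem cB5_hasDeriv (X : Mat2) (t : ℝ) :
    HasDerivAt (fun u : ℝ => exp (u • X)) (exp (t • X) * X) t :=
  hasDerivAt_exp_smul_const X t

theorem cB5_hasDeriv_entry (X : Mat2) (t : ℝ) (i j : Fin 2) :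
    HasDerivAt (fun u : ℝ => exp (u • X) i j) ((exp (t • X) * X) i j) t := by
  have h := cB5_hasDeriv X t
  have h2 := (Matrix.entryLinearMap ℝ ℝ i j).toContinuousLinearMap.hasFDerivAt.comp_hasDerivAt t h
  exact h2

end detexp

theorem cB5_det_exp (X : Mat2) (t : ℝ) : (exp (t • X)).det = Real.exp (t * X.trace) := by
  have hd : ∀ s : ℝ, HasDerivAt (fun u : ℝ => (exp (u • X)).det * Real.exp (-(u * X.trace))) 0 s := by
    intro s
    have h00 := cB5_hasDeriv_entry X s 0 0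
    have h01 := cB5_hasDeriv_entry X s 0 1
    have h10 := cB5_hasDeriv_entry X s 1 0
    have h11 := cB5_hasDeriv_entry X s 1 1
    have he : HasDerivAt (fun u : ℝ => Real.exp (-(u * X.trace)))
        (Real.exp (-(s * X.trace)) * (-(1 * X.trace))) s :=
      ((hasDerivAt_id s).mul_const X.trace).neg.exp
    have h := ((h00.mul h11).sub (h01.mul h10)).mul he
    have h2 : (fun u : ℝ => (exp (u • X)).det * Real.exp (-(u * X.trace))) =
        fun u : ℝ => (exp (u • X) 0 0 * exp (u • X) 1 1 - exp (u • X) 0 1 * exp (u • X) 1 0) *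
          Real.exp (-(u * X.trace)) := by
      funext u; rw [Matrix.det_fin_two]
    rw [h2]
    refine h.congr_deriv ?_
    simp only [Matrix.mul_apply, Fin.sum_univ_two, Matrix.trace_fin_two, Pi.sub_apply, Pi.mul_apply]
    ring
  have hc := is_const_of_deriv_eq_zero (fun s => (hd s).differentiableAt) (fun s => (hd s).deriv) t 0
  simp only [zero_smul, exp_zero, Matrix.det_one, zero_mul, neg_zero, Real.exp_zero, mul_one] at hc
  have : Real.exp (-(t * X.trace)) * Real.exp (t * X.trace) = 1 := by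
    rw [← Real.exp_add]; simp
  calc (exp (t • X)).det = (exp (t • X)).det * (Real.exp (-(t * X.trace)) * Real.exp (t * X.trace)) := by
        rw [this, mul_one]
    _ = Real.exp (t * X.trace) := by rw [← mul_assoc, hc, one_mul]


/-! ### the retraction of the group onto the kernel of `xx` -/

theorem cB5_zdet (t : ℝ) : (Real.exp (t / 2) • (1 : Mat2)).det = Real.exp t := by
  rw [Matrix.det_smul, Matrix.det_one, mul_one, Fintype.card_fin, ← Real.exp_nat_mul]
  congr 1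
  push_cast
  ring

/-- the central element -/
noncomputable def cB5_z (t : ℝ) : Gp :=
  ⟨Matrix.GeneralLinearGroup.mkOfDetNeZero (Real.exp (t / 2) • (1 : Mat2))
    (by rw [cB5_zdet]; exact (Real.exp_pos t).ne'), by
    rw [Matrix.mem_glpos]
    change 0 < (Real.exp (t / 2) • (1 : Mat2)).det
    rw [cB5_zdet]; exact Real.exp_pos t⟩

theorem cB5_mt_z (t : ℝ) : mt (cB5_z t) = Real.exp (t / 2) • (1 : Mat2) := rfl

theorem cB5_mt_mul (g h : Gp) : mt (g * h) = mt g * mt h := rfl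

theorem cB5_mt_one : mt (1 : Gp) = 1 := rfl

theorem cB5_det_pos (g : Gp) : 0 < (mt g).det := by
  have := g.2
  rw [Matrix.mem_glpos] at this
  exact this

theorem cB5_ext {g h : Gd} (h1 : mt g.1 = mt h.1) (h2 : mt g.2 = mt h.2) : g = h :=
  Prod.ext (Subtype.ext (Units.ext h1)) (Subtype.ext (Units.ext h2))

theorem cB5_xx_mul (g h : Gd) : xx (g * h) = xx g + xx h := by
  unfold xx
  rw [Prod.fst_mul, cB5_mt_mul, Matrix.det_mul, Real.log_mul (cB5_det_pos _).ne' (cB5_det_pos _).ne']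

/-- the retraction -/
noncomputable def cB5_r (g : Gd) : Gd := (g.1 * cB5_z (-(xx g)), g.2)

theorem cB5_mt_r (g : Gd) : mt (cB5_r g).1 = Real.exp (-(xx g) / 2) • mt g.1 := by
  change mt (g.1 * cB5_z (-(xx g))) = _
  rw [cB5_mt_mul, cB5_mt_z, Matrix.mul_smul, mul_one]

theorem cB5_r_mul (g h : Gd) : cB5_r (g * h) = cB5_r g * cB5_r h := by
  refine cB5_ext ?_ rfl
  rw [cB5_mt_r, Prod.fst_mul, Prod.fst_mul, cB5_mt_mul, cB5_mt_mul, cB5_mt_r, cB5_mt_r,
    Matrix.smul_mul, Matrix.mul_smul, smul_smul, ← Real.exp_add, cB5_xx_mul]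
  congr 2
  ring

theorem cB5_xx_one : xx (1 : Gd) = 0 := by
  unfold xx
  rw [Prod.fst_one, cB5_mt_one, Matrix.det_one, Real.log_one]

theorem cB5_r_of_xx (g : Gd) (h : xx g = 0) : cB5_r g = g := by
  refine cB5_ext ?_ rfl
  rw [cB5_mt_r, h]
  simp

theorem cB5_xx_r (g : Gd) : xx (cB5_r g) = 0 := by
  unfold xx
  rw [cB5_mt_r, Matrix.det_smul, Fintype.card_fin, ← Real.exp_nat_mul]
  have h : Real.exp (((2 : ℕ) : ℝ) * (-(xx g) / 2)) = ((mt g.1).det)⁻¹ := by
    have : ((2 : ℕ) : ℝ) * (-(xx g) / 2) = -(xx g) := by push_cast; ring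
    rw [this, Real.exp_neg]
    unfold xx
    rw [Real.exp_log (cB5_det_pos _)]
  rw [h, inv_mul_cancel₀ (cB5_det_pos _).ne', Real.log_one]

theorem cB5_al_smul (c : ℝ) (M : Mat2) : al (c • M) = (c : ℂ) * al M := by
  apply Complex.ext <;> simp [al] <;> ring

theorem cB5_be_smul (c : ℝ) (M : Mat2) : be (c • M) = (c : ℂ) * be M := by
  apply Complex.ext <;> simp [be] <;> ring

theorem cB5_AA_r (g : Gd) : AA (cB5_r g).1 = AA g.1 := by
  unfold AA
  rw [cB5_mt_r, cB5_al_smul, cB5_be_smul, Matrix.det_smul, Fintype.card_fin, norm_mul, norm_mul,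
    Complex.norm_real, Real.norm_eq_abs, abs_of_pos (Real.exp_pos _)]
  have h1 := (Real.exp_pos (-(xx g) / 2)).ne'
  have h2 := (cB5_det_pos g.1).ne'
  field_simp

theorem cB5_wk_r (hA : ∀ g, 1 ≤ AA g) (a : ℕ) (g : Gd) : wk a (cB5_r g) ≤ wk a g := by
  unfold wk
  rw [cB5_AA_r, cB5_xx_r, abs_zero, add_zero]
  refine max_le (le_max_left _ _) ((one_le_pow₀ (hA g.1)).trans (le_max_left _ _))

theorem cB5_xx_K (h3 : S_K) (k : maxCompact rho) : xx k.1 = 0 := by
  obtain ⟨c, -, hs, hm, -⟩ := h3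
  obtain ⟨x, rfl⟩ := hs k
  unfold xx
  rw [(hm x).1]
  have : (rot x.1).det = 1 := by
    rw [rot, Matrix.det_fin_two]
    simp
    have := Real.sin_sq_add_cos_sq x.1
    nlinarith [this]
  rw [this, Real.log_one]

/-! ### exponentials -/

theorem cB5_exp_smul_one (c : ℝ) : exp (c • (1 : Mat2)) = Real.exp c • (1 : Mat2) := by
  have h1 : c • (1 : Mat2) = Matrix.diagonal (fun _ => c) := by
    ext i j; fin_cases i <;> fin_cases j <;> simp
  rw [h1, Matrix.exp_diagonal]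
  ext i j
  fin_cases i <;> fin_cases j <;> simp [Real.exp_eq_exp_ℝ, Pi.coe_exp]

theorem cB5_r_oneParam (h1 : S_blk) (X X' : LieAlg GRd) (γ : ℝ → Gd) (hγ : IsOneParam rho X.1 γ)
    (hb1 : b1 X'.1 = b1 X.1 - (((b1 X.1).trace) / 2) • (1 : Mat2)) (hb2 : b2 X'.1 = b2 X.1) :
    IsOneParam rho X'.1 (fun t => cB5_r (γ t)) := by
  obtain ⟨γ', hγ'⟩ := h1.2.1 X'
  have he : (fun t => cB5_r (γ t)) = γ' := by
    funext t
    obtain ⟨e1, e2⟩ := h1.2.2 X γ hγ t
    obtain ⟨e1', e2'⟩ := h1.2.2 X' γ' hγ' t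
    refine cB5_ext ?_ ?_
    · rw [cB5_mt_r, e1, e1', hb1, smul_sub, sub_eq_add_neg, Matrix.exp_add_of_commute]
      · have hx : xx (γ t) = t * (b1 X.1).trace := by
          unfold xx
          rw [e1, cB5_det_exp, Real.log_exp]
        have : -(t • ((b1 X.1).trace / 2) • (1 : Mat2)) = (-(t * (b1 X.1).trace) / 2) • (1 : Mat2) := by
          rw [smul_smul, ← neg_smul]; congr 1; ring
        rw [this, cB5_exp_smul_one, Matrix.mul_smul, mul_one, hx]
      · have : -(t • ((b1 X.1).trace / 2) • (1 : Mat2)) = (-(t * (b1 X.1).trace) / 2) • (1 : Mat2) := by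
          rw [smul_smul, ← neg_smul]; congr 1; ring
        rw [this]
        exact (Commute.one_right _).smul_right _
    · change mt (γ t).2 = _
      rw [e2, e2', hb2]
  rw [he]
  exact hγ'

/-! ### the embedding of the module -/

theorem cB5_emb (v : ℤ →₀ ℂ) : emb 0 v = v.mapDomain (fun m => (m, (1 : Fin 2))) := by
  unfold emb
  rw [Finsupp.mapDomain_zero, zero_add]

theorem cB5_emb_inj (v : ℤ →₀ ℂ) (h : emb 0 v = 0) : v = 0 := by
  rw [cB5_emb] at h
  have hi : Function.Injective (fun m : ℤ => (m, (1 : Fin 2))) := fun a b hab => (Prod.mk.inj hab).1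
  exact Finsupp.mapDomain_injective hi (by rw [h, Finsupp.mapDomain_zero])

theorem cB5_lc (f : ℤ → ℤ →₀ ℂ) (F : ℤ × Fin 2 → ℤ × Fin 2 →₀ ℂ)
    (h : ∀ m, F (m, 1) = emb 0 (f m)) (v : ℤ →₀ ℂ) :
    Finsupp.linearCombination ℂ F (emb 0 v) = emb 0 (Finsupp.linearCombination ℂ f v) := by
  rw [cB5_emb v, Finsupp.linearCombination_mapDomain]
  have h2 : emb 0 (Finsupp.linearCombination ℂ f v) =
      Finsupp.lmapDomain ℂ ℂ (fun m : ℤ => (m, (1 : Fin 2))) (Finsupp.linearCombination ℂ f v) := by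
    rw [cB5_emb]; rfl
  rw [h2, Finsupp.apply_linearCombination]
  congr 1
  congr 1
  funext m
  change F (m, 1) = Finsupp.lmapDomain ℂ ℂ (fun m : ℤ => (m, (1 : Fin 2))) (f m)
  rw [h m, cB5_emb]
  rfl

theorem cB5_lie (X X' : LieAlg GRd)
    (hb1 : b1 X'.1 = b1 X.1 - (((b1 X.1).trace) / 2) • (1 : Mat2)) (v : ℤ →₀ ℂ) :
    lieAct MU X' (emb 0 v) = emb 0 (lieAct M0 X v) := by
  unfold lieAct
  have htr : (b1 X'.1).trace = 0 := by
    rw [hb1, Matrix.trace_sub, Matrix.trace_smul, Matrix.trace_one]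
    simp
  have hal : (al (b1 X'.1)).im = (al (b1 X.1)).im := by
    rw [hb1]; simp [al]
  have hbe : be (b1 X'.1) = be (b1 X.1) := by
    rw [hb1]
    apply Complex.ext <;> simp [be]
  change Finsupp.linearCombination ℂ _ (emb 0 v) = emb 0 (Finsupp.linearCombination ℂ _ v)
  apply cB5_lc
  intro m
  have hv : vfm (b1 X'.1) m = vfm (b1 X.1) m := by
    unfold vfm
    rw [hal, hbe]
  rw [cB5_emb, ← hv]
  simp [htr]

theorem cB5_kap (k : maxCompact rho) (v : ℤ →₀ ℂ) :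
    kap MU k (emb 0 v) = emb 0 (kap M0 k v) := by
  change Finsupp.linearCombination ℂ _ (emb 0 v) = emb 0 (Finsupp.linearCombination ℂ _ v)
  apply cB5_lc
  intro m
  rw [cB5_emb, ee, ee, Finsupp.smul_single, Finsupp.smul_single, Finsupp.mapDomain_single]
  rfl

theorem cB5_emb_add (u v : ℤ →₀ ℂ) : emb 0 (u + v) = emb 0 u + emb 0 v := by
  rw [cB5_emb, cB5_emb, cB5_emb, Finsupp.mapDomain_add]

theorem cB5_emb_smul (c : ℂ) (v : ℤ →₀ ℂ) : emb 0 (c • v) = c • emb 0 v := by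
  rw [cB5_emb, cB5_emb, Finsupp.mapDomain_smul]

/-- TARGET -/
theorem c_c5 (h1 : S_blk) (h2 : S_AA) (h3 : S_K) (h4 : S_PB) (h5 : S_base) (h6 : S_tay) (h7 : S_fam)
    (h8 : S_kfin) (h9 : S_wk) (h10 : S_good0) (h11 : S_goodU) : S_c5 := by
  intro a hU h0 Q hQ
  obtain ⟨E, _, _, hE, ι, π, hG, hQι, C₀, hC₀, hπ⟩ := id hQ
  have hw := h9 a
  have hwpos : ∀ g, 0 < wk a g := hw.1
  -- the family
  let F : (ℤ →₀ ℂ) → Gd → E := fun v g => π (cB5_r g) (ι (emb 0 v))
  have hb : ∀ v g, ‖F v g‖ ≤ (C₀ * Q (emb 0 v)) * wk a g := by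
    intro v g
    have e1 : ‖F v g‖ ≤ ‖π (cB5_r g)‖ * ‖ι (emb 0 v)‖ := (π (cB5_r g)).le_opNorm _
    have e2 : ‖π (cB5_r g)‖ ≤ C₀ * wk a g :=
      (hπ _).trans (mul_le_mul_of_nonneg_left (cB5_wk_r h2.1 a g) hC₀.le)
    calc ‖F v g‖ ≤ ‖π (cB5_r g)‖ * ‖ι (emb 0 v)‖ := e1
      _ ≤ (C₀ * wk a g) * ‖ι (emb 0 v)‖ := mul_le_mul_of_nonneg_right e2 (norm_nonneg _)
      _ = (C₀ * Q (emb 0 v)) * wk a g := by rw [hQι]; ring
  have hfam : IsFam (M0.toHC h0) (wk a) (fun _ : Unit => E) (fun _ => F) := by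
    refine ⟨?_, ?_, ?_, ?_, ?_, ?_⟩
    · intro _ u v g
      simp only [F, cB5_emb_add, map_add]
    · intro _ c v g
      simp only [F, cB5_emb_smul, map_smul]
    · intro _ X γ hγ v g
      obtain ⟨X', hX1, hX2⟩ := h1.1 (b1 X.1 - (((b1 X.1).trace) / 2) • (1 : Mat2)) (b2 X.1)
      have hγ' := cB5_r_oneParam h1 X X' γ hγ hX1 hX2
      have hd := hG.intertwines_lie X' _ hγ' (emb 0 v)
      have hd2 := ((π (cB5_r g)).restrictScalars ℝ).hasFDerivAt.comp_hasDerivAt (0 : ℝ) hd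
      have he : (MU.toHC hU).a X' (emb 0 v) = emb 0 ((M0.toHC h0).a X v) := cB5_lie X X' hX1 v
      rw [he] at hd2
      change HasDerivAt _ (π (cB5_r g) (ι (emb 0 ((M0.toHC h0).a X v)))) (0 : ℝ) at hd2
      have hf : (fun t : ℝ => F v (g * γ t)) =
          (⇑((π (cB5_r g)).restrictScalars ℝ) ∘ fun t : ℝ => π (cB5_r (γ t)) (ι (emb 0 v))) := by
        funext t
        simp only [F, cB5_r_mul, map_mul, Function.comp]
        rfl
      rw [hf]
      exact hd2
    · intro _ k v g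
      have hk : cB5_r (k : Gd) = k.1 := cB5_r_of_xx _ (cB5_xx_K h3 k)
      have he : (MU.toHC hU).κ k (emb 0 v) = emb 0 ((M0.toHC h0).κ k v) := cB5_kap k v
      change π (cB5_r (g * k.1)) (ι (emb 0 v)) = π (cB5_r g) (ι (emb 0 ((M0.toHC h0).κ k v)))
      rw [cB5_r_mul, hk, map_mul, ← he, ← hG.intertwines_K]
      rfl
    · intro v
      exact ⟨C₀ * Q (emb 0 v), fun _ g => hb v g⟩
    · intro v hv
      have := hv () 1
      change π (cB5_r 1) (ι (emb 0 v)) = 0 at this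
      rw [cB5_r_of_xx _ cB5_xx_one, map_one] at this
      have h0' : ι (emb 0 v) = ι 0 := by rw [map_zero]; exact this
      exact cB5_emb_inj v (hG.injective h0')
  have hbd : ∀ v, BddAbove (Set.range fun x : Unit × Gd => ‖F v x.2‖ / wk a x.2) := by
    intro v
    refine ⟨C₀ * Q (emb 0 v), ?_⟩
    rintro _ ⟨x, rfl⟩
    exact (div_le_iff₀ (hwpos _)).2 (hb v x.2)
  have hle : ∀ v, famNorm (wk a) (fun _ : Unit => E) (fun _ => F) v ≤ C₀ * Q (emb 0 v) := by
    intro v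
    exact ciSup_le fun x => (div_le_iff₀ (hwpos _)).2 (hb v x.2)
  have hge : ∀ v g, ‖F v g‖ / wk a g ≤ famNorm (wk a) (fun _ : Unit => E) (fun _ => F) v := by
    intro v g
    exact le_ciSup (hbd v) ((), g)
  have hsn : IsSN (famNorm (wk a) (fun _ : Unit => E) (fun _ => F)) := by
    refine ⟨?_, ?_, ?_⟩
    · intro v
      exact (div_nonneg (norm_nonneg _) (hwpos 1).le).trans (hge v 1)
    · intro u v
      refine ciSup_le fun x => ?_
      have e : F (u + v) x.2 = F u x.2 + F v x.2 := hfam.add () u v x.2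
      calc ‖F (u + v) x.2‖ / wk a x.2 ≤ (‖F u x.2‖ + ‖F v x.2‖) / wk a x.2 := by
            rw [e]; exact div_le_div_of_nonneg_right (norm_add_le _ _) (hwpos _).le
        _ = ‖F u x.2‖ / wk a x.2 + ‖F v x.2‖ / wk a x.2 := add_div _ _ _
        _ ≤ _ := add_le_add (hge u x.2) (hge v x.2)
    · intro c v
      unfold famNorm
      rw [Real.mul_iSup_of_nonneg (norm_nonneg c)]
      congr 1
      funext x
      have e : F (c • v) x.2 = c • F v x.2 := hfam.smul () c v x.2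
      change ‖F (c • v) x.2‖ / wk a x.2 = _
      rw [e, norm_smul, mul_div_assoc]
  have hPB : PB sz0 (famNorm (wk a) (fun _ : Unit => E) (fun _ => F)) := by
    obtain ⟨hUw, hUb⟩ := h5.2.1
    obtain ⟨hU1, hU2⟩ := hUb hU
    have hUn : IsNormIn (MU.toHC hU) (fun g => 1 + |xx g|) pU := by
      obtain ⟨E', i1, i2, i3, ι', π', g1, g2, g3⟩ := hU1
      exact ⟨E', i1, i2, i3, ι', π', g1, g2, 1, one_pos, fun g => by rw [one_mul]; exact g3 g⟩
    obtain ⟨C, N, hCN⟩ := h4 _ MU hU sz1 h11.2 _ (wk a) hUw hw pU Q hUn hU2 hQ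
    refine ⟨C₀ * C, N, fun m => ?_⟩
    have e : emb 0 (ee m) = ee (m, (1 : Fin 2)) := by
      rw [cB5_emb, ee, Finsupp.mapDomain_single]
    calc famNorm (wk a) (fun _ : Unit => E) (fun _ => F) (ee m) ≤ C₀ * Q (emb 0 (ee m)) := hle _
      _ ≤ C₀ * (C * (1 + (sz1 (m, (1 : Fin 2)) : ℝ)) ^ N) := by
          rw [e]; exact mul_le_mul_of_nonneg_left (hCN _) hC₀.le
      _ = C₀ * C * (1 + (sz0 m : ℝ)) ^ N := by rw [mul_assoc]; rfl
  have htay := h6 ℤ M0 h0 sz0 h10.2 _ hsn hPB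
  have : ∀ _ : Unit, CompleteSpace E := fun _ => hE
  have hN1 := h7 (ℤ →₀ ℂ) (M0.toHC h0) (h8 ℤ M0 h0) (wk a) hw Unit (fun _ => E) (fun _ => F) hfam htay
  refine ⟨famNorm (wk a) (fun _ : Unit => E) (fun _ => F), ?_, wk a 1, ?_⟩
  · obtain ⟨E', i1, i2, i3, ι', π', g1, g2, g3⟩ := hN1
    exact ⟨E', i1, i2, i3, ι', π', g1, g2, 1, one_pos, fun g => by rw [one_mul]; exact g3 g⟩
  · intro v
    have e : ‖F v 1‖ = Q (emb 0 v) := by
      change ‖π (cB5_r 1) (ι (emb 0 v))‖ = _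
      rw [cB5_r_of_xx _ cB5_xx_one, map_one, hQι]
      rfl
    have := hge v 1
    rw [div_le_iff₀ (hwpos 1), e] at this
    rw [mul_comm]
    exact this

end Pool.Agent.H913.LG
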