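import Pool.Agent.H913.LG.Stmts2

/-! The lower bound by the smallest norm of functions. -/

open Matrix NormedSpace
open scoped Matrix ComplexConjugate

namespace Pool.Agent.H913.LG

open Pool.Agent.H913.SGP Pool.Agent.H913.LGP

theorem cB6_al_smul (c : ℝ) (M : Mat2) : al (c • M) = (c : ℂ) * al M := by
  apply Complex.ext <;> simp [al] <;> ring

theorem cB6_be_smul (c : ℝ) (M : Mat2) : be (c • M) = (c : ℂ) * be M := by
  apply Complex.ext <;> simp [be] <;> ring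

theorem cB6_mob_zero (M : Mat2) : mob M 0 = be M / conj (al M) := by
  simp [mob]

theorem cB6_mobI_one : mobI 1 0 = 0 := by
  have h1 : mt (1 : Gp)⁻¹ = 1 := by simp [mt]
  have h2 : be (1 : Mat2) = 0 := by apply Complex.ext <;> simp [be]
  unfold mobI
  rw [h1, cB6_mob_zero, h2, zero_div]

theorem cB6_pw_zero (m : ℤ) (hm : m ≠ 0) : pw m 0 = 0 := by
  unfold pw
  split_ifs with h
  · rw [zero_pow]
    omega
  · rw [map_zero, zero_pow]
    omega

theorem cB6_pw_zero' : pw 0 0 = 1 := by simp [pw]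

theorem cB6_xx_one : xx 1 = 0 := by
  have h1 : mt (1 : Gd).1 = 1 := by simp [mt]
  unfold xx
  rw [h1, Matrix.det_one, Real.log_one]

/-- the value of the family at `1` -/
theorem cB6_FU_one (y : ℤ × Fin 2 →₀ ℂ) : FU 0 y 1 = fun j => y (0, j) := by
  funext j
  unfold FU
  have h1 : mobI (1 : Gd).1 0 = 0 := cB6_mobI_one
  rw [h1, cB6_xx_one]
  rw [Finsupp.sum]
  rw [Finset.sum_eq_single (0, j)]
  · rw [cB6_pw_zero']
    fin_cases j <;> simp
  · rintro ⟨m, k⟩ _ hne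
    by_cases hm : m = 0
    · subst hm
      have hk : k ≠ j := fun h => hne (by rw [h])
      fin_cases j <;> fin_cases k <;> simp_all
    · rw [cB6_pw_zero m hm]
      simp
  · intro h
    rw [Finsupp.notMem_support_iff] at h
    simp [h]

/-- central elements -/
theorem cB6_central (s : ℝ) (hs : 0 < s) : ∃ z : Gp, mt z = s • (1 : Mat2) ∧ mt z⁻¹ = s⁻¹ • (1 : Mat2) := by
  have hd : (s • (1 : Mat2)).det = s ^ 2 := by
    rw [Matrix.det_smul, Matrix.det_one]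
    simp
  have hd' : (s • (1 : Mat2)).det ≠ 0 := by
    rw [hd]
    positivity
  let u : GL (Fin 2) ℝ := Matrix.GeneralLinearGroup.mkOfDetNeZero (s • (1 : Mat2)) hd'
  have hu : (u : Mat2) = s • (1 : Mat2) := rfl
  have hpos : u ∈ Matrix.GLPos (Fin 2) ℝ := by
    rw [Matrix.mem_glpos]
    change 0 < (u : Mat2).det
    rw [hu, hd]
    positivity
  refine ⟨⟨u, hpos⟩, hu, ?_⟩
  have h1 : mt (⟨u, hpos⟩ : Gp)⁻¹ * mt (⟨u, hpos⟩ : Gp) = 1 := by
    change ((u⁻¹ : GL (Fin 2) ℝ) : Mat2) * (u : Mat2) = 1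
    exact Units.inv_mul u
  have h2 : mt (⟨u, hpos⟩ : Gp) = s • (1 : Mat2) := hu
  rw [h2, Matrix.mul_smul, Matrix.mul_one] at h1
  have h3 : mt (⟨u, hpos⟩ : Gp)⁻¹ = s⁻¹ • (s • mt (⟨u, hpos⟩ : Gp)⁻¹) := by
    rw [smul_smul, inv_mul_cancel₀ hs.ne', one_smul]
  rw [h3, h1]

theorem cB6_mt_mul (g h : Gp) : mt (g * h) = mt g * mt h := rfl

theorem cB6_det_pos (g : Gp) : 0 < (mt g).det := by
  have := g.2
  rw [Matrix.mem_glpos] at this
  exact this

/-- translate an element by a central element to make the logarithm of the determinant zero -/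
theorem cB6_shift (h2 : S_AA) (g : Gd) : ∃ g₁ : Gd, xx g₁ = 0 ∧ mobI g₁.1 0 = mobI g.1 0 ∧
    AA g₁.1 = AA g.1 := by
  have hd := cB6_det_pos g.1
  have hs : 0 < (Real.sqrt (mt g.1).det)⁻¹ := inv_pos.2 (Real.sqrt_pos.2 hd)
  obtain ⟨z, hz, hz'⟩ := cB6_central _ hs
  have hm : mobI (g.1 * z) 0 = mobI g.1 0 := by
    unfold mobI
    have h1 : (g.1 * z)⁻¹ = z⁻¹ * (g.1)⁻¹ := mul_inv_rev _ _
    rw [h1, cB6_mt_mul, hz', Matrix.smul_mul, Matrix.one_mul, cB6_mob_zero, cB6_mob_zero,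
      cB6_al_smul, cB6_be_smul, map_mul, Complex.conj_ofReal]
    rw [mul_div_mul_left]
    rw [Complex.ofReal_ne_zero]
    exact inv_ne_zero hs.ne'
  refine ⟨(g.1 * z, g.2), ?_, hm, ?_⟩
  · unfold xx
    have h1 : mt (g.1 * z, g.2).1 = (Real.sqrt (mt g.1).det)⁻¹ • mt g.1 := by
      change mt (g.1 * z) = _
      rw [cB6_mt_mul, hz, Matrix.mul_smul, Matrix.mul_one]
    rw [h1, Matrix.det_smul, Fintype.card_fin, inv_pow, Real.sq_sqrt hd.le, inv_mul_cancel₀ hd.ne',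
      Real.log_one]
  · have hA := h2.2.2.2.2.2.1
    rw [(hA g.1).1]
    change AA (g.1 * z) = _
    rw [(hA (g.1 * z)).1, hm]

/-- the component `0` of the family -/
theorem cB6_comp (u v : ℤ →₀ ℂ) (g : Gd) (hg : xx g = 0) : FU 0 (emb u v) g 0 = F0 0 u g := by
  unfold FU F0 emb
  rw [hg]
  rw [Finsupp.sum_add_index']
  · rw [Finsupp.sum_mapDomain_index]
    · rw [Finsupp.sum_mapDomain_index]
      · simp
      · intro i
        simp
      · intro i a b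
        ring
    · intro i
      simp
    · intro i a b
      ring
  · intro i
    simp
  · intro i a b
    ring

/-- the sum of the absolute values of the coordinates -/
theorem cB6_isSN : IsSN (fun v : ℤ × Fin 2 →₀ ℂ => v.sum fun _ c => ‖c‖) := by
  refine ⟨fun v => ?_, fun u v => ?_, fun c v => ?_⟩
  · exact Finset.sum_nonneg fun i _ => norm_nonneg _
  · classical
    have e1 : ∀ w : ℤ × Fin 2 →₀ ℂ, w.support ⊆ u.support ∪ v.support →
        (w.sum fun _ c => ‖c‖) = ∑ i ∈ u.support ∪ v.support, ‖w i‖ := by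
      intro w hw
      rw [Finsupp.sum]
      refine Finset.sum_subset hw ?_
      intro i _ hi
      rw [Finsupp.notMem_support_iff] at hi
      rw [hi, norm_zero]
    rw [e1 u Finset.subset_union_left, e1 v Finset.subset_union_right,
      e1 (u + v) Finsupp.support_add, ← Finset.sum_add_distrib]
    refine Finset.sum_le_sum fun i _ => ?_
    rw [Finsupp.add_apply]
    exact norm_add_le _ _
  · change ((c • v).sum fun _ c => ‖c‖) = ‖c‖ * (v.sum fun _ c => ‖c‖)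
    by_cases hc : c = 0
    · subst hc
      simp
    · rw [Finsupp.sum_smul_index' (by intro i; exact norm_zero), Finsupp.sum, Finsupp.sum,
        Finset.mul_sum]
      refine Finset.sum_congr rfl fun i _ => ?_
      rw [smul_eq_mul, norm_mul]

theorem cB6_PB : PB sz1 (fun v : ℤ × Fin 2 →₀ ℂ => v.sum fun _ c => ‖c‖) := by
  refine ⟨1, 0, fun i => ?_⟩
  simp

/-- TARGET -/
theorem c_c6 (h2 : S_AA) (h3 : S_PB) (h4 : S_coef) (h5 : S_id) (h6 : S_preU) (h7 : S_bd)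
    (h8 : S_base) (h9 : S_wk) (h10 : S_goodU) (h11 : S_tay) : S_c6 := by
  intro a hU Q hQ
  have hsz : MU.Size sz1 := h10.2
  obtain ⟨hwU, hpU⟩ := h8.2.1
  have hpUn : IsNormIn (MU.toHC hU) (fun g : Gd => 1 + |xx g|) pU := by
    obtain ⟨E, i1, i2, i3, ι, π, hg, hp, hb⟩ := (hpU hU).1
    exact ⟨E, i1, i2, i3, ι, π, hg, hp, 1, one_pos, fun g => by rw [one_mul]; exact hb g⟩
  have hPBQ : PB sz1 Q := h3 _ MU hU sz1 hsz _ _ hwU (h9 a) pU Q hpUn (hpU hU).2 hQ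
  have hc0 := h4 _ MU hU (wk a) (h9 a) Q hQ (0, 0)
  have hc1 := h4 _ MU hU (wk a) (h9 a) Q hQ (0, 1)
  obtain ⟨E, i1, i2, i3, ι, π, hg, hp, C₀, hC₀, hπ⟩ := hQ
  have hQn : ∀ v, 0 ≤ Q v := fun v => by rw [hp]; exact norm_nonneg _
  obtain ⟨C1, hC1⟩ := hc0
  obtain ⟨C2, hC2⟩ := hc1
  -- the linear map at the identity
  let L₀ : (ℤ × Fin 2 →₀ ℂ) →ₗ[ℂ] (Fin 2 → ℂ) := LinearMap.pi fun j => Finsupp.lapply ((0 : ℤ), j)
  have hL₀ : ∀ y, L₀ y = FU 0 y 1 := by
    intro y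
    rw [cB6_FU_one]
    rfl
  have hb : ∀ y, ‖L₀ y‖ ≤ (|C1| + |C2|) * ‖ι y‖ := by
    intro y
    rw [← hp]
    have hn : 0 ≤ (|C1| + |C2|) * Q y := mul_nonneg (by positivity) (hQn y)
    rw [pi_norm_le_iff_of_nonneg hn]
    intro j
    have e : L₀ y j = y (0, j) := rfl
    rw [e]
    have f1 : ‖y (0, 0)‖ ≤ (|C1| + |C2|) * Q y := by
      refine (hC1 y).trans (mul_le_mul_of_nonneg_right ?_ (hQn y))
      have := le_abs_self C1
      have := abs_nonneg C2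
      linarith
    have f2 : ‖y (0, 1)‖ ≤ (|C1| + |C2|) * Q y := by
      refine (hC2 y).trans (mul_le_mul_of_nonneg_right ?_ (hQn y))
      have := le_abs_self C2
      have := abs_nonneg C1
      linarith
    fin_cases j
    · exact f1
    · exact f2
  let L : E →L[ℂ] (Fin 2 → ℂ) := L₀.extendOfNorm ι
  have hL : ∀ y, L (ι y) = L₀ y := fun y => LinearMap.extendOfNorm_eq hg.dense ⟨_, hb⟩ y
  -- the weight
  have hw : IsWeight (fun g => max C₀ 1 * wk a g) := by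
    obtain ⟨w1, w2, w3⟩ := h9 a
    have hm : 0 < max C₀ 1 := lt_of_lt_of_le one_pos (le_max_right _ _)
    refine ⟨fun g => mul_pos hm (w1 g), fun g => ?_, fun g h => ?_⟩
    · obtain ⟨U, hU, C, hC⟩ := w2 g
      exact ⟨U, hU, max C₀ 1 * C, fun x hx => mul_le_mul_of_nonneg_left (hC x hx) hm.le⟩
    · have e1 : (1 : ℝ) ≤ max C₀ 1 := le_max_right _ _
      have e2 := w3 g h
      have e3 := w1 g
      have e4 := w1 h
      calc max C₀ 1 * wk a (g * h) ≤ max C₀ 1 * (wk a g * wk a h) :=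
            mul_le_mul_of_nonneg_left e2 hm.le
        _ ≤ max C₀ 1 * (max C₀ 1 * (wk a g * wk a h)) := by
            refine mul_le_mul_of_nonneg_left ?_ hm.le
            have : 0 ≤ wk a g * wk a h := (mul_pos e3 e4).le
            nlinarith
        _ = max C₀ 1 * wk a g * (max C₀ 1 * wk a h) := by ring
  have hπ' : ∀ g, ‖π g‖ ≤ max C₀ 1 * wk a g := fun g =>
    (hπ g).trans (mul_le_mul_of_nonneg_right (le_max_left _ _) ((h9 a).1 g).le)
  have hSN : IsSN (fun v => ‖ι v‖) := by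
    refine ⟨fun v => norm_nonneg _, fun u v => ?_, fun c v => ?_⟩
    · change ‖ι (u + v)‖ ≤ ‖ι u‖ + ‖ι v‖
      rw [map_add]
      exact norm_add_le _ _
    · change ‖ι (c • v)‖ = ‖c‖ * ‖ι v‖
      rw [map_smul, norm_smul]
  have hPB : PB sz1 (fun v => ‖ι v‖) := by
    obtain ⟨C, N, hCN⟩ := hPBQ
    exact ⟨C, N, fun i => (hp (ee i)).symm.le.trans (hCN i)⟩
  have hT1 : Taylor (MU.toHC hU) (fun v => ‖ι v‖) := h11 _ MU hU sz1 hsz _ hSN hPB
  have hT2 : Taylor (MU.toHC hU) (fun v : ℤ × Fin 2 →₀ ℂ => v.sum fun _ c => ‖c‖) :=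
    h11 _ MU hU sz1 hsz _ cB6_isSN cB6_PB
  have h0 : ‖(0 : ℂ)‖ ≤ 1 := by simp
  have hpre := h6 hU 0 h0
  have hkey : ∀ y g, L (π g (ι y)) = FU 0 y g :=
    h5 _ (MU.toHC hU) E ι π _ hw hπ' hg.intertwines_lie hT1 (Fin 2 → ℂ) L (FU 0)
      (fun v => v.sum fun _ c => ‖c‖) (fun g => 1 + |xx g|) hwU cB6_isSN.nonneg hT2 hpre.deriv
      (fun v g => h7.2.1 0 v g h0) (fun v => by rw [hL, hL₀])
  refine ⟨‖L‖ * max C₀ 1, fun u v => ?_⟩
  unfold famNorm
  refine ciSup_le fun x => ?_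
  rw [div_le_iff₀ ((h9 a).1 x.2)]
  obtain ⟨g₁, hx1, hx2, hx3⟩ := cB6_shift h2 x.2
  have e1 : F0 0 u x.2 = F0 0 u g₁ := by
    unfold F0
    rw [hx2]
  have e2 : ‖F0 0 u g₁‖ ≤ ‖FU 0 (emb u v) g₁‖ := by
    rw [← cB6_comp u v g₁ hx1]
    exact norm_le_pi_norm _ 0
  have e3 : wk a g₁ ≤ wk a x.2 := by
    unfold wk
    rw [hx3, hx1, abs_zero, add_zero]
    refine max_le_max le_rfl ?_
    have := abs_nonneg (xx x.2)
    linarith
  have hm : 0 < max C₀ 1 := lt_of_lt_of_le one_pos (le_max_right _ _)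
  calc ‖F0 0 u x.2‖ = ‖F0 0 u g₁‖ := by rw [e1]
    _ ≤ ‖FU 0 (emb u v) g₁‖ := e2
    _ = ‖L (π g₁ (ι (emb u v)))‖ := by rw [hkey]
    _ ≤ ‖L‖ * (‖π g₁‖ * ‖ι (emb u v)‖) := by
        refine (L.le_opNorm _).trans ?_
        exact mul_le_mul_of_nonneg_left ((π g₁).le_opNorm _) (norm_nonneg _)
    _ ≤ ‖L‖ * (max C₀ 1 * wk a x.2 * ‖ι (emb u v)‖) := by
        refine mul_le_mul_of_nonneg_left ?_ (norm_nonneg _)
        refine mul_le_mul_of_nonneg_right ?_ (norm_nonneg _)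
        exact (hπ' g₁).trans (mul_le_mul_of_nonneg_left e3 hm.le)
    _ = ‖L‖ * max C₀ 1 * Q (emb u v) * wk a x.2 := by
        rw [hp]
        ring

end Pool.Agent.H913.LG
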