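import Pool.Agent.H913.LG.Stmts2

/-! The final inequality for submodules. -/

open Matrix NormedSpace
open scoped Matrix ComplexConjugate

namespace Pool.Agent.H913.LG

open Pool.Agent.H913.SGP Pool.Agent.H913.LGP

section General

variable {V : Type} [AddCommGroup V] [Module ℂ V] {Mo : HCModule GRd rho V}

theorem cFin_in1 {w : Gd → ℝ} {p : V → ℝ} (h : IsNormIn1 Mo w p) : IsNormIn Mo w p := by
  obtain ⟨E, i1, i2, i3, ι, π, hg, hp, hw⟩ := h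
  exact ⟨E, i1, i2, i3, ι, π, hg, hp, 1, one_pos, fun g => by rw [one_mul]; exact hw g⟩

theorem cFin_mono {w w' : Gd → ℝ} {p : V → ℝ} (hw : ∀ g, w g ≤ w' g) (h : IsNormIn Mo w p) :
    IsNormIn Mo w' p := by
  obtain ⟨E, i1, i2, i3, ι, π, hg, hp, C, hC, hb⟩ := h
  exact ⟨E, i1, i2, i3, ι, π, hg, hp, C, hC,
    fun g => (hb g).trans (mul_le_mul_of_nonneg_left (hw g) hC.le)⟩

theorem cFin_nonneg {w : Gd → ℝ} {p : V → ℝ} (h : IsNormIn Mo w p) (v : V) : 0 ≤ p v := by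
  obtain ⟨E, i1, i2, i3, ι, π, hg, hp, -⟩ := h
  rw [hp]
  exact norm_nonneg _

theorem cFin_add {w : Gd → ℝ} {p : V → ℝ} (h : IsNormIn Mo w p) (u v : V) :
    p (u + v) ≤ p u + p v := by
  obtain ⟨E, i1, i2, i3, ι, π, hg, hp, -⟩ := h
  rw [hp, hp, hp, map_add]
  exact norm_add_le _ _

theorem cFin_smul {w : Gd → ℝ} {p : V → ℝ} (h : IsNormIn Mo w p) (c : ℂ) (v : V) :
    p (c • v) = ‖c‖ * p v := by
  obtain ⟨E, i1, i2, i3, ι, π, hg, hp, -⟩ := h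
  rw [hp, hp, map_smul]
  exact norm_smul _ _

theorem cFin_pos {w : Gd → ℝ} {p : V → ℝ} (h : IsNormIn Mo w p) {v : V} (hv : v ≠ 0) :
    0 < p v := by
  obtain ⟨E, i1, i2, i3, ι, π, hg, hp, -⟩ := h
  rw [hp]
  exact norm_pos_iff.2 fun h0 => hv (hg.injective (by rw [h0, map_zero]))

end General

/-- comparison of functions -/
def cFinLE {α : Type} (f g : α → ℝ) : Prop := ∃ C : ℝ, 0 ≤ C ∧ ∀ x, f x ≤ C * g x

theorem cFin_le_of {α : Type} {f g : α → ℝ} (hg : ∀ x, 0 ≤ g x) (h : ∃ C : ℝ, ∀ x, f x ≤ C * g x) :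
    cFinLE f g := by
  obtain ⟨C, hC⟩ := h
  exact ⟨|C|, abs_nonneg _, fun x => (hC x).trans
    (mul_le_mul_of_nonneg_right (le_abs_self C) (hg x))⟩

theorem cFin_le_trans {α : Type} {f g k : α → ℝ} (h1 : cFinLE f g) (h2 : cFinLE g k) :
    cFinLE f k := by
  obtain ⟨C, hC, h1⟩ := h1
  obtain ⟨D, hD, h2⟩ := h2
  refine ⟨C * D, mul_nonneg hC hD, fun x => (h1 x).trans ?_⟩
  rw [mul_assoc]
  exact mul_le_mul_of_nonneg_left (h2 x) hC

theorem cFin_le_comp {α β : Type} {f g : α → ℝ} (φ : β → α) (h : cFinLE f g) :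
    cFinLE (fun x => f (φ x)) (fun x => g (φ x)) := by
  obtain ⟨C, hC, h⟩ := h
  exact ⟨C, hC, fun x => h (φ x)⟩

theorem cFin_dg_ee {I : Type} (c : I → ℂ) (i : I) : dg c (ee i) = c i • ee i := by
  simp [dg, ee]

theorem cFin_dg_mul {I : Type} (c d : I → ℂ) (u : I →₀ ℂ) :
    dg c (dg d u) = dg (fun i => c i * d i) u := by
  have h : (dg c) ∘ₗ (dg d) = dg (fun i => c i * d i) := by
    refine Finsupp.lhom_ext' fun i => LinearMap.ext_ring ?_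
    have e1 : dg d (ee i) = d i • ee i := cFin_dg_ee d i
    have e2 : dg c (ee i) = c i • ee i := cFin_dg_ee c i
    have e3 : dg (fun i => c i * d i) (ee i) = (c i * d i) • ee i := cFin_dg_ee _ i
    simp only [LinearMap.comp_apply, Finsupp.lsingle_apply]
    rw [e1, map_smul, e2, e3, smul_smul, mul_comm]
  exact LinearMap.congr_fun h u

theorem cFin_dg_map {I J : Type} (f : I → J) (c : J → ℂ) (u : I →₀ ℂ) :
    dg c (u.mapDomain f) = (dg (fun i => c (f i)) u).mapDomain f := by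
  have h : (dg c) ∘ₗ (Finsupp.lmapDomain ℂ ℂ f) =
      (Finsupp.lmapDomain ℂ ℂ f) ∘ₗ (dg (fun i => c (f i))) := by
    refine Finsupp.lhom_ext' fun i => LinearMap.ext_ring ?_
    have e2 : dg c (ee (f i)) = c (f i) • ee (f i) := cFin_dg_ee c (f i)
    have e3 : dg (fun i => c (f i)) (ee i) = c (f i) • ee i := cFin_dg_ee _ i
    simp only [LinearMap.comp_apply, Finsupp.lsingle_apply]
    rw [e3, map_smul, Finsupp.lmapDomain_apply, Finsupp.mapDomain_single, e2]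
  exact LinearMap.congr_fun h u

/-- the powers of `1 + Δ` on `M0` -/
noncomputable def cFinT (P s : ℝ) : Module.End ℂ (ℤ →₀ ℂ) :=
  dg fun m : ℤ => (((1 + 4 * P * (m : ℝ) ^ 2) ^ (s / 2) : ℝ) : ℂ)

/-- the powers of `1 + Δ` on `MU` -/
noncomputable def cFinTU (P s : ℝ) : Module.End ℂ (ℤ × Fin 2 →₀ ℂ) :=
  dg fun i : ℤ × Fin 2 => (((1 + 4 * P * (i.1 : ℝ) ^ 2) ^ (s / 2) : ℝ) : ℂ)

theorem cFin_lam {P : ℝ} (hP : 0 < P) (m : ℤ) : 1 ≤ 1 + 4 * P * (m : ℝ) ^ 2 := by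
  have : 0 ≤ 4 * P * (m : ℝ) ^ 2 := by positivity
  linarith

theorem cFin_T_T {P : ℝ} (hP : 0 < P) (s t : ℝ) (u : ℤ →₀ ℂ) :
    cFinT P s (cFinT P t u) = cFinT P (s + t) u := by
  unfold cFinT
  rw [cFin_dg_mul]
  congr 2
  funext m
  rw [← Complex.ofReal_mul, ← Real.rpow_add (lt_of_lt_of_le one_pos (cFin_lam hP m)), add_div]

theorem cFin_T_zero (P : ℝ) (u : ℤ →₀ ℂ) : cFinT P 0 u = u := by
  have h : cFinT P 0 = LinearMap.id := by
    refine Finsupp.lhom_ext' fun i => LinearMap.ext_ring ?_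
    have e1 : cFinT P 0 (ee i) = _ := cFin_dg_ee _ i
    simp only [LinearMap.comp_apply, Finsupp.lsingle_apply]
    rw [e1]
    simp
  rw [h]
  rfl

theorem cFin_TU_emb (P s : ℝ) (u v : ℤ →₀ ℂ) :
    cFinTU P s (emb u v) = emb (cFinT P s u) (cFinT P s v) := by
  unfold cFinTU emb cFinT
  rw [map_add, cFin_dg_map, cFin_dg_map]

theorem cFin_emb_add (u v u' v' : ℤ →₀ ℂ) : emb u v + emb u' v' = emb (u + u') (v + v') := by
  unfold emb
  rw [Finsupp.mapDomain_add, Finsupp.mapDomain_add]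
  abel

theorem cFin_emb_surj (x : ℤ × Fin 2 →₀ ℂ) : ∃ u v, x = emb u v := by
  induction x using Finsupp.induction_linear with
  | zero => exact ⟨0, 0, by simp [emb]⟩
  | add f g hf hg =>
    obtain ⟨u, v, rfl⟩ := hf
    obtain ⟨u', v', rfl⟩ := hg
    exact ⟨u + u', v + v', cFin_emb_add u v u' v'⟩
  | single i c =>
    obtain ⟨m, j⟩ := i
    fin_cases j
    · exact ⟨Finsupp.single m c, 0, by simp [emb]⟩
    · exact ⟨0, Finsupp.single m c, by simp [emb]⟩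

theorem cFin_eig0 {m : ℕ} (p q : Fin m → ℝ) (i : ℤ) :
    eig M0 p q i = 4 * (∑ l, p l ^ 2) * (i : ℝ) ^ 2 := by
  unfold eig
  rw [Finset.mul_sum, Finset.sum_mul]
  refine Finset.sum_congr rfl fun l _ => ?_
  simp only [M0]
  push_cast
  ring

theorem cFin_eigU {m : ℕ} (p q : Fin m → ℝ) (i : ℤ × Fin 2) :
    eig MU p q i = 4 * (∑ l, p l ^ 2) * (i.1 : ℝ) ^ 2 := by
  unfold eig
  rw [Finset.mul_sum, Finset.sum_mul]
  refine Finset.sum_congr rfl fun l _ => ?_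
  simp only [MU]
  push_cast
  ring

/-- TARGET -/
theorem c_c7 (h1 : S_unif) (h2 : S_basis) (h3 : S_pow) (h4 : S_AA) (h5 : S_base) (h6 : S_mins)
    (h7 : S_max) (h8 : S_R0) (h9 : S_N0) (h10 : S_c4) (h11 : S_c5) (h12 : S_c6) (h13 : S_wk)
    (h14 : S_good0) (h15 : S_goodU) : S_c7 := by
  intro h0 hU m b hb
  obtain ⟨p, q, hpq, hP, -⟩ := h2.2 m b hb
  set P : ℝ := ∑ l, p l ^ 2 with hPdef
  -- Sobolev powers
  have hpow0 : ∀ (s : ℝ) (T : Module.End ℂ (ℤ →₀ ℂ)),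
      IsSobolevPow (M0.toHC h0) b s T ↔ T = cFinT P s := by
    intro s T
    rw [(h3 ℤ M0 h0 m b p q hpq).2 s T]
    have e : (fun i : ℤ => (((1 + eig M0 p q i) ^ (s / 2) : ℝ) : ℂ)) =
        fun m : ℤ => (((1 + 4 * P * (m : ℝ) ^ 2) ^ (s / 2) : ℝ) : ℂ) := by
      funext i
      rw [cFin_eig0]
    rw [e]
    rfl
  have hpowU : ∀ (s : ℝ) (T : Module.End ℂ (ℤ × Fin 2 →₀ ℂ)),
      IsSobolevPow (MU.toHC hU) b s T ↔ T = cFinTU P s := by
    intro s T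
    rw [(h3 (ℤ × Fin 2) MU hU m b p q hpq).2 s T]
    have e : (fun i : ℤ × Fin 2 => (((1 + eig MU p q i) ^ (s / 2) : ℝ) : ℂ)) =
        fun i : ℤ × Fin 2 => (((1 + 4 * P * (i.1 : ℝ) ^ 2) ^ (s / 2) : ℝ) : ℂ) := by
      funext i
      rw [cFin_eigU]
    rw [e]
    rfl
  -- base norm of weight one
  have hp0 : IsNormIn (M0.toHC h0) (fun _ => 1) p0 := cFin_in1 (h5.1.2 h0).1
  have hpU : IsNormIn (MU.toHC hU) (fun g => 1 + |xx g|) pU := cFin_in1 (h5.2.1.2 hU).1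
  -- uniform gap for weight one
  obtain ⟨S₀, hS₀, H₀⟩ := h1 m b hb (fun _ => 1) h5.1.1
  obtain ⟨T₀, hT₀, H₀⟩ := H₀ (ℤ →₀ ℂ) (M0.toHC h0) ⟨p0, hp0⟩
  rw [hpow0] at hT₀
  subst hT₀
  obtain ⟨κ, hκ⟩ := exists_nat_gt (S₀ / 2)
  have hκ0 : (0 : ℝ) < κ := lt_of_le_of_lt (by positivity) hκ
  have hκ1 : 1 ≤ κ := by
    have : 0 < κ := by exact_mod_cast hκ0
    omega
  have hw1 : ∀ g, (1 : ℝ) ≤ wk (2 * κ + 1) g := fun g =>
    le_trans (by have := abs_nonneg (xx g); linarith) (le_max_right _ _)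
  have hwx : ∀ g, 1 + |xx g| ≤ wk (2 * κ + 1) g := fun g => le_max_right _ _
  have hwA : ∀ g : Gd, AA g.1 ^ (2 * κ + 1) ≤ wk (2 * κ + 1) g := fun g => le_max_left _ _
  have hwA' : ∀ g : Gd, AA g.1 ^ (2 * κ) ≤ wk (2 * κ + 1) g := fun g =>
    (pow_le_pow_right₀ (h4.1 g.1) (Nat.le_succ _)).trans (hwA g)
  have hw : IsWeight (wk (2 * κ + 1)) := h13 _
  have hp0w : IsNormIn (M0.toHC h0) (wk (2 * κ + 1)) p0 := cFin_mono hw1 hp0
  have hpUw : IsNormIn (MU.toHC hU) (wk (2 * κ + 1)) pU := cFin_mono hwx hpU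
  obtain ⟨S, hS, HS⟩ := h1 m b hb _ hw
  have hne0 : (gapSet (M0.toHC h0) b (wk (2 * κ + 1))).Nonempty := by
    obtain ⟨T, hT, HT⟩ := HS (ℤ →₀ ℂ) (M0.toHC h0) ⟨p0, hp0w⟩
    exact ⟨S, hS, T, hT, fun pmin pmax hmin hmax => HT pmin pmax hmin.1 hmax.1⟩
  have hneU : (gapSet (MU.toHC hU) b (wk (2 * κ + 1))).Nonempty := by
    obtain ⟨T, hT, HT⟩ := HS (ℤ × Fin 2 →₀ ℂ) (MU.toHC hU) ⟨pU, hpUw⟩
    exact ⟨S, hS, T, hT, fun pmin pmax hmin hmax => HT pmin pmax hmin.1 hmax.1⟩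
  have hmin := (h6 _ hw).1 h0 ⟨p0, hp0w⟩
  obtain ⟨pmax, hmax⟩ := h7 ℤ M0 h0 sz0 h14.2 (fun _ => 1) _ h5.1.1 hw p0 hp0 (h5.1.2 h0).2
    ⟨p0, hp0w⟩
  set pmin : (ℤ →₀ ℂ) → ℝ := famNorm (wk (2 * κ + 1)) (fun _ : Unit => ℂ) (fun _ => F0 0)
    with hpmin
  -- natural powers
  have hTκ : (dg fun m : ℤ => (((1 + 4 * P * (m : ℝ) ^ 2) ^ κ : ℝ) : ℂ)) = cFinT P (2 * κ) := by
    unfold cFinT
    congr 1
    funext m
    rw [mul_div_cancel_left₀ _ (two_ne_zero), Real.rpow_natCast]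
  -- weight one comparison
  have hW1 : ∀ N N' : (ℤ →₀ ℂ) → ℝ, IsNormIn (M0.toHC h0) (fun _ => 1) N →
      IsNormIn (M0.toHC h0) (fun _ => 1) N' → cFinLE N (fun v => N' (cFinT P S₀ v)) :=
    fun N N' hN hN' => cFin_le_of (fun v => cFin_nonneg hN' _) (H₀ N' N hN' hN)
  -- the main step
  have key : ∀ s ∈ gapSet (M0.toHC h0) b (wk (2 * κ + 1)),
      s - (2 * κ - S₀) ∈ gapSet (MU.toHC hU) b (wk (2 * κ + 1)) := by
    rintro s ⟨hs0, T, hT, hTT⟩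
    rw [hpow0] at hT
    subst hT
    have hgen : ∀ r : (ℤ →₀ ℂ) → ℝ, IsNormIn (M0.toHC h0) (wk (2 * κ + 1)) r →
        cFinLE r (fun v => pmin (cFinT P s v)) := fun r hr =>
      cFin_le_trans (cFin_le_of (fun v => cFin_nonneg hmax.1 v) (hmax.2 r hr))
        (cFin_le_of (fun v => cFin_nonneg hmin.1 _) (hTT pmin pmax hmin hmax))
    -- (1)
    have hA : cFinLE (fun u => p0 (cFinT P (2 * κ) u)) (fun v => pmin (cFinT P s v)) := by
      obtain ⟨r, hr, hC⟩ := h8 κ P hP h0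
      rw [hTκ] at hC
      have hrw : IsNormIn (M0.toHC h0) (wk (2 * κ + 1)) r := cFin_mono hwA' hr
      exact cFin_le_trans (cFin_le_of (fun v => cFin_nonneg hrw v) hC) (hgen r hrw)
    have hA' : cFinLE (fun u => p0 u) (fun v => pmin (cFinT P (s - 2 * κ) v)) := by
      have := cFin_le_comp (fun u => cFinT P (-(2 * κ)) u) hA
      simp only [cFin_T_T hP] at this
      rw [add_neg_cancel] at this
      simp only [cFin_T_zero] at this
      exact this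
    -- (2)
    have hB : cFinLE (fun u => pmin (cFinT P (2 * κ) u)) p0 := by
      have := h9 κ P hP (wk (2 * κ + 1)) hwA
      rw [hTκ] at this
      exact cFin_le_of (fun v => cFin_nonneg hp0 v) this
    have hB' : cFinLE (fun u => pmin (cFinT P s u)) (fun u => p0 (cFinT P (s - 2 * κ) u)) := by
      have := cFin_le_comp (fun u => cFinT P (s - 2 * κ) u) hB
      simp only [cFin_T_T hP] at this
      rw [show 2 * (κ : ℝ) + (s - 2 * κ) = s by ring] at this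
      exact this
    -- s is large
    have hs : 2 * (κ : ℝ) ≤ s := by
      by_contra hlt
      push Not at hlt
      obtain ⟨C, hC, hC'⟩ := cFin_le_trans hA hB'
      -- choose n large
      obtain ⟨n, hn⟩ := exists_nat_gt (C / (4 * P))
      have hn1 : C < 4 * P * n := by
        rw [div_lt_iff₀ (by positivity)] at hn
        linarith
      have hx := hC' (ee (((n : ℕ) : ℤ) + 1))
      have e1 : ∀ t : ℝ, p0 (cFinT P t (ee (((n : ℕ) : ℤ) + 1))) =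
          (1 + 4 * P * ((((n : ℕ) : ℤ) + 1 : ℤ) : ℝ) ^ 2) ^ (t / 2) *
            p0 (ee (((n : ℕ) : ℤ) + 1)) := by
        intro t
        have e : cFinT P t (ee (((n : ℕ) : ℤ) + 1)) = _ := cFin_dg_ee _ _
        rw [e, cFin_smul hp0, Complex.norm_real, Real.norm_eq_abs, abs_of_nonneg]
        exact Real.rpow_nonneg (le_trans zero_le_one (cFin_lam hP _)) _
      simp only [e1] at hx
      have hpos : 0 < p0 (ee (((n : ℕ) : ℤ) + 1)) :=
        cFin_pos hp0 (by simp [ee])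
      rw [← mul_assoc] at hx
      have hx2 := le_of_mul_le_mul_right hx hpos
      have hlam := cFin_lam hP (((n : ℕ) : ℤ) + 1)
      have hx3 : (1 + 4 * P * ((((n : ℕ) : ℤ) + 1 : ℤ) : ℝ) ^ 2) ^ ((s - 2 * (κ : ℝ)) / 2) ≤ 1 :=
        Real.rpow_le_one_of_one_le_of_nonpos hlam (by linarith)
      have hx4 : (1 + 4 * P * ((((n : ℕ) : ℤ) + 1 : ℤ) : ℝ) ^ 2) ≤
          (1 + 4 * P * ((((n : ℕ) : ℤ) + 1 : ℤ) : ℝ) ^ 2) ^ (2 * (κ : ℝ) / 2) := by
        conv_lhs => rw [← Real.rpow_one (1 + 4 * P * ((((n : ℕ) : ℤ) + 1 : ℤ) : ℝ) ^ 2)]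
        apply Real.rpow_le_rpow_of_exponent_le hlam
        have : (1 : ℝ) ≤ κ := by exact_mod_cast hκ1
        linarith
      have hx5 : C * (1 + 4 * P * ((((n : ℕ) : ℤ) + 1 : ℤ) : ℝ) ^ 2) ^ ((s - 2 * (κ : ℝ)) / 2) ≤ C :=
        by
        calc _ ≤ C * 1 := mul_le_mul_of_nonneg_left hx3 hC
          _ = C := mul_one C
      have hx6 : 1 + 4 * P * ((((n : ℕ) : ℤ) + 1 : ℤ) : ℝ) ^ 2 ≤ C := hx4.trans (hx2.trans hx5)
      push_cast at hx6
      have hn0 : (0 : ℝ) ≤ n := Nat.cast_nonneg n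
      nlinarith [mul_nonneg hP.le hn0, mul_nonneg (mul_nonneg hP.le hn0) hn0]
    refine ⟨by linarith, cFinTU P (s - (2 * κ - S₀)), (hpowU _ _).2 rfl, ?_⟩
    intro Pmin Pmax hPmin hPmax
    obtain ⟨NQ, hNQ, ⟨C1, hC1⟩, -⟩ := h10 _ hU h0 Pmax hPmax.1
    obtain ⟨NP, hNP, -, ⟨C2, hC2⟩⟩ := h10 _ hU h0 Pmin hPmin.1
    obtain ⟨N, hN, C3, hC3⟩ := h11 _ hU h0 Pmax hPmax.1
    obtain ⟨C4, hC4⟩ := h12 _ hU Pmin hPmin.1
    have es : ∀ u, cFinT P (s - 2 * κ) (cFinT P S₀ u) = cFinT P (s - (2 * κ - S₀)) u := by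
      intro u
      rw [cFin_T_T hP]
      congr 2
      ring
    have es' : ∀ u, cFinT P S₀ (cFinT P (s - 2 * κ) u) = cFinT P (s - (2 * κ - S₀)) u := by
      intro u
      rw [cFin_T_T hP]
      congr 2
      ring
    -- first component
    have hX : cFinLE (fun x : (ℤ →₀ ℂ) × (ℤ →₀ ℂ) => Pmax (emb x.1 0))
        (fun x => Pmin (emb (cFinT P (s - (2 * κ - S₀)) x.1)
          (cFinT P (s - (2 * κ - S₀)) x.2))) := by
      have a1 : cFinLE (fun x : (ℤ →₀ ℂ) × (ℤ →₀ ℂ) => Pmax (emb x.1 0)) (fun x => NQ x.1) :=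
        cFin_le_of (fun x => cFin_nonneg hNQ _) ⟨C1, fun x => hC1 x.1⟩
      have a2 : cFinLE (fun x : (ℤ →₀ ℂ) × (ℤ →₀ ℂ) => NQ x.1)
          (fun x => p0 (cFinT P S₀ x.1)) := cFin_le_comp Prod.fst (hW1 NQ p0 hNQ hp0)
      have a3 : cFinLE (fun x : (ℤ →₀ ℂ) × (ℤ →₀ ℂ) => p0 (cFinT P S₀ x.1))
          (fun x => pmin (cFinT P (s - 2 * κ) (cFinT P S₀ x.1))) :=
        cFin_le_comp (fun x : (ℤ →₀ ℂ) × (ℤ →₀ ℂ) => cFinT P S₀ x.1) hA'
      have a4 : cFinLE (fun x : (ℤ →₀ ℂ) × (ℤ →₀ ℂ) =>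
          pmin (cFinT P (s - 2 * κ) (cFinT P S₀ x.1)))
          (fun x => Pmin (emb (cFinT P (s - (2 * κ - S₀)) x.1)
            (cFinT P (s - (2 * κ - S₀)) x.2))) := by
        refine cFin_le_of (fun x => cFin_nonneg hPmin.1 _) ⟨C4, fun x => ?_⟩
        rw [es]
        exact hC4 _ _
      exact cFin_le_trans a1 (cFin_le_trans a2 (cFin_le_trans a3 a4))
    have hY : cFinLE (fun x : (ℤ →₀ ℂ) × (ℤ →₀ ℂ) => Pmax (emb 0 x.2))
        (fun x => Pmin (emb (cFinT P (s - (2 * κ - S₀)) x.1)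
          (cFinT P (s - (2 * κ - S₀)) x.2))) := by
      have a1 : cFinLE (fun x : (ℤ →₀ ℂ) × (ℤ →₀ ℂ) => Pmax (emb 0 x.2)) (fun x => N x.2) :=
        cFin_le_of (fun x => cFin_nonneg hN _) ⟨C3, fun x => hC3 x.2⟩
      have a2 : cFinLE (fun x : (ℤ →₀ ℂ) × (ℤ →₀ ℂ) => N x.2)
          (fun x => pmin (cFinT P s x.2)) := cFin_le_comp Prod.snd (hgen N hN)
      have a3 : cFinLE (fun x : (ℤ →₀ ℂ) × (ℤ →₀ ℂ) => pmin (cFinT P s x.2))
          (fun x => p0 (cFinT P (s - 2 * κ) x.2)) := cFin_le_comp Prod.snd hB'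
      have a4 : cFinLE (fun x : (ℤ →₀ ℂ) × (ℤ →₀ ℂ) => p0 (cFinT P (s - 2 * κ) x.2))
          (fun x => NP (cFinT P S₀ (cFinT P (s - 2 * κ) x.2))) :=
        cFin_le_comp (fun x : (ℤ →₀ ℂ) × (ℤ →₀ ℂ) => cFinT P (s - 2 * κ) x.2)
          (hW1 p0 NP hp0 hNP)
      have a5 : cFinLE (fun x : (ℤ →₀ ℂ) × (ℤ →₀ ℂ) =>
          NP (cFinT P S₀ (cFinT P (s - 2 * κ) x.2)))
          (fun x => Pmin (emb (cFinT P (s - (2 * κ - S₀)) x.1)
            (cFinT P (s - (2 * κ - S₀)) x.2))) := by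
        refine cFin_le_of (fun x => cFin_nonneg hPmin.1 _) ⟨C2, fun x => ?_⟩
        rw [es']
        exact hC2 _ _
      exact cFin_le_trans a1 (cFin_le_trans a2 (cFin_le_trans a3 (cFin_le_trans a4 a5)))
    obtain ⟨D1, hD1, hX⟩ := hX
    obtain ⟨D2, hD2, hY⟩ := hY
    refine ⟨D1 + D2, fun x => ?_⟩
    obtain ⟨u, v, rfl⟩ := cFin_emb_surj x
    have e1 : emb u v = emb u 0 + emb 0 v := by
      rw [cFin_emb_add, add_zero, zero_add]
    have e2 := cFin_add hPmax.1 (emb u 0) (emb 0 v)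
    rw [← e1] at e2
    have e3 := hX (u, v)
    have e4 := hY (u, v)
    simp only at e3 e4
    show Pmax (emb u v) ≤ (D1 + D2) * Pmin (cFinTU P (s - (2 * κ - S₀)) (emb u v))
    rw [cFin_TU_emb, add_mul]
    linarith
  refine ⟨2 * κ + 1, hneU, hne0, ?_⟩
  have hbdd : BddBelow (gapSet (MU.toHC hU) b (wk (2 * κ + 1))) := ⟨0, fun s hs => hs.1⟩
  have hfin : sobolevGap (MU.toHC hU) b (wk (2 * κ + 1)) + (2 * κ - S₀) ≤
      sobolevGap (M0.toHC h0) b (wk (2 * κ + 1)) := by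
    refine le_csInf hne0 fun s hs => ?_
    have := csInf_le hbdd (key s hs)
    unfold sobolevGap
    linarith
  have : S₀ < 2 * κ := by linarith
  linarith

end Pool.Agent.H913.LG
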