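import Pool.Agent.H913.LG.Stmts2

/- PROJECT LG (owner helper913): MP_c67f28_al, MP_d7c545_al, MP_a304db_al, MP_6a3a89_al: norms on Harish-Chandra modules of
G = GL(2,R)+ x GL(2,R)+ (Gd below); common infrastructure.
SETUP (once per box, about 2 minutes):
  cd /workdir/pool/outputs/live && git fetch -q origin && mkdir -p /workdir/pool/Pool/Agent/H913/LG /workdir/pool/Pool/Agent/H913/LGP /workdir/pool/Pool/Agent/H913/SGP && git show origin/helper913:Pool/Agent/H913/LGP/Definitions.lean > /workdir/pool/Pool/Agent/H913/LGP/Definitions.lean && git show origin/main:Pool/Agent/H913/SGP/Definitions.lean > /workdir/pool/Pool/Agent/H913/SGP/Definitions.lean && for f in Defs HCBase HCAux Mod Stmts Stmts2; do git show origin/helper913:Pool/Agent/H913/LG/$f.lean > /workdir/pool/Pool/Agent/H913/LG/$f.lean; done; cd /workdir/pool && lake build Pool.Agent.H913.LG.Stmts2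
(ignore the sorry warnings of HCBase and HCAux: these are other jobs.) Read Defs, HCBase, Mod, Stmts, Stmts2 first (short).
Put this file at Pool/Agent/H913/LG/CWk.lean, replace the sorry of the TARGET by a proof; auxiliary lemmas before it are
welcome (give them names starting with cWk_ to avoid clashes). Statement of the target unchanged. Hypotheses (h1 : S_xxx) of the
target are proved elsewhere, use them freely. No sorry, no axioms. Respect RULES.md Validity 2 (banned words such as notation,
macro, syntax, prefix, tactic; no straight double quotes; no line comment starting in odd places).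
If the target is false or awkward, message helper913 at once (the statement will be fixed).
Paste the whole compiled file in jobs.result with status='done', done_at=now(), then: team-sql notify inbox_helper913 done -/

open Matrix NormedSpace
open scoped Matrix ComplexConjugate

namespace Pool.Agent.H913.LG

open Pool.Agent.H913.SGP Pool.Agent.H913.LGP

/-! Proof. Maximum of two weights that are submultiplicative is submultiplicative; AA ≥ 1 submultiplicative and continuous (S_AA); xx (g h) = xx g + xx h, continuous. Same for wD and for wA = 1 + log AA. Continuous positive functions are locally bounded. -/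

theorem cWk_weight {w : Gd → ℝ} (h0 : ∀ g, 0 < w g) (hc : Continuous w)
    (hm : ∀ g h, w (g * h) ≤ w g * w h) : IsWeight w := by
  refine ⟨h0, fun g => ?_, hm⟩
  refine ⟨{x | w x < w g + 1}, ?_, w g + 1, fun x hx => le_of_lt hx⟩
  exact (isOpen_lt hc continuous_const).mem_nhds (by
    change w g < w g + 1
    linarith)

theorem cWk_mt : Continuous (fun g : Gp => mt g) :=
  Units.continuous_val.comp continuous_subtype_val

theorem cWk_det_pos (g : Gp) : 0 < (mt g).det := g.2

theorem cWk_xx : Continuous xx := by
  unfold xx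
  refine Continuous.log ?_ fun g => (cWk_det_pos g.1).ne'
  exact (cWk_mt.comp continuous_fst).matrix_det

theorem cWk_xx_mul (g h : Gd) : xx (g * h) = xx g + xx h := by
  unfold xx
  have h1 : mt (g * h).1 = mt g.1 * mt h.1 := rfl
  rw [h1, Matrix.det_mul, Real.log_mul (cWk_det_pos _).ne' (cWk_det_pos _).ne']

theorem cWk_max {a b c d : ℝ} (hb : 0 ≤ b) (hc : 0 ≤ c) (hd : 0 ≤ d) (ha : 0 ≤ a) :
    max (a * c) (b * d) ≤ max a b * max c d := by
  refine max_le ?_ ?_
  · exact mul_le_mul (le_max_left _ _) (le_max_left _ _) hc (le_trans ha (le_max_left _ _))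
  · exact mul_le_mul (le_max_right _ _) (le_max_right _ _) hd (le_trans ha (le_max_left _ _))

/-- TARGET -/
theorem c_wk (h1 : S_AA) : S_wk := by
  obtain ⟨hA1, hA2, -, hA4, -⟩ := h1
  intro a
  have hp : ∀ g : Gd, 0 < AA g.1 := fun g => lt_of_lt_of_le one_pos (hA1 g.1)
  refine cWk_weight (fun g => ?_) ?_ (fun g h => ?_)
  · exact lt_of_lt_of_le (pow_pos (hp g) a) (le_max_left _ _)
  · unfold wk
    exact ((hA4.comp continuous_fst).pow a).max (continuous_const.add cWk_xx.abs)
  · unfold wk
    have h2 : AA (g * h).1 ^ a ≤ AA g.1 ^ a * AA h.1 ^ a := by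
      rw [← mul_pow]
      exact pow_le_pow_left₀ (hp (g * h)).le (hA2 g.1 h.1) a
    have h3 : 1 + |xx (g * h)| ≤ (1 + |xx g|) * (1 + |xx h|) := by
      rw [cWk_xx_mul]
      have h4 := abs_add_le (xx g) (xx h)
      have h5 := mul_nonneg (abs_nonneg (xx g)) (abs_nonneg (xx h))
      nlinarith
    refine le_trans (max_le_max h2 h3) (cWk_max ?_ ?_ ?_ ?_)
    · positivity
    · exact (pow_pos (hp h) a).le
    · positivity
    · exact (pow_pos (hp g) a).le

/-- TARGET -/
theorem c_wD (h1 : S_AA) : S_wD := by
  obtain ⟨hA1, hA2, -, hA4, -⟩ := h1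
  intro a
  have hp : ∀ g : Gd, 0 < AA g.1 := fun g => lt_of_lt_of_le one_pos (hA1 g.1)
  refine cWk_weight (fun g => ?_) ?_ (fun g h => ?_)
  · exact lt_of_lt_of_le (pow_pos (hp g) a) (le_max_left _ _)
  · unfold wD
    exact ((hA4.comp continuous_fst).pow a).max (hA4.comp continuous_snd).sqrt
  · unfold wD
    have h2 : AA (g * h).1 ^ a ≤ AA g.1 ^ a * AA h.1 ^ a := by
      rw [← mul_pow]
      exact pow_le_pow_left₀ (hp (g * h)).le (hA2 g.1 h.1) a
    have h3 : Real.sqrt (AA (g * h).2) ≤ Real.sqrt (AA g.2) * Real.sqrt (AA h.2) := by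
      rw [← Real.sqrt_mul (le_trans zero_le_one (hA1 g.2))]
      exact Real.sqrt_le_sqrt (hA2 g.2 h.2)
    refine le_trans (max_le_max h2 h3) (cWk_max ?_ ?_ ?_ ?_)
    · positivity
    · exact (pow_pos (hp h) a).le
    · positivity
    · exact (pow_pos (hp g) a).le

/-- TARGET -/
theorem c_wA (h1 : S_AA) : IsWeight wA := by
  obtain ⟨hA1, hA2, -, hA4, -⟩ := h1
  have hp : ∀ g : Gd, 0 < AA g.1 := fun g => lt_of_lt_of_le one_pos (hA1 g.1)
  have hl : ∀ g : Gd, 0 ≤ Real.log (AA g.1) := fun g => Real.log_nonneg (hA1 g.1)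
  refine cWk_weight (fun g => ?_) ?_ (fun g h => ?_)
  · unfold wA
    linarith [hl g]
  · unfold wA
    exact continuous_const.add ((hA4.comp continuous_fst).log fun g => (hp g).ne')
  · unfold wA
    have h2 : Real.log (AA (g * h).1) ≤ Real.log (AA g.1) + Real.log (AA h.1) := by
      rw [← Real.log_mul (hp g).ne' (hp h).ne']
      exact Real.log_le_log (hp (g * h)) (hA2 g.1 h.1)
    have h5 := mul_nonneg (hl g) (hl h)
    nlinarith

end Pool.Agent.H913.LG
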