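import Pool.Agent.H913.LG.Stmts2

open Matrix NormedSpace
open scoped Matrix ComplexConjugate

namespace Pool.Agent.H913.LG

open Pool.Agent.H913.SGP Pool.Agent.H913.LGP

theorem dAd_sqle {a b : ℝ} (hb : 0 ≤ b) (h : a ^ 2 ≤ b ^ 2) : a ≤ b := by
  by_contra hc
  have hc' : b < a := not_le.1 hc
  nlinarith

theorem dAd_nonneg {n : ℕ} (A : Mat n) : 0 ≤ frob A := Real.sqrt_nonneg _

theorem dAd_sq {n : ℕ} (A : Mat n) : frob A ^ 2 = ∑ i, ∑ j, A i j ^ 2 := by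
  unfold frob
  rw [Real.sq_sqrt]
  exact Finset.sum_nonneg fun i _ => Finset.sum_nonneg fun j _ => sq_nonneg _

theorem dAd_mul {n : ℕ} (A B : Mat n) : frob (A * B) ≤ frob A * frob B := by
  refine dAd_sqle (mul_nonneg (dAd_nonneg A) (dAd_nonneg B)) ?_
  rw [mul_pow, dAd_sq, dAd_sq, dAd_sq]
  have h1 : ∀ i j, (A * B) i j ^ 2 ≤ (∑ k, A i k ^ 2) * ∑ k, B k j ^ 2 := by
    intro i j
    rw [Matrix.mul_apply]
    exact Finset.sum_mul_sq_le_sq_mul_sq _ _ _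
  calc ∑ i, ∑ j, (A * B) i j ^ 2 ≤ ∑ i, ∑ j, (∑ k, A i k ^ 2) * ∑ k, B k j ^ 2 :=
        Finset.sum_le_sum fun i _ => Finset.sum_le_sum fun j _ => h1 i j
    _ = (∑ i, ∑ k, A i k ^ 2) * ∑ k, ∑ j, B k j ^ 2 := by
        rw [Finset.sum_comm (f := fun k j => B k j ^ 2), Finset.sum_mul_sum]

theorem dAd_smul {n : ℕ} (c : ℝ) (A : Mat n) : frob (c • A) = |c| * frob A := by
  unfold frob
  rw [← Real.sqrt_sq_eq_abs, ← Real.sqrt_mul (sq_nonneg c)]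
  congr 1
  rw [Finset.mul_sum]
  refine Finset.sum_congr rfl fun i _ => ?_
  rw [Finset.mul_sum]
  refine Finset.sum_congr rfl fun j _ => ?_
  rw [Matrix.smul_apply, smul_eq_mul, mul_pow]

theorem dAd_conj_le {n : ℕ} (g : GL (Fin n) ℝ) (X : Mat n) :
    frob (SGP.conj g X) ≤ frob (g : Mat n) * frob ((g⁻¹ : GL (Fin n) ℝ) : Mat n) * frob X := by
  unfold SGP.conj
  have h1 := dAd_mul ((g : Mat n) * X) ((g⁻¹ : GL (Fin n) ℝ) : Mat n)
  have h2 := mul_le_mul_of_nonneg_right (dAd_mul (g : Mat n) X)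
    (dAd_nonneg ((g⁻¹ : GL (Fin n) ℝ) : Mat n))
  calc _ ≤ _ := h1
    _ ≤ _ := h2
    _ = _ := by ring

theorem dAd_bdd (g : Gd) :
    BddAbove {r | ∃ X : LieAlg GRd, frob X.1 ≤ 1 ∧ r = frob (SGP.conj (rho g) X.1)} := by
  refine ⟨frob (rho g : Mat 4) * frob (((rho g)⁻¹ : GL (Fin 4) ℝ) : Mat 4), ?_⟩
  rintro r ⟨X, hX, rfl⟩
  refine (dAd_conj_le _ _).trans ?_
  exact mul_le_of_le_one_right (mul_nonneg (dAd_nonneg _) (dAd_nonneg _)) hX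

theorem dAd_le (g : Gd) (X : LieAlg GRd) (hX : frob X.1 ≤ 1) :
    frob (SGP.conj (rho g) X.1) ≤ adNorm GRd rho g :=
  le_csSup (dAd_bdd g) ⟨X, hX, rfl⟩

theorem dAd_zero_mem : ∀ t : ℝ, ∃ g ∈ GRd, (g : Mat 4) = exp (t • (0 : Mat 4)) := by
  intro t
  refine ⟨1, GRd.one_mem, ?_⟩
  rw [smul_zero, NormedSpace.exp_zero]
  rfl

theorem dAd_ne (g : Gd) :
    {r | ∃ X : LieAlg GRd, frob X.1 ≤ 1 ∧ r = frob (SGP.conj (rho g) X.1)}.Nonempty := by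
  refine ⟨_, ⟨0, dAd_zero_mem⟩, ?_, rfl⟩
  unfold frob
  simp

theorem dAd_le_frob (g : Gd) :
    adNorm GRd rho g ≤ frob (rho g : Mat 4) * frob (((rho g)⁻¹ : GL (Fin 4) ℝ) : Mat 4) := by
  refine csSup_le (dAd_ne g) ?_
  rintro r ⟨X, hX, rfl⟩
  refine (dAd_conj_le _ _).trans ?_
  exact mul_le_of_le_one_right (mul_nonneg (dAd_nonneg _) (dAd_nonneg _)) hX

theorem dAd_an_nonneg (g : Gd) : 0 ≤ adNorm GRd rho g := by
  have h := dAd_le g ⟨0, dAd_zero_mem⟩ (by unfold frob; simp)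
  exact (dAd_nonneg _).trans h

theorem dAd_smul_mem (c : ℝ) (X : LieAlg GRd) :
    ∀ t : ℝ, ∃ g ∈ GRd, (g : Mat 4) = exp (t • (c • X.1)) := by
  intro t
  rw [smul_smul]
  exact X.2 (t * c)

theorem dAd_rho_mem (h : Gd) : rho h ∈ GRd := ⟨_, rfl⟩

theorem dAd_conj_mem (h : Gd) (X : LieAlg GRd) :
    ∀ t : ℝ, ∃ g ∈ GRd, (g : Mat 4) = exp (t • (SGP.conj (rho h) X.1)) := by
  intro t
  obtain ⟨g, hg, hgX⟩ := X.2 t
  refine ⟨rho h * g * (rho h)⁻¹, GRd.mul_mem (GRd.mul_mem (dAd_rho_mem h) hg)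
    (GRd.inv_mem (dAd_rho_mem h)), ?_⟩
  have h1 : t • SGP.conj (rho h) X.1 = (rho h : Mat 4) * (t • X.1) * (((rho h)⁻¹ : GL (Fin 4) ℝ) : Mat 4) := by
    unfold SGP.conj
    rw [Matrix.mul_smul, Matrix.smul_mul]
  rw [h1, Matrix.exp_units_conj, ← hgX]
  rfl

theorem dAd_op (g : Gd) (Y : LieAlg GRd) :
    frob (SGP.conj (rho g) Y.1) ≤ adNorm GRd rho g * frob Y.1 := by
  rcases (dAd_nonneg Y.1).eq_or_lt with h0 | h0
  · have h1 := dAd_conj_le (rho g) Y.1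
    rw [← h0, mul_zero] at h1
    rw [← h0, mul_zero]
    exact h1
  · have h1 := dAd_le g ⟨(frob Y.1)⁻¹ • Y.1, dAd_smul_mem _ Y⟩ (by
      show frob ((frob Y.1)⁻¹ • Y.1) ≤ 1
      rw [dAd_smul, abs_of_pos (inv_pos.2 h0), inv_mul_cancel₀ h0.ne'])
    have h2 : SGP.conj (rho g) ((frob Y.1)⁻¹ • Y.1) = (frob Y.1)⁻¹ • SGP.conj (rho g) Y.1 := by
      unfold SGP.conj
      rw [Matrix.mul_smul, Matrix.smul_mul]
    have h3 : frob (SGP.conj (rho g) ((frob Y.1)⁻¹ • Y.1)) ≤ adNorm GRd rho g := h1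
    rw [h2, dAd_smul, abs_of_pos (inv_pos.2 h0), inv_mul_le_iff₀ h0] at h3
    rw [mul_comm]
    exact h3

theorem dAd_submul (g h : Gd) :
    adNorm GRd rho (g * h) ≤ adNorm GRd rho g * adNorm GRd rho h := by
  refine csSup_le (dAd_ne (g * h)) ?_
  rintro r ⟨X, hX, rfl⟩
  have h1 : SGP.conj (rho (g * h)) X.1 = SGP.conj (rho g) (SGP.conj (rho h) X.1) := by
    unfold SGP.conj
    rw [map_mul, _root_.mul_inv_rev, Units.val_mul, Units.val_mul]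
    simp only [Matrix.mul_assoc]
  rw [h1]
  have h2 := dAd_op g ⟨SGP.conj (rho h) X.1, dAd_conj_mem h X⟩
  refine h2.trans (mul_le_mul_of_nonneg_left ?_ (dAd_an_nonneg g))
  exact dAd_le h X hX

theorem dAd_rho (g : Gd) : (rho g : Mat 4) = blkHom (mt g.1, mt g.2) := rfl

theorem dAd_rho_inv (g : Gd) :
    (((rho g)⁻¹ : GL (Fin 4) ℝ) : Mat 4) = blkHom (mt g.1⁻¹, mt g.2⁻¹) := by
  rw [← map_inv]
  rfl

theorem dAd_blk_sq (A D : Mat2) : frob (blkHom (A, D)) ^ 2 =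
    (∑ i, ∑ j, A i j ^ 2) + ∑ i, ∑ j, D i j ^ 2 := by
  rw [dAd_sq]
  rw [← Equiv.sum_comp (finSumFinEquiv (m := 2) (n := 2))]
  have h1 : ∀ i : Fin 2 ⊕ Fin 2, ∑ j : Fin 4, (blkHom (A, D)) (finSumFinEquiv i) j ^ 2 =
      ∑ j : Fin 2 ⊕ Fin 2, (Matrix.fromBlocks A 0 0 D) i j ^ 2 := by
    intro i
    rw [← Equiv.sum_comp (finSumFinEquiv (m := 2) (n := 2))]
    refine Finset.sum_congr rfl fun j _ => ?_
    congr 1
    show Matrix.fromBlocks A 0 0 D (finSumFinEquiv.symm (finSumFinEquiv i))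
      (finSumFinEquiv.symm (finSumFinEquiv j)) = _
    rw [Equiv.symm_apply_apply, Equiv.symm_apply_apply]
  rw [Finset.sum_congr rfl fun i _ => h1 i]
  simp only [Fintype.sum_sum_type, Matrix.fromBlocks_apply₁₁, Matrix.fromBlocks_apply₁₂,
    Matrix.fromBlocks_apply₂₁, Matrix.fromBlocks_apply₂₂, Matrix.zero_apply]
  simp

theorem dAd_conj_blk (g : Gd) (A D : Mat2) : SGP.conj (rho g) (blkHom (A, D)) =
    blkHom (mt g.1 * A * mt g.1⁻¹, mt g.2 * D * mt g.2⁻¹) := by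
  unfold SGP.conj
  rw [dAd_rho, dAd_rho_inv, ← map_mul, ← map_mul]
  rfl

theorem dAd_mem (h1 : S_blk) (A D : Mat2) :
    ∀ t : ℝ, ∃ g ∈ GRd, (g : Mat 4) = exp (t • blkHom (A, D)) := by
  obtain ⟨X, hA, hD⟩ := h1.1 A D
  have h := aux_block X
  rw [hA, hD] at h
  rw [← h]
  exact X.2

theorem dAd_one_le (h1 : S_blk) (g : Gd) : 1 ≤ adNorm GRd rho g := by
  have h := dAd_le g ⟨blkHom ((1 / 2 : ℝ) • 1, (1 / 2 : ℝ) • 1), dAd_mem h1 _ _⟩ (by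
    show frob (blkHom ((1 / 2 : ℝ) • 1, (1 / 2 : ℝ) • 1)) ≤ 1
    refine dAd_sqle zero_le_one ?_
    rw [dAd_blk_sq]
    simp [Matrix.one_apply]
    norm_num)
  have h2 : frob (SGP.conj (rho g) (blkHom ((1 / 2 : ℝ) • 1, (1 / 2 : ℝ) • 1))) = 1 := by
    have hg1 : mt g.1 * mt g.1⁻¹ = 1 := by
      show ((g.1 * g.1⁻¹ : Gp) : GL (Fin 2) ℝ).val = 1
      rw [mul_inv_cancel]
      rfl
    have hg2 : mt g.2 * mt g.2⁻¹ = 1 := by
      show ((g.2 * g.2⁻¹ : Gp) : GL (Fin 2) ℝ).val = 1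
      rw [mul_inv_cancel]
      rfl
    rw [dAd_conj_blk]
    have e1 : mt g.1 * ((1 / 2 : ℝ) • (1 : Mat2)) * mt g.1⁻¹ = (1 / 2 : ℝ) • (1 : Mat2) := by
      rw [Matrix.mul_smul, Matrix.smul_mul, Matrix.mul_one, hg1]
    have e2 : mt g.2 * ((1 / 2 : ℝ) • (1 : Mat2)) * mt g.2⁻¹ = (1 / 2 : ℝ) • (1 : Mat2) := by
      rw [Matrix.mul_smul, Matrix.smul_mul, Matrix.mul_one, hg2]
    rw [e1, e2]
    have h3 : frob (blkHom ((1 / 2 : ℝ) • (1 : Mat2), (1 / 2 : ℝ) • (1 : Mat2))) ^ 2 = 1 := by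
      rw [dAd_blk_sq]
      simp [Matrix.one_apply]
      norm_num
    have h5 := dAd_nonneg (blkHom ((1 / 2 : ℝ) • (1 : Mat2), (1 / 2 : ℝ) • (1 : Mat2)))
    nlinarith
  have h4 : frob (SGP.conj (rho g) (blkHom ((1 / 2 : ℝ) • 1, (1 / 2 : ℝ) • 1))) ≤ adNorm GRd rho g := h
  rw [h2] at h4
  exact h4

theorem dAd_alg (M N : Mat2) (hMN : M * N = 1) (hdet : 0 < M.det) (m : ℝ) (hm : 0 ≤ m)
    (hb : ∀ a b : Fin 2, (∑ i, ∑ j, (M * Matrix.single a b (1 : ℝ) * N) i j ^ 2) ≤ m ^ 2) :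
    (‖al M‖ + ‖be M‖) ^ 2 / M.det ≤ 2 * m := by
  have hN : N = M⁻¹ := (Matrix.inv_eq_right_inv hMN).symm
  have hd : M.det = M 0 0 * M 1 1 - M 0 1 * M 1 0 := Matrix.det_fin_two M
  have hal : ‖al M‖ ^ 2 = ((M 0 0 + M 1 1) / 2) ^ 2 + ((M 1 0 - M 0 1) / 2) ^ 2 := by
    rw [Complex.sq_norm, Complex.normSq_apply]
    simp only [al]
    ring
  have hbe : ‖be M‖ ^ 2 = ((M 0 0 - M 1 1) / 2) ^ 2 + ((M 1 0 + M 0 1) / 2) ^ 2 := by
    rw [Complex.sq_norm, Complex.normSq_apply]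
    simp only [be]
    ring
  have h1 : (‖al M‖ + ‖be M‖) ^ 2 ≤ M 0 0 ^ 2 + M 0 1 ^ 2 + M 1 0 ^ 2 + M 1 1 ^ 2 := by
    nlinarith [sq_nonneg (‖al M‖ - ‖be M‖)]
  have hN' : ∀ i j, N i j = (M.det)⁻¹ * M.adjugate i j := by
    intro i j
    rw [hN, Matrix.inv_def, Matrix.smul_apply, Ring.inverse_eq_inv', smul_eq_mul]
  have a00 : M.adjugate 0 0 = M 1 1 := by rw [Matrix.adjugate_fin_two]; rfl
  have a01 : M.adjugate 0 1 = - M 0 1 := by rw [Matrix.adjugate_fin_two]; rfl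
  have a10 : M.adjugate 1 0 = - M 1 0 := by rw [Matrix.adjugate_fin_two]; rfl
  have a11 : M.adjugate 1 1 = M 0 0 := by rw [Matrix.adjugate_fin_two]; rfl
  set D := M.det with hD
  have hDi : 0 < D⁻¹ := inv_pos.2 hdet
  have hval : ∀ a b i j, (M * Matrix.single a b (1 : ℝ) * N) i j = M i a * N b j := by
    intro a b i j
    rw [Matrix.mul_apply, Fin.sum_univ_two, Matrix.mul_apply, Matrix.mul_apply, Fin.sum_univ_two,
      Fin.sum_univ_two]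
    fin_cases a <;> fin_cases b <;> simp
  have hsum : ∑ a : Fin 2, ∑ b : Fin 2, (∑ i, ∑ j, (M * Matrix.single a b (1 : ℝ) * N : Mat2) i j ^ 2) ≤ 4 * m ^ 2 := by
    calc _ ≤ ∑ a : Fin 2, ∑ b : Fin 2, m ^ 2 :=
          Finset.sum_le_sum fun a _ => Finset.sum_le_sum fun b _ => hb a b
      _ = 4 * m ^ 2 := by
          simp
          ring
  have hsum2 : ∑ a : Fin 2, ∑ b : Fin 2, (∑ i, ∑ j, (M * Matrix.single a b (1 : ℝ) * N : Mat2) i j ^ 2) =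
      ((M 0 0 ^ 2 + M 0 1 ^ 2 + M 1 0 ^ 2 + M 1 1 ^ 2) * D⁻¹) ^ 2 := by
    simp only [hval, Fin.sum_univ_two, hN', a00, a01, a10, a11]
    ring
  rw [hsum2] at hsum
  have h5 : (M 0 0 ^ 2 + M 0 1 ^ 2 + M 1 0 ^ 2 + M 1 1 ^ 2) * D⁻¹ ≤ 2 * m := by
    refine dAd_sqle (by linarith) ?_
    calc _ ≤ _ := hsum
      _ = _ := by ring
  calc (‖al M‖ + ‖be M‖) ^ 2 / D = (‖al M‖ + ‖be M‖) ^ 2 * D⁻¹ := div_eq_mul_inv _ _
    _ ≤ (M 0 0 ^ 2 + M 0 1 ^ 2 + M 1 0 ^ 2 + M 1 1 ^ 2) * D⁻¹ :=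
        mul_le_mul_of_nonneg_right h1 hDi.le
    _ ≤ 2 * m := h5

theorem dAd_single_sq (a b : Fin 2) : ∑ i, ∑ j, (Matrix.single a b (1 : ℝ) : Mat2) i j ^ 2 = 1 := by
  rw [Fin.sum_univ_two, Fin.sum_univ_two, Fin.sum_univ_two]
  fin_cases a <;> fin_cases b <;> simp

theorem dAd_mul_inv (g : Gp) : mt g * mt g⁻¹ = 1 := by
  show ((g * g⁻¹ : Gp) : GL (Fin 2) ℝ).val = 1
  rw [mul_inv_cancel]
  rfl

theorem dAd_det_pos (g : Gp) : 0 < (mt g).det := g.2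

theorem dAd_AA1 (h1 : S_blk) (g : Gd) : AA g.1 ≤ 2 * adNorm GRd rho g := by
  unfold AA
  refine dAd_alg (mt g.1) (mt g.1⁻¹) (dAd_mul_inv g.1) (dAd_det_pos g.1) _ (dAd_an_nonneg g) ?_
  intro a b
  have h2 := dAd_le g ⟨blkHom (Matrix.single a b (1 : ℝ), 0), dAd_mem h1 _ _⟩ (by
    show frob (blkHom (Matrix.single a b (1 : ℝ), 0)) ≤ 1
    refine dAd_sqle zero_le_one ?_
    rw [dAd_blk_sq, dAd_single_sq]
    simp)
  have h3 : frob (SGP.conj (rho g) (blkHom (Matrix.single a b (1 : ℝ), 0))) ≤ adNorm GRd rho g := h2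
  have h4 := pow_le_pow_left₀ (dAd_nonneg _) h3 2
  rw [dAd_conj_blk, dAd_blk_sq] at h4
  refine le_trans ?_ h4
  exact le_add_of_nonneg_right (Finset.sum_nonneg fun i _ => Finset.sum_nonneg fun j _ => sq_nonneg _)

theorem dAd_AA2 (h1 : S_blk) (g : Gd) : AA g.2 ≤ 2 * adNorm GRd rho g := by
  unfold AA
  refine dAd_alg (mt g.2) (mt g.2⁻¹) (dAd_mul_inv g.2) (dAd_det_pos g.2) _ (dAd_an_nonneg g) ?_
  intro a b
  have h2 := dAd_le g ⟨blkHom (0, Matrix.single a b (1 : ℝ)), dAd_mem h1 _ _⟩ (by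
    show frob (blkHom (0, Matrix.single a b (1 : ℝ))) ≤ 1
    refine dAd_sqle zero_le_one ?_
    rw [dAd_blk_sq, dAd_single_sq]
    simp)
  have h3 : frob (SGP.conj (rho g) (blkHom (0, Matrix.single a b (1 : ℝ)))) ≤ adNorm GRd rho g := h2
  have h4 := pow_le_pow_left₀ (dAd_nonneg _) h3 2
  rw [dAd_conj_blk, dAd_blk_sq] at h4
  refine le_trans ?_ h4
  exact le_add_of_nonneg_left (Finset.sum_nonneg fun i _ => Finset.sum_nonneg fun j _ => sq_nonneg _)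

theorem dAd_cont_mt : Continuous fun g : Gp => mt g :=
  Units.continuous_val.comp continuous_subtype_val

theorem dAd_cont_frob {T : Type} [TopologicalSpace T] (A D : T → Mat2) (hA : Continuous A)
    (hD : Continuous D) : Continuous fun x => frob (blkHom (A x, D x)) := by
  have h : (fun x => frob (blkHom (A x, D x))) =
      fun x => Real.sqrt ((∑ i, ∑ j, A x i j ^ 2) + ∑ i, ∑ j, D x i j ^ 2) := by
    funext x
    rw [← dAd_blk_sq, Real.sqrt_sq (dAd_nonneg _)]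
  rw [h]
  refine Real.continuous_sqrt.comp (Continuous.add ?_ ?_)
  · exact continuous_finsetSum _ fun i _ => continuous_finsetSum _ fun j _ =>
      (hA.matrix_elem i j).pow 2
  · exact continuous_finsetSum _ fun i _ => continuous_finsetSum _ fun j _ =>
      (hD.matrix_elem i j).pow 2

theorem dAd_cont : Continuous fun g : Gd =>
    frob (rho g : Mat 4) * frob (((rho g)⁻¹ : GL (Fin 4) ℝ) : Mat 4) := by
  have h : (fun g : Gd => frob (rho g : Mat 4) * frob (((rho g)⁻¹ : GL (Fin 4) ℝ) : Mat 4)) =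
      fun g : Gd => frob (blkHom (mt g.1, mt g.2)) * frob (blkHom (mt g.1⁻¹, mt g.2⁻¹)) := by
    funext g
    rw [dAd_rho, dAd_rho_inv]
  rw [h]
  refine Continuous.mul (dAd_cont_frob _ _ ?_ ?_) (dAd_cont_frob _ _ ?_ ?_)
  · exact dAd_cont_mt.comp continuous_fst
  · exact dAd_cont_mt.comp continuous_snd
  · exact dAd_cont_mt.comp (continuous_inv.comp continuous_fst)
  · exact dAd_cont_mt.comp (continuous_inv.comp continuous_snd)

/-- TARGET -/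
theorem d_ad (h1 : S_blk) : S_ad := by
  refine ⟨fun g => ⟨dAd_one_le h1 g, dAd_AA1 h1 g, dAd_AA2 h1 g⟩, ?_⟩
  intro w t hw ht
  refine ⟨fun g => ?_, fun g => ?_, fun g h => ?_⟩
  · exact mul_pos (hw.1 g) (Real.rpow_pos_of_pos (lt_of_lt_of_le one_pos (dAd_one_le h1 g)) t)
  · obtain ⟨U, hU, C, hC⟩ := hw.2.1 g
    have hc := (dAd_cont.tendsto g).eventually_lt_const (lt_add_one _)
    set c := frob (rho g : Mat 4) * frob (((rho g)⁻¹ : GL (Fin 4) ℝ) : Mat 4) + 1 with hcdef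
    refine ⟨U ∩ {x | frob (rho x : Mat 4) * frob (((rho x)⁻¹ : GL (Fin 4) ℝ) : Mat 4) < c},
      Filter.inter_mem hU hc, C * c ^ t, ?_⟩
    rintro x ⟨hxU, hxc⟩
    unfold twist
    have h0 := dAd_an_nonneg x
    have h2 : adNorm GRd rho x ≤ c := (dAd_le_frob x).trans (le_of_lt hxc)
    have h3 : adNorm GRd rho x ^ t ≤ c ^ t := Real.rpow_le_rpow h0 h2 ht
    exact mul_le_mul (hC x hxU) h3 (Real.rpow_nonneg h0 t) ((hw.1 x).le.trans (hC x hxU))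
  · unfold twist
    have h2 : adNorm GRd rho (g * h) ^ t ≤ adNorm GRd rho g ^ t * adNorm GRd rho h ^ t := by
      rw [← Real.mul_rpow (dAd_an_nonneg g) (dAd_an_nonneg h)]
      exact Real.rpow_le_rpow (dAd_an_nonneg _) (dAd_submul g h) ht
    calc w (g * h) * adNorm GRd rho (g * h) ^ t
        ≤ (w g * w h) * (adNorm GRd rho g ^ t * adNorm GRd rho h ^ t) :=
          mul_le_mul (hw.2.2 g h) h2 (Real.rpow_nonneg (dAd_an_nonneg _) t)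
            (mul_nonneg (hw.1 g).le (hw.1 h).le)
      _ = _ := by ring

end Pool.Agent.H913.LG
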