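import Pool.Agent.H913.LG.Stmts2

open Matrix NormedSpace
open scoped Matrix ComplexConjugate

namespace Pool.Agent.H913.LG

open Pool.Agent.H913.SGP Pool.Agent.H913.LGP

/-- the generator -/
def dB1_Y : Mat2 := !![1, 0; 0, -1]

theorem dB1_exp (t : ℝ) : exp (t • dB1_Y) = !![Real.exp t, 0; 0, Real.exp (-t)] := by
  have h : t • dB1_Y = Matrix.diagonal ![t, -t] := by
    ext i j
    fin_cases i <;> fin_cases j <;> simp [dB1_Y]
  rw [h, Matrix.exp_diagonal]
  ext i j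
  fin_cases i <;> fin_cases j <;> simp [Pi.coe_exp, Real.exp_eq_exp_ℝ]

theorem dB1_AA {g : Gp} {t : ℝ} (h : mt g = !![Real.exp t, 0; 0, Real.exp (-t)]) :
    Real.sqrt (AA g) = Real.exp |t| := by
  have h1 : al (mt g) = (((Real.exp t + Real.exp (-t)) / 2 : ℝ) : ℂ) := by
    rw [h]
    apply Complex.ext
    · rw [Complex.ofReal_re]; simp [al]
    · rw [Complex.ofReal_im]; simp [al]
  have h2 : be (mt g) = (((Real.exp t - Real.exp (-t)) / 2 : ℝ) : ℂ) := by
    rw [h]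
    apply Complex.ext
    · rw [Complex.ofReal_re]; simp [be]
    · rw [Complex.ofReal_im]; simp [be]
  have h3 : (mt g).det = 1 := by
    rw [h, Matrix.det_fin_two]
    simp [← Real.exp_add]
  have h4 : ‖al (mt g)‖ + ‖be (mt g)‖ = Real.exp |t| := by
    rw [h1, h2, Complex.norm_real, Complex.norm_real, Real.norm_eq_abs, Real.norm_eq_abs,
      abs_of_nonneg (by positivity)]
    rcases le_total 0 t with ht | ht
    · rw [abs_of_nonneg ht, abs_of_nonneg]
      · ring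
      · have := Real.exp_le_exp.2 (show -t ≤ t by linarith)
        linarith
    · rw [abs_of_nonpos ht, abs_of_nonpos]
      · ring
      · have := Real.exp_le_exp.2 (show t ≤ -t by linarith)
        linarith
  unfold AA
  rw [h4, h3, div_one]
  exact Real.sqrt_sq (Real.exp_pos _).le

theorem dB1_vfm (m : ℤ) : vfm 0 m = 0 := by
  have h1 : be (0 : Mat2) = 0 := by apply Complex.ext <;> simp [be]
  have h2 : al (0 : Mat2) = 0 := by apply Complex.ext <;> simp [al]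
  unfold vfm
  rw [h1, h2]
  simp

theorem dB1_ee0 (m : ℤ) : MD.A 0 dB1_Y (ee (m, 0)) = ee (m, 1) := by
  have h1 : be dB1_Y = 1 := by apply Complex.ext <;> simp [be, dB1_Y]
  have h2 : al dB1_Y = 0 := by apply Complex.ext <;> simp [al, dB1_Y]
  show Finsupp.linearCombination ℂ _ (Finsupp.single (m, (0 : Fin 2)) (1:ℂ)) = _
  rw [Finsupp.linearCombination_single, one_smul]
  simp [dB1_vfm, h1, h2]

theorem dB1_ee1 (m : ℤ) : MD.A 0 dB1_Y (ee (m, 1)) = ee (m, 0) := by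
  have h1 : be dB1_Y = 1 := by apply Complex.ext <;> simp [be, dB1_Y]
  have h2 : al dB1_Y = 0 := by apply Complex.ext <;> simp [al, dB1_Y]
  show Finsupp.linearCombination ℂ _ (Finsupp.single (m, (1 : Fin 2)) (1:ℂ)) = _
  rw [Finsupp.linearCombination_single, one_smul]
  simp [dB1_vfm, h1, h2]

theorem dB1_sq : MD.A 0 dB1_Y ∘ₗ MD.A 0 dB1_Y = LinearMap.id := by
  apply Finsupp.lhom_ext'
  rintro ⟨m, j⟩
  apply LinearMap.ext_ring
  show MD.A 0 dB1_Y (MD.A 0 dB1_Y (ee (m, j))) = ee (m, j)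
  fin_cases j
  · show MD.A 0 dB1_Y (MD.A 0 dB1_Y (ee (m, 0))) = ee (m, 0)
    rw [dB1_ee0, dB1_ee1]
  · show MD.A 0 dB1_Y (MD.A 0 dB1_Y (ee (m, 1))) = ee (m, 1)
    rw [dB1_ee1, dB1_ee0]

theorem dB1_sq' (v) : MD.A 0 dB1_Y (MD.A 0 dB1_Y v) = v := LinearMap.congr_fun dB1_sq v

/-- eigenvectors of the generator are eigenvectors of the group -/
theorem dB1_flow {E : Type*} [NormedAddCommGroup E] [NormedSpace ℂ E] (π : Gd →* (E →L[ℂ] E))
    {γ : ℝ → Gd} (hγ : ∀ s t, γ (s + t) = γ s * γ t) {x : E} {c : ℝ}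
    (hd : HasDerivAt (fun t : ℝ => π (γ t) x) ((c : ℂ) • x) 0) (t : ℝ) :
    π (γ t) x = (Real.exp (c * t) : ℂ) • x := by
  have hγ0 : γ 0 = 1 := by
    have := hγ 0 0
    rw [add_zero] at this
    exact (mul_eq_left.1 this.symm)
  have hd' : ∀ t : ℝ, HasDerivAt (fun t : ℝ => π (γ t) x) ((c : ℂ) • π (γ t) x) t := by
    intro t
    have h1 : HasDerivAt (fun s : ℝ => π (γ (s - t)) x) ((c : ℂ) • x) t := by
      have := HasDerivAt.scomp t (h := fun s : ℝ => s - t) (h' := (1:ℝ))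
        (g₁ := fun t : ℝ => π (γ t) x) (g₁' := (c : ℂ) • x) (by simpa using hd)
        ((hasDerivAt_id t).sub_const t)
      rw [one_smul] at this
      exact this
    have h2 : HasDerivAt (fun s : ℝ => (π (γ t)) (π (γ (s - t)) x)) ((π (γ t)) ((c : ℂ) • x)) t := by
      exact ((π (γ t)).restrictScalars ℝ).hasFDerivAt.comp_hasDerivAt t h1
    have h3 : (fun s : ℝ => (π (γ t)) (π (γ (s - t)) x)) = fun s : ℝ => π (γ s) x := by
      funext s
      have : γ s = γ t * γ (s - t) := by rw [← hγ]; congr 1; ring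
      rw [this, map_mul]
      rfl
    rw [h3, map_smul] at h2
    exact h2
  have hu : ∀ t : ℝ, HasDerivAt (fun t : ℝ => (Real.exp (-(c * t)) : ℝ) • π (γ t) x) 0 t := by
    intro t
    have h1 : HasDerivAt (fun t : ℝ => Real.exp (-(c * t))) (-c * Real.exp (-(c * t))) t := by
      have h0 : HasDerivAt (fun t : ℝ => -(c * t)) (-(c * 1)) t :=
        ((hasDerivAt_id t).const_mul c).neg
      have := h0.exp
      convert this using 1
      ring
    have h2 := h1.smul (hd' t)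
    have h3 : (c : ℂ) • (π (γ t)) x = (c : ℝ) • (π (γ t)) x := by
      rw [← Complex.coe_smul]
    have h4 : Real.exp (-(c * t)) * c + -c * Real.exp (-(c * t)) = 0 := by ring
    rw [h3, smul_smul, ← add_smul, h4, zero_smul] at h2
    exact h2
  have hc := is_const_of_deriv_eq_zero (f := fun t : ℝ => (Real.exp (-(c * t)) : ℝ) • π (γ t) x)
    (fun t => (hu t).differentiableAt) (fun t => (hu t).deriv) t 0
  simp only [mul_zero, neg_zero, Real.exp_zero, one_smul, hγ0, map_one] at hc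
  have h1 : π (γ t) x = (Real.exp (c * t)) • ((Real.exp (-(c * t)) : ℝ) • π (γ t) x) := by
    rw [smul_smul, ← Real.exp_add, add_neg_cancel, Real.exp_zero, one_smul]
  rw [h1, hc]
  rw [← Complex.coe_smul]
  rfl

/-- TARGET -/
theorem d_d1 (h1 : S_blk) (h2 : S_AA) : S_d1 := by
  rintro a h P ⟨E, iE, iE', hcomp, ι, π, hglob, hP, C₀, hC₀, hπ⟩
  obtain ⟨hA1, hA2, hA3⟩ := h1
  obtain ⟨X, hX1, hX2⟩ := hA1 0 dB1_Y
  obtain ⟨γ, hγ⟩ := hA2 X
  have hγm := hA3 X γ hγ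
  have hAA1 := h2.1
  -- the one-parameter group
  have hg1 : ∀ t, (γ t).1 = 1 := by
    intro t
    have := (hγm t).1
    rw [hX1, smul_zero, NormedSpace.exp_zero] at this
    apply Subtype.ext
    apply Units.ext
    exact this
  have hg2 : ∀ t, Real.sqrt (AA (γ t).2) = Real.exp |t| := by
    intro t
    apply dB1_AA
    rw [(hγm t).2, hX2, dB1_exp]
  have hone : AA 1 = 1 := by
    have e1 : al (mt 1) = 1 := by apply Complex.ext <;> simp [al, mt]
    have e2 : be (mt 1) = 0 := by apply Complex.ext <;> simp [be, mt]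
    have e3 : (mt 1).det = 1 := by simp [mt]
    unfold AA
    rw [e1, e2, e3]
    simp
  have hd : ∀ v, HasDerivAt (fun t : ℝ => π (γ t) (ι v)) (ι (MD.A 0 dB1_Y v)) 0 := by
    intro v
    have := hglob.intertwines_lie X γ hγ v
    have e : (MD.toHC h).a X v = MD.A 0 dB1_Y v := by
      show MD.A (b1 X.1) (b2 X.1) v = _
      rw [hX1, hX2]
    rwa [e] at this
  have hplus : ∀ v, MD.A 0 dB1_Y v = v → ∀ t, π (γ t) (ι v) = (Real.exp t : ℂ) • ι v := by
    intro v hv t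
    have h0 := hd v
    rw [hv] at h0
    have := dB1_flow π hγ.2.1 (x := ι v) (c := 1) (by simpa using h0) t
    rwa [one_mul] at this
  have hminus : ∀ v, MD.A 0 dB1_Y v = -v → ∀ t, π (γ t) (ι v) = (Real.exp (-t) : ℂ) • ι v := by
    intro v hv t
    have h0 := hd v
    rw [hv, map_neg] at h0
    have := dB1_flow π hγ.2.1 (x := ι v) (c := -1) (by simpa using h0) t
    rwa [neg_one_mul] at this
  -- bound on eigenvectors
  have hwD : ∀ (g₁ : Gp) (t : ℝ), Real.exp |t| = AA g₁ ^ a →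
      ‖π ((g₁, 1) * γ t)‖ ≤ C₀ * Real.exp |t| := by
    intro g₁ t ht
    have h3 := hπ ((g₁, 1) * γ t)
    have e1 : ((g₁, (1 : Gp)) * γ t).1 = g₁ := by
      show g₁ * (γ t).1 = g₁
      rw [hg1, mul_one]
    have e2 : ((g₁, (1 : Gp)) * γ t).2 = (γ t).2 := by
      show 1 * (γ t).2 = _
      rw [one_mul]
    have e3 : wD a ((g₁, 1) * γ t) = Real.exp |t| := by
      unfold wD
      rw [e1, e2, hg2, ht, max_self]
    rwa [e3] at h3
  have hRex : ∀ g₁ : Gp, ∃ t : ℝ, 0 ≤ t ∧ Real.exp t = AA g₁ ^ a := by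
    intro g₁
    have h3 : 1 ≤ AA g₁ ^ a := one_le_pow₀ (hAA1 g₁)
    exact ⟨Real.log (AA g₁ ^ a), Real.log_nonneg h3, Real.exp_log (by linarith)⟩
  have hbplus : ∀ (g₁ : Gp) v, MD.A 0 dB1_Y v = v → ‖π (g₁, 1) (ι v)‖ ≤ C₀ * ‖ι v‖ := by
    intro g₁ v hv
    obtain ⟨t, ht, htR⟩ := hRex g₁
    have h4 := hwD g₁ t (by rw [abs_of_nonneg ht]; exact htR)
    rw [abs_of_nonneg ht] at h4
    have h5 : π ((g₁, 1) * γ t) (ι v) = (Real.exp t : ℂ) • π (g₁, 1) (ι v) := by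
      rw [map_mul]
      show π (g₁, 1) (π (γ t) (ι v)) = _
      rw [hplus v hv, map_smul]
    have h6 : ‖π ((g₁, 1) * γ t) (ι v)‖ = Real.exp t * ‖π (g₁, 1) (ι v)‖ := by
      rw [h5, norm_smul, Complex.norm_real, Real.norm_eq_abs, abs_of_pos (Real.exp_pos t)]
    have h7 := (π ((g₁, 1) * γ t)).le_of_opNorm_le h4 (ι v)
    rw [h6] at h7
    have h8 := Real.exp_pos t
    by_contra hcon
    push Not at hcon
    have := mul_lt_mul_of_pos_left hcon h8
    nlinarith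
  have hbminus : ∀ (g₁ : Gp) v, MD.A 0 dB1_Y v = -v → ‖π (g₁, 1) (ι v)‖ ≤ C₀ * ‖ι v‖ := by
    intro g₁ v hv
    obtain ⟨t, ht, htR⟩ := hRex g₁
    have h4 := hwD g₁ (-t) (by rw [abs_neg, abs_of_nonneg ht]; exact htR)
    rw [abs_neg, abs_of_nonneg ht] at h4
    have h5 : π ((g₁, 1) * γ (-t)) (ι v) = (Real.exp t : ℂ) • π (g₁, 1) (ι v) := by
      rw [map_mul]
      show π (g₁, 1) (π (γ (-t)) (ι v)) = _
      rw [hminus v hv, map_smul, neg_neg]
    have h6 : ‖π ((g₁, 1) * γ (-t)) (ι v)‖ = Real.exp t * ‖π (g₁, 1) (ι v)‖ := by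
      rw [h5, norm_smul, Complex.norm_real, Real.norm_eq_abs, abs_of_pos (Real.exp_pos t)]
    have h7 := (π ((g₁, 1) * γ (-t))).le_of_opNorm_le h4 (ι v)
    rw [h6] at h7
    have h8 := Real.exp_pos t
    by_contra hcon
    push Not at hcon
    have := mul_lt_mul_of_pos_left hcon h8
    nlinarith
  -- the projections are bounded
  set K : ℝ := ‖π (γ (Real.log 2))‖ with hK
  have hK0 : 0 ≤ K := norm_nonneg _
  have hproj : ∀ v, ∃ u w, v = u + w ∧ MD.A 0 dB1_Y u = u ∧ MD.A 0 dB1_Y w = -w ∧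
      ‖ι u‖ ≤ (K + 1) * ‖ι v‖ ∧ ‖ι w‖ ≤ (K + 2) * ‖ι v‖ := by
    intro v
    refine ⟨(1/2 : ℂ) • (v + MD.A 0 dB1_Y v), (1/2 : ℂ) • (v - MD.A 0 dB1_Y v), ?_, ?_, ?_, ?_⟩
    · rw [← smul_add, add_add_sub_cancel, ← two_smul ℂ v, smul_smul]
      norm_num
    · rw [map_smul, map_add, dB1_sq', add_comm]
    · rw [map_smul, map_sub, dB1_sq', ← smul_neg, neg_sub]
    set u := (1/2 : ℂ) • (v + MD.A 0 dB1_Y v) with hu
    set w := (1/2 : ℂ) • (v - MD.A 0 dB1_Y v) with hw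
    have hv : v = u + w := by
      rw [hu, hw, ← smul_add, add_add_sub_cancel, ← two_smul ℂ v, smul_smul]
      norm_num
    have hBu : MD.A 0 dB1_Y u = u := by rw [hu, map_smul, map_add, dB1_sq', add_comm]
    have hBw : MD.A 0 dB1_Y w = -w := by rw [hw, map_smul, map_sub, dB1_sq', ← smul_neg, neg_sub]
    have e1 : π (γ (Real.log 2)) (ι v) = (2 : ℂ) • ι u + (1/2 : ℂ) • ι w := by
      rw [hv, map_add, map_add, hplus u hBu, hminus w hBw, Real.exp_neg,
        Real.exp_log (by norm_num)]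
      norm_num
    have e2 : ι u = (2/3 : ℂ) • (π (γ (Real.log 2)) (ι v) - (1/2 : ℂ) • ι v) := by
      rw [e1]
      conv_rhs => rw [hv]
      rw [map_add]
      module
    have e3 : ‖ι u‖ ≤ (K + 1) * ‖ι v‖ := by
      rw [e2, norm_smul]
      have e4 : ‖(2/3 : ℂ)‖ = 2/3 := by norm_num
      have e5 : ‖(1/2 : ℂ)‖ = 1/2 := by norm_num
      have e6 := norm_sub_le (π (γ (Real.log 2)) (ι v)) ((1/2 : ℂ) • ι v)
      rw [norm_smul, e5] at e6
      have e7 := (π (γ (Real.log 2))).le_opNorm (ι v)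
      rw [e4]
      have e8 := norm_nonneg (ι v)
      have e9 : 0 ≤ K * ‖ι v‖ := mul_nonneg hK0 e8
      nlinarith
    refine ⟨e3, ?_⟩
    have e4 : ι w = ι v - ι u := by
      conv_rhs => rw [hv]
      rw [map_add]
      abel
    rw [e4]
    have := norm_sub_le (ι v) (ι u)
    linarith
  set C₂ : ℝ := C₀ * (2 * K + 3) with hC₂
  have hC₂0 : 0 < C₂ := by positivity
  have hb1 : ∀ g₁ : Gp, ‖π (g₁, 1)‖ ≤ C₂ := by
    intro g₁
    apply ContinuousLinearMap.opNorm_le_bound _ hC₂0.le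
    intro x
    refine hglob.dense.induction_on x ?_ ?_
    · exact isClosed_le ((π (g₁, 1)).continuous.norm) (continuous_const.mul continuous_norm)
    · intro v
      obtain ⟨u, w, hv, hBu, hBw, hnu, hnw⟩ := hproj v
      have e1 : π (g₁, 1) (ι v) = π (g₁, 1) (ι u) + π (g₁, 1) (ι w) := by
        rw [hv, map_add, map_add]
      rw [e1]
      have e2 := norm_add_le (π (g₁, 1) (ι u)) (π (g₁, 1) (ι w))
      have e3 := hbplus g₁ u hBu
      have e4 := hbminus g₁ w hBw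
      have e5 : C₀ * ‖ι u‖ ≤ C₀ * ((K + 1) * ‖ι v‖) := mul_le_mul_of_nonneg_left hnu hC₀.le
      have e6 : C₀ * ‖ι w‖ ≤ C₀ * ((K + 2) * ‖ι v‖) := mul_le_mul_of_nonneg_left hnw hC₀.le
      have e7 : C₀ * ((K + 1) * ‖ι v‖) + C₀ * ((K + 2) * ‖ι v‖) = C₂ * ‖ι v‖ := by
        rw [hC₂]; ring
      linarith
  refine ⟨E, iE, iE', hcomp, ι, π, hglob, hP, C₀ * C₂, by positivity, ?_⟩
  rintro ⟨g₁, g₂⟩
  have e1 : ((g₁, g₂) : Gd) = (1, g₂) * (g₁, 1) := by
    rw [Prod.mk_mul_mk, one_mul, mul_one]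
  have e2 : ‖π (1, g₂)‖ ≤ C₀ * Real.sqrt (AA g₂) := by
    have h3 := hπ (1, g₂)
    have e3 : wD a (1, g₂) = Real.sqrt (AA g₂) := by
      unfold wD
      show max (AA 1 ^ a) (Real.sqrt (AA g₂)) = _
      rw [hone, one_pow]
      apply max_eq_right
      rw [Real.one_le_sqrt]
      exact hAA1 g₂
    rwa [e3] at h3
  show ‖π (g₁, g₂)‖ ≤ C₀ * C₂ * Real.sqrt (AA g₂)
  rw [e1, map_mul]
  have e3 := norm_mul_le (π (1, g₂)) (π (g₁, 1))
  have e4 : ‖π (1, g₂)‖ * ‖π (g₁, 1)‖ ≤ (C₀ * Real.sqrt (AA g₂)) * C₂ :=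
    mul_le_mul e2 (hb1 g₁) (norm_nonneg _) (by positivity)
  calc _ ≤ _ := e3
    _ ≤ _ := e4
    _ = _ := by ring

end Pool.Agent.H913.LG
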