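import Pool.Agent.H913.LG.Stmts2

/- PROJECT LG (owner helper913): MP_c67f28_al, MP_d7c545_al, MP_a304db_al, MP_6a3a89_al: norms on Harish-Chandra modules of
G = GL(2,R)+ x GL(2,R)+ (Gd below); common infrastructure.
SETUP (once per box, about 2 minutes):
  cd /workdir/pool/outputs/live && git fetch -q origin && mkdir -p /workdir/pool/Pool/Agent/H913/LG /workdir/pool/Pool/Agent/H913/LGP /workdir/pool/Pool/Agent/H913/SGP && git show origin/helper913:Pool/Agent/H913/LGP/Definitions.lean > /workdir/pool/Pool/Agent/H913/LGP/Definitions.lean && git show origin/main:Pool/Agent/H913/SGP/Definitions.lean > /workdir/pool/Pool/Agent/H913/SGP/Definitions.lean && for f in Defs HCBase HCAux Mod Stmts Stmts2; do git show origin/helper913:Pool/Agent/H913/LG/$f.lean > /workdir/pool/Pool/Agent/H913/LG/$f.lean; done; cd /workdir/pool && lake build Pool.Agent.H913.LG.Stmts2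
(ignore the sorry warnings of HCBase and HCAux: these are other jobs.) Read Defs, HCBase, Mod, Stmts, Stmts2 first (short).
Put this file at Pool/Agent/H913/LG/DFin.lean, replace the sorry of the TARGET by a proof; auxiliary lemmas before it are
welcome (give them names starting with dFin_ to avoid clashes). Statement of the target unchanged. Hypotheses (h1 : S_xxx) of the
target are proved elsewhere, use them freely. No sorry, no axioms. Respect RULES.md Validity 2 (banned words such as notation,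
macro, syntax, prefix, tactic; no straight double quotes; no line comment starting in odd places).
If the target is false or awkward, message helper913 at once (the statement will be fixed).
Paste the whole compiled file in jobs.result with status='done', done_at=now(), then: team-sql notify inbox_helper913 done -/

open Matrix NormedSpace
open scoped Matrix ComplexConjugate

namespace Pool.Agent.H913.LG

open Pool.Agent.H913.SGP Pool.Agent.H913.LGP

/-! Proof. p q from S_basis, P = ∑ p l² > 0. S₀ from S_unif with weight w₀ = sqrt(AA g.2) (a weight by S_base). Choose κ with 4κ > S₀ + C/2 and κ ≥ 1, a = 2κ. 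
Upper bound: Norm(MD, wD a) is nonempty (pD ∈ Norm(MD,w₀), w₀ ≤ wD a) and contained in Norm(MD,w₀) by S_d1; so with T from S_unif (S₀): every pmin, pmax ∈ Norm(MD, wD a) satisfy pmax ≤ C pmin∘T, so S₀ ∈ gapSet(MD,wD a), sobolevGap ≤ S₀ (gapSet bounded below by 0).
Lower bound: w' = twist GRd rho (wD a) (1/2), a weight by S_ad, w' ≥ c (AA g.1^a sqrt(AA g.2)) with c = 1/sqrt 2 : wD a g ≥ AA g.1^a and adNorm^(1/2) ≥ (AA g.2/2)^(1/2). r from S_RD (κ): r ∈ Norm(MD, AA^(2κ) sqrt) ⊆ Norm(MD,w') (2κ = a; monotone up to constants), r(ee(m,0)) ≥ c'(1+m²)^κ. pmin = famNorm w' (FD 0) is a smallest norm (S_mins), pmin(ee (m,0)) (1+|m|)^a ≤ C by S_ND; pmax exists by S_max (base norm pD). gapSet(MD,w') nonempty by S_unif with weight w'. For s in it: r ≤ C pmax ≤ C pmin∘T_s, on ee (m,0): T_s (ee(m,0)) = (1+eig)^(s/2) ee(m,0), eig = ∑ (2 m p l - q l)² ≤ C(1+m²) (ν (m,0) = -1), s ≥ 0. So c'(1+m²)^κ ≤ C (1+m²)^(s/2) (1+|m|)^(-a)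 for all m; as m → ∞: 2κ ≤ s - a, s ≥ 4κ. So sobolevGap(MD,w') ≥ 4κ > S₀ + C/2 ≥ sobolevGap(MD,wD a) + C/2. -/

theorem dFin_norm1 {V : Type} [AddCommGroup V] [Module ℂ V] {Mo : HCModule GRd rho V}
    {w : Gd → ℝ} {p : V → ℝ} (hp : IsNormIn1 Mo w p) : IsNormIn Mo w p := by
  obtain ⟨E, i1, i2, i3, ι, π, hg, hpi, hb⟩ := hp
  exact ⟨E, i1, i2, i3, ι, π, hg, hpi, 1, one_pos, fun g => by simpa using hb g⟩

theorem dFin_mono {V : Type} [AddCommGroup V] [Module ℂ V] {Mo : HCModule GRd rho V}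
    {w w' : Gd → ℝ} {p : V → ℝ} (hp : IsNormIn Mo w p) {c : ℝ} (hc : 0 < c)
    (hw : ∀ g, w g ≤ c * w' g) : IsNormIn Mo w' p := by
  obtain ⟨E, i1, i2, i3, ι, π, hg, hpi, C, hC, hb⟩ := hp
  refine ⟨E, i1, i2, i3, ι, π, hg, hpi, C * c, mul_pos hC hc, fun g => ?_⟩
  calc ‖π g‖ ≤ C * w g := hb g
    _ ≤ C * (c * w' g) := by gcongr; exact hw g
    _ = C * c * w' g := by ring

theorem dFin_nonneg {V : Type} [AddCommGroup V] [Module ℂ V] {Mo : HCModule GRd rho V}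
    {w : Gd → ℝ} {p : V → ℝ} (hp : IsNormIn Mo w p) (v : V) : 0 ≤ p v := by
  obtain ⟨E, i1, i2, i3, ι, π, hg, hpi, C, hC, hb⟩ := hp
  rw [hpi]; exact norm_nonneg _

theorem dFin_smul {V : Type} [AddCommGroup V] [Module ℂ V] {Mo : HCModule GRd rho V}
    {w : Gd → ℝ} {p : V → ℝ} (hp : IsNormIn Mo w p) (c : ℂ) (v : V) : p (c • v) = ‖c‖ * p v := by
  obtain ⟨E, i1, i2, i3, ι, π, hg, hpi, C, hC, hb⟩ := hp
  rw [hpi, hpi, map_smul, norm_smul]

theorem dFin_growth {c D s : ℝ} (hc : 0 < c) (k : ℕ)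
    (h : ∀ m : ℕ, 1 ≤ m → c * (m : ℝ) ^ (k : ℝ) ≤ D * (m : ℝ) ^ s) : (k : ℝ) ≤ s := by
  by_contra hs
  push Not at hs
  have h1 : Filter.Tendsto (fun m : ℕ => (m : ℝ) ^ ((k : ℝ) - s)) Filter.atTop Filter.atTop :=
    (tendsto_rpow_atTop (by linarith)).comp tendsto_natCast_atTop_atTop
  obtain ⟨N, hN⟩ := (Filter.tendsto_atTop_atTop.1 h1) (D / c + 1)
  have hm := h (N + 1) (by omega)
  have h2 := hN (N + 1) (by omega)
  have hpos : (0 : ℝ) < ((N + 1 : ℕ) : ℝ) := by positivity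
  have h3 : ((N + 1 : ℕ) : ℝ) ^ (k : ℝ) = ((N + 1 : ℕ) : ℝ) ^ ((k : ℝ) - s) * ((N + 1 : ℕ) : ℝ) ^ s := by
    rw [← Real.rpow_add hpos]; congr 1; ring
  rw [h3, ← mul_assoc] at hm
  have h4 : (0 : ℝ) < ((N + 1 : ℕ) : ℝ) ^ s := Real.rpow_pos_of_pos hpos s
  have h5 := le_of_mul_le_mul_right hm h4
  have h6 : c * (D / c + 1) ≤ c * ((N + 1 : ℕ) : ℝ) ^ ((k : ℝ) - s) := by gcongr
  have h7 : c * (D / c + 1) = D + c := by field_simp
  linarith

theorem dFin_dg {I : Type} (c : I → ℂ) (i : I) : dg c (ee i) = c i • ee i := by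
  simp [dg, Finsupp.linearCombination_single]

/-- TARGET -/
theorem d_d2 (h1 : S_unif) (h2 : S_basis) (h3 : S_pow) (h4 : S_AA) (h5 : S_base) (h6 : S_mins)
    (h7 : S_max) (h8 : S_RD) (h9 : S_ND) (h10 : S_ad) (h11 : S_d1) (h12 : S_wD)
    (h13 : S_goodD) : S_d2 := by
  intro h m b hb C
  obtain ⟨p, q, hpq, hP, hQ⟩ := h2.2 m b hb
  have hw₀ : IsWeight (fun g : Gd => Real.sqrt (AA g.2)) := h5.2.2.1.1
  have hpD : IsNormIn (MD.toHC h) (fun g : Gd => Real.sqrt (AA g.2)) pD :=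
    dFin_norm1 (h5.2.2.1.2 h).1
  have hPB : PB sz1 pD := (h5.2.2.1.2 h).2
  obtain ⟨S₀, hS₀, hu⟩ := h1 m b hb _ hw₀
  obtain ⟨T₀, hT₀, hle₀⟩ := hu _ (MD.toHC h) ⟨_, hpD⟩
  obtain ⟨κ, hκ⟩ := exists_nat_gt ((S₀ + C / 2) / 4)
  have hκ' : S₀ + C * (1 / 2) < 4 * (κ : ℝ) := by
    have := (div_lt_iff₀ (by norm_num : (0:ℝ) < 4)).1 hκ
    linarith
  have hAA1 : ∀ g, 1 ≤ AA g := h4.1
  have hpDa : IsNormIn (MD.toHC h) (wD (2 * κ)) pD :=
    dFin_mono hpD one_pos (fun g => by rw [one_mul]; exact le_max_right _ _)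
  have hbdd : ∀ w : Gd → ℝ, BddBelow (gapSet (MD.toHC h) b w) :=
    fun w => ⟨0, fun s hs => hs.1⟩
  have hmem : S₀ ∈ gapSet (MD.toHC h) b (wD (2 * κ)) := by
    refine ⟨hS₀, T₀, hT₀, fun pmin pmax hmin hmax => ?_⟩
    exact hle₀ pmin pmax (h11 _ h _ hmin.1) (h11 _ h _ hmax.1)
  have hup : sobolevGap (MD.toHC h) b (wD (2 * κ)) ≤ S₀ := csInf_le (hbdd _) hmem
  have hw' : IsWeight (twist GRd rho (wD (2 * κ)) (1 / 2)) :=
    h10.2 _ _ (h12 _) (by norm_num)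
  have had1 : ∀ g : Gd, 1 ≤ adNorm GRd rho g := fun g => (h10.1 g).1
  have had : ∀ g : Gd, AA g.2 ≤ 2 * adNorm GRd rho g := fun g => (h10.1 g).2.2
  have hwDpos : ∀ g : Gd, 0 < wD (2 * κ) g := (h12 _).1
  have hwDle : ∀ g : Gd, wD (2 * κ) g ≤ twist GRd rho (wD (2 * κ)) (1 / 2) g := by
    intro g
    unfold twist
    have : (1 : ℝ) ≤ adNorm GRd rho g ^ (1 / 2 : ℝ) := Real.one_le_rpow (had1 g) (by norm_num)
    nlinarith [hwDpos g]
  have hpD' : IsNormIn (MD.toHC h) (twist GRd rho (wD (2 * κ)) (1 / 2)) pD :=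
    dFin_mono hpDa one_pos (fun g => by rw [one_mul]; exact hwDle g)
  have hne' : (gapSet (MD.toHC h) b (twist GRd rho (wD (2 * κ)) (1 / 2))).Nonempty := by
    obtain ⟨S', hS', hu'⟩ := h1 m b hb _ hw'
    obtain ⟨T', hT', hle'⟩ := hu' _ (MD.toHC h) ⟨_, hpD'⟩
    exact ⟨S', hS', T', hT', fun pmin pmax hmin hmax => hle' _ _ hmin.1 hmax.1⟩
  refine ⟨2 * κ, ⟨_, hpDa⟩, ⟨S₀, hmem⟩, hne', ?_⟩
  have hkey : ∀ g : Gd, AA g.1 ^ (2 * κ) * Real.sqrt (AA g.2) ≤
      Real.sqrt 2 * twist GRd rho (wD (2 * κ)) (1 / 2) g := by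
    intro g
    unfold twist
    have e1 : AA g.1 ^ (2 * κ) ≤ wD (2 * κ) g := le_max_left _ _
    have e2 : Real.sqrt (AA g.2) ≤ Real.sqrt 2 * adNorm GRd rho g ^ (1 / 2 : ℝ) := by
      rw [← Real.sqrt_eq_rpow, ← Real.sqrt_mul (by norm_num)]
      exact Real.sqrt_le_sqrt (had g)
    calc AA g.1 ^ (2 * κ) * Real.sqrt (AA g.2)
        ≤ wD (2 * κ) g * (Real.sqrt 2 * adNorm GRd rho g ^ (1 / 2 : ℝ)) :=
          mul_le_mul e1 e2 (Real.sqrt_nonneg _) (hwDpos g).le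
      _ = _ := by ring
  have hs2 : 0 < Real.sqrt 2 := Real.sqrt_pos.2 (by norm_num)
  obtain ⟨r, hr, c', hc', hrm⟩ := h8 κ h
  have hr' : IsNormIn (MD.toHC h) (twist GRd rho (wD (2 * κ)) (1 / 2)) r :=
    dFin_mono hr hs2 hkey
  have hminN := (h6 _ hw').2.2 h ⟨_, hpD'⟩
  obtain ⟨pmax, hmaxN⟩ := h7 _ MD h sz1 h13.2 _ _ hw₀ hw' pD hpD hPB ⟨_, hpD'⟩
  obtain ⟨C₃, hC₃⟩ := h9 (2 * κ) (twist GRd rho (wD (2 * κ)) (1 / 2)) (1 / Real.sqrt 2)
    (by positivity) (fun g => by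
      rw [div_mul_eq_mul_div, one_mul, div_le_iff₀ hs2, mul_comm _ (Real.sqrt 2)]
      exact hkey g)
  have hlow : ∀ s ∈ gapSet (MD.toHC h) b (twist GRd rho (wD (2 * κ)) (1 / 2)),
      4 * (κ : ℝ) ≤ s := by
    rintro s ⟨hs0, T, hT, hgap⟩
    obtain ⟨C₁, hC₁⟩ := hgap _ _ hminN hmaxN
    obtain ⟨C₂, hC₂⟩ := hmaxN.2 r hr'
    set pmin := famNorm (twist GRd rho (wD (2 * κ)) (1 / 2)) (fun _ : Unit => Fin 2 → ℂ)
      (fun _ => FD 0) with hpmin
    have hTdg := ((h3 _ MD h m b p q hpq).2 s T).1 hT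
    set B : ℝ := ∑ l, (2 * |p l| + |q l|) ^ 2 with hB
    have hBnn : 0 ≤ B := Finset.sum_nonneg fun l _ => sq_nonneg _
    have heig : ∀ n : ℕ, 1 ≤ n → 1 + eig MD p q ((n : ℤ), 0) ≤ (1 + B) * (n : ℝ) ^ 2 := by
      intro n hn
      have hn' : (1 : ℝ) ≤ n := by exact_mod_cast hn
      have : eig MD p q ((n : ℤ), 0) ≤ B * (n : ℝ) ^ 2 := by
        unfold eig
        rw [hB, Finset.sum_mul]
        apply Finset.sum_le_sum
        intro l _
        rw [← mul_pow]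
        apply sq_le_sq.2
        have e1 : (MD.μ ((n : ℤ), (0 : Fin 2)) : ℝ) = 2 * n := by simp [MD]
        have e2 : (MD.ν ((n : ℤ), (0 : Fin 2)) : ℝ) = -1 := by simp [MD]
        rw [e1, e2]
        have hnn : 0 ≤ (2 * |p l| + |q l|) * (n : ℝ) := by positivity
        rw [abs_of_nonneg hnn]
        calc |p l * (2 * (n : ℝ)) + q l * (-1)| ≤ |p l * (2 * (n : ℝ))| + |q l * (-1)| := abs_add_le _ _
          _ = |p l| * (2 * n) + |q l| := by
              rw [abs_mul (p l), abs_mul (q l), abs_neg, abs_one, mul_one,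
                abs_of_nonneg (by positivity : (0 : ℝ) ≤ 2 * n)]
          _ ≤ (2 * |p l| + |q l|) * n := by nlinarith [abs_nonneg (q l)]
      nlinarith [sq_nonneg ((n : ℝ) - 1)]
    have heig0 : ∀ i, 0 ≤ eig MD p q i := fun i => Finset.sum_nonneg fun l _ => sq_nonneg _
    have hmain : ∀ n : ℕ, 1 ≤ n →
        c' * (n : ℝ) ^ (((4 * κ : ℕ)) : ℝ) ≤ (|C₂| * (|C₁| * ((1 + B) ^ (s / 2) * |C₃|))) * (n : ℝ) ^ s := by
      intro n hn
      have hn' : (1 : ℝ) ≤ n := by exact_mod_cast hn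
      have hn0 : (0 : ℝ) < n := by linarith
      have a1 : c' * (1 + ((n : ℤ) : ℝ) ^ 2) ^ κ ≤ r (ee ((n : ℤ), 0)) := hrm n
      have a2 : r (ee ((n : ℤ), 0)) ≤ |C₂| * pmax (ee ((n : ℤ), 0)) :=
        (hC₂ _).trans (mul_le_mul_of_nonneg_right (le_abs_self _) (dFin_nonneg hmaxN.1 _))
      have a3 : pmax (ee ((n : ℤ), 0)) ≤ |C₁| * pmin (T (ee ((n : ℤ), 0))) :=
        (hC₁ _).trans (mul_le_mul_of_nonneg_right (le_abs_self _) (dFin_nonneg hminN.1 _))
      have a4 : pmin (T (ee ((n : ℤ), 0))) =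
          (1 + eig MD p q ((n : ℤ), 0)) ^ (s / 2) * pmin (ee ((n : ℤ), 0)) := by
        rw [hTdg, dFin_dg, dFin_smul hminN.1, Complex.norm_real, Real.norm_eq_abs,
          abs_of_nonneg (Real.rpow_nonneg (by linarith [heig0 ((n : ℤ), 0)]) _)]
      have a5 : (1 + eig MD p q ((n : ℤ), 0)) ^ (s / 2) ≤ (1 + B) ^ (s / 2) * (n : ℝ) ^ s := by
        calc (1 + eig MD p q ((n : ℤ), 0)) ^ (s / 2) ≤ ((1 + B) * (n : ℝ) ^ 2) ^ (s / 2) :=
              Real.rpow_le_rpow (by linarith [heig0 ((n : ℤ), 0)]) (heig n hn) (by linarith)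
          _ = (1 + B) ^ (s / 2) * (n : ℝ) ^ s := by
              rw [Real.mul_rpow (by linarith) (by positivity), ← Real.rpow_natCast,
                ← Real.rpow_mul hn0.le]
              congr 2
              push_cast
              ring
      have a6 : pmin (ee ((n : ℤ), 0)) * (n : ℝ) ^ (2 * κ) ≤ |C₃| := by
        have := hC₃ (n : ℤ)
        refine le_trans ?_ (this.trans (le_abs_self _))
        refine mul_le_mul_of_nonneg_left ?_ (dFin_nonneg hminN.1 _)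
        refine pow_le_pow_left₀ hn0.le ?_ _
        rw [Int.cast_natCast, abs_of_pos hn0]
        linarith
      have a7 : c' * (n : ℝ) ^ (2 * κ) ≤ r (ee ((n : ℤ), 0)) := by
        refine le_trans ?_ a1
        rw [pow_mul]
        gcongr
        push_cast
        linarith
      have b1 : r (ee ((n : ℤ), 0)) ≤
          |C₂| * (|C₁| * ((1 + B) ^ (s / 2) * (n : ℝ) ^ s * pmin (ee ((n : ℤ), 0)))) := by
        refine a2.trans (mul_le_mul_of_nonneg_left (a3.trans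
          (mul_le_mul_of_nonneg_left ?_ (abs_nonneg _))) (abs_nonneg _))
        rw [a4]
        exact mul_le_mul_of_nonneg_right a5 (dFin_nonneg hminN.1 _)
      have b2 : c' * (n : ℝ) ^ (((4 * κ : ℕ)) : ℝ) = (c' * (n : ℝ) ^ (2 * κ)) * (n : ℝ) ^ (2 * κ) := by
        rw [Real.rpow_natCast, mul_assoc, ← pow_add]
        congr 2
        ring
      rw [b2]
      have b3 : 0 ≤ (n : ℝ) ^ (2 * κ) := by positivity
      have b4 : 0 ≤ (1 + B) ^ (s / 2) := Real.rpow_nonneg (by linarith) _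
      calc (c' * (n : ℝ) ^ (2 * κ)) * (n : ℝ) ^ (2 * κ)
          ≤ (|C₂| * (|C₁| * ((1 + B) ^ (s / 2) * (n : ℝ) ^ s * pmin (ee ((n : ℤ), 0))))) *
              (n : ℝ) ^ (2 * κ) := mul_le_mul_of_nonneg_right (a7.trans b1) b3
        _ = |C₂| * (|C₁| * ((1 + B) ^ (s / 2) * (n : ℝ) ^ s *
              (pmin (ee ((n : ℤ), 0)) * (n : ℝ) ^ (2 * κ)))) := by ring
        _ ≤ |C₂| * (|C₁| * ((1 + B) ^ (s / 2) * (n : ℝ) ^ s * |C₃|)) := by
            have : 0 ≤ (n : ℝ) ^ s := Real.rpow_nonneg hn0.le _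
            gcongr
        _ = _ := by ring
    have := dFin_growth hc' (4 * κ) hmain
    push_cast at this
    exact this
  have hlow' : 4 * (κ : ℝ) ≤ sobolevGap (MD.toHC h) b (twist GRd rho (wD (2 * κ)) (1 / 2)) :=
    le_csInf hne' hlow
  linarith

end Pool.Agent.H913.LG

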