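import Mathlib
import Pool.Agent.H913.SGP.Definitions

/-! Common infrastructure: the group `GL(2,ℝ)⁺ × GL(2,ℝ)⁺`, its action on pairs of points of the closed
unit disc, modules spanned by weight vectors, families. -/

open Matrix NormedSpace
open scoped Matrix ComplexConjugate

namespace Pool.Agent.H913.LG

open Pool.Agent.H913.SGP

/-- real `2 × 2` matrices -/
abbrev Mat2 := Matrix (Fin 2) (Fin 2) ℝ

/-- `GL(2,ℝ)⁺` -/
noncomputable abbrev Gp := Matrix.GLPos (Fin 2) ℝ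

/-- the group -/
noncomputable abbrev Gd := Gp × Gp

/-- the matrix of an element of `GL(2,ℝ)⁺` -/
noncomputable abbrev mt (g : Gp) : Mat2 := ((g : GL (Fin 2) ℝ) : Mat2)

/-- block diagonal matrices -/
def blkHom : Mat2 × Mat2 →* Mat 4 where
  toFun := fun p => Matrix.reindex (finSumFinEquiv (m := 2) (n := 2)) (finSumFinEquiv (m := 2) (n := 2))
    (Matrix.fromBlocks p.1 0 0 p.2)
  map_one' := by
    simp [Matrix.fromBlocks_one]
  map_mul' := by
    intro p q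
    simp only [Prod.fst_mul, Prod.snd_mul, Matrix.reindex_apply]
    rw [Matrix.submatrix_mul_equiv, Matrix.fromBlocks_multiply]
    simp

/-- block diagonal embedding of the units -/
def blkU : (GL (Fin 2) ℝ × GL (Fin 2) ℝ) →* GL (Fin 4) ℝ :=
  (Units.map blkHom).comp (MulEquiv.prodUnits.symm : (GL (Fin 2) ℝ × GL (Fin 2) ℝ) ≃* (Mat2 × Mat2)ˣ).toMonoidHom

/-- the homomorphism from `Gd` to `GL(4,ℝ)` -/
noncomputable def rho : Gd →* GL (Fin 4) ℝ :=
  blkU.comp (MonoidHom.prodMap (Matrix.GLPos (Fin 2) ℝ).subtype (Matrix.GLPos (Fin 2) ℝ).subtype)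

/-- the block diagonal matrices in `GL(4,ℝ)` -/
def GRd : Subgroup (GL (Fin 4) ℝ) := blkU.range

/-- upper left block -/
def b1 (X : Mat 4) : Mat2 := X.submatrix (Fin.castAdd 2) (Fin.castAdd 2)

/-- lower right block -/
def b2 (X : Mat 4) : Mat2 := X.submatrix (Fin.natAdd 2) (Fin.natAdd 2)

/-- `X x = al X * z + be X * conj z` for `z = x₀ + i x₁` -/
noncomputable def al (M : Mat2) : ℂ := ⟨(M 0 0 + M 1 1) / 2, (M 1 0 - M 0 1) / 2⟩

/-- `X x = al X * z + be X * conj z` for `z = x₀ + i x₁` -/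
noncomputable def be (M : Mat2) : ℂ := ⟨(M 0 0 - M 1 1) / 2, (M 1 0 + M 0 1) / 2⟩

/-- the action on the closed unit disc -/
noncomputable def mob (M : Mat2) (w : ℂ) : ℂ := (al M * w + be M) / (conj (be M) * w + conj (al M))

/-- `g⁻¹ w` -/
noncomputable def mobI (g : Gp) (w : ℂ) : ℂ := mob (mt g⁻¹) w

/-- `A g = ‖g‖² / det g` -/
noncomputable def AA (g : Gp) : ℝ := (‖al (mt g)‖ + ‖be (mt g)‖) ^ 2 / (mt g).det

/-- rotation by the angle `s` -/
noncomputable def rot (s : ℝ) : Mat2 := !![Real.cos s, -Real.sin s; Real.sin s, Real.cos s]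

/-- infinitesimal rotation -/
def Jm : Mat2 := !![0, -1; 1, 0]

/-- `w ^ m` for `m ≥ 0` and `conj w ^ (-m)` for `m ≤ 0` -/
noncomputable def pw (m : ℤ) (w : ℂ) : ℂ := if 0 ≤ m then w ^ m.toNat else conj w ^ (-m).toNat

/-- A module spanned by weight vectors `e i`, `i ∈ I`, for `K = SO(2) × SO(2)`. -/
structure TMod (I : Type) where
  μ : I → ℤ
  ν : I → ℤ
  A : Mat2 → Mat2 → Module.End ℂ (I →₀ ℂ)

/-- basis vector -/
noncomputable abbrev ee {I : Type} (i : I) : I →₀ ℂ := Finsupp.single i 1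

/-- diagonal operator -/
noncomputable def dg {I : Type} (c : I → ℂ) : Module.End ℂ (I →₀ ℂ) :=
  Finsupp.linearCombination ℂ (fun i => c i • ee i)

/-- action of the torus `K` with angles `s`, `t` -/
noncomputable def TMod.kst {I : Type} (M : TMod I) (s t : ℝ) : Module.End ℂ (I →₀ ℂ) :=
  dg fun i => Complex.exp (-Complex.I * ((M.μ i : ℂ) * s + (M.ν i : ℂ) * t))

/-- the conditions on a module -/
structure TMod.Good {I : Type} (M : TMod I) : Prop where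
  add : ∀ X X' Y Y', M.A (X + X') (Y + Y') = M.A X Y + M.A X' Y'
  smul : ∀ (c : ℝ) X Y, M.A (c • X) (c • Y) = (c : ℂ) • M.A X Y
  br : ∀ X X' Y Y', M.A (X * X' - X' * X) (Y * Y' - Y' * Y) = M.A X Y * M.A X' Y' - M.A X' Y' * M.A X Y
  rot : ∀ s t X Y, M.kst s t * M.A X Y =
    M.A (rot s * X * rot (-s)) (rot t * Y * rot (-t)) * M.kst s t
  J1 : ∀ i, M.A Jm 0 (ee i) = (-Complex.I * (M.μ i : ℂ)) • ee i
  J2 : ∀ i, M.A 0 Jm (ee i) = (-Complex.I * (M.ν i : ℂ)) • ee i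
  fib : ∀ a b : ℤ, {i | M.μ i = a ∧ M.ν i = b}.Finite
  fg : ∃ S : Finset (I →₀ ℂ), ∀ W : Submodule ℂ (I →₀ ℂ),
    (∀ X Y, ∀ v ∈ W, M.A X Y v ∈ W) → (S : Set (I →₀ ℂ)) ⊆ W → W = ⊤

/-- size function controlling the order of the operators -/
structure TMod.Size {I : Type} (M : TMod I) (sz : I → ℕ) : Prop where
  supp : ∀ X Y i, ∀ j ∈ (M.A X Y (ee i)).support, sz j ≤ sz i + 1
  bd : ∀ X Y, ∃ C : ℝ, ∀ i, ((M.A X Y (ee i)).sum fun _ c => ‖c‖) ≤ C * (1 + sz i)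

/-- polynomially bounded seminorms -/
def PB {I : Type} (sz : I → ℕ) (p : (I →₀ ℂ) → ℝ) : Prop :=
  ∃ (C : ℝ) (N : ℕ), ∀ i, p (ee i) ≤ C * (1 + (sz i : ℝ)) ^ N

/-- seminorms -/
structure IsSN {V : Type} [AddCommGroup V] [Module ℂ V] (p : V → ℝ) : Prop where
  nonneg : ∀ v, 0 ≤ p v
  add : ∀ u v, p (u + v) ≤ p u + p v
  smul : ∀ (c : ℂ) v, p (c • v) = ‖c‖ * p v

section Families

variable {V : Type} [AddCommGroup V] [Module ℂ V] (Mo : HCModule GRd rho V)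

/-- Equivariant families of functions on the group: `F a v g` stands for `Λ_a (g v)`. -/
structure IsFam (W : Gd → ℝ) {Ω : Type} (E : Ω → Type) [∀ a, NormedAddCommGroup (E a)]
    [∀ a, NormedSpace ℂ (E a)] (F : ∀ a, V → Gd → E a) : Prop where
  add : ∀ a u v g, F a (u + v) g = F a u g + F a v g
  smul : ∀ a (c : ℂ) v g, F a (c • v) g = c • F a v g
  deriv : ∀ a (X : LieAlg GRd) (γ : ℝ → Gd), IsOneParam rho X.1 γ → ∀ v g,
    HasDerivAt (fun t : ℝ => F a v (g * γ t)) (F a (Mo.a X v) g) 0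
  K : ∀ a (k : maxCompact rho) v g, F a v (g * k.1) = F a (Mo.κ k v) g
  bound : ∀ v, ∃ C : ℝ, ∀ a g, ‖F a v g‖ ≤ C * W g
  inj : ∀ v, (∀ a g, F a v g = 0) → v = 0

/-- the norm of a family -/
noncomputable def famNorm (W : Gd → ℝ) {Ω : Type} (E : Ω → Type) [∀ a, NormedAddCommGroup (E a)]
    (F : ∀ a, V → Gd → E a) (v : V) : ℝ := ⨆ x : Ω × Gd, ‖F x.1 v x.2‖ / W x.2

/-- `p` is realized by a representation with `‖π g‖ ≤ w g` -/
def IsNormIn1 (w : Gd → ℝ) (p : V → ℝ) : Prop :=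
  ∃ (E : Type) (_ : NormedAddCommGroup E) (_ : NormedSpace ℂ E) (_ : CompleteSpace E)
    (ι : V →ₗ[ℂ] E) (π : Gd →* (E →L[ℂ] E)),
    IsGlobalization Mo ι π ∧ (∀ v, p v = ‖ι v‖) ∧ ∀ g, ‖π g‖ ≤ w g

/-- The Taylor series of the vectors converge for the norm `p`, with a uniform radius. -/
def Taylor (p : V → ℝ) : Prop :=
  ∀ X : LieAlg GRd, ∃ t₀ > 0, ∀ v, Summable fun n : ℕ => t₀ ^ n / (n.factorial : ℝ) * p ((Mo.a X ^ n) v)

/-- `K`-finite vectors of any completion are in `V` -/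
def KFin : Prop :=
  ∀ (E : Type) [NormedAddCommGroup E] [NormedSpace ℂ E] [CompleteSpace E] (ι : V →ₗ[ℂ] E)
    (π : Gd →* (E →L[ℂ] E)), Function.Injective ι → DenseRange ι → (∀ x, Continuous fun g => π g x) →
    (∀ (k : maxCompact rho) v, π k.1 (ι v) = ι (Mo.κ k v)) →
    ∀ x : E, FiniteDimensional ℂ (Submodule.span ℂ (Set.range fun k : maxCompact rho => π k.1 x)) →
      x ∈ Set.range ι

end Families

end Pool.Agent.H913.LG
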