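import Pool.Agent.H913.LG.Stmts2

open Matrix NormedSpace
open scoped Matrix ComplexConjugate

namespace Pool.Agent.H913.LG

open Pool.Agent.H913.SGP Pool.Agent.H913.LGP

/-! Proof. -/

theorem eB1_al_one : al (1 : Mat2) = 1 := by
  unfold al
  apply Complex.ext <;> simp

theorem eB1_be_one : be (1 : Mat2) = 0 := by
  unfold be
  apply Complex.ext <;> simp

theorem eB1_mt_one : mt (1 : Gp) = 1 := by
  simp [mt]

theorem eB1_AA_one : AA 1 = 1 := by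
  unfold AA
  rw [eB1_mt_one, eB1_al_one, eB1_be_one]
  simp

theorem eB1_mobI_one (x : ℂ) : mobI 1 x = x := by
  unfold mobI mob
  rw [inv_one, eB1_mt_one, eB1_al_one, eB1_be_one]
  simp

theorem eB1_wA_one : wA 1 = 1 := by
  unfold wA
  rw [Prod.fst_one, eB1_AA_one]
  simp

theorem eB1_F0 (w : ℂ) (v : ℤ →₀ ℂ) (g : Gd) : F0 w v g = F0 (mobI g.1 w) v 1 := by
  unfold F0
  rw [Prod.fst_one, eB1_mobI_one]

theorem eB1_inj (h1 : S_AA) (g : Gp) {x y : ℂ} (hx : ‖x‖ ≤ 1) (hy : ‖y‖ ≤ 1)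
    (h : mobI g x = mobI g y) : x = y := by
  have h2 := h1.2.2.2.2.2.2.2.2.1 g g⁻¹ x hx
  have h3 := h1.2.2.2.2.2.2.2.2.1 g g⁻¹ y hy
  rw [mul_inv_cancel, eB1_mobI_one] at h2 h3
  rw [h2, h3, h]

theorem eB1_wA_ge (h1 : S_AA) (g : Gd) : 1 ≤ wA g := by
  unfold wA
  have := Real.log_nonneg (h1.1 g.1)
  linarith

theorem eB1_pow (k : ℕ) (x y : ℂ) (hx : ‖x‖ ≤ 1) (hy : ‖y‖ ≤ 1) :
    ‖x ^ k - y ^ k‖ ≤ k * ‖x - y‖ := by
  induction k with
  | zero => simp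
  | succ k ih =>
    have : x ^ (k + 1) - y ^ (k + 1) = x ^ k * (x - y) + (x ^ k - y ^ k) * y := by ring
    rw [this]
    calc ‖x ^ k * (x - y) + (x ^ k - y ^ k) * y‖ ≤ ‖x ^ k * (x - y)‖ + ‖(x ^ k - y ^ k) * y‖ :=
          norm_add_le _ _
      _ ≤ 1 * ‖x - y‖ + (k * ‖x - y‖) * 1 := by
          rw [norm_mul, norm_mul, norm_pow]
          gcongr
          · exact pow_le_one₀ (norm_nonneg _) hx
      _ = ((k + 1 : ℕ) : ℝ) * ‖x - y‖ := by push_cast; ring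

theorem eB1_pw (m : ℤ) (x y : ℂ) (hx : ‖x‖ ≤ 1) (hy : ‖y‖ ≤ 1) :
    ‖pw m x - pw m y‖ ≤ |(m : ℝ)| * ‖x - y‖ := by
  unfold pw
  split_ifs with h
  · refine (eB1_pow _ x y hx hy).trans (le_of_eq ?_)
    congr 1
    rw [abs_of_nonneg (by exact_mod_cast h)]
    exact_mod_cast Int.toNat_of_nonneg h
  · refine (eB1_pow _ (conj x) (conj y) (by simpa using hx) (by simpa using hy)).trans
      (le_of_eq ?_)
    rw [← map_sub, RCLike.norm_conj]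
    congr 1
    rw [abs_of_nonpos (by exact_mod_cast (not_le.1 h).le)]
    have : ((-m).toNat : ℤ) = -m := Int.toNat_of_nonneg (by omega)
    exact_mod_cast this

/-- the constants -/
noncomputable def eB1_C (v : ℤ →₀ ℂ) : ℝ := v.sum fun m c => (1 + |(m : ℝ)|) * ‖c‖

theorem eB1_sum_le (v : ℤ →₀ ℂ) : (v.sum fun _ c => ‖c‖) ≤ eB1_C v := by
  unfold eB1_C Finsupp.sum
  apply Finset.sum_le_sum
  intro m _
  have := abs_nonneg (m : ℝ)
  have := norm_nonneg (v m)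
  nlinarith

theorem eB1_C_nonneg (v : ℤ →₀ ℂ) : 0 ≤ eB1_C v := by
  unfold eB1_C Finsupp.sum
  apply Finset.sum_nonneg
  intro m _
  positivity

theorem eB1_lip (v : ℤ →₀ ℂ) (x y : ℂ) (hx : ‖x‖ ≤ 1) (hy : ‖y‖ ≤ 1) :
    ‖F0 x v 1 - F0 y v 1‖ ≤ eB1_C v * ‖x - y‖ := by
  unfold F0 eB1_C Finsupp.sum
  rw [← Finset.sum_sub_distrib, Finset.sum_mul]
  refine (norm_sum_le _ _).trans (Finset.sum_le_sum ?_)
  intro m _
  rw [Prod.fst_one, eB1_mobI_one, eB1_mobI_one, ← mul_sub, norm_mul]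
  have h := eB1_pw m x y hx hy
  have h2 := norm_nonneg (v m)
  have h3 := norm_nonneg (x - y)
  calc ‖v m‖ * ‖pw m x - pw m y‖ ≤ ‖v m‖ * (|(m : ℝ)| * ‖x - y‖) := by gcongr
    _ ≤ (1 + |(m : ℝ)|) * ‖v m‖ * ‖x - y‖ := by nlinarith [mul_nonneg h2 h3]

theorem eB1_ell_nonneg (x y : ℂ) (hx : ‖x‖ ≤ 1) (hy : ‖y‖ ≤ 1) : 0 ≤ ell x y := by
  unfold ell
  split_ifs with h
  · exact le_rfl
  · apply Real.log_nonneg
    have h0 : 0 < ‖x - y‖ := norm_pos_iff.2 (sub_ne_zero.2 h)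
    rw [le_div_iff₀ h0, one_mul]
    have h2 : ‖x - y‖ ≤ 2 := (norm_sub_le x y).trans (by linarith)
    have h3 : 1 ≤ Real.exp 1 := Real.one_le_exp (by norm_num)
    linarith

theorem eB1_ell_mul (x y : ℂ) : ell x y * ‖x - y‖ ≤ 2 * Real.exp 1 := by
  unfold ell
  split_ifs with h
  · rw [zero_mul]; positivity
  · have h0 : 0 < ‖x - y‖ := norm_pos_iff.2 (sub_ne_zero.2 h)
    have h1 : Real.log (2 * Real.exp 1 / ‖x - y‖) ≤ 2 * Real.exp 1 / ‖x - y‖ :=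
      Real.log_le_self (by positivity)
    calc _ ≤ 2 * Real.exp 1 / ‖x - y‖ * ‖x - y‖ := by gcongr
      _ = 2 * Real.exp 1 := by field_simp

theorem eB1_ell_le (h1 : S_AA) (g : Gp) (x y : ℂ) (hx : ‖x‖ = 1) (hy : ‖y‖ = 1) (hxy : x ≠ y) :
    ell x y ≤ ell (mobI g x) (mobI g y) + Real.log (AA g) := by
  have hne : mobI g x ≠ mobI g y := fun h => hxy (eB1_inj h1 g hx.le hy.le h)
  have h0 : 0 < ‖x - y‖ := norm_pos_iff.2 (sub_ne_zero.2 hxy)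
  have h0' : 0 < ‖mobI g x - mobI g y‖ := norm_pos_iff.2 (sub_ne_zero.2 hne)
  have hA : 0 < AA g := lt_of_lt_of_le one_pos (h1.1 g)
  have hl := h1.2.2.2.2.2.2.1 g x y hx hy
  unfold ell
  rw [if_neg hxy, if_neg hne, ← Real.log_mul (by positivity) hA.ne']
  apply Real.log_le_log (by positivity)
  rw [div_mul_eq_mul_div, div_le_div_iff₀ h0 h0']
  have : 0 < Real.exp 1 := Real.exp_pos 1
  nlinarith

/-- the basic inequality -/
theorem eB1_main (h1 : S_AA) (v : ℤ →₀ ℂ) (K P : ℝ)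
    (hK : ∀ x y : ℂ, ‖x‖ = 1 → ‖y‖ = 1 → ell x y * ‖F0 x v 1 - F0 y v 1‖ ≤ K)
    (hP : ∀ x : ℂ, ‖x‖ = 1 → ‖F0 x v 1‖ ≤ P) (x y : ℂ) (hx : ‖x‖ = 1) (hy : ‖y‖ = 1) (g : Gd) :
    ell x y * ‖F0 x v g - F0 y v g‖ ≤ (K + 2 * P) * wA g := by
  have hK0 : 0 ≤ K := by
    have := hK 1 1 (by simp) (by simp)
    simpa [ell] using this
  have hP0 : 0 ≤ P := (norm_nonneg _).trans (hP 1 (by simp))
  have hw := eB1_wA_ge h1 g
  have hlog : 0 ≤ Real.log (AA g.1) := Real.log_nonneg (h1.1 g.1)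
  by_cases hxy : x = y
  · subst hxy
    simp only [sub_self, norm_zero, mul_zero]
    positivity
  · have hx' := h1.2.2.2.2.2.2.2.2.2.2 g.1 x hx
    have hy' := h1.2.2.2.2.2.2.2.2.2.2 g.1 y hy
    rw [eB1_F0 x, eB1_F0 y]
    have h2 := eB1_ell_le h1 g.1 x y hx hy hxy
    have h3 := hK _ _ hx' hy'
    have h4 : ‖F0 (mobI g.1 x) v 1 - F0 (mobI g.1 y) v 1‖ ≤ 2 * P := by
      refine (norm_sub_le _ _).trans ?_
      have := hP _ hx'
      have := hP _ hy'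
      linarith
    calc _ ≤ (ell (mobI g.1 x) (mobI g.1 y) + Real.log (AA g.1)) *
          ‖F0 (mobI g.1 x) v 1 - F0 (mobI g.1 y) v 1‖ := by gcongr
      _ ≤ K + Real.log (AA g.1) * (2 * P) := by
          rw [add_mul]
          gcongr
      _ ≤ (K + 2 * P) * wA g := by
          unfold wA
          nlinarith [mul_nonneg hK0 hlog]

theorem eB1_Fq_le (h1 : S_AA) (h6 : S_bd) (v : ℤ →₀ ℂ) (a : Sc ⊕ (Sc × Sc)) (g : Gd) :
    ‖Fq a v g‖ ≤ ((2 * Real.exp 1 + 2) * eB1_C v) * wA g := by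
  have hC := eB1_C_nonneg v
  have hw := eB1_wA_ge h1 g
  have he : 0 < Real.exp 1 := Real.exp_pos 1
  rcases a with w | ⟨x, y⟩
  · have h2 : ‖F0 w.1 v g‖ ≤ eB1_C v := (h6.1 w.1 v g w.2.le).trans (eB1_sum_le v)
    have h3 : Fq (Sum.inl w) v g = F0 w.1 v g := rfl
    rw [h3]
    calc ‖F0 w.1 v g‖ ≤ eB1_C v := h2
      _ ≤ ((2 * Real.exp 1 + 2) * eB1_C v) * 1 := by nlinarith [mul_nonneg he.le hC]
      _ ≤ _ := by gcongr
  · have h3 : Fq (Sum.inr (x, y)) v g = (ell x.1 y.1 : ℂ) * (F0 x.1 v g - F0 y.1 v g) := rfl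
    rw [h3, norm_mul, Complex.norm_real, Real.norm_eq_abs,
      abs_of_nonneg (eB1_ell_nonneg _ _ x.2.le y.2.le)]
    have h4 := eB1_main h1 v (2 * Real.exp 1 * eB1_C v) (eB1_C v) ?_ ?_ x.1 y.1 x.2 y.2 g
    · refine h4.trans (le_of_eq ?_)
      ring
    · intro x y hx hy
      calc _ ≤ ell x y * (eB1_C v * ‖x - y‖) := by
            apply mul_le_mul_of_nonneg_left (eB1_lip v x y hx.le hy.le)
              (eB1_ell_nonneg _ _ hx.le hy.le)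
        _ = eB1_C v * (ell x y * ‖x - y‖) := by ring
        _ ≤ eB1_C v * (2 * Real.exp 1) := by
            apply mul_le_mul_of_nonneg_left (eB1_ell_mul x y) hC
        _ = _ := by ring
    · intro x hx
      exact (h6.1 x v 1 hx.le).trans (eB1_sum_le v)

theorem eB1_bdd (h1 : S_AA) (h6 : S_bd) (v : ℤ →₀ ℂ) :
    BddAbove (Set.range fun x : (Sc ⊕ (Sc × Sc)) × Gd => ‖Fq x.1 v x.2‖ / wA x.2) := by
  refine ⟨(2 * Real.exp 1 + 2) * eB1_C v, ?_⟩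
  rintro _ ⟨x, rfl⟩
  simp only
  have hw := eB1_wA_ge h1 x.2
  rw [div_le_iff₀ (by linarith)]
  exact eB1_Fq_le h1 h6 v x.1 x.2

theorem eB1_qn_le (h1 : S_AA) (h6 : S_bd) (v : ℤ →₀ ℂ) :
    qn v ≤ (2 * Real.exp 1 + 2) * eB1_C v := by
  unfold qn famNorm
  have : Nonempty Sc := ⟨⟨1, by simp⟩⟩
  apply ciSup_le
  intro x
  have hw := eB1_wA_ge h1 x.2
  rw [div_le_iff₀ (by linarith)]
  exact eB1_Fq_le h1 h6 v x.1 x.2

theorem eB1_Fq_add (a : Sc ⊕ (Sc × Sc)) (u v : ℤ →₀ ℂ) (g : Gd) (h : M0.Good) (h5 : S_pre0) :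
    Fq a (u + v) g = Fq a u g + Fq a v g := by
  rcases a with w | ⟨x, y⟩
  · exact (h5 h w.1 w.2.le).add u v g
  · have e1 := (h5 h x.1 x.2.le).add u v g
    have e2 := (h5 h y.1 y.2.le).add u v g
    simp only [Fq, Sum.elim_inr]
    rw [e1, e2]
    ring

theorem eB1_Fq_smul (a : Sc ⊕ (Sc × Sc)) (c : ℂ) (v : ℤ →₀ ℂ) (g : Gd) (h : M0.Good)
    (h5 : S_pre0) : Fq a (c • v) g = c • Fq a v g := by
  rcases a with w | ⟨x, y⟩
  · exact (h5 h w.1 w.2.le).smul c v g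
  · have e1 := (h5 h x.1 x.2.le).smul c v g
    have e2 := (h5 h y.1 y.2.le).smul c v g
    simp only [Fq, Sum.elim_inr]
    rw [e1, e2]
    simp only [smul_eq_mul]
    ring

theorem eB1_fam (h1 : S_AA) (h5 : S_pre0) (h6 : S_bd) (h7 : S_inj) (h : M0.Good) :
    IsFam (M0.toHC h) wA (fun _ : Sc ⊕ (Sc × Sc) => ℂ) Fq where
  add := fun a u v g => eB1_Fq_add a u v g h h5
  smul := fun a c v g => eB1_Fq_smul a c v g h h5
  deriv := by
    intro a X γ hγ v g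
    rcases a with w | ⟨x, y⟩
    · exact (h5 h w.1 w.2.le).deriv X γ hγ v g
    · have e1 := (h5 h x.1 x.2.le).deriv X γ hγ v g
      have e2 := (h5 h y.1 y.2.le).deriv X γ hγ v g
      exact (e1.sub e2).const_mul (ell x.1 y.1 : ℂ)
  K := by
    intro a k v g
    rcases a with w | ⟨x, y⟩
    · exact (h5 h w.1 w.2.le).K k v g
    · have e1 := (h5 h x.1 x.2.le).K k v g
      have e2 := (h5 h y.1 y.2.le).K k v g
      simp only [Fq, Sum.elim_inr]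
      rw [e1, e2]
  bound := fun v => ⟨_, fun a g => eB1_Fq_le h1 h6 v a g⟩
  inj := by
    intro v hv
    apply h7.1 v
    intro w hw
    exact hv (Sum.inl ⟨w, hw⟩) 1

theorem eB1_isSN (h1 : S_AA) (h5 : S_pre0) (h6 : S_bd) (h : M0.Good) : IsSN qn where
  nonneg := by
    intro v
    unfold qn famNorm
    apply Real.iSup_nonneg
    intro x
    have hw := eB1_wA_ge h1 x.2
    positivity
  add := by
    intro u v
    have : Nonempty Sc := ⟨⟨1, by simp⟩⟩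
    apply ciSup_le
    intro x
    have hw := eB1_wA_ge h1 x.2
    have hu : ‖Fq x.1 u x.2‖ / wA x.2 ≤ qn u := le_ciSup (eB1_bdd h1 h6 u) x
    have hv : ‖Fq x.1 v x.2‖ / wA x.2 ≤ qn v := le_ciSup (eB1_bdd h1 h6 v) x
    rw [eB1_Fq_add x.1 u v x.2 h h5]
    calc _ ≤ (‖Fq x.1 u x.2‖ + ‖Fq x.1 v x.2‖) / wA x.2 := by
          gcongr
          exact norm_add_le _ _
      _ = ‖Fq x.1 u x.2‖ / wA x.2 + ‖Fq x.1 v x.2‖ / wA x.2 := add_div _ _ _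
      _ ≤ _ := add_le_add hu hv
  smul := by
    intro c v
    unfold qn famNorm
    rw [Real.mul_iSup_of_nonneg (norm_nonneg c)]
    congr 1
    funext x
    rw [eB1_Fq_smul x.1 c v x.2 h h5, norm_smul, mul_div_assoc]

theorem eB1_PB (h1 : S_AA) (h6 : S_bd) : PB sz0 qn := by
  refine ⟨2 * Real.exp 1 + 2, 1, ?_⟩
  intro i
  refine (eB1_qn_le h1 h6 _).trans (le_of_eq ?_)
  congr 1
  unfold eB1_C
  rw [Finsupp.sum_single_index (by simp)]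
  have : ((i.natAbs : ℕ) : ℝ) = |(i : ℝ)| := by
    rw [Nat.cast_natAbs]
    simp
  simp [sz0, this]

theorem eB1_normIn {h : M0.Good} {w w' : Gd → ℝ} {p : (ℤ →₀ ℂ) → ℝ}
    (hp : IsNormIn1 (M0.toHC h) w p) (hw : ∀ g, w g ≤ w' g) : IsNormIn (M0.toHC h) w' p := by
  obtain ⟨E, i1, i2, i3, ι, π, hg, hn, hb⟩ := hp
  refine ⟨E, i1, i2, i3, ι, π, hg, hn, 1, one_pos, ?_⟩
  intro g
  rw [one_mul]
  exact (hb g).trans (hw g)

/-- TARGET -/
theorem e_e1 (h1 : S_AA) (h2 : S_tay) (h3 : S_fam) (h4 : S_kfin) (h5 : S_pre0) (h6 : S_bd)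
    (h7 : S_inj) (h8 : S_base) (h9 : S_good0) (h10 : IsWeight wA) : S_e1 := by
  have hne : Nonempty Sc := ⟨⟨1, by simp⟩⟩
  have hbd0 : ∀ v : ℤ →₀ ℂ, BddAbove (Set.range fun x : Sc × Gd => ‖F0 x.1 v x.2‖ / (1 : ℝ)) := by
    intro v
    refine ⟨v.sum fun _ c => ‖c‖, ?_⟩
    rintro _ ⟨x, rfl⟩
    simp only [div_one]
    exact h6.1 x.1 v x.2 x.1.2.le
  refine ⟨h10, ?_, ?_, ?_⟩
  · intro h
    refine ⟨?_, ?_⟩
    · have hT : Taylor (M0.toHC h) (famNorm wA (fun _ : Sc ⊕ (Sc × Sc) => ℂ) Fq) :=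
        h2 ℤ M0 h sz0 h9.2 qn (eB1_isSN h1 h5 h6 h) (eB1_PB h1 h6)
      exact eB1_normIn (h3 _ (M0.toHC h) (h4 ℤ M0 h) wA h10 _ _ Fq (eB1_fam h1 h5 h6 h7 h) hT)
        (fun g => le_rfl)
    · exact eB1_normIn (h8.1.2 h).1 (fun g => eB1_wA_ge h1 g)
  · refine ⟨1, ?_⟩
    intro v
    rw [one_mul]
    apply ciSup_le
    rintro ⟨x, g⟩
    simp only [div_one]
    rw [eB1_F0]
    have hx' := h1.2.2.2.2.2.2.2.2.2.2 g.1 x.1 x.2
    have := le_ciSup (eB1_bdd h1 h6 v) (Sum.inl ⟨_, hx'⟩, 1)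
    simp only [eB1_wA_one, div_one] at this
    exact this
  · intro v K hK
    have hP : ∀ x : ℂ, ‖x‖ = 1 → ‖F0 x v 1‖ ≤ p0 v := by
      intro x hx
      have := le_ciSup (hbd0 v) (⟨x, hx⟩, 1)
      unfold p0 famNorm
      simpa using this
    have hK' : ∀ x y : ℂ, ‖x‖ = 1 → ‖y‖ = 1 → ell x y * ‖F0 x v 1 - F0 y v 1‖ ≤ K :=
      fun x y hx hy => hK ⟨x, hx⟩ ⟨y, hy⟩
    have hK0 : 0 ≤ K := by
      have := hK' 1 1 (by simp) (by simp)
      simpa [ell] using this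
    have hP0 : 0 ≤ p0 v := (norm_nonneg _).trans (hP 1 (by simp))
    apply ciSup_le
    rintro ⟨a, g⟩
    have hw := eB1_wA_ge h1 g
    simp only
    rw [div_le_iff₀ (by linarith)]
    rcases a with w | ⟨x, y⟩
    · have h3 : Fq (Sum.inl w) v g = F0 w.1 v g := rfl
      rw [h3, eB1_F0]
      have hx' := h1.2.2.2.2.2.2.2.2.2.2 g.1 w.1 w.2
      have := hP _ hx'
      nlinarith
    · have h3 : Fq (Sum.inr (x, y)) v g = (ell x.1 y.1 : ℂ) * (F0 x.1 v g - F0 y.1 v g) := rfl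
      rw [h3, norm_mul, Complex.norm_real, Real.norm_eq_abs,
        abs_of_nonneg (eB1_ell_nonneg _ _ x.2.le y.2.le)]
      exact eB1_main h1 v K (p0 v) hK' hP x.1 y.1 x.2 y.2 g

end Pool.Agent.H913.LG
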