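import Pool.Agent.H913.LG.Stmts2

/- PROJECT LG (owner helper913): MP_c67f28_al, MP_d7c545_al, MP_a304db_al, MP_6a3a89_al: norms on Harish-Chandra modules of
G = GL(2,R)+ x GL(2,R)+ (Gd below); common infrastructure.
SETUP (once per box, about 2 minutes):
  cd /workdir/pool/outputs/live && git fetch -q origin && mkdir -p /workdir/pool/Pool/Agent/H913/LG /workdir/pool/Pool/Agent/H913/LGP /workdir/pool/Pool/Agent/H913/SGP && git show origin/helper913:Pool/Agent/H913/LGP/Definitions.lean > /workdir/pool/Pool/Agent/H913/LGP/Definitions.lean && git show origin/main:Pool/Agent/H913/SGP/Definitions.lean > /workdir/pool/Pool/Agent/H913/SGP/Definitions.lean && for f in Defs HCBase HCAux Mod Stmts Stmts2; do git show origin/helper913:Pool/Agent/H913/LG/$f.lean > /workdir/pool/Pool/Agent/H913/LG/$f.lean; done; cd /workdir/pool && lake build Pool.Agent.H913.LG.Stmts2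
(ignore the sorry warnings of HCBase and HCAux: these are other jobs.) Read Defs, HCBase, Mod, Stmts, Stmts2 first (short).
Put this file at Pool/Agent/H913/LG/EB2.lean, replace the sorry of the TARGET by a proof; auxiliary lemmas before it are
welcome (give them names starting with eB2_ to avoid clashes). Statement of the target unchanged. Hypotheses (h1 : S_xxx) of the
target are proved elsewhere, use them freely. No sorry, no axioms. Respect RULES.md Validity 2 (banned words such as notation,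
macro, syntax, prefix, tactic; no straight double quotes; no line comment starting in odd places).
If the target is false or awkward, message helper913 at once (the statement will be fixed).
Paste the whole compiled file in jobs.result with status='done', done_at=now(), then: team-sql notify inbox_helper913 done -/

open Matrix NormedSpace
open scoped Matrix ComplexConjugate

namespace Pool.Agent.H913.LG

open Pool.Agent.H913.SGP Pool.Agent.H913.LGP

/-! Proof. p0 v = sup over the unit circle of |F0 x v 1|, F0 x v 1 = ∑ v m x^m (mobI g.1 x ranges over the circle, mobI 1 x = x; S_AA; bounded above by ∑|v m|). f(θ) = ∑ v m e^{imθ} smooth 2π-periodic, f' corresponds to i m v m, f'' to -m² v m.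
(1) u = μ f - α f''. Let θ₀ be a maximum point of |f|, c unimodular with c f(θ₀) = |f(θ₀)|; Re(c f) has a maximum at θ₀, so Re(c f'')(θ₀) ≤ 0 and Re(c u)(θ₀) ≥ μ |f(θ₀)|.
(2) Landau: |f'(θ)| ≤ 2‖f‖/t + t‖f''‖/2 for every t > 0 (Taylor inequality f(θ+t) = f(θ) + t f'(θ) + O(t²/2 ‖f''‖)), choose t = 2 sqrt(‖f‖/‖f''‖) if ‖f''‖ > 0; if ‖f''‖ = 0 let t → ∞ (f' = 0). So |f'|² ≤ 4 ‖f‖‖f''‖.
(3) x = e^{iθ}, y = e^{iη}, |θ-η| ≤ π: |f(θ)-f(η)| ≤ |θ-η| ‖f'‖ and |θ-η| ≤ (π/2)|x-y| ≤ 2|x-y|. -/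

theorem eB2_log_aux {φ φ' : ℝ → ℝ} {x d : ℝ} (h : ∀ y, HasDerivAt φ (φ' y) y)
    (h' : HasDerivAt φ' d x) (hmax : ∀ y, φ y ≤ φ x) : d ≤ 0 := by
  by_contra hd
  have hd' : 0 < d := not_le.1 hd
  have e1 : deriv φ = φ' := funext fun y => (h y).deriv
  have hlm : IsLocalMax φ x := Filter.Eventually.of_forall hmax
  have h0 : φ' x = 0 := hlm.hasDerivAt_eq_zero (h x)
  have hmin : IsLocalMin φ x := isLocalMin_of_deriv_deriv_pos (by rw [e1, h'.deriv]; exact hd')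
    (by rw [e1, h0]) (h x).continuousAt
  have hev : φ =ᶠ[nhds x] fun _ => φ x := by
    filter_upwards [hmin] with y hy
    exact le_antisymm (hmax y) hy
  have h2 := hev.deriv.deriv_eq
  rw [e1, h'.deriv] at h2
  simp at h2
  exact hd'.ne' h2

/-- pairing of a finitely supported function with a function -/
noncomputable def eB2_G (φ : ℤ → ℂ) (v : ℤ →₀ ℂ) : ℂ := v.sum fun m a => a * φ m

theorem eB2_G_add (φ : ℤ → ℂ) (u v : ℤ →₀ ℂ) : eB2_G φ (u + v) = eB2_G φ u + eB2_G φ v := by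
  unfold eB2_G
  exact Finsupp.sum_add_index' (fun _ => zero_mul _) (fun _ _ _ => add_mul _ _ _)

theorem eB2_dg_single (c : ℤ → ℂ) (m : ℤ) (a : ℂ) :
    dg c (Finsupp.single m a) = Finsupp.single m (a * c m) := by
  unfold dg
  rw [Finsupp.linearCombination_single, smul_smul, Finsupp.smul_single, smul_eq_mul, mul_one]

theorem eB2_G_dg (φ c : ℤ → ℂ) (v : ℤ →₀ ℂ) :
    eB2_G φ (dg c v) = eB2_G (fun m => c m * φ m) v := by
  induction v using Finsupp.induction_linear with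
  | zero => rw [map_zero]; simp [eB2_G]
  | add u v hu hv => rw [map_add, eB2_G_add, eB2_G_add, hu, hv]
  | single m a =>
    rw [eB2_dg_single]
    unfold eB2_G
    rw [Finsupp.sum_single_index (by simp), Finsupp.sum_single_index (by simp)]
    ring

/-- the function on the circle -/
noncomputable def eB2_f (v : ℤ →₀ ℂ) (θ : ℝ) : ℂ :=
  eB2_G (fun m => Complex.exp ((m : ℂ) * θ * Complex.I)) v

theorem eB2_f_dg (c : ℤ → ℂ) (v : ℤ →₀ ℂ) (θ : ℝ) :
    eB2_f (dg c v) θ = eB2_G (fun m => c m * Complex.exp ((m : ℂ) * θ * Complex.I)) v :=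
  eB2_G_dg _ _ _

theorem eB2_deriv (v : ℤ →₀ ℂ) (θ : ℝ) : HasDerivAt (eB2_f v)
    (Complex.I * eB2_f (dg (fun m : ℤ => (m : ℂ)) v) θ) θ := by
  rw [eB2_f_dg]
  have h1 : eB2_f v = fun θ : ℝ => ∑ m ∈ v.support, v m * Complex.exp ((m : ℂ) * θ * Complex.I) := rfl
  have h2 : Complex.I * eB2_G (fun m : ℤ => (m : ℂ) * Complex.exp ((m : ℂ) * θ * Complex.I)) v =
      ∑ m ∈ v.support, v m * (Complex.exp ((m : ℂ) * θ * Complex.I) * ((m : ℂ) * Complex.I)) := by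
    unfold eB2_G Finsupp.sum
    rw [Finset.mul_sum]
    refine Finset.sum_congr rfl fun m _ => ?_
    ring
  rw [h1, h2]
  refine HasDerivAt.fun_sum fun m _ => ?_
  refine HasDerivAt.const_mul _ ?_
  have h3 : HasDerivAt (fun θ : ℝ => (m : ℂ) * θ * Complex.I) ((m : ℂ) * Complex.I) θ := by
    have := ((Complex.ofRealCLM.hasDerivAt (x := θ)).const_mul (m : ℂ)).mul_const Complex.I
    simpa using this
  exact h3.cexp

theorem eB2_dd (v : ℤ →₀ ℂ) (θ : ℝ) : eB2_f (dg (fun m : ℤ => (m : ℂ)) (dg (fun m : ℤ => (m : ℂ)) v)) θ =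
    eB2_f (dg (fun m : ℤ => (m : ℂ) ^ 2) v) θ := by
  rw [eB2_f_dg, eB2_G_dg, eB2_f_dg]
  congr 1
  funext m
  ring

theorem eB2_deriv2 (v : ℤ →₀ ℂ) (θ : ℝ) :
    HasDerivAt (fun θ => Complex.I * eB2_f (dg (fun m : ℤ => (m : ℂ)) v) θ)
    (-eB2_f (dg (fun m : ℤ => (m : ℂ) ^ 2) v) θ) θ := by
  have h := (eB2_deriv (dg (fun m : ℤ => (m : ℂ)) v) θ).const_mul Complex.I
  rw [eB2_dd, ← mul_assoc, Complex.I_mul_I, neg_one_mul] at h
  exact h

theorem eB2_pw (m : ℤ) (θ : ℝ) :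
    pw m (Complex.exp ((θ : ℂ) * Complex.I)) = Complex.exp ((m : ℂ) * θ * Complex.I) := by
  unfold pw
  split_ifs with h
  · rw [← Complex.exp_nat_mul]
    congr 1
    have h1 : ((m.toNat : ℕ) : ℂ) = (m : ℂ) := by
      have := Int.toNat_of_nonneg h
      exact_mod_cast congrArg (Int.cast : ℤ → ℂ) this
    rw [h1]; ring
  · have h0 : 0 ≤ -m := by omega
    rw [← Complex.exp_conj, ← Complex.exp_nat_mul]
    congr 1
    have h1 : (((-m).toNat : ℕ) : ℂ) = -(m : ℂ) := by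
      have := Int.toNat_of_nonneg h0
      exact_mod_cast congrArg (Int.cast : ℤ → ℂ) this
    rw [h1, map_mul, Complex.conj_I, Complex.conj_ofReal]; ring

theorem eB2_mob1 (w : ℂ) : mobI 1 w = w := by
  unfold mobI mob
  have h : mt (1 : Gp)⁻¹ = 1 := by
    rw [inv_one]
    rfl
  have h1 : al (1 : Mat2) = 1 := by
    unfold al
    apply Complex.ext <;> simp
  have h2 : be (1 : Mat2) = 0 := by
    unfold be
    apply Complex.ext <;> simp
  rw [h, h1, h2]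
  simp

theorem eB2_circ {w : ℂ} (hw : ‖w‖ = 1) : w = Complex.exp ((Complex.arg w : ℂ) * Complex.I) := by
  have := Complex.norm_mul_exp_arg_mul_I w
  rw [hw] at this
  simpa using this.symm

theorem eB2_F0 (h1 : S_AA) (v : ℤ →₀ ℂ) (w : ℂ) (hw : ‖w‖ = 1) (g : Gd) :
    ∃ θ : ℝ, F0 w v g = eB2_f v θ := by
  obtain ⟨-, -, -, -, -, -, -, -, -, -, h⟩ := h1
  have h2 := h g.1 w hw
  refine ⟨Complex.arg (mobI g.1 w), ?_⟩
  unfold F0 eB2_f eB2_G
  refine Finsupp.sum_congr fun m _ => ?_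
  show v m * pw m (mobI g.1 w) =
    v m * Complex.exp ((m : ℂ) * (Complex.arg (mobI g.1 w) : ℝ) * Complex.I)
  rw [← eB2_pw, ← eB2_circ h2]

theorem eB2_F1 (v : ℤ →₀ ℂ) (θ : ℝ) :
    F0 (Complex.exp ((θ : ℂ) * Complex.I)) v 1 = eB2_f v θ := by
  unfold F0 eB2_f eB2_G
  refine Finsupp.sum_congr fun m _ => ?_
  rw [Prod.fst_one, eB2_mob1, eB2_pw]

theorem eB2_bd (v : ℤ →₀ ℂ) (θ : ℝ) : ‖eB2_f v θ‖ ≤ ∑ m ∈ v.support, ‖v m‖ := by
  unfold eB2_f eB2_G Finsupp.sum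
  refine (norm_sum_le _ _).trans (Finset.sum_le_sum fun m _ => ?_)
  rw [norm_mul]
  have : ‖Complex.exp ((m : ℂ) * θ * Complex.I)‖ = 1 := by
    have := Complex.norm_exp_ofReal_mul_I ((m : ℝ) * θ)
    push_cast at this
    exact this
  rw [this, mul_one]

/-- the point of the circle -/
noncomputable def eB2_c (θ : ℝ) : Sc := ⟨Complex.exp ((θ : ℂ) * Complex.I), Complex.norm_exp_ofReal_mul_I θ⟩

theorem eB2_bdd (h1 : S_AA) (v : ℤ →₀ ℂ) :
    BddAbove (Set.range fun x : Sc × Gd => ‖F0 x.1.1 v x.2‖ / (1 : ℝ)) := by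
  refine ⟨∑ m ∈ v.support, ‖v m‖, ?_⟩
  rintro _ ⟨⟨w, g⟩, rfl⟩
  obtain ⟨θ, hθ⟩ := eB2_F0 h1 v w.1 w.2 g
  show ‖F0 w.1 v g‖ / (1 : ℝ) ≤ _
  rw [hθ, div_one]
  exact eB2_bd v θ

theorem eB2_le (h1 : S_AA) (v : ℤ →₀ ℂ) (θ : ℝ) : ‖eB2_f v θ‖ ≤ p0 v := by
  have h := le_ciSup (eB2_bdd h1 v) (eB2_c θ, 1)
  have h2 : ‖F0 (eB2_c θ).1 v 1‖ / (1 : ℝ) = ‖eB2_f v θ‖ := by
    rw [div_one]
    exact congrArg norm (eB2_F1 v θ)
  rw [← h2]
  exact h

theorem eB2_p0_le (h1 : S_AA) (v : ℤ →₀ ℂ) (M : ℝ) (h : ∀ θ, ‖eB2_f v θ‖ ≤ M) : p0 v ≤ M := by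
  have : Nonempty (Sc × Gd) := ⟨(eB2_c 0, 1)⟩
  refine ciSup_le fun x => ?_
  obtain ⟨θ, hθ⟩ := eB2_F0 h1 v x.1.1 x.1.2 x.2
  show ‖F0 x.1.1 v x.2‖ / (1 : ℝ) ≤ M
  rw [hθ, div_one]
  exact h θ

theorem eB2_nonneg (h1 : S_AA) (v : ℤ →₀ ℂ) : 0 ≤ p0 v :=
  (norm_nonneg _).trans (eB2_le h1 v 0)

theorem eB2_cont (v : ℤ →₀ ℂ) : Continuous (eB2_f v) :=
  continuous_iff_continuousAt.2 fun θ => (eB2_deriv v θ).continuousAt

theorem eB2_exmax (v : ℤ →₀ ℂ) : ∃ θ₀ : ℝ, ∀ θ, ‖eB2_f v θ‖ ≤ ‖eB2_f v θ₀‖ := by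
  have hne : (Set.Icc (0 : ℝ) (2 * Real.pi)).Nonempty := ⟨0, by
    constructor
    · exact le_rfl
    · positivity⟩
  obtain ⟨θ₀, -, hmax⟩ := isCompact_Icc.exists_isMaxOn hne
    ((eB2_cont v).norm.continuousOn)
  refine ⟨θ₀, fun θ => ?_⟩
  have hper : Function.Periodic (eB2_f v) (2 * Real.pi) := by
    intro θ
    unfold eB2_f eB2_G
    refine Finsupp.sum_congr fun m _ => ?_
    congr 1
    have : (m : ℂ) * ((θ + 2 * Real.pi : ℝ) : ℂ) * Complex.I =
        (m : ℂ) * θ * Complex.I + m * (2 * Real.pi * Complex.I) := by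
      push_cast; ring
    show Complex.exp ((m : ℂ) * ((θ + 2 * Real.pi : ℝ) : ℂ) * Complex.I) =
      Complex.exp ((m : ℂ) * θ * Complex.I)
    rw [this, Complex.exp_add, Complex.exp_int_mul_two_pi_mul_I, mul_one]
  obtain ⟨y, hy, hxy⟩ := hper.exists_mem_Ico₀ (by positivity) θ
  rw [hxy]
  exact hmax (Set.Ico_subset_Icc_self hy)

theorem eB2_one (h1 : S_AA) (μ α : ℝ) (hμ : 0 < μ) (hα : 0 < α) (v : ℤ →₀ ℂ) :
    μ * p0 v ≤ p0 (dg (fun m : ℤ => ((μ + α * (m : ℝ) ^ 2 : ℝ) : ℂ)) v) := by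
  set u := dg (fun m : ℤ => ((μ + α * (m : ℝ) ^ 2 : ℝ) : ℂ)) v with hu
  obtain ⟨θ₀, hmax⟩ := eB2_exmax v
  have hp : p0 v ≤ ‖eB2_f v θ₀‖ := eB2_p0_le h1 v _ hmax
  set z0 := eB2_f v θ₀ with hz0
  have hfu : eB2_f u θ₀ = μ * z0 + α * eB2_f (dg (fun m : ℤ => (m : ℂ) ^ 2) v) θ₀ := by
    rw [hu, hz0, eB2_f_dg, eB2_f_dg]
    unfold eB2_f eB2_G Finsupp.sum
    rw [Finset.mul_sum, Finset.mul_sum, ← Finset.sum_add_distrib]
    refine Finset.sum_congr rfl fun m _ => ?_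
    push_cast
    ring
  -- the second derivative
  have hconj : ∀ {f : ℝ → ℂ} {d : ℂ} {θ : ℝ}, HasDerivAt f d θ →
      HasDerivAt (fun θ => (conj z0 * f θ).re) ((conj z0 * d).re) θ := by
    intro f d θ hf
    have := Complex.reCLM.hasFDerivAt.comp_hasDerivAt θ (hf.const_mul (conj z0))
    exact this
  have hsnd : (conj z0 * (-eB2_f (dg (fun m : ℤ => (m : ℂ) ^ 2) v) θ₀)).re ≤ 0 := by
    refine eB2_log_aux (φ := fun θ => (conj z0 * eB2_f v θ).re)
      (φ' := fun θ => (conj z0 * (Complex.I * eB2_f (dg (fun m : ℤ => (m : ℂ)) v) θ)).re)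
      (x := θ₀) (fun y => hconj (eB2_deriv v y)) (hconj (eB2_deriv2 v θ₀)) fun y => ?_
    have h3 : (conj z0 * eB2_f v θ₀).re = ‖z0‖ ^ 2 := by
      rw [← hz0, ← Complex.normSq_eq_conj_mul_self, Complex.ofReal_re, Complex.normSq_eq_norm_sq]
    show (conj z0 * eB2_f v y).re ≤ (conj z0 * eB2_f v θ₀).re
    rw [h3]
    calc (conj z0 * eB2_f v y).re ≤ ‖conj z0 * eB2_f v y‖ := Complex.re_le_norm _
      _ = ‖z0‖ * ‖eB2_f v y‖ := by rw [norm_mul, Complex.norm_conj]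
      _ ≤ ‖z0‖ * ‖z0‖ := mul_le_mul_of_nonneg_left (hmax y) (norm_nonneg _)
      _ = ‖z0‖ ^ 2 := by ring
  have h4 : μ * ‖z0‖ ^ 2 ≤ ‖z0‖ * p0 u := by
    have h5 : (conj z0 * eB2_f u θ₀).re = μ * ‖z0‖ ^ 2 +
        α * (conj z0 * eB2_f (dg (fun m : ℤ => (m : ℂ) ^ 2) v) θ₀).re := by
      rw [hfu]
      have h6 : conj z0 * (μ * z0 + α * eB2_f (dg (fun m : ℤ => (m : ℂ) ^ 2) v) θ₀) =
          (μ : ℂ) * ((‖z0‖ ^ 2 : ℝ) : ℂ) +
          (α : ℂ) * (conj z0 * eB2_f (dg (fun m : ℤ => (m : ℂ) ^ 2) v) θ₀) := by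
        rw [← Complex.normSq_eq_norm_sq, Complex.normSq_eq_conj_mul_self]
        ring
      rw [h6, Complex.add_re, Complex.re_ofReal_mul, Complex.re_ofReal_mul, Complex.ofReal_re]
    have h7 : 0 ≤ (conj z0 * eB2_f (dg (fun m : ℤ => (m : ℂ) ^ 2) v) θ₀).re := by
      rw [mul_neg, Complex.neg_re] at hsnd
      linarith
    have h8 : (conj z0 * eB2_f u θ₀).re ≤ ‖z0‖ * p0 u :=
      calc (conj z0 * eB2_f u θ₀).re ≤ ‖conj z0 * eB2_f u θ₀‖ := Complex.re_le_norm _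
        _ = ‖z0‖ * ‖eB2_f u θ₀‖ := by rw [norm_mul, Complex.norm_conj]
        _ ≤ ‖z0‖ * p0 u := mul_le_mul_of_nonneg_left (eB2_le h1 u θ₀) (norm_nonneg _)
    have h9 : 0 ≤ α * (conj z0 * eB2_f (dg (fun m : ℤ => (m : ℂ) ^ 2) v) θ₀).re :=
      mul_nonneg hα.le h7
    linarith
  have h10 : μ * ‖z0‖ ≤ p0 u := by
    rcases (norm_nonneg z0).eq_or_lt with h | h
    · rw [← h, mul_zero]; exact eB2_nonneg h1 u
    · have : ‖z0‖ * (μ * ‖z0‖) ≤ ‖z0‖ * p0 u := by linarith [h4]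
      exact le_of_mul_le_mul_left this h
  exact (mul_le_mul_of_nonneg_left hp hμ.le).trans h10

theorem eB2_quad {P A B : ℝ} (hP : 0 ≤ P) (hA : 0 ≤ A) (hB : 0 ≤ B)
    (h : ∀ t : ℝ, 0 < t → P * t ≤ 2 * A + t ^ 2 / 2 * B) : P ^ 2 ≤ 4 * (A * B) := by
  rcases hP.eq_or_lt with h0 | h0
  · rw [← h0]
    have := mul_nonneg hA hB
    nlinarith
  · rcases hB.eq_or_lt with hB0 | hB0
    · exfalso
      have h2 := h ((2 * A + 1) / P) (by positivity)
      rw [← hB0, mul_zero, add_zero, mul_div_cancel₀ _ h0.ne'] at h2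
      linarith
    · have h2 := h (P / B) (by positivity)
      have e1 : P * (P / B) = P ^ 2 / B := by ring
      have e2 : (P / B) ^ 2 / 2 * B = P ^ 2 / B / 2 := by field_simp
      rw [e1, e2] at h2
      have h3 : P ^ 2 / B ≤ 4 * A := by linarith
      rw [div_le_iff₀ hB0] at h3
      linarith

theorem eB2_two (h1 : S_AA) (v : ℤ →₀ ℂ) : p0 (dg (fun m : ℤ => (m : ℂ)) v) ^ 2 ≤
    4 * (p0 v * p0 (dg (fun m : ℤ => ((m : ℂ)) ^ 2) v)) := by
  refine eB2_quad (eB2_nonneg h1 _) (eB2_nonneg h1 _) (eB2_nonneg h1 _) fun t ht => ?_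
  set A := p0 v with hA
  set B := p0 (dg (fun m : ℤ => ((m : ℂ)) ^ 2) v) with hB
  rw [← le_div_iff₀ ht]
  refine eB2_p0_le h1 _ _ fun θ => ?_
  rw [le_div_iff₀ ht]
  -- first derivative is Lipschitz
  set D : ℝ → ℂ := fun x => Complex.I * eB2_f (dg (fun m : ℤ => (m : ℂ)) v) x with hD
  have hLip : ∀ s : ℝ, 0 ≤ s → ‖D (θ + s) - D θ‖ ≤ B * s := by
    intro s hs
    have := Convex.norm_image_sub_le_of_norm_hasDerivWithin_le (f := D)
      (f' := fun x => -eB2_f (dg (fun m : ℤ => (m : ℂ) ^ 2) v) x) (s := Set.univ) (C := B)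
      (x := θ) (y := θ + s) (fun x _ => (eB2_deriv2 v x).hasDerivWithinAt)
      (fun x _ => by rw [norm_neg]; exact eB2_le h1 _ x) convex_univ trivial trivial
    rw [add_sub_cancel_left, Real.norm_eq_abs, abs_of_nonneg hs] at this
    exact this
  have hTay : ‖eB2_f v (θ + t) - eB2_f v θ - t * D θ‖ ≤ t ^ 2 / 2 * B := by
    have hd : ∀ s : ℝ, HasDerivAt (fun s : ℝ => eB2_f v (θ + s) - eB2_f v θ - (s : ℂ) * D θ)
        (D (θ + s) - D θ) s := by
      intro s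
      have k1 : HasDerivAt (fun s : ℝ => eB2_f v (θ + s)) (D (θ + s)) s :=
        (eB2_deriv v (θ + s)).comp_const_add θ s
      have k2 : HasDerivAt (fun s : ℝ => (s : ℂ) * D θ) (D θ) s := by
        have := (Complex.ofRealCLM.hasDerivAt (x := s)).mul_const (D θ)
        simpa using this
      exact (k1.sub_const _).sub k2
    refine image_norm_le_of_norm_deriv_right_le_deriv_boundary (a := 0) (b := t)
      (f := fun s : ℝ => eB2_f v (θ + s) - eB2_f v θ - (s : ℂ) * D θ)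
      (f' := fun s => D (θ + s) - D θ) (B := fun s => s ^ 2 / 2 * B) (B' := fun s => B * s)
      (fun s _ => (hd s).continuousAt.continuousWithinAt) (fun s _ => (hd s).hasDerivWithinAt)
      (by simp) (fun s => ?_) (fun s hs => hLip s hs.1) (Set.right_mem_Icc.2 ht.le)
    have k := ((hasDerivAt_pow 2 s).div_const 2).mul_const B
    have e : ((2 : ℕ) : ℝ) * s ^ (2 - 1) / 2 * B = B * s := by
      norm_num
      ring
    rw [e] at k
    exact k
  have hnD : ‖D θ‖ = ‖eB2_f (dg (fun m : ℤ => (m : ℂ)) v) θ‖ := by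
    rw [hD]
    simp
  have e1 : ((t : ℂ)) * D θ = (eB2_f v (θ + t) - eB2_f v θ) - (eB2_f v (θ + t) - eB2_f v θ - t * D θ) := by
    ring
  have e2 : ‖D θ‖ * t = ‖((t : ℂ)) * D θ‖ := by
    rw [norm_mul (t : ℂ) (D θ), Complex.norm_real, Real.norm_eq_abs, abs_of_pos ht, mul_comm]
  rw [← hnD, e2, e1]
  refine (norm_sub_le _ _).trans (add_le_add ((norm_sub_le _ _).trans ?_) hTay)
  have := eB2_le h1 v (θ + t)
  have := eB2_le h1 v θ
  linarith

theorem eB2_three (h1 : S_AA) (v : ℤ →₀ ℂ) (x y : Sc) : ‖F0 x.1 v 1 - F0 y.1 v 1‖ ≤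
    2 * ‖x.1 - y.1‖ * p0 (dg (fun m : ℤ => (m : ℂ)) v) := by
  set P := p0 (dg (fun m : ℤ => (m : ℂ)) v) with hP
  have hP0 : 0 ≤ P := eB2_nonneg h1 _
  set θ := Complex.arg x.1 with hθ
  have hx0 : x.1 ≠ 0 := by
    intro h
    have := x.2
    rw [h, norm_zero] at this
    exact zero_ne_one this
  have hq : ‖y.1 / x.1‖ = 1 := by rw [norm_div, x.2, y.2, div_one]
  set δ := Complex.arg (y.1 / x.1) with hδ
  have ex : x.1 = Complex.exp ((θ : ℂ) * Complex.I) := eB2_circ x.2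
  have eq : y.1 / x.1 = Complex.exp ((δ : ℂ) * Complex.I) := eB2_circ hq
  have ey : y.1 = Complex.exp (((θ + δ : ℝ) : ℂ) * Complex.I) := by
    have : y.1 = x.1 * (y.1 / x.1) := by field_simp
    rw [this, eq, ex, ← Complex.exp_add]
    congr 1
    push_cast
    ring
  have hF : F0 x.1 v 1 - F0 y.1 v 1 = eB2_f v θ - eB2_f v (θ + δ) := by
    rw [ex, ey, eB2_F1, eB2_F1]
  have hδ1 : |δ| ≤ Real.pi := Complex.abs_arg_le_pi _
  have hLip : ‖eB2_f v θ - eB2_f v (θ + δ)‖ ≤ P * |δ| := by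
    have := Convex.norm_image_sub_le_of_norm_hasDerivWithin_le (f := eB2_f v)
      (f' := fun x => Complex.I * eB2_f (dg (fun m : ℤ => (m : ℂ)) v) x) (s := Set.univ) (C := P)
      (x := θ + δ) (y := θ) (fun x _ => (eB2_deriv v x).hasDerivWithinAt)
      (fun x _ => by rw [norm_mul, Complex.norm_I, one_mul]; exact eB2_le h1 _ x) convex_univ
      trivial trivial
    have e : θ - (θ + δ) = -δ := by ring
    rw [e, norm_neg, Real.norm_eq_abs] at this
    exact this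
  have hnorm : ‖x.1 - y.1‖ = 2 * |Real.sin (δ / 2)| := by
    have e : x.1 - y.1 = -(x.1 * (Complex.exp (Complex.I * (δ : ℂ)) - 1)) := by
      have h3 : Complex.exp (Complex.I * (δ : ℂ)) = y.1 / x.1 := by rw [eq, mul_comm]
      rw [h3]
      field_simp
      ring
    rw [e, norm_neg, norm_mul, x.2, one_mul, Complex.norm_exp_I_mul_ofReal_sub_one]
    simp
  have hsin : 2 / Real.pi * |δ / 2| ≤ |Real.sin (δ / 2)| := by
    refine Real.mul_abs_le_abs_sin ?_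
    rw [abs_div, abs_two]
    linarith
  have h5 : |δ| ≤ 2 * ‖x.1 - y.1‖ := by
    rw [hnorm]
    rw [abs_div, abs_two] at hsin
    have hpi : Real.pi ≤ 4 := Real.pi_le_four
    have hpi0 := Real.pi_pos
    have h6 : |δ| ≤ Real.pi * |Real.sin (δ / 2)| := by
      have e : 2 / Real.pi * (|δ| / 2) = |δ| / Real.pi := by field_simp
      rw [e, div_le_iff₀ hpi0] at hsin
      linarith
    have h7 : Real.pi * |Real.sin (δ / 2)| ≤ 4 * |Real.sin (δ / 2)| :=
      mul_le_mul_of_nonneg_right hpi (abs_nonneg _)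
    linarith
  rw [hF]
  refine hLip.trans ?_
  have := mul_le_mul_of_nonneg_left h5 hP0
  linarith

/-- TARGET -/
theorem e_e2a (h1 : S_AA) : S_e2a :=
  ⟨fun μ α hμ hα v => eB2_one h1 μ α hμ hα v, fun v => eB2_two h1 v, fun v x y => eB2_three h1 v x y⟩

end Pool.Agent.H913.LG
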