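import Pool.Agent.H913.LG.Stmts2

/- PROJECT LG (owner helper913): MP_c67f28_al, MP_d7c545_al, MP_a304db_al, MP_6a3a89_al: norms on Harish-Chandra modules of
G = GL(2,R)+ x GL(2,R)+ (Gd below); common infrastructure.
SETUP (once per box, about 2 minutes):
  cd /workdir/pool/outputs/live && git fetch -q origin && mkdir -p /workdir/pool/Pool/Agent/H913/LG /workdir/pool/Pool/Agent/H913/LGP /workdir/pool/Pool/Agent/H913/SGP && git show origin/helper913:Pool/Agent/H913/LGP/Definitions.lean > /workdir/pool/Pool/Agent/H913/LGP/Definitions.lean && git show origin/main:Pool/Agent/H913/SGP/Definitions.lean > /workdir/pool/Pool/Agent/H913/SGP/Definitions.lean && for f in Defs HCBase HCAux Mod Stmts Stmts2; do git show origin/helper913:Pool/Agent/H913/LG/$f.lean > /workdir/pool/Pool/Agent/H913/LG/$f.lean; done; cd /workdir/pool && lake build Pool.Agent.H913.LG.Stmts2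
(ignore the sorry warnings of HCBase and HCAux: these are other jobs.) Read Defs, HCBase, Mod, Stmts, Stmts2 first (short).
Put this file at Pool/Agent/H913/LG/EB3.lean, replace the sorry of the TARGET by a proof; auxiliary lemmas before it are
welcome (give them names starting with eB3_ to avoid clashes). Statement of the target unchanged. Hypotheses (h1 : S_xxx) of the
target are proved elsewhere, use them freely. No sorry, no axioms. Respect RULES.md Validity 2 (banned words such as notation,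
macro, syntax, prefix, tactic; no straight double quotes; no line comment starting in odd places).
If the target is false or awkward, message helper913 at once (the statement will be fixed).
Paste the whole compiled file in jobs.result with status='done', done_at=now(), then: team-sql notify inbox_helper913 done -/

open Matrix NormedSpace
open scoped Matrix ComplexConjugate

namespace Pool.Agent.H913.LG

open Pool.Agent.H913.SGP Pool.Agent.H913.LGP

/-! Proof. Write h = T v, T = dg((1+α m²)^(ε/2)). For λ ≥ 0 let R_λ = dg((1+λ+αm²)⁻¹). (1) ∫_{0}^{∞} λ^{-ε/2}/(c+λ) dλ = K c^{-ε/2} for c > 0 with K = ∫_0^∞ λ^{-ε/2}/(1+λ) dλ ∈ (0,∞) (substitution; 0 < ε/2 < 1/2). So v = K⁻¹ ∫ λ^{-ε/2} R_λ h dλ coefficientwise (finitely many m). By S_e2a: with u = R_λ h: (1+λ) p0 u ≤ p0 h; u'' : α m² u = h - (1+λ) u so p0(dg(m²) u) ≤ (2/α) p0 h; p0(dg(m) u)² ≤ 4 p0 u p0(dg(m²)u) ≤ (8/α)(1+λ)⁻¹ (p0 h)². So for x, y on the circle,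 δ = |x-y|: |u(x)-u(y)| ≤ A := 2(1+λ)⁻¹ p0 h and ≤ B := 2δ (8/α)^{1/2} (1+λ)^{-1/2} p0 h (u(x) = F0 x u 1); so ≤ A^{1-θ} B^θ = C δ^θ (1+λ)^{-1+θ/2} p0 h, θ = ε/2. Integrate: ∫ λ^{-ε/2}(1+λ)^{-1+ε/4} dλ < ∞. So |v(x)-v(y)| ≤ C δ^{ε/2} p0 h, and ell x y δ^{ε/2} is bounded for 0 < δ ≤ 2. Similarly |v(x)| ≤ K⁻¹∫ λ^{-ε/2}(1+λ)^{-1} p0 h, so p0 v ≤ p0 h * const. (p0 v = sup over the circle of |F0 x v 1|; |F0 x v 1| ≤ p0 v.) Any other proof is fine. -/

open MeasureTheory Set in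
theorem eB3_int (s : ℝ) (hs0 : 0 < s) (hs1 : s < 1) (c : ℝ) (hc : 0 < c) :
    IntegrableOn (fun l : ℝ => l ^ (-s) / (c + l)) (Ioi 0) := by
  have hmeas : ∀ A : Set ℝ,
      AEStronglyMeasurable (fun l : ℝ => l ^ (-s) / (c + l)) (volume.restrict A) := by
    intro A
    have : Measurable (fun l : ℝ => l ^ (-s) / (c + l)) := by fun_prop
    exact this.aestronglyMeasurable
  rw [← Ioc_union_Ioi_eq_Ioi (zero_le_one (α := ℝ))]
  refine IntegrableOn.union ?_ ?_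
  · have h1 : IntegrableOn (fun l : ℝ => l ^ (-s) * c⁻¹) (Ioc 0 1) := by
      have h2 : IntervalIntegrable (fun l : ℝ => l ^ (-s)) volume 0 1 :=
        intervalIntegral.intervalIntegrable_rpow' (by linarith)
      rw [intervalIntegrable_iff_integrableOn_Ioc_of_le zero_le_one] at h2
      exact h2.mul_const _
    refine Integrable.mono' h1 (hmeas _) ?_
    rw [ae_restrict_iff' measurableSet_Ioc]
    refine Filter.Eventually.of_forall fun l hl => ?_
    have hl0 : 0 < l := hl.1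
    rw [Real.norm_of_nonneg (by positivity), div_eq_mul_inv]
    refine mul_le_mul_of_nonneg_left ?_ (by positivity)
    exact inv_anti₀ hc (by linarith)
  · have h1 : IntegrableOn (fun l : ℝ => l ^ (-s - 1)) (Ioi 1) :=
      integrableOn_Ioi_rpow_of_lt (by linarith) zero_lt_one
    refine Integrable.mono' h1 (hmeas _) ?_
    rw [ae_restrict_iff' measurableSet_Ioi]
    refine Filter.Eventually.of_forall fun l hl => ?_
    have hl0 : 0 < l := lt_trans zero_lt_one hl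
    rw [Real.norm_of_nonneg (by positivity), div_eq_mul_inv, Real.rpow_sub hl0, Real.rpow_one,
      div_eq_mul_inv]
    refine mul_le_mul_of_nonneg_left ?_ (by positivity)
    exact inv_anti₀ hl0 (by linarith)

open MeasureTheory Set in
theorem eB3_int2 (s : ℝ) (hs0 : 0 < s) (hs1 : s < 1) :
    IntegrableOn (fun l : ℝ => l ^ (-s) * (1 + l) ^ (-1 + s / 2)) (Ioi 0) := by
  have hmeas : ∀ A : Set ℝ, 
      AEStronglyMeasurable (fun l : ℝ => l ^ (-s) * (1 + l) ^ (-1 + s / 2))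
        (volume.restrict A) := by
    intro A
    have : Measurable (fun l : ℝ => l ^ (-s) * (1 + l) ^ (-1 + s / 2)) := by fun_prop
    exact this.aestronglyMeasurable
  rw [← Ioc_union_Ioi_eq_Ioi (zero_le_one (α := ℝ))]
  refine IntegrableOn.union ?_ ?_
  · have h1 : IntegrableOn (fun l : ℝ => l ^ (-s)) (Ioc 0 1) := by
      have h2 : IntervalIntegrable (fun l : ℝ => l ^ (-s)) volume 0 1 :=
        intervalIntegral.intervalIntegrable_rpow' (by linarith)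
      rwa [intervalIntegrable_iff_integrableOn_Ioc_of_le zero_le_one] at h2
    refine Integrable.mono' h1 (hmeas _) ?_
    rw [ae_restrict_iff' measurableSet_Ioc]
    refine Filter.Eventually.of_forall fun l hl => ?_
    have hl0 : 0 < l := hl.1
    rw [Real.norm_of_nonneg (by positivity)]
    refine mul_le_of_le_one_right (by positivity) ?_
    exact Real.rpow_le_one_of_one_le_of_nonpos (by linarith) (by linarith)
  · have h1 : IntegrableOn (fun l : ℝ => l ^ (-1 - s / 2)) (Ioi 1) :=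
      integrableOn_Ioi_rpow_of_lt (by linarith) zero_lt_one
    refine Integrable.mono' h1 (hmeas _) ?_
    rw [ae_restrict_iff' measurableSet_Ioi]
    refine Filter.Eventually.of_forall fun l hl => ?_
    have hl0 : 0 < l := lt_trans zero_lt_one hl
    rw [Real.norm_of_nonneg (by positivity)]
    calc l ^ (-s) * (1 + l) ^ (-1 + s / 2) ≤ l ^ (-s) * l ^ (-1 + s / 2) := by
          refine mul_le_mul_of_nonneg_left ?_ (by positivity)
          exact Real.rpow_le_rpow_of_nonpos hl0 (by linarith) (by linarith)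
      _ = l ^ (-1 - s / 2) := by
          rw [← Real.rpow_add hl0]
          congr 1
          ring

open MeasureTheory Set in
theorem eB3_scale (s : ℝ) (c : ℝ) (hc : 0 < c) :
    ∫ l in Ioi (0:ℝ), l ^ (-s) / (c + l) = c ^ (-s) * ∫ l in Ioi (0:ℝ), l ^ (-s) / (1 + l) := by
  have h := integral_comp_mul_left_Ioi (fun l : ℝ => l ^ (-s) / (c + l)) 0 hc
  rw [mul_zero, smul_eq_mul] at h
  have h2 : ∫ x in Ioi (0:ℝ), (c * x) ^ (-s) / (c + c * x) =
      ∫ x in Ioi (0:ℝ), (c ^ (-s) * c⁻¹) * (x ^ (-s) / (1 + x)) := by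
    refine setIntegral_congr_fun measurableSet_Ioi fun x hx => ?_
    have hx0 : 0 < x := hx
    show (c * x) ^ (-s) / (c + c * x) = (c ^ (-s) * c⁻¹) * (x ^ (-s) / (1 + x))
    rw [Real.mul_rpow hc.le hx0.le]
    have : c + c * x = c * (1 + x) := by ring
    rw [this]
    field_simp
  rw [h2, integral_const_mul] at h
  refine mul_left_cancel₀ (inv_ne_zero hc.ne') ?_
  rw [← h]
  ring

open MeasureTheory Set in
theorem eB3_pos (s : ℝ) (hs0 : 0 < s) (hs1 : s < 1) :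
    0 < ∫ l in Ioi (0:ℝ), l ^ (-s) / (1 + l) := by
  rw [setIntegral_pos_iff_support_of_nonneg_ae]
  · have : (Function.support fun l : ℝ => l ^ (-s) / (1 + l)) ∩ Ioi 0 = Ioi 0 := by
      refine inter_eq_right.2 fun l hl => ?_
      have hl0 : 0 < l := hl
      rw [Function.mem_support]
      positivity
    rw [this]
    simp
  · rw [Filter.EventuallyLE, ae_restrict_iff' measurableSet_Ioi]
    refine Filter.Eventually.of_forall fun l hl => ?_
    have hl0 : 0 < l := hl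
    show 0 ≤ l ^ (-s) / (1 + l)
    positivity
  · exact eB3_int s hs0 hs1 1 one_pos

theorem eB3_F (c : ℤ → ℂ) (h : ℤ →₀ ℂ) (x : ℂ) (g : Gd) :
    F0 x (dg c h) g = ∑ m ∈ h.support, h m * (c m * pw m (mobI g.1 x)) := by
  have e : ∀ v : ℤ →₀ ℂ, F0 x v g =
      Finsupp.linearCombination ℂ (fun m => pw m (mobI g.1 x)) v := by
    intro v
    rw [Finsupp.linearCombination_apply]
    rfl
  have hd : dg c h = ∑ m ∈ h.support, h m • (c m • ee m) := by
    unfold dg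
    rw [Finsupp.linearCombination_apply]
    rfl
  rw [e, hd, map_sum]
  refine Finset.sum_congr rfl fun m _ => ?_
  rw [map_smul, map_smul, Finsupp.linearCombination_single]
  simp only [smul_eq_mul, one_mul]

theorem eB3_dd (a b : ℤ → ℂ) (h : ℤ →₀ ℂ) : dg a (dg b h) = dg (fun m => a m * b m) h := by
  have : (dg a) ∘ₗ (dg b) = dg (fun m => a m * b m) := by
    apply Finsupp.lhom_ext'
    intro m
    apply LinearMap.ext_ring
    simp [dg, Finsupp.linearCombination_single, mul_comm]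
  exact congrArg (fun f : Module.End ℂ (ℤ →₀ ℂ) => f h) this

theorem eB3_d1 (h : ℤ →₀ ℂ) : dg (fun _ => 1) h = h := by
  have : (dg (fun _ : ℤ => (1 : ℂ))) = LinearMap.id := by
    apply Finsupp.lhom_ext'
    intro m
    apply LinearMap.ext_ring
    simp [dg, Finsupp.linearCombination_single]
  rw [this]
  rfl

theorem eB3_le (h3 : S_bd) (x : Sc) (v : ℤ →₀ ℂ) (g : Gd) : ‖F0 x.1 v g‖ ≤ p0 v := by
  have hb : BddAbove (Set.range fun y : Sc × Gd => ‖F0 y.1.1 v y.2‖ / 1) := by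
    refine ⟨v.sum fun _ c => ‖c‖, ?_⟩
    rintro _ ⟨y, rfl⟩
    show ‖F0 y.1.1 v y.2‖ / 1 ≤ _
    rw [div_one]
    exact h3.1 _ _ _ y.1.2.le
  have := le_ciSup hb (x, g)
  simp only [div_one] at this
  unfold p0 famNorm
  simpa using this

theorem eB3_ge (v : ℤ →₀ ℂ) (K : ℝ) (h : ∀ (x : Sc) (g : Gd), ‖F0 x.1 v g‖ ≤ K) : p0 v ≤ K := by
  have : Nonempty (Sc × Gd) := ⟨(⟨1, norm_one⟩, 1)⟩
  unfold p0 famNorm
  refine ciSup_le fun y => ?_
  rw [div_one]
  exact h _ _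

open MeasureTheory Set in
/-- integral representation -/
theorem eB3_rep (s α : ℝ) (hs0 : 0 < s) (hs1 : s < 1) (hα : 0 < α) (h : ℤ →₀ ℂ)
    (φ : ℤ → ℂ) :
    ∑ m ∈ h.support, h m * ((((1 + α * (m : ℝ) ^ 2) ^ (-s) : ℝ) : ℂ) * φ m) =
      (((∫ l in Ioi (0:ℝ), l ^ (-s) / (1 + l))⁻¹ : ℝ) : ℂ) *
        ∫ l in Ioi (0:ℝ), ((l ^ (-s) : ℝ) : ℂ) *
          ∑ m ∈ h.support, h m * ((((1 + l + α * (m : ℝ) ^ 2 : ℝ) : ℂ))⁻¹ * φ m) := by
  set K := ∫ l in Ioi (0:ℝ), l ^ (-s) / (1 + l) with hK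
  have hK0 : K ≠ 0 := (eB3_pos s hs0 hs1).ne'
  have e1 : ∀ l : ℝ, ((l ^ (-s) : ℝ) : ℂ) *
          ∑ m ∈ h.support, h m * ((((1 + l + α * (m : ℝ) ^ 2 : ℝ) : ℂ))⁻¹ * φ m) =
      ∑ m ∈ h.support, ((l ^ (-s) / ((1 + α * (m : ℝ) ^ 2) + l) : ℝ) : ℂ) * (h m * φ m) := by
    intro l
    rw [Finset.mul_sum]
    refine Finset.sum_congr rfl fun m _ => ?_
    push_cast
    rw [div_eq_mul_inv, show (1 : ℂ) + l + α * (m : ℂ) ^ 2 = 1 + α * (m : ℂ) ^ 2 + l by ring]
    ring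
  simp only [e1]
  rw [integral_finsetSum]
  · rw [Finset.mul_sum]
    refine Finset.sum_congr rfl fun m _ => ?_
    have hc : 0 < 1 + α * (m : ℝ) ^ 2 := by positivity
    rw [integral_mul_const, integral_complex_ofReal, eB3_scale s _ hc, ← hK]
    have hK1 : (K : ℂ) ≠ 0 := by
      rw [Ne, Complex.ofReal_eq_zero]
      exact hK0
    rw [Complex.ofReal_mul, Complex.ofReal_inv]
    field_simp
  · intro m _
    have hc : 0 < 1 + α * (m : ℝ) ^ 2 := by positivity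
    exact ((eB3_int s hs0 hs1 _ hc).ofReal).mul_const _

open MeasureTheory Set in
theorem eB3_res (h2 : S_e2a) (h3 : S_bd) (α : ℝ) (hα : 0 < α) (h : ℤ →₀ ℂ) (l : ℝ) (hl : 0 < l) :
    p0 (dg (fun m : ℤ => (((1 + l + α * (m : ℝ) ^ 2 : ℝ) : ℂ))⁻¹) h) ≤ (1 + l)⁻¹ * p0 h ∧
    ∀ x y : Sc, ‖F0 x.1 (dg (fun m : ℤ => (((1 + l + α * (m : ℝ) ^ 2 : ℝ) : ℂ))⁻¹) h) 1 -
      F0 y.1 (dg (fun m : ℤ => (((1 + l + α * (m : ℝ) ^ 2 : ℝ) : ℂ))⁻¹) h) 1‖ ≤
        2 * ‖x.1 - y.1‖ * Real.sqrt (8 / α) * (1 + l) ^ (-(1 / 2) : ℝ) * p0 h := by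
  set u := dg (fun m : ℤ => (((1 + l + α * (m : ℝ) ^ 2 : ℝ) : ℂ))⁻¹) h with hu
  have hP : 0 ≤ p0 h := (norm_nonneg _).trans (eB3_le h3 ⟨1, norm_one⟩ h 1)
  have hpu : 0 ≤ p0 u := (norm_nonneg _).trans (eB3_le h3 ⟨1, norm_one⟩ u 1)
  have hne : ∀ m : ℤ, (((1 + l + α * (m : ℝ) ^ 2 : ℝ) : ℂ)) ≠ 0 := by
    intro m
    rw [Ne, Complex.ofReal_eq_zero]
    positivity
  have e1 : dg (fun m : ℤ => ((1 + l + α * (m : ℝ) ^ 2 : ℝ) : ℂ)) u = h := by
    rw [hu, eB3_dd]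
    have : (fun m : ℤ => ((1 + l + α * (m : ℝ) ^ 2 : ℝ) : ℂ) *
        (((1 + l + α * (m : ℝ) ^ 2 : ℝ) : ℂ))⁻¹) = fun _ => 1 := by
      funext m
      exact mul_inv_cancel₀ (hne m)
    rw [this, eB3_d1]
  have k1 : (1 + l) * p0 u ≤ p0 h := by
    have := h2.1 (1 + l) α (by linarith) hα u
    rwa [e1] at this
  have k1' : p0 u ≤ (1 + l)⁻¹ * p0 h := by
    rw [← div_eq_inv_mul, le_div_iff₀ (by linarith), mul_comm]
    exact k1
  refine ⟨k1', fun x y => ?_⟩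
  have k2 : p0 (dg (fun m : ℤ => ((m : ℂ)) ^ 2) u) ≤ 2 / α * p0 h := by
    refine eB3_ge _ _ fun x g => ?_
    have e2 : F0 x.1 (dg (fun m : ℤ => ((m : ℂ)) ^ 2) u) g =
        (α : ℂ)⁻¹ * (F0 x.1 h g - ((1 + l : ℝ) : ℂ) * F0 x.1 u g) := by
      have e3 : F0 x.1 h g = F0 x.1 (dg (fun m : ℤ => ((1 + l + α * (m : ℝ) ^ 2 : ℝ) : ℂ)) u) g := by
        rw [e1]
      have e4 : F0 x.1 u g = F0 x.1 (dg (fun _ : ℤ => (1 : ℂ)) u) g := by rw [eB3_d1]
      rw [e3, e4, eB3_F, eB3_F, eB3_F, Finset.mul_sum, ← Finset.sum_sub_distrib, Finset.mul_sum]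
      refine Finset.sum_congr rfl fun m _ => ?_
      have : (α : ℂ) ≠ 0 := by
        rw [Ne, Complex.ofReal_eq_zero]
        exact hα.ne'
      push_cast
      field_simp
      ring
    rw [e2, norm_mul, norm_inv, Complex.norm_real, Real.norm_of_nonneg hα.le]
    have k3 : ‖F0 x.1 h g - ((1 + l : ℝ) : ℂ) * F0 x.1 u g‖ ≤ 2 * p0 h := by
      refine (norm_sub_le _ _).trans ?_
      rw [norm_mul, Complex.norm_real, Real.norm_of_nonneg (by linarith)]
      have a1 := eB3_le h3 x h g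
      have a2 := eB3_le h3 x u g
      have a3 : (1 + l) * ‖F0 x.1 u g‖ ≤ (1 + l) * p0 u :=
        mul_le_mul_of_nonneg_left a2 (by linarith)
      linarith
    calc α⁻¹ * ‖F0 x.1 h g - ((1 + l : ℝ) : ℂ) * F0 x.1 u g‖ ≤ α⁻¹ * (2 * p0 h) :=
          mul_le_mul_of_nonneg_left k3 (by positivity)
      _ = 2 / α * p0 h := by ring
  have k4 := h2.2.1 u
  have k5 : p0 (dg (fun m : ℤ => (m : ℂ)) u) ≤ Real.sqrt (8 / α) * (1 + l) ^ (-(1 / 2) : ℝ) * p0 h := by
    have h0 : 0 ≤ Real.sqrt (8 / α) * (1 + l) ^ (-(1 / 2) : ℝ) * p0 h := by positivity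
    refine abs_le_of_sq_le_sq' ?_ h0 |>.2
    have e5 : (Real.sqrt (8 / α) * (1 + l) ^ (-(1 / 2) : ℝ) * p0 h) ^ 2 =
        8 / α * (1 + l)⁻¹ * (p0 h) ^ 2 := by
      have e6 : ((1 + l) ^ (-(1 / 2) : ℝ)) ^ 2 = (1 + l)⁻¹ := by
        rw [← Real.rpow_natCast, ← Real.rpow_mul (by linarith), ← Real.rpow_neg_one]
        norm_num
      rw [mul_pow, mul_pow, Real.sq_sqrt (by positivity), e6]
    rw [e5]
    refine k4.trans ?_
    calc 4 * (p0 u * p0 (dg (fun m : ℤ => ((m : ℂ)) ^ 2) u)) ≤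
          4 * (((1 + l)⁻¹ * p0 h) * (2 / α * p0 h)) := by
            refine mul_le_mul_of_nonneg_left ?_ (by norm_num)
            exact mul_le_mul k1' k2 ((norm_nonneg _).trans (eB3_le h3 ⟨1, norm_one⟩ _ 1))
              (by positivity)
      _ = 8 / α * (1 + l)⁻¹ * (p0 h) ^ 2 := by ring
  have k6 := h2.2.2 u x y
  refine k6.trans ?_
  calc 2 * ‖x.1 - y.1‖ * p0 (dg (fun m : ℤ => (m : ℂ)) u) ≤
        2 * ‖x.1 - y.1‖ * (Real.sqrt (8 / α) * (1 + l) ^ (-(1 / 2) : ℝ) * p0 h) :=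
          mul_le_mul_of_nonneg_left k5 (by positivity)
    _ = _ := by ring

/-- interpolation -/
theorem eB3_interp (a P δ M L s : ℝ) (ha : 0 ≤ a) (hP : 0 ≤ P) (hδ : 0 ≤ δ) (hM : 0 ≤ M)
    (hL : 0 < L) (hs0 : 0 < s) (hs1 : s < 1) (h1 : a ≤ 2 * (L⁻¹ * P))
    (h2 : a ≤ 2 * δ * M * L ^ (-(1 / 2) : ℝ) * P) :
    a ≤ 2 * M ^ s * δ ^ s * P * L ^ (-1 + s / 2) := by
  have e0 : a = a ^ (1 - s) * a ^ s := by
    rcases ha.eq_or_lt with h | h
    · rw [← h, Real.zero_rpow (by linarith : (1 : ℝ) - s ≠ 0), zero_mul]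
    · rw [← Real.rpow_add h]
      norm_num
  have e1 : a ^ (1 - s) ≤ (2 * (L⁻¹ * P)) ^ (1 - s) :=
    Real.rpow_le_rpow ha h1 (by linarith)
  have e2 : a ^ s ≤ (2 * δ * M * L ^ (-(1 / 2) : ℝ) * P) ^ s := Real.rpow_le_rpow ha h2 hs0.le
  have hL2 : 0 ≤ L ^ (-(1 / 2) : ℝ) := by positivity
  rw [e0]
  refine (mul_le_mul e1 e2 (by positivity) (by positivity)).trans (le_of_eq ?_)
  rw [Real.mul_rpow (by norm_num) (by positivity), Real.mul_rpow (by positivity) hP,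
    Real.mul_rpow (by positivity) hP, Real.mul_rpow (by positivity) hL2,
    Real.mul_rpow (by positivity) hM, Real.mul_rpow (by norm_num) hδ,
    Real.inv_rpow hL.le, ← Real.rpow_neg hL.le, ← Real.rpow_mul hL.le]
  have e3 : (2 : ℝ) ^ (1 - s) * 2 ^ s = 2 := by
    rw [← Real.rpow_add (by norm_num)]
    norm_num
  have e4 : P ^ (1 - s) * P ^ s = P := by
    rcases hP.eq_or_lt with h | h
    · rw [← h, Real.zero_rpow (by linarith : (1 : ℝ) - s ≠ 0), zero_mul]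
    · rw [← Real.rpow_add h]
      norm_num
  have e5 : L ^ (-(1 - s)) * L ^ (-(1 / 2) * s) = L ^ (-1 + s / 2) := by
    rw [← Real.rpow_add hL]
    congr 1
    ring
  calc 2 ^ (1 - s) * (L ^ (-(1 - s)) * P ^ (1 - s)) *
      (2 ^ s * δ ^ s * M ^ s * L ^ (-(1 / 2) * s) * P ^ s) =
        ((2 : ℝ) ^ (1 - s) * 2 ^ s) * M ^ s * δ ^ s * (P ^ (1 - s) * P ^ s) *
          (L ^ (-(1 - s)) * L ^ (-(1 / 2) * s)) := by ring
    _ = 2 * M ^ s * δ ^ s * P * L ^ (-1 + s / 2) := by rw [e3, e4, e5]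

theorem eB3_ell (s : ℝ) (hs0 : 0 < s) (x y : Sc) :
    0 ≤ ell x.1 y.1 ∧ ell x.1 y.1 * ‖x.1 - y.1‖ ^ s ≤ (2 * Real.exp 1) ^ s / s := by
  unfold ell
  have he := Real.exp_pos 1
  split_ifs with h
  · refine ⟨le_refl _, ?_⟩
    rw [zero_mul]
    positivity
  · have hδ : 0 < ‖x.1 - y.1‖ := norm_pos_iff.2 (sub_ne_zero.2 h)
    have hδ2 : ‖x.1 - y.1‖ ≤ 2 := by
      refine (norm_sub_le _ _).trans ?_
      rw [x.2, y.2]
      norm_num
    have h1 : 1 ≤ 2 * Real.exp 1 / ‖x.1 - y.1‖ := by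
      rw [le_div_iff₀ hδ]
      have := Real.add_one_le_exp 1
      linarith
    refine ⟨Real.log_nonneg h1, ?_⟩
    have h2 := Real.log_le_rpow_div (by positivity : 0 ≤ 2 * Real.exp 1 / ‖x.1 - y.1‖) hs0
    calc Real.log (2 * Real.exp 1 / ‖x.1 - y.1‖) * ‖x.1 - y.1‖ ^ s ≤
          ((2 * Real.exp 1 / ‖x.1 - y.1‖) ^ s / s) * ‖x.1 - y.1‖ ^ s :=
            mul_le_mul_of_nonneg_right h2 (by positivity)
      _ = (2 * Real.exp 1) ^ s / s := by
            rw [Real.div_rpow (by positivity) hδ.le]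
            have : ‖x.1 - y.1‖ ^ s ≠ 0 := by positivity
            field_simp

/-- TARGET -/
theorem e_e2 (h1 : S_AA) (h2 : S_e2a) (h3 : S_bd) : S_e2 := by
  intro ε α hε0 hε1 hα
  set s := ε / 2 with hs
  have hs0 : 0 < s := by rw [hs]; linarith
  have hs1 : s < 1 := by rw [hs]; linarith
  set K := ∫ l in Set.Ioi (0:ℝ), l ^ (-s) / (1 + l) with hK
  have hK0 : 0 < K := eB3_pos s hs0 hs1
  set J := ∫ l in Set.Ioi (0:ℝ), l ^ (-s) * (1 + l) ^ (-1 + s / 2) with hJ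
  have hJ0 : 0 ≤ J := by
    rw [hJ]
    refine MeasureTheory.setIntegral_nonneg measurableSet_Ioi fun l hl => ?_
    have hl0 : 0 < l := hl
    positivity
  set M := Real.sqrt (8 / α) with hM
  have hM0 : 0 ≤ M := Real.sqrt_nonneg _
  set C := K⁻¹ * (2 * M ^ s * J) * ((2 * Real.exp 1) ^ s / s) with hC
  have hC0 : 0 ≤ C := by positivity
  refine ⟨max 1 C, fun v => ?_⟩
  set h := dg (fun m : ℤ => (((1 + α * (m : ℝ) ^ 2) ^ s : ℝ) : ℂ)) v with hh
  have hP : 0 ≤ p0 h := (norm_nonneg _).trans (eB3_le h3 ⟨1, norm_one⟩ h 1)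
  -- v in terms of h
  have hv : v = dg (fun m : ℤ => (((1 + α * (m : ℝ) ^ 2) ^ (-s) : ℝ) : ℂ)) h := by
    rw [hh, eB3_dd]
    have : (fun m : ℤ => (((1 + α * (m : ℝ) ^ 2) ^ (-s) : ℝ) : ℂ) *
        (((1 + α * (m : ℝ) ^ 2) ^ s : ℝ) : ℂ)) = fun _ => 1 := by
      funext m
      have hc : 0 < 1 + α * (m : ℝ) ^ 2 := by positivity
      rw [← Complex.ofReal_mul, ← Real.rpow_add hc]
      norm_num
    rw [this, eB3_d1]
  have hrep : ∀ (x : ℂ) (g : Gd), F0 x v g = ((K⁻¹ : ℝ) : ℂ) *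
      ∫ l in Set.Ioi (0:ℝ), ((l ^ (-s) : ℝ) : ℂ) *
        F0 x (dg (fun m : ℤ => (((1 + l + α * (m : ℝ) ^ 2 : ℝ) : ℂ))⁻¹) h) g := by
    intro x g
    rw [hv, eB3_F, eB3_rep s α hs0 hs1 hα]
    simp only [eB3_F]
    rfl
  constructor
  · refine (eB3_ge v (p0 h) fun x g => ?_).trans (le_mul_of_one_le_left hP (le_max_left _ _))
    rw [hrep, norm_mul, Complex.norm_real, Real.norm_of_nonneg (by positivity)]
    have b1 : ‖∫ l in Set.Ioi (0:ℝ), ((l ^ (-s) : ℝ) : ℂ) *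
        F0 x.1 (dg (fun m : ℤ => (((1 + l + α * (m : ℝ) ^ 2 : ℝ) : ℂ))⁻¹) h) g‖ ≤
        ∫ l in Set.Ioi (0:ℝ), l ^ (-s) / (1 + l) * p0 h := by
      refine MeasureTheory.norm_integral_le_of_norm_le ?_ ?_
      · exact (eB3_int s hs0 hs1 1 one_pos).mul_const _
      · rw [MeasureTheory.ae_restrict_iff' measurableSet_Ioi]
        refine Filter.Eventually.of_forall fun l hl => ?_
        have hl0 : 0 < l := hl
        rw [norm_mul, Complex.norm_real, Real.norm_of_nonneg (by positivity)]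
        have b2 := (eB3_le h3 x _ g).trans (eB3_res h2 h3 α hα h l hl0).1
        calc _ ≤ l ^ (-s) * ((1 + l)⁻¹ * p0 h) := mul_le_mul_of_nonneg_left b2 (by positivity)
          _ = l ^ (-s) / (1 + l) * p0 h := by ring
    rw [MeasureTheory.integral_mul_const] at b1
    calc K⁻¹ * _ ≤ K⁻¹ * (K * p0 h) := mul_le_mul_of_nonneg_left b1 (by positivity)
      _ = p0 h := by field_simp
  · intro x y
    have hd : F0 x.1 v 1 - F0 y.1 v 1 = ((K⁻¹ : ℝ) : ℂ) *
        ∫ l in Set.Ioi (0:ℝ), ((l ^ (-s) : ℝ) : ℂ) *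
          (F0 x.1 (dg (fun m : ℤ => (((1 + l + α * (m : ℝ) ^ 2 : ℝ) : ℂ))⁻¹) h) 1 -
            F0 y.1 (dg (fun m : ℤ => (((1 + l + α * (m : ℝ) ^ 2 : ℝ) : ℂ))⁻¹) h) 1) := by
      rw [hv, eB3_F, eB3_F, ← Finset.sum_sub_distrib]
      have e1 := eB3_rep s α hs0 hs1 hα h (fun m => pw m (mobI (1 : Gd).1 x.1) -
        pw m (mobI (1 : Gd).1 y.1))
      rw [← hK] at e1
      have e2 : ∀ c : ℤ → ℂ, F0 x.1 (dg c h) 1 - F0 y.1 (dg c h) 1 =
          ∑ m ∈ h.support, h m * (c m * (pw m (mobI (1 : Gd).1 x.1) -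
            pw m (mobI (1 : Gd).1 y.1))) := by
        intro c
        rw [eB3_F, eB3_F, ← Finset.sum_sub_distrib]
        refine Finset.sum_congr rfl fun m _ => ?_
        ring
      simp only [e2]
      rw [← e1]
      refine Finset.sum_congr rfl fun m _ => ?_
      ring
    set δ := ‖x.1 - y.1‖ with hδ
    have hδ0 : 0 ≤ δ := norm_nonneg _
    have b1 : ‖∫ l in Set.Ioi (0:ℝ), ((l ^ (-s) : ℝ) : ℂ) *
          (F0 x.1 (dg (fun m : ℤ => (((1 + l + α * (m : ℝ) ^ 2 : ℝ) : ℂ))⁻¹) h) 1 -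
            F0 y.1 (dg (fun m : ℤ => (((1 + l + α * (m : ℝ) ^ 2 : ℝ) : ℂ))⁻¹) h) 1)‖ ≤
        ∫ l in Set.Ioi (0:ℝ), l ^ (-s) * (1 + l) ^ (-1 + s / 2) * (2 * M ^ s * δ ^ s * p0 h) := by
      refine MeasureTheory.norm_integral_le_of_norm_le ?_ ?_
      · exact (eB3_int2 s hs0 hs1).mul_const _
      · rw [MeasureTheory.ae_restrict_iff' measurableSet_Ioi]
        refine Filter.Eventually.of_forall fun l hl => ?_
        have hl0 : 0 < l := hl
        rw [norm_mul, Complex.norm_real, Real.norm_of_nonneg (by positivity)]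
        obtain ⟨r1, r2⟩ := eB3_res h2 h3 α hα h l hl0
        have r3 := r2 x y
        rw [← hM, ← hδ] at r3
        have r4 : ‖F0 x.1 (dg (fun m : ℤ => (((1 + l + α * (m : ℝ) ^ 2 : ℝ) : ℂ))⁻¹) h) 1 -
            F0 y.1 (dg (fun m : ℤ => (((1 + l + α * (m : ℝ) ^ 2 : ℝ) : ℂ))⁻¹) h) 1‖ ≤
            2 * ((1 + l)⁻¹ * p0 h) := by
          refine (norm_sub_le _ _).trans ?_
          have := eB3_le h3 x (dg (fun m : ℤ => (((1 + l + α * (m : ℝ) ^ 2 : ℝ) : ℂ))⁻¹) h) 1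
          have := eB3_le h3 y (dg (fun m : ℤ => (((1 + l + α * (m : ℝ) ^ 2 : ℝ) : ℂ))⁻¹) h) 1
          linarith
        have r5 := eB3_interp _ (p0 h) δ M (1 + l) s (norm_nonneg _) hP hδ0 hM0 (by linarith)
          hs0 hs1 r4 r3
        calc _ ≤ l ^ (-s) * (2 * M ^ s * δ ^ s * p0 h * (1 + l) ^ (-1 + s / 2)) :=
              mul_le_mul_of_nonneg_left r5 (by positivity)
          _ = _ := by ring
    rw [MeasureTheory.integral_mul_const, ← hJ] at b1
    have b2 : ‖F0 x.1 v 1 - F0 y.1 v 1‖ ≤ K⁻¹ * (J * (2 * M ^ s * δ ^ s * p0 h)) := by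
      rw [hd, norm_mul, Complex.norm_real, Real.norm_of_nonneg (by positivity)]
      exact mul_le_mul_of_nonneg_left b1 (by positivity)
    obtain ⟨l1, l2⟩ := eB3_ell s hs0 x y
    rw [← hδ] at l2
    calc ell x.1 y.1 * ‖F0 x.1 v 1 - F0 y.1 v 1‖ ≤
          ell x.1 y.1 * (K⁻¹ * (J * (2 * M ^ s * δ ^ s * p0 h))) :=
            mul_le_mul_of_nonneg_left b2 l1
      _ = (K⁻¹ * (2 * M ^ s * J) * p0 h) * (ell x.1 y.1 * δ ^ s) := by ring
      _ ≤ (K⁻¹ * (2 * M ^ s * J) * p0 h) * ((2 * Real.exp 1) ^ s / s) :=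
            mul_le_mul_of_nonneg_left l2 (by positivity)
      _ = C * p0 h := by rw [hC]; ring
      _ ≤ max 1 C * p0 h := mul_le_mul_of_nonneg_right (le_max_right _ _) hP


end Pool.Agent.H913.LG
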