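import Pool.Agent.H913.LG.Stmts2

open Matrix NormedSpace
open scoped Matrix ComplexConjugate

namespace Pool.Agent.H913.LG

open Pool.Agent.H913.SGP Pool.Agent.H913.LGP

private theorem eFin_mobI_one (w : ℂ) : mobI 1 w = w := by
  have h1 : mt (1 : Gp)⁻¹ = 1 := by
    simp [mt]
  have ha : al (1 : Mat2) = 1 := by apply Complex.ext <;> simp [al]
  have hb : be (1 : Mat2) = 0 := by apply Complex.ext <;> simp [be]
  rw [mobI, h1, mob, ha, hb]
  simp

private theorem eFin_AA_one : AA 1 = 1 := by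
  have h1 : mt (1 : Gp) = 1 := by
    simp [mt]
  have ha : al (1 : Mat2) = 1 := by apply Complex.ext <;> simp [al]
  have hb : be (1 : Mat2) = 0 := by apply Complex.ext <;> simp [be]
  rw [AA, h1, ha, hb]
  simp

private theorem eFin_F0 (w : ℂ) (n : ℕ) (g : Gd) :
    F0 w (ee (n : ℤ)) g = mobI g.1 w ^ n := by
  rw [F0, ee, Finsupp.sum_single_index (by simp)]
  simp [pw]

private theorem eFin_ell_nonneg (x y : ℂ) (hx : ‖x‖ = 1) (hy : ‖y‖ = 1) : 0 ≤ ell x y := by
  rw [ell]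
  split_ifs with h
  · exact le_rfl
  · have h1 : 0 < ‖x - y‖ := norm_pos_iff.mpr (sub_ne_zero.mpr h)
    have h2 : ‖x - y‖ ≤ 2 := by
      have := norm_sub_le x y
      linarith
    apply Real.log_nonneg
    rw [le_div_iff₀ h1]
    have h3 := Real.add_one_le_exp (1 : ℝ)
    linarith

private theorem eFin_pow_sub (n : ℕ) (x y : ℂ) (hx : ‖x‖ = 1) (hy : ‖y‖ = 1) :
    ‖x ^ n - y ^ n‖ ≤ n * ‖x - y‖ := by
  induction n with
  | zero => simp
  | succ n ih =>
    have h1 : x ^ (n + 1) - y ^ (n + 1) = x * (x ^ n - y ^ n) + (x - y) * y ^ n := by ring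
    rw [h1]
    refine (norm_add_le _ _).trans ?_
    rw [norm_mul, norm_mul, norm_pow, hx, hy, one_pow, one_mul, mul_one]
    push_cast
    linarith

private theorem eFin_bdd (h1 : S_AA) (n : ℕ) :
    BddAbove (Set.range fun x : (Sc ⊕ (Sc × Sc)) × Gd => ‖Fq x.1 (ee (n : ℤ)) x.2‖ / wA x.2) := by
  obtain ⟨hA1, _, _, _, _, _, hlip, _, _, _, hcirc⟩ := h1
  have hw : ∀ g : Gd, 1 ≤ wA g := by
    intro g
    have := Real.log_nonneg (hA1 g.1)
    rw [wA]
    linarith
  refine ⟨2 * Real.exp 1 * n + 2, ?_⟩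
  rintro _ ⟨⟨a, g⟩, rfl⟩
  have hwg := hw g
  have hlog := Real.log_nonneg (hA1 g.1)
  have hn : (0 : ℝ) ≤ n := Nat.cast_nonneg n
  have he := Real.exp_pos (1 : ℝ)
  show ‖Fq a (ee (n : ℤ)) g‖ / wA g ≤ 2 * Real.exp 1 * n + 2
  rw [div_le_iff₀ (by linarith)]
  have hC : (0 : ℝ) ≤ 2 * Real.exp 1 * n := by positivity
  cases a with
  | inl w =>
    show ‖F0 w.1 (ee (n : ℤ)) g‖ ≤ _
    rw [eFin_F0, norm_pow, hcirc g.1 w.1 w.2, one_pow]
    nlinarith
  | inr x =>
    show ‖(ell x.1.1 x.2.1 : ℂ) * (F0 x.1.1 (ee (n : ℤ)) g - F0 x.2.1 (ee (n : ℤ)) g)‖ ≤ _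
    rw [eFin_F0, eFin_F0, norm_mul, Complex.norm_real, Real.norm_eq_abs,
      abs_of_nonneg (eFin_ell_nonneg _ _ x.1.2 x.2.2)]
    set x' := mobI g.1 x.1.1 with hx'
    set y' := mobI g.1 x.2.1 with hy'
    have nx : ‖x'‖ = 1 := hcirc g.1 _ x.1.2
    have ny : ‖y'‖ = 1 := hcirc g.1 _ x.2.2
    have hl := hlip g.1 _ _ x.1.2 x.2.2
    have hpow := eFin_pow_sub n x' y' nx ny
    have h2 : ‖x' ^ n - y' ^ n‖ ≤ 2 := by
      have := norm_sub_le (x' ^ n) (y' ^ n)
      rw [norm_pow, norm_pow, nx, ny, one_pow] at this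
      linarith
    rcases eq_or_ne x' y' with hxy | hxy
    · rw [hxy, sub_self, norm_zero, mul_zero]
      positivity
    · have hd : 0 < ‖x' - y'‖ := norm_pos_iff.mpr (sub_ne_zero.mpr hxy)
      have hne : x.1.1 ≠ x.2.1 := by
        intro h
        apply hxy
        rw [hx', hy', h]
      have hd0 : 0 < ‖x.1.1 - x.2.1‖ := norm_pos_iff.mpr (sub_ne_zero.mpr hne)
      have hApos : 0 < AA g.1 := by linarith [hA1 g.1]
      have hell : ell x.1.1 x.2.1 ≤ 2 * Real.exp 1 / ‖x' - y'‖ + Real.log (AA g.1) := by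
        rw [ell, if_neg hne]
        have h3 : Real.log (2 * Real.exp 1 / ‖x.1.1 - x.2.1‖) ≤
            Real.log (2 * Real.exp 1 / ‖x' - y'‖ * AA g.1) := by
          apply Real.log_le_log (by positivity)
          rw [div_mul_eq_mul_div, div_le_div_iff₀ hd0 hd]
          have h5 : 2 * Real.exp 1 * ‖x' - y'‖ ≤ 2 * Real.exp 1 * (AA g.1 * ‖x.1.1 - x.2.1‖) :=
            mul_le_mul_of_nonneg_left hl (by positivity)
          linarith
        rw [Real.log_mul (by positivity) hApos.ne'] at h3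
        have h4 := Real.log_le_self (x := 2 * Real.exp 1 / ‖x' - y'‖) (by positivity)
        linarith
      calc ell x.1.1 x.2.1 * ‖x' ^ n - y' ^ n‖
          ≤ (2 * Real.exp 1 / ‖x' - y'‖ + Real.log (AA g.1)) * ‖x' ^ n - y' ^ n‖ :=
            mul_le_mul_of_nonneg_right hell (norm_nonneg _)
        _ = 2 * Real.exp 1 / ‖x' - y'‖ * ‖x' ^ n - y' ^ n‖ +
            Real.log (AA g.1) * ‖x' ^ n - y' ^ n‖ := by ring
        _ ≤ 2 * Real.exp 1 / ‖x' - y'‖ * (n * ‖x' - y'‖) + Real.log (AA g.1) * 2 := by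
            gcongr
        _ = 2 * Real.exp 1 * n + Real.log (AA g.1) * 2 := by
            field_simp
        _ ≤ (2 * Real.exp 1 * n + 2) * wA g := by
            rw [wA]
            nlinarith [mul_nonneg hC hlog]

/-- TARGET -/
theorem e_e3 (h1 : S_AA) (h2 : S_bd) : S_e3 := by
  rintro ⟨C, hC⟩
  have one_mem : ‖(1 : ℂ)‖ = 1 := norm_one
  have : Nonempty (Sc × Gd) := ⟨(⟨1, one_mem⟩, 1)⟩
  have hp0 : ∀ n : ℕ, p0 (ee (n : ℤ)) ≤ 1 := by
    intro n
    rw [p0, famNorm]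
    apply ciSup_le
    rintro ⟨w, g⟩
    show ‖F0 w.1 (ee (n : ℤ)) g‖ / 1 ≤ 1
    rw [div_one]
    refine (h2.1 w.1 (ee (n : ℤ)) g w.2.le).trans ?_
    rw [ee, Finsupp.sum_single_index (by simp)]
    simp
  have hlow : ∀ n : ℕ, 1 ≤ n → 2 * Real.log n ≤ C * p0 (ee (n : ℤ)) := by
    intro n hn
    refine le_trans ?_ (hC (ee (n : ℤ)))
    have hn0 : (0 : ℝ) < n := by exact_mod_cast hn
    set y : ℂ := Complex.exp (((Real.pi / n : ℝ) : ℂ) * Complex.I) with hy
    have hyn : ‖y‖ = 1 := Complex.norm_exp_ofReal_mul_I _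
    have hypow : y ^ n = -1 := by
      rw [hy, ← Complex.exp_nat_mul]
      have : (n : ℂ) * (((Real.pi / n : ℝ) : ℂ) * Complex.I) = Real.pi * Complex.I := by
        push_cast
        have : (n : ℂ) ≠ 0 := by exact_mod_cast hn0.ne'
        field_simp
      rw [this, Complex.exp_pi_mul_I]
    have hval := le_ciSup (eFin_bdd h1 n) ((Sum.inr (⟨1, one_mem⟩, ⟨y, hyn⟩), (1 : Gd)) :
      (Sc ⊕ (Sc × Sc)) × Gd)
    have hval' : ‖(ell 1 y : ℂ) * (F0 1 (ee (n : ℤ)) 1 - F0 y (ee (n : ℤ)) 1)‖ / wA 1 ≤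
        qn (ee (n : ℤ)) := hval
    refine le_trans ?_ hval'
    have hw1 : wA (1 : Gd) = 1 := by
      rw [wA]
      show 1 + Real.log (AA 1) = 1
      rw [eFin_AA_one, Real.log_one, add_zero]
    rw [hw1, div_one, eFin_F0, eFin_F0]
    show 2 * Real.log n ≤ ‖(ell 1 y : ℂ) * (mobI 1 1 ^ n - mobI 1 y ^ n)‖
    rw [eFin_mobI_one, eFin_mobI_one, one_pow, hypow]
    have h3 : (1 : ℂ) - -1 = 2 := by norm_num
    rw [h3, norm_mul, Complex.norm_real, Real.norm_eq_abs,
      abs_of_nonneg (eFin_ell_nonneg _ _ one_mem hyn), Complex.norm_ofNat]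
    have hne : (1 : ℂ) ≠ y := by
      intro h
      rw [← h, one_pow] at hypow
      norm_num at hypow
    have hdpos : 0 < ‖1 - y‖ := norm_pos_iff.mpr (sub_ne_zero.mpr hne)
    have hd : ‖1 - y‖ ≤ Real.pi / n := by
      rw [norm_sub_rev, hy]
      have h8 := Real.norm_exp_I_mul_ofReal_sub_one_le (x := Real.pi / n)
      rw [Real.norm_of_nonneg (by positivity), mul_comm Complex.I] at h8
      exact h8
    have hell : Real.log n ≤ ell 1 y := by
      rw [ell, if_neg hne]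
      apply Real.log_le_log hn0
      rw [le_div_iff₀ hdpos]
      calc (n : ℝ) * ‖1 - y‖ ≤ n * (Real.pi / n) := by gcongr
        _ = Real.pi := by field_simp
        _ ≤ 2 * Real.exp 1 := by
          have h4 := Real.pi_lt_d2
          have h5 := Real.exp_one_gt_d9
          linarith
    linarith
  have htend : Filter.Tendsto (fun n : ℕ => Real.log n) Filter.atTop Filter.atTop :=
    Real.tendsto_log_atTop.comp tendsto_natCast_atTop_atTop
  obtain ⟨n, hn1, hn2⟩ := ((htend.eventually_gt_atTop |C|).and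
    (Filter.eventually_ge_atTop 1)).exists
  have h3 := hlow n hn2
  have h4 : C * p0 (ee (n : ℤ)) ≤ |C| := by
    have h5 : 0 ≤ p0 (ee (n : ℤ)) := by
      rw [p0, famNorm]
      apply Real.iSup_nonneg
      intro x
      positivity
    calc C * p0 (ee (n : ℤ)) ≤ |C| * p0 (ee (n : ℤ)) :=
          mul_le_mul_of_nonneg_right (le_abs_self C) h5
      _ ≤ |C| * 1 := mul_le_mul_of_nonneg_left (hp0 n) (abs_nonneg C)
      _ = |C| := mul_one _
  have h6 : |C| < Real.log n := hn1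
  have h7 := abs_nonneg C
  linarith

private theorem eFin_dg_one {I : Type} (c : I → ℂ) (hc : ∀ i, c i = 1) : dg c = 1 := by
  apply Finsupp.lhom_ext'
  intro i
  apply LinearMap.ext_ring
  show Finsupp.linearCombination ℂ (fun i => c i • ee i) (Finsupp.single i 1) = Finsupp.single i 1
  rw [Finsupp.linearCombination_single, one_smul, hc i, one_smul]

/-- TARGET -/
theorem e_e4 (h1 : S_basis) (h2 : S_pow) (h3 : S_e1) (h4 : S_e2) (h5 : S_good0) : S_e4 := by
  intro h m b hb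
  obtain ⟨p, q, hpq, hp, hq⟩ := h1.2 m b hb
  have hpow := (h2 ℤ M0 h m b p q hpq).2
  set α : ℝ := 4 * ∑ l, p l ^ 2 with hα
  have hαpos : 0 < α := by positivity
  have heig : ∀ i : ℤ, eig M0 p q i = α * (i : ℝ) ^ 2 := by
    intro i
    rw [eig, hα, Finset.mul_sum, Finset.sum_mul]
    apply Finset.sum_congr rfl
    intro l _
    simp only [M0]
    push_cast
    ring
  have hzero : (0 : ℝ) ∈ dSet (M0.toHC h) b p0 qn := by
    refine ⟨le_rfl, 1, ?_, ?_⟩
    · rw [hpow]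
      symm
      apply eFin_dg_one
      intro i
      simp
    · obtain ⟨C, hC⟩ := h3.2.2.1
      exact ⟨C, hC⟩
  have hs : ∀ s : ℝ, 0 < s → s < 1 → s ∈ dSet (M0.toHC h) b qn p0 := by
    intro s hs0 hs1
    refine ⟨hs0.le, dg fun i => (((1 + eig M0 p q i) ^ (s / 2) : ℝ) : ℂ), ?_, ?_⟩
    · rw [hpow]
    · obtain ⟨C, hC⟩ := h4 s α hs0 hs1 hαpos
      refine ⟨3 * C, fun v => ?_⟩
      have he : (fun i : ℤ => (((1 + eig M0 p q i) ^ (s / 2) : ℝ) : ℂ)) =
          fun i : ℤ => (((1 + α * (i : ℝ) ^ 2) ^ (s / 2) : ℝ) : ℂ) := by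
        funext i
        rw [heig]
      rw [he]
      obtain ⟨h6, h7⟩ := hC v
      have h8 := h3.2.2.2 v _ h7
      linarith
  refine ⟨?_, hzero, hs⟩
  have e1 : sInf (dSet (M0.toHC h) b p0 qn) = 0 := by
    apply le_antisymm
    · exact csInf_le ⟨0, fun x hx => hx.1⟩ hzero
    · exact Real.sInf_nonneg fun x hx => hx.1
  have e2 : sInf (dSet (M0.toHC h) b qn p0) = 0 := by
    apply le_antisymm
    · apply le_of_forall_pos_lt_add
      intro ε hε
      have hmin : 0 < min (ε / 2) (1 / 2) := by positivity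
      have h6 := hs (min (ε / 2) (1 / 2)) hmin
        (lt_of_le_of_lt (min_le_right _ _) (by norm_num))
      have h7 : sInf (dSet (M0.toHC h) b qn p0) ≤ min (ε / 2) (1 / 2) :=
        csInf_le ⟨0, fun x hx => hx.1⟩ h6
      have h8 := min_le_left (ε / 2) (1 / 2 : ℝ)
      linarith
    · exact Real.sInf_nonneg fun x hx => hx.1
  rw [sdist, e1, e2, max_self]

end Pool.Agent.H913.LG
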