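import Pool.Agent.H913.LG.Stmts2

open Matrix NormedSpace
open scoped Matrix ComplexConjugate

namespace Pool.Agent.H913.LG

open Pool.Agent.H913.SGP Pool.Agent.H913.LGP

/-! Proof. As for upF (see Stmts): let Y_l(g) = (p l • adJ g.1, q l • adJ g.2), B_l(g) = MT.A of it. K: adJ (g k).i = k_i⁻¹ adJ(g_i) k_i, compatibility ((MT.toHC h).isCompatible or MT.Good.rot through S_K): κ(k) B_l(gk) = B_l(g) κ(k). deriv: adJ (g γ(t)).i has derivative adJ(g_i) X_i - X_i adJ(g_i) at t = 0 (S_blk), so by h.br the derivative of B_l(gγ(t)) v is [B_l(g), Xop] v with Xop = MT.A X_1 X_2; expand MT.A in matrix units (h.add, h.smul: MT.A Y Z = MT.A Y 0 + MT.A 0 Z, MT.A (c•E) 0 = c • MT.A E 0) to differentiate FT w (B_l(gγ(t))² v)(gγ(t)) by the product rule; total derivative FT w (B_l(g)² Xop v) g. FT w is PreFam by S_preT (h3). Bound: |FT w u g| ≤ u.sum ‖c‖ =: r₀(u) (S_bd), B_l(g)² = combination of products of two MT.A(unit)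 with coefficients ≤ C (AA g.1 + AA g.2)² (S_AA entries bound); r v = r₀ v + C ∑ r₀(MT.A(..) MT.A(..) v); AA ≥ 1. -/

/-- coefficients of a pair of matrices -/
def fB1_co (X Y : Mat2) (a : Fin 2 × Fin 2 × Fin 2) : ℝ :=
  if a.1 = 0 then X a.2.1 a.2.2 else Y a.2.1 a.2.2

/-- matrix units -/
noncomputable def fB1_U {I : Type} (M : TMod I) (a : Fin 2 × Fin 2 × Fin 2) : Module.End ℂ (I →₀ ℂ) :=
  if a.1 = 0 then M.A (Matrix.single a.2.1 a.2.2 1) 0 else M.A 0 (Matrix.single a.2.1 a.2.2 1)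

theorem fB1_expX {I : Type} {M : TMod I} (h : M.Good) (Y : Mat2) :
    M.A Y 0 = ∑ p : Fin 2 × Fin 2, (Y p.1 p.2 : ℂ) • M.A (Matrix.single p.1 p.2 1) 0 := by
  let L : Mat2 →+ Module.End ℂ (I →₀ ℂ) := AddMonoidHom.mk' (fun Y => M.A Y 0) (by
    intro X Y
    have := h.add X Y 0 0
    rwa [add_zero] at this)
  have hs : ∀ (c : ℝ) (X : Mat2), M.A (c • X) 0 = (c : ℂ) • M.A X 0 := by
    intro c X
    have := h.smul c X 0
    rwa [smul_zero] at this
  have e : Y = ∑ p : Fin 2 × Fin 2, Y p.1 p.2 • Matrix.single p.1 p.2 (1 : ℝ) := by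
    rw [Fintype.sum_prod_type]
    conv_lhs => rw [Matrix.matrix_eq_sum_single Y]
    simp
  have e2 : L Y = ∑ p : Fin 2 × Fin 2, L (Y p.1 p.2 • Matrix.single p.1 p.2 (1 : ℝ)) := by
    rw [← map_sum, ← e]
  have e3 : ∀ Z, L Z = M.A Z 0 := fun Z => rfl
  simp only [e3, hs] at e2
  exact e2

theorem fB1_expY {I : Type} {M : TMod I} (h : M.Good) (Y : Mat2) :
    M.A 0 Y = ∑ p : Fin 2 × Fin 2, (Y p.1 p.2 : ℂ) • M.A 0 (Matrix.single p.1 p.2 1) := by
  let L : Mat2 →+ Module.End ℂ (I →₀ ℂ) := AddMonoidHom.mk' (fun Y => M.A 0 Y) (by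
    intro X Y
    have := h.add 0 0 X Y
    rwa [add_zero] at this)
  have hs : ∀ (c : ℝ) (X : Mat2), M.A 0 (c • X) = (c : ℂ) • M.A 0 X := by
    intro c X
    have := h.smul c 0 X
    rwa [smul_zero] at this
  have e : Y = ∑ p : Fin 2 × Fin 2, Y p.1 p.2 • Matrix.single p.1 p.2 (1 : ℝ) := by
    rw [Fintype.sum_prod_type]
    conv_lhs => rw [Matrix.matrix_eq_sum_single Y]
    simp
  have e2 : L Y = ∑ p : Fin 2 × Fin 2, L (Y p.1 p.2 • Matrix.single p.1 p.2 (1 : ℝ)) := by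
    rw [← map_sum, ← e]
  have e3 : ∀ Z, L Z = M.A 0 Z := fun Z => rfl
  simp only [e3, hs] at e2
  exact e2

theorem fB1_exp {I : Type} {M : TMod I} (h : M.Good) (X Y : Mat2) :
    M.A X Y = ∑ a : Fin 2 × Fin 2 × Fin 2, (fB1_co X Y a : ℂ) • fB1_U M a := by
  have e0 : M.A X Y = M.A X 0 + M.A 0 Y := by
    have := h.add X 0 0 Y
    rwa [add_zero, zero_add] at this
  rw [e0, fB1_expX h X, fB1_expY h Y, Fintype.sum_prod_type (f := fun a : Fin 2 × Fin 2 × Fin 2 =>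
    (fB1_co X Y a : ℂ) • fB1_U M a), Fin.sum_univ_two]
  rfl

/-- products of linear combinations -/
theorem fB1_sq0 {I : Type} {M : TMod I} (h : M.Good) (X Y X' Y' : Mat2) (v : I →₀ ℂ) :
    M.A X Y (M.A X' Y' v) = ∑ p : (Fin 2 × Fin 2 × Fin 2) × (Fin 2 × Fin 2 × Fin 2),
      ((fB1_co X Y p.1 : ℂ) * (fB1_co X' Y' p.2 : ℂ)) • fB1_U M p.1 (fB1_U M p.2 v) := by
  have e := Fintype.sum_prod_type (f := fun p : (Fin 2 × Fin 2 × Fin 2) × (Fin 2 × Fin 2 × Fin 2) =>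
    ((fB1_co X Y p.1 : ℂ) * (fB1_co X' Y' p.2 : ℂ)) • fB1_U M p.1 (fB1_U M p.2 v))
  rw [e]
  conv_lhs => rw [fB1_exp h X Y, fB1_exp h X' Y']
  simp only [LinearMap.sum_apply, LinearMap.smul_apply, map_sum, map_smul, Finset.smul_sum, smul_smul]
  rw [Finset.sum_comm]
  refine Finset.sum_congr rfl fun p _ => Finset.sum_congr rfl fun q _ => ?_
  rw [mul_comm]

/-- a member of a family is linear -/
noncomputable def fB1_L {I : Type} {M : TMod I} {h : M.Good} {B : Type} [NormedAddCommGroup B]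
    [NormedSpace ℂ B] {F : (I →₀ ℂ) → Gd → B} (hF : PreFam (M.toHC h) F) (g : Gd) : (I →₀ ℂ) →ₗ[ℂ] B where
  toFun := fun v => F v g
  map_add' := fun u v => hF.add u v g
  map_smul' := fun c v => hF.smul c v g

/-- products of linear combinations -/
theorem fB1_sq {I : Type} {M : TMod I} (h : M.Good) {B : Type} [NormedAddCommGroup B]
    [NormedSpace ℂ B] {F : (I →₀ ℂ) → Gd → B} (hF : PreFam (M.toHC h) F) (X Y X' Y' : Mat2) (v : I →₀ ℂ)
    (g : Gd) : F (M.A X Y (M.A X' Y' v)) g = ∑ p : (Fin 2 × Fin 2 × Fin 2) × (Fin 2 × Fin 2 × Fin 2),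
      ((fB1_co X Y p.1 : ℂ) * (fB1_co X' Y' p.2 : ℂ)) • F (fB1_U M p.1 (fB1_U M p.2 v)) g := by
  have eL : ∀ v, F v g = fB1_L hF g v := fun v => rfl
  simp only [eL]
  rw [fB1_sq0 h X Y X' Y']
  simp only [map_sum, map_smul]

theorem fB1_dY (A X : Mat2) :
    ∀ i j, HasDerivAt (fun t : ℝ => (exp (-(t • X)) * A * exp (t • X)) i j) ((A * X - X * A) i j) 0 := by
  let _ : NormedRing Mat2 := Matrix.linftyOpNormedRing
  let _ : NormedAlgebra ℝ Mat2 := Matrix.linftyOpNormedAlgebra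
  intro i j
  have h1 : HasDerivAt (fun t : ℝ => exp (t • X)) (exp ((0 : ℝ) • X) * X) 0 :=
    hasDerivAt_exp_smul_const X 0
  have h2 : HasDerivAt (fun t : ℝ => exp (t • (-X))) (exp ((0 : ℝ) • (-X)) * (-X)) 0 :=
    hasDerivAt_exp_smul_const (-X) 0
  have h3 := (h2.mul_const A).mul h1
  let ev : Mat2 →ₗ[ℝ] ℝ := Matrix.entryLinearMap ℝ ℝ i j
  have hc : Continuous ev := continuous_id.matrix_elem i j
  have h4 := (ContinuousLinearMap.hasFDerivAt (⟨ev, hc⟩ : Mat2 →L[ℝ] ℝ)).comp_hasDerivAt (0 : ℝ) h3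
  have e1 : exp (0 : Mat2) = 1 := NormedSpace.exp_zero
  have h5 := h4.congr_deriv (g' := (A * X - X * A) i j) (by
    show (exp ((0:ℝ) • -X) * -X * A * exp ((0:ℝ) • X) + exp ((0:ℝ) • -X) * A * (exp ((0:ℝ) • X) * X)) i j
      = (A * X - X * A) i j
    have e7 : exp ((0:ℝ) • -X) * -X * A * exp ((0:ℝ) • X) + exp ((0:ℝ) • -X) * A * (exp ((0:ℝ) • X) * X)
        = A * X - X * A := by
      rw [zero_smul, zero_smul, e1]
      simp only [one_mul, mul_one, neg_mul]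
      abel
    rw [e7])
  refine h5.congr_of_eventuallyEq (Filter.Eventually.of_forall fun t => ?_)
  show (exp (-(t • X)) * A * exp (t • X)) i j = (exp (t • -X) * A * exp (t • X)) i j
  rw [smul_neg]

theorem fB1_dco (A A' X X' : Mat2) (a : Fin 2 × Fin 2 × Fin 2) :
    HasDerivAt (fun t : ℝ => fB1_co (exp (-(t • X)) * A * exp (t • X)) (exp (-(t • X')) * A' * exp (t • X')) a)
      (fB1_co (A * X - X * A) (A' * X' - X' * A') a) 0 := by
  unfold fB1_co
  by_cases ha : a.1 = 0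
  · simp only [ha, if_true]
    exact fB1_dY A X _ _
  · simp only [ha, if_false]
    exact fB1_dY A' X' _ _

theorem fB1_inv (g : Gp) : mt g⁻¹ * mt g = 1 ∧ mt g * mt g⁻¹ = 1 := by
  constructor
  · have : (((g⁻¹ * g : Gp) : GL (Fin 2) ℝ) : Mat2) = 1 := by
      rw [inv_mul_cancel]; rfl
    exact this
  · have : (((g * g⁻¹ : Gp) : GL (Fin 2) ℝ) : Mat2) = 1 := by
      rw [mul_inv_cancel]; rfl
    exact this

theorem fB1_adJ_mul (g k : Gp) : adJ (g * k) = mt k⁻¹ * adJ g * mt k := by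
  have e1 : mt (g * k) = mt g * mt k := rfl
  have e2 : mt (g * k)⁻¹ = mt k⁻¹ * mt g⁻¹ := by rw [_root_.mul_inv_rev]; rfl
  unfold adJ
  rw [e1, e2]
  simp only [Matrix.mul_assoc]

theorem fB1_adJ_exp (g k : Gp) (X : Mat2) (t : ℝ) (e : mt k = exp (t • X)) :
    adJ (g * k) = exp (-(t • X)) * adJ g * exp (t • X) := by
  rw [fB1_adJ_mul, e]
  have e3 := (fB1_inv k).1
  rw [e] at e3
  have e4 : exp (t • X) * exp (-(t • X)) = 1 := by
    rw [← Matrix.exp_add_of_commute, add_neg_cancel, NormedSpace.exp_zero]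
    exact (Commute.refl _).neg_right
  have e5 : mt k⁻¹ = exp (-(t • X)) := by
    calc mt k⁻¹ = mt k⁻¹ * (exp (t • X) * exp (-(t • X))) := by rw [e4, mul_one]
      _ = exp (-(t • X)) := by rw [← mul_assoc, e3, one_mul]
  rw [e5]

theorem fB1_rr (s : ℝ) : rot s * rot (-s) = 1 := by
  ext i j
  fin_cases i <;> fin_cases j <;> simp [rot, Matrix.mul_apply, Fin.sum_univ_two] <;>
    nlinarith [Real.sin_sq_add_cos_sq s]

theorem fB1_conj (g k : Gp) (s c : ℝ) (e : mt k = rot s) :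
    rot s * (c • adJ (g * k)) * rot (-s) = c • adJ g := by
  have e2 := fB1_inv k
  have hrr := fB1_rr s
  rw [fB1_adJ_mul, mul_smul_comm, smul_mul_assoc, ← e] at *
  congr 1
  calc mt k * (mt k⁻¹ * adJ g * mt k) * rot (-s) = (mt k * mt k⁻¹) * adJ g * (mt k * rot (-s)) := by
        simp only [Matrix.mul_assoc]
    _ = adJ g := by rw [e2.2, hrr, one_mul, mul_one]

/-- one square -/
theorem fB1_pre1 (h1 : S_blk) (h2 : S_K) {I : Type} {M : TMod I} (h : M.Good) {B : Type} [NormedAddCommGroup B]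
    [NormedSpace ℂ B] {F : (I →₀ ℂ) → Gd → B} (hF : PreFam (M.toHC h) F) (p q : ℝ) :
    PreFam (M.toHC h) (fun v g => F (M.A (p • adJ g.1) (q • adJ g.2) (M.A (p • adJ g.1) (q • adJ g.2) v)) g) := by
  have hsub : ∀ u v g, F (u - v) g = F u g - F v g := by
    intro u v g
    have e := hF.add (u - v) v g
    rw [sub_add_cancel] at e
    rw [e, add_sub_cancel_right]
  refine ⟨?_, ?_, ?_, ?_⟩
  · intro u v g
    simp only [map_add, hF.add]
  · intro a v g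
    simp only [map_smul, hF.smul]
  · intro X γ hγ v g
    set X1 := b1 X.1 with hX1
    set X2 := b2 X.1 with hX2
    set Y := p • adJ g.1 with hY
    set Z := q • adJ g.2 with hZ
    have hXop : (M.toHC h).a X = M.A X1 X2 := rfl
    have hYt : ∀ t : ℝ, p • adJ (g * γ t).1 = exp (-(t • X1)) * Y * exp (t • X1) := by
      intro t
      have e := (h1.2.2 X γ hγ t).1
      have e0 : (g * γ t).1 = g.1 * (γ t).1 := rfl
      rw [e0, fB1_adJ_exp g.1 (γ t).1 X1 t e, hY, mul_smul_comm, smul_mul_assoc]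
    have hZt : ∀ t : ℝ, q • adJ (g * γ t).2 = exp (-(t • X2)) * Z * exp (t • X2) := by
      intro t
      have e := (h1.2.2 X γ hγ t).2
      have e0 : (g * γ t).2 = g.2 * (γ t).2 := rfl
      rw [e0, fB1_adJ_exp g.2 (γ t).2 X2 t e, hZ, mul_smul_comm, smul_mul_assoc]
    have hterm : ∀ a : (Fin 2 × Fin 2 × Fin 2) × (Fin 2 × Fin 2 × Fin 2), HasDerivAt (fun t : ℝ =>
        ((fB1_co (exp (-(t • X1)) * Y * exp (t • X1)) (exp (-(t • X2)) * Z * exp (t • X2)) a.1 : ℂ) *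
          (fB1_co (exp (-(t • X1)) * Y * exp (t • X1)) (exp (-(t • X2)) * Z * exp (t • X2)) a.2 : ℂ)) •
        F (fB1_U M a.1 (fB1_U M a.2 v)) (g * γ t))
        (((fB1_co Y Z a.1 : ℂ) * (fB1_co Y Z a.2 : ℂ)) •
          F (M.A X1 X2 (fB1_U M a.1 (fB1_U M a.2 v))) g +
        ((fB1_co (Y * X1 - X1 * Y) (Z * X2 - X2 * Z) a.1 : ℂ) * (fB1_co Y Z a.2 : ℂ) +
         (fB1_co Y Z a.1 : ℂ) * (fB1_co (Y * X1 - X1 * Y) (Z * X2 - X2 * Z) a.2 : ℂ)) •
          F (fB1_U M a.1 (fB1_U M a.2 v)) g) 0 := by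
      intro a
      have a1 := (fB1_dco Y Z X1 X2 a.1).ofReal_comp
      have a2 := (fB1_dco Y Z X1 X2 a.2).ofReal_comp
      have a3 := hF.deriv X γ hγ (fB1_U M a.1 (fB1_U M a.2 v)) g
      have a4 := (a1.mul a2).smul a3
      have e0 : exp (-((0:ℝ) • X1)) * Y * exp ((0:ℝ) • X1) = Y := by
        rw [zero_smul, neg_zero, NormedSpace.exp_zero, one_mul, mul_one]
      have e0' : exp (-((0:ℝ) • X2)) * Z * exp ((0:ℝ) • X2) = Z := by
        rw [zero_smul, neg_zero, NormedSpace.exp_zero, one_mul, mul_one]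
      have e00 : g * γ 0 = g := by
        have : γ 0 = 1 := by
          have := hγ.2.1 0 0
          rw [add_zero] at this
          exact (mul_eq_left.1 this.symm)
        rw [this, mul_one]
      refine a4.congr_deriv ?_
      simp only [Pi.mul_apply, e0, e0', e00, hXop]
    have hsum := HasDerivAt.fun_sum (u := Finset.univ) fun a (_ : a ∈ Finset.univ) => hterm a
    have heq : (fun t : ℝ => F (M.A (p • adJ (g * γ t).1) (q • adJ (g * γ t).2)
          (M.A (p • adJ (g * γ t).1) (q • adJ (g * γ t).2) v)) (g * γ t)) =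
        fun t : ℝ => ∑ a : (Fin 2 × Fin 2 × Fin 2) × (Fin 2 × Fin 2 × Fin 2),
        ((fB1_co (exp (-(t • X1)) * Y * exp (t • X1)) (exp (-(t • X2)) * Z * exp (t • X2)) a.1 : ℂ) *
          (fB1_co (exp (-(t • X1)) * Y * exp (t • X1)) (exp (-(t • X2)) * Z * exp (t • X2)) a.2 : ℂ)) •
        F (fB1_U M a.1 (fB1_U M a.2 v)) (g * γ t) := by
      funext t
      rw [fB1_sq h hF, hYt t, hZt t]
    show HasDerivAt (fun t : ℝ => F (M.A (p • adJ (g * γ t).1) (q • adJ (g * γ t).2)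
          (M.A (p • adJ (g * γ t).1) (q • adJ (g * γ t).2) v)) (g * γ t))
        (F (M.A Y Z (M.A Y Z (M.A X1 X2 v))) g) 0
    rw [heq]
    refine hsum.congr_deriv ?_
    rw [Finset.sum_add_distrib]
    simp only [add_smul, Finset.sum_add_distrib]
    rw [← fB1_sq h hF (Y * X1 - X1 * Y) (Z * X2 - X2 * Z) Y Z, ← fB1_sq h hF Y Z (Y * X1 - X1 * Y) (Z * X2 - X2 * Z)]
    have e6 : ∑ a : (Fin 2 × Fin 2 × Fin 2) × (Fin 2 × Fin 2 × Fin 2), ((fB1_co Y Z a.1 : ℂ) * (fB1_co Y Z a.2 : ℂ)) •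
          F (M.A X1 X2 (fB1_U M a.1 (fB1_U M a.2 v))) g =
        F (M.A X1 X2 (M.A Y Z (M.A Y Z v))) g := by
      have eL : ∀ v, F v g = fB1_L hF g v := fun v => rfl
      simp only [eL]
      rw [fB1_sq0 h Y Z Y Z]
      simp only [map_sum, map_smul]
    rw [e6]
    have ebr : M.A (Y * X1 - X1 * Y) (Z * X2 - X2 * Z) = M.A Y Z * M.A X1 X2 - M.A X1 X2 * M.A Y Z :=
      h.br Y X1 Z X2
    rw [ebr]
    simp only [LinearMap.sub_apply, Module.End.mul_apply, map_sub, hsub]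
    abel
  · intro k v g
    obtain ⟨cc, -, hsurj, hrot, hkap⟩ := h2
    obtain ⟨x, rfl⟩ := hsurj k
    have eκ : (M.toHC h).κ (cc x) = M.kst x.1 x.2 := hkap I M x
    have e1 : (g * (cc x).1).1 = g.1 * (cc x).1.1 := rfl
    have e2 : (g * (cc x).1).2 = g.2 * (cc x).1.2 := rfl
    have e4 : ∀ u, M.kst x.1 x.2 (M.A (p • adJ (g.1 * (cc x).1.1)) (q • adJ (g.2 * (cc x).1.2)) u) =
        M.A (p • adJ g.1) (q • adJ g.2) (M.kst x.1 x.2 u) := by
      intro u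
      have := h.rot x.1 x.2 (p • adJ (g.1 * (cc x).1.1)) (q • adJ (g.2 * (cc x).1.2))
      rw [fB1_conj g.1 (cc x).1.1 x.1 p (hrot x).1, fB1_conj g.2 (cc x).1.2 x.2 q (hrot x).2] at this
      have h5 := congrArg (fun T : Module.End ℂ (I →₀ ℂ) => T u) this
      simpa only [Module.End.mul_apply] using h5
    simp only [e1, e2]
    rw [hF.K, eκ, e4, e4]

/-- the sum of the norms of the coefficients -/
noncomputable def fB1_r0 {I : Type} (v : I →₀ ℂ) : ℝ := v.sum fun _ c => ‖c‖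

theorem fB1_r0_eq {I : Type} (v : I →₀ ℂ) (s : Finset I) (hs : v.support ⊆ s) : fB1_r0 v = ∑ i ∈ s, ‖v i‖ :=
  Finsupp.sum_of_support_subset v hs _ (fun _ _ => norm_zero)

theorem fB1_r0_SN (I : Type) : IsSN (fB1_r0 : (I →₀ ℂ) → ℝ) := by
  classical
  refine ⟨fun v => ?_, fun u v => ?_, fun c v => ?_⟩
  · exact Finset.sum_nonneg fun i _ => norm_nonneg _
  · rw [fB1_r0_eq (u + v) (u.support ∪ v.support) Finsupp.support_add,
      fB1_r0_eq u (u.support ∪ v.support) Finset.subset_union_left,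
      fB1_r0_eq v (u.support ∪ v.support) Finset.subset_union_right, ← Finset.sum_add_distrib]
    exact Finset.sum_le_sum fun i _ => norm_add_le _ _
  · rw [fB1_r0_eq (c • v) v.support Finsupp.support_smul, fB1_r0_eq v v.support (Finset.Subset.refl _), Finset.mul_sum]
    exact Finset.sum_congr rfl fun i _ => by rw [Finsupp.smul_apply, smul_eq_mul, norm_mul]

theorem fB1_r0_PB {I : Type} (sz : I → ℕ) : PB sz (fB1_r0 : (I →₀ ℂ) → ℝ) := by
  refine ⟨1, 0, fun i => ?_⟩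
  have : fB1_r0 (ee i) = 1 := by
    unfold fB1_r0 ee
    rw [Finsupp.sum_single_index (by simp)]
    simp
  rw [this]
  simp

theorem fB1_SN {I : Type} (T : Module.End ℂ (I →₀ ℂ)) (p : (I →₀ ℂ) → ℝ) (hp : IsSN p) :
    IsSN (fun v => p (T v)) where
  nonneg v := hp.nonneg _
  add u v := by
    simp only [map_add]
    exact hp.add _ _
  smul c v := by
    simp only [map_smul]
    exact hp.smul _ _

theorem fB1_zero {V : Type} [AddCommGroup V] [Module ℂ V] {p : V → ℝ} (hp : IsSN p) : p 0 = 0 := by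
  have := hp.smul 0 0
  simpa using this

theorem fB1_sum {V ι : Type} [AddCommGroup V] [Module ℂ V] {p : V → ℝ} (hp : IsSN p)
    (s : Finset ι) (f : ι → V) : p (∑ i ∈ s, f i) ≤ ∑ i ∈ s, p (f i) := by
  classical
  induction s using Finset.induction_on with
  | empty => simp [fB1_zero hp]
  | insert a s ha ih =>
    rw [Finset.sum_insert ha, Finset.sum_insert ha]
    exact (hp.add _ _).trans (add_le_add le_rfl ih)

theorem fB1_PB {I : Type} (M : TMod I) (sz : I → ℕ) (hsz : M.Size sz) (X Y : Mat2)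
    (p : (I →₀ ℂ) → ℝ) (hp : IsSN p) (hpb : PB sz p) : PB sz (fun v => p (M.A X Y v)) := by
  obtain ⟨C, N, hC⟩ := hpb
  obtain ⟨C', hC'⟩ := hsz.bd X Y
  refine ⟨|C| * 2 ^ N * |C'|, N + 1, fun i => ?_⟩
  set u := M.A X Y (ee i) with hu
  have h1 : u = ∑ j ∈ u.support, u j • ee j := by
    conv_lhs => rw [← Finsupp.sum_single u]
    unfold Finsupp.sum
    refine Finset.sum_congr rfl fun j _ => ?_
    simp [ee]
  have hs : (0 : ℝ) ≤ sz i := Nat.cast_nonneg _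
  have h2 : ∀ j ∈ u.support, p (u j • ee j) ≤ ‖u j‖ * (|C| * (2 ^ N * (1 + (sz i : ℝ)) ^ N)) := by
    intro j hj
    rw [hp.smul]
    refine mul_le_mul_of_nonneg_left ?_ (norm_nonneg _)
    refine (hC j).trans ?_
    have h3 : (sz j : ℝ) ≤ sz i + 1 := by exact_mod_cast hsz.supp X Y i j hj
    have h4 : (0 : ℝ) ≤ sz j := Nat.cast_nonneg _
    calc C * (1 + (sz j : ℝ)) ^ N ≤ |C| * (1 + (sz j : ℝ)) ^ N :=
          mul_le_mul_of_nonneg_right (le_abs_self C) (by positivity)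
      _ ≤ |C| * (2 * (1 + (sz i : ℝ))) ^ N := by
          refine mul_le_mul_of_nonneg_left ?_ (abs_nonneg _)
          exact pow_le_pow_left₀ (by positivity) (by linarith) N
      _ = |C| * (2 ^ N * (1 + (sz i : ℝ)) ^ N) := by rw [mul_pow]
  have h5 : p u ≤ ∑ j ∈ u.support, ‖u j‖ * (|C| * (2 ^ N * (1 + (sz i : ℝ)) ^ N)) := by
    conv_lhs => rw [h1]
    exact (fB1_sum hp _ _).trans (Finset.sum_le_sum h2)
  have h6 : ∑ j ∈ u.support, ‖u j‖ ≤ |C'| * (1 + (sz i : ℝ)) := by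
    refine (hC' i).trans ?_
    exact mul_le_mul_of_nonneg_right (le_abs_self C') (by positivity)
  calc p u ≤ ∑ j ∈ u.support, ‖u j‖ * (|C| * (2 ^ N * (1 + (sz i : ℝ)) ^ N)) := h5
    _ = (∑ j ∈ u.support, ‖u j‖) * (|C| * (2 ^ N * (1 + (sz i : ℝ)) ^ N)) := by
        rw [Finset.sum_mul]
    _ ≤ (|C'| * (1 + (sz i : ℝ))) * (|C| * (2 ^ N * (1 + (sz i : ℝ)) ^ N)) :=
        mul_le_mul_of_nonneg_right h6 (by positivity)
    _ = |C| * 2 ^ N * |C'| * (1 + (sz i : ℝ)) ^ (N + 1) := by ring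

theorem fB1_PBU {I : Type} (M : TMod I) (sz : I → ℕ) (hsz : M.Size sz) (a : Fin 2 × Fin 2 × Fin 2)
    (p : (I →₀ ℂ) → ℝ) (hp : IsSN p) (hpb : PB sz p) : PB sz (fun v => p (fB1_U M a v)) := by
  unfold fB1_U
  by_cases ha : a.1 = 0
  · simp only [ha, if_true]
    exact fB1_PB M sz hsz _ _ p hp hpb
  · simp only [ha, if_false]
    exact fB1_PB M sz hsz _ _ p hp hpb

theorem fB1_PBadd {I : Type} (sz : I → ℕ) (p q : (I →₀ ℂ) → ℝ) (hp : PB sz p) (hq : PB sz q) :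
    PB sz (fun v => p v + q v) := by
  obtain ⟨C, N, hC⟩ := hp
  obtain ⟨C', N', hC'⟩ := hq
  refine ⟨|C| + |C'|, max N N', fun i => ?_⟩
  have h1 : (1 : ℝ) ≤ 1 + (sz i : ℝ) := by
    have : (0 : ℝ) ≤ sz i := Nat.cast_nonneg _
    linarith
  have h2 : C * (1 + (sz i : ℝ)) ^ N ≤ |C| * (1 + (sz i : ℝ)) ^ max N N' := by
    refine mul_le_mul (le_abs_self C) (pow_le_pow_right₀ h1 (le_max_left _ _)) (by positivity)
      (abs_nonneg _)
  have h3 : C' * (1 + (sz i : ℝ)) ^ N' ≤ |C'| * (1 + (sz i : ℝ)) ^ max N N' := by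
    refine mul_le_mul (le_abs_self C') (pow_le_pow_right₀ h1 (le_max_right _ _)) (by positivity)
      (abs_nonneg _)
  calc p (ee i) + q (ee i) ≤ C * (1 + (sz i : ℝ)) ^ N + C' * (1 + (sz i : ℝ)) ^ N' :=
        add_le_add (hC i) (hC' i)
    _ ≤ |C| * (1 + (sz i : ℝ)) ^ max N N' + |C'| * (1 + (sz i : ℝ)) ^ max N N' := add_le_add h2 h3
    _ = (|C| + |C'|) * (1 + (sz i : ℝ)) ^ max N N' := by ring

theorem fB1_PBsum {I ι : Type} (sz : I → ℕ) (s : Finset ι) (p : ι → (I →₀ ℂ) → ℝ)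
    (hp : ∀ a, PB sz (p a)) : PB sz (fun v => ∑ a ∈ s, p a v) := by
  classical
  induction s using Finset.induction_on with
  | empty => exact ⟨0, 0, fun i => by simp⟩
  | insert a s ha ih =>
    obtain ⟨C, N, hC⟩ := fB1_PBadd sz _ _ (hp a) ih
    refine ⟨C, N, fun i => ?_⟩
    have h2 := hC i
    simp only [Finset.sum_insert ha]
    exact h2

theorem fB1_PBmul {I : Type} (sz : I → ℕ) (p : (I →₀ ℂ) → ℝ) (hp : PB sz p) (k : ℝ)
    (hk : 0 ≤ k) : PB sz (fun v => k * p v) := by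
  obtain ⟨C, N, hC⟩ := hp
  refine ⟨k * C, N, fun i => ?_⟩
  rw [mul_assoc]
  exact mul_le_mul_of_nonneg_left (hC i) hk

theorem fB1_co_le (h5 : S_AA) (p q : ℝ) (g : Gd) (a : Fin 2 × Fin 2 × Fin 2) :
    |fB1_co (p • adJ g.1) (q • adJ g.2) a| ≤ 2 * (|p| + |q|) * (AA g.1 + AA g.2) := by
  have hA1 : 1 ≤ AA g.1 := h5.1 g.1
  have hA2 : 1 ≤ AA g.2 := h5.1 g.2
  have hY : ∀ i j : Fin 2, |(adJ g.1) i j| ≤ 2 * AA g.1 := h5.2.2.2.2.1 g.1
  have hZ : ∀ i j : Fin 2, |(adJ g.2) i j| ≤ 2 * AA g.2 := h5.2.2.2.2.1 g.2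
  have hp := abs_nonneg p
  have hq := abs_nonneg q
  unfold fB1_co
  by_cases ha : a.1 = 0
  · simp only [ha, if_true, Matrix.smul_apply, smul_eq_mul, abs_mul]
    have h6 : |p| * |(adJ g.1) a.2.1 a.2.2| ≤ |p| * (2 * AA g.1) := mul_le_mul_of_nonneg_left (hY _ _) hp
    nlinarith [mul_nonneg hp (by linarith : (0:ℝ) ≤ AA g.2), mul_nonneg hq (by linarith : (0:ℝ) ≤ AA g.1 + AA g.2)]
  · simp only [ha, if_false, Matrix.smul_apply, smul_eq_mul, abs_mul]
    have h6 : |q| * |(adJ g.2) a.2.1 a.2.2| ≤ |q| * (2 * AA g.2) := mul_le_mul_of_nonneg_left (hZ _ _) hq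
    nlinarith [mul_nonneg hq (by linarith : (0:ℝ) ≤ AA g.1), mul_nonneg hp (by linarith : (0:ℝ) ≤ AA g.1 + AA g.2)]

theorem fB1_up {m : ℕ} (h3 : S_preT) (h : MT.Good) (p q : Fin m → ℝ) (w : ℂ × ℂ) (hw1 : ‖w.1‖ ≤ 1) (hw2 : ‖w.2‖ ≤ 1)
    (v : ℤ × ℤ →₀ ℂ) (g : Gd) : upT p q w v g = FT w v g -
      ∑ l, FT w (MT.A (p l • adJ g.1) (q l • adJ g.2) (MT.A (p l • adJ g.1) (q l • adJ g.2) v)) g := by
  have hF := h3 h w hw1 hw2
  have eL : ∀ v, FT w v g = fB1_L hF g v := fun v => rfl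
  unfold upT
  simp only [eL, map_sub, map_sum]

/-- TARGET -/
theorem f_f1 (h1 : S_blk) (h2 : S_K) (h3 : S_preT) (h4 : S_bd) (h5 : S_AA) (h6 : S_goodT) :
    S_f1 := by
  intro h m p q
  refine ⟨fun w hw1 hw2 => ?_, ?_⟩
  · have hF := h3 h w hw1 hw2
    have hG := fun l : Fin m => fB1_pre1 h1 h2 h hF (p l) (q l)
    have he : upT p q w = fun v g => FT w v g -
        ∑ l, FT w (MT.A (p l • adJ g.1) (q l • adJ g.2) (MT.A (p l • adJ g.1) (q l • adJ g.2) v)) g := by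
      funext v g
      exact fB1_up h3 h p q w hw1 hw2 v g
    rw [he]
    refine ⟨fun u v g => ?_, fun c v g => ?_, fun X γ hγ v g => ?_, fun k v g => ?_⟩
    · have e : ∀ l, FT w (MT.A (p l • adJ g.1) (q l • adJ g.2) (MT.A (p l • adJ g.1) (q l • adJ g.2) (u + v))) g =
          FT w (MT.A (p l • adJ g.1) (q l • adJ g.2) (MT.A (p l • adJ g.1) (q l • adJ g.2) u)) g +
          FT w (MT.A (p l • adJ g.1) (q l • adJ g.2) (MT.A (p l • adJ g.1) (q l • adJ g.2) v)) g :=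
        fun l => (hG l).add u v g
      simp only [e, hF.add, Finset.sum_add_distrib]
      ring
    · have e : ∀ l, FT w (MT.A (p l • adJ g.1) (q l • adJ g.2) (MT.A (p l • adJ g.1) (q l • adJ g.2) (c • v))) g =
          c • FT w (MT.A (p l • adJ g.1) (q l • adJ g.2) (MT.A (p l • adJ g.1) (q l • adJ g.2) v)) g :=
        fun l => (hG l).smul c v g
      simp only [e, hF.smul, ← Finset.smul_sum]
      rw [smul_sub]
    · have hd := (hF.deriv X γ hγ v g).sub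
        (HasDerivAt.fun_sum (u := Finset.univ) fun l (_ : l ∈ Finset.univ) => (hG l).deriv X γ hγ v g)
      exact hd
    · have e : ∀ l, FT w (MT.A (p l • adJ (g * k.1).1) (q l • adJ (g * k.1).2)
            (MT.A (p l • adJ (g * k.1).1) (q l • adJ (g * k.1).2) v)) (g * k.1) =
          FT w (MT.A (p l • adJ g.1) (q l • adJ g.2) (MT.A (p l • adJ g.1) (q l • adJ g.2) ((MT.toHC h).κ k v))) g :=
        fun l => (hG l).K k v g
      simp only [e, hF.K]
  · set K : ℝ := ∑ l, 4 * (|p l| + |q l|) ^ 2 with hK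
    have hK0 : 0 ≤ K := Finset.sum_nonneg fun l _ => by positivity
    have hr0 := fB1_r0_SN (ℤ × ℤ)
    refine ⟨fun v => fB1_r0 v + K * ∑ a : (Fin 2 × Fin 2 × Fin 2) × (Fin 2 × Fin 2 × Fin 2),
      fB1_r0 (fB1_U MT a.1 (fB1_U MT a.2 v)), ?_, ?_, ?_⟩
    · have hsn : ∀ a : (Fin 2 × Fin 2 × Fin 2) × (Fin 2 × Fin 2 × Fin 2),
          IsSN (fun v => fB1_r0 (fB1_U MT a.1 (fB1_U MT a.2 v))) := fun a =>
        fB1_SN (fB1_U MT a.2) _ (fB1_SN (fB1_U MT a.1) _ hr0)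
      refine ⟨fun v => ?_, fun u v => ?_, fun k v => ?_⟩
      · have h2 : 0 ≤ ∑ a : (Fin 2 × Fin 2 × Fin 2) × (Fin 2 × Fin 2 × Fin 2),
            fB1_r0 (fB1_U MT a.1 (fB1_U MT a.2 v)) := Finset.sum_nonneg fun a _ => (hsn a).nonneg v
        have h3 := hr0.nonneg v
        positivity
      · have h2 : ∑ a : (Fin 2 × Fin 2 × Fin 2) × (Fin 2 × Fin 2 × Fin 2),
            fB1_r0 (fB1_U MT a.1 (fB1_U MT a.2 (u + v))) ≤
            ∑ a : (Fin 2 × Fin 2 × Fin 2) × (Fin 2 × Fin 2 × Fin 2), (fB1_r0 (fB1_U MT a.1 (fB1_U MT a.2 u)) +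
              fB1_r0 (fB1_U MT a.1 (fB1_U MT a.2 v))) := Finset.sum_le_sum fun a _ => (hsn a).add u v
        rw [Finset.sum_add_distrib] at h2
        have h3 := hr0.add u v
        have h4 := mul_le_mul_of_nonneg_left h2 hK0
        linarith
      · have h2 : ∑ a : (Fin 2 × Fin 2 × Fin 2) × (Fin 2 × Fin 2 × Fin 2),
            fB1_r0 (fB1_U MT a.1 (fB1_U MT a.2 (k • v))) =
            ∑ a : (Fin 2 × Fin 2 × Fin 2) × (Fin 2 × Fin 2 × Fin 2), ‖k‖ * fB1_r0 (fB1_U MT a.1 (fB1_U MT a.2 v)) :=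
          Finset.sum_congr rfl fun a _ => (hsn a).smul k v
        rw [h2, hr0.smul, ← Finset.mul_sum]
        ring
    · refine fB1_PBadd szT _ _ (fB1_r0_PB szT) (fB1_PBmul szT _ ?_ _ hK0)
      refine fB1_PBsum szT _ _ fun a => ?_
      exact fB1_PBU MT szT h6.2 a.2 _ (fB1_SN (fB1_U MT a.1) _ hr0) (fB1_PBU MT szT h6.2 a.1 _ hr0 (fB1_r0_PB szT))
    · intro w hw1 hw2 v g
      have hF := h3 h w hw1 hw2
      have hA1 : 1 ≤ AA g.1 := h5.1 g.1
      have hA2 : 1 ≤ AA g.2 := h5.1 g.2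
      have hS : 1 ≤ (AA g.1 + AA g.2) ^ 2 := one_le_pow₀ (by linarith)
      have hb : ∀ u, ‖FT w u g‖ ≤ fB1_r0 u := fun u => h4.2.2.2 w u g hw1 hw2
      rw [fB1_up h3 h p q w hw1 hw2 v g]
      refine (norm_sub_le _ _).trans ?_
      have h7 : ‖FT w v g‖ ≤ fB1_r0 v * (AA g.1 + AA g.2) ^ 2 := by
        refine (hb v).trans ?_
        have := hr0.nonneg v
        nlinarith
      have h8 : ∀ l : Fin m, ‖FT w (MT.A (p l • adJ g.1) (q l • adJ g.2) (MT.A (p l • adJ g.1) (q l • adJ g.2) v)) g‖ ≤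
          (4 * (|p l| + |q l|) ^ 2) * ((AA g.1 + AA g.2) ^ 2 * ∑ a : (Fin 2 × Fin 2 × Fin 2) × (Fin 2 × Fin 2 × Fin 2),
            fB1_r0 (fB1_U MT a.1 (fB1_U MT a.2 v))) := by
        intro l
        rw [fB1_sq h hF]
        refine (norm_sum_le _ _).trans ?_
        rw [Finset.mul_sum, Finset.mul_sum]
        refine Finset.sum_le_sum fun a _ => ?_
        rw [norm_smul, norm_mul, Complex.norm_real, Complex.norm_real, Real.norm_eq_abs, Real.norm_eq_abs]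
        have h9 := fB1_co_le h5 (p l) (q l) g a.1
        have h10 := fB1_co_le h5 (p l) (q l) g a.2
        calc |fB1_co (p l • adJ g.1) (q l • adJ g.2) a.1| * |fB1_co (p l • adJ g.1) (q l • adJ g.2) a.2| *
              ‖FT w (fB1_U MT a.1 (fB1_U MT a.2 v)) g‖
            ≤ ((2 * (|p l| + |q l|) * (AA g.1 + AA g.2)) * (2 * (|p l| + |q l|) * (AA g.1 + AA g.2))) *
              fB1_r0 (fB1_U MT a.1 (fB1_U MT a.2 v)) := by
              refine mul_le_mul (mul_le_mul h9 h10 (abs_nonneg _) ((abs_nonneg _).trans h9)) (hb _) (norm_nonneg _) ?_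
              exact mul_nonneg ((abs_nonneg _).trans h9) ((abs_nonneg _).trans h9)
          _ = 4 * (|p l| + |q l|) ^ 2 * ((AA g.1 + AA g.2) ^ 2 * fB1_r0 (fB1_U MT a.1 (fB1_U MT a.2 v))) := by ring
      have h9 : ‖∑ l, FT w (MT.A (p l • adJ g.1) (q l • adJ g.2) (MT.A (p l • adJ g.1) (q l • adJ g.2) v)) g‖ ≤
          K * ((AA g.1 + AA g.2) ^ 2 * ∑ a : (Fin 2 × Fin 2 × Fin 2) × (Fin 2 × Fin 2 × Fin 2),
            fB1_r0 (fB1_U MT a.1 (fB1_U MT a.2 v))) := by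
        rw [hK, Finset.sum_mul]
        exact (norm_sum_le _ _).trans (Finset.sum_le_sum fun l _ => h8 l)
      refine (add_le_add h7 h9).trans (le_of_eq ?_)
      ring

end Pool.Agent.H913.LG
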