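import Pool.Agent.H913.LG.Stmts2

/- PROJECT LG (owner helper913): MP_c67f28_al, MP_d7c545_al, MP_a304db_al, MP_6a3a89_al: norms on Harish-Chandra modules of
G = GL(2,R)+ x GL(2,R)+ (Gd below); common infrastructure. -/

open Matrix NormedSpace
open scoped Matrix ComplexConjugate

namespace Pool.Agent.H913.LG

open Pool.Agent.H913.SGP Pool.Agent.H913.LGP

/-! Proof. Let T = dg(1+eig), (E,ι,π) with ‖ι v‖ = pT (T v). W g = max 1 ‖π g‖ is a weight (S_bs). v ↦ ‖ι v‖ is a seminorm and PB (pT ≤ r₀ = sum of |coefficients| on ee i, eig polynomially bounded), so Taylor (S_tay). For w ∈ Sc × Sc: upT p q w v 1 = FT w (T v) 1: adJ 1 = Jm and MT.A (x•Jm) (y•Jm) (ee i) = -I(x μ i + y ν i) ee i, so (1 - ∑ ..²) = T. |FT w (T v) 1| ≤ pT (T v) = ‖ι v‖ (pT is a sup over Sc × Sc and g, bounded above by S_bd). So v ↦ FT w (T v) 1 extends to L : E →L[ℂ] ℂ with ‖L‖ ≤ 1, L (ι v) = upT p q w v 1. S_id with F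 = upT p q w, r from S_f1, W' = (AA g.1 + AA g.2)^2 (a weight: (a+b)(a'+b') ≥ aa'+bb'; S_AA): L(π g (ι v)) = upT p q w v g. So |upT p q w v g| ≤ ‖π g‖ pT (T v). -/

theorem fB2_dg_ee {I : Type} (c : I → ℂ) (i : I) : dg c (ee i) = c i • ee i := by
  simp [dg, ee, Finsupp.linearCombination_single]

theorem fB2_adJ_one : adJ 1 = Jm := by
  simp [adJ, mt]

theorem fB2_AJ (h : MT.Good) (x y : ℝ) (i : ℤ × ℤ) :
    MT.A (x • Jm) (y • Jm) (ee i) =
      (-Complex.I * ((x * MT.μ i + y * MT.ν i : ℝ) : ℂ)) • ee i := by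
  have h1 : MT.A (x • Jm) (y • Jm) = MT.A (x • Jm) 0 + MT.A 0 (y • Jm) := by
    have := h.add (x • Jm) 0 0 (y • Jm)
    simpa using this
  have h2 : MT.A (x • Jm) 0 = (x : ℂ) • MT.A Jm 0 := by
    have := h.smul x Jm 0
    simpa using this
  have h3 : MT.A 0 (y • Jm) = (y : ℂ) • MT.A 0 Jm := by
    have := h.smul y 0 Jm
    simpa using this
  rw [h1, h2, h3]
  simp only [LinearMap.add_apply, LinearMap.smul_apply, h.J1, h.J2]
  rw [smul_smul, smul_smul, ← add_smul]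
  congr 1
  push_cast
  ring

theorem fB2_AJ2 (h : MT.Good) (x y : ℝ) (i : ℤ × ℤ) :
    MT.A (x • Jm) (y • Jm) (MT.A (x • Jm) (y • Jm) (ee i)) =
      (-((((x * MT.μ i + y * MT.ν i) ^ 2 : ℝ)) : ℂ)) • ee i := by
  rw [fB2_AJ h, map_smul, fB2_AJ h, smul_smul]
  congr 1
  push_cast
  linear_combination (x * MT.μ i + y * MT.ν i : ℂ) ^ 2 * Complex.I_sq

theorem fB2_T (h : MT.Good) {m : ℕ} (p q : Fin m → ℝ) (v : ℤ × ℤ →₀ ℂ) :
    v - ∑ l, MT.A (p l • Jm) (q l • Jm) (MT.A (p l • Jm) (q l • Jm) v) =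
      dg (fun i => ((1 + eig MT p q i : ℝ) : ℂ)) v := by
  have key : (1 : Module.End ℂ (ℤ × ℤ →₀ ℂ)) -
      ∑ l, MT.A (p l • Jm) (q l • Jm) * MT.A (p l • Jm) (q l • Jm) =
      dg (fun i => ((1 + eig MT p q i : ℝ) : ℂ)) := by
    refine Finsupp.lhom_ext' fun i => LinearMap.ext_ring ?_
    simp only [LinearMap.comp_apply, Finsupp.lsingle_apply, LinearMap.sub_apply, Module.End.one_apply,
      LinearMap.sum_apply, Module.End.mul_apply]
    have h1 := fB2_dg_ee (fun i => ((1 + eig MT p q i : ℝ) : ℂ)) i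
    have h2 : ∀ l, MT.A (p l • Jm) (q l • Jm) (MT.A (p l • Jm) (q l • Jm) (Finsupp.single i 1)) =
      (-((((p l * MT.μ i + q l * MT.ν i) ^ 2 : ℝ)) : ℂ)) • Finsupp.single i 1 := fun l =>
        fB2_AJ2 h (p l) (q l) i
    simp only [ee] at h1
    rw [h1]
    simp only [h2]
    rw [← Finset.sum_smul]
    have h3 : (Finsupp.single i (1:ℂ)) = (1 : ℂ) • Finsupp.single i (1:ℂ) := by simp
    nth_rewrite 1 [h3]
    rw [← sub_smul]
    congr 1
    simp [eig]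
  have := congrArg (fun f : Module.End ℂ (ℤ × ℤ →₀ ℂ) => f v) key
  simpa [LinearMap.sum_apply] using this

theorem fB2_upT_one (h : MT.Good) {m : ℕ} (p q : Fin m → ℝ) (w : ℂ × ℂ) (v : ℤ × ℤ →₀ ℂ) :
    upT p q w v 1 = FT w (dg (fun i => ((1 + eig MT p q i : ℝ) : ℂ)) v) 1 := by
  unfold upT
  have e1 : adJ (1 : Gd).1 = Jm := fB2_adJ_one
  have e2 : adJ (1 : Gd).2 = Jm := fB2_adJ_one
  rw [e1, e2, fB2_T h]

/-- `FT` is linear -/
noncomputable def fB2_lin (w : ℂ × ℂ) (g : Gd) : (ℤ × ℤ →₀ ℂ) →ₗ[ℂ] ℂ :=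
  Finsupp.linearCombination ℂ fun i => (pw i.1 (mobI g.1 w.1) * pw i.2 (mobI g.2 w.2))

theorem fB2_lin_apply (w : ℂ × ℂ) (g : Gd) (v : ℤ × ℤ →₀ ℂ) : fB2_lin w g v = FT w v g := by
  simp [fB2_lin, FT, Finsupp.linearCombination_apply]

theorem fB2_bdd (h6 : S_bd) (v : ℤ × ℤ →₀ ℂ) : BddAbove (Set.range fun x : (Sc × Sc) × Gd =>
    ‖FT (x.1.1.1, x.1.2.1) v x.2‖ / (1 : ℝ)) := by
  refine ⟨v.sum fun _ c => ‖c‖, ?_⟩
  rintro _ ⟨x, rfl⟩
  simp only [div_one]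
  exact h6.2.2.2 _ v _ (le_of_eq x.1.1.2) (le_of_eq x.1.2.2)

theorem fB2_le_pT (h6 : S_bd) (w : Sc × Sc) (v : ℤ × ℤ →₀ ℂ) (g : Gd) :
    ‖FT (w.1.1, w.2.1) v g‖ ≤ pT v := by
  have := le_ciSup (fB2_bdd h6 v) (w, g)
  simpa [pT, famNorm] using this

theorem fB2_pT_le (h6 : S_bd) (v : ℤ × ℤ →₀ ℂ) : pT v ≤ v.sum fun _ c => ‖c‖ := by
  unfold pT famNorm
  have : Nonempty ((Sc × Sc) × Gd) := ⟨((⟨1, by simp⟩, ⟨1, by simp⟩), 1)⟩
  refine ciSup_le fun x => ?_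
  simp only [div_one]
  exact h6.2.2.2 _ v _ (le_of_eq x.1.1.2) (le_of_eq x.1.2.2)

theorem fB2_weight (h1 : S_AA) : IsWeight fun g : Gd => (AA g.1 + AA g.2) ^ 2 := by
  have hA := h1.1
  have hc : Continuous AA := h1.2.2.2.1
  have hcont : Continuous fun g : Gd => (AA g.1 + AA g.2) ^ 2 :=
    ((hc.comp continuous_fst).add (hc.comp continuous_snd)).pow 2
  refine ⟨fun g => ?_, fun g => ?_, fun g k => ?_⟩
  · have a := hA g.1
    have b := hA g.2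
    positivity
  · refine ⟨{x | (AA x.1 + AA x.2) ^ 2 < (AA g.1 + AA g.2) ^ 2 + 1}, ?_,
      (AA g.1 + AA g.2) ^ 2 + 1, fun x hx => le_of_lt hx⟩
    exact (isOpen_lt hcont continuous_const).mem_nhds (by simp)
  · have a1 := hA g.1
    have a2 := hA g.2
    have b1 := hA k.1
    have b2 := hA k.2
    have c1 := hA (g * k).1
    have c2 := hA (g * k).2
    have d1 : AA (g * k).1 ≤ AA g.1 * AA k.1 := h1.2.1 g.1 k.1
    have d2 : AA (g * k).2 ≤ AA g.2 * AA k.2 := h1.2.1 g.2 k.2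
    rw [← mul_pow]
    refine pow_le_pow_left₀ (by linarith) ?_ 2
    have e1 : 0 ≤ AA g.1 * AA k.2 := by positivity
    have e2 : 0 ≤ AA g.2 * AA k.1 := by positivity
    nlinarith

theorem fB2_eig {m : ℕ} (p q : Fin m → ℝ) : ∃ C : ℝ, 0 ≤ C ∧ ∀ i, |1 + eig MT p q i| ≤
    C * (1 + (szT i : ℝ)) ^ 2 := by
  refine ⟨1 + ∑ l, (2 * (|p l| + |q l|)) ^ 2, by positivity, fun i => ?_⟩
  have hs : (szT i : ℝ) = |(i.1 : ℝ)| + |(i.2 : ℝ)| := by
    simp [szT, Nat.cast_natAbs]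
  have h0 : 0 ≤ eig MT p q i := Finset.sum_nonneg fun l _ => sq_nonneg _
  rw [abs_of_nonneg (by linarith)]
  have h1 : eig MT p q i ≤ (∑ l, (2 * (|p l| + |q l|)) ^ 2) * (1 + (szT i : ℝ)) ^ 2 := by
    unfold eig
    rw [Finset.sum_mul]
    refine Finset.sum_le_sum fun l _ => ?_
    rw [← mul_pow]
    refine sq_le_sq' ?_ ?_
    · have : |p l * (MT.μ i : ℝ) + q l * (MT.ν i : ℝ)| ≤
        2 * (|p l| + |q l|) * (1 + (szT i : ℝ)) := by
        refine (abs_add_le _ _).trans ?_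
        simp only [MT, abs_mul, hs]
        push_cast
        simp only [abs_mul, abs_two]
        have := abs_nonneg (p l)
        have := abs_nonneg (q l)
        have := abs_nonneg (i.1 : ℝ)
        have := abs_nonneg (i.2 : ℝ)
        nlinarith [mul_nonneg (abs_nonneg (p l)) (abs_nonneg (i.2 : ℝ)),
          mul_nonneg (abs_nonneg (q l)) (abs_nonneg (i.1 : ℝ))]
      exact (abs_le.1 this).1
    · have : |p l * (MT.μ i : ℝ) + q l * (MT.ν i : ℝ)| ≤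
        2 * (|p l| + |q l|) * (1 + (szT i : ℝ)) := by
        refine (abs_add_le _ _).trans ?_
        simp only [MT, abs_mul, hs]
        push_cast
        simp only [abs_mul, abs_two]
        have := abs_nonneg (p l)
        have := abs_nonneg (q l)
        have := abs_nonneg (i.1 : ℝ)
        have := abs_nonneg (i.2 : ℝ)
        nlinarith [mul_nonneg (abs_nonneg (p l)) (abs_nonneg (i.2 : ℝ)),
          mul_nonneg (abs_nonneg (q l)) (abs_nonneg (i.1 : ℝ))]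
      exact (abs_le.1 this).2
  have h2 : (1 : ℝ) ≤ (1 + (szT i : ℝ)) ^ 2 := by
    have : (0 : ℝ) ≤ szT i := Nat.cast_nonneg _
    nlinarith
  rw [add_mul, one_mul]
  linarith

/-- TARGET -/
theorem f_f2 (h1 : S_AA) (h2 : S_tay) (h3 : S_id) (h4 : S_bs) (h5 : S_f1) (h6 : S_bd)
    (h7 : S_goodT) : S_f2 := by
  intro h m p q hG g
  obtain ⟨E, iE1, iE2, iE3, ι, π, ⟨hinj, hdense, hcont, hK, hder⟩, hnorm⟩ := hG
  have hsize : MT.Size szT := h7.2
  set T := dg (fun i => ((1 + eig MT p q i : ℝ) : ℂ)) with hT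
  have hW : IsWeight fun g => max 1 ‖π g‖ := h4 E π hcont
  have hSN : IsSN fun v => ‖ι v‖ := by
    refine ⟨fun v => norm_nonneg _, fun u v => ?_, fun c v => ?_⟩
    · simp only [map_add]; exact norm_add_le _ _
    · simp only [map_smul]; exact norm_smul _ _
  have hPB : PB szT fun v => ‖ι v‖ := by
    obtain ⟨C, hC0, hC⟩ := fB2_eig p q
    refine ⟨C, 2, fun i => ?_⟩
    simp only
    rw [← hnorm (ee i)]
    refine (fB2_pT_le h6 _).trans ?_
    rw [fB2_dg_ee]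
    rw [Finsupp.smul_single, Finsupp.sum_single_index (by simp)]
    simp only [smul_eq_mul, mul_one, Complex.norm_real, Real.norm_eq_abs]
    exact hC i
  have hTay : Taylor (MT.toHC h) fun v => ‖ι v‖ := h2 _ MT h szT hsize _ hSN hPB
  obtain ⟨hpre, r, hrSN, hrPB, hr⟩ := h5 h m p q
  have hTayr : Taylor (MT.toHC h) r := h2 _ MT h szT hsize _ hrSN hrPB
  refine ⟨‖π g‖, fun w v => ?_⟩
  have hw1 : ‖((w.1.1, w.2.1) : ℂ × ℂ).1‖ ≤ 1 := le_of_eq w.1.2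
  have hw2 : ‖((w.1.1, w.2.1) : ℂ × ℂ).2‖ ≤ 1 := le_of_eq w.2.2
  -- the functional
  let ℓ : (ℤ × ℤ →₀ ℂ) →ₗ[ℂ] ℂ := (fB2_lin (w.1.1, w.2.1) 1).comp T
  have hℓ : ∀ v, ℓ v = upT p q (w.1.1, w.2.1) v 1 := by
    intro v
    rw [fB2_upT_one h, ← fB2_lin_apply]
    rfl
  have hℓb : ∀ v, ‖ℓ v‖ ≤ ‖ι v‖ := by
    intro v
    rw [← hnorm v]
    have : ℓ v = FT (w.1.1, w.2.1) (T v) 1 := by
      rw [← fB2_lin_apply]; rfl
    rw [this]
    exact fB2_le_pT h6 w (T v) 1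
  let e := LinearEquiv.ofInjective ι hinj
  let f0 : (LinearMap.range ι) →ₗ[ℂ] ℂ := ℓ.comp e.symm.toLinearMap
  have hf0 : ∀ x, ‖f0 x‖ ≤ 1 * ‖x‖ := by
    intro x
    have hx : ι (e.symm x) = x := by
      have := e.apply_symm_apply x
      exact congrArg Subtype.val this
    rw [one_mul]
    calc ‖f0 x‖ = ‖ℓ (e.symm x)‖ := rfl
      _ ≤ ‖ι (e.symm x)‖ := hℓb _
      _ = ‖x‖ := by rw [hx]; rfl
  obtain ⟨L, hL, hLn⟩ := exists_extension_norm_eq (LinearMap.range ι) (f0.mkContinuous 1 hf0)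
  have hL1 : ‖L‖ ≤ 1 := by
    rw [hLn]
    exact LinearMap.mkContinuous_norm_le _ zero_le_one _
  have hLι : ∀ v, L (ι v) = ℓ v := by
    intro v
    have := hL (e v)
    have h' : ((e v : LinearMap.range ι) : E) = ι v := rfl
    rw [h'] at this
    rw [this]
    simp [f0]
  have key := h3 _ (MT.toHC h) E ι π (fun g => max 1 ‖π g‖) hW (fun g => le_max_right _ _) hder hTay
    ℂ L (upT p q (w.1.1, w.2.1)) r (fun g => (AA g.1 + AA g.2) ^ 2) (fB2_weight h1) hrSN.nonneg hTayr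
    (hpre _ hw1 hw2).deriv (fun v g => hr _ hw1 hw2 v g) (fun v => by rw [hLι, hℓ]) v g
  rw [← key]
  calc ‖L (π g (ι v))‖ ≤ ‖L‖ * ‖π g (ι v)‖ := L.le_opNorm _
    _ ≤ 1 * ‖π g (ι v)‖ := by gcongr
    _ = ‖π g (ι v)‖ := one_mul _
    _ ≤ ‖π g‖ * ‖ι v‖ := (π g).le_opNorm _
    _ = ‖π g‖ * pT (T v) := by rw [← hnorm v]

end Pool.Agent.H913.LG
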