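import Pool.Agent.H913.LG.Stmts2

open Matrix NormedSpace
open scoped Matrix ComplexConjugate

namespace Pool.Agent.H913.LG

open Pool.Agent.H913.SGP Pool.Agent.H913.LGP

/-- Laurent polynomials in two variables -/
abbrev fB3_A := AddMonoidAlgebra ℂ (ℤ × ℤ)

/-- multiplication of the coefficients by a function -/
noncomputable def fB3_L (c : ℤ × ℤ → ℂ) : fB3_A →ₗ[ℂ] fB3_A :=
  (AddMonoidAlgebra.coeffLinearEquiv ℂ).symm.toLinearMap ∘ₗ dg c ∘ₗ
    (AddMonoidAlgebra.coeffLinearEquiv ℂ).toLinearMap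

theorem fB3_L_single (c : ℤ × ℤ → ℂ) (i : ℤ × ℤ) (r : ℂ) :
    fB3_L c (AddMonoidAlgebra.single i r) = AddMonoidAlgebra.single i (c i * r) := by
  simp only [fB3_L, LinearMap.comp_apply, LinearEquiv.coe_coe]
  change AddMonoidAlgebra.ofCoeff (dg c (Finsupp.single i r)) = _
  rw [dg, Finsupp.linearCombination_single, smul_smul, Finsupp.smul_single, smul_eq_mul, mul_one,
    mul_comm]
  rfl

theorem fB3_L_mul (c : ℤ × ℤ →+ ℂ) (a b : fB3_A) :
    fB3_L c (a * b) = a • fB3_L c b + b • fB3_L c a := by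
  induction a using AddMonoidAlgebra.induction_linear with
  | zero => simp
  | add x y hx hy =>
    rw [add_mul, map_add, hx, hy, map_add, add_smul, smul_add]
    abel
  | single i r =>
    induction b using AddMonoidAlgebra.induction_linear with
    | zero => simp
    | add x y hx hy =>
      rw [mul_add, map_add, hx, hy, map_add, add_smul, smul_add]
      abel
    | single j s =>
      simp only [AddMonoidAlgebra.single_mul_single, fB3_L_single, smul_eq_mul, map_add]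
      rw [add_comm j i, ← AddMonoidAlgebra.single_add]
      congr 1
      ring

/-- derivations -/
noncomputable def fB3_D (c : ℤ × ℤ →+ ℂ) : Derivation ℂ fB3_A fB3_A :=
  Derivation.mk' (fB3_L c) (fB3_L_mul c)

theorem fB3_D_single (c : ℤ × ℤ →+ ℂ) (i : ℤ × ℤ) (r : ℂ) :
    fB3_D c (AddMonoidAlgebra.single i r) = AddMonoidAlgebra.single i (c i * r) :=
  fB3_L_single c i r

/-- `-i ∂_φ` -/
noncomputable def fB3_d1 : Derivation ℂ fB3_A fB3_A :=
  fB3_D ((Int.castAddHom ℂ).comp (AddMonoidHom.fst ℤ ℤ))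

/-- `-i ∂_ψ` -/
noncomputable def fB3_d2 : Derivation ℂ fB3_A fB3_A :=
  fB3_D ((Int.castAddHom ℂ).comp (AddMonoidHom.snd ℤ ℤ))

theorem fB3_d1s (m n : ℤ) (r : ℂ) : fB3_d1 (AddMonoidAlgebra.single (m, n) r) =
    AddMonoidAlgebra.single (m, n) ((m : ℂ) * r) := by
  rw [fB3_d1, fB3_D_single]
  rfl

theorem fB3_d2s (m n : ℤ) (r : ℂ) : fB3_d2 (AddMonoidAlgebra.single (m, n) r) =
    AddMonoidAlgebra.single (m, n) ((n : ℂ) * r) := by
  rw [fB3_d2, fB3_D_single]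
  rfl

/-- the first operator -/
theorem fB3_T {k : ℕ} (p q : Fin k → ℝ) (v : ℤ × ℤ →₀ ℂ) :
    (AddMonoidAlgebra.ofCoeff (dg (fun i => ((1 + eig MT p q i : ℝ) : ℂ)) v) : fB3_A) =
    AddMonoidAlgebra.ofCoeff v + ((4 * ∑ l, p l ^ 2 : ℝ) : ℂ) • fB3_d1 (fB3_d1 (AddMonoidAlgebra.ofCoeff v))
     + ((8 * ∑ l, p l * q l : ℝ) : ℂ) • fB3_d2 (fB3_d1 (AddMonoidAlgebra.ofCoeff v))
     + ((4 * ∑ l, q l ^ 2 : ℝ) : ℂ) • fB3_d2 (fB3_d2 (AddMonoidAlgebra.ofCoeff v)) := by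
  induction v using Finsupp.induction_linear with
  | zero => simp
  | add x y hx hy =>
    simp only [map_add, AddMonoidAlgebra.ofCoeff_add, smul_add] at hx hy ⊢
    rw [hx, hy]
    abel
  | single i r =>
    obtain ⟨m, n⟩ := i
    rw [dg, Finsupp.linearCombination_single]
    simp only [AddMonoidAlgebra.ofCoeff_single, fB3_d1s, fB3_d2s, AddMonoidAlgebra.smul_single,
      AddMonoidAlgebra.ofCoeff_smul, smul_eq_mul, ← AddMonoidAlgebra.single_add]
    congr 1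
    have h : eig MT p q (m, n) = 4 * (∑ l, p l ^ 2) * m ^ 2 + 8 * (∑ l, p l * q l) * m * n +
        4 * (∑ l, q l ^ 2) * n ^ 2 := by
      simp only [eig, MT, Finset.mul_sum, Finset.sum_mul, ← Finset.sum_add_distrib]
      refine Finset.sum_congr rfl fun l _ => ?_
      push_cast
      ring
    rw [h]
    push_cast
    ring

/-- `h(φ)` -/
noncomputable def fB3_H : fB3_A :=
  AddMonoidAlgebra.single (0, 0) (5 / 2) + AddMonoidAlgebra.single (1, 0) (3 / 4) +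
    AddMonoidAlgebra.single (-1, 0) (3 / 4)

theorem fB3_MT (p q : ℝ) (v : ℤ × ℤ →₀ ℂ) :
    (AddMonoidAlgebra.ofCoeff (MT.A (p • !![0, -1/2; 2, 0]) (q • Jm) v) : fB3_A) =
    (-Complex.I * p) • (fB3_H * fB3_d1 (AddMonoidAlgebra.ofCoeff v)) +
      (-Complex.I * (2 * q)) • fB3_d2 (AddMonoidAlgebra.ofCoeff v) := by
  have ha : al (p • !![0, -1/2; 2, 0]) = (((5 / 4 : ℝ) * p : ℝ) : ℂ) * Complex.I := by
    apply Complex.ext <;> simp [al]
    ring
  have hb : be (p • !![0, -1/2; 2, 0]) = (((3 / 4 : ℝ) * p : ℝ) : ℂ) * Complex.I := by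
    apply Complex.ext <;> simp [be]
    ring
  have ha2 : al (q • Jm) = ((q : ℝ) : ℂ) * Complex.I := by
    apply Complex.ext <;> simp [al, Jm]
  have hb2 : be (q • Jm) = 0 := by
    apply Complex.ext <;> simp [be, Jm]
  induction v using Finsupp.induction_linear with
  | zero => simp
  | add x y hx hy =>
    simp only [map_add, AddMonoidAlgebra.ofCoeff_add, smul_add, mul_add] at hx hy ⊢
    rw [hx, hy]
    abel
  | single i r =>
    obtain ⟨m, n⟩ := i
    have h1 : (((5 / 4 : ℝ) * p : ℝ) : ℂ) * Complex.I = ⟨0, (5 / 4 : ℝ) * p⟩ := by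
      apply Complex.ext <;> simp
    have h2 : ((q : ℝ) : ℂ) * Complex.I = ⟨0, q⟩ := by
      apply Complex.ext <;> simp
    have h3 : conj ((((3 / 4 : ℝ) * p : ℝ) : ℂ) * Complex.I) = -((((3 / 4 : ℝ) * p : ℝ) : ℂ) * Complex.I) := by
      rw [map_mul, Complex.conj_ofReal, Complex.conj_I, mul_neg]
    simp only [MT, Finsupp.linearCombination_single, vfm, ha, hb, ha2, hb2, h1, h2, h3,
      Finsupp.mapDomain_add, Finsupp.mapDomain_single, AddMonoidAlgebra.ofCoeff_smul,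
      AddMonoidAlgebra.ofCoeff_add, AddMonoidAlgebra.ofCoeff_single, fB3_d1s, fB3_d2s, fB3_H,
      add_mul, AddMonoidAlgebra.single_mul_single, Prod.mk_add_mk, zero_add,
      AddMonoidAlgebra.smul_single, smul_add, smul_eq_mul, map_zero, mul_zero,
      AddMonoidAlgebra.single_zero]
    have e1 : (1 + m, n) = (m + 1, n) := by rw [add_comm]
    have e2 : (-1 + m, n) = (m - 1, n) := by rw [neg_add_eq_sub]
    have c1 : r * (-(m : ℂ) * (((3 / 4 * p : ℝ) : ℂ) * Complex.I)) =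
        -Complex.I * p * (3 / 4 * (m * r)) := by push_cast; ring
    have c2 : r * (-(m : ℂ) * (2 * Complex.I * ((5 / 4 * p : ℝ) : ℂ))) =
        -Complex.I * p * (5 / 2 * (m * r)) := by push_cast; ring
    have c3 : r * ((m : ℂ) * -(((3 / 4 * p : ℝ) : ℂ) * Complex.I)) =
        -Complex.I * p * (3 / 4 * (m * r)) := by push_cast; ring
    have c4 : r * (-(n : ℂ) * (2 * Complex.I * (q : ℂ))) =
        -Complex.I * (2 * q) * (n * r) := by ring
    rw [e1, e2, c1, c2, c3, c4, smul_zero]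
    abel

/-- evaluation -/
noncomputable def fB3_ev (x y : ℂˣ) : fB3_A →ₐ[ℂ] ℂ :=
  AddMonoidAlgebra.lift ℂ ℂ (ℤ × ℤ)
    { toFun := fun i => ((x ^ i.toAdd.1 * y ^ i.toAdd.2 : ℂˣ) : ℂ)
      map_one' := by simp
      map_mul' := by
        intro i j
        rw [← Units.val_mul]
        congr 1
        rw [toAdd_mul, Prod.fst_add, Prod.snd_add, _root_.zpow_add, _root_.zpow_add]
        exact mul_mul_mul_comm _ _ _ _ }

theorem fB3_ev_single (x y : ℂˣ) (m n : ℤ) (r : ℂ) :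
    fB3_ev x y (AddMonoidAlgebra.single (m, n) r) = r * ((x : ℂ) ^ m * (y : ℂ) ^ n) := by
  rw [fB3_ev, AddMonoidAlgebra.lift_single]
  simp

theorem fB3_pw (m : ℤ) (z : ℂ) (hz : ‖z‖ = 1) : pw m z = z ^ m := by
  have hz0 : z ≠ 0 := by
    intro h; rw [h, norm_zero] at hz; exact zero_ne_one hz
  have hc : conj z = z⁻¹ := by
    rw [Complex.inv_def, Complex.normSq_eq_norm_sq, hz]
    simp
  unfold pw
  split_ifs with h
  · conv_rhs => rw [← Int.toNat_of_nonneg h]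
    rw [zpow_natCast]
  · rw [hc, inv_pow]
    have h2 : m = -((-m).toNat : ℤ) := by omega
    conv_rhs => rw [h2]
    rw [_root_.zpow_neg, zpow_natCast]

theorem fB3_FT (w : ℂ × ℂ) (v : ℤ × ℤ →₀ ℂ) (g : Gd) (x y : ℂˣ) (hx : (x : ℂ) = mobI g.1 w.1)
    (hy : (y : ℂ) = mobI g.2 w.2) (hx1 : ‖mobI g.1 w.1‖ = 1) (hy1 : ‖mobI g.2 w.2‖ = 1) :
    FT w v g = fB3_ev x y (AddMonoidAlgebra.ofCoeff v) := by
  rw [fB3_ev, AddMonoidAlgebra.lift_apply, FT]
  refine Finset.sum_congr rfl fun i _ => ?_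
  beta_reduce
  rw [fB3_pw _ _ hx1, fB3_pw _ _ hy1, ← hx, ← hy]
  simp

/-- partial sums of `-log σ` -/
noncomputable def fB3_P (n : ℕ) : Polynomial ℂ :=
  ∑ j ∈ Finset.range n, Polynomial.C (1 / ((j : ℂ) + 1)) * (1 - Polynomial.X) ^ (j + 1)

theorem fB3_P1 (n : ℕ) : Polynomial.X * (fB3_P n).derivative =
    (1 - Polynomial.X) ^ n - (1 : Polynomial ℂ) := by
  have h : (fB3_P n).derivative = - ∑ j ∈ Finset.range n, (1 - Polynomial.X) ^ j := by
    rw [fB3_P, Polynomial.derivative_sum, ← Finset.sum_neg_distrib]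
    refine Finset.sum_congr rfl fun j _ => ?_
    rw [Polynomial.derivative_mul, Polynomial.derivative_C, zero_mul, zero_add,
      Polynomial.derivative_pow, Polynomial.derivative_sub, Polynomial.derivative_one,
      Polynomial.derivative_X, Nat.add_sub_cancel]
    have h2 : (Polynomial.C (1 / ((j : ℂ) + 1)) : Polynomial ℂ) * Polynomial.C (((j + 1 : ℕ)) : ℂ) = 1 := by
      rw [← Polynomial.C_mul]
      have : (1 / ((j : ℂ) + 1)) * ((j + 1 : ℕ) : ℂ) = 1 := by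
        have : ((j : ℂ) + 1) ≠ 0 := by exact_mod_cast Nat.succ_ne_zero j
        push_cast
        field_simp
      rw [this, Polynomial.C_1]
    calc _ = ((Polynomial.C (1 / ((j : ℂ) + 1)) : Polynomial ℂ) * Polynomial.C (((j + 1 : ℕ)) : ℂ)) *
          ((1 - Polynomial.X) ^ j * (0 - 1)) := by ring
      _ = _ := by rw [h2]; ring
  have h3 := mul_neg_geom_sum (1 - Polynomial.X : Polynomial ℂ) n
  rw [sub_sub_cancel] at h3
  rw [h, mul_neg, h3]
  ring

theorem fB3_P2 (n : ℕ) : (fB3_P n).derivative + Polynomial.X * (fB3_P n).derivative.derivative =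
    -((n : Polynomial ℂ) * (1 - Polynomial.X) ^ (n - 1)) := by
  have h := congrArg Polynomial.derivative (fB3_P1 n)
  rw [Polynomial.derivative_mul, Polynomial.derivative_X, one_mul, Polynomial.derivative_sub,
    Polynomial.derivative_one, Polynomial.derivative_pow, Polynomial.derivative_sub,
    Polynomial.derivative_one, Polynomial.derivative_X] at h
  rw [h]
  simp

theorem fB3_geom (x : ℝ) (hx1 : x ≤ 1) (n : ℕ) :
    x * ∑ j ∈ Finset.range n, (1 - x) ^ j ≤ 1 := by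
  have h3 := mul_neg_geom_sum (1 - x) n
  rw [sub_sub_cancel] at h3
  rw [h3]
  have := pow_nonneg (show 0 ≤ 1 - x by linarith) n
  linarith

theorem fB3_comm (a : fB3_A) : fB3_d1 (fB3_d2 a) = fB3_d2 (fB3_d1 a) := by
  induction a using AddMonoidAlgebra.induction_linear with
  | zero => simp
  | add x y hx hy => simp only [map_add, hx, hy]
  | single i r =>
    obtain ⟨m, n⟩ := i
    rw [fB3_d2s, fB3_d1s, fB3_d1s, fB3_d2s]
    congr 1
    ring

/-- `(1 - cos φ) / 2` -/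
noncomputable def fB3_U : fB3_A := AddMonoidAlgebra.single (0, 0) (1 / 2) -
  AddMonoidAlgebra.single (1, 0) (1 / 4) - AddMonoidAlgebra.single (-1, 0) (1 / 4)

/-- its derivative -/
noncomputable def fB3_U' : fB3_A :=
  AddMonoidAlgebra.single (-1, 0) (1 / 4) - AddMonoidAlgebra.single (1, 0) (1 / 4)

/-- `(1 - cos ψ) / 2` -/
noncomputable def fB3_V : fB3_A := AddMonoidAlgebra.single (0, 0) (1 / 2) -
  AddMonoidAlgebra.single (0, 1) (1 / 4) - AddMonoidAlgebra.single (0, -1) (1 / 4)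

/-- its derivative -/
noncomputable def fB3_V' : fB3_A :=
  AddMonoidAlgebra.single (0, -1) (1 / 4) - AddMonoidAlgebra.single (0, 1) (1 / 4)

/-- the constant `1/2` -/
noncomputable def fB3_h : fB3_A := AddMonoidAlgebra.single (0, 0) (1 / 2)

/-- monomials -/
noncomputable def fB3_E (i : ℤ × ℤ) : fB3_A := AddMonoidAlgebra.single i 1

theorem fB3_sE (i : ℤ × ℤ) (r : ℂ) : AddMonoidAlgebra.single i r = r • fB3_E i := by
  rw [fB3_E, AddMonoidAlgebra.smul_single, smul_eq_mul, mul_one]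

theorem fB3_dU : fB3_d1 fB3_U = fB3_U' ∧ fB3_d2 fB3_U = 0 ∧ fB3_d1 fB3_U' = fB3_U - fB3_h ∧
    fB3_d2 fB3_U' = 0 := by
  simp only [fB3_U, fB3_U', fB3_h, map_sub, fB3_d1s, fB3_d2s]
  simp only [fB3_sE]
  refine ⟨?_, ?_, ?_, ?_⟩ <;> push_cast <;> module

theorem fB3_dV : fB3_d2 fB3_V = fB3_V' ∧ fB3_d1 fB3_V = 0 ∧ fB3_d2 fB3_V' = fB3_V - fB3_h ∧
    fB3_d1 fB3_V' = 0 := by
  simp only [fB3_V, fB3_V', fB3_h, map_sub, fB3_d1s, fB3_d2s]
  simp only [fB3_sE]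
  refine ⟨?_, ?_, ?_, ?_⟩ <;> push_cast <;> module

theorem fB3_UU : fB3_U' * fB3_U' = fB3_U * fB3_U - fB3_U := by
  simp only [fB3_U, fB3_U', sub_mul, mul_sub, AddMonoidAlgebra.single_mul_single, Prod.mk_add_mk]
  simp only [fB3_sE]
  norm_num
  module

theorem fB3_VV : fB3_V' * fB3_V' = fB3_V * fB3_V - fB3_V := by
  simp only [fB3_V, fB3_V', sub_mul, mul_sub, AddMonoidAlgebra.single_mul_single, Prod.mk_add_mk]
  simp only [fB3_sE]
  norm_num
  module

/-- the functions -/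
noncomputable def fB3_f (L : Polynomial ℂ) (a b : ℂ) : fB3_A :=
  (a • fB3_U - b • fB3_V) * Polynomial.aeval ((1 / 2 : ℂ) • (fB3_U + fB3_V)) L

section Calc

variable (e : fB3_A →ₐ[ℂ] ℂ) (L : Polynomial ℂ) (a b : ℂ)

theorem fB3_e0 : e (fB3_f L a b) = (a * e fB3_U - b * e fB3_V) *
    L.eval ((e fB3_U + e fB3_V) / 2) := by
  rw [fB3_f, map_mul, ← Polynomial.aeval_algHom_apply]
  simp only [map_sub, map_smul, map_add, smul_eq_mul, Polynomial.coe_aeval_eq_eval]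
  rw [one_div_mul_eq_div]

theorem fB3_eh (hh : ∀ r, e (AddMonoidAlgebra.single (0, 0) r) = r) : e fB3_h = 1 / 2 := hh _

theorem fB3_e11 (hh : ∀ r, e (AddMonoidAlgebra.single (0, 0) r) = r) :
    e (fB3_d1 (fB3_d1 (fB3_f L a b))) = a * (e fB3_U - 1 / 2) * L.eval ((e fB3_U + e fB3_V) / 2) +
      a * (e fB3_U * e fB3_U - e fB3_U) * L.derivative.eval ((e fB3_U + e fB3_V) / 2) +
      (a * e fB3_U - b * e fB3_V) *
       (L.derivative.derivative.eval ((e fB3_U + e fB3_V) / 2) * (e fB3_U * e fB3_U - e fB3_U) / 4 +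
        L.derivative.eval ((e fB3_U + e fB3_V) / 2) * (e fB3_U - 1 / 2) / 2) := by
  have h1 : ∀ q : Polynomial ℂ, e (Polynomial.aeval ((1 / 2 : ℂ) • (fB3_U + fB3_V)) q) =
      q.eval ((e fB3_U + e fB3_V) / 2) := by
    intro q
    rw [← Polynomial.aeval_algHom_apply]
    simp only [map_smul, map_add, smul_eq_mul, Polynomial.coe_aeval_eq_eval]
    rw [one_div_mul_eq_div]
  have h2 := congrArg e fB3_UU
  simp only [map_mul, map_sub] at h2
  simp only [fB3_f, Derivation.leibniz, map_sub, Derivation.map_smul, map_smul, map_add, fB3_dU, fB3_dV,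
    Derivation.map_aeval, smul_eq_mul, map_mul, h1, fB3_eh e hh, ← h2, smul_zero,
    sub_zero, add_zero]
  ring

theorem fB3_e12 :
    e (fB3_d2 (fB3_d1 (fB3_f L a b))) =
      (a - b) / 2 * (e fB3_U' * e fB3_V') * L.derivative.eval ((e fB3_U + e fB3_V) / 2) +
      (a * e fB3_U - b * e fB3_V) *
       (L.derivative.derivative.eval ((e fB3_U + e fB3_V) / 2) * (e fB3_U' * e fB3_V') / 4) := by
  have h1 : ∀ q : Polynomial ℂ, e (Polynomial.aeval ((1 / 2 : ℂ) • (fB3_U + fB3_V)) q) =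
      q.eval ((e fB3_U + e fB3_V) / 2) := by
    intro q
    rw [← Polynomial.aeval_algHom_apply]
    simp only [map_smul, map_add, smul_eq_mul, Polynomial.coe_aeval_eq_eval]
    rw [one_div_mul_eq_div]
  simp only [fB3_f, Derivation.leibniz, map_sub, Derivation.map_smul, map_smul, map_add, fB3_dU, fB3_dV,
    Derivation.map_aeval, smul_eq_mul, map_mul, h1, smul_zero, mul_zero,
    sub_zero, add_zero, zero_add, zero_sub, map_neg]
  ring

theorem fB3_e22 (hh : ∀ r, e (AddMonoidAlgebra.single (0, 0) r) = r) :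
    e (fB3_d2 (fB3_d2 (fB3_f L a b))) = -(b * (e fB3_V - 1 / 2) * L.eval ((e fB3_U + e fB3_V) / 2)) -
      b * (e fB3_V * e fB3_V - e fB3_V) * L.derivative.eval ((e fB3_U + e fB3_V) / 2) +
      (a * e fB3_U - b * e fB3_V) *
       (L.derivative.derivative.eval ((e fB3_U + e fB3_V) / 2) * (e fB3_V * e fB3_V - e fB3_V) / 4 +
        L.derivative.eval ((e fB3_U + e fB3_V) / 2) * (e fB3_V - 1 / 2) / 2) := by
  have h1 : ∀ q : Polynomial ℂ, e (Polynomial.aeval ((1 / 2 : ℂ) • (fB3_U + fB3_V)) q) =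
      q.eval ((e fB3_U + e fB3_V) / 2) := by
    intro q
    rw [← Polynomial.aeval_algHom_apply]
    simp only [map_smul, map_add, smul_eq_mul, Polynomial.coe_aeval_eq_eval]
    rw [one_div_mul_eq_div]
  have h2 := congrArg e fB3_VV
  simp only [map_mul, map_sub] at h2
  simp only [fB3_f, Derivation.leibniz, map_sub, Derivation.map_smul, map_smul, map_add, fB3_dU, fB3_dV,
    Derivation.map_aeval, smul_eq_mul, map_mul, h1, fB3_eh e hh, ← h2, smul_zero,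
    zero_add, zero_sub, map_neg]
  ring

/-- the second operator at a point where `h' = 0` -/
theorem fB3_eM (p q : ℝ) (v : ℤ × ℤ →₀ ℂ) (hH : e fB3_H = 4) (hH1 : e (fB3_d1 fB3_H) = 0) :
    e (AddMonoidAlgebra.ofCoeff (MT.A (p • !![0, -1/2; 2, 0]) (q • Jm)
      (MT.A (p • !![0, -1/2; 2, 0]) (q • Jm) v))) =
    -(16 * p ^ 2 * e (fB3_d1 (fB3_d1 (AddMonoidAlgebra.ofCoeff v))) +
      16 * (p * q) * e (fB3_d2 (fB3_d1 (AddMonoidAlgebra.ofCoeff v))) +
      4 * q ^ 2 * e (fB3_d2 (fB3_d2 (AddMonoidAlgebra.ofCoeff v)))) := by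
  have h2 : fB3_d2 fB3_H = 0 := by
    simp only [fB3_H, map_add, fB3_d2s]
    simp
  rw [fB3_MT, fB3_MT]
  simp only [Derivation.leibniz, Derivation.map_smul, map_smul, map_add, smul_eq_mul, map_mul,
    h2, hH, hH1, mul_zero, fB3_comm, map_zero]
  ring_nf
  rw [Complex.I_sq]
  ring

end Calc

theorem fB3_k (x l : ℂ) (s k B : ℝ) (hx : ‖x‖ ≤ k * s) (hk : 0 ≤ k) (h : s * ‖l‖ ≤ B) :
    ‖x * l‖ ≤ k * B := by
  rw [norm_mul]
  calc ‖x‖ * ‖l‖ ≤ k * s * ‖l‖ := mul_le_mul_of_nonneg_right hx (norm_nonneg _)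
    _ = k * (s * ‖l‖) := by ring
    _ ≤ k * B := mul_le_mul_of_nonneg_left h hk

theorem fB3_bound (P Q C : ℝ) (hP : 0 < P) (hQ : 0 < Q) (u v : ℝ) (hu0 : 0 ≤ u) (hu1 : u ≤ 1)
    (hv0 : 0 ≤ v) (hv1 : v ≤ 1) (U' V' l0 l1 l2 : ℂ) (hU : U' * U' = u * u - u)
    (hV : V' * V' = v * v - v) (h0 : (u + v) / 2 * ‖l0‖ ≤ 1) (h1 : (u + v) / 2 * ‖l1‖ ≤ 1)
    (h2 : ((u + v) / 2) ^ 2 * ‖l2‖ ≤ 2) :
    ‖(((1 / P : ℝ) : ℂ) * u - ((1 / Q : ℝ) : ℂ) * v) * l0 +
      ((4 * P : ℝ) : ℂ) * (((1 / P : ℝ) : ℂ) * (u - 1 / 2) * l0 + ((1 / P : ℝ) : ℂ) * (u * u - u) * l1 +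
        (((1 / P : ℝ) : ℂ) * u - ((1 / Q : ℝ) : ℂ) * v) * (l2 * (u * u - u) / 4 + l1 * (u - 1 / 2) / 2)) +
      ((8 * C : ℝ) : ℂ) * ((((1 / P : ℝ) : ℂ) - ((1 / Q : ℝ) : ℂ)) / 2 * (U' * V') * l1 +
        (((1 / P : ℝ) : ℂ) * u - ((1 / Q : ℝ) : ℂ) * v) * (l2 * (U' * V') / 4)) +
      ((4 * Q : ℝ) : ℂ) * (-(((1 / Q : ℝ) : ℂ) * (v - 1 / 2) * l0) - ((1 / Q : ℝ) : ℂ) * (v * v - v) * l1 +
        (((1 / P : ℝ) : ℂ) * u - ((1 / Q : ℝ) : ℂ) * v) * (l2 * (v * v - v) / 4 + l1 * (v - 1 / 2) / 2))‖ ≤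
    (2 * (1 / P + 1 / Q) + 8) * 1 + (16 + 4 * P * (1 / P + 1 / Q) + 4 * Q * (1 / P + 1 / Q) +
      8 * |C| * (1 / P + 1 / Q)) * 1 + (4 * P * (1 / P + 1 / Q) + 4 * Q * (1 / P + 1 / Q) +
      8 * |C| * (1 / P + 1 / Q)) * 2 := by
  set a := 1 / P with ha
  set b := 1 / Q with hb
  have ha0 : 0 < a := by positivity
  have hb0 : 0 < b := by positivity
  have haP : P * a = 1 := by rw [ha]; field_simp
  have hbQ : Q * b = 1 := by rw [hb]; field_simp
  set s := (u + v) / 2 with hs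
  have hs0 : 0 ≤ s := by positivity
  set c := a * u - b * v with hc
  have hcb : |c| ≤ 2 * (a + b) * s := by
    rw [abs_le]
    constructor <;> rw [hc, hs] <;> nlinarith [mul_nonneg ha0.le hu0, mul_nonneg hb0.le hv0,
      mul_nonneg ha0.le hv0, mul_nonneg hb0.le hu0]
  have hU2 : ‖U'‖ ^ 2 = u - u * u := by
    have : ‖U' * U'‖ = ‖(((u * u - u : ℝ)) : ℂ)‖ := by rw [hU]; push_cast; rfl
    rw [norm_mul, Complex.norm_real, Real.norm_eq_abs, abs_of_nonpos (by nlinarith)] at this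
    nlinarith
  have hV2 : ‖V'‖ ^ 2 = v - v * v := by
    have : ‖V' * V'‖ = ‖(((v * v - v : ℝ)) : ℂ)‖ := by rw [hV]; push_cast; rfl
    rw [norm_mul, Complex.norm_real, Real.norm_eq_abs, abs_of_nonpos (by nlinarith)] at this
    nlinarith
  have hUV : ‖U' * V'‖ ≤ 2 * s := by
    rw [norm_mul, hs]
    nlinarith [sq_nonneg (‖U'‖ - ‖V'‖), mul_nonneg hu0 hu0, mul_nonneg hv0 hv0]
  have key : (((a : ℝ) : ℂ) * u - ((b : ℝ) : ℂ) * v) * l0 +
      ((4 * P : ℝ) : ℂ) * (((a : ℝ) : ℂ) * (u - 1 / 2) * l0 + ((a : ℝ) : ℂ) * (u * u - u) * l1 +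
        (((a : ℝ) : ℂ) * u - ((b : ℝ) : ℂ) * v) * (l2 * (u * u - u) / 4 + l1 * (u - 1 / 2) / 2)) +
      ((8 * C : ℝ) : ℂ) * ((((a : ℝ) : ℂ) - ((b : ℝ) : ℂ)) / 2 * (U' * V') * l1 +
        (((a : ℝ) : ℂ) * u - ((b : ℝ) : ℂ) * v) * (l2 * (U' * V') / 4)) +
      ((4 * Q : ℝ) : ℂ) * (-(((b : ℝ) : ℂ) * (v - 1 / 2) * l0) - ((b : ℝ) : ℂ) * (v * v - v) * l1 +
        (((a : ℝ) : ℂ) * u - ((b : ℝ) : ℂ) * v) * (l2 * (v * v - v) / 4 + l1 * (v - 1 / 2) / 2)) =
      ((c + 4 * (u - v) : ℝ) : ℂ) * l0 + (((4 * (u * u - u) - 4 * (v * v - v) + 2 * P * c * (u - 1 / 2) +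
        2 * Q * c * (v - 1 / 2) : ℝ) : ℂ) + ((4 * C * (a - b) : ℝ) : ℂ) * (U' * V')) * l1 +
      (((P * c * (u * u - u) + Q * c * (v * v - v) : ℝ) : ℂ) + ((2 * C * c : ℝ) : ℂ) * (U' * V')) * l2 := by
    have haP' : (P : ℂ) * (a : ℂ) = 1 := by exact_mod_cast haP
    have hbQ' : (Q : ℂ) * (b : ℂ) = 1 := by exact_mod_cast hbQ
    rw [hc]
    push_cast
    linear_combination (4 * (u - 1 / 2) * l0 + 4 * (u * u - u) * l1 : ℂ) * haP' +
      (-4 * (v - 1 / 2) * l0 - 4 * (v * v - v) * l1 : ℂ) * hbQ'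
  rw [key]
  refine (norm_add_le _ _).trans (add_le_add ((norm_add_le _ _).trans (add_le_add ?_ ?_)) ?_)
  · refine fB3_k _ _ s _ _ ?_ (by positivity) h0
    rw [Complex.norm_real, Real.norm_eq_abs]
    refine (abs_add_le _ _).trans ?_
    have : |4 * (u - v)| ≤ 8 * s := by
      rw [abs_le, hs]
      constructor <;> nlinarith
    linarith
  · refine fB3_k _ _ s _ _ ?_ (by positivity) h1
    refine (norm_add_le _ _).trans ?_
    rw [Complex.norm_real, Real.norm_eq_abs, norm_mul, Complex.norm_real, Real.norm_eq_abs]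
    have e1 : |4 * (u * u - u) - 4 * (v * v - v)| ≤ 16 * s := by
      rw [abs_le, hs]
      constructor <;> nlinarith [mul_nonneg hu0 hu0, mul_nonneg hv0 hv0]
    have e2 : |2 * P * c * (u - 1 / 2)| ≤ 4 * P * (a + b) * s := by
      have : |u - 1 / 2| ≤ 1 := by rw [abs_le]; constructor <;> linarith
      calc |2 * P * c * (u - 1 / 2)| = 2 * P * (|c| * |u - 1 / 2|) := by
            rw [abs_mul, abs_mul, abs_of_pos (show 0 < 2 * P by positivity)]; ring
        _ ≤ 2 * P * ((2 * (a + b) * s) * 1) := by gcongr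
        _ = _ := by ring
    have e3 : |2 * Q * c * (v - 1 / 2)| ≤ 4 * Q * (a + b) * s := by
      have : |v - 1 / 2| ≤ 1 := by rw [abs_le]; constructor <;> linarith
      calc |2 * Q * c * (v - 1 / 2)| = 2 * Q * (|c| * |v - 1 / 2|) := by
            rw [abs_mul, abs_mul, abs_of_pos (show 0 < 2 * Q by positivity)]; ring
        _ ≤ 2 * Q * ((2 * (a + b) * s) * 1) := by gcongr
        _ = _ := by ring
    have e4 : |4 * C * (a - b)| * ‖U' * V'‖ ≤ 8 * |C| * (a + b) * s := by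
      have h5 : |a - b| ≤ a + b := by rw [abs_le]; constructor <;> linarith
      calc |4 * C * (a - b)| * ‖U' * V'‖ = 4 * (|C| * |a - b| * ‖U' * V'‖) := by
            rw [abs_mul, abs_mul, abs_of_pos (show (0 : ℝ) < 4 by norm_num)]; ring
        _ ≤ 4 * (|C| * (a + b) * (2 * s)) := by gcongr
        _ = _ := by ring
    have e5 := abs_add_le (4 * (u * u - u) - 4 * (v * v - v) + 2 * P * c * (u - 1 / 2))
      (2 * Q * c * (v - 1 / 2))
    have e6 := abs_add_le (4 * (u * u - u) - 4 * (v * v - v)) (2 * P * c * (u - 1 / 2))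
    linarith
  · refine fB3_k _ _ (s ^ 2) _ _ ?_ (by positivity) h2
    refine (norm_add_le _ _).trans ?_
    rw [Complex.norm_real, Real.norm_eq_abs, norm_mul, Complex.norm_real, Real.norm_eq_abs]
    have e2 : |P * c * (u * u - u)| ≤ 4 * P * (a + b) * s ^ 2 := by
      have : |u * u - u| ≤ 2 * s := by
        rw [abs_le, hs]; constructor <;> nlinarith [mul_nonneg hu0 hu0]
      calc |P * c * (u * u - u)| = P * (|c| * |u * u - u|) := by
            rw [abs_mul, abs_mul, abs_of_pos hP]; ring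
        _ ≤ P * ((2 * (a + b) * s) * (2 * s)) := by gcongr
        _ = _ := by ring
    have e3 : |Q * c * (v * v - v)| ≤ 4 * Q * (a + b) * s ^ 2 := by
      have : |v * v - v| ≤ 2 * s := by
        rw [abs_le, hs]; constructor <;> nlinarith [mul_nonneg hv0 hv0]
      calc |Q * c * (v * v - v)| = Q * (|c| * |v * v - v|) := by
            rw [abs_mul, abs_mul, abs_of_pos hQ]; ring
        _ ≤ Q * ((2 * (a + b) * s) * (2 * s)) := by gcongr
        _ = _ := by ring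
    have e4 : |2 * C * c| * ‖U' * V'‖ ≤ 8 * |C| * (a + b) * s ^ 2 := by
      calc |2 * C * c| * ‖U' * V'‖ = 2 * (|C| * |c| * ‖U' * V'‖) := by
            rw [abs_mul, abs_mul, abs_of_pos (show (0 : ℝ) < 2 by norm_num)]; ring
        _ ≤ 2 * (|C| * (2 * (a + b) * s) * (2 * s)) := by gcongr
        _ = _ := by ring
    have e5 := abs_add_le (P * c * (u * u - u)) (Q * c * (v * v - v))
    linarith

theorem fB3_eU (x y : ℂˣ) (hx : ‖(x : ℂ)‖ = 1) :
    fB3_ev x y fB3_U = (((1 - (x : ℂ).re) / 2 : ℝ) : ℂ) := by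
  have hc : (x : ℂ)⁻¹ = conj (x : ℂ) := by
    rw [Complex.inv_def, Complex.normSq_eq_norm_sq, hx]
    simp
  simp only [fB3_U, map_sub, fB3_ev_single, _root_.zpow_neg, zpow_one, zpow_zero, hc, mul_one]
  apply Complex.ext <;> simp <;> ring

theorem fB3_eV (x y : ℂˣ) (hy : ‖(y : ℂ)‖ = 1) :
    fB3_ev x y fB3_V = (((1 - (y : ℂ).re) / 2 : ℝ) : ℂ) := by
  have hc : (y : ℂ)⁻¹ = conj (y : ℂ) := by
    rw [Complex.inv_def, Complex.normSq_eq_norm_sq, hy]
    simp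
  simp only [fB3_V, map_sub, fB3_ev_single, _root_.zpow_neg, zpow_one, zpow_zero, hc, mul_one, one_mul]
  apply Complex.ext <;> simp <;> ring

theorem fB3_re (z : ℂ) (hz : ‖z‖ = 1) : 0 ≤ (1 - z.re) / 2 ∧ (1 - z.re) / 2 ≤ 1 := by
  have h := Complex.abs_re_le_norm z
  rw [hz, abs_le] at h
  constructor <;> linarith [h.1, h.2]

theorem fB3_nonempty : Nonempty ((Sc × Sc) × Gd) := ⟨((⟨1, norm_one⟩, ⟨1, norm_one⟩), 1)⟩

theorem fB3_b0 (x : ℝ) (hx0 : 0 ≤ x) (hx1 : x ≤ 1) (n : ℕ) :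
    x * ‖(fB3_P n).eval (x : ℂ)‖ ≤ 1 := by
  refine le_trans (mul_le_mul_of_nonneg_left ?_ hx0) (fB3_geom x hx1 n)
  rw [fB3_P, Polynomial.eval_finsetSum]
  refine (norm_sum_le _ _).trans (Finset.sum_le_sum fun j _ => ?_)
  rw [Polynomial.eval_mul, Polynomial.eval_C, Polynomial.eval_pow, Polynomial.eval_sub,
    Polynomial.eval_one, Polynomial.eval_X]
  have h1 : ((1 / ((j : ℂ) + 1)) * (1 - (x : ℂ)) ^ (j + 1)) =
      (((1 / ((j : ℝ) + 1)) * (1 - x) ^ (j + 1) : ℝ) : ℂ) := by push_cast; ring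
  have h0 : 0 ≤ 1 - x := by linarith
  rw [h1, Complex.norm_real, Real.norm_of_nonneg (by positivity)]
  have h2 : 1 / ((j : ℝ) + 1) ≤ 1 := by
    rw [div_le_one (by positivity)]
    have : (0 : ℝ) ≤ j := Nat.cast_nonneg j
    linarith
  calc (1 / ((j : ℝ) + 1)) * (1 - x) ^ (j + 1) ≤ 1 * (1 - x) ^ (j + 1) :=
        mul_le_mul_of_nonneg_right h2 (by positivity)
    _ = (1 - x) ^ j * (1 - x) := by ring
    _ ≤ (1 - x) ^ j * 1 := mul_le_mul_of_nonneg_left (by linarith) (by positivity)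
    _ = (1 - x) ^ j := mul_one _

theorem fB3_b1 (x : ℝ) (hx0 : 0 ≤ x) (hx1 : x ≤ 1) (n : ℕ) :
    x * ‖(fB3_P n).derivative.eval (x : ℂ)‖ ≤ 1 := by
  have h := congrArg (Polynomial.eval (x : ℂ)) (fB3_P1 n)
  rw [Polynomial.eval_mul, Polynomial.eval_X, Polynomial.eval_sub, Polynomial.eval_pow,
    Polynomial.eval_sub, Polynomial.eval_one, Polynomial.eval_X] at h
  have h2 : x * ‖(fB3_P n).derivative.eval (x : ℂ)‖ = ‖(x : ℂ) * (fB3_P n).derivative.eval (x : ℂ)‖ := by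
    rw [norm_mul, Complex.norm_real, Real.norm_of_nonneg hx0]
  have h3 : ((1 - (x : ℂ)) ^ n - 1) = (((1 - x) ^ n - 1 : ℝ) : ℂ) := by push_cast; ring
  rw [h2, h, h3, Complex.norm_real, Real.norm_eq_abs, abs_le]
  have h0 : 0 ≤ 1 - x := by linarith
  have h4 : 0 ≤ (1 - x) ^ n := by positivity
  have h5 : (1 - x) ^ n ≤ 1 := pow_le_one₀ h0 (by linarith)
  constructor <;> linarith

theorem fB3_b2 (x : ℝ) (hx0 : 0 ≤ x) (hx1 : x ≤ 1) (n : ℕ) :
    x ^ 2 * ‖(fB3_P n).derivative.derivative.eval (x : ℂ)‖ ≤ 2 := by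
  have h := congrArg (Polynomial.eval (x : ℂ)) (fB3_P2 n)
  rw [Polynomial.eval_add, Polynomial.eval_mul, Polynomial.eval_X, Polynomial.eval_neg,
    Polynomial.eval_mul, Polynomial.eval_natCast, Polynomial.eval_pow,
    Polynomial.eval_sub, Polynomial.eval_one, Polynomial.eval_X] at h
  have h2 : x ^ 2 * ‖(fB3_P n).derivative.derivative.eval (x : ℂ)‖ =
      ‖(x : ℂ) * ((x : ℂ) * (fB3_P n).derivative.derivative.eval (x : ℂ))‖ := by
    rw [norm_mul, norm_mul, Complex.norm_real, Real.norm_of_nonneg hx0]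
    ring
  have h3 : (x : ℂ) * ((x : ℂ) * (fB3_P n).derivative.derivative.eval (x : ℂ)) =
      -(((x * (n * (1 - x) ^ (n - 1)) : ℝ)) : ℂ) - (x : ℂ) * (fB3_P n).derivative.eval (x : ℂ) := by
    push_cast
    linear_combination (x : ℂ) * h
  have h0 : 0 ≤ 1 - x := by linarith
  have h4 : x * (n * (1 - x) ^ (n - 1)) ≤ 1 := by
    refine le_trans (mul_le_mul_of_nonneg_left ?_ hx0) (fB3_geom x hx1 n)
    calc (n : ℝ) * (1 - x) ^ (n - 1) = ∑ j ∈ Finset.range n, (1 - x) ^ (n - 1) := by simp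
      _ ≤ _ := Finset.sum_le_sum fun j hj =>
        pow_le_pow_of_le_one h0 (by linarith) (by have := Finset.mem_range.1 hj; omega)
  have h5 : 0 ≤ x * (n * (1 - x) ^ (n - 1)) := by positivity
  have h6 : ‖(x : ℂ) * (fB3_P n).derivative.eval (x : ℂ)‖ ≤ 1 := by
    rw [norm_mul, Complex.norm_real, Real.norm_of_nonneg hx0]
    exact fB3_b1 x hx0 hx1 n
  rw [h2, h3]
  refine (norm_sub_le _ _).trans ?_
  rw [norm_neg, Complex.norm_real, Real.norm_of_nonneg h5]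
  linarith

theorem fB3_big (N : ℝ) : ∃ n : ℕ, N ≤ 6 * ‖(fB3_P n).eval 0‖ := by
  obtain ⟨n, hn⟩ := ((Real.tendsto_sum_range_one_div_nat_succ_atTop).eventually_ge_atTop N).exists
  refine ⟨n, ?_⟩
  have h : (fB3_P n).eval 0 = ((∑ i ∈ Finset.range n, 1 / ((i : ℝ) + 1) : ℝ) : ℂ) := by
    rw [fB3_P, Polynomial.eval_finsetSum]
    push_cast
    refine Finset.sum_congr rfl fun j _ => ?_
    simp
  have h0 : 0 ≤ ∑ i ∈ Finset.range n, 1 / ((i : ℝ) + 1) :=
    Finset.sum_nonneg fun i _ => by positivity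
  rw [h, Complex.norm_real, Real.norm_of_nonneg h0]
  linarith

/-- TARGET -/
theorem f_f3 (h1 : S_AA) (h2 : S_goodT) : S_f3 := by
  intro m p q hP hQ
  set P := ∑ l, p l ^ 2 with hPd
  set Q := ∑ l, q l ^ 2 with hQd
  set C := ∑ l, p l * q l with hCd
  refine ⟨(2 * (1 / P + 1 / Q) + 8) * 1 + (16 + 4 * P * (1 / P + 1 / Q) + 4 * Q * (1 / P + 1 / Q) +
      8 * |C| * (1 / P + 1 / Q)) * 1 + (4 * P * (1 / P + 1 / Q) + 4 * Q * (1 / P + 1 / Q) +
      8 * |C| * (1 / P + 1 / Q)) * 2, fun N => ?_⟩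
  obtain ⟨n, hn⟩ := fB3_big N
  refine ⟨(fB3_f (fB3_P n) ((1 / P : ℝ) : ℂ) ((1 / Q : ℝ) : ℂ)).coeff, ?_, ?_⟩
  · have := fB3_nonempty
    refine ciSup_le fun x => ?_
    obtain ⟨w, g⟩ := x
    beta_reduce
    rw [div_one]
    have hx1 : ‖mobI g.1 w.1.1‖ = 1 := h1.2.2.2.2.2.2.2.2.2.2 g.1 w.1.1 w.1.2
    have hy1 : ‖mobI g.2 w.2.1‖ = 1 := h1.2.2.2.2.2.2.2.2.2.2 g.2 w.2.1 w.2.2
    have hx0 : mobI g.1 w.1.1 ≠ 0 := by
      intro h; rw [h, norm_zero] at hx1; exact zero_ne_one hx1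
    have hy0 : mobI g.2 w.2.1 ≠ 0 := by
      intro h; rw [h, norm_zero] at hy1; exact zero_ne_one hy1
    have hh : ∀ r, fB3_ev (Units.mk0 _ hx0) (Units.mk0 _ hy0) (AddMonoidAlgebra.single (0, 0) r) = r := by
      intro r
      rw [fB3_ev_single, zpow_zero, zpow_zero, mul_one, mul_one]
    have hU := congrArg (fB3_ev (Units.mk0 _ hx0) (Units.mk0 _ hy0)) fB3_UU
    have hV := congrArg (fB3_ev (Units.mk0 _ hx0) (Units.mk0 _ hy0)) fB3_VV
    rw [map_mul, map_sub, map_mul, fB3_eU _ _ (by exact hx1)] at hU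
    rw [map_mul, map_sub, map_mul, fB3_eV _ _ (by exact hy1)] at hV
    rw [fB3_FT (w.1.1, w.2.1) _ g (Units.mk0 _ hx0) (Units.mk0 _ hy0) rfl rfl hx1 hy1, fB3_T,
      AddMonoidAlgebra.ofCoeff_coeff]
    simp only [map_add, map_smul, smul_eq_mul]
    rw [fB3_e0, fB3_e11 _ _ _ _ hh, fB3_e12, fB3_e22 _ _ _ _ hh, fB3_eU _ _ (by exact hx1),
      fB3_eV _ _ (by exact hy1)]
    obtain ⟨hu0, hu1⟩ := fB3_re _ hx1
    obtain ⟨hv0, hv1⟩ := fB3_re _ hy1
    simp only [Units.val_mk0] at hU hV ⊢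
    set u : ℝ := (1 - (mobI g.1 w.1.1).re) / 2 with hu
    set v : ℝ := (1 - (mobI g.2 w.2.1).re) / 2 with hv
    have hs : ((u : ℂ) + (v : ℂ)) / 2 = (((u + v) / 2 : ℝ) : ℂ) := by push_cast; ring
    rw [hs]
    exact fB3_bound P Q C hP hQ u v hu0 hu1 hv0 hv1 _ _ _ _ _ hU hV
      (fB3_b0 _ (by positivity) (by linarith) n) (fB3_b1 _ (by positivity) (by linarith) n)
      (fB3_b2 _ (by positivity) (by linarith) n)
  · have hm : mobI (1 : Gp) 1 = 1 := by
      have h3 : mt (1 : Gp)⁻¹ = 1 := by rw [inv_one]; rfl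
      have h4 : al (1 : Mat2) = 1 := by apply Complex.ext <;> simp [al]
      have h5 : be (1 : Mat2) = 0 := by apply Complex.ext <;> simp [be]
      rw [mobI, h3, mob, h4, h5]
      simp
    have hh : ∀ r, fB3_ev 1 1 (AddMonoidAlgebra.single (0, 0) r) = r := by
      intro r
      rw [fB3_ev_single]
      simp
    have hH : fB3_ev 1 1 fB3_H = 4 := by
      simp only [fB3_H, map_add, fB3_ev_single]
      norm_num
    have hH1 : fB3_ev 1 1 (fB3_d1 fB3_H) = 0 := by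
      simp only [fB3_H, map_add, fB3_ev_single, fB3_d1s]
      norm_num
    have hU : fB3_ev 1 1 fB3_U = 0 := by
      rw [fB3_eU _ _ (by simp)]
      simp
    have hV : fB3_ev 1 1 fB3_V = 0 := by
      rw [fB3_eV _ _ (by simp)]
      simp
    have hU' : fB3_ev 1 1 fB3_U' = 0 := by
      simp only [fB3_U', map_sub, fB3_ev_single]
      norm_num
    have hval : fB3_ev 1 1 (AddMonoidAlgebra.ofCoeff ((fB3_f (fB3_P n) ((1 / P : ℝ) : ℂ) ((1 / Q : ℝ) : ℂ)).coeff -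
        ∑ l, MT.A (p l • !![0, -1/2; 2, 0]) (q l • Jm) (MT.A (p l • !![0, -1/2; 2, 0]) (q l • Jm)
          (fB3_f (fB3_P n) ((1 / P : ℝ) : ℂ) ((1 / Q : ℝ) : ℂ)).coeff))) = -6 * (fB3_P n).eval 0 := by
      rw [AddMonoidAlgebra.ofCoeff_sub, AddMonoidAlgebra.ofCoeff_sum, map_sub, map_sum]
      simp only [fB3_eM _ _ _ _ hH hH1, AddMonoidAlgebra.ofCoeff_coeff]
      rw [fB3_e0, fB3_e11 _ _ _ _ hh, fB3_e12, fB3_e22 _ _ _ _ hh, hU, hV, hU']
      have hP' : (P : ℂ) * ((1 / P : ℝ) : ℂ) = 1 := by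
        rw [← Complex.ofReal_mul, mul_one_div_cancel hP.ne', Complex.ofReal_one]
      have hQ' : (Q : ℂ) * ((1 / Q : ℝ) : ℂ) = 1 := by
        rw [← Complex.ofReal_mul, mul_one_div_cancel hQ.ne', Complex.ofReal_one]
      have hPs : (P : ℂ) = ∑ l, (p l : ℂ) ^ 2 := by rw [hPd]; push_cast; rfl
      have hQs : (Q : ℂ) = ∑ l, (q l : ℂ) ^ 2 := by rw [hQd]; push_cast; rfl
      rw [hPs] at hP'
      rw [hQs] at hQ'
      simp only [mul_zero, zero_mul, sub_zero, add_zero, zero_add, zero_sub, zero_div, mul_neg, neg_mul,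
        neg_neg, Finset.sum_neg_distrib, Finset.sum_add_distrib]
      simp only [← Finset.mul_sum, ← Finset.sum_mul]
      linear_combination (-8 * (fB3_P n).eval 0) * hP' + (2 * (fB3_P n).eval 0) * hQ'
    rw [fB3_FT (1, 1) _ 1 1 1 hm.symm hm.symm (by rw [Prod.fst_one, hm, norm_one])
      (by rw [Prod.snd_one, hm, norm_one]), hval]
    rw [norm_mul]
    simpa using hn

end Pool.Agent.H913.LG
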