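import Pool.Agent.H913.LG.Stmts2

open Matrix NormedSpace
open scoped Matrix ComplexConjugate

namespace Pool.Agent.H913.LG

open Pool.Agent.H913.SGP Pool.Agent.H913.LGP

theorem fFin_det : Matrix.det (!![2, 0; 0, 1] : Mat2) = 2 := by
  simp [Matrix.det_fin_two]

/-- the matrix `diag(2,1)` in `GL(2,ℝ)⁺` -/
noncomputable def fFin_g : Gp :=
  ⟨Matrix.GeneralLinearGroup.mkOfDetNeZero (!![2, 0; 0, 1] : Mat2) (by rw [fFin_det]; norm_num), by
    rw [Matrix.mem_glpos]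
    show 0 < Matrix.det (!![2, 0; 0, 1] : Mat2)
    rw [fFin_det]; norm_num⟩

theorem fFin_mt : mt fFin_g = !![2, 0; 0, 1] := rfl

theorem fFin_inv : mt fFin_g⁻¹ = !![1/2, 0; 0, 1] := by
  have h : mt fFin_g⁻¹ = (mt fFin_g)⁻¹ := by
    show (((fFin_g⁻¹ : Gp) : GL (Fin 2) ℝ) : Mat2) = _
    rw [Subgroup.coe_inv, Matrix.coe_units_inv]
  rw [h, fFin_mt, Matrix.inv_def]
  simp [Matrix.det_fin_two, Matrix.adjugate_fin_two]

theorem fFin_adJ : adJ fFin_g = !![0, -1/2; 2, 0] := by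
  rw [adJ, fFin_inv, fFin_mt, Jm]
  ext i j
  fin_cases i <;> fin_cases j <;> simp [Matrix.mul_apply, Fin.sum_univ_two]
  norm_num

theorem fFin_adJ1 : adJ (1 : Gp) = Jm := by
  have h : mt (1 : Gp) = 1 := rfl
  rw [adJ, inv_one, h, Matrix.one_mul, Matrix.mul_one]

theorem fFin_mobI : mobI fFin_g 1 = 1 := by
  rw [mobI, fFin_inv, mob]
  have h1 : al !![1/2, 0; 0, 1] = ((3/4 : ℝ) : ℂ) := by
    apply Complex.ext <;> simp [al]; norm_num
  have h2 : be !![1/2, 0; 0, 1] = ((-1/4 : ℝ) : ℂ) := by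
    apply Complex.ext <;> simp [be]; norm_num
  rw [h1, h2, Complex.conj_ofReal, Complex.conj_ofReal]
  push_cast
  norm_num

theorem fFin_mobI1 : mobI (1 : Gp) 1 = 1 := by
  have h : mt (1 : Gp) = 1 := rfl
  rw [mobI, inv_one, h, mob]
  have h1 : al (1 : Mat2) = 1 := by
    apply Complex.ext <;> simp [al]
  have h2 : be (1 : Mat2) = 0 := by
    apply Complex.ext <;> simp [be]
  rw [h1, h2]
  simp

/-- TARGET -/
theorem f_f4 (h1 : S_basis) (h2 : S_pow) (h3 : S_f2) (h4 : S_f3) : S_f4 := by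
  intro h m b hb
  obtain ⟨p, q, hpq, hp, hq⟩ := h1.2 m b hb
  refine ⟨dg (fun i => ((1 + eig MT p q i : ℝ) : ℂ)), ?_, ?_⟩
  · rw [(h2 (ℤ × ℤ) MT h m b p q hpq).2 2]
    congr 1
    funext i
    norm_num
  · intro hc
    obtain ⟨C, hC⟩ := h3 h m p q hc (fFin_g, 1)
    obtain ⟨K, hK⟩ := h4 m p q hp hq
    obtain ⟨N, hN⟩ := exists_nat_gt (|C| * |K|)
    obtain ⟨v, hv1, hv2⟩ := hK N
    have hCv := hC (⟨1, by simp⟩, ⟨1, by simp⟩) v
    have e : upT p q (1, 1) v (fFin_g, 1) = FT (1, 1) (v - ∑ l, MT.A (p l • !![0, -1/2; 2, 0]) (q l • Jm)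
      (MT.A (p l • !![0, -1/2; 2, 0]) (q l • Jm) v)) 1 := by
      unfold upT
      simp only [fFin_adJ, fFin_adJ1]
      unfold FT
      simp only [fFin_mobI, fFin_mobI1, Prod.fst_one, Prod.snd_one]
    have hCv' : ‖upT p q (1, 1) v (fFin_g, 1)‖ ≤
        C * pT (dg (fun i => ((1 + eig MT p q i : ℝ) : ℂ)) v) := hCv
    rw [e] at hCv'
    have hpos : 0 ≤ pT (dg (fun i => ((1 + eig MT p q i : ℝ) : ℂ)) v) := by
      unfold pT famNorm
      apply Real.iSup_nonneg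
      intro x
      positivity
    have h5 : C * pT (dg (fun i => ((1 + eig MT p q i : ℝ) : ℂ)) v) ≤ |C| * |K| := by
      apply mul_le_mul (le_abs_self C) (hv1.trans (le_abs_self K)) hpos (abs_nonneg C)
    linarith

end Pool.Agent.H913.LG
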