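import Pool.Agent.H913.LG.Main
import Pool.Agent.H913.LG.CWk
import Pool.Agent.H913.LG.CB4
import Pool.Agent.H913.LG.CB5
import Pool.Agent.H913.LG.CB6
import Pool.Agent.H913.LG.CFin
import Pool.Agent.H913.LG.DAd
import Pool.Agent.H913.LG.DB1
import Pool.Agent.H913.LG.DFin
import Pool.Agent.H913.LG.EB1
import Pool.Agent.H913.LG.EB2
import Pool.Agent.H913.LG.EB3
import Pool.Agent.H913.LG.EFin
import Pool.Agent.H913.LG.FB1
import Pool.Agent.H913.LG.FB2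
import Pool.Agent.H913.LG.FB3
import Pool.Agent.H913.LG.FFin

/-! The four final theorems. -/

open Matrix NormedSpace
open scoped Matrix ComplexConjugate

namespace Pool.Agent.H913.LG

open Pool.Agent.H913.SGP Pool.Agent.H913.LGP

theorem all_wk : S_wk := c_wk g_AA

theorem all_wD : S_wD := c_wD g_AA

theorem all_wA : IsWeight wA := c_wA g_AA

theorem all_c4 : S_c4 := c_c4 g_blk g_AA g_K all_PB all_base a_tay all_fam all_kfin all_wk mGood0
  mGoodU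

theorem all_c5 : S_c5 := c_c5 g_blk g_AA g_K all_PB all_base a_tay all_fam all_kfin all_wk mGood0
  mGoodU

theorem all_c6 : S_c6 := c_c6 g_AA all_PB all_coef all_id all_preU all_bd all_base all_wk mGoodU
  a_tay

theorem all_c7 : S_c7 := c_c7 all_unif all_basis g_pow g_AA all_base all_mins all_max all_R0 all_N0
  all_c4 all_c5 all_c6 all_wk mGood0 mGoodU

theorem all_ad : S_ad := d_ad g_blk

theorem all_d1 : S_d1 := d_d1 g_blk g_AA

theorem all_d2 : S_d2 := d_d2 all_unif all_basis g_pow g_AA all_base all_mins all_max all_RD all_ND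
  all_ad all_d1 all_wD mGoodD

theorem all_e1 : S_e1 := e_e1 g_AA a_tay all_fam all_kfin all_pre0 all_bd all_inj all_base mGood0
  all_wA

theorem all_e2a : S_e2a := e_e2a g_AA

theorem all_e2 : S_e2 := e_e2 g_AA all_e2a all_bd

theorem all_e3 : S_e3 := e_e3 g_AA all_bd

theorem all_e4 : S_e4 := e_e4 all_basis g_pow all_e1 all_e2 mGood0

theorem all_f1 : S_f1 := f_f1 g_blk g_K all_preT all_bd g_AA mGoodT

theorem all_f2 : S_f2 := f_f2 g_AA a_tay all_id a_bs all_f1 all_bd mGoodT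

theorem all_f3 : S_f3 := f_f3 g_AA mGoodT

theorem all_f4 : S_f4 := f_f4 all_basis g_pow all_f2 all_f3

/-- monotonicity in the weight -/
theorem norm_mono {V : Type} [AddCommGroup V] [Module ℂ V] {Mo : HCModule GRd rho V}
    {w w' : Gd → ℝ} (h : ∀ g, w g ≤ w' g) {p : V → ℝ} (hp : IsNormIn Mo w p) :
    IsNormIn Mo w' p := by
  obtain ⟨E, i1, i2, i3, ι, π, hG, hpv, C, hC, hw⟩ := hp
  exact ⟨E, i1, i2, i3, ι, π, hG, hpv, C, hC, fun g => (hw g).trans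
    (mul_le_mul_of_nonneg_left (h g) hC.le)⟩

theorem norm_of1 {V : Type} [AddCommGroup V] [Module ℂ V] {Mo : HCModule GRd rho V}
    {w : Gd → ℝ} {p : V → ℝ} (hp : IsNormIn1 Mo w p) : IsNormIn Mo w p := by
  obtain ⟨E, i1, i2, i3, ι, π, hG, hpv, hw⟩ := hp
  exact ⟨E, i1, i2, i3, ι, π, hG, hpv, 1, one_pos, fun g => by rw [one_mul]; exact hw g⟩

theorem cont_of {V : Type} [AddCommGroup V] [Module ℂ V] {Mo : HCModule GRd rho V}
    {w : Gd → ℝ} {p : V → ℝ} (hp : IsNormIn Mo w p) : IsGContinuous Mo p := by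
  obtain ⟨E, i1, i2, i3, ι, π, hG, hpv, -⟩ := hp
  exact ⟨E, i1, i2, i3, ι, π, ⟨hG.injective, hG.dense, hG.continuous, hG.intertwines_K,
    hG.intertwines_lie⟩, hpv⟩

/-- the embedding -/
noncomputable def jj : (ℤ →₀ ℂ) →ₗ[ℂ] (ℤ × Fin 2 →₀ ℂ) :=
  Finsupp.lmapDomain ℂ ℂ (fun m => (m, 0))

theorem jj_inj : Function.Injective jj := Finsupp.mapDomain_injective fun a b h => by
  simpa using h

theorem jj_ee (m : ℤ) (c : ℂ) : jj (Finsupp.single m c) = Finsupp.single (m, 0) c := by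
  simp [jj]

theorem jj_emb : IsEmbedding (M0.toHC mGood0.1) (MU.toHC mGoodU.1) jj := by
  refine ⟨jj_inj, ?_, ?_⟩
  · intro X v
    have h : jj ∘ₗ (lieAct M0 X) = (lieAct MU X) ∘ₗ jj := by
      apply Finsupp.lhom_ext
      intro m c
      simp only [LinearMap.comp_apply, jj_ee]
      simp only [lieAct, M0, MU, Finsupp.linearCombination_single, map_smul]
      simp [jj, Finsupp.lmapDomain_apply]
    exact LinearMap.congr_fun h v
  · intro k v
    have h : jj ∘ₗ (kap M0 k) = (kap MU k) ∘ₗ jj := by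
      apply Finsupp.lhom_ext
      intro m c
      simp only [LinearMap.comp_apply, jj_ee]
      show jj (kapFun M0 k.1 _) = kapFun MU k.1 _
      simp only [kapFun, dg, M0, MU, Finsupp.linearCombination_single, map_smul, ee, jj_ee]
    exact LinearMap.congr_fun h v

theorem final_c67 : ∃ (n : ℕ) (G : Type) (_ : Group G) (_ : TopologicalSpace G)
    (GR : Subgroup (GL (Fin n) ℝ)) (ρ : G →* GL (Fin n) ℝ), IsTopologicalGroup G ∧ T2Space G ∧
    ConnectedSpace G ∧ IsRealReductive GR ρ ∧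
    (∃ (m : ℕ) (b : Fin m → LieAlg GR), IsInvBasis GR ρ b) ∧
    ∀ (m : ℕ) (b : Fin m → LieAlg GR), IsInvBasis GR ρ b →
      ∃ (w : G → ℝ) (V U : Type) (_ : AddCommGroup V) (_ : Module ℂ V) (_ : AddCommGroup U)
        (_ : Module ℂ U) (MV : HCModule GR ρ V) (MU : HCModule GR ρ U) (j : V →ₗ[ℂ] U),
        IsWeight w ∧ IsEmbedding MV MU j ∧ HasMinMax MV w ∧ HasMinMax MU w ∧
        (gapSet MV b w).Nonempty ∧ (gapSet MU b w).Nonempty ∧
        sobolevGap MU b w < sobolevGap MV b w := by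
  refine ⟨4, Gd, inferInstance, inferInstance, GRd, rho, inferInstance, all_top.1, all_top.2.2,
    g_rr, ⟨2, all_basis.1⟩, ?_⟩
  intro m b hb
  obtain ⟨a, hU, h0, hlt⟩ := all_c7 mGood0.1 mGoodU.1 m b hb
  have e0 : ∃ p, IsNormIn (M0.toHC mGood0.1) (wk a) p := ⟨p0, norm_mono
    (fun g => le_max_of_le_right (by linarith [abs_nonneg (xx g)]))
    (norm_of1 (all_base.1.2 mGood0.1).1)⟩
  have eU : ∃ p, IsNormIn (MU.toHC mGoodU.1) (wk a) p := ⟨pU, norm_mono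
    (fun g => le_max_right _ _) (norm_of1 (all_base.2.1.2 mGoodU.1).1)⟩
  refine ⟨wk a, _, _, _, _, _, _, M0.toHC mGood0.1, MU.toHC mGoodU.1, jj, all_wk a, jj_emb,
    ⟨⟨_, (all_mins (wk a) (all_wk a)).1 mGood0.1 e0⟩, ?_⟩,
    ⟨⟨_, (all_mins (wk a) (all_wk a)).2.1 mGoodU.1 eU⟩, ?_⟩, h0, hU, hlt⟩
  · exact all_max ℤ M0 mGood0.1 sz0 mGood0.2 _ _ all_base.1.1 (all_wk a) p0
      (norm_of1 (all_base.1.2 mGood0.1).1) (all_base.1.2 mGood0.1).2 e0
  · exact all_max _ MU mGoodU.1 sz1 mGoodU.2 _ _ all_base.2.1.1 (all_wk a) pU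
      (norm_of1 (all_base.2.1.2 mGoodU.1).1) (all_base.2.1.2 mGoodU.1).2 eU

theorem final_d7c : ∃ (n : ℕ) (G : Type) (_ : Group G) (_ : TopologicalSpace G)
    (GR : Subgroup (GL (Fin n) ℝ)) (ρ : G →* GL (Fin n) ℝ), IsTopologicalGroup G ∧ T2Space G ∧
    ConnectedSpace G ∧ IsRealReductive GR ρ ∧
    (∃ (m : ℕ) (b : Fin m → LieAlg GR), IsInvBasis GR ρ b) ∧
    ∀ (m : ℕ) (b : Fin m → LieAlg GR), IsInvBasis GR ρ b → ∀ C : ℝ,
      ∃ (w : G → ℝ) (V : Type) (_ : AddCommGroup V) (_ : Module ℂ V) (Mo : HCModule GR ρ V) (t : ℝ),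
        IsWeight w ∧ 0 ≤ t ∧ HasMinMax Mo w ∧ HasMinMax Mo (twist GR ρ w t) ∧
        (gapSet Mo b w).Nonempty ∧ (gapSet Mo b (twist GR ρ w t)).Nonempty ∧
        sobolevGap Mo b w + C * t < sobolevGap Mo b (twist GR ρ w t) := by
  refine ⟨4, Gd, inferInstance, inferInstance, GRd, rho, inferInstance, all_top.1, all_top.2.2,
    g_rr, ⟨2, all_basis.1⟩, ?_⟩
  intro m b hb C
  obtain ⟨a, e0, h0, h1, hlt⟩ := all_d2 mGoodD.1 m b hb C
  have hw' : IsWeight (twist GRd rho (wD a) (1 / 2)) := all_ad.2 (wD a) (1 / 2) (all_wD a) (by norm_num)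
  have e1 : ∃ p, IsNormIn (MD.toHC mGoodD.1) (twist GRd rho (wD a) (1 / 2)) p := by
    obtain ⟨p, hp⟩ := e0
    refine ⟨p, norm_mono (fun g => ?_) hp⟩
    have h2 : 0 ≤ wD a g := ((all_wD a).1 g).le
    have h3 : 1 ≤ adNorm GRd rho g ^ (1 / 2 : ℝ) := Real.one_le_rpow (all_ad.1 g).1 (by norm_num)
    show wD a g ≤ wD a g * adNorm GRd rho g ^ (1 / 2 : ℝ)
    nlinarith
  refine ⟨wD a, _, _, _, MD.toHC mGoodD.1, 1 / 2, all_wD a, by norm_num,
    ⟨⟨_, (all_mins (wD a) (all_wD a)).2.2 mGoodD.1 e0⟩, ?_⟩,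
    ⟨⟨_, (all_mins _ hw').2.2 mGoodD.1 e1⟩, ?_⟩, h0, h1, hlt⟩
  · exact all_max _ MD mGoodD.1 sz1 mGoodD.2 _ _ all_base.2.2.1.1 (all_wD a) pD
      (norm_of1 (all_base.2.2.1.2 mGoodD.1).1) (all_base.2.2.1.2 mGoodD.1).2 e0
  · exact all_max _ MD mGoodD.1 sz1 mGoodD.2 _ _ all_base.2.2.1.1 hw' pD
      (norm_of1 (all_base.2.2.1.2 mGoodD.1).1) (all_base.2.2.1.2 mGoodD.1).2 e1

theorem final_a30 : ∃ (n : ℕ) (G : Type) (_ : Group G) (_ : TopologicalSpace G)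
    (GR : Subgroup (GL (Fin n) ℝ)) (ρ : G →* GL (Fin n) ℝ), IsTopologicalGroup G ∧ T2Space G ∧
    ConnectedSpace G ∧ IsRealReductive GR ρ ∧
    (∃ (m : ℕ) (b : Fin m → LieAlg GR), IsInvBasis GR ρ b) ∧
    ∃ (w : G → ℝ) (V : Type) (_ : AddCommGroup V) (_ : Module ℂ V) (Mo : HCModule GR ρ V)
      (p q : V → ℝ), IsWeight w ∧ IsNormIn Mo w p ∧ IsNormIn Mo w q ∧ ¬ NormLE q p ∧
      ∀ (m : ℕ) (b : Fin m → LieAlg GR), IsInvBasis GR ρ b →
        sdist Mo b p q = 0 ∧ 0 ∈ dSet Mo b p q ∧ ∀ s : ℝ, 0 < s → s < 1 → s ∈ dSet Mo b q p :=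
  ⟨4, Gd, inferInstance, inferInstance, GRd, rho, inferInstance, all_top.1, all_top.2.2,
    g_rr, ⟨2, all_basis.1⟩, wA, _, _, _, M0.toHC mGood0.1, p0, qn, all_wA,
    (all_e1.2.1 mGood0.1).2, (all_e1.2.1 mGood0.1).1, all_e3,
    fun m b hb => all_e4 mGood0.1 m b hb⟩

theorem final_6a3 : ∃ (n : ℕ) (G : Type) (_ : Group G) (_ : TopologicalSpace G)
    (GR : Subgroup (GL (Fin n) ℝ)) (ρ : G →* GL (Fin n) ℝ), IsTopologicalGroup G ∧ T2Space G ∧
    ConnectedSpace G ∧ IsRealReductive GR ρ ∧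
    (∃ (m : ℕ) (b : Fin m → LieAlg GR), IsInvBasis GR ρ b) ∧
    ∃ (V : Type) (_ : AddCommGroup V) (_ : Module ℂ V) (Mo : HCModule GR ρ V) (p : V → ℝ),
      IsGContinuous Mo p ∧ ∀ (m : ℕ) (b : Fin m → LieAlg GR), IsInvBasis GR ρ b →
        ∃ T : Module.End ℂ V, IsSobolevPow Mo b 2 T ∧ ¬ IsGContinuous Mo (fun v => p (T v)) :=
  ⟨4, Gd, inferInstance, inferInstance, GRd, rho, inferInstance, all_top.1, all_top.2.2,
    g_rr, ⟨2, all_basis.1⟩, _, _, _, MT.toHC mGoodT.1, pT,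
    cont_of (norm_of1 (all_base.2.2.2 mGoodT.1).1), fun m b hb => all_f4 mGoodT.1 m b hb⟩

end Pool.Agent.H913.LG
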