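import Pool.Agent.H913.LG.Stmts

/- PROJECT LG (owner helper913): MP_c67f28_al, MP_d7c545_al, MP_a304db_al, MP_6a3a89_al: norms on Harish-Chandra modules of
G = GL(2,R)+ x GL(2,R)+ (Gd below); common infrastructure.
SETUP (once per box, about 2 minutes):
  cd /workdir/pool/outputs/live && git fetch -q origin && mkdir -p /workdir/pool/Pool/Agent/H913/LG /workdir/pool/Pool/Agent/H913/SGP && git show origin/main:Pool/Agent/H913/SGP/Definitions.lean > /workdir/pool/Pool/Agent/H913/SGP/Definitions.lean && for f in Defs HCBase HCAux Mod Stmts; do git show origin/helper913:Pool/Agent/H913/LG/$f.lean > /workdir/pool/Pool/Agent/H913/LG/$f.lean; done; cd /workdir/pool && lake build Pool.Agent.H913.LG.Stmts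
(ignore the sorry warnings of HCBase and HCAux: these are other jobs.) Read Defs, HCBase, Mod, Stmts first (short).
Put this file at Pool/Agent/H913/LG/GAA.lean, replace the sorry of the TARGET by a proof; auxiliary lemmas before it are
welcome (give them names starting with gAA_ to avoid clashes). Statement of the target unchanged. Hypotheses (h1 : S_xxx) of the
target are proved elsewhere, use them freely. No sorry, no axioms. Respect RULES.md Validity 2 (banned words such as notation,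
macro, syntax, prefix, tactic; no straight double quotes; no line comment starting in odd places).
If the target is false or awkward, message helper913 at once (the statement will be fixed).
Paste the whole compiled file in jobs.result with status='done', done_at=now(), then: team-sql notify inbox_helper913 done -/

open Matrix NormedSpace
open scoped Matrix ComplexConjugate

namespace Pool.Agent.H913.LG

open Pool.Agent.H913.SGP

/-! Proof. al (M * N) = al M * al N + be M * conj (be N), be (M * N) = al M * be N + be M * conj (al N), det M = |al M|² - |be M|² (direct computation with entries). N(g) = |al|+|be| is submultiplicative; AA = N²/det ≥ 1 since det = (|al|-|be|)(|al|+|be|). Inverse: al g⁻¹ = conj (al g)/det, be g⁻¹ = -be g/det. Entries of mt g⁻¹ * Jm * mt g: al Jm = i, be Jm = 0: al(g⁻¹ J g) = i(|al|²+|be|²)/det, be(g⁻¹Jg) = 2 i conj(al) be/det; entries of a matrix M are bounded by |al M| + |be M| (M 0 0 = Re al + Re be etc.),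 sum = (|al|+|be|)²/det = AA.
mob (M N) w = mob M (mob N w) for |w| ≤ 1, det > 0 (denominators nonzero as |be M||w| < |al M|). 1 - |mob M w|² = det M (1-|w|²)/|conj(be M) w + conj(al M)|². mobI g 0 = be g⁻¹ / conj(al g⁻¹) has modulus |be g|/|al g|, so (1+ρ)/(1-ρ) = (|al|+|be|)/(|al|-|be|) = AA. mob M x - mob M y = det M (x-y)/((conj(be M) x + conj(al M))(conj(be M) y+conj(al M))), denominators ≥ |al|-|be|. Transitivity: g⁻¹ with al = 1, be = z scaled: matrix with real entries [[1+Re z, Im z],[Im z, 1-Re z]] has al = 1, be = z, det = 1-|z|² > 0. Continuity of AA. -/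

theorem gAA_al_mul (M N : Mat2) : al (M * N) = al M * al N + be M * conj (be N) := by
  apply Complex.ext
  · simp [al, be, Matrix.mul_apply, Fin.sum_univ_two]
    ring
  · simp [al, be, Matrix.mul_apply, Fin.sum_univ_two]
    ring

theorem gAA_be_mul (M N : Mat2) : be (M * N) = al M * be N + be M * conj (al N) := by
  apply Complex.ext
  · simp [al, be, Matrix.mul_apply, Fin.sum_univ_two]
    ring
  · simp [al, be, Matrix.mul_apply, Fin.sum_univ_two]
    ring

theorem gAA_det (M : Mat2) : M.det = ‖al M‖ ^ 2 - ‖be M‖ ^ 2 := by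
  rw [Complex.sq_norm, Complex.sq_norm, Complex.normSq_apply, Complex.normSq_apply,
    Matrix.det_fin_two]
  simp only [al, be]
  ring

/-- norm -/
noncomputable def gAA_N (M : Mat2) : ℝ := ‖al M‖ + ‖be M‖

theorem gAA_N_mul (M N : Mat2) : gAA_N (M * N) ≤ gAA_N M * gAA_N N := by
  unfold gAA_N
  rw [gAA_al_mul, gAA_be_mul]
  have h1 : ‖al M * al N + be M * conj (be N)‖ ≤ ‖al M‖ * ‖al N‖ + ‖be M‖ * ‖be N‖ := by
    refine (norm_add_le _ _).trans ?_
    rw [norm_mul, norm_mul, RCLike.norm_conj]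
  have h2 : ‖al M * be N + be M * conj (al N)‖ ≤ ‖al M‖ * ‖be N‖ + ‖be M‖ * ‖al N‖ := by
    refine (norm_add_le _ _).trans ?_
    rw [norm_mul, norm_mul, RCLike.norm_conj]
  calc _ ≤ (‖al M‖ * ‖al N‖ + ‖be M‖ * ‖be N‖) + (‖al M‖ * ‖be N‖ + ‖be M‖ * ‖al N‖) :=
        add_le_add h1 h2
    _ = _ := by ring

theorem gAA_det_pos (g : Gp) : 0 < (mt g).det := by
  have := g.2
  rw [Matrix.mem_glpos] at this
  simpa using this

theorem gAA_mt_mul (g h : Gp) : mt (g * h) = mt g * mt h := by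
  simp [mt]

theorem gAA_mt_inv_mul (g : Gp) : mt g⁻¹ * mt g = 1 := by
  rw [← gAA_mt_mul, inv_mul_cancel]
  simp [mt]

theorem gAA_mt_inv (g : Gp) : mt g⁻¹ = (mt g).det⁻¹ • (mt g).adjugate := by
  have h1 := gAA_mt_inv_mul g
  have h2 : (mt g).det ≠ 0 := (gAA_det_pos g).ne'
  calc mt g⁻¹ = mt g⁻¹ * ((mt g).det⁻¹ • (mt g * (mt g).adjugate)) := by
        rw [Matrix.mul_adjugate, smul_smul, inv_mul_cancel₀ h2, one_smul, Matrix.mul_one]
    _ = (mt g).det⁻¹ • ((mt g⁻¹ * mt g) * (mt g).adjugate) := by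
        rw [Matrix.mul_smul, Matrix.mul_assoc]
    _ = _ := by rw [h1, Matrix.one_mul]

theorem gAA_det_inv (g : Gp) : (mt g⁻¹).det = (mt g).det⁻¹ := by
  have h1 := congrArg Matrix.det (gAA_mt_inv_mul g)
  rw [Matrix.det_mul, Matrix.det_one] at h1
  exact eq_inv_of_mul_eq_one_left h1

theorem gAA_al_inv (g : Gp) : al (mt g⁻¹) = (((mt g).det⁻¹ : ℝ) : ℂ) * conj (al (mt g)) := by
  rw [gAA_mt_inv, Matrix.adjugate_fin_two]
  apply Complex.ext
  · simp [al]
    ring
  · simp [al]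
    ring

theorem gAA_be_inv (g : Gp) : be (mt g⁻¹) = (((mt g).det⁻¹ : ℝ) : ℂ) * (-be (mt g)) := by
  rw [gAA_mt_inv, Matrix.adjugate_fin_two]
  apply Complex.ext
  · simp [be]
    ring
  · simp [be]
    ring

theorem gAA_nal_inv (g : Gp) : ‖al (mt g⁻¹)‖ = (mt g).det⁻¹ * ‖al (mt g)‖ := by
  rw [gAA_al_inv, norm_mul, RCLike.norm_conj, Complex.norm_real, Real.norm_eq_abs,
    abs_of_pos (inv_pos.mpr (gAA_det_pos g))]

theorem gAA_nbe_inv (g : Gp) : ‖be (mt g⁻¹)‖ = (mt g).det⁻¹ * ‖be (mt g)‖ := by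
  rw [gAA_be_inv, norm_mul, norm_neg, Complex.norm_real, Real.norm_eq_abs,
    abs_of_pos (inv_pos.mpr (gAA_det_pos g))]

theorem gAA_lt (g : Gp) : ‖be (mt g)‖ < ‖al (mt g)‖ := by
  have h1 := gAA_det_pos g
  rw [gAA_det] at h1
  have h2 : ‖be (mt g)‖ ^ 2 < ‖al (mt g)‖ ^ 2 := by linarith
  exact lt_of_pow_lt_pow_left₀ 2 (norm_nonneg _) h2

theorem gAA_eq (g : Gp) : AA g = (‖al (mt g)‖ + ‖be (mt g)‖) / (‖al (mt g)‖ - ‖be (mt g)‖) := by
  have h1 := gAA_lt g
  have h2 := norm_nonneg (be (mt g))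
  have h3 : ‖al (mt g)‖ - ‖be (mt g)‖ ≠ 0 := by linarith
  have h4 : ‖al (mt g)‖ + ‖be (mt g)‖ ≠ 0 := by linarith
  unfold AA
  rw [gAA_det, sq_sub_sq, sq, mul_div_mul_left _ _ h4]

theorem gAA_one_le (g : Gp) : 1 ≤ AA g := by
  have h1 := gAA_lt g
  have h2 := norm_nonneg (be (mt g))
  rw [gAA_eq, one_le_div (by linarith)]
  linarith

theorem gAA_inv (g : Gp) : AA g⁻¹ = AA g := by
  have h0 := gAA_det_pos g
  unfold AA
  rw [gAA_nal_inv, gAA_nbe_inv, gAA_det_inv]
  field_simp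

theorem gAA_mul (g h : Gp) : AA (g * h) ≤ AA g * AA h := by
  have h1 := gAA_det_pos g
  have h2 := gAA_det_pos h
  unfold AA
  rw [gAA_mt_mul, Matrix.det_mul, div_mul_div_comm]
  have h3 := gAA_N_mul (mt g) (mt h)
  unfold gAA_N at h3
  have h4 : (‖al (mt g * mt h)‖ + ‖be (mt g * mt h)‖) ^ 2 ≤
      (‖al (mt g)‖ + ‖be (mt g)‖) ^ 2 * (‖al (mt h)‖ + ‖be (mt h)‖) ^ 2 := by
    rw [← mul_pow]
    exact pow_le_pow_left₀ (by positivity) h3 2
  exact div_le_div_of_nonneg_right h4 (by positivity)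

theorem gAA_cont_mt : Continuous mt := Units.continuous_val.comp continuous_subtype_val

theorem gAA_cont : Continuous AA := by
  have hc : ∀ i j : Fin 2, Continuous fun g : Gp => mt g i j := fun i j =>
    (continuous_apply_apply i j).comp gAA_cont_mt
  have h1 : Continuous fun g : Gp => al (mt g) := by
    have : (fun g : Gp => al (mt g)) = fun g : Gp =>
        (((mt g 0 0 + mt g 1 1) / 2 : ℝ) : ℂ) + (((mt g 1 0 - mt g 0 1) / 2 : ℝ) : ℂ) * Complex.I := by
      funext g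
      exact Complex.mk_eq_add_mul_I _ _
    rw [this]
    exact ((Complex.continuous_ofReal.comp (((hc 0 0).add (hc 1 1)).div_const 2)).add
      ((Complex.continuous_ofReal.comp (((hc 1 0).sub (hc 0 1)).div_const 2)).mul continuous_const))
  have h2 : Continuous fun g : Gp => be (mt g) := by
    have : (fun g : Gp => be (mt g)) = fun g : Gp =>
        (((mt g 0 0 - mt g 1 1) / 2 : ℝ) : ℂ) + (((mt g 1 0 + mt g 0 1) / 2 : ℝ) : ℂ) * Complex.I := by
      funext g
      exact Complex.mk_eq_add_mul_I _ _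
    rw [this]
    exact ((Complex.continuous_ofReal.comp (((hc 0 0).sub (hc 1 1)).div_const 2)).add
      ((Complex.continuous_ofReal.comp (((hc 1 0).add (hc 0 1)).div_const 2)).mul continuous_const))
  have h3 : Continuous fun g : Gp => (mt g).det := gAA_cont_mt.matrix_det
  exact ((h1.norm.add h2.norm).pow 2).div h3 fun g => (gAA_det_pos g).ne'

theorem gAA_entry (M : Mat2) (i j : Fin 2) : |M i j| ≤ gAA_N M := by
  have h1 := Complex.abs_re_le_norm (al M)
  have h2 := Complex.abs_im_le_norm (al M)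
  have h3 := Complex.abs_re_le_norm (be M)
  have h4 := Complex.abs_im_le_norm (be M)
  unfold gAA_N
  have e1 : (al M).re = (M 0 0 + M 1 1) / 2 := rfl
  have e2 : (al M).im = (M 1 0 - M 0 1) / 2 := rfl
  have e3 : (be M).re = (M 0 0 - M 1 1) / 2 := rfl
  have e4 : (be M).im = (M 1 0 + M 0 1) / 2 := rfl
  rw [abs_le] at h1 h2 h3 h4 ⊢
  fin_cases i <;> fin_cases j <;> simp only [Fin.zero_eta, Fin.mk_one] <;>
    constructor <;> linarith [h1.1, h1.2, h2.1, h2.2, h3.1, h3.2, h4.1, h4.2]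

theorem gAA_N_J : gAA_N Jm = 1 := by
  have h1 : al Jm = Complex.I := by
    apply Complex.ext <;> simp [al, Jm]
  have h2 : be Jm = 0 := by
    apply Complex.ext <;> simp [be, Jm]
  unfold gAA_N
  rw [h1, h2]
  simp

theorem gAA_adJ (g : Gp) (i j : Fin 2) : |(mt g⁻¹ * Jm * mt g) i j| ≤ 2 * AA g := by
  have h0 := gAA_det_pos g
  have h1 := gAA_entry (mt g⁻¹ * Jm * mt g) i j
  have h2 := gAA_N_mul (mt g⁻¹ * Jm) (mt g)
  have h3 := gAA_N_mul (mt g⁻¹) Jm
  rw [gAA_N_J, mul_one] at h3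
  have h4 : gAA_N (mt g⁻¹) * gAA_N (mt g) = AA g := by
    unfold gAA_N AA
    rw [gAA_nal_inv, gAA_nbe_inv]
    field_simp
  have h5 : 0 ≤ gAA_N (mt g) := by unfold gAA_N; positivity
  have h6 := mul_le_mul_of_nonneg_right h3 h5
  have h7 := gAA_one_le g
  linarith

theorem gAA_den (a b z : ℂ) (hab : ‖b‖ < ‖a‖) (hz : ‖z‖ ≤ 1) :
    ‖a‖ - ‖b‖ ≤ ‖conj b * z + conj a‖ := by
  have h1 : ‖conj a‖ ≤ ‖conj b * z + conj a‖ + ‖conj b * z‖ := by
    have := norm_sub_le (conj b * z + conj a) (conj b * z)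
    simpa using this
  rw [norm_mul, RCLike.norm_conj, RCLike.norm_conj] at h1
  have h2 : ‖b‖ * ‖z‖ ≤ ‖b‖ := mul_le_of_le_one_right (norm_nonneg _) hz
  linarith

theorem gAA_den_ne (a b z : ℂ) (hab : ‖b‖ < ‖a‖) (hz : ‖z‖ ≤ 1) : conj b * z + conj a ≠ 0 := by
  intro h
  have := gAA_den a b z hab hz
  rw [h, norm_zero] at this
  linarith

theorem gAA_nsq (a b z : ℂ) : ‖conj b * z + conj a‖ ^ 2 - ‖a * z + b‖ ^ 2 =
    (‖a‖ ^ 2 - ‖b‖ ^ 2) * (1 - ‖z‖ ^ 2) := by
  simp only [Complex.sq_norm, Complex.normSq_apply, Complex.add_re, Complex.add_im,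
    Complex.mul_re, Complex.mul_im, Complex.conj_re, Complex.conj_im]
  ring

theorem gAA_mob_mul (M N : Mat2) (hN : ‖be N‖ < ‖al N‖) (z : ℂ) (hz : ‖z‖ ≤ 1) :
    mob (M * N) z = mob M (mob N z) := by
  have hv := gAA_den_ne (al N) (be N) z hN hz
  unfold mob
  rw [gAA_al_mul, gAA_be_mul]
  simp only [map_add, map_mul, Complex.conj_conj]
  set u := al N * z + be N with hu
  set v := conj (be N) * z + conj (al N) with hv'
  have e1 : al M * (u / v) + be M = (al M * u + be M * v) / v := by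
    field_simp
  have e2 : conj (be M) * (u / v) + conj (al M) = (conj (be M) * u + conj (al M) * v) / v := by
    field_simp
  rw [e1, e2, div_div_div_cancel_right₀ hv, hu, hv']
  congr 1 <;> ring

theorem gAA_mob_norm (a b z : ℂ) (hab : ‖b‖ < ‖a‖) (hz : ‖z‖ ≤ 1) :
    ‖(a * z + b) / (conj b * z + conj a)‖ ≤ 1 := by
  have h1 := gAA_nsq a b z
  have h2 : 0 ≤ (‖a‖ ^ 2 - ‖b‖ ^ 2) * (1 - ‖z‖ ^ 2) := by
    apply mul_nonneg
    · have := pow_le_pow_left₀ (norm_nonneg b) hab.le 2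
      linarith
    · have := pow_le_one₀ (n := 2) (norm_nonneg z) hz
      linarith
  have h3 : ‖a * z + b‖ ≤ ‖conj b * z + conj a‖ := by
    refine (sq_le_sq₀ (norm_nonneg _) (norm_nonneg _)).mp ?_
    linarith
  rw [norm_div, div_le_one]
  · exact h3
  · exact norm_pos_iff.mpr (gAA_den_ne a b z hab hz)

theorem gAA_mob_norm1 (a b z : ℂ) (hab : ‖b‖ < ‖a‖) (hz : ‖z‖ = 1) :
    ‖(a * z + b) / (conj b * z + conj a)‖ = 1 := by
  have h1 := gAA_nsq a b z
  rw [hz] at h1
  have h3 : ‖a * z + b‖ = ‖conj b * z + conj a‖ := by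
    have : ‖a * z + b‖ ^ 2 = ‖conj b * z + conj a‖ ^ 2 := by linarith
    exact (pow_left_inj₀ (norm_nonneg _) (norm_nonneg _) (by norm_num)).mp this
  rw [norm_div, h3, div_self]
  exact norm_ne_zero_iff.mpr (gAA_den_ne a b z hab hz.le)

theorem gAA_mob_sub (a b x y : ℂ) (hab : ‖b‖ < ‖a‖) (hx : ‖x‖ ≤ 1) (hy : ‖y‖ ≤ 1) :
    ‖(a * x + b) / (conj b * x + conj a) - (a * y + b) / (conj b * y + conj a)‖ ≤
      (‖a‖ + ‖b‖) / (‖a‖ - ‖b‖) * ‖x - y‖ := by
  have hx0 := gAA_den_ne a b x hab hx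
  have hy0 := gAA_den_ne a b y hab hy
  have hx1 := gAA_den a b x hab hx
  have hy1 := gAA_den a b y hab hy
  have hb := norm_nonneg b
  have hpos : 0 < ‖a‖ - ‖b‖ := by linarith
  have e : (a * x + b) / (conj b * x + conj a) - (a * y + b) / (conj b * y + conj a) =
      (a * conj a - b * conj b) * (x - y) / ((conj b * x + conj a) * (conj b * y + conj a)) := by
    rw [div_sub_div _ _ hx0 hy0]
    congr 1
    ring
  have e2 : a * conj a - b * conj b = (((‖a‖ ^ 2 - ‖b‖ ^ 2 : ℝ)) : ℂ) := by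
    rw [Complex.mul_conj', Complex.mul_conj']
    push_cast
    ring
  have h5 : 0 ≤ ‖a‖ ^ 2 - ‖b‖ ^ 2 := by nlinarith
  rw [e, e2, norm_div, norm_mul, norm_mul, Complex.norm_real, Real.norm_eq_abs, abs_of_nonneg h5]
  have h6 : (‖a‖ - ‖b‖) * (‖a‖ - ‖b‖) ≤ ‖conj b * x + conj a‖ * ‖conj b * y + conj a‖ :=
    mul_le_mul hx1 hy1 hpos.le (norm_nonneg _)
  calc (‖a‖ ^ 2 - ‖b‖ ^ 2) * ‖x - y‖ / (‖conj b * x + conj a‖ * ‖conj b * y + conj a‖)
      ≤ (‖a‖ ^ 2 - ‖b‖ ^ 2) * ‖x - y‖ / ((‖a‖ - ‖b‖) * (‖a‖ - ‖b‖)) :=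
        div_le_div_of_nonneg_left (by positivity) (by positivity) h6
    _ = (‖a‖ + ‖b‖) / (‖a‖ - ‖b‖) * ‖x - y‖ := by
        field_simp
        ring

theorem gAA_mobI_zero (g : Gp) : ‖mobI g 0‖ = ‖be (mt g)‖ / ‖al (mt g)‖ := by
  have h0 := gAA_det_pos g
  have h1 := gAA_lt g
  have h2 := norm_nonneg (be (mt g))
  have h3 : 0 < ‖al (mt g)‖ := by linarith
  unfold mobI mob
  rw [mul_zero, zero_add, mul_zero, zero_add, norm_div, RCLike.norm_conj, gAA_nbe_inv, gAA_nal_inv]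
  field_simp

theorem gAA_trans (z : ℂ) (hz : ‖z‖ < 1) : ∃ g : Gp, mobI g 0 = z := by
  set M : Mat2 := !![1 + z.re, z.im; z.im, 1 - z.re] with hM
  have ha : al M = 1 := by
    apply Complex.ext
    · simp [al, hM]
    · simp [al, hM]
  have hb : be M = z := by
    apply Complex.ext
    · simp [be, hM]
    · simp [be, hM]
  have hdet : 0 < M.det := by
    rw [gAA_det, ha, hb]
    have := pow_lt_one₀ (norm_nonneg z) hz (n := 2) (by norm_num)
    simp
    simpa using this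
  set u : GL (Fin 2) ℝ := Matrix.GeneralLinearGroup.mkOfDetNeZero M hdet.ne' with hu
  have hu1 : (u : Mat2) = M := rfl
  have hmem : u ∈ Matrix.GLPos (Fin 2) ℝ := by
    rw [Matrix.mem_glpos]
    simpa [hu1] using hdet
  refine ⟨(⟨u, hmem⟩ : Gp)⁻¹, ?_⟩
  unfold mobI mob
  rw [inv_inv]
  have h3 : mt (⟨u, hmem⟩ : Gp) = M := rfl
  rw [h3, ha, hb]
  simp

/-- TARGET -/
theorem g_AA : S_AA := by
  refine ⟨gAA_one_le, gAA_mul, gAA_inv, gAA_cont, gAA_adJ, ?_, ?_, gAA_trans, ?_, ?_, ?_⟩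
  · intro g
    have h1 := gAA_lt g
    have h2 := norm_nonneg (be (mt g))
    have h3 : 0 < ‖al (mt g)‖ := by linarith
    have h4 : ‖al (mt g)‖ - ‖be (mt g)‖ ≠ 0 := by linarith
    rw [gAA_mobI_zero]
    constructor
    · rw [gAA_eq]
      have e1 : 1 + ‖be (mt g)‖ / ‖al (mt g)‖ = (‖al (mt g)‖ + ‖be (mt g)‖) / ‖al (mt g)‖ := by
        field_simp
      have e2 : 1 - ‖be (mt g)‖ / ‖al (mt g)‖ = (‖al (mt g)‖ - ‖be (mt g)‖) / ‖al (mt g)‖ := by
        field_simp
      rw [e1, e2, div_div_div_cancel_right₀ h3.ne']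
    · rw [div_lt_one h3]
      exact h1
  · intro g x y hx hy
    have := gAA_mob_sub (al (mt g⁻¹)) (be (mt g⁻¹)) x y (gAA_lt g⁻¹) hx.le hy.le
    rw [← gAA_eq g⁻¹, gAA_inv] at this
    exact this
  · intro g h z hz
    unfold mobI
    rw [_root_.mul_inv_rev, gAA_mt_mul]
    exact gAA_mob_mul _ _ (gAA_lt g⁻¹) z hz
  · intro g z hz
    exact gAA_mob_norm _ _ z (gAA_lt g⁻¹) hz
  · intro g z hz
    exact gAA_mob_norm1 _ _ z (gAA_lt g⁻¹) hz

end Pool.Agent.H913.LG
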