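import Pool.Agent.H913.LG.Stmts

/- PROJECT LG (owner helper913): MP_c67f28_al, MP_d7c545_al, MP_a304db_al, MP_6a3a89_al: norms on Harish-Chandra modules of
G = GL(2,R)+ x GL(2,R)+ (Gd below); common infrastructure.
SETUP (once per box, about 2 minutes):
  cd /workdir/pool/outputs/live && git fetch -q origin && mkdir -p /workdir/pool/Pool/Agent/H913/LG /workdir/pool/Pool/Agent/H913/SGP && git show origin/main:Pool/Agent/H913/SGP/Definitions.lean > /workdir/pool/Pool/Agent/H913/SGP/Definitions.lean && for f in Defs HCBase HCAux Mod Stmts; do git show origin/helper913:Pool/Agent/H913/LG/$f.lean > /workdir/pool/Pool/Agent/H913/LG/$f.lean; done; cd /workdir/pool && lake build Pool.Agent.H913.LG.Stmts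
(ignore the sorry warnings of HCBase and HCAux: these are other jobs.) Read Defs, HCBase, Mod, Stmts first (short).
Put this file at Pool/Agent/H913/LG/GBlk.lean, replace the sorry of the TARGET by a proof; auxiliary lemmas before it are
welcome (give them names starting with gBlk_ to avoid clashes). Statement of the target unchanged. Hypotheses (h1 : S_xxx) of the
target are proved elsewhere, use them freely. No sorry, no axioms. Respect RULES.md Validity 2 (banned words such as notation,
macro, syntax, prefix, tactic; no straight double quotes; no line comment starting in odd places).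
If the target is false or awkward, message helper913 at once (the statement will be fixed).
Paste the whole compiled file in jobs.result with status='done', done_at=now(), then: team-sql notify inbox_helper913 done -/

open Matrix NormedSpace
open scoped Matrix ComplexConjugate

namespace Pool.Agent.H913.LG

open Pool.Agent.H913.SGP

/-! Proof. The map (A, D) ↦ blkHom (A, D) is a continuous ring homomorphism Mat2 × Mat2 → Mat 4, so exp (t • blkHom (A,D)) = blkHom (exp (t•A), exp (t•D)) (`map_exp` with exp of a product componentwise, or via the power series). For X = blkHom (A,D): X ∈ LieAlg GRd. One-parameter group: γ t = (exp(t A), exp(t D)) as an element of GLPos x GLPos: det exp(tA) > 0 because exp(tA) = exp(tA/2)^2 and invertible (or Matrix.det_exp). Continuity of γ into the units (Units.continuous_iff: value and inverse, inverse is exp(-tA)), subgroup and product topology. Third part: rho (γ t) = exp (t • X.1), rho (g) = blkHom (mt g.1, mt g.2), X.1 = blkHom (b1 X.1, b2 X.1) (`aux_block`, in HCBase, proved elsewhere), blkHom injective. -/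

theorem gBlk_app (p : Mat2 × Mat2) (i j : Fin 4) : blkHom p i j =
    Matrix.fromBlocks p.1 0 0 p.2 ((finSumFinEquiv (m := 2) (n := 2)).symm i)
      ((finSumFinEquiv (m := 2) (n := 2)).symm j) := rfl

/-- block diagonal matrices as a ring homomorphism -/
def gBlk_ring : Mat2 × Mat2 →+* Mat 4 where
  toFun := blkHom
  map_one' := blkHom.map_one
  map_mul' := blkHom.map_mul
  map_zero' := by
    ext i j
    rw [gBlk_app]
    rcases (finSumFinEquiv (m := 2) (n := 2)).symm i with a | a <;>
      rcases (finSumFinEquiv (m := 2) (n := 2)).symm j with b | b <;> simp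
  map_add' := by
    intro p q
    ext i j
    rw [Matrix.add_apply, gBlk_app, gBlk_app, gBlk_app]
    rcases (finSumFinEquiv (m := 2) (n := 2)).symm i with a | a <;>
      rcases (finSumFinEquiv (m := 2) (n := 2)).symm j with b | b <;> simp

theorem gBlk_cont : Continuous (fun p : Mat2 × Mat2 => blkHom p) := by
  refine continuous_matrix ?_
  intro i j
  simp only [gBlk_app]
  rcases (finSumFinEquiv (m := 2) (n := 2)).symm i with a | a <;>
    rcases (finSumFinEquiv (m := 2) (n := 2)).symm j with b | b
  · exact (continuous_fst).matrix_elem a b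
  · exact continuous_const
  · exact continuous_const
  · exact (continuous_snd).matrix_elem a b

theorem gBlk_smul (t : ℝ) (A D : Mat2) : blkHom (t • A, t • D) = t • blkHom (A, D) := by
  ext i j
  rw [Matrix.smul_apply, gBlk_app, gBlk_app]
  rcases (finSumFinEquiv (m := 2) (n := 2)).symm i with a | a <;>
    rcases (finSumFinEquiv (m := 2) (n := 2)).symm j with b | b <;> simp

theorem gBlk_b1 (A D : Mat2) : b1 (blkHom (A, D)) = A := by
  ext i j
  have h : ∀ k : Fin 2, (finSumFinEquiv (m := 2) (n := 2)).symm (Fin.castAdd 2 k) = Sum.inl k :=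
    fun k => finSumFinEquiv_symm_apply_castAdd k
  show blkHom (A, D) (Fin.castAdd 2 i) (Fin.castAdd 2 j) = A i j
  rw [gBlk_app, h, h]
  simp

theorem gBlk_b2 (A D : Mat2) : b2 (blkHom (A, D)) = D := by
  ext i j
  have h : ∀ k : Fin 2, (finSumFinEquiv (m := 2) (n := 2)).symm (Fin.natAdd 2 k) = Sum.inr k :=
    fun k => finSumFinEquiv_symm_apply_natAdd k
  show blkHom (A, D) (Fin.natAdd 2 i) (Fin.natAdd 2 j) = D i j
  rw [gBlk_app, h, h]
  simp

set_option backward.isDefEq.respectTransparency false in
open scoped Matrix.Norms.Operator in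
theorem gBlk_exp (A D : Mat2) : exp (blkHom (A, D)) = blkHom (exp A, exp D) := by
  have h := NormedSpace.map_exp gBlk_ring gBlk_cont (A, D)
  have h1 : exp ((A, D) : Mat2 × Mat2) = (exp A, exp D) := by
    apply Prod.ext
    · exact Prod.fst_exp (A, D)
    · exact Prod.snd_exp (A, D)
  rw [h1] at h
  exact h.symm

theorem gBlk_expmul (A : Mat2) : exp A * exp (-A) = 1 := by
  rw [← Matrix.exp_add_of_commute A (-A) (Commute.neg_right (Commute.refl A)), add_neg_cancel,
    NormedSpace.exp_zero]

theorem gBlk_expmul' (A : Mat2) : exp (-A) * exp A = 1 := by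
  rw [← Matrix.exp_add_of_commute (-A) A (Commute.neg_left (Commute.refl A)), neg_add_cancel,
    NormedSpace.exp_zero]

/-- the exponential as a unit -/
noncomputable def gBlk_u (A : Mat2) : GL (Fin 2) ℝ := ⟨exp A, exp (-A), gBlk_expmul A, gBlk_expmul' A⟩

theorem gBlk_det (A : Mat2) : 0 < (exp A).det := by
  have h1 : exp A = exp ((1 / 2 : ℝ) • A) * exp ((1 / 2 : ℝ) • A) := by
    rw [← Matrix.exp_add_of_commute _ _ (Commute.refl _), ← add_smul]
    norm_num
  have h2 : (exp ((1 / 2 : ℝ) • A)).det ≠ 0 := by
    intro h
    have h3 := congrArg Matrix.det (gBlk_expmul ((1 / 2 : ℝ) • A))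
    rw [Matrix.det_mul, h] at h3
    simp at h3
  rw [h1, Matrix.det_mul]
  exact mul_self_pos.2 h2

/-- the exponential as an element of `GL(2,ℝ)⁺` -/
noncomputable def gBlk_g (A : Mat2) : Gp := ⟨gBlk_u A, by
  rw [Matrix.mem_glpos]
  exact gBlk_det A⟩

theorem gBlk_mt (A : Mat2) : mt (gBlk_g A) = exp A := rfl

theorem gBlk_mtext {g h : Gp} (e : mt g = mt h) : g = h := by
  apply Subtype.ext
  apply Units.ext
  exact e

theorem gBlk_add (A : Mat2) (s t : ℝ) :
    gBlk_g ((s + t) • A) = gBlk_g (s • A) * gBlk_g (t • A) := by
  apply gBlk_mtext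
  show exp ((s + t) • A) = exp (s • A) * exp (t • A)
  rw [add_smul]
  exact Matrix.exp_add_of_commute _ _ (((Commute.refl A).smul_left s).smul_right t)

set_option backward.isDefEq.respectTransparency false in
open scoped Matrix.Norms.Operator in
theorem gBlk_expcont : Continuous (fun A : Mat2 => exp A) := NormedSpace.exp_continuous

theorem gBlk_curve (A : Mat2) : Continuous (fun t : ℝ => gBlk_g (t • A)) := by
  refine Continuous.subtype_mk ?_ _
  rw [Units.continuous_iff]
  constructor
  · exact gBlk_expcont.comp (continuous_id.smul continuous_const)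
  · exact gBlk_expcont.comp ((continuous_id.smul continuous_const).neg)

theorem gBlk_rho (g : Gd) : ((rho g : GL (Fin 4) ℝ) : Mat 4) = blkHom (mt g.1, mt g.2) := rfl

/-- TARGET -/
theorem g_blk : S_blk := by
  refine ⟨?_, ?_, ?_⟩
  · intro A D
    refine ⟨⟨blkHom (A, D), ?_⟩, gBlk_b1 A D, gBlk_b2 A D⟩
    intro t
    refine ⟨blkU (gBlk_u (t • A), gBlk_u (t • D)), ⟨_, rfl⟩, ?_⟩
    rw [← gBlk_smul, gBlk_exp]
    rfl
  · intro X
    refine ⟨fun t => (gBlk_g (t • b1 X.1), gBlk_g (t • b2 X.1)), ?_, ?_, ?_⟩
    · exact (gBlk_curve _).prodMk (gBlk_curve _)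
    · intro s t
      exact Prod.ext (gBlk_add _ s t) (gBlk_add _ s t)
    · intro t
      rw [gBlk_rho]
      conv_rhs => rw [aux_block X, ← gBlk_smul, gBlk_exp]
      rfl
  · intro X γ hγ t
    have h := hγ.2.2 t
    rw [gBlk_rho] at h
    rw [aux_block X, ← gBlk_smul, gBlk_exp] at h
    constructor
    · have := congrArg b1 h
      rw [gBlk_b1, gBlk_b1] at this
      exact this
    · have := congrArg b2 h
      rw [gBlk_b2, gBlk_b2] at this
      exact this

end Pool.Agent.H913.LG
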