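import Pool.Agent.H913.LG.Stmts

/- PROJECT LG (owner helper913): MP_c67f28_al, MP_d7c545_al, MP_a304db_al, MP_6a3a89_al: norms on Harish-Chandra modules of
G = GL(2,R)+ x GL(2,R)+ (Gd below); common infrastructure.
SETUP (once per box, about 2 minutes):
  cd /workdir/pool/outputs/live && git fetch -q origin && mkdir -p /workdir/pool/Pool/Agent/H913/LG /workdir/pool/Pool/Agent/H913/SGP && git show origin/main:Pool/Agent/H913/SGP/Definitions.lean > /workdir/pool/Pool/Agent/H913/SGP/Definitions.lean && for f in Defs HCBase HCAux Mod Stmts; do git show origin/helper913:Pool/Agent/H913/LG/$f.lean > /workdir/pool/Pool/Agent/H913/LG/$f.lean; done; cd /workdir/pool && lake build Pool.Agent.H913.LG.Stmts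
(ignore the sorry warnings of HCBase and HCAux: these are other jobs.) Read Defs, HCBase, Mod, Stmts first (short).
Put this file at Pool/Agent/H913/LG/GCoord.lean, replace the sorry of the TARGET by a proof; auxiliary lemmas before it are
welcome (give them names starting with gCoord_ to avoid clashes). Statement of the target unchanged. Hypotheses (h1 : S_xxx) of the
target are proved elsewhere, use them freely. No sorry, no axioms. Respect RULES.md Validity 2 (banned words such as notation,
macro, syntax, prefix, tactic; no straight double quotes; no line comment starting in odd places).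
If the target is false or awkward, message helper913 at once (the statement will be fixed).
Paste the whole compiled file in jobs.result with status='done', done_at=now(), then: team-sql notify inbox_helper913 done -/

open Matrix NormedSpace
open scoped Matrix ComplexConjugate

namespace Pool.Agent.H913.LG

open Pool.Agent.H913.SGP

/-- exponential of a matrix of square zero -/
theorem gCoord_exp_nil (N : Mat2) (hN : N * N = 0) : exp N = 1 + N := by
  rw [exp_eq_tsum ℝ]
  simp only
  rw [tsum_eq_sum (s := Finset.range 2)]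
  · simp [Finset.sum_range_succ]
  · intro n hn
    rw [Finset.mem_range, not_lt] at hn
    obtain ⟨k, rfl⟩ := Nat.exists_eq_add_of_le hn
    rw [pow_add, pow_two, hN, zero_mul, smul_zero]

theorem gCoord_e0 (t : ℝ) : exp (t • (!![0, 0; 1, 0] : Mat2)) = !![1, 0; t, 1] := by
  rw [gCoord_exp_nil]
  · ext i j
    fin_cases i <;> fin_cases j <;> simp
  · ext i j
    fin_cases i <;> fin_cases j <;> simp [Matrix.mul_apply]

theorem gCoord_e3 (t : ℝ) : exp (t • (!![0, 1; 0, 0] : Mat2)) = !![1, t; 0, 1] := by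
  rw [gCoord_exp_nil]
  · ext i j
    fin_cases i <;> fin_cases j <;> simp
  · ext i j
    fin_cases i <;> fin_cases j <;> simp [Matrix.mul_apply]

theorem gCoord_e1 (t : ℝ) : exp (t • (!![1, 0; 0, 0] : Mat2)) = !![Real.exp t, 0; 0, 1] := by
  have h : t • (!![1, 0; 0, 0] : Mat2) = Matrix.diagonal ![t, 0] := by
    ext i j
    fin_cases i <;> fin_cases j <;> simp
  rw [h, Matrix.exp_diagonal]
  ext i j
  fin_cases i <;> fin_cases j <;> simp [Pi.exp_def, Real.exp_eq_exp_ℝ]

theorem gCoord_e2 (t : ℝ) : exp (t • (!![0, 0; 0, 1] : Mat2)) = !![1, 0; 0, Real.exp t] := by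
  have h : t • (!![0, 0; 0, 1] : Mat2) = Matrix.diagonal ![0, t] := by
    ext i j
    fin_cases i <;> fin_cases j <;> simp
  rw [h, Matrix.exp_diagonal]
  ext i j
  fin_cases i <;> fin_cases j <;> simp [Pi.exp_def, Real.exp_eq_exp_ℝ]

/-- the factorisation -/
theorem gCoord_fact (M : Mat2) (ha : 0 < M 0 0) (hd : 0 < M.det) :
    exp ((M 1 0 / M 0 0) • (!![0, 0; 1, 0] : Mat2)) *
      (exp ((Real.log (M 0 0)) • (!![1, 0; 0, 0] : Mat2)) *
      (exp ((Real.log (M.det / M 0 0)) • (!![0, 0; 0, 1] : Mat2)) *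
      exp ((M 0 1 / M 0 0) • (!![0, 1; 0, 0] : Mat2)))) = M := by
  rw [gCoord_e0, gCoord_e1, gCoord_e2, gCoord_e3, Real.exp_log ha, Real.exp_log (div_pos hd ha)]
  have hne : M 0 0 ≠ 0 := ha.ne'
  rw [Matrix.det_fin_two]
  ext i j
  fin_cases i <;> fin_cases j <;> simp [Matrix.mul_apply] <;> field_simp
  ring

theorem gCoord_mt_mul (g h : Gp) : mt (g * h) = mt g * mt h := rfl

theorem gCoord_mt_one : mt 1 = 1 := rfl

theorem gCoord_mt_inj {g h : Gp} (H : mt g = mt h) : g = h :=
  Subtype.ext (Units.ext H)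

theorem gCoord_mt_cont : Continuous mt := Units.continuous_val.comp continuous_subtype_val

theorem gCoord_tend {f : Mat2 → ℝ} (hf : ContinuousAt f 1) (h0 : f 1 = 0) :
    Filter.Tendsto (fun g : Gd => f (mt g.1)) (nhds 1) (nhds 0) ∧
    Filter.Tendsto (fun g : Gd => f (mt g.2)) (nhds 1) (nhds 0) := by
  have c1 : Continuous (fun g : Gd => mt g.1) := gCoord_mt_cont.comp continuous_fst
  have c2 : Continuous (fun g : Gd => mt g.2) := gCoord_mt_cont.comp continuous_snd
  have t1 : Filter.Tendsto (fun g : Gd => mt g.1) (nhds 1) (nhds 1) := by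
    have := c1.tendsto 1
    exact this
  have t2 : Filter.Tendsto (fun g : Gd => mt g.2) (nhds 1) (nhds 1) := by
    have := c2.tendsto 1
    exact this
  rw [← h0]
  exact ⟨hf.tendsto.comp t1, hf.tendsto.comp t2⟩

/-- TARGET -/
theorem g_coord (h1 : S_blk) : S_coord := by
  obtain ⟨hA, hB, hC⟩ := h1
  choose Xc hX1 hX2 using hA
  choose γc hγ using hB
  have hg1 : ∀ (A D : Mat2) (t : ℝ), mt (γc (Xc A D) t).1 = exp (t • A) := by
    intro A D t
    rw [(hC _ _ (hγ _) t).1, hX1]
  have hg2 : ∀ (A D : Mat2) (t : ℝ), mt (γc (Xc A D) t).2 = exp (t • D) := by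
    intro A D t
    rw [(hC _ _ (hγ _) t).2, hX2]
  have hent : ∀ i j : Fin 2, Continuous (fun M : Mat2 => M i j) := fun i j =>
    (continuous_apply j).comp (continuous_apply i)
  have hdet : Continuous (fun M : Mat2 => M.det) := continuous_id.matrix_det
  have c0 : ContinuousAt (fun M : Mat2 => M 1 0 / M 0 0) 1 :=
    (hent 1 0).continuousAt.div (hent 0 0).continuousAt (by simp)
  have c1 : ContinuousAt (fun M : Mat2 => Real.log (M 0 0)) 1 :=
    (hent 0 0).continuousAt.log (by simp)
  have c2 : ContinuousAt (fun M : Mat2 => Real.log (M.det / M 0 0)) 1 :=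
    (hdet.continuousAt.div (hent 0 0).continuousAt (by simp)).log (by simp)
  have c3 : ContinuousAt (fun M : Mat2 => M 0 1 / M 0 0) 1 :=
    (hent 0 1).continuousAt.div (hent 0 0).continuousAt (by simp)
  have t0 := gCoord_tend c0 (by simp)
  have t1 := gCoord_tend c1 (by simp)
  have t2 := gCoord_tend c2 (by simp)
  have t3 := gCoord_tend c3 (by simp)
  let P : Fin 8 → Mat2 × Mat2 := ![(!![0, 0; 1, 0], 0), (!![1, 0; 0, 0], 0), (!![0, 0; 0, 1], 0),
    (!![0, 1; 0, 0], 0), (0, !![0, 0; 1, 0]), (0, !![1, 0; 0, 0]), (0, !![0, 0; 0, 1]),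
    (0, !![0, 1; 0, 0])]
  let τ : Fin 8 → Gd → ℝ := ![fun g => mt g.1 1 0 / mt g.1 0 0, fun g => Real.log (mt g.1 0 0),
    fun g => Real.log ((mt g.1).det / mt g.1 0 0), fun g => mt g.1 0 1 / mt g.1 0 0,
    fun g => mt g.2 1 0 / mt g.2 0 0, fun g => Real.log (mt g.2 0 0),
    fun g => Real.log ((mt g.2).det / mt g.2 0 0), fun g => mt g.2 0 1 / mt g.2 0 0]
  refine ⟨8, fun i => Xc (P i).1 (P i).2, fun i => γc (Xc (P i).1 (P i).2), τ,
    fun i => hγ _, ?_, ?_⟩
  · intro i
    fin_cases i
    · exact t0.1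
    · exact t1.1
    · exact t2.1
    · exact t3.1
    · exact t0.2
    · exact t1.2
    · exact t2.2
    · exact t3.2
  · have e1 : ∀ᶠ g in nhds (1 : Gd), 0 < mt g.1 0 0 := by
      have c : Continuous (fun g : Gd => mt g.1 0 0) :=
        (hent 0 0).comp (gCoord_mt_cont.comp continuous_fst)
      have := c.tendsto 1
      refine this.eventually (lt_mem_nhds ?_)
      change 0 < (1 : Mat2) 0 0
      simp
    have e2 : ∀ᶠ g in nhds (1 : Gd), 0 < mt g.2 0 0 := by
      have c : Continuous (fun g : Gd => mt g.2 0 0) :=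
        (hent 0 0).comp (gCoord_mt_cont.comp continuous_snd)
      have := c.tendsto 1
      refine this.eventually (lt_mem_nhds ?_)
      change 0 < (1 : Mat2) 0 0
      simp
    filter_upwards [e1, e2] with g hg1' hg2'
    have d1 : 0 < (mt g.1).det := g.1.2
    have d2 : 0 < (mt g.2).det := g.2.2
    have f1 := gCoord_fact (mt g.1) hg1' d1
    have f2 := gCoord_fact (mt g.2) hg2' d2
    have hP : (List.ofFn fun i => γc (Xc (P i).1 (P i).2) (τ i g)).prod
        = γc (Xc !![0, 0; 1, 0] 0) (mt g.1 1 0 / mt g.1 0 0) *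
          (γc (Xc !![1, 0; 0, 0] 0) (Real.log (mt g.1 0 0)) *
          (γc (Xc !![0, 0; 0, 1] 0) (Real.log ((mt g.1).det / mt g.1 0 0)) *
          (γc (Xc !![0, 1; 0, 0] 0) (mt g.1 0 1 / mt g.1 0 0) *
          (γc (Xc 0 !![0, 0; 1, 0]) (mt g.2 1 0 / mt g.2 0 0) *
          (γc (Xc 0 !![1, 0; 0, 0]) (Real.log (mt g.2 0 0)) *
          (γc (Xc 0 !![0, 0; 0, 1]) (Real.log ((mt g.2).det / mt g.2 0 0)) *
          (γc (Xc 0 !![0, 1; 0, 0]) (mt g.2 0 1 / mt g.2 0 0)))))))) := by
      simp only [List.ofFn_succ, List.ofFn_zero, List.prod_cons, List.prod_nil, mul_one]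
      rfl
    rw [hP]
    apply Prod.ext
    · apply gCoord_mt_inj
      simp only [Prod.fst_mul, gCoord_mt_mul, hg1, smul_zero, exp_zero, mul_one]
      exact f1.symm
    · apply gCoord_mt_inj
      simp only [Prod.snd_mul, gCoord_mt_mul, hg2, smul_zero, exp_zero, one_mul]
      exact f2.symm

end Pool.Agent.H913.LG
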