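import Pool.Agent.H913.LG.Stmts

open Matrix NormedSpace
open scoped Matrix ComplexConjugate

namespace Pool.Agent.H913.LG

open Pool.Agent.H913.SGP

theorem gK_rot_mul (s t : ℝ) : rot s * rot t = rot (s + t) := by
  ext i j
  fin_cases i <;> fin_cases j <;>
    simp [rot, Matrix.mul_apply, Fin.sum_univ_two, Real.cos_add, Real.sin_add] <;> ring

theorem gK_rot_zero : rot 0 = 1 := by
  ext i j
  fin_cases i <;> fin_cases j <;> simp [rot]

theorem gK_rot_det (s : ℝ) : (rot s).det = 1 := by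
  rw [rot, Matrix.det_fin_two]
  simp
  have := Real.sin_sq_add_cos_sq s
  nlinarith

theorem gK_rot_transpose (s : ℝ) : (rot s)ᵀ * rot s = 1 := by
  ext i j
  have := Real.sin_sq_add_cos_sq s
  fin_cases i <;> fin_cases j <;>
    simp [rot, Matrix.mul_apply, Fin.sum_univ_two] <;> nlinarith

/-- rotation as a unit -/
noncomputable def gK_rotU (s : ℝ) : GL (Fin 2) ℝ where
  val := rot s
  inv := rot (-s)
  val_inv := by rw [gK_rot_mul, add_neg_cancel, gK_rot_zero]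
  inv_val := by rw [gK_rot_mul, neg_add_cancel, gK_rot_zero]

/-- rotation as an element of the group -/
noncomputable def gK_rotG (s : ℝ) : Gp :=
  ⟨gK_rotU s, by
    rw [Matrix.mem_glpos]
    change 0 < (rot s).det
    rw [gK_rot_det]
    exact one_pos⟩

theorem gK_mt_rotG (s : ℝ) : mt (gK_rotG s) = rot s := rfl

theorem gK_cont_rot : Continuous rot := by
  refine continuous_matrix ?_
  intro i j
  fin_cases i <;> fin_cases j <;> simp [rot] <;> fun_prop

theorem gK_cont_rotG : Continuous gK_rotG := by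
  refine Continuous.subtype_mk ?_ _
  rw [Units.continuous_iff]
  refine ⟨gK_cont_rot, ?_⟩
  change Continuous fun s => rot (-s)
  exact gK_cont_rot.comp continuous_neg

theorem gK_rho_val (g : Gd) : (rho g : Mat 4) = blkHom (mt g.1, mt g.2) := rfl

theorem gK_b1_blk (p : Mat2 × Mat2) : b1 (blkHom p) = p.1 := by
  ext i j
  have hh : ∀ k : Fin 2, (finSumFinEquiv (m := 2) (n := 2)).symm (Fin.castAdd 2 k) = Sum.inl k :=
    fun k => finSumFinEquiv_symm_apply_castAdd k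
  change Matrix.fromBlocks p.1 0 0 p.2 ((finSumFinEquiv (m := 2) (n := 2)).symm (Fin.castAdd 2 i))
    ((finSumFinEquiv (m := 2) (n := 2)).symm (Fin.castAdd 2 j)) = p.1 i j
  rw [hh, hh, Matrix.fromBlocks_apply₁₁]

theorem gK_b2_blk (p : Mat2 × Mat2) : b2 (blkHom p) = p.2 := by
  ext i j
  have hh : ∀ k : Fin 2, (finSumFinEquiv (m := 2) (n := 2)).symm (Fin.natAdd 2 k) = Sum.inr k :=
    fun k => finSumFinEquiv_symm_apply_natAdd k
  change Matrix.fromBlocks p.1 0 0 p.2 ((finSumFinEquiv (m := 2) (n := 2)).symm (Fin.natAdd 2 i))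
    ((finSumFinEquiv (m := 2) (n := 2)).symm (Fin.natAdd 2 j)) = p.2 i j
  rw [hh, hh, Matrix.fromBlocks_apply₂₂]

theorem gK_blk_transpose (p : Mat2 × Mat2) : (blkHom p)ᵀ = blkHom (p.1ᵀ, p.2ᵀ) := by
  simp [blkHom, Matrix.fromBlocks_transpose]

theorem gK_mem_iff (g : Gd) : g ∈ maxCompact rho ↔ (mt g.1)ᵀ * mt g.1 = 1 ∧ (mt g.2)ᵀ * mt g.2 = 1 := by
  have h0 : g ∈ maxCompact rho ↔ (rho g : Mat 4)ᵀ * (rho g : Mat 4) = 1 := Iff.rfl
  rw [h0, gK_rho_val, gK_blk_transpose, ← map_mul]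
  constructor
  · intro h
    have h1 := congrArg b1 h
    have h2 := congrArg b2 h
    have h3 : (1 : Mat 4) = blkHom 1 := (map_one blkHom).symm
    rw [h3, gK_b1_blk, gK_b1_blk] at h1
    rw [h3, gK_b2_blk, gK_b2_blk] at h2
    exact ⟨h1, h2⟩
  · rintro ⟨h1, h2⟩
    have h3 : (((mt g.1)ᵀ, (mt g.2)ᵀ) : Mat2 × Mat2) * (mt g.1, mt g.2) = 1 :=
      Prod.ext h1 h2
    rw [h3, map_one]

/-- the parametrization -/
noncomputable def gK_c (x : ℝ × ℝ) : maxCompact rho :=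
  ⟨(gK_rotG x.1, gK_rotG x.2), by
    rw [gK_mem_iff]
    exact ⟨gK_rot_transpose _, gK_rot_transpose _⟩⟩

theorem gK_cont_c : Continuous gK_c := by
  refine Continuous.subtype_mk ?_ _
  exact (gK_cont_rotG.comp continuous_fst).prodMk (gK_cont_rotG.comp continuous_snd)

theorem gK_angle (a c : ℝ) (h : a ^ 2 + c ^ 2 = 1) : ∃ s : ℝ, a = Real.cos s ∧ c = Real.sin s := by
  have hn : ‖(⟨a, c⟩ : ℂ)‖ = 1 := by
    rw [← sq_eq_sq₀ (norm_nonneg _) zero_le_one, Complex.sq_norm, Complex.normSq_apply]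
    simp
    nlinarith
  have h0 : (⟨a, c⟩ : ℂ) ≠ 0 := by
    intro h0
    rw [h0, norm_zero] at hn
    exact zero_ne_one hn
  refine ⟨Complex.arg ⟨a, c⟩, ?_, ?_⟩
  · rw [Complex.cos_arg h0, hn]
    simp
  · rw [Complex.sin_arg, hn]
    simp

theorem gK_orth (M : Mat2) (h : Mᵀ * M = 1) (hd : 0 < M.det) : ∃ s : ℝ, M = rot s := by
  have h00 := congrFun (congrFun h 0) 0
  have h01 := congrFun (congrFun h 0) 1
  have h11 := congrFun (congrFun h 1) 1
  simp [Matrix.mul_apply, Fin.sum_univ_two] at h00 h01 h11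
  rw [Matrix.det_fin_two] at hd
  have hdet : M 0 0 * M 1 1 - M 0 1 * M 1 0 = 1 := by
    have hsq : (M 0 0 * M 1 1 - M 0 1 * M 1 0) ^ 2 = 1 := by
      calc (M 0 0 * M 1 1 - M 0 1 * M 1 0) ^ 2
          = (M 0 0 * M 0 0 + M 1 0 * M 1 0) * (M 0 1 * M 0 1 + M 1 1 * M 1 1)
            - (M 0 0 * M 0 1 + M 1 0 * M 1 1) ^ 2 := by ring
        _ = 1 := by rw [h00, h11, h01]; ring
    have h5 : (M 0 0 * M 1 1 - M 0 1 * M 1 0 - 1) * (M 0 0 * M 1 1 - M 0 1 * M 1 0 + 1) = 0 := by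
      linear_combination hsq
    rcases mul_eq_zero.1 h5 with h | h
    · linarith
    · linarith
  have h2 : (M 0 0 - M 1 1) ^ 2 + (M 0 1 + M 1 0) ^ 2 = 0 := by nlinarith
  have h3 : M 0 0 - M 1 1 = 0 := by nlinarith [sq_nonneg (M 0 0 - M 1 1), sq_nonneg (M 0 1 + M 1 0)]
  have h4 : M 0 1 + M 1 0 = 0 := by nlinarith [sq_nonneg (M 0 0 - M 1 1), sq_nonneg (M 0 1 + M 1 0)]
  obtain ⟨s, hs1, hs2⟩ := gK_angle (M 0 0) (M 1 0) (by nlinarith)
  refine ⟨s, ?_⟩
  ext i j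
  fin_cases i <;> fin_cases j <;> simp [rot]
  · exact hs1
  · linarith
  · exact hs2
  · linarith

theorem gK_surj : Function.Surjective gK_c := by
  intro k
  obtain ⟨h1, h2⟩ := (gK_mem_iff k.1).1 k.2
  obtain ⟨s, hs⟩ := gK_orth _ h1 k.1.1.2
  obtain ⟨t, ht⟩ := gK_orth _ h2 k.1.2.2
  refine ⟨(s, t), ?_⟩
  apply Subtype.ext
  refine Prod.ext ?_ ?_
  · apply Subtype.ext
    apply Units.ext
    exact hs.symm
  · apply Subtype.ext
    apply Units.ext
    exact ht.symm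

theorem gK_zc (s : ℝ) : zc (gK_rotG s) = Complex.exp (-Complex.I * s) := by
  have h1 : -Complex.I * (s : ℂ) = ((-s : ℝ) : ℂ) * Complex.I := by push_cast; ring
  rw [h1, Complex.exp_mul_I]
  apply Complex.ext
  · simp [zc, gK_mt_rotG, rot, Complex.cos_ofReal_re, Complex.sin_ofReal_im]
  · simp [zc, gK_mt_rotG, rot, Complex.cos_ofReal_im, Complex.sin_ofReal_re]

/-- TARGET -/
theorem g_K : S_K := by
  refine ⟨gK_c, gK_cont_c, gK_surj, fun x => ⟨rfl, rfl⟩, ?_⟩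
  intro I M x
  change kapFun M (gK_rotG x.1, gK_rotG x.2) = M.kst x.1 x.2
  unfold kapFun TMod.kst
  congr 1
  funext i
  simp only []
  rw [gK_zc, gK_zc, ← Complex.exp_int_mul, ← Complex.exp_int_mul, ← Complex.exp_add]
  congr 1
  ring

end Pool.Agent.H913.LG
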