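import Pool.Agent.H913.LG.Stmts

open Matrix NormedSpace
open scoped Matrix ComplexConjugate

namespace Pool.Agent.H913.LG

open Pool.Agent.H913.SGP

theorem gPow_dg {I : Type} (c : I → ℂ) (i : I) : dg c (ee i) = c i • ee i := by
  simp [dg, ee]

theorem gPow_zero {I : Type} (M : TMod I) (h : M.Good) : M.A 0 0 = 0 := by
  have h1 := h.smul 0 0 0
  simpa using h1

/-- value of the operators on weight vectors -/
theorem gPow_A {I : Type} (M : TMod I) (h : M.Good) (x y : ℝ) (i : I) :
    M.A (x • Jm) (y • Jm) (ee i) =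
      (-Complex.I * ((x : ℂ) * (M.μ i : ℂ) + (y : ℂ) * (M.ν i : ℂ))) • ee i := by
  have h1 : M.A (x • Jm) (y • Jm) = M.A (x • Jm) 0 + M.A 0 (y • Jm) := by
    have := h.add (x • Jm) 0 0 (y • Jm)
    simpa using this
  have h2 : M.A (x • Jm) 0 = (x : ℂ) • M.A Jm 0 := by
    have := h.smul x Jm 0
    simpa using this
  have h3 : M.A 0 (y • Jm) = (y : ℂ) • M.A 0 Jm := by
    have := h.smul y 0 Jm
    simpa using this
  rw [h1, h2, h3, LinearMap.add_apply, LinearMap.smul_apply, LinearMap.smul_apply, h.J1, h.J2,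
    smul_smul, smul_smul, ← add_smul]
  congr 1
  ring

theorem gPow_ext {I : Type} (S T : Module.End ℂ (I →₀ ℂ)) (h : ∀ i, S (ee i) = T (ee i)) :
    S = T := by
  apply Finsupp.lhom_ext
  intro i c
  have : (Finsupp.single i c : I →₀ ℂ) = c • ee i := by
    simp [ee]
  rw [this, map_smul, map_smul, h]

/-- TARGET -/
theorem g_pow : S_pow := by
  intro I M h m b p q hb
  have key : ∀ i, lap (M.toHC h) b (ee i) = (eig M p q i : ℂ) • ee i := by
    intro i
    have h1 : ∀ l, (M.toHC h).a (b l) (ee i) =
        (-Complex.I * ((p l : ℂ) * (M.μ i : ℂ) + (q l : ℂ) * (M.ν i : ℂ))) • ee i := by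
      intro l
      have : (M.toHC h).a (b l) = M.A (b1 (b l).1) (b2 (b l).1) := rfl
      rw [this, (hb l).1, (hb l).2, gPow_A M h]
    have h2 : ∀ l, ((M.toHC h).a (b l) * (M.toHC h).a (b l)) (ee i) =
        (-((p l : ℂ) * (M.μ i : ℂ) + (q l : ℂ) * (M.ν i : ℂ)) ^ 2) • ee i := by
      intro l
      rw [Module.End.mul_apply, h1, map_smul, h1, smul_smul]
      congr 1
      ring_nf
      rw [Complex.I_sq]
      ring
    unfold lap
    rw [LinearMap.neg_apply, LinearMap.sum_apply, Finset.sum_congr rfl (fun l _ => h2 l),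
      ← Finset.sum_smul, ← neg_smul, Finset.sum_neg_distrib, neg_neg]
    congr 1
    unfold eig
    push_cast
    rfl
  have hlap : lap (M.toHC h) b = dg (fun i => (eig M p q i : ℂ)) := by
    apply gPow_ext
    intro i
    rw [key, gPow_dg]
  refine ⟨key, ?_⟩
  intro s T
  constructor
  · intro hT
    apply gPow_ext
    intro i
    rw [gPow_dg]
    exact hT _ _ (key i)
  · rintro rfl
    intro c v hv
    have hcoef : ∀ (d : I → ℂ) (u : I →₀ ℂ) (i : I), dg d u i = d i * u i := by
      intro d u i
      induction u using Finsupp.induction_linear with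
      | zero => simp
      | add f g hf hg => rw [map_add, Finsupp.add_apply, hf, hg, Finsupp.add_apply]; ring
      | single j a =>
        have : (Finsupp.single j a : I →₀ ℂ) = a • ee j := by simp [ee]
        rw [this, map_smul, gPow_dg, smul_smul, Finsupp.smul_apply, Finsupp.smul_apply]
        by_cases hij : j = i
        · subst hij
          simp [ee]
          ring
        · simp [ee, Finsupp.single_apply, hij]
    ext i
    rw [hcoef, Finsupp.smul_apply, smul_eq_mul]
    by_cases hvi : v i = 0
    · rw [hvi]; simp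
    · have h3 := DFunLike.congr_fun hv i
      rw [hlap, hcoef, Finsupp.smul_apply, smul_eq_mul] at h3
      have h4 : (eig M p q i : ℂ) = (c : ℂ) := mul_right_cancel₀ hvi h3
      have h5 : eig M p q i = c := by exact_mod_cast h4
      rw [h5]

end Pool.Agent.H913.LG
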