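import Pool.Agent.H913.LG.Stmts

open Matrix NormedSpace
open scoped Matrix ComplexConjugate

namespace Pool.Agent.H913.LG

open Pool.Agent.H913.SGP

theorem gRr_ent (p : Mat2 × Mat2) (x y : Fin 2 ⊕ Fin 2) :
    blkHom p (finSumFinEquiv x) (finSumFinEquiv y) = Matrix.fromBlocks p.1 0 0 p.2 x y := by
  show (Matrix.reindex (finSumFinEquiv (m := 2) (n := 2)) (finSumFinEquiv (m := 2) (n := 2))
    (Matrix.fromBlocks p.1 0 0 p.2)) (finSumFinEquiv x) (finSumFinEquiv y) = _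
  rw [Matrix.reindex_apply, Matrix.submatrix_apply, Equiv.symm_apply_apply, Equiv.symm_apply_apply]

theorem gRr_11 (p : Mat2 × Mat2) (i j : Fin 2) : blkHom p (Fin.castAdd 2 i) (Fin.castAdd 2 j) = p.1 i j :=
  gRr_ent p (Sum.inl i) (Sum.inl j)

theorem gRr_22 (p : Mat2 × Mat2) (i j : Fin 2) : blkHom p (Fin.natAdd 2 i) (Fin.natAdd 2 j) = p.2 i j :=
  gRr_ent p (Sum.inr i) (Sum.inr j)

theorem gRr_off1 (p : Mat2 × Mat2) (i j : Fin 2) : blkHom p (Fin.castAdd 2 i) (Fin.natAdd 2 j) = 0 :=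
  gRr_ent p (Sum.inl i) (Sum.inr j)

theorem gRr_off2 (p : Mat2 × Mat2) (i j : Fin 2) : blkHom p (Fin.natAdd 2 i) (Fin.castAdd 2 j) = 0 :=
  gRr_ent p (Sum.inr i) (Sum.inl j)

theorem gRr_b1 (p : Mat2 × Mat2) : b1 (blkHom p) = p.1 := by
  ext i j
  exact gRr_11 p i j

theorem gRr_b2 (p : Mat2 × Mat2) : b2 (blkHom p) = p.2 := by
  ext i j
  exact gRr_22 p i j

theorem gRr_eq (X : Mat 4) (h1 : ∀ i j : Fin 2, X (Fin.castAdd 2 i) (Fin.natAdd 2 j) = 0)
    (h2 : ∀ i j : Fin 2, X (Fin.natAdd 2 i) (Fin.castAdd 2 j) = 0) : X = blkHom (b1 X, b2 X) := by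
  ext i j
  refine Fin.addCases (m := 2) (n := 2) (fun i' => ?_) (fun i' => ?_) i
  · refine Fin.addCases (m := 2) (n := 2) (fun j' => ?_) (fun j' => ?_) j
    · rw [gRr_11]; rfl
    · rw [h1, gRr_off1]
  · refine Fin.addCases (m := 2) (n := 2) (fun j' => ?_) (fun j' => ?_) j
    · rw [h2, gRr_off2]
    · rw [gRr_22]; rfl

theorem gRr_det (p : Mat2 × Mat2) : (blkHom p).det = p.1.det * p.2.det := by
  show (Matrix.reindex _ _ _).det = _
  rw [Matrix.det_reindex_self, Matrix.det_fromBlocks_zero₂₁]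

theorem gRr_val (p : GL (Fin 2) ℝ × GL (Fin 2) ℝ) : ((blkU p : GL (Fin 4) ℝ) : Mat 4) = blkHom ((p.1 : Mat2), (p.2 : Mat2)) := rfl

theorem gRr_rho (g : Gd) : ((rho g : GL (Fin 4) ℝ) : Mat 4) = blkHom (mt g.1, mt g.2) := rfl

theorem gRr_mem (g : GL (Fin 4) ℝ) : g ∈ GRd ↔
    (∀ i j : Fin 2, (g : Mat 4) (Fin.castAdd 2 i) (Fin.natAdd 2 j) = 0) ∧
    (∀ i j : Fin 2, (g : Mat 4) (Fin.natAdd 2 i) (Fin.castAdd 2 j) = 0) := by
  constructor
  · rintro ⟨p, rfl⟩
    rw [gRr_val]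
    exact ⟨gRr_off1 _, gRr_off2 _⟩
  · rintro ⟨h1, h2⟩
    have h := gRr_eq (g : Mat 4) h1 h2
    have hd : (g : Mat 4).det ≠ 0 := by
      have := (Matrix.isUnit_iff_isUnit_det (g : Mat 4)).mp g.isUnit
      exact this.ne_zero
    rw [h, gRr_det] at hd
    have hA : IsUnit (b1 (g : Mat 4)) := (Matrix.isUnit_iff_isUnit_det _).mpr (isUnit_iff_ne_zero.mpr (left_ne_zero_of_mul hd))
    have hD : IsUnit (b2 (g : Mat 4)) := (Matrix.isUnit_iff_isUnit_det _).mpr (isUnit_iff_ne_zero.mpr (right_ne_zero_of_mul hd))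
    obtain ⟨A, hA⟩ := hA
    obtain ⟨D, hD⟩ := hD
    refine ⟨(A, D), ?_⟩
    apply Units.ext
    rw [gRr_val, hA, hD, ← h]

theorem gRr_alg : IsAlgebraic GRd := by
  refine ⟨{f | (∃ i j : Fin 2, f = MvPolynomial.X (Fin.castAdd 2 i, Fin.natAdd 2 j)) ∨
    (∃ i j : Fin 2, f = MvPolynomial.X (Fin.natAdd 2 i, Fin.castAdd 2 j))}, ?_⟩
  intro g
  rw [gRr_mem]
  constructor
  · rintro ⟨h1, h2⟩ f (⟨i, j, rfl⟩ | ⟨i, j, rfl⟩)
    · rw [MvPolynomial.eval_X]; exact h1 i j
    · rw [MvPolynomial.eval_X]; exact h2 i j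
  · intro h
    constructor
    · intro i j
      have := h _ (Or.inl ⟨i, j, rfl⟩)
      rwa [MvPolynomial.eval_X] at this
    · intro i j
      have := h _ (Or.inr ⟨i, j, rfl⟩)
      rwa [MvPolynomial.eval_X] at this

theorem gRr_tr : IsTransposeStable GRd := by
  intro g hg
  rw [gRr_mem] at hg
  have hu : IsUnit ((g : Mat 4)ᵀ) := by
    rw [Matrix.isUnit_transpose]; exact g.isUnit
  obtain ⟨g', hg'⟩ := hu
  refine ⟨g', ?_, hg'⟩
  rw [gRr_mem, hg']
  exact ⟨fun i j => hg.2 j i, fun i j => hg.1 j i⟩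

theorem gRr_cblk : Continuous fun p : Mat2 × Mat2 => blkHom p := by
  apply continuous_matrix
  intro i j
  refine Fin.addCases (m := 2) (n := 2) (fun i' => ?_) (fun i' => ?_) i
  · refine Fin.addCases (m := 2) (n := 2) (fun j' => ?_) (fun j' => ?_) j
    · simp only [gRr_11]
      fun_prop
    · simp only [gRr_off1]
      exact continuous_const
  · refine Fin.addCases (m := 2) (n := 2) (fun j' => ?_) (fun j' => ?_) j
    · simp only [gRr_off2]
      exact continuous_const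
    · simp only [gRr_22]
      fun_prop

theorem gRr_cmt : Continuous fun g : Gp => mt g :=
  Units.continuous_val.comp continuous_subtype_val

theorem gRr_crho : Continuous rho := by
  rw [Units.continuous_iff]
  constructor
  · show Continuous fun g : Gd => blkHom (mt g.1, mt g.2)
    exact gRr_cblk.comp ((gRr_cmt.comp continuous_fst).prodMk (gRr_cmt.comp continuous_snd))
  · have : (fun g : Gd => (((rho g)⁻¹ : GL (Fin 4) ℝ) : Mat 4)) = fun g : Gd => blkHom (mt g.1⁻¹, mt g.2⁻¹) := by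
      funext g
      rw [← map_inv, gRr_rho]
      rfl
    rw [this]
    exact gRr_cblk.comp (((gRr_cmt.comp continuous_inv).comp continuous_fst).prodMk
      ((gRr_cmt.comp continuous_inv).comp continuous_snd))

theorem gRr_mtinj (g h : Gp) (e : mt g = mt h) : g = h := Subtype.ext (Units.ext e)

theorem gRr_open_val : IsOpenMap (Units.val : GL (Fin 2) ℝ → Mat2) := by
  let : NormedRing Mat2 := Matrix.linftyOpNormedRing
  let : NormedAlgebra ℝ Mat2 := Matrix.linftyOpNormedAlgebra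
  have : CompleteSpace Mat2 := FiniteDimensional.complete ℝ Mat2
  exact Units.isOpenMap_val

theorem gRr_open_mt : IsOpenMap fun g : Gp => mt g := by
  have h1 : IsOpen ((Matrix.GLPos (Fin 2) ℝ : Set (GL (Fin 2) ℝ))) := by
    have h : IsOpen {g : GL (Fin 2) ℝ | 0 < (g : Mat2).det} :=
      isOpen_lt continuous_const (Units.continuous_val.matrix_det)
    exact h
  exact gRr_open_val.comp h1.isOpenMap_subtype_val

/-- TARGET -/
theorem g_rr : S_rr := by
  refine ⟨gRr_alg, gRr_tr, fun g => ⟨_, rfl⟩, gRr_crho, ?_, ?_⟩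
  · apply Set.Finite.subset (Set.finite_singleton (1 : Gd))
    intro g hg
    have h : ((rho g : GL (Fin 4) ℝ) : Mat 4) = 1 := by
      rw [show rho g = 1 from hg]; rfl
    rw [gRr_rho] at h
    have h1 : mt g.1 = 1 := by
      have := congrArg b1 h
      rw [gRr_b1, ← map_one blkHom, gRr_b1] at this
      exact this
    have h2 : mt g.2 = 1 := by
      have := congrArg b2 h
      rw [gRr_b2, ← map_one blkHom, gRr_b2] at this
      exact this
    rw [Set.mem_singleton_iff]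
    exact Prod.ext (gRr_mtinj _ _ h1) (gRr_mtinj _ _ h2)
  · intro U hU
    have hop : IsOpen ((fun g : Gd => (mt g.1, mt g.2)) '' U) :=
      (gRr_open_mt.prodMap gRr_open_mt) U hU
    have hc : Continuous fun h : GL (Fin 4) ℝ => (b1 (h : Mat 4), b2 (h : Mat 4)) := by
      apply Continuous.prodMk
      · exact Continuous.matrix_submatrix Units.continuous_val _ _
      · exact Continuous.matrix_submatrix Units.continuous_val _ _
    refine ⟨(fun h : GL (Fin 4) ℝ => (b1 (h : Mat 4), b2 (h : Mat 4))) ⁻¹' ((fun g : Gd => (mt g.1, mt g.2)) '' U),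
      hop.preimage hc, ?_⟩
    ext h
    constructor
    · rintro ⟨x, hx, rfl⟩
      refine ⟨⟨x, hx, ?_⟩, ⟨_, rfl⟩⟩
      show (mt x.1, mt x.2) = (b1 ((rho x : GL (Fin 4) ℝ) : Mat 4), b2 ((rho x : GL (Fin 4) ℝ) : Mat 4))
      rw [gRr_rho, gRr_b1, gRr_b2]
    · rintro ⟨⟨x, hx, hxe⟩, hm⟩
      refine ⟨x, hx, ?_⟩
      have hm' := (gRr_mem h).mp hm
      have he := gRr_eq (h : Mat 4) hm'.1 hm'.2
      apply Units.ext
      rw [gRr_rho, he]
      exact congrArg blkHom hxe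

end Pool.Agent.H913.LG
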