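import Pool.Agent.H913.LG.Stmts

open Matrix NormedSpace
open scoped Matrix ComplexConjugate

namespace Pool.Agent.H913.LG

open Pool.Agent.H913.SGP

/-- exp of a multiple of the infinitesimal rotation -/
theorem gTop_exp_J (s : ℝ) : exp (s • Jm) = rot s := by
  have hJ : Jm * Jm = -1 := by
    ext i j
    fin_cases i <;> fin_cases j <;> simp [Jm]
  have hc : Continuous (Complex.liftAux Jm hJ) :=
    LinearMap.continuous_of_finiteDimensional (Complex.liftAux Jm hJ).toLinearMap
  have h1 : Complex.liftAux Jm hJ (exp ((s : ℂ) * Complex.I)) =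
      exp (Complex.liftAux Jm hJ ((s : ℂ) * Complex.I)) := by
    let : NormedRing Mat2 := Matrix.linftyOpNormedRing
    let : NormedAlgebra ℝ Mat2 := Matrix.linftyOpNormedAlgebra
    exact NormedSpace.map_exp (Complex.liftAux Jm hJ) hc ((s : ℂ) * Complex.I)
  have h2 : Complex.liftAux Jm hJ ((s : ℂ) * Complex.I) = s • Jm := by
    rw [Complex.liftAux_apply]
    simp
  rw [h2, ← Complex.exp_eq_exp_ℂ, Complex.exp_mul_I] at h1
  rw [← h1, Complex.liftAux_apply]
  ext i j
  fin_cases i <;> fin_cases j <;> simp [Jm, rot, Algebra.algebraMap_eq_smul_one,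
    ← Complex.ofReal_cos, ← Complex.ofReal_sin]

/-- elementary nilpotent matrix -/
def gTop_E : Mat2 := !![0, 1; 0, 0]

theorem gTop_exp_E (u : ℝ) : exp (u • gTop_E) = !![1, u; 0, 1] := by
  have h2 : ∀ n : ℕ, 2 ≤ n → (u • gTop_E) ^ n = 0 := by
    intro n hn
    obtain ⟨m, rfl⟩ := Nat.exists_eq_add_of_le hn
    rw [pow_add]
    have : (u • gTop_E) ^ 2 = 0 := by
      rw [sq]
      ext i j
      fin_cases i <;> fin_cases j <;> simp [gTop_E, Matrix.mul_apply]
    rw [this, zero_mul]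
  rw [NormedSpace.exp_eq_tsum ℝ]
  show ∑' n : ℕ, ((n.factorial : ℝ)⁻¹) • (u • gTop_E) ^ n = _
  rw [tsum_eq_sum (s := Finset.range 2)]
  · rw [Finset.sum_range_succ, Finset.sum_range_one]
    ext i j
    fin_cases i <;> fin_cases j <;> simp [gTop_E]
  · intro n hn
    rw [Finset.mem_range, not_lt] at hn
    rw [h2 n hn, smul_zero]

theorem gTop_exp_D (x y : ℝ) (hx : 0 < x) (hy : 0 < y) :
    exp (Matrix.diagonal ![Real.log x, Real.log y] : Mat2) = !![x, 0; 0, y] := by
  rw [Matrix.exp_diagonal]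
  ext i j
  fin_cases i <;> fin_cases j <;>
    simp [Pi.exp_def, ← Real.exp_eq_exp_ℝ, Real.exp_log hx, Real.exp_log hy]

theorem gTop_dec (g : Gp) : ∃ A B C : Mat2, mt g = exp A * exp B * exp C := by
  set a := mt g 0 0 with ha
  set b := mt g 0 1 with hb
  set c := mt g 1 0 with hc
  set d := mt g 1 1 with hd
  have hdet : 0 < a * d - b * c := by
    have h := g.2
    rw [Matrix.mem_glpos] at h
    have h3 : ((Matrix.GeneralLinearGroup.det (g : GL (Fin 2) ℝ) : ℝˣ) : ℝ) = a * d - b * c := by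
      rw [Matrix.GeneralLinearGroup.val_det_apply, Matrix.det_fin_two]
    rw [← h3]
    exact h
  have hne : (⟨a, c⟩ : ℂ) ≠ 0 := by
    intro h
    have h1 : a = 0 := congrArg Complex.re h
    have h2 : c = 0 := congrArg Complex.im h
    rw [h1, h2] at hdet
    simp at hdet
  set h := ‖(⟨a, c⟩ : ℂ)‖ with hh
  have hpos : 0 < h := norm_pos_iff.2 hne
  have hsq : h ^ 2 = a ^ 2 + c ^ 2 := by
    rw [hh, ← Complex.normSq_eq_norm_sq, Complex.normSq_mk]
    ring
  set s := Complex.arg ⟨a, c⟩ with hs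
  have hcos : Real.cos s = a / h := Complex.cos_arg hne
  have hsin : Real.sin s = c / h := Complex.sin_arg _
  refine ⟨s • Jm, Matrix.diagonal ![Real.log h, Real.log ((a * d - b * c) / h)],
    ((a * b + c * d) / h / h) • gTop_E, ?_⟩
  rw [gTop_exp_J, gTop_exp_D _ _ hpos (div_pos hdet hpos), gTop_exp_E]
  have e : mt g = !![a, b; c, d] := by
    ext i j
    fin_cases i <;> fin_cases j <;> rfl
  rw [e]
  have h0 : h ≠ 0 := hpos.ne'
  ext i j
  fin_cases i <;> fin_cases j
  · simp [rot, Matrix.mul_apply, Fin.sum_univ_two, hcos, hsin]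
    field_simp
  · simp [rot, Matrix.mul_apply, Fin.sum_univ_two, hcos, hsin]
    field_simp
    rw [hsq]
    ring
  · simp [rot, Matrix.mul_apply, Fin.sum_univ_two, hcos, hsin]
    field_simp
  · simp [rot, Matrix.mul_apply, Fin.sum_univ_two, hcos, hsin]
    field_simp
    rw [hsq]
    ring

theorem gTop_ext {g h : Gd} (h1 : mt g.1 = mt h.1) (h2 : mt g.2 = mt h.2) : g = h :=
  Prod.ext (Subtype.ext (Units.ext h1)) (Subtype.ext (Units.ext h2))

/-- TARGET -/
theorem g_gen (h1 : S_blk) : S_gen := by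
  obtain ⟨hX, hγ, hexp⟩ := h1
  intro P hP1 hP g
  obtain ⟨A1, B1, C1, e1⟩ := gTop_dec g.1
  obtain ⟨A2, B2, C2, e2⟩ := gTop_dec g.2
  have key : ∀ A D : Mat2, ∃ (X : LieAlg GRd) (γ : ℝ → Gd), IsOneParam rho X.1 γ ∧
      mt (γ 1).1 = exp A ∧ mt (γ 1).2 = exp D := by
    intro A D
    obtain ⟨X, hA, hD⟩ := hX A D
    obtain ⟨γ, hγX⟩ := hγ X
    have h := hexp X γ hγX 1
    rw [one_smul, one_smul, hA, hD] at h
    exact ⟨X, γ, hγX, h.1, h.2⟩
  obtain ⟨X1, γ1, i1, j1, k1⟩ := key A1 A2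
  obtain ⟨X2, γ2, i2, j2, k2⟩ := key B1 B2
  obtain ⟨X3, γ3, i3, j3, k3⟩ := key C1 C2
  have h := hP _ X3 γ3 1 i3 (hP _ X2 γ2 1 i2 (hP 1 X1 γ1 1 i1 hP1))
  have e : 1 * γ1 1 * γ2 1 * γ3 1 = g := by
    rw [one_mul]
    apply gTop_ext
    · rw [e1, ← j1, ← j2, ← j3]
      rfl
    · rw [e2, ← k1, ← k2, ← k3]
      rfl
  rw [e] at h
  exact h

theorem gTop_sc : SecondCountableTopology Gd := by
  have h0 : SecondCountableTopology Mat2 :=
    inferInstanceAs (SecondCountableTopology (Fin 2 → Fin 2 → ℝ))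
  have h1 : SecondCountableTopology (GL (Fin 2) ℝ) := by
    have : SecondCountableTopology Mat2ᵐᵒᵖ :=
      (MulOpposite.opHomeomorph (M := Mat2)).symm.secondCountableTopology
    exact Units.isEmbedding_embedProduct.toIsInducing.secondCountableTopology
  have h2 : SecondCountableTopology Gp :=
    Topology.IsInducing.secondCountableTopology (f := Subtype.val) Topology.IsInducing.subtypeVal
  exact inferInstanceAs (SecondCountableTopology (Gp × Gp))

/-- TARGET -/
theorem g_top (h1 : S_blk) : S_top := by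
  refine ⟨inferInstance, gTop_sc, ?_⟩
  have hj : ∀ g : Gd, Joined 1 g := by
    apply g_gen h1 (fun g => Joined 1 g) (Joined.refl 1)
    intro g X γ t hγ hg
    refine hg.trans ?_
    have h0 : γ 0 = 1 := by
      have h := hγ.2.1 0 0
      rw [add_zero] at h
      exact (mul_eq_left.1 h.symm)
    refine ⟨⟨⟨fun s => g * γ (s * t), ?_⟩, ?_, ?_⟩⟩
    · exact continuous_const.mul (hγ.1.comp (by fun_prop))
    · simp [h0]
    · simp
  have : PathConnectedSpace Gd := ⟨⟨1⟩, fun x y => (hj x).symm.trans (hj y)⟩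
  infer_instance

end Pool.Agent.H913.LG
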