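import Pool.Agent.H913.LG.Stmts

open Matrix NormedSpace
open scoped Matrix ComplexConjugate

namespace Pool.Agent.H913.LG

open Pool.Agent.H913.SGP

theorem gWbd_compact {G : Type} [TopologicalSpace G] (W : G → ℝ)
    (hW : ∀ g, ∃ U ∈ nhds g, ∃ C : ℝ, ∀ x ∈ U, W x ≤ C) (S : Set G) (hS : IsCompact S) :
    ∃ C : ℝ, ∀ x ∈ S, W x ≤ C := by
  refine hS.induction_on (p := fun S => ∃ C : ℝ, ∀ x ∈ S, W x ≤ C) ?_ ?_ ?_ ?_
  · exact ⟨0, fun x hx => absurd hx (Set.notMem_empty x)⟩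
  · rintro s t hst ⟨C, hC⟩
    exact ⟨C, fun x hx => hC x (hst hx)⟩
  · rintro s t ⟨C, hC⟩ ⟨D, hD⟩
    refine ⟨max C D, fun x hx => ?_⟩
    rcases hx with hx | hx
    · exact (hC x hx).trans (le_max_left _ _)
    · exact (hD x hx).trans (le_max_right _ _)
  · intro x _
    obtain ⟨U, hU, C, hC⟩ := hW x
    exact ⟨U, mem_nhdsWithin_of_mem_nhds hU, C, hC⟩

theorem gWbd_mt_inj {g h : Gp} (e : mt g = mt h) : g = h :=
  Subtype.ext (Units.ext e)

theorem gWbd_rot_add (s : ℝ) (n : ℤ) : rot (s + n * (2 * Real.pi)) = rot s := by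
  unfold rot
  rw [Real.cos_add_int_mul_two_pi, Real.sin_add_int_mul_two_pi]

theorem gWbd_red (s : ℝ) : ∃ s' ∈ Set.Icc (0 : ℝ) (2 * Real.pi), rot s' = rot s := by
  refine ⟨Int.fract (s / (2 * Real.pi)) * (2 * Real.pi), ⟨?_, ?_⟩, ?_⟩
  · exact mul_nonneg (Int.fract_nonneg _) Real.two_pi_pos.le
  · exact mul_le_of_le_one_left Real.two_pi_pos.le (Int.fract_lt_one _).le
  · have h : Int.fract (s / (2 * Real.pi)) * (2 * Real.pi)
        = s + ((-⌊s / (2 * Real.pi)⌋ : ℤ) : ℝ) * (2 * Real.pi) := by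
      have h1 := Int.self_sub_floor (s / (2 * Real.pi))
      rw [← h1, sub_mul, div_mul_cancel₀ _ Real.two_pi_pos.ne']
      push_cast
      ring
    rw [h, gWbd_rot_add]

/-- TARGET -/
theorem g_wbd (h1 : S_K) : S_wbd := by
  intro W hW
  obtain ⟨hpos, hloc, hmul⟩ := hW
  refine ⟨?_, ?_, ?_⟩
  · intro γ hγ T
    obtain ⟨C, hC⟩ := gWbd_compact W hloc (γ '' Set.Icc (-T) T) (isCompact_Icc.image hγ)
    refine ⟨C, fun t ht => hC _ ⟨t, ?_, rfl⟩⟩
    exact abs_le.1 ht
  · obtain ⟨c, hc, hsur, hmt, -⟩ := h1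
    have hcont : Continuous fun x : ℝ × ℝ => ((c x : maxCompact rho) : Gd) :=
      continuous_subtype_val.comp hc
    obtain ⟨C, hC⟩ := gWbd_compact W hloc
      ((fun x : ℝ × ℝ => ((c x : maxCompact rho) : Gd)) ''
        (Set.Icc 0 (2 * Real.pi) ×ˢ Set.Icc 0 (2 * Real.pi)))
      ((isCompact_Icc.prod isCompact_Icc).image hcont)
    refine ⟨C, fun k hk => ?_⟩
    obtain ⟨x, hx⟩ := hsur ⟨k, hk⟩
    obtain ⟨s, hs, hs'⟩ := gWbd_red x.1
    obtain ⟨t, ht, ht'⟩ := gWbd_red x.2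
    refine hC k ⟨(s, t), ⟨hs, ht⟩, ?_⟩
    have hk' : ((c x : maxCompact rho) : Gd) = k := by rw [hx]
    rw [← hk']
    refine Prod.ext (gWbd_mt_inj ?_) (gWbd_mt_inj ?_)
    · show mt (c (s, t)).1.1 = mt (c x).1.1
      rw [(hmt (s, t)).1, (hmt x).1, hs']
    · show mt (c (s, t)).1.2 = mt (c x).1.2
      rw [(hmt (s, t)).2, (hmt x).2, ht']
  · obtain ⟨U, hU, C, hC⟩ := hloc 1
    exact ⟨C, Filter.mem_of_superset hU hC⟩

theorem gWbd_blk (A D : Mat2) : blkHom (A, D) = !![A 0 0, A 0 1, 0, 0; A 1 0, A 1 1, 0, 0;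
    0, 0, D 0 0, D 0 1; 0, 0, D 1 0, D 1 1] := by
  ext i j
  fin_cases i <;> fin_cases j <;> rfl

theorem gWbd_b1 (A D : Mat2) : b1 (blkHom (A, D)) = A := by
  rw [gWbd_blk]
  ext i j
  fin_cases i <;> fin_cases j <;> rfl

theorem gWbd_b2 (A D : Mat2) : b2 (blkHom (A, D)) = D := by
  rw [gWbd_blk]
  ext i j
  fin_cases i <;> fin_cases j <;> rfl

theorem gWbd_blk_lin (p q : ℝ) (A D A' D' : Mat2) :
    p • blkHom (A, D) + q • blkHom (A', D') = blkHom (p • A + q • A', p • D + q • D') := by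
  rw [gWbd_blk, gWbd_blk, gWbd_blk]
  ext i j
  fin_cases i <;> fin_cases j <;> simp

theorem gWbd_blk_tr (A D : Mat2) : (blkHom (A, D))ᵀ = blkHom (Aᵀ, Dᵀ) := by
  rw [gWbd_blk, gWbd_blk]
  ext i j
  fin_cases i <;> fin_cases j <;> rfl

theorem gWbd_blk_neg (A D : Mat2) : -(blkHom (A, D)) = blkHom (-A, -D) := by
  rw [gWbd_blk, gWbd_blk]
  ext i j
  fin_cases i <;> fin_cases j <;> simp

theorem gWbd_rho (g : Gd) : ((rho g : GL (Fin 4) ℝ) : Mat 4) = blkHom (mt g.1, mt g.2) := rfl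

theorem gWbd_skew (A : Mat2) (h : Aᵀ = -A) : A = A 1 0 • Jm := by
  have h00 := congrFun (congrFun h 0) 0
  have h01 := congrFun (congrFun h 1) 0
  have h11 := congrFun (congrFun h 1) 1
  simp only [Matrix.transpose_apply, Matrix.neg_apply] at h00 h01 h11
  ext i j
  fin_cases i <;> fin_cases j <;> simp [Jm] <;> linarith

theorem gWbd_skew1 (X : Mat 4) (h : Xᵀ = -X) : (b1 X)ᵀ = -(b1 X) := by
  ext i j
  have := congrFun (congrFun h (Fin.castAdd 2 i)) (Fin.castAdd 2 j)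
  simpa [b1] using this

theorem gWbd_skew2 (X : Mat 4) (h : Xᵀ = -X) : (b2 X)ᵀ = -(b2 X) := by
  ext i j
  have := congrFun (congrFun h (Fin.natAdd 2 i)) (Fin.natAdd 2 j)
  simpa [b2] using this

theorem gWbd_Jtr : (Jm)ᵀ = -Jm := by
  ext i j
  fin_cases i <;> fin_cases j <;> simp [Jm]

theorem gWbd_comm (s : ℝ) : rot s * Jm = Jm * rot s := by
  ext i j
  fin_cases i <;> fin_cases j <;> simp [Jm, rot, Matrix.mul_apply, Fin.sum_univ_two]

theorem gWbd_span1 {m : ℕ} (b : Fin m → LieAlg GRd) (h : ∀ l, b1 (b l).1 = 0) (X : Mat 4)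
    (hX : X ∈ Submodule.span ℝ (Set.range fun i => (b i).1)) : b1 X = 0 := by
  refine Submodule.span_induction (p := fun X _ => b1 X = 0) ?_ ?_ ?_ ?_ hX
  · rintro _ ⟨l, rfl⟩
    exact h l
  · rfl
  · intro x y _ _ hx hy
    have : b1 (x + y) = b1 x + b1 y := rfl
    rw [this, hx, hy, add_zero]
  · intro a x _ hx
    have : b1 (a • x) = a • b1 x := rfl
    rw [this, hx, smul_zero]

theorem gWbd_span2 {m : ℕ} (b : Fin m → LieAlg GRd) (h : ∀ l, b2 (b l).1 = 0) (X : Mat 4)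
    (hX : X ∈ Submodule.span ℝ (Set.range fun i => (b i).1)) : b2 X = 0 := by
  refine Submodule.span_induction (p := fun X _ => b2 X = 0) ?_ ?_ ?_ ?_ hX
  · rintro _ ⟨l, rfl⟩
    exact h l
  · rfl
  · intro x y _ _ hx hy
    have : b2 (x + y) = b2 x + b2 y := rfl
    rw [this, hx, hy, add_zero]
  · intro a x _ hx
    have : b2 (a • x) = a • b2 x := rfl
    rw [this, hx, smul_zero]

theorem gWbd_conj (g : GL (Fin 4) ℝ) (X : Mat 4) (h : (g : Mat 4) * X = X * (g : Mat 4)) :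
    Pool.Agent.H913.SGP.conj g X = X := by
  unfold Pool.Agent.H913.SGP.conj
  rw [h, Matrix.mul_assoc, Units.mul_inv, Matrix.mul_one]

theorem gWbd_Jne : Jm ≠ 0 := by
  intro h
  have := congrFun (congrFun h 1) 0
  simp [Jm] at this

/-- TARGET -/
theorem g_basis (h1 : S_blk) (h2 : S_K) : S_basis := by
  obtain ⟨X1, hX11, hX12⟩ := h1.1 Jm 0
  obtain ⟨X2, hX21, hX22⟩ := h1.1 0 Jm
  have e1 : X1.1 = blkHom (Jm, 0) := by rw [aux_block X1, hX11, hX12]
  have e2 : X2.1 = blkHom (0, Jm) := by rw [aux_block X2, hX21, hX22]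
  have s1 : X1.1ᵀ = -X1.1 := by
    rw [e1, gWbd_blk_tr, gWbd_blk_neg, gWbd_Jtr, Matrix.transpose_zero, neg_zero]
  have s2 : X2.1ᵀ = -X2.1 := by
    rw [e2, gWbd_blk_tr, gWbd_blk_neg, gWbd_Jtr, Matrix.transpose_zero, neg_zero]
  constructor
  · refine ⟨![X1, X2], ?_, ?_, ?_, ?_⟩
    · intro i
      fin_cases i
      · exact s1
      · exact s2
    · have hfun : (fun i => ((![X1, X2] : Fin 2 → LieAlg GRd) i).1) = ![X1.1, X2.1] := by
        funext i
        fin_cases i <;> rfl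
      rw [hfun, LinearIndependent.pair_iff]
      intro s t hst
      rw [e1, e2, gWbd_blk_lin] at hst
      constructor
      · have := congrArg b1 hst
        rw [gWbd_b1] at this
        have h := congrFun (congrFun this 1) 0
        simpa [Jm, b1] using h
      · have := congrArg b2 hst
        rw [gWbd_b2] at this
        have h := congrFun (congrFun this 1) 0
        simpa [Jm, b2] using h
    · intro X hX
      have hA := gWbd_skew _ (gWbd_skew1 X.1 hX)
      have hD := gWbd_skew _ (gWbd_skew2 X.1 hX)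
      have hX' : X.1 = (b1 X.1 1 0) • X1.1 + (b2 X.1 1 0) • X2.1 := by
        rw [e1, e2, gWbd_blk_lin, smul_zero, smul_zero, add_zero, zero_add, ← hA, ← hD]
        exact aux_block X
      rw [hX']
      refine Submodule.add_mem _ (Submodule.smul_mem _ _ (Submodule.subset_span ⟨0, rfl⟩))
        (Submodule.smul_mem _ _ (Submodule.subset_span ⟨1, rfl⟩))
    · intro k hk
      refine ⟨1, by simp, ?_⟩
      obtain ⟨c, hc, hsur, hmt, -⟩ := h2
      obtain ⟨x, hx⟩ := hsur ⟨k, hk⟩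
      have hk' : ((c x : maxCompact rho) : Gd) = k := by rw [hx]
      have hk1 : mt k.1 = rot x.1 := by rw [← hk']; exact (hmt x).1
      have hk2 : mt k.2 = rot x.2 := by rw [← hk']; exact (hmt x).2
      have hr : ((rho k : GL (Fin 4) ℝ) : Mat 4) = blkHom (rot x.1, rot x.2) := by
        rw [gWbd_rho, hk1, hk2]
      intro i
      have hsum : ∑ j, (1 : Matrix (Fin 2) (Fin 2) ℝ) j i •
          ((![X1, X2] : Fin 2 → LieAlg GRd) j).1 = ((![X1, X2] : Fin 2 → LieAlg GRd) i).1 := by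
        rw [Finset.sum_eq_single i]
        · simp
        · intro j _ hj
          simp [Matrix.one_apply_ne hj]
        · intro h
          exact absurd (Finset.mem_univ i) h
      rw [hsum]
      refine gWbd_conj _ _ ?_
      rw [hr]
      fin_cases i
      · show blkHom (rot x.1, rot x.2) * X1.1 = X1.1 * blkHom (rot x.1, rot x.2)
        rw [e1, ← map_mul, ← map_mul]
        simp [gWbd_comm]
      · show blkHom (rot x.1, rot x.2) * X2.1 = X2.1 * blkHom (rot x.1, rot x.2)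
        rw [e2, ← map_mul, ← map_mul]
        simp [gWbd_comm]
  · intro m b hb
    obtain ⟨hsk, hli, hsp, -⟩ := hb
    refine ⟨fun l => b1 (b l).1 1 0, fun l => b2 (b l).1 1 0, ?_, ?_, ?_⟩
    · intro l
      exact ⟨gWbd_skew _ (gWbd_skew1 _ (hsk l)), gWbd_skew _ (gWbd_skew2 _ (hsk l))⟩
    · by_contra hcon
      have h0 : ∑ l, (b1 (b l).1 1 0) ^ 2 = 0 :=
        le_antisymm (not_lt.1 hcon) (Finset.sum_nonneg fun l _ => sq_nonneg _)
      have hz : ∀ l, b1 (b l).1 = 0 := by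
        intro l
        have := (Finset.sum_eq_zero_iff_of_nonneg (fun l _ => sq_nonneg _)).1 h0 l
          (Finset.mem_univ l)
        have h3 : b1 (b l).1 1 0 = 0 := by simpa using this
        rw [gWbd_skew _ (gWbd_skew1 _ (hsk l)), h3, zero_smul]
      have := gWbd_span1 b hz X1.1 (hsp X1 s1)
      rw [hX11] at this
      exact gWbd_Jne this
    · by_contra hcon
      have h0 : ∑ l, (b2 (b l).1 1 0) ^ 2 = 0 :=
        le_antisymm (not_lt.1 hcon) (Finset.sum_nonneg fun l _ => sq_nonneg _)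
      have hz : ∀ l, b2 (b l).1 = 0 := by
        intro l
        have := (Finset.sum_eq_zero_iff_of_nonneg (fun l _ => sq_nonneg _)).1 h0 l
          (Finset.mem_univ l)
        have h3 : b2 (b l).1 1 0 = 0 := by simpa using this
        rw [gWbd_skew _ (gWbd_skew2 _ (hsk l)), h3, zero_smul]
      have := gWbd_span2 b hz X2.1 (hsp X2 s2)
      rw [hX22] at this
      exact gWbd_Jne this

end Pool.Agent.H913.LG
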