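import Pool.Agent.H913.LG.HCBase

/-! Admissibility of the modules spanned by weight vectors. -/

open Matrix NormedSpace
open scoped Matrix ComplexConjugate

namespace Pool.Agent.H913.LG

open Pool.Agent.H913.SGP

theorem hAdm_dg_apply {I : Type} (c : I → ℂ) (v : I →₀ ℂ) (i : I) : dg c v i = c i * v i := by
  classical
  unfold dg
  induction v using Finsupp.induction_linear with
  | zero => simp
  | add f g hf hg => rw [map_add, Finsupp.add_apply, hf, hg, Finsupp.add_apply, mul_add]
  | single a b =>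
    rw [Finsupp.linearCombination_single]
    simp only [Finsupp.smul_apply, Finsupp.single_apply, smul_eq_mul]
    split_ifs with h
    · subst h
      ring
    · simp

theorem hAdm_aeval_dg {I : Type} (c : I → ℂ) (p : Polynomial ℂ) :
    Polynomial.aeval (dg c) p = dg (fun i => p.eval (c i)) := by
  induction p using Polynomial.induction_on' with
  | add p q hp hq =>
    rw [map_add, hp, hq]
    refine LinearMap.ext (fun v => Finsupp.ext (fun i => ?_))
    rw [LinearMap.add_apply, Finsupp.add_apply, hAdm_dg_apply, hAdm_dg_apply, hAdm_dg_apply,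
      Polynomial.eval_add]
    ring
  | monomial n a =>
    rw [Polynomial.aeval_monomial]
    have hpow : ∀ n : ℕ, (dg c) ^ n = dg (fun i => (c i) ^ n) := by
      intro n
      induction n with
      | zero =>
        refine LinearMap.ext (fun v => Finsupp.ext (fun i => ?_))
        rw [hAdm_dg_apply]
        simp
      | succ n ih =>
        rw [pow_succ, ih]
        refine LinearMap.ext (fun v => Finsupp.ext (fun i => ?_))
        rw [Module.End.mul_apply, hAdm_dg_apply, hAdm_dg_apply, hAdm_dg_apply]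
        ring
    rw [hpow]
    refine LinearMap.ext (fun v => Finsupp.ext (fun i => ?_))
    rw [Module.End.mul_apply, Module.algebraMap_end_apply, Finsupp.smul_apply, hAdm_dg_apply,
      hAdm_dg_apply, Polynomial.eval_monomial, smul_eq_mul]
    ring

theorem hAdm_intertwine {V W : Type} [AddCommGroup V] [Module ℂ V] [AddCommGroup W] [Module ℂ W]
    (T : W →ₗ[ℂ] V) (A : Module.End ℂ W) (B : Module.End ℂ V) (h : ∀ x, T (A x) = B (T x))
    (p : Polynomial ℂ) (x : W) : T (Polynomial.aeval A p x) = Polynomial.aeval B p (T x) := by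
  induction p using Polynomial.induction_on' with
  | add p q hp hq =>
    rw [map_add, map_add, LinearMap.add_apply, LinearMap.add_apply, map_add, hp, hq]
  | monomial n a =>
    rw [Polynomial.aeval_monomial, Polynomial.aeval_monomial, Module.End.mul_apply,
      Module.End.mul_apply, Module.algebraMap_end_apply, Module.algebraMap_end_apply, map_smul]
    congr 1
    induction n with
    | zero => simp
    | succ n ih =>
      rw [pow_succ', pow_succ', Module.End.mul_apply, Module.End.mul_apply, h, ih]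

/-- the rotation by the angle `1` -/
noncomputable def hAdm_r : Gp := Matrix.SpecialLinearGroup.toGLPos
  ⟨rot 1, by
    unfold rot
    rw [Matrix.det_fin_two_of]
    have := Real.sin_sq_add_cos_sq 1
    linarith [this, sq (Real.sin 1), sq (Real.cos 1)]⟩

theorem hAdm_mt_r : mt hAdm_r = rot 1 := rfl

theorem hAdm_mt_one : mt 1 = 1 := rfl

theorem hAdm_rho_val (g : Gd) : ((rho g : GL (Fin 4) ℝ) : Mat 4) = blkHom (mt g.1, mt g.2) := rfl

theorem hAdm_blk_transpose (A B : Mat2) : (blkHom (A, B))ᵀ = blkHom (Aᵀ, Bᵀ) := by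
  change (Matrix.reindex (finSumFinEquiv (m := 2) (n := 2)) (finSumFinEquiv (m := 2) (n := 2))
    (Matrix.fromBlocks A 0 0 B))ᵀ = Matrix.reindex (finSumFinEquiv (m := 2) (n := 2))
    (finSumFinEquiv (m := 2) (n := 2)) (Matrix.fromBlocks Aᵀ 0 0 Bᵀ)
  rw [Matrix.reindex_apply, Matrix.reindex_apply, Matrix.transpose_submatrix,
    Matrix.fromBlocks_transpose, Matrix.transpose_zero]

theorem hAdm_rot_orth : (rot 1)ᵀ * rot 1 = 1 := by
  unfold rot
  have h := Real.sin_sq_add_cos_sq 1
  ext i j
  fin_cases i <;> fin_cases j <;>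
    simp [Matrix.mul_apply, Fin.sum_univ_two] <;> nlinarith

theorem hAdm_mem (g : Gd) (h1 : (mt g.1)ᵀ * mt g.1 = 1) (h2 : (mt g.2)ᵀ * mt g.2 = 1) :
    g ∈ maxCompact rho := by
  rw [Subgroup.mem_comap]
  change ((rho g : GL (Fin 4) ℝ) : Mat 4)ᵀ * ((rho g : GL (Fin 4) ℝ) : Mat 4) = 1
  rw [hAdm_rho_val, hAdm_blk_transpose, ← map_mul, Prod.mk_mul_mk, h1, h2]
  exact map_one blkHom

/-- the rotation in the first factor -/
noncomputable def hAdm_k1 : maxCompact rho := ⟨(hAdm_r, 1), hAdm_mem _ hAdm_rot_orth (by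
  rw [hAdm_mt_one, Matrix.transpose_one, one_mul])⟩

/-- the rotation in the second factor -/
noncomputable def hAdm_k2 : maxCompact rho := ⟨(1, hAdm_r), hAdm_mem _ (by
  rw [hAdm_mt_one, Matrix.transpose_one, one_mul]) hAdm_rot_orth⟩

theorem hAdm_zc_r : zc hAdm_r = Complex.exp (-Complex.I) := by
  unfold zc
  rw [hAdm_mt_r]
  have h : Complex.exp (-Complex.I) = Complex.exp (((-1 : ℝ) : ℂ) * Complex.I) := by
    congr 1
    push_cast
    ring
  rw [h]
  apply Complex.ext
  · rw [Complex.exp_ofReal_mul_I_re, Real.cos_neg]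
    simp [rot]
  · rw [Complex.exp_ofReal_mul_I_im, Real.sin_neg]
    simp [rot]

theorem hAdm_zc_one : zc 1 = 1 := by
  unfold zc
  rw [hAdm_mt_one]
  apply Complex.ext
  · simp
  · simp

theorem hAdm_inj : Function.Injective (fun n : ℤ => (Complex.exp (-Complex.I)) ^ n) := by
  intro a b hab
  have hab' : (Complex.exp (-Complex.I)) ^ a = (Complex.exp (-Complex.I)) ^ b := hab
  rw [← Complex.exp_int_mul, ← Complex.exp_int_mul, Complex.exp_eq_exp_iff_exists_int] at hab'
  obtain ⟨n, hn⟩ := hab'
  by_contra hne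
  have h1 : ((b : ℂ) - a) * Complex.I = (n * (2 * Real.pi)) * Complex.I := by
    linear_combination hn
  have h2 : ((b : ℂ) - a) = n * (2 * Real.pi) := mul_right_cancel₀ Complex.I_ne_zero h1
  have h3 : ((b : ℝ) - a) = n * (2 * Real.pi) := by exact_mod_cast h2
  have hn0 : n ≠ 0 := by
    rintro rfl
    simp at h3
    apply hne
    have : (b : ℝ) = a := by linarith
    exact_mod_cast this.symm
  have hn0' : (n : ℝ) ≠ 0 := by exact_mod_cast hn0
  apply irrational_pi
  refine ⟨((b - a : ℤ) : ℚ) / (2 * n), ?_⟩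
  push_cast
  rw [div_eq_iff (by positivity)]
  linarith

theorem hAdm_fd {V W : Type} [AddCommGroup V] [Module ℂ V] [AddCommGroup W] [Module ℂ W]
    [FiniteDimensional ℂ W] (VS : Submodule ℂ V) [FiniteDimensional ℂ VS] (S : Set (W →ₗ[ℂ] V))
    (hS : ∀ T ∈ S, ∀ x, T x ∈ VS) : FiniteDimensional ℂ (Submodule.span ℂ S) := by
  let N : Submodule ℂ (W →ₗ[ℂ] V) :=
    { carrier := {T | ∀ x, T x ∈ VS}
      add_mem' := fun {a b} ha hb x => VS.add_mem (ha x) (hb x)
      zero_mem' := fun x => VS.zero_mem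
      smul_mem' := fun c a ha x => VS.smul_mem c (ha x) }
  let L : N →ₗ[ℂ] (W →ₗ[ℂ] VS) :=
    { toFun := fun T => T.1.codRestrict VS T.2
      map_add' := fun a b => rfl
      map_smul' := fun c a => rfl }
  have hL : Function.Injective L := by
    intro a b hab
    apply Subtype.ext
    refine LinearMap.ext (fun x => ?_)
    have h1 := congrArg (fun T : W →ₗ[ℂ] VS => ((T x : VS) : V)) hab
    exact h1
  have hfd : FiniteDimensional ℂ N := FiniteDimensional.of_injective L hL
  have hle : Submodule.span ℂ S ≤ N := by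
    rw [Submodule.span_le]
    exact hS
  exact Submodule.finiteDimensional_of_le hle

/-- TARGET -/
theorem h_adm {I : Type} (M : TMod I) (h : M.Good) : IsAdmissible (kap M) := by
  classical
  intro m τ _ _
  set z : ℂ := Complex.exp (-Complex.I) with hz
  set p1 : Polynomial ℂ := LinearMap.charpoly (τ hAdm_k1) with hp1
  set p2 : Polynomial ℂ := LinearMap.charpoly (τ hAdm_k2) with hp2
  have hk1 : kap M hAdm_k1 = dg fun i => z ^ M.μ i := by
    change dg (fun i => zc hAdm_r ^ M.μ i * zc 1 ^ M.ν i) = _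
    rw [hAdm_zc_r, hAdm_zc_one]
    congr 1
    funext i
    rw [_root_.one_zpow, mul_one]
  have hk2 : kap M hAdm_k2 = dg fun i => z ^ M.ν i := by
    change dg (fun i => zc 1 ^ M.μ i * zc hAdm_r ^ M.ν i) = _
    rw [hAdm_zc_r, hAdm_zc_one]
    congr 1
    funext i
    rw [_root_.one_zpow, one_mul]
  have hne1 : p1 ≠ 0 := (LinearMap.charpoly_monic _).ne_zero
  have hne2 : p2 ≠ 0 := (LinearMap.charpoly_monic _).ne_zero
  have hfin : ∀ p : Polynomial ℂ, p ≠ 0 → {a : ℤ | p.IsRoot (z ^ a)}.Finite := by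
    intro p hp
    exact Set.Finite.preimage (hAdm_inj.injOn) (Polynomial.finite_setOfPred_isRoot hp)
  let S : Set I := {i | p1.IsRoot (z ^ M.μ i) ∧ p2.IsRoot (z ^ M.ν i)}
  have hS : S.Finite := by
    have h1 : S ⊆ ⋃ x ∈ ({a : ℤ | p1.IsRoot (z ^ a)} ×ˢ {a : ℤ | p2.IsRoot (z ^ a)}),
        {i | M.μ i = x.1 ∧ M.ν i = x.2} := by
      intro i hi
      refine Set.mem_iUnion₂.mpr ⟨(M.μ i, M.ν i), ⟨hi.1, hi.2⟩, rfl, rfl⟩
    refine Set.Finite.subset ?_ h1
    exact Set.Finite.biUnion ((hfin p1 hne1).prod (hfin p2 hne2)) (fun x _ => h.fib x.1 x.2)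
  have : Finite S := hS
  let VS : Submodule ℂ (I →₀ ℂ) := Finsupp.supported ℂ ℂ S
  have hVS : Module.Finite ℂ VS :=
    Module.Finite.equiv (Finsupp.supportedEquivFinsupp (M := ℂ) (R := ℂ) S).symm
  unfold FiniteMult
  refine hAdm_fd VS _ ?_
  · intro T hT
    have hmem : ∀ x, T x ∈ VS := by
      intro x
      rw [Finsupp.mem_supported]
      intro i hi
      have hi' : T x i ≠ 0 := Finsupp.mem_support_iff.mp hi
      constructor
      · have h1 := hAdm_intertwine T (τ hAdm_k1) (kap M hAdm_k1) (hT hAdm_k1) p1 x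
        rw [hp1, LinearMap.aeval_self_charpoly, ← hp1, hk1, hAdm_aeval_dg, LinearMap.zero_apply,
          map_zero] at h1
        have h2 := congrArg (fun v => v i) h1
        simp only [hAdm_dg_apply, Finsupp.zero_apply] at h2
        rcases mul_eq_zero.mp h2.symm with h3 | h3
        · exact h3
        · exact absurd h3 hi'
      · have h1 := hAdm_intertwine T (τ hAdm_k2) (kap M hAdm_k2) (hT hAdm_k2) p2 x
        rw [hp2, LinearMap.aeval_self_charpoly, ← hp2, hk2, hAdm_aeval_dg, LinearMap.zero_apply,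
          map_zero] at h1
        have h2 := congrArg (fun v => v i) h1
        simp only [hAdm_dg_apply, Finsupp.zero_apply] at h2
        rcases mul_eq_zero.mp h2.symm with h3 | h3
        · exact h3
        · exact absurd h3 hi'
    exact hmem

end Pool.Agent.H913.LG
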