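import Pool.Agent.H913.LG.HCPre

open Matrix NormedSpace
open scoped Matrix ComplexConjugate

namespace Pool.Agent.H913.LG

open Pool.Agent.H913.SGP

/-! Proof. Elements of `GRd` are the block diagonal invertible matrices. `aux_block`: X with exp (tX) block diagonal for all t; derivative at t = 0 of the off-diagonal entries of exp (t • X) (HasDerivAt of exp, entrywise) gives zero off-diagonal blocks of X. (X.1 = blkHom (b1 X.1, b2 X.1) then entry by entry.)
`aux_mul`: for k in maxCompact rho, rho k orthogonal, block diagonal, so both blocks are orthogonal 2x2 matrices of positive determinant, so in SO(2): entries (c,-s;s,c), zc = c - i s of modulus one, zc multiplicative on such matrices; zpow of a product (nonzero complex numbers, commutative). dg is multiplicative: dg a * dg b = dg (a*b). -/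


theorem hBlock_val (g : GL (Fin 2) ℝ × GL (Fin 2) ℝ) :
    ((blkU g : GL (Fin 4) ℝ) : Mat 4) = blkHom ((g.1 : Mat2), (g.2 : Mat2)) := rfl

theorem hBlock_12 (p : Mat2 × Mat2) (i j : Fin 2) :
    blkHom p (Fin.castAdd 2 i) (Fin.natAdd 2 j) = 0 := by
  show Matrix.fromBlocks p.1 0 0 p.2 ((finSumFinEquiv (m := 2) (n := 2)).symm (Fin.castAdd 2 i))
    ((finSumFinEquiv (m := 2) (n := 2)).symm (Fin.natAdd 2 j)) = _
  rw [finSumFinEquiv_symm_apply_castAdd, finSumFinEquiv_symm_apply_natAdd]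
  rfl

theorem hBlock_21 (p : Mat2 × Mat2) (i j : Fin 2) :
    blkHom p (Fin.natAdd 2 i) (Fin.castAdd 2 j) = 0 := by
  show Matrix.fromBlocks p.1 0 0 p.2 ((finSumFinEquiv (m := 2) (n := 2)).symm (Fin.natAdd 2 i))
    ((finSumFinEquiv (m := 2) (n := 2)).symm (Fin.castAdd 2 j)) = _
  rw [finSumFinEquiv_symm_apply_natAdd, finSumFinEquiv_symm_apply_castAdd]
  rfl

theorem hBlock_11 (p : Mat2 × Mat2) (i j : Fin 2) :
    blkHom p (Fin.castAdd 2 i) (Fin.castAdd 2 j) = p.1 i j := by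
  show Matrix.fromBlocks p.1 0 0 p.2 ((finSumFinEquiv (m := 2) (n := 2)).symm (Fin.castAdd 2 i))
    ((finSumFinEquiv (m := 2) (n := 2)).symm (Fin.castAdd 2 j)) = _
  rw [finSumFinEquiv_symm_apply_castAdd, finSumFinEquiv_symm_apply_castAdd]
  rfl

theorem hBlock_22 (p : Mat2 × Mat2) (i j : Fin 2) :
    blkHom p (Fin.natAdd 2 i) (Fin.natAdd 2 j) = p.2 i j := by
  show Matrix.fromBlocks p.1 0 0 p.2 ((finSumFinEquiv (m := 2) (n := 2)).symm (Fin.natAdd 2 i))
    ((finSumFinEquiv (m := 2) (n := 2)).symm (Fin.natAdd 2 j)) = _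
  rw [finSumFinEquiv_symm_apply_natAdd, finSumFinEquiv_symm_apply_natAdd]
  rfl

section
attribute [local instance] Matrix.linftyOpNormedRing Matrix.linftyOpNormedAlgebra

theorem hBlock_entry (X : Mat 4) (i j : Fin 4) (h : ∀ t : ℝ, (exp (t • X) : Mat 4) i j = 0) :
    X i j = 0 := by
  have h1 : HasDerivAt (fun t : ℝ => (exp (t • X) : Mat 4)) (exp ((0 : ℝ) • X) * X) 0 :=
    hasDerivAt_exp_smul_const X (0 : ℝ)
  rw [zero_smul, exp_zero, one_mul] at h1
  have h2 : HasDerivAt (fun t : ℝ => (exp (t • X) : Mat 4) i j) (X i j) 0 := by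
    let L : Mat 4 →ₗ[ℝ] ℝ :=
      { toFun := fun M => M i j
        map_add' := fun _ _ => rfl
        map_smul' := fun _ _ => rfl }
    have h3 := (LinearMap.toContinuousLinearMap L).hasFDerivAt.comp_hasDerivAt (0 : ℝ) h1
    exact h3
  have h3 : HasDerivAt (fun t : ℝ => (exp (t • X) : Mat 4) i j) 0 0 := by
    simp only [h]
    exact hasDerivAt_const _ _
  exact h2.unique h3

end

/-- TARGET -/
theorem h_block (X : LieAlg GRd) : X.1 = blkHom (b1 X.1, b2 X.1) := by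
  have hoff : ∀ t : ℝ, ∃ p : Mat2 × Mat2, exp (t • X.1) = blkHom p := by
    intro t
    obtain ⟨g, ⟨q, rfl⟩, hg⟩ := X.2 t
    exact ⟨_, by rw [← hg, hBlock_val]⟩
  ext i j
  refine Fin.addCases (m := 2) (n := 2) (fun i => ?_) (fun i => ?_) i <;>
    refine Fin.addCases (m := 2) (n := 2) (fun j => ?_) (fun j => ?_) j
  · rw [hBlock_11]; rfl
  · rw [hBlock_12]
    apply hBlock_entry
    intro t
    obtain ⟨p, hp⟩ := hoff t
    rw [hp, hBlock_12]
  · rw [hBlock_21]
    apply hBlock_entry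
    intro t
    obtain ⟨p, hp⟩ := hoff t
    rw [hp, hBlock_21]
  · rw [hBlock_22]; rfl

theorem hBlock_dg_ee {I : Type} (c : I → ℂ) (i : I) : dg c (ee i) = c i • ee i := by
  unfold dg ee
  rw [Finsupp.linearCombination_single, one_smul]

theorem hBlock_dg_mul {I : Type} (a b : I → ℂ) : dg a * dg b = dg (fun i => a i * b i) := by
  apply Finsupp.lhom_ext'
  intro i
  ext1
  show (dg a) ((dg b) (ee i)) = dg (fun i => a i * b i) (ee i)
  rw [hBlock_dg_ee, hBlock_dg_ee, map_smul, hBlock_dg_ee, smul_smul, mul_comm]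

/-- TARGET -/
theorem h_one {I : Type} (M : TMod I) : kapFun M 1 = 1 := by
  have hz : zc 1 = 1 := by
    apply Complex.ext
    · show mt 1 0 0 = 1
      simp [mt]
    · show -(mt 1 1 0) = 0
      simp [mt]
  unfold kapFun
  apply Finsupp.lhom_ext'
  intro i
  ext1
  show (dg _) (ee i) = ee i
  rw [hBlock_dg_ee]
  have h1 : (1 : Gd).1 = 1 := rfl
  have h2 : (1 : Gd).2 = 1 := rfl
  rw [h1, h2, hz]
  simp

theorem hBlock_so (g : Gp) (h : (mt g)ᵀ * mt g = 1) : mt g 1 1 = mt g 0 0 ∧ mt g 0 1 = - mt g 1 0 := by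
  have hdet : 0 < (mt g).det := g.2
  rw [Matrix.det_fin_two] at hdet
  have h00 := congrFun (congrFun h 0) 0
  have h01 := congrFun (congrFun h 0) 1
  have h11 := congrFun (congrFun h 1) 1
  simp only [Matrix.mul_apply, Fin.sum_univ_two, Matrix.transpose_apply, Matrix.one_apply_eq] at h00 h01 h11
  rw [Matrix.one_apply_ne (by decide)] at h01
  set a := mt g 0 0
  set b := mt g 0 1
  set c := mt g 1 0
  set d := mt g 1 1
  have h1 : (a * d - b * c) ^ 2 = 1 := by
    have e1 : (a * d - b * c) ^ 2 = (a * a + c * c) * (b * b + d * d) - (a * b + c * d) ^ 2 := by ring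
    rw [e1, h00, h01, h11]; ring
  have h2 : a * d - b * c = 1 := by nlinarith
  have h3 : (d - a) ^ 2 + (b + c) ^ 2 = 0 := by
    have e2 : (d - a) ^ 2 + (b + c) ^ 2 = (a * a + c * c) + (b * b + d * d) - 2 * (a * d - b * c) := by ring
    rw [e2, h00, h11, h2]; ring
  constructor
  · nlinarith [sq_nonneg (d - a), sq_nonneg (b + c)]
  · nlinarith [sq_nonneg (d - a), sq_nonneg (b + c)]

theorem hBlock_zc (g h : Gp) (hg : (mt g)ᵀ * mt g = 1) (hh : (mt h)ᵀ * mt h = 1) :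
    zc (g * h) = zc g * zc h := by
  have h1 := hBlock_so g hg
  have h2 := hBlock_so h hh
  have hm : mt (g * h) = mt g * mt h := rfl
  apply Complex.ext
  · show mt (g * h) 0 0 = (mt g 0 0) * (mt h 0 0) - (-(mt g 1 0)) * (-(mt h 1 0))
    rw [hm, Matrix.mul_apply, Fin.sum_univ_two, h1.2]
    ring
  · show -(mt (g * h) 1 0) = (mt g 0 0) * (-(mt h 1 0)) + (-(mt g 1 0)) * (mt h 0 0)
    rw [hm, Matrix.mul_apply, Fin.sum_univ_two, h1.1]
    ring

theorem hBlock_orth (k : maxCompact rho) :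
    (mt k.1.1)ᵀ * mt k.1.1 = 1 ∧ (mt k.1.2)ᵀ * mt k.1.2 = 1 := by
  have h1 : ((rho k.1 : GL (Fin 4) ℝ) : Mat 4)ᵀ * ((rho k.1 : GL (Fin 4) ℝ) : Mat 4) = 1 := k.2
  have h2 : ((rho k.1 : GL (Fin 4) ℝ) : Mat 4) = blkHom (mt k.1.1, mt k.1.2) := rfl
  have h3 : (blkHom (mt k.1.1, mt k.1.2))ᵀ = blkHom ((mt k.1.1)ᵀ, (mt k.1.2)ᵀ) := by
    simp [blkHom, Matrix.fromBlocks_transpose]
  rw [h2, h3, ← map_mul] at h1
  constructor
  · ext i j
    have h4 := congrFun (congrFun h1 (Fin.castAdd 2 i)) (Fin.castAdd 2 j)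
    rw [hBlock_11] at h4
    rw [← show ((((mt k.1.1)ᵀ, (mt k.1.2)ᵀ) : Mat2 × Mat2) * ((mt k.1.1), (mt k.1.2))).1 i j =
      ((mt k.1.1)ᵀ * mt k.1.1) i j from rfl, h4]
    simp only [Matrix.one_apply, Fin.ext_iff, Fin.val_castAdd]
  · ext i j
    have h4 := congrFun (congrFun h1 (Fin.natAdd 2 i)) (Fin.natAdd 2 j)
    rw [hBlock_22] at h4
    rw [← show ((((mt k.1.1)ᵀ, (mt k.1.2)ᵀ) : Mat2 × Mat2) * ((mt k.1.1), (mt k.1.2))).2 i j =
      ((mt k.1.2)ᵀ * mt k.1.2) i j from rfl, h4]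
    simp only [Matrix.one_apply, Fin.ext_iff, Fin.val_natAdd, add_right_inj]

/-- TARGET -/
theorem h_mul {I : Type} (M : TMod I) (k l : maxCompact rho) :
    kapFun M (k.1 * l.1) = kapFun M k.1 * kapFun M l.1 := by
  unfold kapFun
  rw [hBlock_dg_mul]
  congr 1
  ext1 i
  have hk := hBlock_orth k
  have hl := hBlock_orth l
  have h1 : (k.1 * l.1).1 = k.1.1 * l.1.1 := rfl
  have h2 : (k.1 * l.1).2 = k.1.2 * l.1.2 := rfl
  rw [h1, h2, hBlock_zc _ _ hk.1 hl.1, hBlock_zc _ _ hk.2 hl.2, mul_zpow, mul_zpow]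
  ring

end Pool.Agent.H913.LG
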