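import Pool.Agent.H913.LG.HCBase

/- PROJECT LG (owner helper913), job 3794, by helper341: the action of K. -/

open Matrix NormedSpace
open scoped Matrix ComplexConjugate

namespace Pool.Agent.H913.LG

open Pool.Agent.H913.SGP

/-! ### Blocks -/

theorem hKact_rho (k : Gd) : ((rho k : GL (Fin 4) ℝ) : Mat 4) = blkHom (mt k.1, mt k.2) := rfl

theorem hKact_b1 (p : Mat2 × Mat2) : b1 (blkHom p) = p.1 := by
  ext i j
  simp only [b1, blkHom, MonoidHom.coe_mk, OneHom.coe_mk, Matrix.reindex_apply,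
    Matrix.submatrix_apply, finSumFinEquiv_symm_apply_castAdd, Matrix.fromBlocks_apply₁₁]

theorem hKact_b2 (p : Mat2 × Mat2) : b2 (blkHom p) = p.2 := by
  ext i j
  simp only [b2, blkHom, MonoidHom.coe_mk, OneHom.coe_mk, Matrix.reindex_apply,
    Matrix.submatrix_apply, finSumFinEquiv_symm_apply_natAdd, Matrix.fromBlocks_apply₂₂]

theorem hKact_tr (p : Mat2 × Mat2) : (blkHom p)ᵀ = blkHom (p.1ᵀ, p.2ᵀ) := by
  simp only [blkHom, MonoidHom.coe_mk, OneHom.coe_mk, Matrix.transpose_reindex,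
    Matrix.fromBlocks_transpose, Matrix.transpose_zero]

/-- both blocks of an element of `K` are orthogonal -/
theorem hKact_orth (k : maxCompact rho) :
    (mt k.1.1)ᵀ * mt k.1.1 = 1 ∧ (mt k.1.2)ᵀ * mt k.1.2 = 1 := by
  have h : IsOrthogonal (rho k.1) := k.2
  unfold IsOrthogonal at h
  rw [hKact_rho, hKact_tr, ← map_mul] at h
  have h1 := congrArg b1 h
  have h2 := congrArg b2 h
  rw [← map_one blkHom, hKact_b1, hKact_b1] at h1
  rw [← map_one blkHom, hKact_b2, hKact_b2] at h2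
  exact ⟨h1, h2⟩

/-- an orthogonal matrix of positive determinant -/
theorem hKact_so (M : Mat2) (h : Mᵀ * M = 1) (hd : 0 < M.det) :
    M 1 1 = M 0 0 ∧ M 0 1 = -M 1 0 ∧ M 0 0 ^ 2 + M 1 0 ^ 2 = 1 := by
  have hdet : M.det * M.det = 1 := by
    have := congrArg Matrix.det h
    rwa [Matrix.det_mul, Matrix.det_transpose, Matrix.det_one] at this
  have hd1 : M.det = 1 := by nlinarith
  have h00 := congrFun (congrFun h 0) 0
  have h01 := congrFun (congrFun h 0) 1
  have h11 := congrFun (congrFun h 1) 1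
  simp only [Matrix.mul_apply, Fin.sum_univ_two, Matrix.transpose_apply, Matrix.one_apply_eq,
    ne_eq, zero_ne_one, not_false_eq_true, Matrix.one_apply_ne] at h00 h01 h11
  rw [Matrix.det_fin_two] at hd1
  have e1 : M 1 1 = M 0 0 := by
    linear_combination (-(M 1 1)) * h00 + M 1 0 * h01 + (M 0 0) * hd1
  have e2 : M 0 1 = -M 1 0 := by
    linear_combination (-(M 0 1)) * h00 + (M 0 0) * h01 - (M 1 0) * hd1
  refine ⟨e1, e2, by linear_combination h00⟩

theorem hKact_det (g : Gp) : 0 < (mt g).det := by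
  have := g.2
  exact (Matrix.mem_glpos _ |>.1 g.2)

theorem hKact_ang (M : Mat2) (h : Mᵀ * M = 1) (hd : 0 < M.det) : ∃ s : ℝ, M = rot s := by
  obtain ⟨e1, e2, e3⟩ := hKact_so M h hd
  have hn : ‖(⟨M 0 0, M 1 0⟩ : ℂ)‖ = 1 := by
    have : ‖(⟨M 0 0, M 1 0⟩ : ℂ)‖ ^ 2 = 1 := by
      rw [← Complex.normSq_eq_norm_sq, Complex.normSq_mk]
      linarith [e3, sq (M 0 0), sq (M 1 0)]
    have h0 := norm_nonneg (⟨M 0 0, M 1 0⟩ : ℂ)
    nlinarith
  refine ⟨Complex.arg ⟨M 0 0, M 1 0⟩, ?_⟩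
  have hre := Complex.norm_mul_cos_arg (⟨M 0 0, M 1 0⟩ : ℂ)
  have him := Complex.norm_mul_sin_arg (⟨M 0 0, M 1 0⟩ : ℂ)
  rw [hn, one_mul] at hre him
  ext i j
  fin_cases i <;> fin_cases j <;> simp [rot, hre, him, e1, e2]

theorem hKact_zc (g : Gp) (s : ℝ) (h : mt g = rot s) : zc g = Complex.exp (-Complex.I * s) := by
  have : -Complex.I * (s : ℂ) = ((-s : ℝ) : ℂ) * Complex.I := by push_cast; ring
  rw [this, Complex.exp_mul_I, ← Complex.ofReal_cos, ← Complex.ofReal_sin]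
  apply Complex.ext
  · simp [zc, h, rot, Complex.cos_ofReal_re, Complex.sin_ofReal_re]
  · simp [zc, h, rot, Complex.cos_ofReal_re, Complex.sin_ofReal_re]

theorem hKact_rotmul (s t : ℝ) : rot s * rot t = rot (s + t) := by
  ext i j
  fin_cases i <;> fin_cases j <;>
    simp [rot, Matrix.mul_apply, Fin.sum_univ_two, Real.cos_add, Real.sin_add] <;> ring

theorem hKact_rot0 : rot 0 = 1 := by
  ext i j
  fin_cases i <;> fin_cases j <;> simp [rot]

theorem hKact_inv (g : Gp) (s : ℝ) (h : mt g = rot s) : mt g⁻¹ = rot (-s) := by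
  have h1 : mt g⁻¹ * mt g = 1 := by
    have : (g⁻¹ * g : Gp) = 1 := inv_mul_cancel g
    have h2 : mt (g⁻¹ * g) = 1 := by rw [this]; rfl
    exact h2
  have h2 : rot s * rot (-s) = 1 := by rw [hKact_rotmul, add_neg_cancel, hKact_rot0]
  calc mt g⁻¹ = mt g⁻¹ * (rot s * rot (-s)) := by rw [h2, mul_one]
    _ = (mt g⁻¹ * mt g) * rot (-s) := by rw [h, mul_assoc]
    _ = rot (-s) := by rw [h1, one_mul]

/-- the elements of `K` -/
theorem hKact_K (k : maxCompact rho) : ∃ s t : ℝ, mt k.1.1 = rot s ∧ mt k.1.2 = rot t := by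
  obtain ⟨h1, h2⟩ := hKact_orth k
  obtain ⟨s, hs⟩ := hKact_ang _ h1 (hKact_det _)
  obtain ⟨t, ht⟩ := hKact_ang _ h2 (hKact_det _)
  exact ⟨s, t, hs, ht⟩

theorem hKact_kst {I : Type} (M : TMod I) (k : Gd) (s t : ℝ) (hs : mt k.1 = rot s)
    (ht : mt k.2 = rot t) : kapFun M k = M.kst s t := by
  unfold kapFun TMod.kst
  congr 1
  funext i
  rw [hKact_zc _ s hs, hKact_zc _ t ht, ← Complex.exp_int_mul, ← Complex.exp_int_mul,
    ← Complex.exp_add]
  congr 1
  ring

theorem hKact_zcne (k : maxCompact rho) : zc k.1.1 ≠ 0 ∧ zc k.1.2 ≠ 0 := by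
  obtain ⟨s, t, hs, ht⟩ := hKact_K k
  rw [hKact_zc _ s hs, hKact_zc _ t ht]
  exact ⟨Complex.exp_ne_zero _, Complex.exp_ne_zero _⟩

theorem hKact_zccont : Continuous zc := by
  have h : Continuous (fun g : Gp => mt g) := Units.continuous_val.comp continuous_subtype_val
  have h1 : Continuous (fun g : Gp => mt g 0 0) := h.matrix_elem 0 0
  have h2 : Continuous (fun g : Gp => mt g 1 0) := h.matrix_elem 1 0
  have : zc = fun g : Gp => ((mt g 0 0 : ℝ) : ℂ) + ((-(mt g 1 0) : ℝ) : ℂ) * Complex.I := by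
    funext g
    apply Complex.ext <;> simp [zc]
  rw [this]
  exact (Complex.continuous_ofReal.comp h1).add
    ((Complex.continuous_ofReal.comp h2.neg).mul continuous_const)

theorem hKact_dg {I : Type} (c : I → ℂ) (v : I →₀ ℂ) :
    dg c v = ∑ i ∈ v.support, (v i * c i) • (ee i : I →₀ ℂ) := by
  unfold dg
  rw [Finsupp.linearCombination_apply, Finsupp.sum]
  refine Finset.sum_congr rfl fun i _ => ?_
  rw [smul_smul]

theorem hKact_fdg {I : Type} (c : I → ℂ) (v : I →₀ ℂ) (f : (I →₀ ℂ) →ₗ[ℂ] ℂ) :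
    f (dg c v) = ∑ i ∈ v.support, (v i * c i) * f (ee i) := by
  rw [hKact_dg, map_sum]
  refine Finset.sum_congr rfl fun i _ => ?_
  rw [map_smul, smul_eq_mul]

theorem hKact_kap {I : Type} (M : TMod I) (k : maxCompact rho) :
    kap M k = dg fun i => zc k.1.1 ^ M.μ i * zc k.1.2 ^ M.ν i := rfl

/-- TARGET -/
theorem h_loc {I : Type} (M : TMod I) (h : M.Good) : IsLocFinCont (kap M) := by
  constructor
  · intro v
    have hfin : FiniteDimensional ℂ
        (Submodule.span ℂ (((fun i => (ee i : I →₀ ℂ)) '' (v.support : Set I)))) := by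
      apply FiniteDimensional.span_of_finite
      exact (v.support.finite_toSet).image _
    refine Submodule.finiteDimensional_of_le (S₂ :=
      Submodule.span ℂ (((fun i => (ee i : I →₀ ℂ)) '' (v.support : Set I)))) ?_
    rw [Submodule.span_le]
    rintro _ ⟨k, rfl⟩
    show kap M k v ∈ _
    rw [hKact_kap, hKact_dg]
    refine Submodule.sum_mem _ fun i hi => Submodule.smul_mem _ _ (Submodule.subset_span ?_)
    exact ⟨i, hi, rfl⟩
  · intro v f
    have : (fun k : maxCompact rho => f (kap M k v)) = fun k : maxCompact rho =>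
        ∑ i ∈ v.support, (v i * (zc k.1.1 ^ M.μ i * zc k.1.2 ^ M.ν i)) * f (ee i) := by
      funext k
      rw [hKact_kap, hKact_fdg]
    rw [this]
    refine continuous_finsetSum _ fun i _ => ?_
    have c1 : Continuous fun k : maxCompact rho => zc k.1.1 :=
      hKact_zccont.comp (continuous_fst.comp continuous_subtype_val)
    have c2 : Continuous fun k : maxCompact rho => zc k.1.2 :=
      hKact_zccont.comp (continuous_snd.comp continuous_subtype_val)
    exact (continuous_const.mul ((c1.zpow₀ (M.μ i) fun k => Or.inl (hKact_zcne k).1).mul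
      (c2.zpow₀ (M.ν i) fun k => Or.inl (hKact_zcne k).2))).mul continuous_const

/-- TARGET -/
theorem h_compat {I : Type} (M : TMod I) (h : M.Good) : IsCompatible (lieAct M) (kap M) := by
  intro k X Z hZ
  obtain ⟨s, t, hs, ht⟩ := hKact_K k
  have hk : kap M k = M.kst s t := hKact_kst M k.1 s t hs ht
  have e1 : Z.1 = blkHom (mt k.1.1 * b1 X.1 * mt (k.1.1)⁻¹, mt k.1.2 * b2 X.1 * mt (k.1.2)⁻¹) := by
    have hinv : (((rho k.1)⁻¹ : GL (Fin 4) ℝ) : Mat 4) = blkHom (mt (k.1.1)⁻¹, mt (k.1.2)⁻¹) := by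
      rw [← map_inv]
      rfl
    calc Z.1 = ((rho k.1 : GL (Fin 4) ℝ) : Mat 4) * X.1 * (((rho k.1)⁻¹ : GL (Fin 4) ℝ) : Mat 4) := hZ
      _ = blkHom (mt k.1.1, mt k.1.2) * blkHom (b1 X.1, b2 X.1) *
          blkHom (mt (k.1.1)⁻¹, mt (k.1.2)⁻¹) := by
          rw [hinv, hKact_rho]
          nth_rewrite 1 [aux_block X]
          rfl
      _ = _ := by
          rw [← map_mul, ← map_mul]
          rfl
  have e2 : b1 Z.1 = rot s * b1 X.1 * rot (-s) := by
    rw [e1, hKact_b1, hs, hKact_inv _ s hs]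
  have e3 : b2 Z.1 = rot t * b2 X.1 * rot (-t) := by
    rw [e1, hKact_b2, ht, hKact_inv _ t ht]
  rw [hk]
  unfold lieAct
  rw [e2, e3]
  exact h.rot s t _ _

theorem hKact_exp (X : Mat 4) (i j : Fin 4) :
    HasDerivAt (fun t : ℝ => (exp (t • X) : Mat 4) i j) (X i j) 0 := by
  let _ : NormedRing (Mat 4) := Matrix.linftyOpNormedRing
  let _ : NormedAlgebra ℝ (Mat 4) := Matrix.linftyOpNormedAlgebra
  have h1 : HasDerivAt (fun t : ℝ => (exp (t • X) : Mat 4)) (exp ((0 : ℝ) • X) * X) 0 :=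
    hasDerivAt_exp_smul_const (𝕂 := ℝ) X 0
  rw [zero_smul, NormedSpace.exp_zero, one_mul] at h1
  have h2 := hasDerivAt_pi.1 h1 i
  exact hasDerivAt_pi.1 h2 j

/-- the curve of the first block and its velocity -/
theorem hKact_vel (γ : ℝ → Gp) (Y : Mat2) (ho : ∀ t, (mt (γ t))ᵀ * mt (γ t) = 1)
    (h0 : mt (γ 0) = 1) (hd : ∀ i j, HasDerivAt (fun t : ℝ => mt (γ t) i j) (Y i j) 0) :
    Y = (Y 1 0) • Jm ∧ HasDerivAt (fun t : ℝ => zc (γ t)) (-Complex.I * (Y 1 0 : ℂ)) 0 ∧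
      zc (γ 0) = 1 := by
  have hso := fun t => hKact_so (mt (γ t)) (ho t) (hKact_det _)
  have y11 : Y 1 1 = Y 0 0 := by
    have h1 := hd 1 1
    have : (fun t : ℝ => mt (γ t) 1 1) = fun t : ℝ => mt (γ t) 0 0 := funext fun t => (hso t).1
    rw [this] at h1
    exact h1.unique (hd 0 0)
  have y01 : Y 0 1 = -Y 1 0 := by
    have h1 := hd 0 1
    have : (fun t : ℝ => mt (γ t) 0 1) = fun t : ℝ => -(mt (γ t) 1 0) := funext fun t => (hso t).2.1
    rw [this] at h1
    exact h1.unique (hd 1 0).neg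
  have y00 : Y 0 0 = 0 := by
    have h1 := ((hd 0 0).mul (hd 0 0)).add ((hd 1 0).mul (hd 1 0))
    have h2 : ((fun t : ℝ => mt (γ t) 0 0) * (fun t : ℝ => mt (γ t) 0 0) +
        (fun t : ℝ => mt (γ t) 1 0) * (fun t : ℝ => mt (γ t) 1 0)) = fun _ => (1 : ℝ) := by
      funext t
      have := (hso t).2.2
      simp only [Pi.add_apply, Pi.mul_apply]
      linarith [sq (mt (γ t) 0 0), sq (mt (γ t) 1 0)]
    rw [h2] at h1
    have h3 := h1.unique (hasDerivAt_const (0 : ℝ) (1 : ℝ))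
    rw [h0] at h3
    simp at h3
    linarith
  refine ⟨?_, ?_, ?_⟩
  · ext i j
    fin_cases i <;> fin_cases j <;> simp [Jm, y00, y01, y11]
  · have hz : (fun t : ℝ => zc (γ t)) = fun t : ℝ =>
        ((mt (γ t) 0 0 : ℝ) : ℂ) + (-Complex.I) * ((mt (γ t) 1 0 : ℝ) : ℂ) := by
      funext t
      apply Complex.ext <;> simp [zc]
    rw [hz]
    have h1 := (hd 0 0).ofReal_comp
    have h2 := (hd 1 0).ofReal_comp.const_mul (-Complex.I)
    have h3 := h1.fun_add h2
    rw [y00] at h3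
    simpa using h3
  · apply Complex.ext <;> simp [zc, h0]

theorem hKact_zpow (z : ℝ → ℂ) (d : ℂ) (hz : HasDerivAt z d 0) (h0 : z 0 = 1) (m : ℤ) :
    HasDerivAt (fun t : ℝ => z t ^ m) ((m : ℂ) * d) 0 := by
  have h1 : HasDerivAt (fun x : ℂ => x ^ m) ((m : ℂ) * (z 0) ^ (m - 1)) (z 0) :=
    hasDerivAt_zpow m (z 0) (Or.inl (by rw [h0]; exact one_ne_zero))
  have h2 := HasDerivAt.comp (0 : ℝ) h1 hz
  rw [h0, _root_.one_zpow, mul_one] at h2
  exact h2

/-- TARGET -/
theorem h_deriv {I : Type} (M : TMod I) (h : M.Good) : IsDerivative (lieAct M) (kap M) := by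
  intro X γ hγ hK v f
  obtain ⟨hc, hadd, hexp⟩ := hγ
  have hblk : ∀ t : ℝ, blkHom (mt (γ t).1, mt (γ t).2) = exp (t • X.1) := fun t => hexp t
  have hγ0 : γ 0 = 1 := by
    have h1 := hadd 0 0
    rw [add_zero] at h1
    exact left_eq_mul.1 h1
  have hor := fun t => hKact_orth ⟨γ t, hK t⟩
  have hd1 : ∀ i j, HasDerivAt (fun t : ℝ => mt (γ t).1 i j) (b1 X.1 i j) 0 := by
    intro i j
    have h1 := hKact_exp X.1 (Fin.castAdd 2 i) (Fin.castAdd 2 j)
    have h2 : (fun t : ℝ => mt (γ t).1 i j) =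
        fun t : ℝ => (exp (t • X.1) : Mat 4) (Fin.castAdd 2 i) (Fin.castAdd 2 j) := by
      funext t
      rw [← hblk t]
      exact (congrFun (congrFun (hKact_b1 (mt (γ t).1, mt (γ t).2)) i) j).symm
    rw [h2]
    exact h1
  have hd2 : ∀ i j, HasDerivAt (fun t : ℝ => mt (γ t).2 i j) (b2 X.1 i j) 0 := by
    intro i j
    have h1 := hKact_exp X.1 (Fin.natAdd 2 i) (Fin.natAdd 2 j)
    have h2 : (fun t : ℝ => mt (γ t).2 i j) =
        fun t : ℝ => (exp (t • X.1) : Mat 4) (Fin.natAdd 2 i) (Fin.natAdd 2 j) := by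
      funext t
      rw [← hblk t]
      exact (congrFun (congrFun (hKact_b2 (mt (γ t).1, mt (γ t).2)) i) j).symm
    rw [h2]
    exact h1
  obtain ⟨x1, z1, w1⟩ := hKact_vel (fun t => (γ t).1) (b1 X.1) (fun t => (hor t).1)
    (by rw [hγ0]; rfl) hd1
  obtain ⟨x2, z2, w2⟩ := hKact_vel (fun t => (γ t).2) (b2 X.1) (fun t => (hor t).2)
    (by rw [hγ0]; rfl) hd2
  generalize b1 X.1 1 0 = x at x1 z1
  generalize b2 X.1 1 0 = y at x2 z2
  -- the operator
  have hA : ∀ i, lieAct M X (ee i) = ((M.μ i : ℂ) * (-Complex.I * x) + (M.ν i : ℂ) * (-Complex.I * y)) • (ee i : I →₀ ℂ) := by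
    intro i
    have a1 : lieAct M X = (x : ℂ) • M.A Jm 0 + (y : ℂ) • M.A 0 Jm := by
      unfold lieAct
      have s1 := h.add (x • Jm) 0 0 (y • Jm)
      have s2 := h.smul x Jm 0
      have s3 := h.smul y 0 Jm
      rw [smul_zero] at s2 s3
      rw [add_zero, zero_add, s2, s3] at s1
      rw [x1, x2]
      exact s1
    rw [a1, LinearMap.add_apply, LinearMap.smul_apply, LinearMap.smul_apply, h.J1, h.J2,
      smul_smul, smul_smul, ← add_smul]
    congr 1
    ring
  have hv : f (lieAct M X v) = ∑ i ∈ v.support,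
      (v i * ((M.μ i : ℂ) * (-Complex.I * x) + (M.ν i : ℂ) * (-Complex.I * y))) * f (ee i) := by
    have e : v = ∑ i ∈ v.support, v i • (ee i : I →₀ ℂ) := by
      conv_lhs => rw [← Finsupp.sum_single v]
      rw [Finsupp.sum]
      refine Finset.sum_congr rfl fun i _ => ?_
      rw [Finsupp.smul_single, smul_eq_mul, mul_one]
    conv_lhs => rw [e]
    rw [map_sum, map_sum]
    refine Finset.sum_congr rfl fun i _ => ?_
    rw [map_smul, hA i, smul_smul, map_smul, smul_eq_mul]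
  rw [hv]
  have hfun : (fun t : ℝ => f (kap M ⟨γ t, hK t⟩ v)) = fun t : ℝ =>
      ∑ i ∈ v.support, (v i * (zc (γ t).1 ^ M.μ i * zc (γ t).2 ^ M.ν i)) * f (ee i) := by
    funext t
    rw [hKact_kap, hKact_fdg]
  rw [hfun]
  refine HasDerivAt.fun_sum fun i _ => ?_
  refine HasDerivAt.mul_const ?_ _
  refine HasDerivAt.const_mul _ ?_
  have p1 := hKact_zpow (fun t => zc (γ t).1) _ z1 w1 (M.μ i)
  have p2 := hKact_zpow (fun t => zc (γ t).2) _ z2 w2 (M.ν i)
  have p3 := p1.fun_mul p2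
  simp only [w1, w2, _root_.one_zpow, mul_one, one_mul] at p3
  exact p3

end Pool.Agent.H913.LG
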