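import Pool.Agent.H913.LG.HLie
import Pool.Agent.H913.LG.HKact
import Pool.Agent.H913.LG.HAdm

open Matrix NormedSpace
open scoped Matrix ComplexConjugate

namespace Pool.Agent.H913.LG

open Pool.Agent.H913.SGP

theorem aux_lie {I : Type} (M : TMod I) (h : M.Good) : IsLieRep (lieAct M) := h_lie M h

theorem aux_loc {I : Type} (M : TMod I) (h : M.Good) : IsLocFinCont (kap M) := h_loc M h

theorem aux_compat {I : Type} (M : TMod I) (h : M.Good) : IsCompatible (lieAct M) (kap M) :=
  h_compat M h

theorem aux_deriv {I : Type} (M : TMod I) (h : M.Good) : IsDerivative (lieAct M) (kap M) :=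
  h_deriv M h

theorem aux_fg {I : Type} (M : TMod I) (h : M.Good) : IsFinGen (lieAct M) := h_fg M h

theorem aux_adm {I : Type} (M : TMod I) (h : M.Good) : IsAdmissible (kap M) := h_adm M h

end Pool.Agent.H913.LG
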