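import Pool.Agent.H913.LG.HBlock

open Matrix NormedSpace
open scoped Matrix ComplexConjugate

namespace Pool.Agent.H913.LG

open Pool.Agent.H913.SGP

theorem aux_block (X : LieAlg GRd) : X.1 = blkHom (b1 X.1, b2 X.1) := h_block X

theorem aux_one {I : Type} (M : TMod I) : kapFun M 1 = 1 := h_one M

theorem aux_mul {I : Type} (M : TMod I) (k l : maxCompact rho) :
    kapFun M (k.1 * l.1) = kapFun M k.1 * kapFun M l.1 := h_mul M k l

/-- the action of `K` -/
noncomputable def kap {I : Type} (M : TMod I) : maxCompact rho →* Module.End ℂ (I →₀ ℂ) where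
  toFun := fun k => kapFun M k.1
  map_one' := aux_one M
  map_mul' := aux_mul M

/-- the action of the Lie algebra -/
noncomputable def lieAct {I : Type} (M : TMod I) (X : LieAlg GRd) : Module.End ℂ (I →₀ ℂ) :=
  M.A (b1 X.1) (b2 X.1)

end Pool.Agent.H913.LG
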