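import Pool.Agent.H913.LG.Defs

open Matrix NormedSpace
open scoped Matrix ComplexConjugate

namespace Pool.Agent.H913.LG

open Pool.Agent.H913.SGP

/-- the character of `SO(2)` -/
noncomputable def zc (g : Gp) : ℂ := ⟨mt g 0 0, -(mt g 1 0)⟩

/-- the action of `K`, as a function on `G` -/
noncomputable def kapFun {I : Type} (M : TMod I) (k : Gd) : Module.End ℂ (I →₀ ℂ) :=
  dg fun i => zc k.1 ^ M.μ i * zc k.2 ^ M.ν i

end Pool.Agent.H913.LG
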