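import Pool.Agent.H913.LG.HCBase

open Matrix NormedSpace
open scoped Matrix ComplexConjugate

namespace Pool.Agent.H913.LG

open Pool.Agent.H913.SGP

/-- the index equivalence -/
abbrev hLie_e : Fin 2 ⊕ Fin 2 ≃ Fin 4 := finSumFinEquiv (m := 2) (n := 2)

theorem hLie_entry (p : Mat2 × Mat2) (a b : Fin 2 ⊕ Fin 2) :
    blkHom p (hLie_e a) (hLie_e b) = Matrix.fromBlocks p.1 0 0 p.2 a b := by
  show Matrix.fromBlocks p.1 0 0 p.2 (hLie_e.symm (hLie_e a)) (hLie_e.symm (hLie_e b)) = _
  rw [Equiv.symm_apply_apply, Equiv.symm_apply_apply]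

theorem hLie_ext {X Y : Mat 4} (h : ∀ a b, X (hLie_e a) (hLie_e b) = Y (hLie_e a) (hLie_e b)) :
    X = Y := by
  ext i j
  have := h (hLie_e.symm i) (hLie_e.symm j)
  rwa [Equiv.apply_symm_apply, Equiv.apply_symm_apply] at this

theorem hLie_b1_blk (p : Mat2 × Mat2) : b1 (blkHom p) = p.1 := by
  ext i j
  exact hLie_entry p (Sum.inl i) (Sum.inl j)

theorem hLie_b2_blk (p : Mat2 × Mat2) : b2 (blkHom p) = p.2 := by
  ext i j
  exact hLie_entry p (Sum.inr i) (Sum.inr j)

/-- block diagonal matrices, as a ring homomorphism -/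
def hLie_ring : Mat2 × Mat2 →+* Mat 4 :=
  { blkHom with
    map_zero' := by
      show blkHom 0 = 0
      refine hLie_ext fun a b => ?_
      rw [hLie_entry]
      simp
    map_add' := by
      intro p q
      show blkHom (p + q) = blkHom p + blkHom q
      refine hLie_ext fun a b => ?_
      rw [Matrix.add_apply, hLie_entry, hLie_entry, hLie_entry]
      rcases a with a | a <;> rcases b with b | b <;> simp }

theorem hLie_ring_apply (p : Mat2 × Mat2) : hLie_ring p = blkHom p := rfl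

theorem hLie_smul (t : ℝ) (p : Mat2 × Mat2) : t • blkHom p = blkHom (t • p) := by
  refine hLie_ext fun a b => ?_
  rw [Matrix.smul_apply, hLie_entry, hLie_entry]
  rcases a with a | a <;> rcases b with b | b <;> simp

theorem hLie_cont : Continuous fun p : Mat2 × Mat2 => blkHom p := by
  refine continuous_matrix fun i j => ?_
  have h : ∀ p : Mat2 × Mat2, blkHom p i j =
      Matrix.fromBlocks p.1 0 0 p.2 (hLie_e.symm i) (hLie_e.symm j) := fun _ => rfl
  simp only [h]
  rcases hLie_e.symm i with a | a <;> rcases hLie_e.symm j with b | b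
  · exact continuous_fst.matrix_elem a b
  · exact continuous_const
  · exact continuous_const
  · exact continuous_snd.matrix_elem a b

open scoped Matrix.Norms.Operator in
theorem hLie_exp (p : Mat2 × Mat2) : exp (blkHom p) = blkHom (exp p.1, exp p.2) := by
  have h1 : hLie_ring (exp p) = exp (hLie_ring p) := map_exp hLie_ring hLie_cont p
  rw [hLie_ring_apply, hLie_ring_apply] at h1
  rw [← h1]
  congr 1
  exact Prod.ext (Prod.fst_exp p) (Prod.snd_exp p)

theorem hLie_exists (A D : Mat2) : ∃ X : LieAlg GRd, b1 X.1 = A ∧ b2 X.1 = D := by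
  refine ⟨⟨blkHom (A, D), fun t => ?_⟩, hLie_b1_blk _, hLie_b2_blk _⟩
  refine ⟨blkU ((Matrix.isUnit_exp (t • A)).unit, (Matrix.isUnit_exp (t • D)).unit), ⟨_, rfl⟩, ?_⟩
  rw [hLie_smul, hLie_exp]
  rfl

/-- TARGET -/
theorem h_lie {I : Type} (M : TMod I) (h : M.Good) : IsLieRep (lieAct M) := by
  refine ⟨fun X Y Z hZ => ?_, fun c X Z hZ => ?_, fun X Y Z hZ => ?_⟩
  · unfold lieAct
    rw [hZ, ← h.add]
    rfl
  · unfold lieAct
    rw [hZ, ← h.smul]
    rfl
  · unfold lieAct
    rw [← h.br, hZ]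
    have h1 : bracket X.1 Y.1 = hLie_ring (b1 X.1, b2 X.1) * hLie_ring (b1 Y.1, b2 Y.1) -
        hLie_ring (b1 Y.1, b2 Y.1) * hLie_ring (b1 X.1, b2 X.1) := by
      rw [bracket, hLie_ring_apply, hLie_ring_apply, ← aux_block X, ← aux_block Y]
    rw [h1, ← map_mul, ← map_mul, ← map_sub, hLie_ring_apply, hLie_b1_blk, hLie_b2_blk]
    rfl

/-- TARGET -/
theorem h_fg {I : Type} (M : TMod I) (h : M.Good) : IsFinGen (lieAct M) := by
  obtain ⟨S, hS⟩ := h.fg
  refine ⟨S, fun W hW hSW => hS W (fun A D v hv => ?_) hSW⟩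
  obtain ⟨X, h1, h2⟩ := hLie_exists A D
  have h3 := hW X v hv
  unfold lieAct at h3
  rwa [h1, h2] at h3

end Pool.Agent.H913.LG
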