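import Pool.Agent.H913.LG.Stmts

open Matrix NormedSpace
open scoped Matrix ComplexConjugate

namespace Pool.Agent.H913.LG

open Pool.Agent.H913.SGP

/-! Base norms. -/

theorem mBase_weight_of_continuous {w : Gd → ℝ} (hpos : ∀ g, 0 < w g) (hc : Continuous w)
    (hmul : ∀ g h, w (g * h) ≤ w g * w h) : IsWeight w := by
  refine ⟨hpos, fun g => ⟨{x | w x < w g + 1}, ?_, w g + 1, fun x hx => le_of_lt hx⟩, hmul⟩
  exact (isOpen_lt hc continuous_const).mem_nhds (by show w g < w g + 1; linarith)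

theorem mBase_det_pos (g : Gp) : 0 < (mt g).det := g.2

theorem mBase_xx_mul (g h : Gd) : xx (g * h) = xx g + xx h := by
  unfold xx
  have h1 : (mt (g * h).1).det = (mt g.1).det * (mt h.1).det := by
    have : mt (g * h).1 = mt g.1 * mt h.1 := rfl
    rw [this, Matrix.det_mul]
  rw [h1, Real.log_mul (mBase_det_pos _).ne' (mBase_det_pos _).ne']

theorem mBase_xx_cont : Continuous xx := by
  unfold xx
  have h1 : Continuous fun g : Gd => mt g.1 :=
    Units.continuous_val.comp (continuous_subtype_val.comp continuous_fst)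
  have h2 : Continuous fun g : Gd => (mt g.1).det := h1.matrix_det
  exact h2.log fun g => (mBase_det_pos _).ne'

theorem mBase_w1 : IsWeight (fun _ : Gd => (1 : ℝ)) :=
  mBase_weight_of_continuous (fun _ => one_pos) continuous_const (fun _ _ => by norm_num)

theorem mBase_wxx : IsWeight (fun g : Gd => 1 + |xx g|) := by
  refine mBase_weight_of_continuous (fun g => by positivity)
    (continuous_const.add mBase_xx_cont.abs) (fun g h => ?_)
  rw [mBase_xx_mul]
  have h1 := abs_add_le (xx g) (xx h)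
  have h2 : 0 ≤ |xx g| * |xx h| := by positivity
  nlinarith

theorem mBase_wAA (h1 : S_AA) : IsWeight (fun g : Gd => Real.sqrt (AA g.2)) := by
  obtain ⟨ha, hb, -, hc, -⟩ := h1
  refine mBase_weight_of_continuous (fun g => Real.sqrt_pos.2 (by have := ha g.2; linarith))
    (Real.continuous_sqrt.comp (hc.comp continuous_snd)) (fun g h => ?_)
  rw [← Real.sqrt_mul (by have := ha g.2; linarith)]
  exact Real.sqrt_le_sqrt (hb g.2 h.2)

/-- the `l¹` norm of the coordinates -/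
noncomputable def mBase_l1 {I : Type} (v : I →₀ ℂ) : ℝ := v.sum fun _ c => ‖c‖

theorem mBase_l1_nonneg {I : Type} (v : I →₀ ℂ) : 0 ≤ mBase_l1 v :=
  Finset.sum_nonneg fun _ _ => norm_nonneg _

theorem mBase_l1_ee {I : Type} (i : I) : mBase_l1 (ee i) = 1 := by
  unfold mBase_l1 ee
  rw [Finsupp.sum_single_index (by exact norm_zero)]
  exact norm_one

theorem mBase_gen (h2 : S_tay) (h3 : S_fam) (h4 : S_kfin) {I : Type} (M : TMod I) (h : M.Good)
    (sz : I → ℕ) (hsz : M.Size sz) (W : Gd → ℝ) (hW : IsWeight W) (Ω : Type) (E : Ω → Type)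
    [∀ a, NormedAddCommGroup (E a)] [∀ a, NormedSpace ℂ (E a)] [∀ a, CompleteSpace (E a)]
    (F : ∀ a, (I →₀ ℂ) → Gd → E a) (hF : ∀ a, PreFam (M.toHC h) (F a))
    (hb : ∀ a v g, ‖F a v g‖ ≤ mBase_l1 v * W g) (hinj : ∀ v, (∀ a g, F a v g = 0) → v = 0) :
    IsNormIn1 (M.toHC h) W (famNorm W E F) ∧ PB sz (famNorm W E F) := by
  have hWp : ∀ g, 0 < W g := hW.1
  have hfam : IsFam (M.toHC h) W E F :=
    ⟨fun a => (hF a).add, fun a => (hF a).smul, fun a => (hF a).deriv, fun a => (hF a).K,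
      fun v => ⟨mBase_l1 v, fun a g => hb a v g⟩, hinj⟩
  have hle : ∀ v (x : Ω × Gd), ‖F x.1 v x.2‖ / W x.2 ≤ mBase_l1 v := fun v x => by
    rw [div_le_iff₀ (hWp _)]
    exact hb x.1 v x.2
  have hbdd : ∀ v, BddAbove (Set.range fun x : Ω × Gd => ‖F x.1 v x.2‖ / W x.2) := fun v =>
    ⟨mBase_l1 v, by rintro _ ⟨x, rfl⟩; exact hle v x⟩
  have hfle : ∀ v (x : Ω × Gd), ‖F x.1 v x.2‖ / W x.2 ≤ famNorm W E F v := fun v x =>
    le_ciSup (hbdd v) x
  have hn0 : ∀ v, 0 ≤ famNorm W E F v := fun v =>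
    Real.iSup_nonneg fun x => div_nonneg (norm_nonneg _) (hWp _).le
  have hsn : IsSN (famNorm W E F) := by
    refine ⟨hn0, fun u v => ?_, fun c v => ?_⟩
    · refine Real.iSup_le (fun x => ?_) (add_nonneg (hn0 u) (hn0 v))
      rw [(hF x.1).add]
      refine le_trans ?_ (add_le_add (hfle u x) (hfle v x))
      rw [← add_div]
      exact div_le_div_of_nonneg_right (norm_add_le _ _) (hWp _).le
    · unfold famNorm
      rw [Real.mul_iSup_of_nonneg (norm_nonneg c)]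
      refine congrArg _ (funext fun x => ?_)
      rw [(hF x.1).smul, norm_smul, mul_div_assoc]
  have hpb : PB sz (famNorm W E F) := by
    refine ⟨1, 0, fun i => ?_⟩
    rw [pow_zero, mul_one]
    refine Real.iSup_le (fun x => ?_) zero_le_one
    have := hle (ee i) x
    rwa [mBase_l1_ee] at this
  exact ⟨h3 _ (M.toHC h) (h4 I M h) W hW Ω E F hfam (h2 I M h sz hsz _ hsn hpb), hpb⟩

/-- TARGET -/
theorem m_base (h1 : S_AA) (h2 : S_tay) (h3 : S_fam) (h4 : S_kfin) (h5 : S_pre0) (h6 : S_preU)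
    (h7 : S_preD) (h8 : S_preT) (h9 : S_bd) (h10 : S_inj) (h11 : S_good0) (h12 : S_goodU)
    (h13 : S_goodD) (h14 : S_goodT) : S_base := by
  obtain ⟨b0, bU, bD, bT⟩ := h9
  obtain ⟨i0, -, iU, -, iD, -, iT⟩ := h10
  refine ⟨⟨mBase_w1, fun h => ?_⟩, ⟨mBase_wxx, fun h => ?_⟩, ⟨mBase_wAA h1, fun h => ?_⟩,
    fun h => ?_⟩
  · refine mBase_gen h2 h3 h4 M0 h sz0 h11.2 _ mBase_w1 Sc (fun _ => ℂ) (fun w => F0 w)
      (fun w => h5 h w.1 w.2.le) (fun w v g => ?_) (fun v hv => i0 v fun w hw => hv ⟨w, hw⟩ 1)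
    rw [mul_one]
    exact b0 w.1 v g w.2.le
  · exact mBase_gen h2 h3 h4 MU h sz1 h12.2 _ mBase_wxx Sc (fun _ => Fin 2 → ℂ) (fun w => FU w)
      (fun w => h6 h w.1 w.2.le) (fun w v g => bU w.1 v g w.2.le)
      (fun v hv => iU v fun w hw => hv ⟨w, hw⟩ 1)
  · exact mBase_gen h2 h3 h4 MD h sz1 h13.2 _ (mBase_wAA h1) Sc (fun _ => Fin 2 → ℂ)
      (fun w => FD w) (fun w => h7 h w.1 w.2.le) (fun w v g => bD w.1 v g w.2.le)
      (fun v hv => iD v fun w hw => hv ⟨w, hw⟩ 1)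
  · refine mBase_gen h2 h3 h4 MT h szT h14.2 _ mBase_w1 (Sc × Sc) (fun _ => ℂ)
      (fun w => FT (w.1.1, w.2.1)) (fun w => h8 h (w.1.1, w.2.1) w.1.2.le w.2.2.le)
      (fun w v g => ?_) (fun v hv => iT v fun w hw hw' => hv (⟨w.1, hw⟩, ⟨w.2, hw'⟩) 1)
    rw [mul_one]
    exact bT (w.1.1, w.2.1) v g w.1.2.le w.2.2.le

end Pool.Agent.H913.LG
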