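import Pool.Agent.H913.LG.Stmts

/- PROJECT LG (owner helper913): MP_c67f28_al, MP_d7c545_al, MP_a304db_al, MP_6a3a89_al: norms on Harish-Chandra modules of
G = GL(2,R)+ x GL(2,R)+ (Gd below); common infrastructure.
SETUP (once per box, about 2 minutes):
  cd /workdir/pool/outputs/live && git fetch -q origin && mkdir -p /workdir/pool/Pool/Agent/H913/LG /workdir/pool/Pool/Agent/H913/SGP && git show origin/main:Pool/Agent/H913/SGP/Definitions.lean > /workdir/pool/Pool/Agent/H913/SGP/Definitions.lean && for f in Defs HCBase HCAux Mod Stmts; do git show origin/helper913:Pool/Agent/H913/LG/$f.lean > /workdir/pool/Pool/Agent/H913/LG/$f.lean; done; cd /workdir/pool && lake build Pool.Agent.H913.LG.Stmts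
(ignore the sorry warnings of HCBase and HCAux: these are other jobs.) Read Defs, HCBase, Mod, Stmts first (short).
Put this file at Pool/Agent/H913/LG/MBd.lean, replace the sorry of the TARGET by a proof; auxiliary lemmas before it are
welcome (give them names starting with mBd_ to avoid clashes). Statement of the target unchanged. Hypotheses (h1 : S_xxx) of the
target are proved elsewhere, use them freely. No sorry, no axioms. Respect RULES.md Validity 2 (banned words such as notation,
macro, syntax, prefix, tactic; no straight double quotes; no line comment starting in odd places).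
If the target is false or awkward, message helper913 at once (the statement will be fixed).
Paste the whole compiled file in jobs.result with status='done', done_at=now(), then: team-sql notify inbox_helper913 done -/

open Matrix NormedSpace
open scoped Matrix ComplexConjugate

namespace Pool.Agent.H913.LG

open Pool.Agent.H913.SGP

/-! Proof. |pw m z| ≤ 1 for |z| ≤ 1; |mobI g w| ≤ 1 (S_AA). Norm on Fin 2 → ℂ is the sup norm. |sg g j k| ≤ (|al|+|be|)/sqrt det = sqrt (AA g). -/

theorem mBd_pw (m : ℤ) (z : ℂ) (hz : ‖z‖ ≤ 1) : ‖pw m z‖ ≤ 1 := by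
  unfold pw
  split_ifs
  · rw [norm_pow]
    exact pow_le_one₀ (norm_nonneg _) hz
  · rw [norm_pow]
    refine pow_le_one₀ (norm_nonneg _) ?_
    simpa using hz

theorem mBd_sum {I : Type} (v : I →₀ ℂ) (h : I → ℂ) (B : ℝ) (hB : ∀ i, ‖h i‖ ≤ B) :
    ‖v.sum fun i c => c * h i‖ ≤ (v.sum fun _ c => ‖c‖) * B := by
  unfold Finsupp.sum
  rw [Finset.sum_mul]
  refine norm_sum_le_of_le _ fun i _ => ?_
  rw [norm_mul]
  exact mul_le_mul_of_nonneg_left (hB i) (norm_nonneg _)

theorem mBd_nonneg {I : Type} (v : I →₀ ℂ) : 0 ≤ v.sum fun _ c => ‖c‖ :=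
  Finset.sum_nonneg fun _ _ => norm_nonneg _

theorem mBd_sg (g : Gp) (j k : Fin 2) : ‖sg g j k‖ ≤ Real.sqrt (AA g) := by
  have hdet : 0 < (mt g).det := by
    have := g.2
    exact this
  have hs : 0 < Real.sqrt (mt g).det := Real.sqrt_pos.mpr hdet
  have hA : Real.sqrt (AA g) = (‖al (mt g)‖ + ‖be (mt g)‖) / Real.sqrt (mt g).det := by
    unfold AA
    rw [Real.sqrt_div (sq_nonneg _), Real.sqrt_sq (by positivity)]
  rw [hA]
  unfold sg
  rw [norm_div, Complex.norm_real, Real.norm_eq_abs, abs_of_pos hs]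
  refine div_le_div_of_nonneg_right ?_ hs.le
  have h1 : 0 ≤ ‖al (mt g)‖ := norm_nonneg _
  have h2 : 0 ≤ ‖be (mt g)‖ := norm_nonneg _
  split_ifs
  · linarith
  · linarith
  · rw [RCLike.norm_conj]; linarith
  · rw [RCLike.norm_conj]; linarith

/-- TARGET -/
theorem m_bd (h1 : S_AA) : S_bd := by
  have hm : ∀ (g : Gp) (z : ℂ), ‖z‖ ≤ 1 → ‖mobI g z‖ ≤ 1 := h1.2.2.2.2.2.2.2.2.2.1
  refine ⟨?_, ?_, ?_, ?_⟩
  · intro w v g hw
    have h := mBd_sum v (fun m => pw m (mobI g.1 w)) 1 (fun m => mBd_pw m _ (hm _ _ hw))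
    rw [mul_one] at h
    exact h
  · intro w v g hw
    rw [pi_norm_le_iff_of_nonneg (mul_nonneg (mBd_nonneg v) (by positivity))]
    intro j
    have h := mBd_sum v (fun i => pw i.1 (mobI g.1 w) *
      (if j = 0 then (if i.2 = 0 then 1 else (xx g : ℂ)) else (if i.2 = 0 then 0 else 1)))
      (1 + |xx g|) (fun i => by
        rw [norm_mul]
        have h1 := mBd_pw i.1 _ (hm g.1 w hw)
        have h2 : ‖(if j = 0 then (if i.2 = 0 then 1 else (xx g : ℂ))
            else (if i.2 = 0 then 0 else 1) : ℂ)‖ ≤ 1 + |xx g| := by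
          have := abs_nonneg (xx g)
          split_ifs
          · rw [norm_one]; linarith
          · rw [Complex.norm_real, Real.norm_eq_abs]; linarith
          · rw [norm_zero]; linarith
          · rw [norm_one]; linarith
        calc _ ≤ 1 * (1 + |xx g|) := mul_le_mul h1 h2 (norm_nonneg _) zero_le_one
          _ = _ := one_mul _)
    simp only [← mul_assoc] at h
    exact h
  · intro w v g hw
    rw [pi_norm_le_iff_of_nonneg (mul_nonneg (mBd_nonneg v) (Real.sqrt_nonneg _))]
    intro j
    have h := mBd_sum v (fun i => pw i.1 (mobI g.1 w) * sg g.2 j i.2) (Real.sqrt (AA g.2))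
      (fun i => by
        rw [norm_mul]
        calc _ ≤ 1 * Real.sqrt (AA g.2) :=
              mul_le_mul (mBd_pw i.1 _ (hm g.1 w hw)) (mBd_sg _ _ _) (norm_nonneg _) zero_le_one
          _ = _ := one_mul _)
    simp only [← mul_assoc] at h
    exact h
  · intro w v g hw1 hw2
    have h := mBd_sum v (fun i => pw i.1 (mobI g.1 w.1) * pw i.2 (mobI g.2 w.2)) 1 (fun i => by
      rw [norm_mul]
      calc _ ≤ 1 * (1 : ℝ) := mul_le_mul (mBd_pw i.1 _ (hm g.1 w.1 hw1))
            (mBd_pw i.2 _ (hm g.2 w.2 hw2)) (norm_nonneg _) zero_le_one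
        _ = _ := one_mul _)
    rw [mul_one] at h
    exact h

end Pool.Agent.H913.LG
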