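import Pool.Agent.H913.LG.Stmts

open Matrix NormedSpace
open scoped Matrix ComplexConjugate

namespace Pool.Agent.H913.LG

open Pool.Agent.H913.SGP

theorem mGood0_ext {I : Type} {f g : Module.End ℂ (I →₀ ℂ)} (h : ∀ m, f (ee m) = g (ee m)) :
    f = g :=
  Finsupp.lhom_ext' fun a => LinearMap.ext_ring (h a)

theorem mGood0_vfm (X : Mat2) (m : ℤ) :
    vfm X m = (-(m : ℂ) * be X) • ee (m - 1) + (-(m : ℂ) * (2 * Complex.I * ((al X).im : ℂ))) • ee m +
      ((m : ℂ) * conj (be X)) • ee (m + 1) := by
  simp only [vfm, ee, Finsupp.smul_single, smul_eq_mul, mul_one]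

theorem mGood0_A (X Y : Mat2) (m : ℤ) : M0.A X Y (ee m) = vfm X m := by
  simp only [M0, ee, Finsupp.linearCombination_single, one_smul]

theorem mGood0_dg {I : Type} (c : I → ℂ) (i : I) : dg c (ee i) = c i • ee i := by
  simp only [dg, ee, Finsupp.linearCombination_single, one_smul]

theorem mGood0_al_add (X X' : Mat2) : al (X + X') = al X + al X' := by
  apply Complex.ext <;> simp [al] <;> ring

theorem mGood0_be_add (X X' : Mat2) : be (X + X') = be X + be X' := by
  apply Complex.ext <;> simp [be] <;> ring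

theorem mGood0_al_smul (c : ℝ) (X : Mat2) : al (c • X) = (c : ℂ) * al X := by
  apply Complex.ext <;> simp [al] <;> ring

theorem mGood0_be_smul (c : ℝ) (X : Mat2) : be (c • X) = (c : ℂ) * be X := by
  apply Complex.ext <;> simp [be] <;> ring

theorem mGood0_al_br (X X' : Mat2) : 2 * Complex.I * ((al (X * X' - X' * X)).im : ℂ) =
    2 * (be X * conj (be X') - be X' * conj (be X)) := by
  apply Complex.ext <;>
    simp [al, be, Matrix.mul_apply, Fin.sum_univ_two] <;> ring

theorem mGood0_be_br (X X' : Mat2) : be (X * X' - X' * X) =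
    2 * Complex.I * ((al X).im : ℂ) * be X' - 2 * Complex.I * ((al X').im : ℂ) * be X := by
  apply Complex.ext <;>
    simp [al, be, Matrix.mul_apply, Fin.sum_univ_two] <;> ring

theorem mGood0_rot (s : ℝ) : rot s 0 0 = Real.cos s ∧ rot s 0 1 = -Real.sin s ∧
    rot s 1 0 = Real.sin s ∧ rot s 1 1 = Real.cos s := by
  simp [rot]

theorem mGood0_rotn (s : ℝ) : rot (-s) 0 0 = Real.cos s ∧ rot (-s) 0 1 = Real.sin s ∧
    rot (-s) 1 0 = -Real.sin s ∧ rot (-s) 1 1 = Real.cos s := by
  simp [rot]

theorem mGood0_al_rot (s : ℝ) (X : Mat2) : al (rot s * X * rot (-s)) = al X := by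
  have h := Real.sin_sq_add_cos_sq s
  obtain ⟨a1, a2, a3, a4⟩ := mGood0_rot s
  obtain ⟨b1, b2, b3, b4⟩ := mGood0_rotn s
  apply Complex.ext
  · simp only [al, Matrix.mul_apply, Fin.sum_univ_two, a1, a2, a3, a4, b1, b2, b3, b4]
    linear_combination (X 0 0 + X 1 1) / 2 * h
  · simp only [al, Matrix.mul_apply, Fin.sum_univ_two, a1, a2, a3, a4, b1, b2, b3, b4]
    linear_combination (X 1 0 - X 0 1) / 2 * h

theorem mGood0_be_rot (s : ℝ) (X : Mat2) : be (rot s * X * rot (-s)) =
    Complex.exp (2 * Complex.I * s) * be X := by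
  have h := Real.sin_sq_add_cos_sq s
  obtain ⟨a1, a2, a3, a4⟩ := mGood0_rot s
  obtain ⟨b1, b2, b3, b4⟩ := mGood0_rotn s
  have e1 : Complex.exp (2 * Complex.I * s) =
      ⟨Real.cos s ^ 2 - Real.sin s ^ 2, 2 * Real.sin s * Real.cos s⟩ := by
    have : (2 * Complex.I * s : ℂ) = ((2 * s : ℝ) : ℂ) * Complex.I := by push_cast; ring
    rw [this, Complex.exp_mul_I, ← Complex.ofReal_cos, ← Complex.ofReal_sin]
    apply Complex.ext
    · simp only [Complex.add_re, Complex.ofReal_re, Complex.mul_re, Complex.I_re, Complex.I_im,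
        Complex.ofReal_im, Real.cos_two_mul]
      linear_combination h
    · simp only [Complex.add_im, Complex.ofReal_re, Complex.mul_im, Complex.I_re, Complex.I_im,
        Complex.ofReal_im, Real.sin_two_mul]
      ring
  rw [e1]
  apply Complex.ext
  · simp only [be, Matrix.mul_apply, Fin.sum_univ_two, a1, a2, a3, a4, b1, b2, b3, b4,
      Complex.mul_re]
    ring
  · simp only [be, Matrix.mul_apply, Fin.sum_univ_two, a1, a2, a3, a4, b1, b2, b3, b4,
      Complex.mul_im]
    ring

theorem mGood0_al_Jm : al Jm = Complex.I := by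
  apply Complex.ext <;> simp [al, Jm]

theorem mGood0_be_Jm : be Jm = 0 := by
  apply Complex.ext <;> simp [be, Jm]

theorem mGood0_br (X X' : Mat2) (m : ℤ) :
    vfm (X * X' - X' * X) m =
      Finsupp.linearCombination ℂ (vfm X) (vfm X' m) - Finsupp.linearCombination ℂ (vfm X') (vfm X m) := by
  have hA : ∀ (Z : Mat2) (k : ℤ), Finsupp.linearCombination ℂ (vfm Z) (ee k) = vfm Z k := by
    intro Z k
    simp only [ee, Finsupp.linearCombination_single, one_smul]
  have hc : conj (be (X * X' - X' * X)) =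
      -(2 * Complex.I * ((al X).im : ℂ)) * conj (be X') + 2 * Complex.I * ((al X').im : ℂ) * conj (be X) := by
    rw [mGood0_be_br]
    simp only [map_sub, map_mul, Complex.conj_ofReal, Complex.conj_I, map_ofNat]
    ring
  rw [mGood0_vfm X' m, mGood0_vfm X m, mGood0_vfm (X * X' - X' * X) m]
  simp only [map_add, map_smul, hA]
  simp only [mGood0_vfm]
  rw [hc, mGood0_al_br, mGood0_be_br]
  have i1 : m - 1 + 1 = m := by ring
  have i2 : m + 1 - 1 = m := by ring
  rw [i1, i2]
  push_cast
  module

theorem mGood0_good : M0.Good where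
  add := by
    intro X X' Y Y'
    refine mGood0_ext fun m => ?_
    rw [LinearMap.add_apply, mGood0_A, mGood0_A, mGood0_A]
    simp only [mGood0_vfm, mGood0_al_add, mGood0_be_add, map_add, Complex.add_im]
    push_cast
    module
  smul := by
    intro c X Y
    refine mGood0_ext fun m => ?_
    rw [LinearMap.smul_apply, mGood0_A, mGood0_A]
    simp only [mGood0_vfm, mGood0_al_smul, mGood0_be_smul, map_mul, Complex.conj_ofReal,
      Complex.im_ofReal_mul]
    push_cast
    module
  br := by
    intro X X' Y Y'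
    refine mGood0_ext fun m => ?_
    rw [LinearMap.sub_apply, Module.End.mul_apply, Module.End.mul_apply, mGood0_A, mGood0_A,
      mGood0_A]
    exact mGood0_br X X' m
  rot := by
    intro s t X Y
    refine mGood0_ext fun m => ?_
    rw [Module.End.mul_apply, Module.End.mul_apply, mGood0_A]
    have hk : ∀ k : ℤ, M0.kst s t (ee k) = Complex.exp (-Complex.I * ((2 * k : ℂ) * s)) • ee k := by
      intro k
      rw [TMod.kst, mGood0_dg]
      congr 2
      simp only [M0]
      push_cast
      ring
    rw [hk, map_smul, mGood0_A, mGood0_vfm, mGood0_vfm, mGood0_al_rot, mGood0_be_rot]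
    simp only [map_add, map_smul, hk, map_mul, ← Complex.exp_conj, Complex.conj_ofReal,
      Complex.conj_I, map_ofNat, smul_add, smul_smul]
    have e1 : Complex.exp (-Complex.I * (2 * ((m - 1 : ℤ) : ℂ) * s)) =
        Complex.exp (-Complex.I * (2 * (m : ℂ) * s)) * Complex.exp (2 * Complex.I * s) := by
      rw [← Complex.exp_add]
      congr 1
      push_cast
      ring
    have e2 : Complex.exp (-Complex.I * (2 * ((m + 1 : ℤ) : ℂ) * s)) =
        Complex.exp (-Complex.I * (2 * (m : ℂ) * s)) * Complex.exp (2 * -Complex.I * s) := by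
      rw [← Complex.exp_add]
      congr 1
      push_cast
      ring
    rw [e1, e2]
    module
  J1 := by
    intro m
    rw [mGood0_A, mGood0_vfm, mGood0_al_Jm, mGood0_be_Jm]
    simp only [M0, Complex.I_im, map_zero, mul_zero, zero_smul, zero_add, add_zero]
    congr 1
    push_cast
    ring
  J2 := by
    intro m
    rw [mGood0_A, mGood0_vfm]
    have h1 : al 0 = 0 := by apply Complex.ext <;> simp [al]
    have h2 : be 0 = 0 := by apply Complex.ext <;> simp [be]
    simp [M0, h1, h2]
  fib := by
    intro a b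
    refine Set.Finite.subset (Set.finite_singleton (a / 2)) ?_
    intro i hi
    have h1 : (2 : ℤ) * i = a := hi.1
    have h2 : i = a / 2 := by omega
    exact h2
  fg := by
    refine ⟨{ee 1, ee (-1)}, fun W hW hS => ?_⟩
    have h1 : ee (1 : ℤ) ∈ W := hS (by simp)
    have h2 : ee (-1 : ℤ) ∈ W := hS (by simp)
    have halX : al !![1, 0; 0, -1] = 0 := by apply Complex.ext <;> simp [al]
    have hbeX : be !![1, 0; 0, -1] = 1 := by apply Complex.ext <;> simp [be]
    have halX' : al !![0, 1; 1, 0] = 0 := by apply Complex.ext <;> simp [al]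
    have hbeX' : be !![0, 1; 1, 0] = Complex.I := by apply Complex.ext <;> simp [be]
    have hX : ∀ m : ℤ, M0.A !![1, 0; 0, -1] 0 (ee m) =
        (-(m : ℂ)) • ee (m - 1) + (m : ℂ) • ee (m + 1) := by
      intro m
      rw [mGood0_A, mGood0_vfm, halX, hbeX]
      simp
    have hX' : ∀ m : ℤ, M0.A !![0, 1; 1, 0] 0 (ee m) =
        (-(m : ℂ) * Complex.I) • ee (m - 1) + (-(m : ℂ) * Complex.I) • ee (m + 1) := by
      intro m
      rw [mGood0_A, mGood0_vfm, halX', hbeX']
      simp
    have hdown : ∀ m : ℤ, m ≠ 0 → ee m ∈ W → ee (m - 1) ∈ W := by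
      intro m hm hmW
      have h3 := hW !![1, 0; 0, -1] 0 _ hmW
      have h4 := hW !![0, 1; 1, 0] 0 _ hmW
      have h5 := W.sub_mem h3 (W.smul_mem Complex.I h4)
      have h6 := W.smul_mem (-(2 * (m : ℂ)))⁻¹ h5
      have hm' : (m : ℂ) ≠ 0 := by exact_mod_cast hm
      have h7 : (-(2 * (m : ℂ)))⁻¹ • (M0.A !![1, 0; 0, -1] 0 (ee m) -
          Complex.I • M0.A !![0, 1; 1, 0] 0 (ee m)) = ee (m - 1) := by
        rw [hX, hX']
        have h8 : (-(m : ℂ)) • ee (m - 1) + (m : ℂ) • ee (m + 1) -
            Complex.I • ((-(m : ℂ) * Complex.I) • ee (m - 1) + (-(m : ℂ) * Complex.I) • ee (m + 1)) =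
            (-(2 * (m : ℂ))) • ee (m - 1) := by
          rw [smul_add, smul_smul, smul_smul]
          have h9 : Complex.I * (-(m : ℂ) * Complex.I) = m := by
            linear_combination (-(m : ℂ)) * Complex.I_mul_I
          rw [h9]
          module
        rw [h8, smul_smul, inv_mul_cancel₀ (neg_ne_zero.2 (mul_ne_zero two_ne_zero hm')), one_smul]
      rwa [h7] at h6
    have hup : ∀ m : ℤ, m ≠ 0 → ee m ∈ W → ee (m + 1) ∈ W := by
      intro m hm hmW
      have h3 := hW !![1, 0; 0, -1] 0 _ hmW
      have h4 := hW !![0, 1; 1, 0] 0 _ hmW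
      have h5 := W.add_mem h3 (W.smul_mem Complex.I h4)
      have h6 := W.smul_mem (2 * (m : ℂ))⁻¹ h5
      have hm' : (m : ℂ) ≠ 0 := by exact_mod_cast hm
      have h7 : (2 * (m : ℂ))⁻¹ • (M0.A !![1, 0; 0, -1] 0 (ee m) +
          Complex.I • M0.A !![0, 1; 1, 0] 0 (ee m)) = ee (m + 1) := by
        rw [hX, hX']
        have h8 : (-(m : ℂ)) • ee (m - 1) + (m : ℂ) • ee (m + 1) +
            Complex.I • ((-(m : ℂ) * Complex.I) • ee (m - 1) + (-(m : ℂ) * Complex.I) • ee (m + 1)) =
            (2 * (m : ℂ)) • ee (m + 1) := by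
          rw [smul_add, smul_smul, smul_smul]
          have h9 : Complex.I * (-(m : ℂ) * Complex.I) = m := by
            linear_combination (-(m : ℂ)) * Complex.I_mul_I
          rw [h9]
          module
        rw [h8, smul_smul, inv_mul_cancel₀ (mul_ne_zero two_ne_zero hm'), one_smul]
      rwa [h7] at h6
    have hp : ∀ n : ℕ, ee ((n : ℤ) + 1) ∈ W := by
      intro n
      induction n with
      | zero => simpa using h1
      | succ n ih =>
        have := hup _ (by omega) ih
        push_cast
        exact this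
    have hn : ∀ n : ℕ, ee (-(n : ℤ) - 1) ∈ W := by
      intro n
      induction n with
      | zero => simpa using h2
      | succ n ih =>
        have := hdown _ (by omega) ih
        have e : -((n + 1 : ℕ) : ℤ) - 1 = -(n : ℤ) - 1 - 1 := by push_cast; ring
        rw [e]
        exact this
    have h0 : ee (0 : ℤ) ∈ W := by
      have := hdown 1 one_ne_zero h1
      simpa using this
    have hall : ∀ m : ℤ, ee m ∈ W := by
      intro m
      rcases lt_trichotomy m 0 with h | h | h
      · have := hn (-m - 1).toNat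
        have e : -(((-m - 1).toNat : ℕ) : ℤ) - 1 = m := by omega
        rwa [e] at this
      · rw [h]
        exact h0
      · have := hp (m - 1).toNat
        have e : (((m - 1).toNat : ℕ) : ℤ) + 1 = m := by omega
        rwa [e] at this
    rw [eq_top_iff]
    intro v _
    induction v using Finsupp.induction_linear with
    | zero => exact W.zero_mem
    | add f g hf hg => exact W.add_mem (hf trivial) (hg trivial)
    | single a b =>
      have : Finsupp.single a b = b • ee a := by simp [ee]
      rw [this]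
      exact W.smul_mem _ (hall a)

/-- the `ℓ¹` norm is subadditive -/
theorem mGood0_l1_add {I : Type} (u v : I →₀ ℂ) :
    ((u + v).sum fun _ c => ‖c‖) ≤ (u.sum fun _ c => ‖c‖) + v.sum fun _ c => ‖c‖ := by
  classical
  rw [Finsupp.sum_of_support_subset (u + v) Finsupp.support_add _ (fun _ _ => norm_zero),
    Finsupp.sum_of_support_subset u (Finset.subset_union_left (s₂ := v.support)) _
      (fun _ _ => norm_zero),
    Finsupp.sum_of_support_subset v (Finset.subset_union_right (s₁ := u.support)) _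
      (fun _ _ => norm_zero), ← Finset.sum_add_distrib]
  exact Finset.sum_le_sum fun i _ => norm_add_le _ _

theorem mGood0_l1_single {I : Type} (i : I) (c : ℂ) :
    ((Finsupp.single i c).sum fun _ c => ‖c‖) = ‖c‖ := by
  exact Finsupp.sum_single_index norm_zero

theorem mGood0_vfm_supp (X : Mat2) (i : ℤ) : ∀ j ∈ (vfm X i).support, j.natAbs ≤ i.natAbs + 1 := by
  classical
  intro j hj
  have h1 : j = i - 1 ∨ j = i ∨ j = i + 1 := by
    by_contra hcon
    push Not at hcon
    rw [Finsupp.mem_support_iff] at hj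
    apply hj
    simp only [vfm, Finsupp.add_apply, Finsupp.single_apply]
    rw [if_neg (Ne.symm hcon.1), if_neg (Ne.symm hcon.2.1), if_neg (Ne.symm hcon.2.2)]
    simp
  omega

theorem mGood0_vfm_l1 (X : Mat2) (i : ℤ) : ((vfm X i).sum fun _ c => ‖c‖) ≤
    (2 * ‖be X‖ + 2 * |(al X).im|) * (i.natAbs : ℝ) := by
  have h1 : ‖(i : ℂ)‖ = (i.natAbs : ℝ) := by
    rw [Complex.norm_intCast, Nat.cast_natAbs, Int.cast_abs]
  have h2 : ((vfm X i).sum fun _ c => ‖c‖) ≤ ‖-(i : ℂ) * be X‖ +
      ‖-(i : ℂ) * (2 * Complex.I * ((al X).im : ℂ))‖ + ‖(i : ℂ) * conj (be X)‖ := by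
    unfold vfm
    refine (mGood0_l1_add _ _).trans (add_le_add ((mGood0_l1_add _ _).trans (add_le_add ?_ ?_)) ?_)
    · rw [mGood0_l1_single]
    · rw [mGood0_l1_single]
    · rw [mGood0_l1_single]
  refine h2.trans (le_of_eq ?_)
  rw [norm_mul, norm_mul, norm_mul, norm_mul, norm_mul, norm_neg, h1, RCLike.norm_conj,
    Complex.norm_I, Complex.norm_real, Complex.norm_two, Real.norm_eq_abs]
  ring

theorem mGood0_size : M0.Size sz0 where
  supp := by
    intro X Y i j hj
    rw [mGood0_A] at hj
    exact mGood0_vfm_supp X i j hj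
  bd := by
    intro X Y
    refine ⟨2 * ‖be X‖ + 2 * |(al X).im|, fun i => ?_⟩
    rw [mGood0_A]
    refine (mGood0_vfm_l1 X i).trans ?_
    refine mul_le_mul_of_nonneg_left ?_ (by positivity)
    simp only [sz0]
    linarith

/-- TARGET -/
theorem mGood0 : S_good0 := ⟨mGood0_good, mGood0_size⟩

end Pool.Agent.H913.LG
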