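import Pool.Agent.H913.LG.Stmts

open Matrix NormedSpace
open scoped Matrix ComplexConjugate

namespace Pool.Agent.H913.LG

open Pool.Agent.H913.SGP

/-! Proof. The operators are combinations of six basic operators which satisfy the relations of two copies of `sl₂`. -/

/-- lowering operator in the first factor -/
noncomputable def mGoodD_Lm : Module.End ℂ (ℤ × Fin 2 →₀ ℂ) :=
  Finsupp.linearCombination ℂ fun i => Finsupp.single (i.1 - 1, i.2) (-(i.1 : ℂ))

/-- diagonal operator in the first factor -/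
noncomputable def mGoodD_L0 : Module.End ℂ (ℤ × Fin 2 →₀ ℂ) :=
  Finsupp.linearCombination ℂ fun i => Finsupp.single (i.1, i.2) (-(i.1 : ℂ))

/-- raising operator in the first factor -/
noncomputable def mGoodD_Lp : Module.End ℂ (ℤ × Fin 2 →₀ ℂ) :=
  Finsupp.linearCombination ℂ fun i => Finsupp.single (i.1 + 1, i.2) (i.1 : ℂ)

/-- diagonal operator in the second factor -/
noncomputable def mGoodD_N0 : Module.End ℂ (ℤ × Fin 2 →₀ ℂ) :=
  Finsupp.linearCombination ℂ fun i => Finsupp.single (i.1, i.2) (if i.2 = 0 then (1 : ℂ) else -1)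

/-- `e₁ ↦ e₀` -/
noncomputable def mGoodD_Np : Module.End ℂ (ℤ × Fin 2 →₀ ℂ) :=
  Finsupp.linearCombination ℂ fun i => Finsupp.single (i.1, 0) (if i.2 = 0 then (0 : ℂ) else 1)

/-- `e₀ ↦ e₁` -/
noncomputable def mGoodD_Nm : Module.End ℂ (ℤ × Fin 2 →₀ ℂ) :=
  Finsupp.linearCombination ℂ fun i => Finsupp.single (i.1, 1) (if i.2 = 0 then (1 : ℂ) else 0)

theorem mGoodD_Lm_s (m : ℤ) (e : Fin 2) (c : ℂ) :
    mGoodD_Lm (Finsupp.single (m, e) c) = Finsupp.single (m - 1, e) (-(m : ℂ) * c) := by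
  simp [mGoodD_Lm, Finsupp.linearCombination_single, Finsupp.smul_single, mul_comm]

theorem mGoodD_L0_s (m : ℤ) (e : Fin 2) (c : ℂ) :
    mGoodD_L0 (Finsupp.single (m, e) c) = Finsupp.single (m, e) (-(m : ℂ) * c) := by
  simp [mGoodD_L0, Finsupp.linearCombination_single, Finsupp.smul_single, mul_comm]

theorem mGoodD_Lp_s (m : ℤ) (e : Fin 2) (c : ℂ) :
    mGoodD_Lp (Finsupp.single (m, e) c) = Finsupp.single (m + 1, e) ((m : ℂ) * c) := by
  simp [mGoodD_Lp, Finsupp.linearCombination_single, Finsupp.smul_single, mul_comm]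

theorem mGoodD_N0_s (m : ℤ) (e : Fin 2) (c : ℂ) :
    mGoodD_N0 (Finsupp.single (m, e) c) = Finsupp.single (m, e) (if e = 0 then c else -c) := by
  simp only [mGoodD_N0, Finsupp.linearCombination_single, Finsupp.smul_single, smul_eq_mul]
  split_ifs <;> simp

theorem mGoodD_Np_s (m : ℤ) (e : Fin 2) (c : ℂ) :
    mGoodD_Np (Finsupp.single (m, e) c) = Finsupp.single (m, 0) (if e = 0 then 0 else c) := by
  simp only [mGoodD_Np, Finsupp.linearCombination_single, Finsupp.smul_single, smul_eq_mul]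
  split_ifs <;> simp

theorem mGoodD_Nm_s (m : ℤ) (e : Fin 2) (c : ℂ) :
    mGoodD_Nm (Finsupp.single (m, e) c) = Finsupp.single (m, 1) (if e = 0 then c else 0) := by
  simp only [mGoodD_Nm, Finsupp.linearCombination_single, Finsupp.smul_single, smul_eq_mul]
  split_ifs <;> simp

theorem mGoodD_ext {S T : Module.End ℂ (ℤ × Fin 2 →₀ ℂ)}
    (h : ∀ (m : ℤ) (e : Fin 2), S (Finsupp.single (m, e) 1) = T (Finsupp.single (m, e) 1)) :
    S = T := by
  refine Finsupp.lhom_ext fun i c => ?_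
  have h1 : (Finsupp.single i c : ℤ × Fin 2 →₀ ℂ) = c • Finsupp.single i 1 := by
    rw [Finsupp.smul_single, smul_eq_mul, mul_one]
  rw [h1, map_smul, map_smul]
  exact congrArg _ (h i.1 i.2)

theorem mGoodD_r1 : mGoodD_L0 * mGoodD_Lm = mGoodD_Lm * mGoodD_L0 + mGoodD_Lm := by
  refine mGoodD_ext fun m e => ?_
  simp only [Module.End.mul_apply, LinearMap.add_apply, mGoodD_Lm_s, mGoodD_L0_s,
    ← Finsupp.single_add]
  congr 1
  push_cast
  ring

theorem mGoodD_r2 : mGoodD_Lp * mGoodD_L0 = mGoodD_L0 * mGoodD_Lp + mGoodD_Lp := by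
  refine mGoodD_ext fun m e => ?_
  simp only [Module.End.mul_apply, LinearMap.add_apply, mGoodD_Lp_s, mGoodD_L0_s,
    ← Finsupp.single_add]
  congr 1
  push_cast
  ring

theorem mGoodD_r3 : mGoodD_Lp * mGoodD_Lm = mGoodD_Lm * mGoodD_Lp - (2 : ℂ) • mGoodD_L0 := by
  refine mGoodD_ext fun m e => ?_
  simp only [Module.End.mul_apply, LinearMap.sub_apply, LinearMap.smul_apply, mGoodD_Lp_s,
    mGoodD_Lm_s, mGoodD_L0_s, Finsupp.smul_single, sub_add_cancel, add_sub_cancel_right,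
    ← Finsupp.single_sub]
  congr 1
  push_cast
  rw [smul_eq_mul]
  ring

theorem mGoodD_r4 : mGoodD_Np * mGoodD_N0 = mGoodD_N0 * mGoodD_Np - (2 : ℂ) • mGoodD_Np := by
  refine mGoodD_ext fun m e => ?_
  simp only [Module.End.mul_apply, LinearMap.sub_apply, LinearMap.smul_apply, mGoodD_N0_s,
    mGoodD_Np_s, Finsupp.smul_single, ← Finsupp.single_sub]
  congr 1
  fin_cases e <;> simp
  norm_num

theorem mGoodD_r5 : mGoodD_Nm * mGoodD_N0 = mGoodD_N0 * mGoodD_Nm + (2 : ℂ) • mGoodD_Nm := by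
  refine mGoodD_ext fun m e => ?_
  simp only [Module.End.mul_apply, LinearMap.add_apply, LinearMap.smul_apply, mGoodD_N0_s,
    mGoodD_Nm_s, Finsupp.smul_single, ← Finsupp.single_add]
  congr 1
  fin_cases e <;> simp
  norm_num

theorem mGoodD_r6 : mGoodD_Nm * mGoodD_Np = mGoodD_Np * mGoodD_Nm - mGoodD_N0 := by
  refine mGoodD_ext fun m e => ?_
  simp only [Module.End.mul_apply, LinearMap.sub_apply, mGoodD_N0_s,
    mGoodD_Nm_s, mGoodD_Np_s]
  fin_cases e <;> simp

theorem mGoodD_c1 : mGoodD_N0 * mGoodD_Lm = mGoodD_Lm * mGoodD_N0 := by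
  refine mGoodD_ext fun m e => ?_
  simp only [Module.End.mul_apply, mGoodD_N0_s, mGoodD_Lm_s]
  fin_cases e <;> simp

theorem mGoodD_c2 : mGoodD_N0 * mGoodD_L0 = mGoodD_L0 * mGoodD_N0 := by
  refine mGoodD_ext fun m e => ?_
  simp only [Module.End.mul_apply, mGoodD_N0_s, mGoodD_L0_s]
  fin_cases e <;> simp

theorem mGoodD_c3 : mGoodD_N0 * mGoodD_Lp = mGoodD_Lp * mGoodD_N0 := by
  refine mGoodD_ext fun m e => ?_
  simp only [Module.End.mul_apply, mGoodD_N0_s, mGoodD_Lp_s]
  fin_cases e <;> simp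

theorem mGoodD_c4 : mGoodD_Np * mGoodD_Lm = mGoodD_Lm * mGoodD_Np := by
  refine mGoodD_ext fun m e => ?_
  simp only [Module.End.mul_apply, mGoodD_Np_s, mGoodD_Lm_s]
  fin_cases e <;> simp

theorem mGoodD_c5 : mGoodD_Np * mGoodD_L0 = mGoodD_L0 * mGoodD_Np := by
  refine mGoodD_ext fun m e => ?_
  simp only [Module.End.mul_apply, mGoodD_Np_s, mGoodD_L0_s]
  fin_cases e <;> simp

theorem mGoodD_c6 : mGoodD_Np * mGoodD_Lp = mGoodD_Lp * mGoodD_Np := by
  refine mGoodD_ext fun m e => ?_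
  simp only [Module.End.mul_apply, mGoodD_Np_s, mGoodD_Lp_s]
  fin_cases e <;> simp

theorem mGoodD_c7 : mGoodD_Nm * mGoodD_Lm = mGoodD_Lm * mGoodD_Nm := by
  refine mGoodD_ext fun m e => ?_
  simp only [Module.End.mul_apply, mGoodD_Nm_s, mGoodD_Lm_s]
  fin_cases e <;> simp

theorem mGoodD_c8 : mGoodD_Nm * mGoodD_L0 = mGoodD_L0 * mGoodD_Nm := by
  refine mGoodD_ext fun m e => ?_
  simp only [Module.End.mul_apply, mGoodD_Nm_s, mGoodD_L0_s]
  fin_cases e <;> simp

theorem mGoodD_c9 : mGoodD_Nm * mGoodD_Lp = mGoodD_Lp * mGoodD_Nm := by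
  refine mGoodD_ext fun m e => ?_
  simp only [Module.End.mul_apply, mGoodD_Nm_s, mGoodD_Lp_s]
  fin_cases e <;> simp

/-- the operator with given coefficients -/
noncomputable def mGoodD_A (a b : ℂ) (a' b' : ℂ) : Module.End ℂ (ℤ × Fin 2 →₀ ℂ) :=
  b • mGoodD_Lm + (2 * a) • mGoodD_L0 + conj b • mGoodD_Lp + a' • mGoodD_N0 + b' • mGoodD_Np +
    conj b' • mGoodD_Nm

theorem mGoodD_A_s (a b a' b' : ℂ) (m : ℤ) (e : Fin 2) (c : ℂ) :
    mGoodD_A a b a' b' (Finsupp.single (m, e) c) =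
      Finsupp.single (m - 1, e) (b * (-(m : ℂ) * c)) + Finsupp.single (m, e) (2 * a * (-(m : ℂ) * c))
      + Finsupp.single (m + 1, e) (conj b * ((m : ℂ) * c)) +
      Finsupp.single (m, e) (a' * (if e = 0 then c else -c)) +
      Finsupp.single (m, 0) (b' * (if e = 0 then 0 else c)) +
      Finsupp.single (m, 1) (conj b' * (if e = 0 then c else 0)) := by
  simp only [mGoodD_A, LinearMap.add_apply, LinearMap.smul_apply, mGoodD_Lm_s, mGoodD_L0_s,
    mGoodD_Lp_s, mGoodD_N0_s, mGoodD_Np_s, mGoodD_Nm_s, Finsupp.smul_single, smul_eq_mul]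

theorem mGoodD_eq (X Y : Mat2) : MD.A X Y =
    mGoodD_A (Complex.I * ((al X).im : ℂ)) (be X) (Complex.I * ((al Y).im : ℂ)) (be Y) := by
  refine mGoodD_ext fun m e => ?_
  rw [mGoodD_A_s]
  simp only [MD, Finsupp.linearCombination_single, one_smul, vfm, Finsupp.mapDomain_add,
    Finsupp.mapDomain_single, mul_one]
  fin_cases e
  · simp only [Fin.zero_eta, if_true, mul_zero, Finsupp.single_zero, add_zero, mul_one]
    rw [show be X * -(m : ℂ) = -(m : ℂ) * be X by ring,
      show 2 * (Complex.I * ((al X).im : ℂ)) * -(m : ℂ) = -(m : ℂ) * (2 * Complex.I * ((al X).im : ℂ))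
        by ring, show conj (be X) * (m : ℂ) = (m : ℂ) * conj (be X) by ring]
    abel
  · simp only [Fin.mk_one, one_ne_zero, if_false, mul_zero, Finsupp.single_zero, add_zero, mul_one]
    rw [show be X * -(m : ℂ) = -(m : ℂ) * be X by ring,
      show 2 * (Complex.I * ((al X).im : ℂ)) * -(m : ℂ) = -(m : ℂ) * (2 * Complex.I * ((al X).im : ℂ))
        by ring, show conj (be X) * (m : ℂ) = (m : ℂ) * conj (be X) by ring,
      show Complex.I * ((al Y).im : ℂ) * -1 = -Complex.I * ((al Y).im : ℂ) by ring]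
    abel

/-- `i Im (al X)` -/
noncomputable def mGoodD_ia (X : Mat2) : ℂ := Complex.I * ((al X).im : ℂ)

theorem mGoodD_ia_conj (X : Mat2) : conj (mGoodD_ia X) = -mGoodD_ia X := by
  simp [mGoodD_ia]

theorem mGoodD_eq' (X Y : Mat2) : MD.A X Y =
    mGoodD_A (mGoodD_ia X) (be X) (mGoodD_ia Y) (be Y) := mGoodD_eq X Y

theorem mGoodD_ia_add (X Y : Mat2) : mGoodD_ia (X + Y) = mGoodD_ia X + mGoodD_ia Y := by
  simp only [mGoodD_ia, al, Matrix.add_apply]
  push_cast
  ring

theorem mGoodD_be_add (X Y : Mat2) : be (X + Y) = be X + be Y := by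
  apply Complex.ext <;> simp only [be, Matrix.add_apply, Complex.add_re, Complex.add_im] <;> ring

theorem mGoodD_ia_smul (c : ℝ) (X : Mat2) : mGoodD_ia (c • X) = (c : ℂ) * mGoodD_ia X := by
  simp only [mGoodD_ia, al, Matrix.smul_apply, smul_eq_mul]
  push_cast
  ring

theorem mGoodD_be_smul (c : ℝ) (X : Mat2) : be (c • X) = (c : ℂ) * be X := by
  apply Complex.ext <;> simp only [be, Matrix.smul_apply, smul_eq_mul, Complex.mul_re,
    Complex.mul_im, Complex.ofReal_re, Complex.ofReal_im] <;> ring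

theorem mGoodD_ia_br (X Y : Mat2) :
    mGoodD_ia (X * Y - Y * X) = be X * conj (be Y) - be Y * conj (be X) := by
  apply Complex.ext <;>
    simp only [mGoodD_ia, al, be, Matrix.sub_apply, Matrix.mul_apply, Fin.sum_univ_two,
      Complex.mul_re, Complex.mul_im, Complex.sub_re, Complex.sub_im, Complex.conj_re,
      Complex.conj_im, Complex.I_re, Complex.I_im, Complex.ofReal_re, Complex.ofReal_im] <;> ring

theorem mGoodD_be_br (X Y : Mat2) :
    be (X * Y - Y * X) = 2 * mGoodD_ia X * be Y - 2 * mGoodD_ia Y * be X := by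
  apply Complex.ext <;>
    simp only [mGoodD_ia, al, be, Matrix.sub_apply, Matrix.mul_apply, Fin.sum_univ_two,
      Complex.mul_re, Complex.mul_im, Complex.sub_re, Complex.sub_im,
      Complex.I_re, Complex.I_im, Complex.ofReal_re, Complex.ofReal_im, Complex.re_ofNat,
      Complex.im_ofNat] <;> ring

theorem mGoodD_ia_rot (s : ℝ) (X : Mat2) :
    mGoodD_ia (rot s * X * rot (-s)) = mGoodD_ia X := by
  have h := Real.sin_sq_add_cos_sq s
  have key : (al (rot s * X * rot (-s))).im = (al X).im := by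
    simp only [al, rot, Matrix.mul_apply, Fin.sum_univ_two, Matrix.of_apply, Matrix.cons_val',
      Matrix.cons_val_zero, Matrix.cons_val_one, Matrix.cons_val_fin_one, Real.cos_neg,
      Real.sin_neg]
    linear_combination ((X 1 0 - X 0 1) / 2) * h
  rw [mGoodD_ia, key]
  rfl

theorem mGoodD_be_rot (s : ℝ) (X : Mat2) :
    be (rot s * X * rot (-s)) = Complex.exp (2 * Complex.I * s) * be X := by
  have h := Real.sin_sq_add_cos_sq s
  have e1 : Complex.exp (2 * Complex.I * s) = ⟨Real.cos s ^ 2 - Real.sin s ^ 2,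
      2 * Real.sin s * Real.cos s⟩ := by
    have e2 : (2 * Complex.I * s : ℂ) = ((2 * s : ℝ) : ℂ) * Complex.I := by push_cast; ring
    rw [e2]
    apply Complex.ext
    · rw [Complex.exp_ofReal_mul_I_re, Real.cos_two_mul']
    · rw [Complex.exp_ofReal_mul_I_im, Real.sin_two_mul]
  rw [e1]
  apply Complex.ext
  · simp only [be, rot, Matrix.mul_apply, Fin.sum_univ_two, Matrix.of_apply, Matrix.cons_val',
      Matrix.cons_val_zero, Matrix.cons_val_one, Matrix.cons_val_fin_one, Real.cos_neg,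
      Real.sin_neg, Complex.mul_re]
    ring
  · simp only [be, rot, Matrix.mul_apply, Fin.sum_univ_two, Matrix.of_apply, Matrix.cons_val',
      Matrix.cons_val_zero, Matrix.cons_val_one, Matrix.cons_val_fin_one, Real.cos_neg,
      Real.sin_neg, Complex.mul_im]
    ring

theorem mGoodD_A_add (a b c d a' b' c' d' : ℂ) :
    mGoodD_A (a + a') (b + b') (c + c') (d + d') = mGoodD_A a b c d + mGoodD_A a' b' c' d' := by
  simp only [mGoodD_A, map_add]
  module

theorem mGoodD_A_smul (r : ℝ) (a b c d : ℂ) :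
    mGoodD_A (r * a) (r * b) (r * c) (r * d) = (r : ℂ) • mGoodD_A a b c d := by
  simp only [mGoodD_A, map_mul, Complex.conj_ofReal]
  module

theorem mGoodD_A_br (a b c d a' b' c' d' : ℂ) (ha : conj a = -a) (ha' : conj a' = -a')
    (hc : conj c = -c) (hc' : conj c' = -c') :
    mGoodD_A (b * conj b' - b' * conj b) (2 * a * b' - 2 * a' * b) (d * conj d' - d' * conj d)
      (2 * c * d' - 2 * c' * d) =
    mGoodD_A a b c d * mGoodD_A a' b' c' d' - mGoodD_A a' b' c' d' * mGoodD_A a b c d := by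
  have e1 : conj (2 * a * b' - 2 * a' * b) = -(2 * a * conj b') + 2 * a' * conj b := by
    simp only [map_sub, map_mul, ha, ha', map_ofNat]; ring
  have e2 : conj (2 * c * d' - 2 * c' * d) = -(2 * c * conj d') + 2 * c' * conj d := by
    simp only [map_sub, map_mul, hc, hc', map_ofNat]; ring
  rw [mGoodD_A, e1, e2]
  simp only [mGoodD_A, mul_add, add_mul, smul_mul_assoc, mul_smul_comm, smul_smul,
    mGoodD_r1, mGoodD_r2, mGoodD_r3, mGoodD_r4, mGoodD_r5, mGoodD_r6, mGoodD_c1, mGoodD_c2,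
    mGoodD_c3, mGoodD_c4, mGoodD_c5, mGoodD_c6, mGoodD_c7, mGoodD_c8, mGoodD_c9]
  module

theorem mGoodD_A_zero : mGoodD_A 0 0 0 0 = 0 := by
  simp [mGoodD_A]

theorem mGoodD_dg_s {I : Type} (k : I → ℂ) (i : I) (c : ℂ) :
    dg k (Finsupp.single i c) = Finsupp.single i (k i * c) := by
  simp [dg, Finsupp.linearCombination_single, Finsupp.smul_single, mul_comm]

/-- characters of the torus -/
noncomputable def mGoodD_k (s t : ℝ) (i : ℤ × Fin 2) : ℂ :=
  Complex.exp (-Complex.I * ((MD.μ i : ℂ) * s + (MD.ν i : ℂ) * t))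

theorem mGoodD_k1 (s t : ℝ) (m : ℤ) (e : Fin 2) :
    mGoodD_k s t (m - 1, e) = Complex.exp (2 * Complex.I * s) * mGoodD_k s t (m, e) := by
  rw [mGoodD_k, mGoodD_k, ← Complex.exp_add]
  congr 1
  simp only [MD]
  push_cast
  ring

theorem mGoodD_k2 (s t : ℝ) (m : ℤ) (e : Fin 2) :
    mGoodD_k s t (m, e) = Complex.exp (2 * Complex.I * s) * mGoodD_k s t (m + 1, e) := by
  rw [mGoodD_k, mGoodD_k, ← Complex.exp_add]
  congr 1
  simp only [MD]
  push_cast
  ring

theorem mGoodD_k3 (s t : ℝ) (m : ℤ) :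
    mGoodD_k s t (m, 0) = Complex.exp (2 * Complex.I * t) * mGoodD_k s t (m, 1) := by
  rw [mGoodD_k, mGoodD_k, ← Complex.exp_add]
  congr 1
  simp [MD]
  ring

theorem mGoodD_ec (s : ℝ) : conj (Complex.exp (2 * Complex.I * s)) * Complex.exp (2 * Complex.I * s) = 1 := by
  rw [← Complex.exp_conj, ← Complex.exp_add]
  have h2 : conj (2 : ℂ) = 2 := map_ofNat _ 2
  simp [h2]

theorem mGoodD_rot (s t : ℝ) (X Y : Mat2) : MD.kst s t * MD.A X Y =
    MD.A (rot s * X * rot (-s)) (rot t * Y * rot (-t)) * MD.kst s t := by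
  rw [mGoodD_eq', mGoodD_eq', mGoodD_ia_rot, mGoodD_ia_rot, mGoodD_be_rot, mGoodD_be_rot]
  have hk : MD.kst s t = dg (mGoodD_k s t) := rfl
  rw [hk]
  refine mGoodD_ext fun m e => ?_
  have hs := mGoodD_ec s
  have ht := mGoodD_ec t
  have k1 := mGoodD_k1 s t m e
  have k2 := mGoodD_k2 s t m e
  have k3 := mGoodD_k3 s t m
  set u := Complex.exp (2 * Complex.I * s)
  set v := Complex.exp (2 * Complex.I * t)
  simp only [Module.End.mul_apply, mGoodD_A_s, map_add, mGoodD_dg_s, map_mul]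
  have g1 : mGoodD_k s t (m - 1, e) * (be X * (-(m : ℂ) * 1)) =
      u * be X * (-(m : ℂ) * (mGoodD_k s t (m, e) * 1)) := by rw [k1]; ring
  have g2 : mGoodD_k s t (m + 1, e) * (conj (be X) * ((m : ℂ) * 1)) =
      conj u * conj (be X) * ((m : ℂ) * (mGoodD_k s t (m, e) * 1)) := by
    rw [k2]
    linear_combination (-(mGoodD_k s t (m + 1, e) * (conj (be X) * (m : ℂ)))) * hs
  rw [g1, g2]
  have k4 : mGoodD_k s t (m, 1) = conj v * mGoodD_k s t (m, 0) := by
    rw [k3]
    linear_combination (-(mGoodD_k s t (m, 1))) * ht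
  fin_cases e
  · simp only [Fin.zero_eta, if_true, mul_zero, Finsupp.single_zero, add_zero, mul_one]
    rw [k4]
    congr 1
    · congr 1
      · congr 1
        · congr 1
          congr 1
          ring
      · congr 1
        ring
    · congr 1
      ring
  · simp only [Fin.mk_one, one_ne_zero, if_false, mul_zero, Finsupp.single_zero, add_zero, mul_one]
    rw [k3]
    congr 1
    · congr 1
      · congr 1
        · congr 1
          congr 1
          ring
      · congr 1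
        ring
    · congr 1
      ring

theorem mGoodD_fib (a b : ℤ) : {i | MD.μ i = a ∧ MD.ν i = b}.Finite := by
  refine Set.Finite.subset ((Set.finite_singleton (a / 2)).prod (Set.finite_univ (α := Fin 2))) ?_
  rintro ⟨m, e⟩ ⟨h, -⟩
  refine ⟨?_, Set.mem_univ _⟩
  simp only [MD] at h
  simp only [Set.mem_singleton_iff]
  omega

theorem mGoodD_ia_J : mGoodD_ia Jm = Complex.I := by
  simp [mGoodD_ia, al, Jm]

theorem mGoodD_be_J : be Jm = 0 := by
  apply Complex.ext <;> simp [be, Jm]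

theorem mGoodD_ia_0 : mGoodD_ia 0 = 0 := by
  simp [mGoodD_ia, al]

theorem mGoodD_be_0 : be 0 = 0 := by
  apply Complex.ext <;> simp [be]

theorem mGoodD_J1 (i : ℤ × Fin 2) : MD.A Jm 0 (ee i) = (-Complex.I * (MD.μ i : ℂ)) • ee i := by
  obtain ⟨m, e⟩ := i
  rw [mGoodD_eq', mGoodD_ia_J, mGoodD_be_J, mGoodD_ia_0, mGoodD_be_0, mGoodD_A_s]
  simp only [map_zero, zero_mul, Finsupp.single_zero, add_zero, zero_add, Finsupp.smul_single,
    smul_eq_mul]
  congr 1
  simp only [MD]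
  push_cast
  ring

theorem mGoodD_J2 (i : ℤ × Fin 2) : MD.A 0 Jm (ee i) = (-Complex.I * (MD.ν i : ℂ)) • ee i := by
  obtain ⟨m, e⟩ := i
  rw [mGoodD_eq', mGoodD_ia_J, mGoodD_be_J, mGoodD_ia_0, mGoodD_be_0, mGoodD_A_s]
  simp only [map_zero, zero_mul, mul_zero, Finsupp.single_zero, add_zero, zero_add,
    Finsupp.smul_single, smul_eq_mul]
  congr 1
  fin_cases e <;> simp [MD]

theorem mGoodD_fg : ∃ S : Finset (ℤ × Fin 2 →₀ ℂ), ∀ W : Submodule ℂ (ℤ × Fin 2 →₀ ℂ),
    (∀ X Y, ∀ v ∈ W, MD.A X Y v ∈ W) → (S : Set (ℤ × Fin 2 →₀ ℂ)) ⊆ W → W = ⊤ := by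
  classical
  refine ⟨{ee (0, 0), ee (1, 0), ee (-1, 0)}, fun W hW hS => ?_⟩
  have h0 : ee ((0 : ℤ), (0 : Fin 2)) ∈ W := hS (by simp)
  have h1 : ee ((1 : ℤ), (0 : Fin 2)) ∈ W := hS (by simp)
  have h2 : ee ((-1 : ℤ), (0 : Fin 2)) ∈ W := hS (by simp)
  -- stability under `Lm + Lp` and `Lm - Lp`
  have bX : be !![1, 0; 0, -1] = 1 := by
    apply Complex.ext <;> simp [be]
  have iX : mGoodD_ia !![1, 0; 0, -1] = 0 := by
    simp [mGoodD_ia, al]
  have bY : be !![0, 1; 1, 0] = Complex.I := by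
    apply Complex.ext <;> simp [be]
  have iY : mGoodD_ia !![0, 1; 1, 0] = 0 := by
    simp [mGoodD_ia, al]
  have s1 : ∀ v ∈ W, mGoodD_Lm v + mGoodD_Lp v ∈ W := by
    intro v hv
    have := hW !![1, 0; 0, -1] 0 v hv
    rw [mGoodD_eq', iX, bX, mGoodD_ia_0, mGoodD_be_0] at this
    simpa [mGoodD_A] using this
  have s2 : ∀ v ∈ W, mGoodD_Lm v - mGoodD_Lp v ∈ W := by
    intro v hv
    have := W.smul_mem (-Complex.I) (hW !![0, 1; 1, 0] 0 v hv)
    rw [mGoodD_eq', iY, bY, mGoodD_ia_0, mGoodD_be_0] at this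
    have e : (-Complex.I) • (mGoodD_A 0 Complex.I 0 0 v) = mGoodD_Lm v - mGoodD_Lp v := by
      simp only [mGoodD_A, mul_zero, zero_smul, map_zero, add_zero, LinearMap.add_apply,
        LinearMap.smul_apply, Complex.conj_I, smul_add, smul_smul]
      rw [show -Complex.I * Complex.I = 1 by rw [neg_mul, Complex.I_mul_I, neg_neg],
        show -Complex.I * -Complex.I = -1 by rw [neg_mul_neg, Complex.I_mul_I]]
      module
    rw [e] at this
    exact this
  have s3 : ∀ v ∈ W, mGoodD_Lp v ∈ W := by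
    intro v hv
    have := W.smul_mem (2⁻¹ : ℂ) (W.sub_mem (s1 v hv) (s2 v hv))
    convert this using 1
    module
  have s4 : ∀ v ∈ W, mGoodD_Lm v ∈ W := by
    intro v hv
    have := W.sub_mem (s1 v hv) (s3 v hv)
    convert this using 1
    module
  have p1 : ∀ n : ℕ, ee ((n : ℤ), (0 : Fin 2)) ∈ W := by
    intro n
    induction n with
    | zero => exact h0
    | succ n ih =>
      rcases Nat.eq_zero_or_pos n with hn | hn
      · subst hn; exact h1
      · have := W.smul_mem ((n : ℂ)⁻¹) (s3 _ ih)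
        rw [mGoodD_Lp_s, Finsupp.smul_single, smul_eq_mul, mul_one] at this
        have hn' : (n : ℂ) ≠ 0 := by exact_mod_cast hn.ne'
        convert this using 2
        · push_cast; rfl
        · rw [Int.cast_natCast, inv_mul_cancel₀ hn']
  have p2 : ∀ n : ℕ, ee (-(n : ℤ), (0 : Fin 2)) ∈ W := by
    intro n
    induction n with
    | zero => simpa using h0
    | succ n ih =>
      rcases Nat.eq_zero_or_pos n with hn | hn
      · subst hn; exact h2
      · have := W.smul_mem ((n : ℂ)⁻¹) (s4 _ ih)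
        rw [mGoodD_Lm_s, Finsupp.smul_single, smul_eq_mul, mul_one] at this
        have hn' : (n : ℂ) ≠ 0 := by exact_mod_cast hn.ne'
        convert this using 2
        · ext1
          · push_cast; ring
          · rfl
        · push_cast
          field_simp
  have p3 : ∀ m : ℤ, ee (m, (0 : Fin 2)) ∈ W := by
    intro m
    rcases le_total 0 m with hm | hm
    · have := p1 m.toNat
      rwa [Int.toNat_of_nonneg hm] at this
    · have := p2 (-m).toNat
      rwa [Int.toNat_of_nonneg (by omega), neg_neg] at this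
  have p4 : ∀ m : ℤ, ee (m, (1 : Fin 2)) ∈ W := by
    intro m
    have := hW 0 !![1, 0; 0, -1] _ (p3 m)
    rw [mGoodD_eq', iX, bX, mGoodD_ia_0, mGoodD_be_0, mGoodD_A_s] at this
    simpa using this
  rw [eq_top_iff]
  intro v _
  induction v using Finsupp.induction_linear with
  | zero => exact W.zero_mem
  | add f g hf hg => exact W.add_mem (hf trivial) (hg trivial)
  | single i c =>
    obtain ⟨m, e⟩ := i
    have h : (Finsupp.single (m, e) c : ℤ × Fin 2 →₀ ℂ) = c • ee (m, e) := by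
      rw [Finsupp.smul_single, smul_eq_mul, mul_one]
    rw [h]
    apply W.smul_mem
    fin_cases e
    · exact p3 m
    · exact p4 m

theorem mGoodD_good : MD.Good where
  add := by
    intro X X' Y Y'
    simp only [mGoodD_eq', mGoodD_ia_add, mGoodD_be_add]
    exact mGoodD_A_add _ _ _ _ _ _ _ _
  smul := by
    intro c X Y
    simp only [mGoodD_eq', mGoodD_ia_smul, mGoodD_be_smul]
    exact mGoodD_A_smul _ _ _ _ _
  br := by
    intro X X' Y Y'
    simp only [mGoodD_eq', mGoodD_ia_br, mGoodD_be_br]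
    exact mGoodD_A_br _ _ _ _ _ _ _ _ (mGoodD_ia_conj _) (mGoodD_ia_conj _) (mGoodD_ia_conj _)
      (mGoodD_ia_conj _)
  rot := mGoodD_rot
  J1 := mGoodD_J1
  J2 := mGoodD_J2
  fib := mGoodD_fib
  fg := mGoodD_fg

/-- the `ℓ¹` norm -/
noncomputable def mGoodD_l1 (v : ℤ × Fin 2 →₀ ℂ) : ℝ := v.sum fun _ c => ‖c‖

theorem mGoodD_l1_single (i : ℤ × Fin 2) (c : ℂ) : mGoodD_l1 (Finsupp.single i c) = ‖c‖ := by
  rw [mGoodD_l1, Finsupp.sum_single_index]
  exact norm_zero

theorem mGoodD_l1_add (u v : ℤ × Fin 2 →₀ ℂ) :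
    mGoodD_l1 (u + v) ≤ mGoodD_l1 u + mGoodD_l1 v := by
  classical
  have h : ∀ w : ℤ × Fin 2 →₀ ℂ, w.support ⊆ u.support ∪ v.support →
      mGoodD_l1 w = ∑ i ∈ u.support ∪ v.support, ‖w i‖ := by
    intro w hw
    exact Finsupp.sum_of_support_subset _ hw _ fun _ _ => norm_zero
  rw [h _ Finsupp.support_add, h _ Finset.subset_union_left, h _ Finset.subset_union_right,
    ← Finset.sum_add_distrib]
  exact Finset.sum_le_sum fun i _ => norm_add_le _ _

theorem mGoodD_size : MD.Size sz1 where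
  supp := by
    classical
    rintro X Y ⟨m, e⟩ ⟨m', e'⟩ hj
    rw [mGoodD_eq', mGoodD_A_s] at hj
    have h : m' = m - 1 ∨ m' = m ∨ m' = m + 1 := by
      by_contra hc
      push Not at hc
      obtain ⟨c1, c2, c3⟩ := hc
      rw [Finsupp.mem_support_iff] at hj
      apply hj
      simp only [Finsupp.add_apply, Finsupp.single_apply, Prod.mk.injEq]
      simp [Ne.symm c1, Ne.symm c2, Ne.symm c3]
    simp only [sz1]
    omega
  bd := by
    intro X Y
    refine ⟨2 * (‖be X‖ + ‖mGoodD_ia X‖) + ‖mGoodD_ia Y‖ + 2 * ‖be Y‖, ?_⟩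
    rintro ⟨m, e⟩
    rw [mGoodD_eq', mGoodD_A_s]
    change mGoodD_l1 _ ≤ _
    refine (mGoodD_l1_add _ _).trans ?_
    refine (add_le_add_left (mGoodD_l1_add _ _) _).trans ?_
    refine (add_le_add_left (add_le_add_left (mGoodD_l1_add _ _) _) _).trans ?_
    refine (add_le_add_left (add_le_add_left (add_le_add_left (mGoodD_l1_add _ _) _) _) _).trans ?_
    refine (add_le_add_left (add_le_add_left (add_le_add_left (add_le_add_left
      (mGoodD_l1_add _ _) _) _) _) _).trans ?_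
    simp only [mGoodD_l1_single]
    have hm : ‖(m : ℂ)‖ = ((sz1 (m, e) : ℕ) : ℝ) := by
      simp only [sz1]
      rw [Complex.norm_intCast, Nat.cast_natAbs, Int.cast_abs]
    have n0 : (0 : ℝ) ≤ ((sz1 (m, e) : ℕ) : ℝ) := Nat.cast_nonneg _
    have hb : ∀ z : ℂ, ‖conj z‖ = ‖z‖ := fun z => RCLike.norm_conj z
    have u1 : ‖(if e = 0 then (1 : ℂ) else -1)‖ = 1 := by split_ifs <;> simp
    have u2 : ‖(if e = 0 then (0 : ℂ) else 1)‖ ≤ 1 := by split_ifs <;> simp
    have u3 : ‖(if e = 0 then (1 : ℂ) else 0)‖ ≤ 1 := by split_ifs <;> simp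
    simp only [norm_mul, norm_neg, hb, hm, u1, mul_one, norm_one, Complex.norm_ofNat]
    have b1 := norm_nonneg (be X)
    have b2 := norm_nonneg (mGoodD_ia X)
    have b3 := norm_nonneg (be Y)
    have b4 := norm_nonneg (mGoodD_ia Y)
    nlinarith [mul_nonneg b1 n0, mul_nonneg b2 n0, mul_nonneg b3 n0, mul_nonneg b4 n0,
      mul_le_mul_of_nonneg_left u2 b3, mul_le_mul_of_nonneg_left u3 b3]

/-- TARGET -/
theorem mGoodD : S_goodD := ⟨mGoodD_good, mGoodD_size⟩

end Pool.Agent.H913.LG
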