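import Pool.Agent.H913.LG.Stmts

open Matrix NormedSpace
open scoped Matrix ComplexConjugate

namespace Pool.Agent.H913.LG

open Pool.Agent.H913.SGP

/-! Proof. All identities are checked on coordinates. -/

theorem mGoodT_dg {I : Type} (c : I → ℂ) (v : I →₀ ℂ) (j : I) : dg c v j = c j * v j := by
  classical
  induction v using Finsupp.induction_linear with
  | zero => simp
  | add f g hf hg => rw [map_add, Finsupp.add_apply, hf, hg, Finsupp.add_apply, mul_add]
  | single i a =>
    simp only [dg, Finsupp.linearCombination_single, Finsupp.smul_single, smul_eq_mul, mul_one, Finsupp.single_apply]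
    split_ifs with h
    · rw [h, mul_comm]
    · rw [mul_zero]

/-- coordinates of a vector field on the circle -/
noncomputable def mGoodT_cf (X : Mat2) (f : ℤ → ℂ) (m : ℤ) : ℂ :=
  -((m : ℂ) + 1) * be X * f (m + 1) - (m : ℂ) * (2 * Complex.I * ((al X).im : ℂ)) * f m
    + ((m : ℂ) - 1) * conj (be X) * f (m - 1)

theorem mGoodT_vfm (X : Mat2) (a m : ℤ) (c : ℂ) :
    c * vfm X a m = mGoodT_cf X (fun k => if a = k then c else 0) m := by
  unfold vfm mGoodT_cf
  simp only [Finsupp.add_apply, Finsupp.single_apply]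
  have e1 : (a - 1 = m) ↔ (a = m + 1) := by omega
  have e2 : (a + 1 = m) ↔ (a = m - 1) := by omega
  simp only [e1, e2]
  by_cases h1 : a = m + 1
  · have h2 : ¬ a = m := by omega
    have h3 : ¬ a = m - 1 := by omega
    rw [if_pos h1, if_neg h2, if_neg h3, if_pos h1, if_neg h2, if_neg h3, h1]
    push_cast
    ring
  · by_cases h2 : a = m
    · have h3 : ¬ a = m - 1 := by omega
      rw [if_neg h1, if_pos h2, if_neg h3, if_neg h1, if_pos h2, if_neg h3, h2]
      ring
    · by_cases h3 : a = m - 1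
      · rw [if_neg h1, if_neg h2, if_pos h3, if_neg h1, if_neg h2, if_pos h3, h3]
        push_cast
        ring
      · rw [if_neg h1, if_neg h2, if_neg h3, if_neg h1, if_neg h2, if_neg h3]
        ring

theorem mGoodT_map1 (f : ℤ →₀ ℂ) (b m n : ℤ) :
    (f.mapDomain (fun k => (k, b))) (m, n) = if b = n then f m else 0 := by
  classical
  induction f using Finsupp.induction_linear with
  | zero => simp
  | add f g hf hg =>
    rw [Finsupp.mapDomain_add, Finsupp.add_apply, hf, hg, Finsupp.add_apply]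
    split_ifs <;> simp
  | single i a =>
    rw [Finsupp.mapDomain_single, Finsupp.single_apply, Finsupp.single_apply]
    simp only [Prod.mk.injEq]
    by_cases h1 : i = m <;> by_cases h2 : b = n <;> simp [h1, h2]

theorem mGoodT_map2 (f : ℤ →₀ ℂ) (a m n : ℤ) :
    (f.mapDomain (fun k => (a, k))) (m, n) = if a = m then f n else 0 := by
  classical
  induction f using Finsupp.induction_linear with
  | zero => simp
  | add f g hf hg =>
    rw [Finsupp.mapDomain_add, Finsupp.add_apply, hf, hg, Finsupp.add_apply]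
    split_ifs <;> simp
  | single i c =>
    rw [Finsupp.mapDomain_single, Finsupp.single_apply, Finsupp.single_apply]
    simp only [Prod.mk.injEq]
    by_cases h1 : i = n <;> by_cases h2 : a = m <;> simp [h1, h2]

theorem mGoodT_cf_add (X : Mat2) (f g : ℤ → ℂ) (m : ℤ) :
    mGoodT_cf X (fun k => f k + g k) m = mGoodT_cf X f m + mGoodT_cf X g m := by
  unfold mGoodT_cf
  ring

theorem mGoodT_cf_zero (X : Mat2) (m : ℤ) : mGoodT_cf X (fun _ => 0) m = 0 := by
  unfold mGoodT_cf
  ring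

/-- the coordinates of the operators -/
theorem mGoodT_A (X Y : Mat2) (v : ℤ × ℤ →₀ ℂ) (m n : ℤ) :
    MT.A X Y v (m, n) = mGoodT_cf X (fun k => v (k, n)) m + mGoodT_cf Y (fun k => v (m, k)) n := by
  classical
  induction v using Finsupp.induction_linear with
  | zero => simp [mGoodT_cf_zero]
  | add f g hf hg =>
    rw [map_add, Finsupp.add_apply, hf, hg]
    simp only [Finsupp.add_apply]
    rw [mGoodT_cf_add, mGoodT_cf_add]
    ring
  | single i c =>
    obtain ⟨a, b⟩ := i
    have h : MT.A X Y (Finsupp.single (a, b) c) = c • ((vfm X a).mapDomain (fun k => (k, b)) +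
        (vfm Y b).mapDomain (fun k => (a, k))) := by
      simp only [MT, Finsupp.linearCombination_single]
    rw [h, Finsupp.smul_apply, Finsupp.add_apply, mGoodT_map1, mGoodT_map2, smul_eq_mul, mul_add]
    have h1 : c * (if b = n then vfm X a m else 0) = mGoodT_cf X (fun k => (Finsupp.single (a, b) c) (k, n)) m := by
      by_cases hb : b = n
      · rw [if_pos hb, mGoodT_vfm]
        congr 1
        ext k
        rw [Finsupp.single_apply]
        simp [hb]
      · rw [if_neg hb, mul_zero]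
        have : (fun k => (Finsupp.single (a, b) c) (k, n)) = fun _ : ℤ => (0 : ℂ) := by
          ext k
          rw [Finsupp.single_apply]
          simp [hb]
        rw [this, mGoodT_cf_zero]
    have h2 : c * (if a = m then vfm Y b n else 0) = mGoodT_cf Y (fun k => (Finsupp.single (a, b) c) (m, k)) n := by
      by_cases ha : a = m
      · rw [if_pos ha, mGoodT_vfm]
        congr 1
        ext k
        rw [Finsupp.single_apply]
        simp [ha]
      · rw [if_neg ha, mul_zero]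
        have : (fun k => (Finsupp.single (a, b) c) (m, k)) = fun _ : ℤ => (0 : ℂ) := by
          ext k
          rw [Finsupp.single_apply]
          simp [ha]
        rw [this, mGoodT_cf_zero]
    rw [h1, h2]

theorem mGoodT_al_im_br (X X' : Mat2) : (2 * Complex.I * ((al (X * X' - X' * X)).im : ℂ)) =
    2 * (be X * conj (be X') - be X' * conj (be X)) := by
  apply Complex.ext <;>
  simp [al, be, Matrix.mul_apply, Fin.sum_univ_two] <;> ring

theorem mGoodT_be_br (X X' : Mat2) : be (X * X' - X' * X) =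
    (2 * Complex.I * ((al X).im : ℂ)) * be X' - (2 * Complex.I * ((al X').im : ℂ)) * be X := by
  apply Complex.ext <;>
  simp [al, be, Matrix.mul_apply, Fin.sum_univ_two] <;> ring

theorem mGoodT_be_br' (X X' : Mat2) : conj (be (X * X' - X' * X)) =
    -(2 * Complex.I * ((al X).im : ℂ)) * conj (be X') + (2 * Complex.I * ((al X').im : ℂ)) * conj (be X) := by
  rw [mGoodT_be_br]
  simp only [map_sub, map_mul, Complex.conj_I, Complex.conj_ofReal, map_ofNat]
  ring

theorem mGoodT_cf_br (X X' : Mat2) (f : ℤ → ℂ) (m : ℤ) :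
    mGoodT_cf (X * X' - X' * X) f m = mGoodT_cf X (mGoodT_cf X' f) m - mGoodT_cf X' (mGoodT_cf X f) m := by
  have e1 : m + 1 - 1 = m := by ring
  have e2 : m - 1 + 1 = m := by ring
  simp only [mGoodT_cf]
  rw [mGoodT_be_br', mGoodT_be_br, mGoodT_al_im_br, e1, e2]
  push_cast
  ring

theorem mGoodT_add (X X' Y Y' : Mat2) : MT.A (X + X') (Y + Y') = MT.A X Y + MT.A X' Y' := by
  apply LinearMap.ext
  intro v
  ext ⟨m, n⟩
  rw [LinearMap.add_apply, Finsupp.add_apply, mGoodT_A, mGoodT_A, mGoodT_A]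
  have h1 : ∀ X X' : Mat2, be (X + X') = be X + be X' := by
    intro X X'
    apply Complex.ext <;> simp [be] <;> ring
  have h2 : ∀ X X' : Mat2, (al (X + X')).im = (al X).im + (al X').im := by
    intro X X'
    simp [al]
    ring
  simp only [mGoodT_cf, h1, h2, map_add, Complex.ofReal_add]
  ring

theorem mGoodT_smul (c : ℝ) (X Y : Mat2) : MT.A (c • X) (c • Y) = (c : ℂ) • MT.A X Y := by
  apply LinearMap.ext
  intro v
  ext ⟨m, n⟩
  rw [LinearMap.smul_apply, Finsupp.smul_apply, mGoodT_A, mGoodT_A]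
  have h1 : ∀ X : Mat2, be (c • X) = (c : ℂ) * be X := by
    intro X
    apply Complex.ext <;> simp [be] <;> ring
  have h2 : ∀ X : Mat2, (al (c • X)).im = c * (al X).im := by
    intro X
    simp [al]
    ring
  simp only [mGoodT_cf, h1, h2, map_mul, Complex.conj_ofReal, Complex.ofReal_mul, smul_eq_mul]
  ring

theorem mGoodT_comm (X Y : Mat2) (f : ℤ → ℤ → ℂ) (m n : ℤ) :
    mGoodT_cf X (fun k => mGoodT_cf Y (fun l => f k l) n) m = mGoodT_cf Y (fun l => mGoodT_cf X (fun k => f k l) m) n := by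
  simp only [mGoodT_cf]
  ring

theorem mGoodT_br (X X' Y Y' : Mat2) :
    MT.A (X * X' - X' * X) (Y * Y' - Y' * Y) = MT.A X Y * MT.A X' Y' - MT.A X' Y' * MT.A X Y := by
  apply LinearMap.ext
  intro v
  ext ⟨m, n⟩
  rw [LinearMap.sub_apply, Finsupp.sub_apply, Module.End.mul_apply, Module.End.mul_apply, mGoodT_A, mGoodT_A, mGoodT_A]
  simp only [mGoodT_A]
  rw [mGoodT_cf_br, mGoodT_cf_br]
  rw [mGoodT_cf_add, mGoodT_cf_add, mGoodT_cf_add, mGoodT_cf_add]
  rw [mGoodT_comm X Y' (fun k l => v (k, l)), mGoodT_comm X' Y (fun k l => v (k, l))]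
  ring

theorem mGoodT_rot_mul (s : ℝ) (X : Mat2) : rot s * X * rot (-s) =
    !![(Real.cos s * X 0 0 - Real.sin s * X 1 0) * Real.cos s - (Real.cos s * X 0 1 - Real.sin s * X 1 1) * Real.sin s,
      (Real.cos s * X 0 0 - Real.sin s * X 1 0) * Real.sin s + (Real.cos s * X 0 1 - Real.sin s * X 1 1) * Real.cos s;
      (Real.sin s * X 0 0 + Real.cos s * X 1 0) * Real.cos s - (Real.sin s * X 0 1 + Real.cos s * X 1 1) * Real.sin s,
      (Real.sin s * X 0 0 + Real.cos s * X 1 0) * Real.sin s + (Real.sin s * X 0 1 + Real.cos s * X 1 1) * Real.cos s] := by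
  conv_lhs => rw [Matrix.eta_fin_two X]
  unfold rot
  rw [Matrix.mul_fin_two, Matrix.mul_fin_two, Real.cos_neg, Real.sin_neg]
  congr 1
  ext i j
  fin_cases i <;> fin_cases j <;> simp <;> ring

theorem mGoodT_be_rot (s : ℝ) (X : Mat2) : be (rot s * X * rot (-s)) = Complex.exp (2 * Complex.I * s) * be X := by
  have h1 : Complex.exp (2 * Complex.I * s) = ((Real.cos s : ℂ) + Real.sin s * Complex.I) ^ 2 := by
    rw [Complex.ofReal_cos, Complex.ofReal_sin, ← Complex.exp_mul_I, ← Complex.exp_nat_mul]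
    congr 1
    push_cast
    ring
  rw [h1, mGoodT_rot_mul]
  apply Complex.ext
  · simp only [be, pow_two, Complex.mul_re, Complex.mul_im, Complex.add_re, Complex.add_im, Complex.ofReal_re,
      Complex.ofReal_im, Complex.I_re, Complex.I_im, Matrix.of_apply, Matrix.cons_val', Matrix.cons_val_zero,
      Matrix.cons_val_one]
    ring
  · simp only [be, pow_two, Complex.mul_re, Complex.mul_im, Complex.add_re, Complex.add_im, Complex.ofReal_re,
      Complex.ofReal_im, Complex.I_re, Complex.I_im, Matrix.of_apply, Matrix.cons_val', Matrix.cons_val_zero,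
      Matrix.cons_val_one]
    ring

theorem mGoodT_al_rot (s : ℝ) (X : Mat2) : (al (rot s * X * rot (-s))).im = (al X).im := by
  rw [mGoodT_rot_mul]
  simp only [al, Matrix.of_apply, Matrix.cons_val', Matrix.cons_val_zero, Matrix.cons_val_one]
  linear_combination ((X 1 0 - X 0 1) / 2) * Real.sin_sq_add_cos_sq s

theorem mGoodT_exp (s t : ℝ) (m n : ℤ) : Complex.exp (-Complex.I * (((2 * m : ℤ) : ℂ) * s + ((2 * n : ℤ) : ℂ) * t)) =
    Complex.exp (-(2 * Complex.I * s)) ^ m * Complex.exp (-(2 * Complex.I * t)) ^ n := by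
  rw [← Complex.exp_int_mul, ← Complex.exp_int_mul, ← Complex.exp_add]
  congr 1
  push_cast
  ring

theorem mGoodT_kst (s t : ℝ) (v : ℤ × ℤ →₀ ℂ) (m n : ℤ) : MT.kst s t v (m, n) =
    Complex.exp (-(2 * Complex.I * s)) ^ m * Complex.exp (-(2 * Complex.I * t)) ^ n * v (m, n) := by
  unfold TMod.kst
  rw [mGoodT_dg]
  simp only [MT]
  rw [mGoodT_exp]

theorem mGoodT_cf_rot (s : ℝ) (X : Mat2) (c : ℂ) (f : ℤ → ℂ) (m : ℤ) :
    mGoodT_cf (rot s * X * rot (-s)) (fun k => Complex.exp (-(2 * Complex.I * s)) ^ k * c * f k) m =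
    Complex.exp (-(2 * Complex.I * s)) ^ m * c * mGoodT_cf X f m := by
  have h0 : Complex.exp (-(2 * Complex.I * s)) ≠ 0 := Complex.exp_ne_zero _
  have h1 : Complex.exp (2 * Complex.I * s) = (Complex.exp (-(2 * Complex.I * s)))⁻¹ := by
    rw [← Complex.exp_neg, neg_neg]
  have h2 : conj (Complex.exp (2 * Complex.I * s)) = Complex.exp (-(2 * Complex.I * s)) := by
    rw [← Complex.exp_conj, map_mul, map_mul, Complex.conj_I, Complex.conj_ofReal, map_ofNat]
    congr 1
    ring
  simp only [mGoodT_cf]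
  rw [mGoodT_be_rot, mGoodT_al_rot, map_mul, h2, h1, zpow_add_one₀ h0, zpow_sub_one₀ h0]
  field_simp

theorem mGoodT_rot (s t : ℝ) (X Y : Mat2) : MT.kst s t * MT.A X Y =
    MT.A (rot s * X * rot (-s)) (rot t * Y * rot (-t)) * MT.kst s t := by
  apply LinearMap.ext
  intro v
  ext ⟨m, n⟩
  rw [Module.End.mul_apply, Module.End.mul_apply, mGoodT_kst, mGoodT_A, mGoodT_A]
  simp only [mGoodT_kst]
  rw [mGoodT_cf_rot]
  have h : (fun k => Complex.exp (-(2 * Complex.I * s)) ^ m * Complex.exp (-(2 * Complex.I * t)) ^ k * v (m, k)) =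
      fun k => Complex.exp (-(2 * Complex.I * t)) ^ k * Complex.exp (-(2 * Complex.I * s)) ^ m * v (m, k) := by
    ext k
    ring
  rw [h, mGoodT_cf_rot]
  ring

theorem mGoodT_ee (i : ℤ × ℤ) (X Y : Mat2) : MT.A X Y (ee i) =
    (vfm X i.1).mapDomain (fun m => (m, i.2)) + (vfm Y i.2).mapDomain (fun m => (i.1, m)) := by
  simp only [MT, Finsupp.linearCombination_single, one_smul]

theorem mGoodT_vfm_J (m : ℤ) : vfm Jm m = Finsupp.single m (-Complex.I * ((2 * m : ℤ) : ℂ)) := by
  have h1 : be Jm = 0 := by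
    apply Complex.ext <;> simp [be, Jm]
  have h2 : (al Jm).im = 1 := by
    simp [al, Jm]
  unfold vfm
  rw [h1, h2, map_zero, mul_zero, mul_zero, Finsupp.single_zero, Finsupp.single_zero, zero_add, add_zero]
  congr 1
  push_cast
  ring

theorem mGoodT_vfm_0 (m : ℤ) : vfm 0 m = 0 := by
  have h1 : be 0 = 0 := by
    apply Complex.ext <;> simp [be]
  have h2 : (al 0).im = 0 := by
    simp [al]
  unfold vfm
  rw [h1, h2]
  simp

/-- raising operator of the first factor -/
theorem mGoodT_up1 (m n : ℤ) : MT.A !![1, 0; 0, -1] 0 (ee (m, n)) + Complex.I • MT.A !![0, 1; 1, 0] 0 (ee (m, n)) =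
    (2 * m : ℂ) • ee (m + 1, n) := by
  have h1 : be !![1, 0; 0, -1] = 1 := by
    apply Complex.ext <;> simp [be]
  have h2 : (al !![1, 0; 0, -1]).im = 0 := by
    simp [al]
  have h3 : be !![0, 1; 1, 0] = Complex.I := by
    apply Complex.ext <;> simp [be]
  have h4 : (al !![0, 1; 1, 0]).im = 0 := by
    simp [al]
  rw [mGoodT_ee, mGoodT_ee, mGoodT_vfm_0]
  unfold vfm
  rw [h1, h2, h3, h4]
  simp only [Finsupp.mapDomain_add, Finsupp.mapDomain_single, Finsupp.mapDomain_zero, map_one, Complex.conj_I,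
    Complex.ofReal_zero, mul_zero, Finsupp.single_zero, add_zero, smul_add, Finsupp.smul_single, smul_eq_mul, mul_one]
  have e1 : Complex.I * (-(m : ℂ) * Complex.I) = m := by
    linear_combination (-(m : ℂ)) * Complex.I_mul_I
  have e2 : Complex.I * ((m : ℂ) * -Complex.I) = m := by
    linear_combination (-(m : ℂ)) * Complex.I_mul_I
  rw [e1, e2]
  ext j
  simp only [Finsupp.add_apply, Finsupp.single_apply]
  split_ifs <;> ring

theorem mGoodT_dn1 (m n : ℤ) : MT.A !![1, 0; 0, -1] 0 (ee (m, n)) - Complex.I • MT.A !![0, 1; 1, 0] 0 (ee (m, n)) =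
    (-2 * m : ℂ) • ee (m - 1, n) := by
  have h1 : be !![1, 0; 0, -1] = 1 := by
    apply Complex.ext <;> simp [be]
  have h2 : (al !![1, 0; 0, -1]).im = 0 := by
    simp [al]
  have h3 : be !![0, 1; 1, 0] = Complex.I := by
    apply Complex.ext <;> simp [be]
  have h4 : (al !![0, 1; 1, 0]).im = 0 := by
    simp [al]
  rw [mGoodT_ee, mGoodT_ee, mGoodT_vfm_0]
  unfold vfm
  rw [h1, h2, h3, h4]
  simp only [Finsupp.mapDomain_add, Finsupp.mapDomain_single, Finsupp.mapDomain_zero, map_one, Complex.conj_I,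
    Complex.ofReal_zero, mul_zero, Finsupp.single_zero, add_zero, smul_add, Finsupp.smul_single, smul_eq_mul, mul_one]
  have e1 : Complex.I * (-(m : ℂ) * Complex.I) = m := by
    linear_combination (-(m : ℂ)) * Complex.I_mul_I
  have e2 : Complex.I * ((m : ℂ) * -Complex.I) = m := by
    linear_combination (-(m : ℂ)) * Complex.I_mul_I
  rw [e1, e2]
  ext j
  simp only [Finsupp.add_apply, Finsupp.sub_apply, Finsupp.single_apply]
  split_ifs <;> ring

theorem mGoodT_up2 (m n : ℤ) : MT.A 0 !![1, 0; 0, -1] (ee (m, n)) + Complex.I • MT.A 0 !![0, 1; 1, 0] (ee (m, n)) =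
    (2 * n : ℂ) • ee (m, n + 1) := by
  have h1 : be !![1, 0; 0, -1] = 1 := by
    apply Complex.ext <;> simp [be]
  have h2 : (al !![1, 0; 0, -1]).im = 0 := by
    simp [al]
  have h3 : be !![0, 1; 1, 0] = Complex.I := by
    apply Complex.ext <;> simp [be]
  have h4 : (al !![0, 1; 1, 0]).im = 0 := by
    simp [al]
  rw [mGoodT_ee, mGoodT_ee, mGoodT_vfm_0]
  unfold vfm
  rw [h1, h2, h3, h4]
  simp only [Finsupp.mapDomain_add, Finsupp.mapDomain_single, Finsupp.mapDomain_zero, map_one, Complex.conj_I,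
    Complex.ofReal_zero, mul_zero, Finsupp.single_zero, add_zero, zero_add, smul_add, Finsupp.smul_single, smul_eq_mul, mul_one]
  have e1 : Complex.I * (-(n : ℂ) * Complex.I) = n := by
    linear_combination (-(n : ℂ)) * Complex.I_mul_I
  have e2 : Complex.I * ((n : ℂ) * -Complex.I) = n := by
    linear_combination (-(n : ℂ)) * Complex.I_mul_I
  rw [e1, e2]
  ext j
  simp only [Finsupp.add_apply, Finsupp.single_apply]
  split_ifs <;> ring

theorem mGoodT_dn2 (m n : ℤ) : MT.A 0 !![1, 0; 0, -1] (ee (m, n)) - Complex.I • MT.A 0 !![0, 1; 1, 0] (ee (m, n)) =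
    (-2 * n : ℂ) • ee (m, n - 1) := by
  have h1 : be !![1, 0; 0, -1] = 1 := by
    apply Complex.ext <;> simp [be]
  have h2 : (al !![1, 0; 0, -1]).im = 0 := by
    simp [al]
  have h3 : be !![0, 1; 1, 0] = Complex.I := by
    apply Complex.ext <;> simp [be]
  have h4 : (al !![0, 1; 1, 0]).im = 0 := by
    simp [al]
  rw [mGoodT_ee, mGoodT_ee, mGoodT_vfm_0]
  unfold vfm
  rw [h1, h2, h3, h4]
  simp only [Finsupp.mapDomain_add, Finsupp.mapDomain_single, Finsupp.mapDomain_zero, map_one, Complex.conj_I,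
    Complex.ofReal_zero, mul_zero, Finsupp.single_zero, add_zero, zero_add, smul_add, Finsupp.smul_single, smul_eq_mul, mul_one]
  have e1 : Complex.I * (-(n : ℂ) * Complex.I) = n := by
    linear_combination (-(n : ℂ)) * Complex.I_mul_I
  have e2 : Complex.I * ((n : ℂ) * -Complex.I) = n := by
    linear_combination (-(n : ℂ)) * Complex.I_mul_I
  rw [e1, e2]
  ext j
  simp only [Finsupp.add_apply, Finsupp.sub_apply, Finsupp.single_apply]
  split_ifs <;> ring

theorem mGoodT_line {W : Submodule ℂ (ℤ × ℤ →₀ ℂ)} (e : ℤ → ℤ × ℤ →₀ ℂ)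
    (hup : ∀ m, e m ∈ W → (2 * m : ℂ) • e (m + 1) ∈ W) (hdn : ∀ m, e m ∈ W → (-2 * m : ℂ) • e (m - 1) ∈ W)
    (h1 : e 1 ∈ W) (h2 : e (-1) ∈ W) (m : ℤ) : e m ∈ W := by
  have hup' : ∀ m : ℤ, m ≠ 0 → e m ∈ W → e (m + 1) ∈ W := by
    intro m hm he
    have hm' : (2 * m : ℂ) ≠ 0 := mul_ne_zero two_ne_zero (Int.cast_ne_zero.2 hm)
    exact (W.smul_mem_iff hm').1 (hup m he)
  have hdn' : ∀ m : ℤ, m ≠ 0 → e m ∈ W → e (m - 1) ∈ W := by
    intro m hm he
    have hm' : (-2 * m : ℂ) ≠ 0 := mul_ne_zero (neg_ne_zero.2 two_ne_zero) (Int.cast_ne_zero.2 hm)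
    exact (W.smul_mem_iff hm').1 (hdn m he)
  have hpos : ∀ k : ℕ, e (k + 1) ∈ W := by
    intro k
    induction k with
    | zero => simpa using h1
    | succ k ih =>
      have := hup' ((k : ℤ) + 1) (by omega) ih
      push_cast
      exact this
  have hneg : ∀ k : ℕ, e (-1 - k) ∈ W := by
    intro k
    induction k with
    | zero => simpa using h2
    | succ k ih =>
      have := hdn' (-1 - (k : ℤ)) (by omega) ih
      have e1 : -1 - ((k + 1 : ℕ) : ℤ) = -1 - (k : ℤ) - 1 := by
        push_cast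
        ring
      rw [e1]
      exact this
  rcases lt_trichotomy m 0 with h | h | h
  · have := hneg (-1 - m).toNat
    have e1 : -1 - ((-1 - m).toNat : ℤ) = m := by omega
    rwa [e1] at this
  · have := hdn' 1 one_ne_zero h1
    rw [h]
    simpa using this
  · have := hpos (m - 1).toNat
    have e1 : ((m - 1).toNat : ℤ) + 1 = m := by omega
    rwa [e1] at this

theorem mGoodT_fg : ∃ S : Finset (ℤ × ℤ →₀ ℂ), ∀ W : Submodule ℂ (ℤ × ℤ →₀ ℂ),
    (∀ X Y, ∀ v ∈ W, MT.A X Y v ∈ W) → (S : Set (ℤ × ℤ →₀ ℂ)) ⊆ W → W = ⊤ := by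
  classical
  refine ⟨{ee (1, 1), ee (1, -1), ee (-1, 1), ee (-1, -1)}, ?_⟩
  intro W hW hS
  have s1 : (ee ((1 : ℤ), (1 : ℤ)) : ℤ × ℤ →₀ ℂ) ∈ W := hS (by simp)
  have s2 : (ee ((1 : ℤ), (-1 : ℤ)) : ℤ × ℤ →₀ ℂ) ∈ W := hS (by simp)
  have s3 : (ee ((-1 : ℤ), (1 : ℤ)) : ℤ × ℤ →₀ ℂ) ∈ W := hS (by simp)
  have s4 : (ee ((-1 : ℤ), (-1 : ℤ)) : ℤ × ℤ →₀ ℂ) ∈ W := hS (by simp)
  have hrow : ∀ n : ℤ, (ee ((1 : ℤ), n) : ℤ × ℤ →₀ ℂ) ∈ W → (ee ((-1 : ℤ), n) : ℤ × ℤ →₀ ℂ) ∈ W →
      ∀ m, (ee (m, n) : ℤ × ℤ →₀ ℂ) ∈ W := by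
    intro n h1 h2 m
    refine mGoodT_line (fun m => ee (m, n)) ?_ ?_ h1 h2 m
    · intro m hm
      rw [← mGoodT_up1]
      exact W.add_mem (hW _ _ _ hm) (W.smul_mem _ (hW _ _ _ hm))
    · intro m hm
      rw [← mGoodT_dn1]
      exact W.sub_mem (hW _ _ _ hm) (W.smul_mem _ (hW _ _ _ hm))
  have hall : ∀ m n : ℤ, (ee (m, n) : ℤ × ℤ →₀ ℂ) ∈ W := by
    intro m n
    refine mGoodT_line (fun n => ee (m, n)) ?_ ?_ (hrow 1 s1 s3 m) (hrow (-1) s2 s4 m) n
    · intro n hn
      rw [← mGoodT_up2]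
      exact W.add_mem (hW _ _ _ hn) (W.smul_mem _ (hW _ _ _ hn))
    · intro n hn
      rw [← mGoodT_dn2]
      exact W.sub_mem (hW _ _ _ hn) (W.smul_mem _ (hW _ _ _ hn))
  rw [eq_top_iff]
  intro v _
  induction v using Finsupp.induction_linear with
  | zero => exact W.zero_mem
  | add f g hf hg => exact W.add_mem (hf trivial) (hg trivial)
  | single i a =>
    have : (Finsupp.single i a : ℤ × ℤ →₀ ℂ) = a • ee i := by
      rw [Finsupp.smul_single, smul_eq_mul, mul_one]
    rw [this]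
    exact W.smul_mem _ (hall i.1 i.2)

theorem mGoodT_good : MT.Good where
  add := mGoodT_add
  smul := mGoodT_smul
  br := mGoodT_br
  rot := mGoodT_rot
  J1 := by
    intro i
    rw [mGoodT_ee, mGoodT_vfm_J, mGoodT_vfm_0, Finsupp.mapDomain_single, Finsupp.mapDomain_zero, add_zero,
      Finsupp.smul_single, smul_eq_mul, mul_one]
    rfl
  J2 := by
    intro i
    rw [mGoodT_ee, mGoodT_vfm_J, mGoodT_vfm_0, Finsupp.mapDomain_single, Finsupp.mapDomain_zero, zero_add,
      Finsupp.smul_single, smul_eq_mul, mul_one]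
    rfl
  fib := by
    intro a b
    refine (Set.finite_singleton ((a / 2, b / 2) : ℤ × ℤ)).subset ?_
    rintro ⟨m, n⟩ ⟨h1, h2⟩
    simp only [MT] at h1 h2
    rw [Set.mem_singleton_iff, Prod.mk.injEq]
    omega
  fg := mGoodT_fg

/-- sum of the absolute values of the coordinates -/
noncomputable def mGoodT_N {I : Type} (f : I →₀ ℂ) : ℝ := f.sum fun _ c => ‖c‖

theorem mGoodT_N_add {I : Type} (f g : I →₀ ℂ) : mGoodT_N (f + g) ≤ mGoodT_N f + mGoodT_N g := by
  classical
  have h : ∀ u : I →₀ ℂ, u.support ⊆ f.support ∪ g.support → mGoodT_N u = ∑ i ∈ f.support ∪ g.support, ‖u i‖ :=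
    fun u hu => Finsupp.sum_of_support_subset u hu _ (by simp)
  rw [h _ Finsupp.support_add, h f Finset.subset_union_left, h g Finset.subset_union_right, ← Finset.sum_add_distrib]
  apply Finset.sum_le_sum
  intro i _
  rw [Finsupp.add_apply]
  exact norm_add_le _ _

theorem mGoodT_N_single {I : Type} (i : I) (c : ℂ) : mGoodT_N (Finsupp.single i c) = ‖c‖ :=
  Finsupp.sum_single_index (by simp)

theorem mGoodT_size : MT.Size szT where
  supp := by
    classical
    rintro X Y ⟨a, b⟩ ⟨m, n⟩ hj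
    rw [Finsupp.mem_support_iff, mGoodT_ee, Finsupp.add_apply, mGoodT_map1, mGoodT_map2] at hj
    unfold szT
    simp only at hj ⊢
    have hv : ∀ (X : Mat2) (a m : ℤ), vfm X a m ≠ 0 → a - 1 = m ∨ a = m ∨ a + 1 = m := by
      intro X a m h
      by_contra hc
      push Not at hc
      apply h
      unfold vfm
      simp [hc.1, hc.2.1, hc.2.2]
    have h1 : (b = n ∧ vfm X a m ≠ 0) ∨ (a = m ∧ vfm Y b n ≠ 0) := by
      by_contra hc
      push Not at hc
      apply hj
      have e1 : (if b = n then vfm X a m else 0) = 0 := by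
        split_ifs with h
        · exact hc.1 h
        · rfl
      have e2 : (if a = m then vfm Y b n else 0) = 0 := by
        split_ifs with h
        · exact hc.2 h
        · rfl
      rw [e1, e2, add_zero]
    rcases h1 with ⟨h1, h2⟩ | ⟨h1, h2⟩
    · have := hv _ _ _ h2
      omega
    · have := hv _ _ _ h2
      omega
  bd := by
    intro X Y
    refine ⟨2 * ‖be X‖ + 2 * |(al X).im| + (2 * ‖be Y‖ + 2 * |(al Y).im|), ?_⟩
    rintro ⟨a, b⟩
    have h0 : ((MT.A X Y (ee (a, b))).sum fun _ c => ‖c‖) = mGoodT_N (MT.A X Y (ee (a, b))) := rfl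
    rw [h0, mGoodT_ee]
    have hv : ∀ (X : Mat2) (a : ℤ) (φ : ℤ → ℤ × ℤ), mGoodT_N ((vfm X a).mapDomain φ) ≤
        (2 * ‖be X‖ + 2 * |(al X).im|) * |(a : ℝ)| := by
      intro X a φ
      unfold vfm
      rw [Finsupp.mapDomain_add, Finsupp.mapDomain_add, Finsupp.mapDomain_single, Finsupp.mapDomain_single,
        Finsupp.mapDomain_single]
      refine (mGoodT_N_add _ _).trans ?_
      refine (add_le_add_left (mGoodT_N_add _ _) _).trans ?_
      rw [mGoodT_N_single, mGoodT_N_single, mGoodT_N_single]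
      simp only [norm_mul, norm_neg, Complex.norm_intCast, Complex.norm_ofNat, Complex.norm_I, Complex.norm_real,
        Real.norm_eq_abs, RCLike.norm_conj]
      apply le_of_eq
      ring
    have h1 := hv X a (fun m => (m, b))
    have h2 := hv Y b (fun m => (a, m))
    have h3 := mGoodT_N_add ((vfm X a).mapDomain (fun m => (m, b))) ((vfm Y b).mapDomain (fun m => (a, m)))
    have h4 : |(a : ℝ)| ≤ 1 + (szT (a, b) : ℝ) := by
      unfold szT
      push_cast
      rw [Nat.cast_natAbs, Nat.cast_natAbs]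
      push_cast
      linarith [abs_nonneg (a : ℝ), abs_nonneg (b : ℝ)]
    have h5 : |(b : ℝ)| ≤ 1 + (szT (a, b) : ℝ) := by
      unfold szT
      push_cast
      rw [Nat.cast_natAbs, Nat.cast_natAbs]
      push_cast
      linarith [abs_nonneg (a : ℝ), abs_nonneg (b : ℝ)]
    calc _ ≤ _ := h3
      _ ≤ (2 * ‖be X‖ + 2 * |(al X).im|) * |(a : ℝ)| + (2 * ‖be Y‖ + 2 * |(al Y).im|) * |(b : ℝ)| := add_le_add h1 h2
      _ ≤ (2 * ‖be X‖ + 2 * |(al X).im|) * (1 + (szT (a, b) : ℝ)) +
          (2 * ‖be Y‖ + 2 * |(al Y).im|) * (1 + (szT (a, b) : ℝ)) := by gcongr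
      _ = _ := by ring

/-- TARGET -/
theorem mGoodT : S_goodT := ⟨mGoodT_good, mGoodT_size⟩

end Pool.Agent.H913.LG
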