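import Pool.Agent.H913.LG.Stmts

open Matrix NormedSpace
open scoped Matrix ComplexConjugate

namespace Pool.Agent.H913.LG

open Pool.Agent.H913.SGP

/-- `2 i Im (al X)` -/
private noncomputable def mGoodU_t (X : Mat2) : ℂ := 2 * Complex.I * ((al X).im : ℂ)

private theorem mGoodU_act (X Y : Mat2) (m : ℤ) (j : Fin 2) :
    MU.A X Y (ee (m, j)) = (-(m : ℂ) * be X) • ee (m - 1, j) + (-(m : ℂ) * mGoodU_t X) • ee (m, j)
      + ((m : ℂ) * conj (be X)) • ee (m + 1, j)
      + (if j = 1 then (X.trace : ℂ) else 0) • ee (m, (0 : Fin 2)) := by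
  have h : MU.A X Y (ee (m, j)) = (vfm X m).mapDomain (fun m => (m, j)) +
      (if j = 1 then Finsupp.single (m, (0 : Fin 2)) (X.trace : ℂ) else 0) := by
    show Finsupp.linearCombination ℂ _ (Finsupp.single (m, j) 1) = _
    rw [Finsupp.linearCombination_single, one_smul]
  rw [h, vfm, Finsupp.mapDomain_add, Finsupp.mapDomain_add, Finsupp.mapDomain_single,
    Finsupp.mapDomain_single, Finsupp.mapDomain_single]
  simp only [ee, Finsupp.smul_single, smul_eq_mul, mul_one, mGoodU_t]
  congr 1
  split_ifs <;> simp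

private theorem mGoodU_ext {f g : Module.End ℂ (ℤ × Fin 2 →₀ ℂ)}
    (h : ∀ (m : ℤ) (j : Fin 2), f (ee (m, j)) = g (ee (m, j))) : f = g := by
  apply Finsupp.lhom_ext'
  rintro ⟨m, j⟩
  apply LinearMap.ext_ring
  exact h m j

private theorem mGoodU_al_add (X X' : Mat2) : al (X + X') = al X + al X' := by
  apply Complex.ext <;> simp [al] <;> ring

private theorem mGoodU_be_add (X X' : Mat2) : be (X + X') = be X + be X' := by
  apply Complex.ext <;> simp [be] <;> ring

private theorem mGoodU_al_smul (c : ℝ) (X : Mat2) : al (c • X) = (c : ℂ) * al X := by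
  apply Complex.ext <;> simp [al] <;> ring

private theorem mGoodU_be_smul (c : ℝ) (X : Mat2) : be (c • X) = (c : ℂ) * be X := by
  apply Complex.ext <;> simp [be] <;> ring

private theorem mGoodU_t_add (X X' : Mat2) : mGoodU_t (X + X') = mGoodU_t X + mGoodU_t X' := by
  simp only [mGoodU_t, mGoodU_al_add, Complex.add_im]
  push_cast
  ring

private theorem mGoodU_t_smul (c : ℝ) (X : Mat2) : mGoodU_t (c • X) = (c : ℂ) * mGoodU_t X := by
  simp only [mGoodU_t, mGoodU_al_smul, Complex.im_ofReal_mul]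
  push_cast
  ring

private theorem mGoodU_t_br (X X' : Mat2) : mGoodU_t (X * X' - X' * X) =
    2 * (be X * conj (be X') - be X' * conj (be X)) := by
  apply Complex.ext <;>
    simp [mGoodU_t, al, be, Matrix.mul_apply, Fin.sum_univ_two] <;> ring

private theorem mGoodU_be_br (X X' : Mat2) : be (X * X' - X' * X) =
    mGoodU_t X * be X' - mGoodU_t X' * be X := by
  apply Complex.ext <;>
    simp [mGoodU_t, al, be, Matrix.mul_apply, Fin.sum_univ_two] <;> ring

private theorem mGoodU_t_conj (X : Mat2) : conj (mGoodU_t X) = -mGoodU_t X := by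
  apply Complex.ext <;> simp [mGoodU_t]

private theorem mGoodU_rot_mat (s : ℝ) (X : Mat2) : al (rot s * X * rot (-s)) = al X ∧
    be (rot s * X * rot (-s)) = Complex.exp (2 * Complex.I * s) * be X ∧
    (rot s * X * rot (-s)).trace = X.trace := by
  have hcs := Real.sin_sq_add_cos_sq s
  have hexp : Complex.exp (2 * Complex.I * s) =
      ⟨Real.cos s ^ 2 - Real.sin s ^ 2, 2 * Real.sin s * Real.cos s⟩ := by
    have h1 : (2 * Complex.I * s : ℂ) = ((2 * s : ℝ) : ℂ) * Complex.I := by
      push_cast; ring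
    rw [h1]
    apply Complex.ext
    · rw [Complex.exp_ofReal_mul_I_re, Real.cos_two_mul]
      show 2 * Real.cos s ^ 2 - 1 = Real.cos s ^ 2 - Real.sin s ^ 2
      linarith
    · rw [Complex.exp_ofReal_mul_I_im, Real.sin_two_mul]
  have h00 : (rot s * X * rot (-s)) 0 0 = Real.cos s * X 0 0 * Real.cos s
      - Real.sin s * X 1 0 * Real.cos s - Real.cos s * X 0 1 * Real.sin s
      + Real.sin s * X 1 1 * Real.sin s := by
    simp only [Matrix.mul_apply, Fin.sum_univ_two, rot]
    simp
    ring
  have h01 : (rot s * X * rot (-s)) 0 1 = Real.cos s * X 0 0 * Real.sin s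
      - Real.sin s * X 1 0 * Real.sin s + Real.cos s * X 0 1 * Real.cos s
      - Real.sin s * X 1 1 * Real.cos s := by
    simp only [Matrix.mul_apply, Fin.sum_univ_two, rot]
    simp
    ring
  have h10 : (rot s * X * rot (-s)) 1 0 = Real.sin s * X 0 0 * Real.cos s
      + Real.cos s * X 1 0 * Real.cos s - Real.sin s * X 0 1 * Real.sin s
      - Real.cos s * X 1 1 * Real.sin s := by
    simp only [Matrix.mul_apply, Fin.sum_univ_two, rot]
    simp
    ring
  have h11 : (rot s * X * rot (-s)) 1 1 = Real.sin s * X 0 0 * Real.sin s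
      + Real.cos s * X 1 0 * Real.sin s + Real.sin s * X 0 1 * Real.cos s
      + Real.cos s * X 1 1 * Real.cos s := by
    simp only [Matrix.mul_apply, Fin.sum_univ_two, rot]
    simp
    ring
  refine ⟨?_, ?_, ?_⟩
  · apply Complex.ext
    · simp only [al, h00, h11]
      linear_combination ((X 0 0 + X 1 1) / 2) * hcs
    · simp only [al, h10, h01]
      linear_combination ((X 1 0 - X 0 1) / 2) * hcs
  · rw [hexp]
    apply Complex.ext
    · simp only [be, h00, h11, h10, h01, Complex.mul_re]
      ring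
    · simp only [be, h00, h11, h10, h01, Complex.mul_im]
      ring
  · rw [Matrix.trace_fin_two, Matrix.trace_fin_two, h00, h11]
    linear_combination (X 0 0 + X 1 1) * hcs

private theorem mGoodU_kst (s t : ℝ) (m : ℤ) (j : Fin 2) :
    MU.kst s t (ee (m, j)) = Complex.exp (-Complex.I * (2 * (m : ℂ) * s)) • ee (m, j) := by
  show Finsupp.linearCombination ℂ _ (Finsupp.single (m, j) 1) = _
  rw [Finsupp.linearCombination_single, one_smul]
  congr 2
  simp [MU]

private theorem mGoodU_step (W : Submodule ℂ (ℤ × Fin 2 →₀ ℂ))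
    (hW : ∀ X Y, ∀ v ∈ W, MU.A X Y v ∈ W) (m : ℤ) (hm : m ≠ 0)
    (h : ee (m, (1 : Fin 2)) ∈ W) :
    ee (m - 1, (1 : Fin 2)) ∈ W ∧ ee (m + 1, (1 : Fin 2)) ∈ W := by
  have h1 := hW !![1, 0; 0, -1] 0 _ h
  have h2 := hW !![0, 1; 1, 0] 0 _ h
  rw [mGoodU_act] at h1 h2
  have e1 : be !![(1 : ℝ), 0; 0, -1] = 1 := by apply Complex.ext <;> simp [be]
  have e2 : be !![(0 : ℝ), 1; 1, 0] = Complex.I := by apply Complex.ext <;> simp [be]
  have e3 : mGoodU_t !![(1 : ℝ), 0; 0, -1] = 0 := by simp [mGoodU_t, al]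
  have e4 : mGoodU_t !![(0 : ℝ), 1; 1, 0] = 0 := by simp [mGoodU_t, al]
  have e5 : (!![(1 : ℝ), 0; 0, -1] : Mat2).trace = 0 := by simp [Matrix.trace, Fin.sum_univ_two]
  have e6 : (!![(0 : ℝ), 1; 1, 0] : Mat2).trace = 0 := by simp [Matrix.trace, Fin.sum_univ_two]
  rw [e1, e3, e5] at h1
  rw [e2, e4, e6] at h2
  have hm' : (m : ℂ) ≠ 0 := by exact_mod_cast hm
  have hI : Complex.I * Complex.I = -1 := Complex.I_mul_I
  constructor
  · have h3 := W.smul_mem (-(1 / (2 * (m : ℂ)))) (W.sub_mem h1 (W.smul_mem Complex.I h2))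
    convert h3 using 1
    simp only [map_one, Complex.conj_I, Complex.ofReal_zero, ite_self, zero_smul, add_zero,
      mul_zero]
    match_scalars
    · field_simp
      linear_combination hI
    · field_simp
      linear_combination hI
  · have h3 := W.smul_mem (1 / (2 * (m : ℂ))) (W.add_mem h1 (W.smul_mem Complex.I h2))
    convert h3 using 1
    simp only [map_one, Complex.conj_I, Complex.ofReal_zero, ite_self, zero_smul, add_zero,
      mul_zero]
    match_scalars
    · field_simp
      linear_combination hI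
    · field_simp
      linear_combination hI

private theorem mGoodU_fg : ∃ S : Finset (ℤ × Fin 2 →₀ ℂ), ∀ W : Submodule ℂ (ℤ × Fin 2 →₀ ℂ),
    (∀ X Y, ∀ v ∈ W, MU.A X Y v ∈ W) → (S : Set (ℤ × Fin 2 →₀ ℂ)) ⊆ W → W = ⊤ := by
  classical
  refine ⟨{ee (1, 1), ee (-1, 1)}, fun W hW hS => ?_⟩
  have h1 : ee ((1 : ℤ), (1 : Fin 2)) ∈ W := hS (by simp)
  have h2 : ee ((-1 : ℤ), (1 : Fin 2)) ∈ W := hS (by simp)
  have hpos : ∀ n : ℕ, ee ((n : ℤ) + 1, (1 : Fin 2)) ∈ W := by
    intro n
    induction n with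
    | zero => simpa using h1
    | succ n ih =>
      have := (mGoodU_step W hW ((n : ℤ) + 1) (by omega) ih).2
      push_cast
      exact this
  have hneg : ∀ n : ℕ, ee (-(n : ℤ) - 1, (1 : Fin 2)) ∈ W := by
    intro n
    induction n with
    | zero => simpa using h2
    | succ n ih =>
      have := (mGoodU_step W hW (-(n : ℤ) - 1) (by omega) ih).1
      push_cast
      have e : -((n : ℤ) + 1) - 1 = -(n : ℤ) - 1 - 1 := by ring
      rw [e]
      exact this
  have hzero : ee ((0 : ℤ), (1 : Fin 2)) ∈ W := by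
    have := (mGoodU_step W hW 1 one_ne_zero h1).1
    simpa using this
  have hall1 : ∀ m : ℤ, ee (m, (1 : Fin 2)) ∈ W := by
    intro m
    rcases lt_trichotomy m 0 with h | h | h
    · obtain ⟨n, hn⟩ := Int.eq_ofNat_of_zero_le (show 0 ≤ -m - 1 by omega)
      have := hneg n
      rwa [show -(n : ℤ) - 1 = m by omega] at this
    · rw [h]; exact hzero
    · obtain ⟨n, hn⟩ := Int.eq_ofNat_of_zero_le (show 0 ≤ m - 1 by omega)
      have := hpos n
      rwa [show (n : ℤ) + 1 = m by omega] at this
  have hall0 : ∀ m : ℤ, ee (m, (0 : Fin 2)) ∈ W := by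
    intro m
    have h3 := hW 1 0 _ (hall1 m)
    rw [mGoodU_act] at h3
    have e1 : be (1 : Mat2) = 0 := by apply Complex.ext <;> simp [be]
    have e3 : mGoodU_t (1 : Mat2) = 0 := by simp [mGoodU_t, al]
    have e5 : (1 : Mat2).trace = 2 := by simp [Matrix.trace_one]
    rw [e1, e3, e5] at h3
    have h4 := W.smul_mem (1 / 2 : ℂ) h3
    convert h4 using 1
    simp
  rw [eq_top_iff]
  intro v _
  induction v using Finsupp.induction_linear with
  | zero => exact W.zero_mem
  | add u v hu hv => exact W.add_mem (hu trivial) (hv trivial)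
  | single i c =>
    have : Finsupp.single i c = c • ee i := by simp
    rw [this]
    apply W.smul_mem
    obtain ⟨m, j⟩ := i
    fin_cases j
    · exact hall0 m
    · exact hall1 m

private theorem mGoodU_l1_add {I : Type} (u v : I →₀ ℂ) :
    ((u + v).sum fun _ c => ‖c‖) ≤ (u.sum fun _ c => ‖c‖) + v.sum fun _ c => ‖c‖ := by
  classical
  have h0 : ∀ i ∈ u.support ∪ v.support, ‖(0 : ℂ)‖ = 0 := fun _ _ => norm_zero
  rw [Finsupp.sum_of_support_subset (u + v) Finsupp.support_add (fun _ c => ‖c‖) h0,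
    Finsupp.sum_of_support_subset u Finset.subset_union_left (fun _ c => ‖c‖) h0,
    Finsupp.sum_of_support_subset v Finset.subset_union_right (fun _ c => ‖c‖) h0,
    ← Finset.sum_add_distrib]
  exact Finset.sum_le_sum fun i _ => norm_add_le _ _

private theorem mGoodU_l1_single {I : Type} (i : I) (c : ℂ) :
    ((c • ee i).sum fun _ c => ‖c‖) = ‖c‖ := by
  rw [Finsupp.smul_single, smul_eq_mul, mul_one, Finsupp.sum_single_index (by simp)]

private theorem mGoodU_good : MU.Good where
  add := by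
    intro X X' Y Y'
    apply mGoodU_ext
    intro m j
    rw [LinearMap.add_apply, mGoodU_act, mGoodU_act, mGoodU_act, mGoodU_be_add, mGoodU_t_add,
      Matrix.trace_add, map_add]
    split_ifs <;> push_cast <;> module
  smul := by
    intro c X Y
    apply mGoodU_ext
    intro m j
    rw [LinearMap.smul_apply, mGoodU_act, mGoodU_act, mGoodU_be_smul, mGoodU_t_smul,
      Matrix.trace_smul, map_mul, Complex.conj_ofReal, smul_eq_mul]
    split_ifs <;> push_cast <;> module
  br := by
    intro X X' Y Y'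
    apply mGoodU_ext
    intro m j
    have htr : (X * X' - X' * X).trace = 0 := by
      rw [Matrix.trace_sub, Matrix.trace_mul_comm, sub_self]
    rw [LinearMap.sub_apply, Module.End.mul_apply, Module.End.mul_apply, mGoodU_act,
      mGoodU_act X', mGoodU_act X, htr, mGoodU_be_br, mGoodU_t_br]
    simp only [map_add, map_smul, map_sub, map_mul, mGoodU_t_conj, mGoodU_act]
    rw [show m - 1 + 1 = m by ring, show m + 1 - 1 = m by ring]
    push_cast
    by_cases hj : j = 1
    · subst hj
      simp only [if_true]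
      module
    · simp only [hj, if_false]
      module
  rot := by
    intro s t X Y
    apply mGoodU_ext
    intro m j
    obtain ⟨h1, h2, h3⟩ := mGoodU_rot_mat s X
    have h4 : mGoodU_t (rot s * X * rot (-s)) = mGoodU_t X := by
      rw [mGoodU_t, mGoodU_t, h1]
    rw [Module.End.mul_apply, Module.End.mul_apply, mGoodU_kst, map_smul, mGoodU_act, mGoodU_act,
      h2, h3, h4]
    simp only [map_add, map_smul, mGoodU_kst, map_mul]
    have e1 : Complex.exp (-Complex.I * (2 * ((m - 1 : ℤ) : ℂ) * s)) =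
        Complex.exp (-Complex.I * (2 * (m : ℂ) * s)) * Complex.exp (2 * Complex.I * s) := by
      rw [← Complex.exp_add]; congr 1; push_cast; ring
    have e3 : conj (Complex.exp (2 * Complex.I * s)) = Complex.exp (-(2 * Complex.I * s)) := by
      rw [← Complex.exp_conj]; congr 1
      apply Complex.ext <;> simp
    have e2 : Complex.exp (-Complex.I * (2 * ((m + 1 : ℤ) : ℂ) * s)) =
        Complex.exp (-Complex.I * (2 * (m : ℂ) * s)) * Complex.exp (-(2 * Complex.I * s)) := by
      rw [← Complex.exp_add]; congr 1; push_cast; ring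
    rw [e1, e2, e3]
    module
  J1 := by
    rintro ⟨m, j⟩
    rw [mGoodU_act]
    have e1 : be Jm = 0 := by apply Complex.ext <;> simp [be, Jm]
    have e3 : mGoodU_t Jm = 2 * Complex.I := by simp [mGoodU_t, al, Jm]
    have e5 : Jm.trace = 0 := by simp [Matrix.trace, Jm]
    rw [e1, e3, e5]
    simp only [MU, map_zero, mul_zero, zero_smul, Complex.ofReal_zero, ite_self, add_zero, zero_add]
    push_cast
    module
  J2 := by
    rintro ⟨m, j⟩
    rw [mGoodU_act]
    have e1 : be 0 = 0 := by apply Complex.ext <;> simp [be]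
    have e3 : mGoodU_t 0 = 0 := by simp [mGoodU_t, al]
    rw [e1, e3, Matrix.trace_zero]
    simp [MU]
  fib := by
    intro a b
    apply Set.Finite.subset ((Set.finite_singleton (a / 2)).prod (Set.finite_univ (α := Fin 2)))
    rintro ⟨m, j⟩ ⟨h1, _⟩
    have h2 : 2 * m = a := h1
    simp only [Set.mem_prod, Set.mem_singleton_iff, Set.mem_univ, and_true]
    omega
  fg := mGoodU_fg

private theorem mGoodU_size : MU.Size sz1 where
  supp := by
    rintro X Y ⟨m, j⟩ ⟨m', j'⟩ h
    rw [mGoodU_act, Finsupp.mem_support_iff] at h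
    by_contra hcon
    apply h
    have hc : ¬ m'.natAbs ≤ m.natAbs + 1 := hcon
    have h1 : (m - 1, j) ≠ (m', j') := by
      intro e; have := (Prod.mk.inj e).1; omega
    have h2 : (m, j) ≠ (m', j') := by
      intro e; have := (Prod.mk.inj e).1; omega
    have h3 : (m + 1, j) ≠ (m', j') := by
      intro e; have := (Prod.mk.inj e).1; omega
    have h4 : (m, (0 : Fin 2)) ≠ (m', j') := by
      intro e; have := (Prod.mk.inj e).1; omega
    simp only [Finsupp.add_apply, Finsupp.smul_apply, Finsupp.single_eq_of_ne h1.symm,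
      Finsupp.single_eq_of_ne h2.symm, Finsupp.single_eq_of_ne h3.symm,
      Finsupp.single_eq_of_ne h4.symm, smul_zero, add_zero]
  bd := by
    intro X Y
    refine ⟨2 * ‖be X‖ + ‖mGoodU_t X‖ + |X.trace|, ?_⟩
    rintro ⟨m, j⟩
    rw [mGoodU_act]
    refine (mGoodU_l1_add _ _).trans ?_
    refine (add_le_add_left ((mGoodU_l1_add _ _).trans
      (add_le_add_left (mGoodU_l1_add _ _) _)) _).trans ?_
    simp only [mGoodU_l1_single]
    have h1 : ‖-(m : ℂ) * be X‖ = |(m : ℝ)| * ‖be X‖ := by
      rw [norm_mul, norm_neg, Complex.norm_intCast]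
    have h2 : ‖-(m : ℂ) * mGoodU_t X‖ = |(m : ℝ)| * ‖mGoodU_t X‖ := by
      rw [norm_mul, norm_neg, Complex.norm_intCast]
    have h3 : ‖(m : ℂ) * conj (be X)‖ = |(m : ℝ)| * ‖be X‖ := by
      rw [norm_mul, Complex.norm_intCast, RCLike.norm_conj]
    have h4 : ‖(if j = 1 then (X.trace : ℂ) else 0)‖ ≤ |X.trace| := by
      split_ifs
      · rw [Complex.norm_real, Real.norm_eq_abs]
      · simp
    have h5 : ((sz1 (m, j) : ℕ) : ℝ) = |(m : ℝ)| := by
      show ((m.natAbs : ℕ) : ℝ) = |(m : ℝ)|
      rw [Nat.cast_natAbs, Int.cast_abs]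
    rw [h1, h2, h3, h5]
    have h6 := abs_nonneg (m : ℝ)
    have h7 := norm_nonneg (be X)
    have h8 := norm_nonneg (mGoodU_t X)
    have h9 := abs_nonneg X.trace
    nlinarith [mul_nonneg h6 h9]

/-- TARGET -/
theorem mGoodU : S_goodU := ⟨mGoodU_good, mGoodU_size⟩

end Pool.Agent.H913.LG
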