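import Pool.Agent.H913.LG.Stmts

open Matrix NormedSpace
open scoped Matrix ComplexConjugate

namespace Pool.Agent.H913.LG

open Pool.Agent.H913.SGP

theorem mInj_pw (m : ℤ) (ρ : ℝ) (hρ : 0 < ρ) (u : ℂ) (hu : ‖u‖ = 1) :
    pw m ((ρ : ℂ) * u) = (ρ : ℂ) ^ m.natAbs * u ^ m := by
  have hu0 : u ≠ 0 := by
    intro h
    rw [h, norm_zero] at hu
    exact zero_ne_one hu
  have hconj : conj u = u⁻¹ := by
    rw [Complex.inv_def, Complex.normSq_eq_norm_sq, hu]
    simp
  unfold pw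
  split_ifs with h
  · obtain ⟨n, rfl⟩ := Int.eq_ofNat_of_zero_le h
    simp [mul_pow]
  · obtain ⟨n, hn⟩ := Int.eq_ofNat_of_zero_le (show 0 ≤ -m by omega)
    have hm : m = -(n : ℤ) := by omega
    rw [hm]
    simp [mul_pow, hconj]

theorem mInj_circ : Set.Infinite {u : ℂ | ‖u‖ = 1} := by
  have h : Set.Infinite (Set.range fun t : ℝ => Complex.exp ((Real.arctan t : ℂ) * Complex.I)) := by
    apply Set.infinite_range_of_injective
    intro s t hst
    have hst' : Complex.exp ((Real.arctan s : ℂ) * Complex.I)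
        = Complex.exp ((Real.arctan t : ℂ) * Complex.I) := hst
    have h1 := congrArg Complex.arg hst'
    rw [Complex.arg_exp_mul_I, Complex.arg_exp_mul_I] at h1
    have hs : toIocMod Real.two_pi_pos (-Real.pi) (Real.arctan s) = Real.arctan s := by
      rw [toIocMod_eq_self]
      constructor
      · linarith [Real.neg_pi_div_two_lt_arctan s, Real.pi_pos]
      · linarith [Real.arctan_lt_pi_div_two s, Real.pi_pos]
    have ht : toIocMod Real.two_pi_pos (-Real.pi) (Real.arctan t) = Real.arctan t := by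
      rw [toIocMod_eq_self]
      constructor
      · linarith [Real.neg_pi_div_two_lt_arctan t, Real.pi_pos]
      · linarith [Real.arctan_lt_pi_div_two t, Real.pi_pos]
    rw [hs, ht] at h1
    exact Real.arctan_injective h1
  refine h.mono ?_
  rintro _ ⟨t, rfl⟩
  exact Complex.norm_exp_ofReal_mul_I _

theorem mInj_key (T : Finset ℤ) (c : ℤ → ℂ) (ρ : ℝ) (hρ : 0 < ρ)
    (h : ∀ u : ℂ, ‖u‖ = 1 → ∑ m ∈ T, c m * pw m ((ρ : ℂ) * u) = 0) : ∀ m ∈ T, c m = 0 := by
  classical
  obtain ⟨N, hN⟩ : ∃ N : ℕ, ∀ m ∈ T, 0 ≤ m + N := by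
    refine ⟨∑ m ∈ T, m.natAbs, fun m hm => ?_⟩
    have h1 : m.natAbs ≤ ∑ m ∈ T, m.natAbs :=
      Finset.single_le_sum (f := fun m : ℤ => m.natAbs) (fun _ _ => Nat.zero_le _) hm
    omega
  obtain ⟨P, hP⟩ : ∃ P : Polynomial ℂ, P = ∑ m ∈ T,
      Polynomial.C (c m * (ρ : ℂ) ^ m.natAbs) * Polynomial.X ^ (m + N).toNat := ⟨_, rfl⟩
  have hroot : ∀ u : ℂ, ‖u‖ = 1 → P.IsRoot u := by
    intro u hu
    have hu0 : u ≠ 0 := by
      intro h
      rw [h, norm_zero] at hu
      exact zero_ne_one hu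
    have e : Polynomial.eval u P = u ^ N * ∑ m ∈ T, c m * pw m ((ρ : ℂ) * u) := by
      rw [hP, Polynomial.eval_finset_sum, Finset.mul_sum]
      refine Finset.sum_congr rfl fun m hm => ?_
      rw [Polynomial.eval_mul, Polynomial.eval_C, Polynomial.eval_pow, Polynomial.eval_X,
        mInj_pw m ρ hρ u hu]
      have hz : u ^ (m + N).toNat = u ^ N * u ^ m := by
        rw [← zpow_natCast u (m + N).toNat, Int.toNat_of_nonneg (hN m hm), zpow_add₀ hu0,
          zpow_natCast, mul_comm]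
      rw [hz]
      ring
    rw [Polynomial.IsRoot.def, e, h u hu, mul_zero]
  have hP0 : P = 0 := by
    apply Polynomial.eq_zero_of_infinite_isRoot
    exact mInj_circ.mono (fun u hu => hroot u hu)
  intro m hm
  have hc : P.coeff (m + N).toNat = c m * (ρ : ℂ) ^ m.natAbs := by
    rw [hP, Polynomial.finset_sum_coeff]
    rw [Finset.sum_eq_single m]
    · rw [Polynomial.coeff_C_mul_X_pow, if_pos rfl]
    · intro m' hm' hne
      rw [Polynomial.coeff_C_mul_X_pow, if_neg]
      intro heq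
      have h1 := hN m hm
      have h2 := hN m' hm'
      omega
    · intro hn
      exact absurd hm hn
  rw [hP0, Polynomial.coeff_zero] at hc
  have hρ' : ((ρ : ℂ)) ^ m.natAbs ≠ 0 := pow_ne_zero _ (by exact_mod_cast hρ.ne')
  rcases mul_eq_zero.1 hc.symm with h | h
  · exact h
  · exact absurd h hρ'

theorem mInj_sum2 (v : ℤ × Fin 2 →₀ ℂ) (φ : ℤ → ℂ) (α : Fin 2 → ℂ) :
    (v.sum fun i c => c * φ i.1 * α i.2) =
      ∑ m ∈ v.support.image Prod.fst, (v (m, 0) * α 0 + v (m, 1) * α 1) * φ m := by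
  classical
  rw [Finsupp.sum_of_support_subset v (s := v.support.image Prod.fst ×ˢ Finset.univ)]
  · rw [Finset.sum_product]
    refine Finset.sum_congr rfl fun m _ => ?_
    rw [Fin.sum_univ_two]
    ring
  · intro i hi
    rw [Finset.mem_product]
    exact ⟨Finset.mem_image_of_mem _ hi, Finset.mem_univ _⟩
  · intro i _
    ring

theorem mInj_zero2 (v : ℤ × Fin 2 →₀ ℂ)
    (h0 : ∀ m ∈ v.support.image Prod.fst, v (m, 0) = 0)
    (h1 : ∀ m ∈ v.support.image Prod.fst, v (m, 1) = 0) : v = 0 := by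
  classical
  by_contra hne
  obtain ⟨i, hi⟩ := Finsupp.support_nonempty_iff.2 hne
  have hm : i.1 ∈ v.support.image Prod.fst := Finset.mem_image_of_mem _ hi
  rw [Finsupp.mem_support_iff] at hi
  obtain ⟨m, j⟩ := i
  fin_cases j
  · exact hi (h0 m hm)
  · exact hi (h1 m hm)

theorem mInj_one (w : ℂ) : mobI 1 w = w := by
  unfold mobI mob
  have e : mt (1 : Gp)⁻¹ = (1 : Mat2) := by
    rw [inv_one]
    rfl
  rw [e]
  have ha : al (1 : Mat2) = 1 := by
    unfold al
    apply Complex.ext <;> simp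
  have hb : be (1 : Mat2) = 0 := by
    unfold be
    apply Complex.ext <;> simp
  rw [ha, hb]
  simp

theorem mInj_sg (j k : Fin 2) : sg 1 j k = if j = k then 1 else 0 := by
  unfold sg
  have e : mt (1 : Gp) = (1 : Mat2) := rfl
  rw [e]
  have ha : al (1 : Mat2) = 1 := by
    unfold al
    apply Complex.ext <;> simp
  have hb : be (1 : Mat2) = 0 := by
    unfold be
    apply Complex.ext <;> simp
  rw [ha, hb]
  fin_cases j <;> fin_cases k <;> simp

theorem mInj_F0 (v : ℤ →₀ ℂ) (ρ : ℝ) (hρ : 0 < ρ)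
    (h : ∀ u : ℂ, ‖u‖ = 1 → (v.sum fun m c => c * pw m ((ρ : ℂ) * u)) = 0) : v = 0 := by
  have h1 := mInj_key v.support v ρ hρ h
  by_contra hne
  obtain ⟨i, hi⟩ := Finsupp.support_nonempty_iff.2 hne
  have h2 := h1 i hi
  rw [Finsupp.mem_support_iff] at hi
  exact hi h2

theorem mInj_FU (v : ℤ × Fin 2 →₀ ℂ) (ρ : ℝ) (hρ : 0 < ρ) (x : ℂ → ℂ)
    (h : ∀ u : ℂ, ‖u‖ = 1 → ∀ j : Fin 2, (v.sum fun i c => c * pw i.1 ((ρ : ℂ) * u) *
      (if j = 0 then (if i.2 = 0 then 1 else x u) else (if i.2 = 0 then 0 else 1))) = 0) :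
    v = 0 := by
  have h1 : ∀ m ∈ v.support.image Prod.fst, v (m, 1) = 0 := by
    apply mInj_key _ (fun m => v (m, 1)) ρ hρ
    intro u hu
    have h2 := h u hu 1
    rw [mInj_sum2 v (fun m => pw m ((ρ : ℂ) * u))
      (fun k => if (1 : Fin 2) = 0 then (if k = 0 then 1 else x u) else (if k = 0 then 0 else 1))] at h2
    rw [← h2]
    refine Finset.sum_congr rfl fun m _ => ?_
    simp
  have h0 : ∀ m ∈ v.support.image Prod.fst, v (m, 0) = 0 := by
    apply mInj_key _ (fun m => v (m, 0)) ρ hρ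
    intro u hu
    have h2 := h u hu 0
    rw [mInj_sum2 v (fun m => pw m ((ρ : ℂ) * u))
      (fun k => if (0 : Fin 2) = 0 then (if k = 0 then 1 else x u) else (if k = 0 then 0 else 1))] at h2
    rw [← h2]
    refine Finset.sum_congr rfl fun m hm => ?_
    rw [h1 m hm]
    simp
  exact mInj_zero2 v h0 h1

theorem mInj_FD (v : ℤ × Fin 2 →₀ ℂ) (ρ : ℝ) (hρ : 0 < ρ)
    (h : ∀ u : ℂ, ‖u‖ = 1 → ∀ j : Fin 2, (v.sum fun i c => c * pw i.1 ((ρ : ℂ) * u) *
      sg 1 j i.2) = 0) :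
    v = 0 := by
  have h1 : ∀ m ∈ v.support.image Prod.fst, v (m, 1) = 0 := by
    apply mInj_key _ (fun m => v (m, 1)) ρ hρ
    intro u hu
    have h2 := h u hu 1
    rw [mInj_sum2 v (fun m => pw m ((ρ : ℂ) * u)) (fun k => sg 1 1 k)] at h2
    rw [← h2]
    refine Finset.sum_congr rfl fun m _ => ?_
    simp [mInj_sg]
  have h0 : ∀ m ∈ v.support.image Prod.fst, v (m, 0) = 0 := by
    apply mInj_key _ (fun m => v (m, 0)) ρ hρ
    intro u hu
    have h2 := h u hu 0
    rw [mInj_sum2 v (fun m => pw m ((ρ : ℂ) * u)) (fun k => sg 1 0 k)] at h2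
    rw [← h2]
    refine Finset.sum_congr rfl fun m _ => ?_
    simp [mInj_sg]
  exact mInj_zero2 v h0 h1

theorem mInj_FT (v : ℤ × ℤ →₀ ℂ)
    (h : ∀ w : ℂ × ℂ, ‖w.1‖ = 1 → ‖w.2‖ = 1 →
      (v.sum fun i c => c * (pw i.1 w.1 * pw i.2 w.2)) = 0) : v = 0 := by
  classical
  have e : ∀ w : ℂ × ℂ, (v.sum fun i c => c * (pw i.1 w.1 * pw i.2 w.2)) =
      ∑ n ∈ v.support.image Prod.snd, (∑ m ∈ v.support.image Prod.fst, v (m, n) * pw m w.1) *
        pw n w.2 := by
    intro w
    rw [Finsupp.sum_of_support_subset v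
      (s := v.support.image Prod.fst ×ˢ v.support.image Prod.snd)]
    · rw [Finset.sum_product_right]
      refine Finset.sum_congr rfl fun n _ => ?_
      rw [Finset.sum_mul]
      refine Finset.sum_congr rfl fun m _ => ?_
      ring
    · intro i hi
      rw [Finset.mem_product]
      exact ⟨Finset.mem_image_of_mem _ hi, Finset.mem_image_of_mem _ hi⟩
    · intro i _
      ring
  have h1 : ∀ a : ℂ, ‖a‖ = 1 → ∀ n ∈ v.support.image Prod.snd,
      (∑ m ∈ v.support.image Prod.fst, v (m, n) * pw m a) = 0 := by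
    intro a ha
    apply mInj_key _ (fun n => ∑ m ∈ v.support.image Prod.fst, v (m, n) * pw m a) 1 one_pos
    intro u hu
    have h2 := h (a, u) ha hu
    rw [e] at h2
    simpa using h2
  have h2 : ∀ n ∈ v.support.image Prod.snd, ∀ m ∈ v.support.image Prod.fst, v (m, n) = 0 := by
    intro n hn
    apply mInj_key _ (fun m => v (m, n)) 1 one_pos
    intro u hu
    have h3 := h1 u hu n hn
    simpa using h3
  by_contra hne
  obtain ⟨i, hi⟩ := Finsupp.support_nonempty_iff.2 hne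
  have h3 := h2 i.2 (Finset.mem_image_of_mem _ hi) i.1 (Finset.mem_image_of_mem _ hi)
  rw [Finsupp.mem_support_iff] at hi
  exact hi h3

/-- TARGET -/
theorem m_inj (h1 : S_AA) : S_inj := by
  obtain ⟨-, -, -, -, -, -, -, hsurj, -, -, -⟩ := h1
  have hhalf : ∀ u : ℂ, ‖u‖ = 1 → ∃ g : Gp, mobI g 0 = ((1 / 2 : ℝ) : ℂ) * u := by
    intro u hu
    apply hsurj
    rw [norm_mul, hu, Complex.norm_real]
    norm_num
  refine ⟨?_, ?_, ?_, ?_, ?_, ?_, ?_⟩
  · intro v hv
    apply mInj_F0 v 1 one_pos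
    intro u hu
    have h2 := hv u hu
    unfold F0 at h2
    rw [← h2]
    have e : mobI (1 : Gd).1 u = u := mInj_one u
    rw [e]
    simp
  · intro v hv
    apply mInj_F0 v (1 / 2) (by norm_num)
    intro u hu
    obtain ⟨g, hg⟩ := hhalf u hu
    have h2 := hv (g, 1)
    unfold F0 at h2
    rw [← h2]
    show _ = v.sum fun m c => c * pw m (mobI g 0)
    rw [hg]
  · intro v hv
    apply mInj_FU v 1 one_pos (fun _ => (xx 1 : ℂ))
    intro u hu j
    have h2 := congrFun (hv u hu) j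
    unfold FU at h2
    have e : mobI (1 : Gd).1 u = u := mInj_one u
    rw [e] at h2
    simpa using h2
  · intro v hv
    have hg : ∀ u : ℂ, ∃ g : Gp, ‖u‖ = 1 → mobI g 0 = ((1 / 2 : ℝ) : ℂ) * u := by
      intro u
      by_cases hu : ‖u‖ = 1
      · obtain ⟨g, hg⟩ := hhalf u hu
        exact ⟨g, fun _ => hg⟩
      · exact ⟨1, fun h => absurd h hu⟩
    choose G hG using hg
    apply mInj_FU v (1 / 2) (by norm_num) (fun u => (xx (G u, 1) : ℂ))
    intro u hu j
    have h2 := congrFun (hv (G u, 1)) j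
    unfold FU at h2
    have e : mobI (G u, (1 : Gp)).1 0 = ((1 / 2 : ℝ) : ℂ) * u := hG u hu
    rw [e] at h2
    exact h2
  · intro v hv
    apply mInj_FD v 1 one_pos
    intro u hu j
    have h2 := congrFun (hv u hu) j
    unfold FD at h2
    have e : mobI (1 : Gd).1 u = u := mInj_one u
    rw [e] at h2
    have e2 : (1 : Gd).2 = 1 := rfl
    rw [e2] at h2
    simpa using h2
  · intro v hv
    apply mInj_FD v (1 / 2) (by norm_num)
    intro u hu j
    obtain ⟨g, hg⟩ := hhalf u hu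
    have h2 := congrFun (hv (g, 1)) j
    unfold FD at h2
    have e : mobI (g, (1 : Gp)).1 0 = ((1 / 2 : ℝ) : ℂ) * u := hg
    rw [e] at h2
    exact h2
  · intro v hv
    apply mInj_FT v
    intro w hw1 hw2
    have h2 := hv w hw1 hw2
    unfold FT at h2
    have e1 : mobI (1 : Gd).1 w.1 = w.1 := mInj_one w.1
    have e2 : mobI (1 : Gd).2 w.2 = w.2 := mInj_one w.2
    rw [e1, e2] at h2
    exact h2

end Pool.Agent.H913.LG
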