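import Pool.Agent.H913.LG.Stmts

open Matrix NormedSpace
open scoped Matrix ComplexConjugate

namespace Pool.Agent.H913.LG

open Pool.Agent.H913.SGP

theorem mMins_norm1 {V : Type} [AddCommGroup V] [Module ℂ V] {Mo : HCModule GRd rho V}
    {w : Gd → ℝ} {p : V → ℝ} (h : IsNormIn1 Mo w p) : IsNormIn Mo w p := by
  obtain ⟨E, i1, i2, i3, ι, π, h1, h2, h3⟩ := h
  exact ⟨E, i1, i2, i3, ι, π, h1, h2, 1, one_pos, fun g => by rw [one_mul]; exact h3 g⟩

theorem mMins_sn {I : Type} : IsSN (fun v : I →₀ ℂ => v.sum fun _ c => ‖c‖) := by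
  classical
  refine ⟨?_, ?_, ?_⟩
  · intro v
    exact Finset.sum_nonneg fun i _ => norm_nonneg _
  · intro u v
    have hu : (u.sum fun _ c => ‖c‖) = ∑ i ∈ u.support ∪ v.support, ‖u i‖ :=
      Finsupp.sum_of_support_subset u Finset.subset_union_left _ (fun i _ => norm_zero)
    have hv : (v.sum fun _ c => ‖c‖) = ∑ i ∈ u.support ∪ v.support, ‖v i‖ :=
      Finsupp.sum_of_support_subset v Finset.subset_union_right _ (fun i _ => norm_zero)
    have huv : ((u + v).sum fun _ c => ‖c‖) = ∑ i ∈ u.support ∪ v.support, ‖(u + v) i‖ :=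
      Finsupp.sum_of_support_subset (u + v) Finsupp.support_add _ (fun i _ => norm_zero)
    show ((u + v).sum fun _ c => ‖c‖) ≤ (u.sum fun _ c => ‖c‖) + (v.sum fun _ c => ‖c‖)
    rw [hu, hv, huv, ← Finset.sum_add_distrib]
    exact Finset.sum_le_sum fun i _ => norm_add_le _ _
  · intro c v
    have hcv : ((c • v).sum fun _ c => ‖c‖) = ∑ i ∈ v.support, ‖(c • v) i‖ :=
      Finsupp.sum_of_support_subset (c • v) Finsupp.support_smul _ (fun i _ => norm_zero)
    show ((c • v).sum fun _ c => ‖c‖) = ‖c‖ * (v.sum fun _ c => ‖c‖)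
    rw [hcv, Finsupp.sum, Finset.mul_sum]
    refine Finset.sum_congr rfl fun i _ => ?_
    rw [Finsupp.smul_apply, norm_smul]

theorem mMins_pb {I : Type} (sz : I → ℕ) : PB sz (fun v : I →₀ ℂ => v.sum fun _ c => ‖c‖) := by
  refine ⟨1, 0, fun i => ?_⟩
  have h : ((ee i).sum fun _ c => ‖c‖) = ‖(1 : ℂ)‖ :=
    Finsupp.sum_single_index (h := fun (_ : I) (c : ℂ) => ‖c‖) norm_zero
  show ((ee i).sum fun _ c => ‖c‖) ≤ _
  rw [h]
  simp

theorem mMins_mob : mobI (1 : Gd).1 0 = 0 := by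
  have h : mt ((1 : Gd).1)⁻¹ = 1 := by
    show (((((1 : Gp))⁻¹ : Gp) : GL (Fin 2) ℝ) : Mat2) = 1
    rw [inv_one]
    rfl
  unfold mobI mob
  rw [h]
  have hb : be (1 : Mat2) = 0 := by
    unfold be
    apply Complex.ext <;> simp
  rw [hb]
  simp

theorem mMins_pw {m : ℤ} (hm : m ≠ 0) : pw m 0 = 0 := by
  unfold pw
  split_ifs with h
  · have h1 : m.toNat ≠ 0 := by omega
    exact zero_pow h1
  · have h1 : (-m).toNat ≠ 0 := by omega
    rw [map_zero]
    exact zero_pow h1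

/-- TARGET -/
theorem m_mins (h1 : S_AA) (h2 : S_min) (h3 : S_base) (h5 : S_pre0) (h6 : S_preU)
    (h7 : S_preD) (h9 : S_bd) (h10 : S_inj) (h11 : S_good0) (h12 : S_goodU)
    (h13 : S_goodD) : S_mins := by
  have hz : ‖(0 : ℂ)‖ ≤ 1 := by simp
  obtain ⟨⟨b01, b02⟩, ⟨bU1, bU2⟩, ⟨bD1, bD2⟩, -⟩ := h3
  obtain ⟨e0, eU, eD, -⟩ := h9
  obtain ⟨-, i0, -, iU, -, iD, -⟩ := h10
  intro w hw
  refine ⟨fun h hp => ?_, fun h hp => ?_, fun h hp => ?_⟩
  · refine h2 ℤ M0 h sz0 h11.2 _ b01 p0 (mMins_norm1 (b02 h).1) (b02 h).2 ℂ (F0 0) (h5 h 0 hz) i0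
      ⟨_, mMins_sn, mMins_pb _, fun v g => ?_⟩ ⟨{0}, fun v hv => ?_⟩ w hw hp
    · have := e0 0 v g hz
      simpa using this
    · have hv0 := hv 0 (by simp)
      unfold F0
      rw [mMins_mob]
      refine Finset.sum_eq_zero fun m _ => ?_
      by_cases hm : m = 0
      · subst hm
        show v 0 * _ = 0
        rw [hv0, zero_mul]
      · show v m * pw m 0 = 0
        rw [mMins_pw hm, mul_zero]
  · refine h2 (ℤ × Fin 2) MU h sz1 h12.2 _ bU1 pU (mMins_norm1 (bU2 h).1) (bU2 h).2 (Fin 2 → ℂ)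
      (FU 0) (h6 h 0 hz) iU ⟨_, mMins_sn, mMins_pb _, fun v g => eU 0 v g hz⟩
      ⟨{(0, 0), (0, 1)}, fun v hv => ?_⟩ w hw hp
    funext j
    show FU 0 v 1 j = 0
    unfold FU
    rw [mMins_mob]
    refine Finset.sum_eq_zero fun i _ => ?_
    by_cases hm : i.1 = 0
    · have hvi : v i = 0 := by
        apply hv
        obtain ⟨m, k⟩ := i
        simp only at hm
        subst hm
        fin_cases k <;> simp
      show v i * _ * _ = 0
      rw [hvi, zero_mul, zero_mul]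
    · show v i * pw i.1 0 * _ = 0
      rw [mMins_pw hm, mul_zero, zero_mul]
  · refine h2 (ℤ × Fin 2) MD h sz1 h13.2 _ bD1 pD (mMins_norm1 (bD2 h).1) (bD2 h).2 (Fin 2 → ℂ)
      (FD 0) (h7 h 0 hz) iD ⟨_, mMins_sn, mMins_pb _, fun v g => eD 0 v g hz⟩
      ⟨{(0, 0), (0, 1)}, fun v hv => ?_⟩ w hw hp
    funext j
    show FD 0 v 1 j = 0
    unfold FD
    rw [mMins_mob]
    refine Finset.sum_eq_zero fun i _ => ?_
    by_cases hm : i.1 = 0
    · have hvi : v i = 0 := by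
        apply hv
        obtain ⟨m, k⟩ := i
        simp only at hm
        subst hm
        fin_cases k <;> simp
      show v i * _ * _ = 0
      rw [hvi, zero_mul, zero_mul]
    · show v i * pw i.1 0 * _ = 0
      rw [mMins_pw hm, mul_zero, zero_mul]

end Pool.Agent.H913.LG
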