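import Pool.Agent.H913.LG.Stmts

open Matrix NormedSpace
open scoped Matrix ComplexConjugate

namespace Pool.Agent.H913.LG

open Pool.Agent.H913.SGP

/-- `F0` as a linear map -/
noncomputable def mPre0_lin (w : ℂ) (g : Gd) : (ℤ →₀ ℂ) →ₗ[ℂ] ℂ :=
  Finsupp.linearCombination ℂ fun m => pw m (mobI g.1 w)

theorem mPre0_F0_eq (w : ℂ) (v : ℤ →₀ ℂ) (g : Gd) : F0 w v g = mPre0_lin w g v := by
  unfold F0 mPre0_lin
  rw [Finsupp.linearCombination_apply]
  rfl

theorem mPre0_pw_nat (n : ℕ) (z : ℂ) : pw (n : ℤ) z = z ^ n := by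
  unfold pw
  rw [if_pos (Int.natCast_nonneg n)]
  simp

theorem mPre0_pw_neg (n : ℕ) (z : ℂ) : pw (-(n : ℤ)) z = conj z ^ n := by
  unfold pw
  by_cases hn : n = 0
  · subst hn; simp
  · rw [if_neg (by omega)]
    simp

/-- the derivative of a power -/
theorem mPre0_pw_deriv (X : Mat2) (z : ℝ → ℂ) (z0 : ℂ) (hz0 : z 0 = z0)
    (hz : HasDerivAt z (-(be X + 2 * Complex.I * ((al X).im : ℂ) * z0 - conj (be X) * z0 ^ 2)) 0)
    (m : ℤ) : HasDerivAt (fun t => pw m (z t))
      (-(m : ℂ) * be X * pw (m - 1) z0 + -(m : ℂ) * (2 * Complex.I * ((al X).im : ℂ)) * pw m z0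
        + (m : ℂ) * conj (be X) * pw (m + 1) z0) 0 := by
  obtain ⟨n, hn | hn⟩ := m.eq_nat_or_neg
  · subst hn
    simp only [mPre0_pw_nat]
    rcases n with _ | n
    · simp only [pow_zero]
      refine (hasDerivAt_const (0 : ℝ) (1 : ℂ)).congr_deriv ?_
      simp
    · have h1 : ((n + 1 : ℕ) : ℤ) - 1 = (n : ℤ) := by push_cast; ring
      have h2 : ((n + 1 : ℕ) : ℤ) + 1 = ((n + 2 : ℕ) : ℤ) := by push_cast; ring
      rw [h1, h2, mPre0_pw_nat, mPre0_pw_nat]
      have h := hz.fun_pow (n + 1)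
      refine h.congr_deriv ?_
      rw [hz0]
      push_cast
      ring
  · subst hn
    simp only [mPre0_pw_neg]
    rcases n with _ | n
    · simp only [pow_zero]
      refine (hasDerivAt_const (0 : ℝ) (1 : ℂ)).congr_deriv ?_
      simp
    · have h1 : -((n + 1 : ℕ) : ℤ) - 1 = -((n + 2 : ℕ) : ℤ) := by push_cast; ring
      have h2 : -((n + 1 : ℕ) : ℤ) + 1 = -(n : ℤ) := by push_cast; ring
      rw [h1, h2, mPre0_pw_neg, mPre0_pw_neg]
      have hc : HasDerivAt (fun t => conj (z t))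
          (conj (-(be X + 2 * Complex.I * ((al X).im : ℂ) * z0 - conj (be X) * z0 ^ 2))) 0 := by
        have := (Complex.conjCLE.toContinuousLinearMap.hasFDerivAt (x := z 0)).comp_hasDerivAt
          (0 : ℝ) hz
        exact this
      have h := hc.fun_pow (n + 1)
      refine h.congr_deriv ?_
      rw [hz0]
      push_cast
      simp only [map_neg, map_add, map_sub, map_mul, map_pow, Complex.conj_I,
        Complex.conj_ofReal, Complex.conj_conj, map_ofNat]
      ring

/-- the derivative of the Moebius action -/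
theorem mPre0_mob_deriv (M : ℝ → Mat2) (X : Mat2) (h0 : M 0 = 1)
    (hM : ∀ i j, HasDerivAt (fun t => M t i j) (-X i j) 0) (z : ℂ) :
    HasDerivAt (fun t => mob (M t) z)
      (-(be X + 2 * Complex.I * ((al X).im : ℂ) * z - conj (be X) * z ^ 2)) 0 := by
  have hal : HasDerivAt (fun t => al (M t)) (-al X) 0 := by
    have h1 : HasDerivAt (fun t => (M t 0 0 + M t 1 1) / 2) ((-X 0 0 + -X 1 1) / 2) 0 :=
      ((hM 0 0).add (hM 1 1)).div_const 2
    have h2 : HasDerivAt (fun t => (M t 1 0 - M t 0 1) / 2) ((-X 1 0 - -X 0 1) / 2) 0 :=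
      ((hM 1 0).sub (hM 0 1)).div_const 2
    have h3 : HasDerivAt (fun t => (((M t 0 0 + M t 1 1) / 2 : ℝ) : ℂ)
        + (((M t 1 0 - M t 0 1) / 2 : ℝ) : ℂ) * Complex.I)
        ((((-X 0 0 + -X 1 1) / 2 : ℝ) : ℂ) + (((-X 1 0 - -X 0 1) / 2 : ℝ) : ℂ) * Complex.I) 0 :=
      h1.ofReal_comp.add (h2.ofReal_comp.mul_const Complex.I)
    convert h3 using 1
    · funext t
      apply Complex.ext <;> simp [al]
    · apply Complex.ext <;> simp [al] <;> ring
  have hbe : HasDerivAt (fun t => be (M t)) (-be X) 0 := by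
    have h1 : HasDerivAt (fun t => (M t 0 0 - M t 1 1) / 2) ((-X 0 0 - -X 1 1) / 2) 0 :=
      ((hM 0 0).sub (hM 1 1)).div_const 2
    have h2 : HasDerivAt (fun t => (M t 1 0 + M t 0 1) / 2) ((-X 1 0 + -X 0 1) / 2) 0 :=
      ((hM 1 0).add (hM 0 1)).div_const 2
    have h3 : HasDerivAt (fun t => (((M t 0 0 - M t 1 1) / 2 : ℝ) : ℂ)
        + (((M t 1 0 + M t 0 1) / 2 : ℝ) : ℂ) * Complex.I)
        ((((-X 0 0 - -X 1 1) / 2 : ℝ) : ℂ) + (((-X 1 0 + -X 0 1) / 2 : ℝ) : ℂ) * Complex.I) 0 :=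
      h1.ofReal_comp.add (h2.ofReal_comp.mul_const Complex.I)
    convert h3 using 1
    · funext t
      apply Complex.ext <;> simp [be]
    · apply Complex.ext <;> simp [be] <;> ring
  have hcc : ∀ (f : ℝ → ℂ) (d : ℂ), HasDerivAt f d 0 → HasDerivAt (fun t => conj (f t)) (conj d) 0 := by
    intro f d hf
    exact (Complex.conjCLE.toContinuousLinearMap.hasFDerivAt (x := f 0)).comp_hasDerivAt (0 : ℝ) hf
  have hal0 : al (M 0) = 1 := by rw [h0]; apply Complex.ext <;> simp [al]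
  have hbe0 : be (M 0) = 0 := by rw [h0]; apply Complex.ext <;> simp [be]
  have hnum : HasDerivAt (fun t => al (M t) * z + be (M t)) (-al X * z + -be X) 0 :=
    (hal.mul_const z).add hbe
  have hden : HasDerivAt (fun t => conj (be (M t)) * z + conj (al (M t)))
      (conj (-be X) * z + conj (-al X)) 0 :=
    ((hcc _ _ hbe).mul_const z).add (hcc _ _ hal)
  have hd0 : conj (be (M 0)) * z + conj (al (M 0)) ≠ 0 := by rw [hal0, hbe0]; simp
  have h := hnum.fun_div hden hd0
  have hh : (fun t => mob (M t) z) = fun t => (al (M t) * z + be (M t)) /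
      (conj (be (M t)) * z + conj (al (M t))) := by
    funext t; rfl
  rw [hh]
  refine h.congr_deriv ?_
  rw [hal0, hbe0]
  have hcal : conj (al X) = al X - 2 * Complex.I * ((al X).im : ℂ) := by
    apply Complex.ext
    · simp
    · simp; ring
  simp only [map_neg, map_zero, map_one, zero_mul, zero_add, one_mul, add_zero, mul_one, one_pow,
    div_one, hcal]
  ring

/-- derivative of the entries of the exponential -/
theorem mPre0_exp_deriv (Y : Mat2) (i j : Fin 2) :
    HasDerivAt (fun t : ℝ => (exp (t • Y) : Mat2) i j) (Y i j) 0 := by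
  let _ : NormedRing Mat2 := Matrix.linftyOpNormedRing
  let _ : NormedAlgebra ℝ Mat2 := Matrix.linftyOpNormedAlgebra
  have h := hasDerivAt_exp_smul_const (𝕂 := ℝ) Y (0 : ℝ)
  rw [zero_smul, NormedSpace.exp_zero, one_mul] at h
  have h2 := ((LinearMap.toContinuousLinearMap
    (Matrix.entryLinearMap ℝ ℝ i j : Mat2 →ₗ[ℝ] ℝ)).hasFDerivAt
      (x := exp ((0 : ℝ) • Y))).comp_hasDerivAt (0 : ℝ) h
  exact h2

theorem mPre0_gamma_inv (X : Mat 4) (γ : ℝ → Gd) (hγ : IsOneParam rho X γ) (t : ℝ) :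
    (γ t)⁻¹ = γ (-t) := by
  have h0 : γ 0 = 1 := by
    have := hγ.2.1 0 0
    rw [add_zero] at this
    exact (mul_eq_left.1 this.symm)
  have h1 := hγ.2.1 t (-t)
  rw [add_neg_cancel, h0] at h1
  exact inv_eq_of_mul_eq_one_right h1.symm

/-- derivative of the action along a one-parameter group -/
theorem mPre0_mobI_deriv (h1 : S_blk) (X : LieAlg GRd) (γ : ℝ → Gd) (hγ : IsOneParam rho X.1 γ)
    (z : ℂ) :
    HasDerivAt (fun t => mobI (γ t).1 z)
      (-(be (b1 X.1) + 2 * Complex.I * ((al (b1 X.1)).im : ℂ) * z - conj (be (b1 X.1)) * z ^ 2)) 0 := by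
  have hM : ∀ t, mt (γ t).1⁻¹ = exp (t • (-b1 X.1)) := by
    intro t
    have h := (h1.2.2 X γ hγ (-t)).1
    rw [← mPre0_gamma_inv X.1 γ hγ t] at h
    rw [smul_neg, ← neg_smul, ← h]
    rfl
  have := mPre0_mob_deriv (fun t => mt (γ t).1⁻¹) (b1 X.1) (by
    show mt (γ 0).1⁻¹ = 1
    rw [hM, zero_smul, NormedSpace.exp_zero]) (by
    intro i j
    have h := mPre0_exp_deriv (-b1 X.1) i j
    simp only [hM]
    exact h) z
  exact this

theorem mPre0_mobI_zero (X : LieAlg GRd) (γ : ℝ → Gd) (hγ : IsOneParam rho X.1 γ)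
    (z : ℂ) : mobI (γ 0).1 z = z := by
  have h0 : γ 0 = 1 := by
    have := hγ.2.1 0 0
    rw [add_zero] at this
    exact (mul_eq_left.1 this.symm)
  rw [h0]
  have hm : mt ((1 : Gd).1)⁻¹ = 1 := by simp [mt]
  have hal0 : al (1 : Mat2) = 1 := by apply Complex.ext <;> simp [al]
  have hbe0 : be (1 : Mat2) = 0 := by apply Complex.ext <;> simp [be]
  unfold mobI mob
  rw [hm, hal0, hbe0]
  simp

theorem mPre0_rot_inv (g : Gp) (s : ℝ) (h : mt g = rot s) : mt g⁻¹ = rot (-s) := by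
  have h1 : mt g * mt g⁻¹ = 1 := by
    have : mt g * mt g⁻¹ = mt (g * g⁻¹) := by simp [mt]
    rw [this]; simp [mt]
  have h2 : rot (-s) * mt g = 1 := by
    rw [h]
    have hsc := Real.sin_sq_add_cos_sq s
    ext i j
    fin_cases i <;> fin_cases j <;>
      simp [rot, Matrix.mul_apply, Fin.sum_univ_two] <;> nlinarith
  calc mt g⁻¹ = (rot (-s) * mt g) * mt g⁻¹ := by rw [h2, one_mul]
    _ = rot (-s) := by rw [mul_assoc, h1, mul_one]

theorem mPre0_pw_rot (z : ℂ) (s : ℝ) (m : ℤ) :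
    pw m (Complex.exp (-Complex.I * (2 * (s : ℂ))) * z)
      = Complex.exp (-Complex.I * (((2 * m : ℤ) : ℂ) * s)) * pw m z := by
  obtain ⟨n, hn | hn⟩ := m.eq_nat_or_neg
  · subst hn
    rw [mPre0_pw_nat, mPre0_pw_nat, mul_pow, ← Complex.exp_nat_mul]
    congr 2
    push_cast
    ring
  · subst hn
    rw [mPre0_pw_neg, mPre0_pw_neg, map_mul, mul_pow, ← Complex.exp_conj, ← Complex.exp_nat_mul]
    congr 2
    simp only [map_mul, map_neg, Complex.conj_I, Complex.conj_ofReal, map_ofNat]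
    push_cast
    ring

theorem mPre0_mobI_rot (g : Gp) (s : ℝ) (h : mt g = rot s) (z : ℂ) :
    mobI g z = Complex.exp (-Complex.I * (2 * (s : ℂ))) * z := by
  unfold mobI mob
  rw [mPre0_rot_inv g s h]
  have hbe0 : be (rot (-s)) = 0 := by
    apply Complex.ext <;> simp [be, rot]
  have hal0 : al (rot (-s)) = Complex.exp (-Complex.I * (s : ℂ)) := by
    have : -Complex.I * (s : ℂ) = ((-s : ℝ) : ℂ) * Complex.I := by push_cast; ring
    rw [this]
    apply Complex.ext
    · rw [Complex.exp_ofReal_mul_I_re]; simp [al, rot]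
    · rw [Complex.exp_ofReal_mul_I_im]; simp [al, rot]; ring
  rw [hbe0, hal0, ← Complex.exp_conj]
  simp only [map_mul, map_neg, Complex.conj_I, Complex.conj_ofReal, map_zero, zero_mul, add_zero,
    zero_add]
  rw [neg_neg, div_eq_iff (Complex.exp_ne_zero _)]
  have : Complex.exp (-Complex.I * (2 * (s : ℂ))) * z * Complex.exp (Complex.I * (s : ℂ))
      = (Complex.exp (-Complex.I * (2 * (s : ℂ))) * Complex.exp (Complex.I * (s : ℂ))) * z := by ring
  rw [this, ← Complex.exp_add]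
  congr 2
  ring

/-- TARGET -/
theorem mPre0 (h1 : S_blk) (h2 : S_AA) (h3 : S_K) : S_pre0 := by
  intro h w hw
  obtain ⟨-, -, -, -, -, -, -, -, hact, hle, -⟩ := h2
  refine ⟨?_, ?_, ?_, ?_⟩
  · intro u v g
    rw [mPre0_F0_eq, mPre0_F0_eq, mPre0_F0_eq, map_add]
  · intro c v g
    rw [mPre0_F0_eq, mPre0_F0_eq, map_smul]
  · intro X γ hγ v g
    have hz : HasDerivAt (fun t => mobI (g * γ t).1 w)
        (-(be (b1 X.1) + 2 * Complex.I * ((al (b1 X.1)).im : ℂ) * mobI g.1 w
          - conj (be (b1 X.1)) * mobI g.1 w ^ 2)) 0 := by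
      have := mPre0_mobI_deriv h1 X γ hγ (mobI g.1 w)
      have he : (fun t => mobI (g * γ t).1 w) = fun t => mobI (γ t).1 (mobI g.1 w) := by
        funext t
        exact hact g.1 (γ t).1 w hw
      rw [he]
      exact this
    have hz0 : mobI (g * γ 0).1 w = mobI g.1 w := by
      have : mobI (g * γ 0).1 w = mobI (γ 0).1 (mobI g.1 w) := hact g.1 (γ 0).1 w hw
      rw [this]
      exact mPre0_mobI_zero X γ hγ _
    have hsum : HasDerivAt (fun t : ℝ => ∑ m ∈ v.support, v m * pw m (mobI (g * γ t).1 w))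
        (∑ m ∈ v.support, v m *
          (-(m : ℂ) * be (b1 X.1) * pw (m - 1) (mobI g.1 w)
            + -(m : ℂ) * (2 * Complex.I * ((al (b1 X.1)).im : ℂ)) * pw m (mobI g.1 w)
            + (m : ℂ) * conj (be (b1 X.1)) * pw (m + 1) (mobI g.1 w))) 0 := by
      apply HasDerivAt.fun_sum
      intro m _
      exact (mPre0_pw_deriv (b1 X.1) (fun t => mobI (g * γ t).1 w) (mobI g.1 w) hz0 hz m).const_mul
        (v m)
    have hF : (fun t : ℝ => F0 w v (g * γ t)) =
        fun t : ℝ => ∑ m ∈ v.support, v m * pw m (mobI (g * γ t).1 w) := by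
      funext t; rfl
    rw [hF]
    refine hsum.congr_deriv ?_
    symm
    rw [mPre0_F0_eq]
    show mPre0_lin w g (Finsupp.linearCombination ℂ (vfm (b1 X.1)) v) = _
    rw [Finsupp.linearCombination_apply, Finsupp.sum, map_sum]
    refine Finset.sum_congr rfl fun m _ => ?_
    rw [map_smul, smul_eq_mul]
    congr 1
    unfold vfm mPre0_lin
    rw [map_add, map_add, Finsupp.linearCombination_single, Finsupp.linearCombination_single,
      Finsupp.linearCombination_single]
    simp only [smul_eq_mul]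
  · intro k v g
    obtain ⟨c, -, hcs, hc1, hc2⟩ := h3
    obtain ⟨x, rfl⟩ := hcs k
    have hz : mobI (g * (c x).1).1 w
        = Complex.exp (-Complex.I * (2 * (x.1 : ℂ))) * mobI g.1 w := by
      have : mobI (g * (c x).1).1 w = mobI (c x).1.1 (mobI g.1 w) := hact g.1 (c x).1.1 w hw
      rw [this]
      exact mPre0_mobI_rot _ _ (hc1 x).1 _
    show F0 w v (g * (c x).1) = F0 w (kap M0 (c x) v) g
    rw [hc2, mPre0_F0_eq w (M0.kst x.1 x.2 v) g]
    show (∑ m ∈ v.support, v m * pw m (mobI (g * (c x).1).1 w)) = _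
    rw [hz]
    unfold TMod.kst dg
    rw [Finsupp.linearCombination_apply, Finsupp.sum, map_sum]
    refine Finset.sum_congr rfl fun m _ => ?_
    rw [map_smul, map_smul, smul_eq_mul, smul_eq_mul]
    congr 1
    rw [mPre0_pw_rot]
    unfold mPre0_lin
    rw [Finsupp.linearCombination_single, one_smul]
    congr 2
    simp [M0]

end Pool.Agent.H913.LG
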