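import Pool.Agent.H913.LG.Stmts

open Matrix NormedSpace
open scoped Matrix ComplexConjugate

namespace Pool.Agent.H913.LG

open Pool.Agent.H913.SGP

/-- entries of the exponential -/
theorem mPreD_exp_entry (X : Mat2) (i j : Fin 2) :
    HasDerivAt (fun t : ℝ => (exp (t • X) : Mat2) i j) (X i j) 0 := by
  let : SeminormedRing Mat2 := Matrix.linftyOpSemiNormedRing
  let : NormedRing Mat2 := Matrix.linftyOpNormedRing
  let : NormedAlgebra ℝ Mat2 := Matrix.linftyOpNormedAlgebra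
  have h := hasDerivAt_exp_smul_const (𝕂 := ℝ) (𝔸 := Mat2) X (0 : ℝ)
  rw [zero_smul, exp_zero, one_mul] at h
  let L : Mat2 →L[ℝ] ℝ := LinearMap.toContinuousLinearMap (Matrix.entryLinearMap ℝ ℝ i j)
  exact L.hasFDerivAt.comp_hasDerivAt 0 h

theorem mPreD_al (M : Mat2) : al M =
    (((M 0 0 + M 1 1) / 2 : ℝ) : ℂ) + (((M 1 0 - M 0 1) / 2 : ℝ) : ℂ) * Complex.I := by
  apply Complex.ext <;> simp [al]

theorem mPreD_be (M : Mat2) : be M =
    (((M 0 0 - M 1 1) / 2 : ℝ) : ℂ) + (((M 1 0 + M 0 1) / 2 : ℝ) : ℂ) * Complex.I := by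
  apply Complex.ext <;> simp [be]

theorem mPreD_dal {M : ℝ → Mat2} {N : Mat2} (h : ∀ i j, HasDerivAt (fun t => M t i j) (N i j) 0) :
    HasDerivAt (fun t => al (M t)) (al N) 0 := by
  simp only [mPreD_al]
  exact ((((h 0 0).add (h 1 1)).div_const 2).ofReal_comp).add
    (((((h 1 0).sub (h 0 1)).div_const 2).ofReal_comp).mul_const Complex.I)

theorem mPreD_dbe {M : ℝ → Mat2} {N : Mat2} (h : ∀ i j, HasDerivAt (fun t => M t i j) (N i j) 0) :
    HasDerivAt (fun t => be (M t)) (be N) 0 := by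
  simp only [mPreD_be]
  exact ((((h 0 0).sub (h 1 1)).div_const 2).ofReal_comp).add
    (((((h 1 0).add (h 0 1)).div_const 2).ofReal_comp).mul_const Complex.I)

theorem mPreD_conj {f : ℝ → ℂ} {f' : ℂ} {t : ℝ} (h : HasDerivAt f f' t) :
    HasDerivAt (fun t => conj (f t)) (conj f') t := by
  exact (Complex.conjCLE.toContinuousLinearMap.hasFDerivAt (x := f t)).comp_hasDerivAt t h

theorem mPreD_al_one : al 1 = 1 := by
  apply Complex.ext <;> simp [al]

theorem mPreD_be_one : be 1 = 0 := by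
  apply Complex.ext <;> simp [be]

theorem mPreD_al_neg (N : Mat2) : al (-N) = -al N := by
  apply Complex.ext <;> simp [al] <;> ring

theorem mPreD_be_neg (N : Mat2) : be (-N) = -be N := by
  apply Complex.ext <;> simp [be] <;> ring

/-- derivative of the action on the disc -/
theorem mPreD_mob {M : ℝ → Mat2} {N : Mat2} (h0 : M 0 = 1)
    (h : ∀ i j, HasDerivAt (fun t => M t i j) (-(N i j)) 0) (z : ℂ) :
    HasDerivAt (fun t => mob (M t) z)
      (-(be N + 2 * Complex.I * ((al N).im : ℂ) * z - conj (be N) * z ^ 2)) 0 := by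
  have h' : ∀ i j, HasDerivAt (fun t => M t i j) ((-N) i j) 0 := by
    intro i j; simpa using h i j
  have ha := mPreD_dal h'
  have hb := mPreD_dbe h'
  have hn := (ha.mul_const z).add hb
  have hd := ((mPreD_conj hb).mul_const z).add (mPreD_conj ha)
  have hne : conj (be (M 0)) * z + conj (al (M 0)) ≠ 0 := by
    rw [h0, mPreD_al_one, mPreD_be_one]; simp
  have hq := hn.div hd hne
  unfold mob
  refine hq.congr_deriv ?_
  simp only [Pi.add_apply, h0, mPreD_al_one, mPreD_be_one, mPreD_al_neg, mPreD_be_neg]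
  have hal : al N = ((al N).re : ℂ) + ((al N).im : ℂ) * Complex.I := (Complex.re_add_im _).symm
  have hcal : conj (al N) = ((al N).re : ℂ) - ((al N).im : ℂ) * Complex.I := by
    apply Complex.ext <;> simp
  simp only [map_zero, map_one, map_neg, zero_mul, zero_add, one_mul, add_zero, one_pow, div_one,
    mul_one]
  rw [hcal]
  nth_rewrite 1 [hal]
  ring

theorem mPreD_pw_nat (n : ℕ) (z : ℂ) : pw (n : ℤ) z = z ^ n := by
  simp [pw]

theorem mPreD_pw_neg (n : ℕ) (z : ℂ) : pw (-(n : ℤ)) z = conj z ^ n := by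
  unfold pw
  rcases Nat.eq_zero_or_pos n with rfl | hn
  · simp
  · rw [if_neg (by omega)]
    simp

/-- derivative of the powers -/
theorem mPreD_pw {f : ℝ → ℂ} {z b : ℂ} {a : ℝ} (h0 : f 0 = z)
    (h : HasDerivAt f (-(b + 2 * Complex.I * (a : ℂ) * z - conj b * z ^ 2)) 0) (m : ℤ) :
    HasDerivAt (fun t => pw m (f t)) (-(m : ℂ) * b * pw (m - 1) z
      + -(m : ℂ) * (2 * Complex.I * (a : ℂ)) * pw m z + (m : ℂ) * conj b * pw (m + 1) z) 0 := by
  rcases lt_trichotomy m 0 with hm | hm | hm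
  · obtain ⟨n, rfl⟩ : ∃ n : ℕ, m = -((n + 1 : ℕ) : ℤ) := ⟨(-m).toNat - 1, by omega⟩
    have e1 : -((n + 1 : ℕ) : ℤ) - 1 = -((n + 2 : ℕ) : ℤ) := by push_cast; ring
    have e2 : -((n + 1 : ℕ) : ℤ) + 1 = -((n : ℕ) : ℤ) := by push_cast; ring
    rw [e1, e2]
    simp only [mPreD_pw_neg]
    refine ((mPreD_conj h).pow (n + 1)).congr_deriv ?_
    rw [h0]
    simp only [map_neg, map_sub, map_add, map_mul, map_pow, Complex.conj_conj, Complex.conj_I,
      Complex.conj_ofReal, map_ofNat, Nat.add_sub_cancel]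
    push_cast
    ring
  · subst hm
    have : (fun t => pw 0 (f t)) = fun _ => (1 : ℂ) := by
      funext t; simp [pw]
    rw [this]
    simpa using hasDerivAt_const (0 : ℝ) (1 : ℂ)
  · obtain ⟨n, rfl⟩ : ∃ n : ℕ, m = ((n + 1 : ℕ) : ℤ) := ⟨m.toNat - 1, by omega⟩
    have e1 : ((n + 1 : ℕ) : ℤ) - 1 = ((n : ℕ) : ℤ) := by push_cast; ring
    have e2 : ((n + 1 : ℕ) : ℤ) + 1 = ((n + 2 : ℕ) : ℤ) := by push_cast; ring
    rw [e1, e2]
    simp only [mPreD_pw_nat]
    refine (h.pow (n + 1)).congr_deriv ?_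
    rw [h0]
    simp only [Nat.add_sub_cancel]
    push_cast
    ring

theorem mPreD_al_mul (M N : Mat2) : al (M * N) = al M * al N + be M * conj (be N) := by
  apply Complex.ext <;> simp [al, be, Matrix.mul_apply, Fin.sum_univ_two] <;> ring

theorem mPreD_be_mul (M N : Mat2) : be (M * N) = al M * be N + be M * conj (al N) := by
  apply Complex.ext <;> simp [al, be, Matrix.mul_apply, Fin.sum_univ_two] <;> ring

theorem mPreD_mt_mul (g h : Gp) : mt (g * h) = mt g * mt h := rfl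

theorem mPreD_det_pos (g : Gp) : 0 < (mt g).det := g.2

theorem mPreD_sg_mul (g h : Gp) (j k : Fin 2) :
    sg (g * h) j k = sg g j 0 * sg h 0 k + sg g j 1 * sg h 1 k := by
  have hs : (Real.sqrt (mt (g * h)).det : ℂ) =
      (Real.sqrt (mt g).det : ℂ) * (Real.sqrt (mt h).det : ℂ) := by
    rw [mPreD_mt_mul, Matrix.det_mul, Real.sqrt_mul (mPreD_det_pos g).le]
    push_cast
    rfl
  have hg : (Real.sqrt (mt g).det : ℂ) ≠ 0 := by
    exact_mod_cast (Real.sqrt_pos.2 (mPreD_det_pos g)).ne'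
  have hh : (Real.sqrt (mt h).det : ℂ) ≠ 0 := by
    exact_mod_cast (Real.sqrt_pos.2 (mPreD_det_pos h)).ne'
  unfold sg
  rw [hs]
  fin_cases j <;> fin_cases k <;>
    simp only [Fin.zero_eta, Fin.mk_one, if_true, one_ne_zero, if_false, Fin.isValue] <;>
    rw [mPreD_mt_mul] <;>
    simp only [mPreD_al_mul, mPreD_be_mul, map_add, map_mul, Complex.conj_conj] <;>
    field_simp <;> ring

/-- infinitesimal action on weight vectors -/
noncomputable def mPreD_D (Y : Mat2) (j k : Fin 2) : ℂ :=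
  if j = 0 then (if k = 0 then Complex.I * ((al Y).im : ℂ) else be Y)
    else (if k = 0 then conj (be Y) else -Complex.I * ((al Y).im : ℂ))

theorem mPreD_dsg {M : ℝ → Gp} {N : Mat2} (h0 : mt (M 0) = 1)
    (h : ∀ i j, HasDerivAt (fun t => mt (M t) i j) (N i j) 0) (j k : Fin 2) :
    HasDerivAt (fun t => sg (M t) j k) (mPreD_D N j k) 0 := by
  have ha := mPreD_dal h
  have hb := mPreD_dbe h
  have hdet : HasDerivAt (fun t => (mt (M t)).det) (N 0 0 + N 1 1) 0 := by
    simp only [Matrix.det_fin_two]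
    refine (((h 0 0).mul (h 1 1)).sub ((h 0 1).mul (h 1 0))).congr_deriv ?_
    simp [h0]
  have hd0 : (mt (M 0)).det = 1 := by rw [h0, Matrix.det_one]
  have hs : HasDerivAt (fun t => (Real.sqrt (mt (M t)).det : ℂ))
      (((N 0 0 + N 1 1) / 2 : ℝ) : ℂ) 0 := by
    refine ((hdet.sqrt (by rw [hd0]; exact one_ne_zero)).ofReal_comp).congr_deriv ?_
    rw [hd0]
    simp
  have hs0 : (Real.sqrt (mt (M 0)).det : ℂ) = 1 := by rw [hd0]; simp
  have hre : (((N 0 0 + N 1 1) / 2 : ℝ) : ℂ) = ((al N).re : ℂ) := rfl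
  have hal : al N = ((al N).re : ℂ) + ((al N).im : ℂ) * Complex.I := (Complex.re_add_im _).symm
  have hcal : conj (al N) = ((al N).re : ℂ) - ((al N).im : ℂ) * Complex.I := by
    apply Complex.ext <;> simp
  have hne : (Real.sqrt (mt (M 0)).det : ℂ) ≠ 0 := by rw [hs0]; exact one_ne_zero
  unfold sg mPreD_D
  fin_cases j <;> fin_cases k <;>
    simp only [Fin.zero_eta, Fin.mk_one, if_true, one_ne_zero, if_false, Fin.isValue]
  · refine (ha.div hs hne).congr_deriv ?_
    rw [hs0, h0, mPreD_al_one, hre]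
    nth_rewrite 1 [hal]
    ring
  · refine (hb.div hs hne).congr_deriv ?_
    rw [hs0, h0, mPreD_be_one]
    ring
  · refine ((mPreD_conj hb).div hs hne).congr_deriv ?_
    rw [hs0, h0, mPreD_be_one]
    simp
  · refine ((mPreD_conj ha).div hs hne).congr_deriv ?_
    rw [hs0, h0, mPreD_al_one, hre, hcal]
    simp
    ring

/-- evaluation as a linear map -/
noncomputable def mPreD_L (w : ℂ) (g : Gd) (j : Fin 2) : (ℤ × Fin 2 →₀ ℂ) →ₗ[ℂ] ℂ :=
  Finsupp.linearCombination ℂ fun i => pw i.1 (mobI g.1 w) * sg g.2 j i.2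

theorem mPreD_FD (w : ℂ) (v : ℤ × Fin 2 →₀ ℂ) (g : Gd) (j : Fin 2) :
    FD w v g j = mPreD_L w g j v := by
  unfold FD mPreD_L
  rw [Finsupp.linearCombination_apply]
  simp only [smul_eq_mul, mul_assoc]

theorem mPreD_L_single (w : ℂ) (g : Gd) (j : Fin 2) (i : ℤ × Fin 2) (c : ℂ) :
    mPreD_L w g j (Finsupp.single i c) = c * (pw i.1 (mobI g.1 w) * sg g.2 j i.2) := by
  unfold mPreD_L
  rw [Finsupp.linearCombination_single, smul_eq_mul]

theorem mPreD_gamma {X : Mat 4} {γ : ℝ → Gd} (h : IsOneParam rho X γ) :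
    γ 0 = 1 ∧ ∀ t, (γ t)⁻¹ = γ (-t) := by
  have h0 : γ 0 = 1 := by
    have := h.2.1 0 0
    rw [add_zero] at this
    exact mul_eq_left.1 this.symm
  refine ⟨h0, fun t => ?_⟩
  have := h.2.1 (-t) t
  rw [neg_add_cancel, h0] at this
  exact (eq_inv_of_mul_eq_one_left this.symm).symm

theorem mPreD_mobI (h1 : S_blk) (h2 : S_AA) (X : LieAlg GRd) (γ : ℝ → Gd)
    (hγ : IsOneParam rho X.1 γ) (w : ℂ) (hw : ‖w‖ ≤ 1) (g : Gd) :
    HasDerivAt (fun t => mobI (g * γ t).1 w)
      (-(be (b1 X.1) + 2 * Complex.I * ((al (b1 X.1)).im : ℂ) * mobI g.1 w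
        - conj (be (b1 X.1)) * (mobI g.1 w) ^ 2)) 0 := by
  have hmul := h2.2.2.2.2.2.2.2.2.1
  have hM : ∀ t : ℝ, mt ((γ t).1)⁻¹ = exp (t • (-(b1 X.1))) := by
    intro t
    have e : ((γ t).1)⁻¹ = (γ (-t)).1 := by
      rw [← (mPreD_gamma hγ).2 t]; rfl
    rw [e, (h1.2.2 X γ hγ (-t)).1, neg_smul, smul_neg]
  have e : (fun t => mobI (g * γ t).1 w) =
      fun t => mob (exp (t • (-(b1 X.1)))) (mobI g.1 w) := by
    funext t
    rw [Prod.fst_mul, hmul _ _ _ hw]
    unfold mobI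
    rw [hM]
  rw [e]
  refine mPreD_mob (by rw [zero_smul, exp_zero]) (fun i j => ?_) _
  exact mPreD_exp_entry (-(b1 X.1)) i j

theorem mPreD_sg (h1 : S_blk) (X : LieAlg GRd) (γ : ℝ → Gd)
    (hγ : IsOneParam rho X.1 γ) (g : Gd) (j k : Fin 2) :
    HasDerivAt (fun t => sg (g * γ t).2 j k)
      (sg g.2 j 0 * mPreD_D (b2 X.1) 0 k + sg g.2 j 1 * mPreD_D (b2 X.1) 1 k) 0 := by
  have hM : ∀ t : ℝ, mt (γ t).2 = exp (t • (b2 X.1)) := fun t => (h1.2.2 X γ hγ t).2
  have hd : ∀ l, HasDerivAt (fun t => sg (γ t).2 l k) (mPreD_D (b2 X.1) l k) 0 := by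
    intro l
    refine mPreD_dsg (M := fun t => (γ t).2) ?_ (fun i j => ?_) l k
    · rw [hM, zero_smul, exp_zero]
    · simp only [hM]
      exact mPreD_exp_entry (b2 X.1) i j
  have e : (fun t => sg (g * γ t).2 j k) =
      fun t => sg g.2 j 0 * sg (γ t).2 0 k + sg g.2 j 1 * sg (γ t).2 1 k := by
    funext t
    rw [Prod.snd_mul, mPreD_sg_mul]
  rw [e]
  exact ((hd 0).const_mul _).add ((hd 1).const_mul _)

theorem mPreD_single (h1 : S_blk) (h2 : S_AA) (X : LieAlg GRd) (γ : ℝ → Gd)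
    (hγ : IsOneParam rho X.1 γ) (w : ℂ) (hw : ‖w‖ ≤ 1) (g : Gd) (j : Fin 2) (i : ℤ × Fin 2)
    (c : ℂ) :
    HasDerivAt (fun t => mPreD_L w (g * γ t) j (Finsupp.single i c))
      (mPreD_L w g j (lieAct MD X (Finsupp.single i c))) 0 := by
  simp only [mPreD_L_single]
  have hp := mPreD_pw (f := fun t => mobI (g * γ t).1 w) (z := mobI g.1 w)
    (b := be (b1 X.1)) (a := (al (b1 X.1)).im)
    (by simp only [(mPreD_gamma hγ).1, mul_one]) (mPreD_mobI h1 h2 X γ hγ w hw g) i.1
  have hs := mPreD_sg h1 X γ hγ g j i.2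
  refine ((hp.mul hs).const_mul c).congr_deriv ?_
  have h0 : (g * γ 0) = g := by rw [(mPreD_gamma hγ).1, mul_one]
  rw [h0]
  obtain ⟨m, k⟩ := i
  have hA : lieAct MD X (Finsupp.single (m, k) c) = c • ((vfm (b1 X.1) m).mapDomain (fun m => (m, k)) +
      if k = 0 then Finsupp.single (m, (0 : Fin 2)) (Complex.I * ((al (b2 X.1)).im : ℂ)) +
        Finsupp.single (m, (1 : Fin 2)) (conj (be (b2 X.1)))
      else Finsupp.single (m, (0 : Fin 2)) (be (b2 X.1)) +
        Finsupp.single (m, (1 : Fin 2)) (-Complex.I * ((al (b2 X.1)).im : ℂ))) := by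
    unfold lieAct MD
    simp only [Finsupp.linearCombination_single]
  rw [hA]
  unfold vfm mPreD_D
  fin_cases k
  · simp only [Fin.zero_eta, if_true, one_ne_zero, if_false, Fin.isValue, map_smul, map_add,
      Finsupp.mapDomain_add, Finsupp.mapDomain_single, mPreD_L_single, smul_eq_mul]
    ring
  · simp only [Fin.mk_one, if_true, one_ne_zero, if_false, Fin.isValue, map_smul, map_add,
      Finsupp.mapDomain_add, Finsupp.mapDomain_single, mPreD_L_single, smul_eq_mul]
    ring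

theorem mPreD_al_rot (s : ℝ) :
    al (rot s) = ((Real.cos s : ℝ) : ℂ) + ((Real.sin s : ℝ) : ℂ) * Complex.I := by
  rw [mPreD_al]
  have h1 : (rot s 0 0 + rot s 1 1) / 2 = Real.cos s := by simp [rot]
  have h2 : (rot s 1 0 - rot s 0 1) / 2 = Real.sin s := by simp [rot]
  rw [h1, h2]

theorem mPreD_rot_inv {k : Gp} {s : ℝ} (hk : mt k = rot s) :
    al (mt k⁻¹) = Complex.exp (-(Complex.I * s)) ∧ be (mt k⁻¹) = 0 := by
  have h : mt k⁻¹ = rot (-s) := by
    have h1 : rot (-s) * mt k = 1 := by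
      rw [hk]
      ext i j
      fin_cases i <;> fin_cases j <;>
        simp [rot, Matrix.mul_apply, Fin.sum_univ_two] <;>
        nlinarith [Real.sin_sq_add_cos_sq s]
    have h2 : mt k * mt k⁻¹ = 1 := by
      rw [← mPreD_mt_mul, mul_inv_cancel]; rfl
    calc mt k⁻¹ = rot (-s) * mt k * mt k⁻¹ := by rw [h1, one_mul]
      _ = rot (-s) := by rw [mul_assoc, h2, mul_one]
  rw [h]
  constructor
  · have : (-(Complex.I * (s : ℂ))) = ((-s : ℝ) : ℂ) * Complex.I := by push_cast; ring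
    rw [this, Complex.exp_mul_I, ← Complex.ofReal_cos, ← Complex.ofReal_sin, mPreD_al_rot]
  · apply Complex.ext <;> simp [be, rot]

theorem mPreD_pw_rot (s : ℝ) (z : ℂ) (m : ℤ) :
    pw m (Complex.exp (-(2 * Complex.I * s)) * z) =
      Complex.exp (-(Complex.I * (2 * m * s))) * pw m z := by
  rcases le_or_gt 0 m with hm | hm
  · obtain ⟨n, rfl⟩ := Int.eq_ofNat_of_zero_le hm
    simp only [mPreD_pw_nat]
    rw [mul_pow, ← Complex.exp_nat_mul]
    congr 2
    push_cast
    ring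
  · obtain ⟨n, rfl⟩ : ∃ n : ℕ, m = -(n : ℤ) := ⟨(-m).toNat, by omega⟩
    simp only [mPreD_pw_neg]
    rw [map_mul, mul_pow, ← Complex.exp_conj, ← Complex.exp_nat_mul]
    congr 2
    simp only [map_neg, map_mul, Complex.conj_I, Complex.conj_ofReal, map_ofNat]
    push_cast
    ring

theorem mPreD_mobI_rot {k : Gp} {s : ℝ} (hk : mt k = rot s) (z : ℂ) :
    mobI k z = Complex.exp (-(2 * Complex.I * s)) * z := by
  unfold mobI mob
  obtain ⟨ha, hb⟩ := mPreD_rot_inv hk
  rw [ha, hb, ← Complex.exp_conj]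
  simp only [map_zero, zero_mul, add_zero, zero_add, map_neg, map_mul, Complex.conj_I,
    Complex.conj_ofReal]
  rw [div_eq_iff (Complex.exp_ne_zero _), mul_right_comm, ← Complex.exp_add]
  congr 2
  ring

theorem mPreD_sg_rot {k : Gp} {s : ℝ} (hk : mt k = rot s) :
    sg k 0 0 = Complex.exp (Complex.I * s) ∧ sg k 0 1 = 0 ∧ sg k 1 0 = 0 ∧
      sg k 1 1 = Complex.exp (-(Complex.I * s)) := by
  have hdet : (mt k).det = 1 := by
    rw [hk, Matrix.det_fin_two]
    simp [rot]
    nlinarith [Real.sin_sq_add_cos_sq s]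
  have ha : al (mt k) = Complex.exp (Complex.I * s) := by
    rw [mul_comm, Complex.exp_mul_I, ← Complex.ofReal_cos, ← Complex.ofReal_sin, hk,
      mPreD_al_rot]
  have hb : be (mt k) = 0 := by
    rw [hk]
    apply Complex.ext <;> simp [be, rot]
  unfold sg
  rw [hdet, ha, hb]
  refine ⟨?_, ?_, ?_, ?_⟩
  · simp
  · simp
  · simp
  · simp [← Complex.exp_conj]

/-- TARGET -/
theorem mPreD (h1 : S_blk) (h2 : S_AA) (h3 : S_K) : S_preD := by
  intro h w hw
  refine ⟨?_, ?_, ?_, ?_⟩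
  · intro u v g
    funext j
    rw [Pi.add_apply]
    simp only [mPreD_FD, map_add]
  · intro c v g
    funext j
    rw [Pi.smul_apply]
    simp only [mPreD_FD, map_smul]
  · intro X γ hγ v g
    rw [hasDerivAt_pi]
    intro j
    simp only [mPreD_FD]
    change HasDerivAt _ (mPreD_L w g j (lieAct MD X v)) 0
    induction v using Finsupp.induction_linear with
    | zero =>
      simp only [map_zero]
      exact hasDerivAt_const _ _
    | add u v hu hv =>
      simp only [map_add]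
      exact hu.add hv
    | single i c => exact mPreD_single h1 h2 X γ hγ w hw g j i c
  · intro k v g
    obtain ⟨c, -, hc, hrot, hkap⟩ := h3
    obtain ⟨x, rfl⟩ := hc k
    funext j
    simp only [mPreD_FD]
    change mPreD_L w (g * (c x).1) j v = mPreD_L w g j (kap MD (c x) v)
    rw [hkap]
    induction v using Finsupp.induction_linear with
    | zero => simp only [map_zero]
    | add u v hu hv => simp only [map_add, hu, hv]
    | single i a =>
      have e : MD.kst x.1 x.2 (Finsupp.single i a) = a •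
          (Complex.exp (-Complex.I * ((MD.μ i : ℂ) * x.1 + (MD.ν i : ℂ) * x.2)) • ee i) := by
        unfold TMod.kst dg
        rw [Finsupp.linearCombination_single]
      rw [e, map_smul, map_smul, mPreD_L_single, mPreD_L_single, smul_eq_mul, smul_eq_mul, one_mul,
        Prod.fst_mul, Prod.snd_mul, mPreD_sg_mul, h2.2.2.2.2.2.2.2.2.1 _ _ _ hw,
        mPreD_mobI_rot (hrot x).1, mPreD_pw_rot]
      obtain ⟨s00, s01, s10, s11⟩ := mPreD_sg_rot (hrot x).2
      obtain ⟨m, k⟩ := i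
      fin_cases k
      · have e2 : Complex.exp (-Complex.I * ((MD.μ (m, (0 : Fin 2)) : ℂ) * x.1 +
            (MD.ν (m, (0 : Fin 2)) : ℂ) * x.2)) =
            Complex.exp (-(Complex.I * (2 * m * x.1))) * Complex.exp (Complex.I * x.2) := by
          rw [← Complex.exp_add]
          congr 1
          simp [MD]
          ring
        simp only [Fin.zero_eta]
        rw [e2, s00, s10]
        ring
      · have e2 : Complex.exp (-Complex.I * ((MD.μ (m, (1 : Fin 2)) : ℂ) * x.1 +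
            (MD.ν (m, (1 : Fin 2)) : ℂ) * x.2)) =
            Complex.exp (-(Complex.I * (2 * m * x.1))) * Complex.exp (-(Complex.I * x.2)) := by
          rw [← Complex.exp_add]
          congr 1
          simp [MD]
          ring
        simp only [Fin.mk_one]
        rw [e2, s01, s11]
        ring

end Pool.Agent.H913.LG
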