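import Pool.Agent.H913.LG.Stmts

open Matrix NormedSpace
open scoped Matrix ComplexConjugate

namespace Pool.Agent.H913.LG

open Pool.Agent.H913.SGP

theorem mPreT_zero {γ : ℝ → Gd} (hγ : ∀ s t, γ (s + t) = γ s * γ t) : γ 0 = 1 := by
  have h := hγ 0 0
  rw [add_zero] at h
  exact (mul_eq_left.1 h.symm)

theorem mPreT_neg {γ : ℝ → Gd} (hγ : ∀ s t, γ (s + t) = γ s * γ t) (t : ℝ) : γ (-t) = (γ t)⁻¹ := by
  rw [eq_inv_iff_mul_eq_one, ← hγ, neg_add_cancel, mPreT_zero hγ]

/-- the derivative of the entries of the exponential -/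
theorem mPreT_exp (x : Mat2) (i j : Fin 2) :
    HasDerivAt (fun t : ℝ => (exp ((-t) • x) : Mat2) i j) (-(x i j)) 0 := by
  let _ : NormedRing Mat2 := Matrix.linftyOpNormedRing
  let _ : NormedAlgebra ℝ Mat2 := Matrix.linftyOpNormedAlgebra
  have h1 : HasDerivAt (fun u : ℝ => (exp (u • x) : Mat2)) (exp ((0 : ℝ) • x) * x) 0 :=
    hasDerivAt_exp_smul_const x 0
  rw [zero_smul, NormedSpace.exp_zero, one_mul] at h1
  have h2 : HasDerivAt (fun u : ℝ => (exp (u • x) : Mat2) i j) (x i j) 0 := by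
    let L : Mat2 →L[ℝ] ℝ := LinearMap.toContinuousLinearMap
      ({ toFun := fun M => M i j, map_add' := fun _ _ => rfl, map_smul' := fun _ _ => rfl } : Mat2 →ₗ[ℝ] ℝ)
    have h3 := L.hasFDerivAt.comp_hasDerivAt (0 : ℝ) h1
    exact h3
  have h3 : HasDerivAt (fun t : ℝ => -t) (-1) 0 := hasDerivAt_neg (0 : ℝ)
  have h4 : HasDerivAt (fun u : ℝ => (exp (u • x) : Mat2) i j) (x i j) (-(0 : ℝ)) := by
    rw [neg_zero]; exact h2
  have h5 := HasDerivAt.comp (0 : ℝ) h4 h3
  simpa [Function.comp_def] using h5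

theorem mPreT_al (M : Mat2) : al M = (((M 0 0 + M 1 1) / 2 : ℝ) : ℂ) +
    Complex.I * (((M 1 0 - M 0 1) / 2 : ℝ) : ℂ) := by
  apply Complex.ext <;> simp [al]

theorem mPreT_be (M : Mat2) : be M = (((M 0 0 - M 1 1) / 2 : ℝ) : ℂ) +
    Complex.I * (((M 1 0 + M 0 1) / 2 : ℝ) : ℂ) := by
  apply Complex.ext <;> simp [be]

theorem mPreT_al' (M : Mat2) : conj (al M) = (((M 0 0 + M 1 1) / 2 : ℝ) : ℂ) -
    Complex.I * (((M 1 0 - M 0 1) / 2 : ℝ) : ℂ) := by
  apply Complex.ext <;> simp [al]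

theorem mPreT_be' (M : Mat2) : conj (be M) = (((M 0 0 - M 1 1) / 2 : ℝ) : ℂ) -
    Complex.I * (((M 1 0 + M 0 1) / 2 : ℝ) : ℂ) := by
  apply Complex.ext <;> simp [be]

theorem mPreT_dal (x : Mat2) : HasDerivAt (fun t : ℝ => al (exp ((-t) • x) : Mat2)) (-(al x)) 0 := by
  have h := fun i j => mPreT_exp x i j
  have h1 := (((h 0 0).add (h 1 1)).div_const 2).ofReal_comp
  have h2 := ((((h 1 0).sub (h 0 1)).div_const 2).ofReal_comp).const_mul Complex.I
  refine ((h1.add h2).congr_deriv ?_).congr_of_eventuallyEq ?_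
  · rw [mPreT_al]; push_cast; ring
  · exact Filter.Eventually.of_forall fun t => mPreT_al (exp ((-t) • x) : Mat2)

theorem mPreT_dbe (x : Mat2) : HasDerivAt (fun t : ℝ => be (exp ((-t) • x) : Mat2)) (-(be x)) 0 := by
  have h := fun i j => mPreT_exp x i j
  have h1 := (((h 0 0).sub (h 1 1)).div_const 2).ofReal_comp
  have h2 := ((((h 1 0).add (h 0 1)).div_const 2).ofReal_comp).const_mul Complex.I
  refine ((h1.add h2).congr_deriv ?_).congr_of_eventuallyEq ?_
  · rw [mPreT_be]; push_cast; ring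
  · exact Filter.Eventually.of_forall fun t => mPreT_be (exp ((-t) • x) : Mat2)

theorem mPreT_dal' (x : Mat2) :
    HasDerivAt (fun t : ℝ => conj (al (exp ((-t) • x) : Mat2))) (-(conj (al x))) 0 := by
  have h := fun i j => mPreT_exp x i j
  have h1 := (((h 0 0).add (h 1 1)).div_const 2).ofReal_comp
  have h2 := ((((h 1 0).sub (h 0 1)).div_const 2).ofReal_comp).const_mul Complex.I
  refine ((h1.sub h2).congr_deriv ?_).congr_of_eventuallyEq ?_
  · rw [mPreT_al']; push_cast; ring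
  · exact Filter.Eventually.of_forall fun t => mPreT_al' (exp ((-t) • x) : Mat2)

theorem mPreT_dbe' (x : Mat2) :
    HasDerivAt (fun t : ℝ => conj (be (exp ((-t) • x) : Mat2))) (-(conj (be x))) 0 := by
  have h := fun i j => mPreT_exp x i j
  have h1 := (((h 0 0).sub (h 1 1)).div_const 2).ofReal_comp
  have h2 := ((((h 1 0).add (h 0 1)).div_const 2).ofReal_comp).const_mul Complex.I
  refine ((h1.sub h2).congr_deriv ?_).congr_of_eventuallyEq ?_
  · rw [mPreT_be']; push_cast; ring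
  · exact Filter.Eventually.of_forall fun t => mPreT_be' (exp ((-t) • x) : Mat2)

/-- the vector field on the disc -/
theorem mPreT_mob (x : Mat2) (z : ℂ) :
    HasDerivAt (fun t : ℝ => mob (exp ((-t) • x) : Mat2) z)
      (-(be x + 2 * Complex.I * ((al x).im : ℂ) * z - conj (be x) * z ^ 2)) 0 := by
  have e0 : (exp ((-(0 : ℝ)) • x) : Mat2) = 1 := by simp
  have a1 : al (1 : Mat2) = 1 := by apply Complex.ext <;> simp [al]
  have b1 : be (1 : Mat2) = 0 := by apply Complex.ext <;> simp [be]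
  have h1 := ((mPreT_dal x).mul_const z).add (mPreT_dbe x)
  have h2 := ((mPreT_dbe' x).mul_const z).add (mPreT_dal' x)
  have h3 : (fun t : ℝ => conj (be (exp ((-t) • x) : Mat2)) * z + conj (al (exp ((-t) • x) : Mat2))) 0
      ≠ 0 := by
    beta_reduce
    rw [e0, a1, b1]
    simp
  refine (h1.div h2 h3).congr_deriv ?_
  simp only [Pi.add_apply]
  rw [e0, a1, b1]
  have h4 : conj (al x) = al x - 2 * Complex.I * ((al x).im : ℂ) := by
    apply Complex.ext <;> simp; ring
  simp only [map_zero, map_one]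
  rw [h4]
  ring

theorem mPreT_mobI (h1 : S_blk) {X : LieAlg GRd} {γ : ℝ → Gd} (hγ : IsOneParam rho X.1 γ) (z : ℂ) :
    HasDerivAt (fun t : ℝ => mobI (γ t).1 z)
      (-(be (b1 X.1) + 2 * Complex.I * ((al (b1 X.1)).im : ℂ) * z - conj (be (b1 X.1)) * z ^ 2)) 0 ∧
    HasDerivAt (fun t : ℝ => mobI (γ t).2 z)
      (-(be (b2 X.1) + 2 * Complex.I * ((al (b2 X.1)).im : ℂ) * z - conj (be (b2 X.1)) * z ^ 2)) 0 := by
  have h2 := h1.2.2 X γ hγ
  have h3 := mPreT_neg hγ.2.1
  constructor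
  · refine (mPreT_mob (b1 X.1) z).congr_of_eventuallyEq (Filter.Eventually.of_forall fun t => ?_)
    change mob (mt (γ t).1⁻¹) z = _
    have h4 : (γ t).1⁻¹ = (γ (-t)).1 := by rw [h3]; rfl
    rw [h4, (h2 (-t)).1]
  · refine (mPreT_mob (b2 X.1) z).congr_of_eventuallyEq (Filter.Eventually.of_forall fun t => ?_)
    change mob (mt (γ t).2⁻¹) z = _
    have h4 : (γ t).2⁻¹ = (γ (-t)).2 := by rw [h3]; rfl
    rw [h4, (h2 (-t)).2]

theorem mPreT_mobI_one (z : ℂ) : mobI 1 z = z := by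
  have h1 : mt (1 : Gp)⁻¹ = 1 := by simp [mt]
  have a1 : al (1 : Mat2) = 1 := by apply Complex.ext <;> simp [al]
  have b1 : be (1 : Mat2) = 0 := by apply Complex.ext <;> simp [be]
  unfold mobI mob
  rw [h1, a1, b1]
  simp

theorem mPreT_pw_nat (n : ℕ) (z : ℂ) : pw (n : ℤ) z = z ^ n := by
  unfold pw
  rw [if_pos (by positivity)]
  simp

theorem mPreT_pw_neg (n : ℕ) (z : ℂ) : pw (-(n : ℤ)) z = conj z ^ n := by
  unfold pw
  rcases Nat.eq_zero_or_pos n with h | h
  · subst h; simp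
  · rw [if_neg (by omega)]
    simp

/-- the sum attached to the vector field -/
noncomputable def mPreT_V (x : Mat2) (m : ℤ) (z : ℂ) : ℂ :=
  -(m : ℂ) * be x * pw (m - 1) z + -(m : ℂ) * (2 * Complex.I * ((al x).im : ℂ)) * pw m z +
    (m : ℂ) * conj (be x) * pw (m + 1) z

theorem mPreT_dpw (m : ℤ) (x : Mat2) {f : ℝ → ℂ} {z : ℂ} (hf0 : f 0 = z)
    (hf : HasDerivAt f (-(be x + 2 * Complex.I * ((al x).im : ℂ) * z - conj (be x) * z ^ 2)) 0) :
    HasDerivAt (fun t => pw m (f t)) (mPreT_V x m z) 0 := by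
  rcases Int.eq_nat_or_neg m with ⟨n, rfl | rfl⟩
  · rcases n with _ | n
    · simp only [mPreT_pw_nat]
      refine (hasDerivAt_const (0 : ℝ) (1 : ℂ)).congr_deriv ?_ |>.congr_of_eventuallyEq ?_
      · simp [mPreT_V]
      · exact Filter.Eventually.of_forall fun t => by simp
    · have h1 := hf.pow (n + 1)
      refine (h1.congr_deriv ?_).congr_of_eventuallyEq ?_
      · unfold mPreT_V
        have e1 : ((n + 1 : ℕ) : ℤ) - 1 = (n : ℤ) := by push_cast; ring
        have e2 : ((n + 1 : ℕ) : ℤ) + 1 = ((n + 2 : ℕ) : ℤ) := by push_cast; ring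
        rw [e1, e2, mPreT_pw_nat, mPreT_pw_nat, mPreT_pw_nat, hf0]
        push_cast
        ring
      · exact Filter.Eventually.of_forall fun t => mPreT_pw_nat (n + 1) (f t)
  · rcases n with _ | n
    · have h0 : (-((0 : ℕ) : ℤ)) = 0 := by simp
      simp only [mPreT_pw_neg]
      refine (hasDerivAt_const (0 : ℝ) (1 : ℂ)).congr_deriv ?_ |>.congr_of_eventuallyEq ?_
      · simp [mPreT_V]
      · exact Filter.Eventually.of_forall fun t => by simp
    · have h0 : HasDerivAt (fun t => conj (f t))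
          (conj (-(be x + 2 * Complex.I * ((al x).im : ℂ) * z - conj (be x) * z ^ 2))) 0 := by
        have := Complex.conjCLE.toContinuousLinearMap.hasFDerivAt.comp_hasDerivAt (0 : ℝ) hf
        exact this
      have h1 := h0.pow (n + 1)
      refine (h1.congr_deriv ?_).congr_of_eventuallyEq ?_
      · unfold mPreT_V
        have e1 : -((n + 1 : ℕ) : ℤ) - 1 = -((n + 2 : ℕ) : ℤ) := by push_cast; ring
        have e2 : -((n + 1 : ℕ) : ℤ) + 1 = -(n : ℤ) := by push_cast; ring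
        rw [e1, e2, mPreT_pw_neg, mPreT_pw_neg, mPreT_pw_neg, hf0]
        simp only [map_neg, map_sub, map_add, map_mul, map_pow, Complex.conj_I, Complex.conj_conj,
          Complex.conj_ofReal, map_ofNat]
        push_cast
        ring
      · exact Filter.Eventually.of_forall fun t => mPreT_pw_neg (n + 1) (f t)

/-- the coefficients of the family -/
noncomputable def mPreT_c (w : ℂ × ℂ) (g : Gd) (i : ℤ × ℤ) : ℂ :=
  pw i.1 (mobI g.1 w.1) * pw i.2 (mobI g.2 w.2)

theorem mPreT_FT (w : ℂ × ℂ) (v : ℤ × ℤ →₀ ℂ) (g : Gd) :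
    FT w v g = Finsupp.linearCombination ℂ (mPreT_c w g) v := by
  rw [Finsupp.linearCombination_apply]
  rfl

theorem mPreT_rot (s : ℝ) : rot s * rot (-s) = 1 := by
  ext i j
  fin_cases i <;> fin_cases j <;> simp [rot, Matrix.mul_apply, Fin.sum_univ_two]
  all_goals nlinarith [Real.sin_sq_add_cos_sq s]

theorem mPreT_rotI {g : Gp} {s : ℝ} (h : mt g = rot s) (z : ℂ) :
    mobI g z = Complex.exp (-(2 * Complex.I * s)) * z := by
  have h1 : mt g⁻¹ = rot (-s) := by
    have h2 : mt g⁻¹ * mt g = 1 := by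
      simp [mt]
    calc mt g⁻¹ = mt g⁻¹ * (rot s * rot (-s)) := by rw [mPreT_rot, mul_one]
      _ = (mt g⁻¹ * mt g) * rot (-s) := by rw [h, mul_assoc]
      _ = rot (-s) := by rw [h2, one_mul]
  have a1 : al (rot (-s)) = Complex.exp (-(Complex.I * s)) := by
    rw [show -(Complex.I * (s : ℂ)) = ((-s : ℝ) : ℂ) * Complex.I by push_cast; ring]
    apply Complex.ext
    · rw [Complex.exp_ofReal_mul_I_re]; simp [al, rot]
    · rw [Complex.exp_ofReal_mul_I_im]; simp [al, rot]; ring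
  have b1 : be (rot (-s)) = 0 := by
    apply Complex.ext <;> simp [be, rot]
  have a2 : conj (Complex.exp (-(Complex.I * s))) = Complex.exp (Complex.I * s) := by
    rw [← Complex.exp_conj]
    simp
  unfold mobI mob
  rw [h1, a1, b1, a2, map_zero, zero_mul, add_zero, zero_add]
  rw [div_eq_iff (Complex.exp_ne_zero _)]
  rw [mul_right_comm, ← Complex.exp_add]
  congr 2
  ring

theorem mPreT_pw_rot (m : ℤ) (s : ℝ) (z : ℂ) :
    pw m (Complex.exp (-(2 * Complex.I * s)) * z) =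
      Complex.exp (-Complex.I * ((2 * m : ℂ) * s)) * pw m z := by
  rcases Int.eq_nat_or_neg m with ⟨n, rfl | rfl⟩
  · rw [mPreT_pw_nat, mPreT_pw_nat, mul_pow, ← Complex.exp_nat_mul]
    congr 2
    push_cast
    ring
  · rw [mPreT_pw_neg, mPreT_pw_neg, map_mul, mul_pow, ← Complex.exp_conj, ← Complex.exp_nat_mul]
    congr 2
    simp only [map_neg, map_mul, Complex.conj_I, Complex.conj_ofReal, map_ofNat]
    push_cast
    ring

/-- TARGET -/
theorem mPreT (h1 : S_blk) (h2 : S_AA) (h3 : S_K) : S_preT := by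
  intro h w hw1 hw2
  obtain ⟨-, -, -, -, -, -, -, -, hmul, hle, -⟩ := h2
  refine ⟨?_, ?_, ?_, ?_⟩
  · intro u v g
    rw [mPreT_FT, mPreT_FT, mPreT_FT, map_add]
  · intro c v g
    rw [mPreT_FT, mPreT_FT, map_smul]
  · intro X γ hγ v g
    set z1 := mobI g.1 w.1 with hz1
    set z2 := mobI g.2 w.2 with hz2
    obtain ⟨hd1, -⟩ := mPreT_mobI h1 hγ z1
    obtain ⟨-, hd2⟩ := mPreT_mobI h1 hγ z2
    have hγ0 : γ 0 = 1 := mPreT_zero hγ.2.1
    have e1 : mobI (γ 0).1 z1 = z1 := by rw [hγ0]; exact mPreT_mobI_one z1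
    have e2 : mobI (γ 0).2 z2 = z2 := by rw [hγ0]; exact mPreT_mobI_one z2
    have key : ∀ i : ℤ × ℤ, HasDerivAt (fun t : ℝ => mPreT_c w (g * γ t) i)
        (mPreT_V (b1 X.1) i.1 z1 * pw i.2 z2 + pw i.1 z1 * mPreT_V (b2 X.1) i.2 z2) 0 := by
      intro i
      have h4 := (mPreT_dpw i.1 (b1 X.1) e1 hd1).mul (mPreT_dpw i.2 (b2 X.1) e2 hd2)
      rw [e1, e2] at h4
      refine h4.congr_of_eventuallyEq (Filter.Eventually.of_forall fun t => ?_)
      change pw i.1 (mobI (g.1 * (γ t).1) w.1) * pw i.2 (mobI (g.2 * (γ t).2) w.2) = _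
      rw [hmul _ _ _ hw1, hmul _ _ _ hw2]
      rfl
    have h5 : HasDerivAt (fun t : ℝ => FT w v (g * γ t))
        (Finsupp.linearCombination ℂ (fun i : ℤ × ℤ => mPreT_V (b1 X.1) i.1 z1 * pw i.2 z2 +
          pw i.1 z1 * mPreT_V (b2 X.1) i.2 z2) v) 0 := by
      simp only [mPreT_FT, Finsupp.linearCombination_apply, Finsupp.sum, smul_eq_mul]
      exact HasDerivAt.fun_sum fun i _ => (key i).const_mul (v i)
    refine h5.congr_deriv ?_
    rw [mPreT_FT]
    change _ = Finsupp.linearCombination ℂ (mPreT_c w g) (MT.A (b1 X.1) (b2 X.1) v)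
    unfold MT
    simp only
    rw [Finsupp.apply_linearCombination]
    congr 1
    congr 1
    funext i
    simp only [Function.comp_apply, map_add, vfm,
      Finsupp.mapDomain_add, Finsupp.mapDomain_single, Finsupp.linearCombination_single, smul_eq_mul,
      mPreT_c, mPreT_V]
    rw [← hz1, ← hz2]
    ring
  · intro k v g
    obtain ⟨c, -, hsurj, hc, hkap⟩ := h3
    obtain ⟨⟨s, t⟩, rfl⟩ := hsurj k
    have e1 := (hc (s, t)).1
    have e2 := (hc (s, t)).2
    simp only at e1 e2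
    rw [mPreT_FT, mPreT_FT]
    change _ = Finsupp.linearCombination ℂ (mPreT_c w g) (kap MT (c (s, t)) v)
    rw [hkap]
    unfold TMod.kst dg
    rw [Finsupp.apply_linearCombination]
    congr 1
    congr 1
    funext i
    simp only [Function.comp_apply, map_smul, Finsupp.linearCombination_single, smul_eq_mul, one_mul]
    change pw i.1 (mobI (g.1 * (c (s, t)).1.1) w.1) * pw i.2 (mobI (g.2 * (c (s, t)).1.2) w.2) = _
    rw [hmul _ _ _ hw1, hmul _ _ _ hw2, mPreT_rotI e1, mPreT_rotI e2, mPreT_pw_rot, mPreT_pw_rot]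
    unfold mPreT_c
    have h6 : Complex.exp (-Complex.I * (((MT.μ i : ℤ) : ℂ) * s + ((MT.ν i : ℤ) : ℂ) * t)) =
        Complex.exp (-Complex.I * ((2 * i.1 : ℂ) * s)) *
          Complex.exp (-Complex.I * ((2 * i.2 : ℂ) * t)) := by
      rw [← Complex.exp_add]
      congr 1
      simp only [MT]
      push_cast
      ring
    rw [h6]
    ring

end Pool.Agent.H913.LG
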