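import Pool.Agent.H913.LG.Stmts

open Matrix NormedSpace
open scoped Matrix ComplexConjugate

namespace Pool.Agent.H913.LG

open Pool.Agent.H913.SGP

/-- coefficients -/
noncomputable def mPreU_c (x : ℂ) (j k : Fin 2) : ℂ :=
  if j = 0 then (if k = 0 then 1 else x) else (if k = 0 then 0 else 1)

theorem mPreU_FU (w : ℂ) (v : ℤ × Fin 2 →₀ ℂ) (g : Gd) (j : Fin 2) : FU w v g j =
    Finsupp.linearCombination ℂ (fun i : ℤ × Fin 2 =>
      pw i.1 (mobI g.1 w) * mPreU_c (xx g : ℂ) j i.2) v := by
  rw [Finsupp.linearCombination_apply]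
  simp only [FU, mPreU_c, smul_eq_mul, mul_assoc]

theorem mPreU_pw_nat (n : ℕ) (z : ℂ) : pw (n : ℤ) z = z ^ n := by
  simp [pw]

theorem mPreU_pw_neg (n : ℕ) (z : ℂ) : pw (-(n : ℤ)) z = conj z ^ n := by
  rcases n with _ | n
  · simp [pw]
  · unfold pw
    rw [if_neg (by push_cast; omega)]
    congr 1

section
attribute [local instance] Matrix.linftyOpNormedRing Matrix.linftyOpNormedAlgebra

theorem mPreU_exp (X : Mat2) (i j : Fin 2) :
    HasDerivAt (fun t : ℝ => (exp (t • X)) i j) (X i j) 0 := by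
  have h := hasDerivAt_exp_smul_const (𝕂 := ℝ) X (0 : ℝ)
  rw [zero_smul, exp_zero, one_mul] at h
  let L : Mat2 →ₗ[ℝ] ℝ :=
    { toFun := fun M => M i j
      map_add' := fun _ _ => rfl
      map_smul' := fun _ _ => rfl }
  exact (L.toContinuousLinearMap.hasFDerivAt.comp_hasDerivAt (0 : ℝ) h)

theorem mPreU_exp0 (X : Mat2) : exp ((0 : ℝ) • X) = 1 := by
  rw [zero_smul, exp_zero]

end

theorem mPreU_al (M : Mat2) : al M = (((M 0 0 + M 1 1) / 2 : ℝ) : ℂ) +
    (((M 1 0 - M 0 1) / 2 : ℝ) : ℂ) * Complex.I := by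
  rw [al, ← Complex.mk_eq_add_mul_I]

theorem mPreU_be (M : Mat2) : be M = (((M 0 0 - M 1 1) / 2 : ℝ) : ℂ) +
    (((M 1 0 + M 0 1) / 2 : ℝ) : ℂ) * Complex.I := by
  rw [be, ← Complex.mk_eq_add_mul_I]

theorem mPreU_al_d (X : Mat2) : HasDerivAt (fun t : ℝ => al (exp (t • X))) (al X) 0 := by
  simp only [mPreU_al]
  exact ((((mPreU_exp X 0 0).add (mPreU_exp X 1 1)).div_const 2).ofReal_comp).add
    (((((mPreU_exp X 1 0).sub (mPreU_exp X 0 1)).div_const 2).ofReal_comp).mul_const Complex.I)

theorem mPreU_be_d (X : Mat2) : HasDerivAt (fun t : ℝ => be (exp (t • X))) (be X) 0 := by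
  simp only [mPreU_be]
  exact ((((mPreU_exp X 0 0).sub (mPreU_exp X 1 1)).div_const 2).ofReal_comp).add
    (((((mPreU_exp X 1 0).add (mPreU_exp X 0 1)).div_const 2).ofReal_comp).mul_const Complex.I)

theorem mPreU_al1 : al (1 : Mat2) = 1 := by
  apply Complex.ext <;> simp [al]

theorem mPreU_be1 : be (1 : Mat2) = 0 := by
  apply Complex.ext <;> simp [be]

theorem mPreU_alneg (X : Mat2) : al (-X) = - al X := by
  apply Complex.ext <;> simp [al] <;> ring

theorem mPreU_beneg (X : Mat2) : be (-X) = - be X := by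
  apply Complex.ext <;> simp [be] <;> ring

theorem mPreU_det_d (X : Mat2) :
    HasDerivAt (fun t : ℝ => Real.log (exp (t • X)).det) X.trace 0 := by
  have h : HasDerivAt (fun t : ℝ => (exp (t • X)).det) X.trace 0 := by
    simp only [Matrix.det_fin_two]
    have h2 := ((mPreU_exp X 0 0).mul (mPreU_exp X 1 1)).sub
      ((mPreU_exp X 0 1).mul (mPreU_exp X 1 0))
    refine h2.congr_deriv ?_
    rw [mPreU_exp0, Matrix.trace_fin_two]
    simp
  have h3 := h.log (by rw [mPreU_exp0]; simp)
  refine h3.congr_deriv ?_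
  rw [mPreU_exp0]
  simp

/-- derivative of the action on the disc -/
theorem mPreU_mob_d (X : Mat2) (z : ℂ) : HasDerivAt (fun t : ℝ => mob (exp (t • (-X))) z)
    (-be X - 2 * Complex.I * ((al X).im : ℂ) * z + conj (be X) * z ^ 2) 0 := by
  have ha := mPreU_al_d (-X)
  have hb := mPreU_be_d (-X)
  have hN := (ha.mul_const z).add hb
  have hD := (hb.star.mul_const z).add ha.star
  have h := hN.div hD (by
    simp only [Pi.add_apply]
    rw [mPreU_exp0, mPreU_al1, mPreU_be1]; simp)
  refine (h.congr_deriv ?_)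
  simp only [Pi.add_apply]
  rw [mPreU_exp0, mPreU_al1, mPreU_be1, mPreU_alneg, mPreU_beneg]
  have h2 : conj (al X) = al X - 2 * Complex.I * ((al X).im : ℂ) := by
    apply Complex.ext <;> simp <;> ring
  simp only [star_zero, star_one, star_neg, Complex.star_def, h2]
  simp
  ring

/-- derivative of the powers -/
theorem mPreU_pw_d (m : ℤ) (z : ℝ → ℂ) (b : ℂ) (a : ℝ)
    (hz : HasDerivAt z (-b - 2 * Complex.I * (a : ℂ) * z 0 + conj b * z 0 ^ 2) 0) :
    HasDerivAt (fun t => pw m (z t)) (-(m : ℂ) * b * pw (m - 1) (z 0) +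
      (-(m : ℂ) * (2 * Complex.I * (a : ℂ))) * pw m (z 0) +
      (m : ℂ) * conj b * pw (m + 1) (z 0)) 0 := by
  rcases Int.le_total 0 m with hm | hm
  · obtain ⟨n, rfl⟩ := Int.eq_ofNat_of_zero_le hm
    rcases n with _ | n
    · simp only [Nat.cast_zero, Int.cast_zero]
      have : (fun t : ℝ => pw ((0 : ℕ) : ℤ) (z t)) = fun _ => (1 : ℂ) := by
        funext t
        rw [mPreU_pw_nat, pow_zero]
      simp only [Nat.cast_zero] at this
      rw [this]
      simpa using hasDerivAt_const (0 : ℝ) (1 : ℂ)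
    · have h1 : (((n + 1 : ℕ) : ℤ) - 1) = (n : ℤ) := by push_cast; ring
      have h2 : (((n + 1 : ℕ) : ℤ) + 1) = ((n + 2 : ℕ) : ℤ) := by push_cast; ring
      rw [h1, h2]
      simp only [mPreU_pw_nat]
      refine (hz.pow (n + 1)).congr_deriv ?_
      simp only [Nat.add_sub_cancel]
      push_cast
      ring
  · obtain ⟨n, hn⟩ := Int.eq_ofNat_of_zero_le (show 0 ≤ -m by omega)
    have hm' : m = -(n : ℤ) := by omega
    subst hm'
    rcases n with _ | n
    · simp only [Nat.cast_zero, neg_zero, Int.cast_zero]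
      have : (fun t : ℝ => pw ((0 : ℕ) : ℤ) (z t)) = fun _ => (1 : ℂ) := by
        funext t
        rw [mPreU_pw_nat, pow_zero]
      simp only [Nat.cast_zero] at this
      rw [this]
      simpa using hasDerivAt_const (0 : ℝ) (1 : ℂ)
    · have h1 : (-((n + 1 : ℕ) : ℤ) - 1) = -((n + 2 : ℕ) : ℤ) := by push_cast; ring
      have h2 : (-((n + 1 : ℕ) : ℤ) + 1) = -(n : ℤ) := by push_cast; ring
      rw [h1, h2]
      simp only [mPreU_pw_neg]
      refine (hz.star.pow (n + 1)).congr_deriv ?_
      have h3 : (starRingEnd ℂ) 2 = 2 := Complex.conj_ofNat 2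
      simp only [Nat.add_sub_cancel, Complex.star_def, map_add, map_sub, map_neg, map_mul, map_pow,
        Complex.conj_conj, Complex.conj_I, Complex.conj_ofReal, h3]
      push_cast
      ring

theorem mPreU_inv {X : Mat 4} {γ : ℝ → Gd} (h : IsOneParam rho X γ) (t : ℝ) : (γ t)⁻¹ = γ (-t) := by
  have h0 : γ 0 = 1 := by
    have := h.2.1 0 0
    rw [add_zero] at this
    exact (mul_eq_left.1 this.symm)
  rw [inv_eq_iff_mul_eq_one, ← h.2.1, add_neg_cancel, h0]

theorem mPreU_mobI {X : LieAlg GRd} {γ : ℝ → Gd} (h1 : S_blk) (h2 : S_AA)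
    (h : IsOneParam rho X.1 γ) (w : ℂ) (hw : ‖w‖ ≤ 1) (g : Gd) (t : ℝ) :
    mobI (g * γ t).1 w = mob (exp (t • (-(b1 X.1)))) (mobI g.1 w) := by
  rw [Prod.fst_mul, h2.2.2.2.2.2.2.2.2.1 _ _ w hw, mobI, ← Prod.fst_inv, mPreU_inv h,
    (h1.2.2 X γ h (-t)).1, neg_smul, smul_neg]

theorem mPreU_xx {X : LieAlg GRd} {γ : ℝ → Gd} (h1 : S_blk)
    (h : IsOneParam rho X.1 γ) (g : Gd) (t : ℝ) :
    xx (g * γ t) = xx g + Real.log (exp (t • (b1 X.1))).det := by
  have h3 : mt (g * γ t).1 = mt g.1 * mt (γ t).1 := rfl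
  have h4 : 0 < (mt g.1).det := g.1.2
  have h5 : 0 < (mt (γ t).1).det := (γ t).1.2
  rw [xx, xx, h3, Matrix.det_mul, Real.log_mul h4.ne' h5.ne', (h1.2.2 X γ h t).1]

theorem mPreU_rot (s : ℝ) : rot s * rot (-s) = 1 := by
  have := Real.cos_sq_add_sin_sq s
  ext i j
  fin_cases i <;> fin_cases j <;> simp [rot, Matrix.mul_apply, Fin.sum_univ_two] <;> nlinarith

theorem mPreU_mobrot (s : ℝ) (z : ℂ) : mob (rot (-s)) z = Complex.exp (-2 * Complex.I * s) * z := by
  have h1 : al (rot (-s)) = Complex.exp (-(Complex.I * s)) := by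
    rw [show (-(Complex.I * (s : ℂ))) = ((-s : ℝ) : ℂ) * Complex.I by push_cast; ring,
      Complex.exp_mul_I, ← Complex.ofReal_cos, ← Complex.ofReal_sin, mPreU_al]
    simp only [rot, Matrix.of_apply, Matrix.cons_val', Matrix.cons_val_zero, Matrix.cons_val_one,
      Matrix.cons_val_fin_one, Real.cos_neg, Real.sin_neg]
    push_cast
    ring
  have h2 : be (rot (-s)) = 0 := by
    apply Complex.ext <;> simp [be, rot]
  have h3 : conj (Complex.exp (-(Complex.I * s))) = Complex.exp (Complex.I * s) := by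
    rw [← Complex.exp_conj]
    simp
  rw [mob, h1, h2, h3, map_zero, zero_mul, zero_add, add_zero, div_eq_iff (Complex.exp_ne_zero _)]
  rw [mul_right_comm, ← Complex.exp_add]
  congr 2
  ring

theorem mPreU_pwexp (m : ℤ) (s : ℝ) (z : ℂ) : pw m (Complex.exp (-2 * Complex.I * s) * z) =
    Complex.exp (-Complex.I * ((2 * m : ℂ) * s)) * pw m z := by
  rcases Int.le_total 0 m with hm | hm
  · obtain ⟨n, rfl⟩ := Int.eq_ofNat_of_zero_le hm
    rw [mPreU_pw_nat, mPreU_pw_nat, mul_pow, ← Complex.exp_nat_mul]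
    congr 2
    push_cast
    ring
  · obtain ⟨n, hn⟩ := Int.eq_ofNat_of_zero_le (show 0 ≤ -m by omega)
    have hm' : m = -(n : ℤ) := by omega
    subst hm'
    have h3 : conj (Complex.exp (-2 * Complex.I * s)) = Complex.exp (2 * Complex.I * s) := by
      rw [← Complex.exp_conj]
      have h2 : (starRingEnd ℂ) 2 = 2 := Complex.conj_ofNat 2
      simp [h2]
    rw [mPreU_pw_neg, mPreU_pw_neg, map_mul, h3, mul_pow, ← Complex.exp_nat_mul]
    congr 2
    push_cast
    ring

theorem mPreU_mtinv (g : Gp) (s : ℝ) (h : mt g = rot s) : mt g⁻¹ = rot (-s) := by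
  have h1 : mt g⁻¹ * mt g = 1 := by
    have : mt (g⁻¹ * g) = mt g⁻¹ * mt g := rfl
    rw [← this, inv_mul_cancel]
    rfl
  calc mt g⁻¹ = mt g⁻¹ * (mt g * rot (-s)) := by rw [h, mPreU_rot, mul_one]
    _ = rot (-s) := by rw [← mul_assoc, h1, one_mul]

/-- TARGET -/
theorem mPreU (h1 : S_blk) (h2 : S_AA) (h3 : S_K) : S_preU := by
  intro hG w hw
  refine ⟨?_, ?_, ?_, ?_⟩
  · intro u v g
    funext j
    simp only [mPreU_FU, map_add, Pi.add_apply]
  · intro c v g
    funext j
    simp only [mPreU_FU, map_smul, Pi.smul_apply]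
  · intro X γ hγ v g
    rw [hasDerivAt_pi]
    intro j
    simp only [mPreU_FU]
    have hz : HasDerivAt (fun t : ℝ => mobI (g * γ t).1 w)
        (-be (b1 X.1) - 2 * Complex.I * ((al (b1 X.1)).im : ℂ) * mobI g.1 w +
          conj (be (b1 X.1)) * mobI g.1 w ^ 2) 0 := by
      have := mPreU_mob_d (b1 X.1) (mobI g.1 w)
      refine this.congr_of_eventuallyEq (Filter.Eventually.of_forall fun t => ?_)
      exact mPreU_mobI h1 h2 hγ w hw g t
    have hz0 : mobI (g * γ 0).1 w = mobI g.1 w := by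
      have h0 : γ 0 = 1 := by
        have := hγ.2.1 0 0
        rw [add_zero] at this
        exact (mul_eq_left.1 this.symm)
      rw [h0, mul_one]
    have hx0 : xx (g * γ 0) = xx g := by
      have h0 : γ 0 = 1 := by
        have := hγ.2.1 0 0
        rw [add_zero] at this
        exact (mul_eq_left.1 this.symm)
      rw [h0, mul_one]
    have hx : HasDerivAt (fun t : ℝ => ((xx (g * γ t) : ℝ) : ℂ)) ((b1 X.1).trace : ℂ) 0 := by
      have := ((mPreU_det_d (b1 X.1)).const_add (xx g)).ofReal_comp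
      refine this.congr_of_eventuallyEq (Filter.Eventually.of_forall fun t => ?_)
      simp only [mPreU_xx h1 hγ g t]
    have hpw : ∀ m : ℤ, HasDerivAt (fun t : ℝ => pw m (mobI (g * γ t).1 w))
        (-(m : ℂ) * be (b1 X.1) * pw (m - 1) (mobI g.1 w) +
        (-(m : ℂ) * (2 * Complex.I * ((al (b1 X.1)).im : ℂ))) * pw m (mobI g.1 w) +
        (m : ℂ) * conj (be (b1 X.1)) * pw (m + 1) (mobI g.1 w)) 0 := by
      intro m
      have := mPreU_pw_d m (fun t : ℝ => mobI (g * γ t).1 w) (be (b1 X.1)) (al (b1 X.1)).im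
        (by simpa only [hz0] using hz)
      simpa only [hz0] using this
    have hA : ∀ u, (MU.toHC hG).a X u = MU.A (b1 X.1) (b2 X.1) u := fun u => rfl
    rw [hA]
    induction v using Finsupp.induction_linear with
    | zero =>
      simp only [map_zero]
      exact hasDerivAt_const _ _
    | add u v hu hv =>
      simp only [map_add]
      exact hu.add hv
    | single i c =>
      obtain ⟨m, k⟩ := i
      simp only [Finsupp.linearCombination_single, smul_eq_mul, MU, map_smul, map_add]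
      have hj : ∀ (m' : ℤ →₀ ℂ), Finsupp.linearCombination ℂ (fun i : ℤ × Fin 2 =>
          pw i.1 (mobI g.1 w) * mPreU_c (xx g : ℂ) j i.2) (m'.mapDomain (fun m => (m, k))) =
          Finsupp.linearCombination ℂ (fun i : ℤ => pw i (mobI g.1 w) * mPreU_c (xx g : ℂ) j k) m' := by
        intro m'
        rw [Finsupp.linearCombination_mapDomain]
        rfl
      rw [hj]
      simp only [vfm, map_add, Finsupp.linearCombination_single, smul_eq_mul]
      fin_cases k
      · have hc : ∀ x : ℂ, mPreU_c x j 0 = (if j = 0 then 1 else 0) := by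
          intro x; simp [mPreU_c]
        simp only [Fin.zero_eta, hc]
        refine (((hpw m).mul_const _).const_mul c).congr_deriv ?_
        by_cases hj0 : j = 0
        · simp [hj0]
        · simp [hj0]
      · have hc : ∀ x : ℂ, mPreU_c x j 1 = (if j = 0 then x else 1) := by
          intro x; simp [mPreU_c]
        simp only [Fin.mk_one, hc]
        by_cases hj0 : j = 0
        · subst hj0
          simp only [if_true]
          refine (((hpw m).mul hx).const_mul c).congr_deriv ?_
          rw [hz0, hx0]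
          simp only [mPreU_c, if_true, Finsupp.linearCombination_single, smul_eq_mul]
          ring
        · simp only [if_neg hj0]
          refine (((hpw m).mul_const _).const_mul c).congr_deriv ?_
          simp only [mPreU_c, if_neg hj0, if_true, Finsupp.linearCombination_single, smul_eq_mul]
          ring
  · intro k v g
    obtain ⟨c, -, hsurj, hrot, hkap⟩ := h3
    obtain ⟨x, rfl⟩ := hsurj k
    have hA : (MU.toHC hG).κ (c x) v = MU.kst x.1 x.2 v := by
      rw [← hkap]
      rfl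
    have hz : mobI (g * (c x).1).1 w = Complex.exp (-2 * Complex.I * x.1) * mobI g.1 w := by
      rw [Prod.fst_mul, h2.2.2.2.2.2.2.2.2.1 _ _ w hw, mobI, mPreU_mtinv _ _ (hrot x).1,
        mPreU_mobrot]
    have hx : xx (g * (c x).1) = xx g := by
      have h3 : mt (g * (c x).1).1 = mt g.1 * mt (c x).1.1 := rfl
      have h4 : (rot x.1).det = 1 := by
        rw [rot, Matrix.det_fin_two_of]
        have := Real.cos_sq_add_sin_sq x.1
        nlinarith
      rw [xx, xx, h3, Matrix.det_mul, (hrot x).1, h4, mul_one]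
    rw [hA]
    clear hA
    funext j
    simp only [mPreU_FU]
    rw [hz, hx]
    induction v using Finsupp.induction_linear with
    | zero => simp only [map_zero]
    | add u v hu hv =>
      simp only [map_add]
      rw [hu, hv]
    | single i d =>
      obtain ⟨m, k⟩ := i
      simp only [TMod.kst, dg, Finsupp.linearCombination_single, smul_eq_mul, map_smul,
        mPreU_pwexp, MU]
      push_cast
      ring_nf

end Pool.Agent.H913.LG
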