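import Pool.Agent.H913.LG.Stmts

open Matrix NormedSpace
open scoped Matrix ComplexConjugate

namespace Pool.Agent.H913.LG

open Pool.Agent.H913.SGP

theorem uNeg_norm_pw (m : ℤ) (z : ℂ) : ‖pw m z‖ = ‖z‖ ^ m.natAbs := by
  unfold pw
  split_ifs with h
  · rw [norm_pow]; congr 1; omega
  · rw [norm_pow, RCLike.norm_conj]; congr 1; omega

theorem uNeg_mobI_one (w : ℂ) : mobI 1 w = w := by
  have h1 : mt (1 : Gp)⁻¹ = 1 := by simp [mt]
  have ha : al (1 : Mat2) = 1 := by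
    apply Complex.ext <;> simp [al]
  have hb : be (1 : Mat2) = 0 := by
    apply Complex.ext <;> simp [be]
  unfold mobI mob
  rw [h1, ha, hb]
  simp

theorem uNeg_F0_lin (w : ℂ) (v : ℤ →₀ ℂ) (g : Gd) :
    F0 w v g = Finsupp.linearCombination ℂ (fun m => pw m (mobI g.1 w)) v := by
  rw [Finsupp.linearCombination_apply]; rfl

theorem uNeg_F0_dg (w : ℂ) (c : ℤ → ℂ) (v : ℤ →₀ ℂ) (g : Gd) :
    F0 w (dg c v) g = ∑ m ∈ v.support, v m * (c m * pw m (mobI g.1 w)) := by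
  rw [uNeg_F0_lin]
  unfold dg
  rw [Finsupp.linearCombination_apply ℂ v, map_finsuppSum, Finsupp.sum]
  refine Finset.sum_congr rfl fun m _ => ?_
  rw [map_smul, map_smul, Finsupp.linearCombination_single]
  simp [smul_eq_mul]

/-- the weights of the exponentials -/
theorem uNeg_pw_exp (k : ℤ) (θ : ℝ) :
    pw k (Complex.exp (Complex.I * θ)) = Complex.exp (Complex.I * k * θ) := by
  unfold pw
  split_ifs with h
  · rw [← Complex.exp_nat_mul]
    congr 1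
    have : ((k.toNat : ℕ) : ℂ) = (k : ℂ) := by
      have h2 : ((k.toNat : ℕ) : ℤ) = k := Int.toNat_of_nonneg h
      exact_mod_cast congrArg (fun x : ℤ => (x : ℂ)) h2
    rw [this]; ring
  · rw [← Complex.exp_conj, ← Complex.exp_nat_mul]
    congr 1
    have : (((-k).toNat : ℕ) : ℂ) = -(k : ℂ) := by
      have h2 : (((-k).toNat : ℕ) : ℤ) = -k := Int.toNat_of_nonneg (by omega)
      have := congrArg (fun x : ℤ => (x : ℂ)) h2
      push_cast at this
      exact_mod_cast this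
    rw [this, map_mul, Complex.conj_I, Complex.conj_ofReal]; ring

theorem uNeg_int (k : ℤ) :
    ∫ θ in (0 : ℝ)..(2 * Real.pi), Complex.exp (Complex.I * k * θ) =
      if k = 0 then 2 * Real.pi else 0 := by
  split_ifs with h
  · subst h
    simp
  · have hk : Complex.I * (k : ℂ) ≠ 0 := mul_ne_zero Complex.I_ne_zero (by exact_mod_cast h)
    rw [integral_exp_mul_complex hk]
    have : Complex.exp (Complex.I * k * ((2 * Real.pi : ℝ) : ℂ)) = 1 := by
      rw [Complex.exp_eq_one_iff]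
      exact ⟨k, by push_cast; ring⟩
    rw [this]
    simp

theorem uNeg_bdd (h2 : S_bd) (u : ℤ →₀ ℂ) :
    BddAbove (Set.range fun x : Sc × Gd => ‖F0 x.1 u x.2‖ / (1 : ℝ)) := by
  refine ⟨u.sum fun _ c => ‖c‖, ?_⟩
  rintro _ ⟨x, rfl⟩
  simp only [div_one]
  exact h2.1 _ u x.2 x.1.2.le

theorem uNeg_le_p0 (h2 : S_bd) (u : ℤ →₀ ℂ) (w : ℂ) (hw : ‖w‖ = 1) (g : Gd) :
    ‖F0 w u g‖ ≤ p0 u := by
  have := le_ciSup (uNeg_bdd h2 u) (⟨⟨w, hw⟩, g⟩ : Sc × Gd)
  simpa [p0, famNorm] using this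

theorem uNeg_coef (h2 : S_bd) (u : ℤ →₀ ℂ) (m : ℤ) : ‖u m‖ ≤ p0 u := by
  have hexp : ∀ θ : ℝ, ‖Complex.exp (Complex.I * θ)‖ = 1 := by
    intro θ
    rw [mul_comm]; exact Complex.norm_exp_ofReal_mul_I θ
  have hexp2 : ∀ θ : ℝ, ‖Complex.exp (Complex.I * ((-m : ℤ) : ℂ) * θ)‖ = 1 := by
    intro θ
    have : Complex.I * ((-m : ℤ) : ℂ) * (θ : ℂ) = (((-m : ℤ) : ℝ) * θ : ℝ) * Complex.I := by
      push_cast; ring
    rw [this]; exact Complex.norm_exp_ofReal_mul_I _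
  have key : ∫ θ in (0 : ℝ)..(2 * Real.pi),
      F0 (Complex.exp (Complex.I * θ)) u 1 * Complex.exp (Complex.I * ((-m : ℤ) : ℂ) * θ)
      = 2 * Real.pi * u m := by
    have h1 : ∀ θ : ℝ, F0 (Complex.exp (Complex.I * θ)) u 1 *
        Complex.exp (Complex.I * ((-m : ℤ) : ℂ) * θ) =
        ∑ k ∈ u.support, u k * Complex.exp (Complex.I * ((k - m : ℤ) : ℂ) * θ) := by
      intro θ
      unfold F0
      rw [Finsupp.sum, Finset.sum_mul]
      refine Finset.sum_congr rfl fun k _ => ?_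
      have : (1 : Gd).1 = 1 := rfl
      rw [this, uNeg_mobI_one, uNeg_pw_exp, mul_assoc, ← Complex.exp_add]
      congr 2
      push_cast; ring
    simp_rw [h1]
    rw [intervalIntegral.integral_finsetSum]
    · simp_rw [intervalIntegral.integral_const_mul, uNeg_int]
      by_cases hm : m ∈ u.support
      · rw [Finset.sum_eq_single m]
        · simp; ring
        · intro k _ hk
          have : k - m ≠ 0 := sub_ne_zero.mpr hk
          simp [this]
        · intro h; exact absurd hm h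
      · have h0 : u m = 0 := by simpa using hm
        rw [h0, mul_zero]
        refine Finset.sum_eq_zero fun k hk => ?_
        have : k - m ≠ 0 := by
          intro h
          have : k = m := by omega
          exact hm (this ▸ hk)
        simp [this]
    · intro k _
      apply Continuous.intervalIntegrable
      fun_prop
  have hb : ‖∫ θ in (0 : ℝ)..(2 * Real.pi),
      F0 (Complex.exp (Complex.I * θ)) u 1 * Complex.exp (Complex.I * ((-m : ℤ) : ℂ) * θ)‖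
      ≤ p0 u * |2 * Real.pi - 0| := by
    apply intervalIntegral.norm_integral_le_of_norm_le_const
    intro θ _
    rw [norm_mul, hexp2, mul_one]
    exact uNeg_le_p0 h2 u _ (hexp θ) 1
  rw [key] at hb
  have hpi : 0 < 2 * Real.pi := by positivity
  rw [norm_mul] at hb
  have e1 : ‖(2 * Real.pi : ℂ)‖ = 2 * Real.pi := by
    rw [norm_mul]
    simp [abs_of_pos Real.pi_pos]
  rw [e1, sub_zero, abs_of_pos hpi, mul_comm] at hb
  exact le_of_mul_le_mul_right hb hpi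

theorem uNeg_pow_choose (n k : ℕ) : ((n : ℝ) + 1) ^ k ≤ (k.factorial : ℝ) * ((n + k).choose k : ℝ) := by
  have h := Nat.pow_succ_le_ascFactorial (n + 1) k
  have h3 : (n + 1).ascFactorial k = k.factorial * (n + k).choose k := Nat.ascFactorial_eq_factorial_mul_choose n k
  rw [h3] at h
  exact_mod_cast h

theorem uNeg_sum_half (k : ℕ) (ρ : ℝ) (h0 : 0 ≤ ρ) (h1 : ρ < 1) (s : Finset ℤ)
    (hs : Set.InjOn Int.natAbs (s : Set ℤ)) :
    ∑ m ∈ s, ((m.natAbs + k).choose k : ℝ) * ρ ^ m.natAbs ≤ 1 / (1 - ρ) ^ (k + 1) := by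
  have hn : ‖ρ‖ < 1 := by rwa [Real.norm_of_nonneg h0]
  have hsum := summable_choose_mul_geometric_of_norm_lt_one k hn
  have := tsum_choose_mul_geometric_of_norm_lt_one k hn
  rw [← this, ← Finset.sum_image (f := fun n : ℕ => ((n + k).choose k : ℝ) * ρ ^ n) hs]
  exact hsum.sum_le_tsum _ (fun n _ => by positivity)

theorem uNeg_sum (k : ℕ) (ρ : ℝ) (h0 : 0 ≤ ρ) (h1 : ρ < 1) (s : Finset ℤ) :
    ∑ m ∈ s, ((m.natAbs + k).choose k : ℝ) * ρ ^ m.natAbs ≤ 2 * (1 / (1 - ρ) ^ (k + 1)) := by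
  rw [← Finset.sum_filter_add_sum_filter_not s (fun m => 0 ≤ m), two_mul]
  refine add_le_add (uNeg_sum_half k ρ h0 h1 _ ?_) (uNeg_sum_half k ρ h0 h1 _ ?_)
  · intro a ha b hb h
    simp only [Finset.coe_filter, Set.mem_ofPred_eq] at ha hb
    omega
  · intro a ha b hb h
    simp only [Finset.coe_filter, Set.mem_ofPred_eq] at ha hb
    omega

theorem uNeg_AA (h1 : S_AA) (g : Gp) : 1 / (1 - ‖mobI g 0‖) ≤ AA g ∧ ‖mobI g 0‖ < 1 := by
  obtain ⟨ha, hb⟩ := h1.2.2.2.2.2.1 g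
  refine ⟨?_, hb⟩
  rw [ha]
  have : 0 < 1 - ‖mobI g 0‖ := by linarith
  gcongr
  linarith [norm_nonneg (mobI g 0)]

/-- TARGET -/
theorem u_N0 (h1 : S_AA) (h2 : S_bd) : S_N0 := by
  intro κ c hc W hW
  refine ⟨2 * (1 + 4 * c) ^ κ * (2 * κ).factorial, fun u => ?_⟩
  unfold famNorm
  have hp0 : 0 ≤ p0 u := (norm_nonneg _).trans (uNeg_coef h2 u 0)
  refine ciSup_le fun x => ?_
  obtain ⟨_, g⟩ := x
  simp only
  obtain ⟨hA, hρ⟩ := uNeg_AA h1 g.1
  set ρ := ‖mobI g.1 0‖ with hρdef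
  have hρ0 : 0 ≤ ρ := norm_nonneg _
  have hρ1 : 0 < 1 - ρ := by linarith
  have hWp : 1 / (1 - ρ) ^ (2 * κ + 1) ≤ W g := by
    refine le_trans ?_ (hW g)
    rw [← _root_.one_div_pow]
    exact pow_le_pow_left₀ (by positivity) hA _
  have hW0 : 0 < W g := lt_of_lt_of_le (by positivity) hWp
  rw [div_le_iff₀ hW0, uNeg_F0_dg]
  calc ‖∑ m ∈ u.support, u m * ((((1 + 4 * c * (m : ℝ) ^ 2) ^ κ : ℝ) : ℂ) * pw m (mobI g.1 0))‖
      ≤ ∑ m ∈ u.support, ‖u m * ((((1 + 4 * c * (m : ℝ) ^ 2) ^ κ : ℝ) : ℂ) * pw m (mobI g.1 0))‖ :=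
        norm_sum_le _ _
    _ ≤ ∑ m ∈ u.support, (p0 u * ((1 + 4 * c) ^ κ * (2 * κ).factorial)) *
          (((m.natAbs + 2 * κ).choose (2 * κ) : ℝ) * ρ ^ m.natAbs) := by
        refine Finset.sum_le_sum fun m _ => ?_
        rw [norm_mul, norm_mul, uNeg_norm_pw, ← hρdef, Complex.norm_real]
        have hb : ‖(1 + 4 * c * (m : ℝ) ^ 2) ^ κ‖ ≤ (1 + 4 * c) ^ κ * ((2 * κ).factorial *
            ((m.natAbs + 2 * κ).choose (2 * κ) : ℝ)) := by
          rw [Real.norm_of_nonneg (by positivity)]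
          have hm : (m : ℝ) ^ 2 = (m.natAbs : ℝ) ^ 2 := by
            rw [Nat.cast_natAbs, Int.cast_abs, sq_abs]
          rw [hm]
          have h5 : 1 + 4 * c * (m.natAbs : ℝ) ^ 2 ≤ (1 + 4 * c) * ((m.natAbs : ℝ) + 1) ^ 2 := by
            have : (0 : ℝ) ≤ m.natAbs := Nat.cast_nonneg _
            nlinarith [mul_nonneg hc.le this, mul_nonneg hc.le (sq_nonneg (m.natAbs : ℝ)), sq_nonneg (m.natAbs : ℝ)]
          calc (1 + 4 * c * (m.natAbs : ℝ) ^ 2) ^ κ ≤ ((1 + 4 * c) * ((m.natAbs : ℝ) + 1) ^ 2) ^ κ :=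
                pow_le_pow_left₀ (by positivity) h5 _
            _ = (1 + 4 * c) ^ κ * ((m.natAbs : ℝ) + 1) ^ (2 * κ) := by rw [mul_pow, ← pow_mul]
            _ ≤ _ := by
                gcongr
                exact uNeg_pow_choose _ _
        calc ‖u m‖ * (‖(1 + 4 * c * (m : ℝ) ^ 2) ^ κ‖ * ρ ^ m.natAbs)
            ≤ p0 u * (((1 + 4 * c) ^ κ * ((2 * κ).factorial *
              ((m.natAbs + 2 * κ).choose (2 * κ) : ℝ))) * ρ ^ m.natAbs) := by
              gcongr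
              exact uNeg_coef h2 u m
          _ = _ := by ring
    _ = (p0 u * ((1 + 4 * c) ^ κ * (2 * κ).factorial)) *
          ∑ m ∈ u.support, (((m.natAbs + 2 * κ).choose (2 * κ) : ℝ) * ρ ^ m.natAbs) := by
        rw [Finset.mul_sum]
    _ ≤ (p0 u * ((1 + 4 * c) ^ κ * (2 * κ).factorial)) * (2 * (1 / (1 - ρ) ^ (2 * κ + 1))) := by
        gcongr
        exact uNeg_sum (2 * κ) ρ hρ0 hρ _
    _ ≤ (p0 u * ((1 + 4 * c) ^ κ * (2 * κ).factorial)) * (2 * W g) := by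
        gcongr
    _ = _ := by ring

theorem uNeg_exp (a n : ℕ) (ρ : ℝ) (h0 : 0 ≤ ρ) (h1 : ρ < 1) :
    ρ ^ n * ((1 - ρ) ^ a * (1 + (n : ℝ)) ^ a) ≤ a.factorial * Real.exp 1 := by
  have hx : 0 ≤ (n : ℝ) * (1 - ρ) := mul_nonneg (Nat.cast_nonneg _) (by linarith)
  have e1 : ρ ^ n ≤ Real.exp (-((n : ℝ) * (1 - ρ))) := by
    have : ρ ≤ Real.exp (-(1 - ρ)) := by
      have := Real.add_one_le_exp (-(1 - ρ))
      linarith
    calc ρ ^ n ≤ (Real.exp (-(1 - ρ))) ^ n := pow_le_pow_left₀ h0 this _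
      _ = Real.exp (-((n : ℝ) * (1 - ρ))) := by
        rw [← Real.exp_nat_mul]; congr 1; ring
  have e2 : (1 - ρ) ^ a * (1 + (n : ℝ)) ^ a ≤ (1 + (n : ℝ) * (1 - ρ)) ^ a := by
    rw [← mul_pow]
    refine pow_le_pow_left₀ (mul_nonneg (by linarith) (by positivity)) ?_ _
    nlinarith
  have e3 : (1 + (n : ℝ) * (1 - ρ)) ^ a ≤ a.factorial * Real.exp (1 + (n : ℝ) * (1 - ρ)) := by
    have := Real.pow_div_factorial_le_exp (1 + (n : ℝ) * (1 - ρ)) (by positivity) a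
    rw [div_le_iff₀ (by positivity)] at this
    linarith
  calc ρ ^ n * ((1 - ρ) ^ a * (1 + (n : ℝ)) ^ a)
      ≤ Real.exp (-((n : ℝ) * (1 - ρ))) * (a.factorial * Real.exp (1 + (n : ℝ) * (1 - ρ))) := by
        have h1ρ : 0 ≤ 1 - ρ := by linarith
        exact mul_le_mul e1 (e2.trans e3) (by positivity) (Real.exp_nonneg _)
    _ = a.factorial * (Real.exp (-((n : ℝ) * (1 - ρ))) * Real.exp (1 + (n : ℝ) * (1 - ρ))) := by ring
    _ = _ := by
        rw [← Real.exp_add]; congr 2; ring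

/-- TARGET -/
theorem u_ND (h1 : S_AA) (h2 : S_bd) : S_ND := by
  intro a W c hc hW
  refine ⟨(a.factorial * Real.exp 1) / c, fun m => ?_⟩
  have hm0 : 0 < (1 + |(m : ℝ)|) ^ a := by positivity
  rw [← le_div_iff₀ hm0]
  unfold famNorm
  refine ciSup_le fun x => ?_
  obtain ⟨_, g⟩ := x
  simp only
  obtain ⟨hA, hρ⟩ := uNeg_AA h1 g.1
  have hfac : FD 0 (ee (m, 0)) g = pw m (mobI g.1 0) • FD 0 (ee ((0 : ℤ), (0 : Fin 2))) g := by
    funext j
    simp only [FD, ee, Pi.smul_apply, smul_eq_mul]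
    rw [Finsupp.sum_single_index (by simp), Finsupp.sum_single_index (by simp)]
    simp [pw]
  have hb := h2.2.2.1 0 (ee ((0 : ℤ), (0 : Fin 2))) g (by simp)
  rw [Finsupp.sum_single_index (by simp)] at hb
  simp only [norm_one, one_mul] at hb
  set ρ := ‖mobI g.1 0‖ with hρdef
  have hρ0 : 0 ≤ ρ := norm_nonneg _
  have hρ1 : 0 < 1 - ρ := by linarith
  have hAA2 : 0 < AA g.2 := lt_of_lt_of_le one_pos (h1.1 g.2)
  have hs : 0 < Real.sqrt (AA g.2) := Real.sqrt_pos.mpr hAA2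
  have hWp : c * ((1 / (1 - ρ) ^ a) * Real.sqrt (AA g.2)) ≤ W g := by
    refine le_trans ?_ (hW g)
    gcongr
    rw [← _root_.one_div_pow]
    exact pow_le_pow_left₀ (by positivity) hA _
  have hW0 : 0 < W g := lt_of_lt_of_le (by positivity) hWp
  rw [div_le_iff₀ hW0, hfac, norm_smul, uNeg_norm_pw, ← hρdef]
  have hk := uNeg_exp a m.natAbs ρ hρ0 hρ
  have hcast : ((m.natAbs : ℕ) : ℝ) = |(m : ℝ)| := by
    rw [Nat.cast_natAbs]; simp
  rw [hcast] at hk
  have hk2 : ρ ^ m.natAbs ≤ (a.factorial * Real.exp 1) / (1 + |(m : ℝ)|) ^ a * (1 / (1 - ρ) ^ a) := by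
    rw [div_mul_div_comm, le_div_iff₀ (by positivity)]
    calc ρ ^ m.natAbs * ((1 + |(m : ℝ)|) ^ a * (1 - ρ) ^ a)
        = ρ ^ m.natAbs * ((1 - ρ) ^ a * (1 + |(m : ℝ)|) ^ a) := by ring
      _ ≤ _ := by simpa using hk
  calc ρ ^ m.natAbs * ‖FD 0 (ee ((0 : ℤ), (0 : Fin 2))) g‖
      ≤ ((a.factorial * Real.exp 1) / (1 + |(m : ℝ)|) ^ a * (1 / (1 - ρ) ^ a)) *
        Real.sqrt (AA g.2) := by
        gcongr
    _ = (a.factorial * Real.exp 1) / c / (1 + |(m : ℝ)|) ^ a *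
          (c * ((1 / (1 - ρ) ^ a) * Real.sqrt (AA g.2))) := by
        field_simp
    _ ≤ _ := by
        gcongr

end Pool.Agent.H913.LG
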