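import Pool.Agent.H913.LG.Stmts

open Matrix NormedSpace
open scoped Matrix ComplexConjugate

namespace Pool.Agent.H913.LG

open Pool.Agent.H913.SGP

theorem uUp1_add {I : Type} {M : TMod I} (h : M.Good) (X Y : Mat2) :
    M.A (X + Y) 0 = M.A X 0 + M.A Y 0 := by
  have := h.add X Y 0 0
  rwa [add_zero] at this

theorem uUp1_smul {I : Type} {M : TMod I} (h : M.Good) (c : ℝ) (X : Mat2) :
    M.A (c • X) 0 = (c : ℂ) • M.A X 0 := by
  have := h.smul c X 0
  rwa [smul_zero] at this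

theorem uUp1_exp {I : Type} {M : TMod I} (h : M.Good) (Y : Mat2) :
    M.A Y 0 = ∑ p : Fin 2 × Fin 2, (Y p.1 p.2 : ℂ) • M.A (Matrix.single p.1 p.2 1) 0 := by
  let L : Mat2 →+ Module.End ℂ (I →₀ ℂ) := AddMonoidHom.mk' (fun Y => M.A Y 0) (uUp1_add h)
  have e : Y = ∑ p : Fin 2 × Fin 2, Y p.1 p.2 • Matrix.single p.1 p.2 (1 : ℝ) := by
    rw [Fintype.sum_prod_type]
    conv_lhs => rw [Matrix.matrix_eq_sum_single Y]
    simp
  have e2 : L Y = ∑ p : Fin 2 × Fin 2, L (Y p.1 p.2 • Matrix.single p.1 p.2 (1 : ℝ)) := by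
    rw [← map_sum, ← e]
  have e3 : ∀ Z, L Z = M.A Z 0 := fun Z => rfl
  simp only [e3, uUp1_smul h] at e2
  exact e2

theorem uUp1_dY (A X : Mat2) :
    ∀ i j, HasDerivAt (fun t : ℝ => (exp (-(t • X)) * A * exp (t • X)) i j) ((A * X - X * A) i j) 0 := by
  let _ : NormedRing Mat2 := Matrix.linftyOpNormedRing
  let _ : NormedAlgebra ℝ Mat2 := Matrix.linftyOpNormedAlgebra
  intro i j
  have h1 : HasDerivAt (fun t : ℝ => exp (t • X)) (exp ((0 : ℝ) • X) * X) 0 :=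
    hasDerivAt_exp_smul_const X 0
  have h2 : HasDerivAt (fun t : ℝ => exp (t • (-X))) (exp ((0 : ℝ) • (-X)) * (-X)) 0 :=
    hasDerivAt_exp_smul_const (-X) 0
  have h3 := (h2.mul_const A).mul h1
  let ev : Mat2 →ₗ[ℝ] ℝ := Matrix.entryLinearMap ℝ ℝ i j
  have hc : Continuous ev := continuous_id.matrix_elem i j
  have h4 := (ContinuousLinearMap.hasFDerivAt (⟨ev, hc⟩ : Mat2 →L[ℝ] ℝ)).comp_hasDerivAt (0 : ℝ) h3
  have e1 : exp (0 : Mat2) = 1 := NormedSpace.exp_zero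
  have h5 := h4.congr_deriv (g' := (A * X - X * A) i j) (by
    show (exp ((0:ℝ) • -X) * -X * A * exp ((0:ℝ) • X) + exp ((0:ℝ) • -X) * A * (exp ((0:ℝ) • X) * X)) i j
      = (A * X - X * A) i j
    have e7 : exp ((0:ℝ) • -X) * -X * A * exp ((0:ℝ) • X) + exp ((0:ℝ) • -X) * A * (exp ((0:ℝ) • X) * X)
        = A * X - X * A := by
      rw [zero_smul, zero_smul, e1]
      simp only [one_mul, mul_one, neg_mul]
      abel
    rw [e7])
  refine h5.congr_of_eventuallyEq (Filter.Eventually.of_forall fun t => ?_)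
  show (exp (-(t • X)) * A * exp (t • X)) i j = (exp (t • -X) * A * exp (t • X)) i j
  rw [smul_neg]

/-- products of linear combinations -/
theorem uUp1_sq0 {I : Type} {M : TMod I} (h : M.Good) (Y Z : Mat2) (v : I →₀ ℂ) :
    M.A Y 0 (M.A Z 0 v) = ∑ p : (Fin 2 × Fin 2) × (Fin 2 × Fin 2),
      ((Y p.1.1 p.1.2 : ℂ) * (Z p.2.1 p.2.2 : ℂ)) •
        M.A (Matrix.single p.1.1 p.1.2 1) 0 (M.A (Matrix.single p.2.1 p.2.2 1) 0 v) := by
  have e := Fintype.sum_prod_type (f := fun p : (Fin 2 × Fin 2) × (Fin 2 × Fin 2) =>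
    ((Y p.1.1 p.1.2 : ℂ) * (Z p.2.1 p.2.2 : ℂ)) •
        M.A (Matrix.single p.1.1 p.1.2 1) 0 (M.A (Matrix.single p.2.1 p.2.2 1) 0 v))
  rw [e]
  conv_lhs => rw [uUp1_exp h Y, uUp1_exp h Z]
  simp only [LinearMap.sum_apply, LinearMap.smul_apply, map_sum, map_smul, Finset.smul_sum, smul_smul]
  rw [Finset.sum_comm]
  refine Finset.sum_congr rfl fun p _ => Finset.sum_congr rfl fun q _ => ?_
  rw [mul_comm]

/-- products of linear combinations -/
theorem uUp1_sq {I : Type} {M : TMod I} (h : M.Good) {B : Type} [NormedAddCommGroup B]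
    [NormedSpace ℂ B] {F : (I →₀ ℂ) → Gd → B} (hF : PreFam (M.toHC h) F) (Y Z : Mat2) (v : I →₀ ℂ)
    (g : Gd) : F (M.A Y 0 (M.A Z 0 v)) g = ∑ p : (Fin 2 × Fin 2) × (Fin 2 × Fin 2),
      ((Y p.1.1 p.1.2 : ℂ) * (Z p.2.1 p.2.2 : ℂ)) •
        F (M.A (Matrix.single p.1.1 p.1.2 1) 0 (M.A (Matrix.single p.2.1 p.2.2 1) 0 v)) g := by
  let L : (I →₀ ℂ) →ₗ[ℂ] B :=
    { toFun := fun v => F v g
      map_add' := fun u v => hF.add u v g
      map_smul' := fun c v => hF.smul c v g }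
  have eL : ∀ v, F v g = L v := fun v => rfl
  simp only [eL]
  rw [uUp1_sq0 h Y Z]
  simp only [map_sum, map_smul]

theorem uUp1_inv (g : Gp) : mt g⁻¹ * mt g = 1 ∧ mt g * mt g⁻¹ = 1 := by
  constructor
  · have : (((g⁻¹ * g : Gp) : GL (Fin 2) ℝ) : Mat2) = 1 := by
      rw [inv_mul_cancel]; rfl
    exact this
  · have : (((g * g⁻¹ : Gp) : GL (Fin 2) ℝ) : Mat2) = 1 := by
      rw [mul_inv_cancel]; rfl
    exact this

theorem uUp1_adJ_mul (g k : Gp) : adJ (g * k) = mt k⁻¹ * adJ g * mt k := by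
  have e1 : mt (g * k) = mt g * mt k := rfl
  have e2 : mt (g * k)⁻¹ = mt k⁻¹ * mt g⁻¹ := by rw [_root_.mul_inv_rev]; rfl
  unfold adJ
  rw [e1, e2]
  simp only [Matrix.mul_assoc]

/-- TARGET -/
theorem u_up1 (h1 : S_blk) (h2 : S_K) : S_up1 := by
  intro I M h c B _ _ F hF
  have hsub : ∀ u v g, F (u - v) g = F u g - F v g := by
    intro u v g
    have e := hF.add (u - v) v g
    rw [sub_add_cancel] at e
    rw [e, add_sub_cancel_right]
  refine ⟨?_, ?_, ?_, ?_⟩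
  · intro u v g
    simp only [upF, map_add, hF.add, smul_add]
    abel
  · intro a v g
    simp only [upF, map_smul, hF.smul, smul_sub]
    rw [smul_comm]
  · intro X γ hγ v g
    set X1 := b1 X.1 with hX1
    set X2 := b2 X.1 with hX2
    set Y := adJ g.1 with hY
    have hXop : (M.toHC h).a X = M.A X1 X2 := rfl
    have hYt : ∀ t : ℝ, adJ (g * γ t).1 = exp (-(t • X1)) * Y * exp (t • X1) := by
      intro t
      have e := (h1.2.2 X γ hγ t).1
      have e0 : (g * γ t).1 = g.1 * (γ t).1 := rfl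
      rw [e0, uUp1_adJ_mul, e]
      have e3 := (uUp1_inv (γ t).1).1
      rw [e] at e3
      have e4 : exp (t • X1) * exp (-(t • X1)) = 1 := by
        rw [← Matrix.exp_add_of_commute, add_neg_cancel, NormedSpace.exp_zero]
        exact (Commute.refl _).neg_right
      have e5 : mt (γ t).1⁻¹ = exp (-(t • X1)) := by
        calc mt (γ t).1⁻¹ = mt (γ t).1⁻¹ * (exp (t • X1) * exp (-(t • X1))) := by rw [e4, mul_one]
          _ = exp (-(t • X1)) := by rw [← mul_assoc, e3, one_mul]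
      rw [e5]
    have hd1 := hF.deriv X γ hγ v g
    have hd2 : HasDerivAt (fun t : ℝ => F (M.A (adJ (g * γ t).1) 0 (M.A (adJ (g * γ t).1) 0 v)) (g * γ t))
        (F (M.A Y 0 (M.A Y 0 (M.A X1 X2 v))) g) 0 := by
      have hterm : ∀ p : (Fin 2 × Fin 2) × (Fin 2 × Fin 2), HasDerivAt (fun t : ℝ =>
        (((exp (-(t • X1)) * Y * exp (t • X1)) p.1.1 p.1.2 : ℂ) *
          ((exp (-(t • X1)) * Y * exp (t • X1)) p.2.1 p.2.2 : ℂ)) •
        F (M.A (Matrix.single p.1.1 p.1.2 1) 0 (M.A (Matrix.single p.2.1 p.2.2 1) 0 v)) (g * γ t))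
        ((((Y p.1.1 p.1.2 : ℂ)) * ((Y p.2.1 p.2.2 : ℂ))) •
          F (M.A X1 X2 (M.A (Matrix.single p.1.1 p.1.2 1) 0 (M.A (Matrix.single p.2.1 p.2.2 1) 0 v))) g +
        ((((Y * X1 - X1 * Y) p.1.1 p.1.2 : ℂ)) * ((Y p.2.1 p.2.2 : ℂ)) +
         ((Y p.1.1 p.1.2 : ℂ)) * (((Y * X1 - X1 * Y) p.2.1 p.2.2 : ℂ))) •
          F (M.A (Matrix.single p.1.1 p.1.2 1) 0 (M.A (Matrix.single p.2.1 p.2.2 1) 0 v)) g) 0 := by
        intro p
        have a1 := (uUp1_dY Y X1 p.1.1 p.1.2).ofReal_comp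
        have a2 := (uUp1_dY Y X1 p.2.1 p.2.2).ofReal_comp
        have a3 := hF.deriv X γ hγ
          (M.A (Matrix.single p.1.1 p.1.2 1) 0 (M.A (Matrix.single p.2.1 p.2.2 1) 0 v)) g
        have a4 := (a1.mul a2).smul a3
        have e0 : exp (-((0:ℝ) • X1)) * Y * exp ((0:ℝ) • X1) = Y := by
          rw [zero_smul, neg_zero, NormedSpace.exp_zero, one_mul, mul_one]
        have e00 : g * γ 0 = g := by
          have : γ 0 = 1 := by
            have := hγ.2.1 0 0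
            rw [add_zero] at this
            exact (mul_eq_left.1 this.symm)
          rw [this, mul_one]
        refine a4.congr_deriv ?_
        simp only [Pi.mul_apply, e0, e00, hXop]
      have hsum := HasDerivAt.fun_sum (u := Finset.univ) fun p (_ : p ∈ Finset.univ) => hterm p
      have heq : (fun t : ℝ => F (M.A (adJ (g * γ t).1) 0 (M.A (adJ (g * γ t).1) 0 v)) (g * γ t)) =
          fun t : ℝ => ∑ p : (Fin 2 × Fin 2) × (Fin 2 × Fin 2),
        (((exp (-(t • X1)) * Y * exp (t • X1)) p.1.1 p.1.2 : ℂ) *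
          ((exp (-(t • X1)) * Y * exp (t • X1)) p.2.1 p.2.2 : ℂ)) •
        F (M.A (Matrix.single p.1.1 p.1.2 1) 0 (M.A (Matrix.single p.2.1 p.2.2 1) 0 v)) (g * γ t) := by
        funext t
        rw [uUp1_sq h hF, hYt t]
      rw [heq]
      refine hsum.congr_deriv ?_
      rw [Finset.sum_add_distrib]
      simp only [add_smul, Finset.sum_add_distrib]
      rw [← uUp1_sq h hF (Y * X1 - X1 * Y) Y, ← uUp1_sq h hF Y (Y * X1 - X1 * Y)]
      have e6 : ∑ p : (Fin 2 × Fin 2) × (Fin 2 × Fin 2), ((((Y p.1.1 p.1.2 : ℂ)) * ((Y p.2.1 p.2.2 : ℂ))) •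
          F (M.A X1 X2 (M.A (Matrix.single p.1.1 p.1.2 1) 0 (M.A (Matrix.single p.2.1 p.2.2 1) 0 v))) g) =
          F (M.A X1 X2 (M.A Y 0 (M.A Y 0 v))) g := by
        let L : (I →₀ ℂ) →ₗ[ℂ] B :=
          { toFun := fun v => F v g
            map_add' := fun u v => hF.add u v g
            map_smul' := fun c v => hF.smul c v g }
        have eL : ∀ v, F v g = L v := fun v => rfl
        simp only [eL]
        rw [uUp1_sq0 h Y Y]
        simp only [map_sum, map_smul]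
      rw [e6]
      have ebr : M.A (Y * X1 - X1 * Y) 0 = M.A Y 0 * M.A X1 X2 - M.A X1 X2 * M.A Y 0 := by
        have := h.br Y X1 0 X2
        simpa using this
      rw [ebr]
      simp only [LinearMap.sub_apply, Module.End.mul_apply, map_sub, hsub]
      abel
    have hd3 := hd1.sub (hd2.const_smul (c : ℂ))
    exact hd3
  · intro k v g
    obtain ⟨cc, -, hsurj, hrot, hkap⟩ := h2
    obtain ⟨x, rfl⟩ := hsurj k
    have eκ : (M.toHC h).κ (cc x) = M.kst x.1 x.2 := hkap I M x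
    have e0 : (g * (cc x).1).1 = g.1 * (cc x).1.1 := rfl
    have e1 := (hrot x).1
    have e2 := (uUp1_inv (cc x).1.1)
    have hrr : rot x.1 * rot (-x.1) = 1 := by
      ext i j
      fin_cases i <;> fin_cases j <;> simp [rot, Matrix.mul_apply, Fin.sum_univ_two] <;>
        nlinarith [Real.sin_sq_add_cos_sq x.1]
    have e3 : rot x.1 * (mt (cc x).1.1⁻¹ * adJ g.1 * mt (cc x).1.1) * rot (-x.1) = adJ g.1 := by
      rw [← e1] at hrr ⊢
      calc _ = (mt (cc x).1.1 * mt (cc x).1.1⁻¹) * adJ g.1 * (mt (cc x).1.1 * rot (-x.1)) := by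
            simp only [Matrix.mul_assoc]
        _ = adJ g.1 := by rw [e2.2, hrr, one_mul, mul_one]
    have e4 : ∀ u, M.kst x.1 x.2 (M.A (adJ (g.1 * (cc x).1.1)) 0 u) =
        M.A (adJ g.1) 0 (M.kst x.1 x.2 u) := by
      intro u
      have := h.rot x.1 x.2 (adJ (g.1 * (cc x).1.1)) 0
      rw [mul_zero, zero_mul, uUp1_adJ_mul, e3] at this
      have h5 := congrArg (fun T : Module.End ℂ (I →₀ ℂ) => T u) this
      simpa only [Module.End.mul_apply, uUp1_adJ_mul] using h5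
    simp only [upF, e0]
    rw [hF.K, hF.K, eκ, e4, e4]

end Pool.Agent.H913.LG
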