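import Pool.Agent.H913.LG.Stmts

/- PROJECT LG (owner helper913): MP_c67f28_al, MP_d7c545_al, MP_a304db_al, MP_6a3a89_al: norms on Harish-Chandra modules of
G = GL(2,R)+ x GL(2,R)+ (Gd below); common infrastructure.
SETUP (once per box, about 2 minutes):
  cd /workdir/pool/outputs/live && git fetch -q origin && mkdir -p /workdir/pool/Pool/Agent/H913/LG /workdir/pool/Pool/Agent/H913/SGP && git show origin/main:Pool/Agent/H913/SGP/Definitions.lean > /workdir/pool/Pool/Agent/H913/SGP/Definitions.lean && for f in Defs HCBase HCAux Mod Stmts; do git show origin/helper913:Pool/Agent/H913/LG/$f.lean > /workdir/pool/Pool/Agent/H913/LG/$f.lean; done; cd /workdir/pool && lake build Pool.Agent.H913.LG.Stmts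
(ignore the sorry warnings of HCBase and HCAux: these are other jobs.) Read Defs, HCBase, Mod, Stmts first (short).
Put this file at Pool/Agent/H913/LG/UUp2.lean, replace the sorry of the TARGET by a proof; auxiliary lemmas before it are
welcome (give them names starting with uUp2_ to avoid clashes). Statement of the target unchanged. Hypotheses (h1 : S_xxx) of the
target are proved elsewhere, use them freely. No sorry, no axioms. Respect RULES.md Validity 2 (banned words such as notation,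
macro, syntax, prefix, tactic; no straight double quotes; no line comment starting in odd places).
If the target is false or awkward, message helper913 at once (the statement will be fixed).
Paste the whole compiled file in jobs.result with status='done', done_at=now(), then: team-sql notify inbox_helper913 done -/

open Matrix NormedSpace
open scoped Matrix ComplexConjugate

namespace Pool.Agent.H913.LG

open Pool.Agent.H913.SGP

/-! Proof. r' v = r v + 4|c| ∑_{i,j,k,l} r (M.A E_ij 0 (M.A E_kl 0 v)) over the 16 pairs of matrix units. IsSN: sums of seminorms composed with linear maps. PB: M.A E_ij 0 (ee i) has support of size ≤ sz i + 1 and ℓ¹ norm ≤ C(1+sz i) (Size), so r of it is polynomially bounded, twice. Bound: A(adJ g)² = ∑ Y_ij Y_kl A(E_ij)A(E_kl), |Y_ij| ≤ 2 AA g (S_AA), F linear (PreFam.add, smul), AA ≥ 1. -/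

theorem uUp2_SN {I : Type} (T : Module.End ℂ (I →₀ ℂ)) (p : (I →₀ ℂ) → ℝ) (hp : IsSN p) :
    IsSN (fun v => p (T v)) where
  nonneg v := hp.nonneg _
  add u v := by
    simp only [map_add]
    exact hp.add _ _
  smul c v := by
    simp only [map_smul]
    exact hp.smul _ _

theorem uUp2_zero {V : Type} [AddCommGroup V] [Module ℂ V] {p : V → ℝ} (hp : IsSN p) : p 0 = 0 := by
  have := hp.smul 0 0
  simpa using this

theorem uUp2_sum {V ι : Type} [AddCommGroup V] [Module ℂ V] {p : V → ℝ} (hp : IsSN p)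
    (s : Finset ι) (f : ι → V) : p (∑ i ∈ s, f i) ≤ ∑ i ∈ s, p (f i) := by
  classical
  induction s using Finset.induction_on with
  | empty => simp [uUp2_zero hp]
  | insert a s ha ih =>
    rw [Finset.sum_insert ha, Finset.sum_insert ha]
    exact (hp.add _ _).trans (add_le_add le_rfl ih)

theorem uUp2_PB {I : Type} (M : TMod I) (sz : I → ℕ) (hsz : M.Size sz) (X Y : Mat2)
    (p : (I →₀ ℂ) → ℝ) (hp : IsSN p) (hpb : PB sz p) : PB sz (fun v => p (M.A X Y v)) := by
  obtain ⟨C, N, hC⟩ := hpb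
  obtain ⟨C', hC'⟩ := hsz.bd X Y
  refine ⟨|C| * 2 ^ N * |C'|, N + 1, fun i => ?_⟩
  set u := M.A X Y (ee i) with hu
  have h1 : u = ∑ j ∈ u.support, u j • ee j := by
    conv_lhs => rw [← Finsupp.sum_single u]
    unfold Finsupp.sum
    refine Finset.sum_congr rfl fun j _ => ?_
    simp [ee]
  have hs : (0 : ℝ) ≤ sz i := Nat.cast_nonneg _
  have h2 : ∀ j ∈ u.support, p (u j • ee j) ≤ ‖u j‖ * (|C| * (2 ^ N * (1 + (sz i : ℝ)) ^ N)) := by
    intro j hj
    rw [hp.smul]
    refine mul_le_mul_of_nonneg_left ?_ (norm_nonneg _)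
    refine (hC j).trans ?_
    have h3 : (sz j : ℝ) ≤ sz i + 1 := by exact_mod_cast hsz.supp X Y i j hj
    have h4 : (0 : ℝ) ≤ sz j := Nat.cast_nonneg _
    calc C * (1 + (sz j : ℝ)) ^ N ≤ |C| * (1 + (sz j : ℝ)) ^ N :=
          mul_le_mul_of_nonneg_right (le_abs_self C) (by positivity)
      _ ≤ |C| * (2 * (1 + (sz i : ℝ))) ^ N := by
          refine mul_le_mul_of_nonneg_left ?_ (abs_nonneg _)
          exact pow_le_pow_left₀ (by positivity) (by linarith) N
      _ = |C| * (2 ^ N * (1 + (sz i : ℝ)) ^ N) := by rw [mul_pow]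
  have h5 : p u ≤ ∑ j ∈ u.support, ‖u j‖ * (|C| * (2 ^ N * (1 + (sz i : ℝ)) ^ N)) := by
    conv_lhs => rw [h1]
    exact (uUp2_sum hp _ _).trans (Finset.sum_le_sum h2)
  have h6 : ∑ j ∈ u.support, ‖u j‖ ≤ |C'| * (1 + (sz i : ℝ)) := by
    refine (hC' i).trans ?_
    exact mul_le_mul_of_nonneg_right (le_abs_self C') (by positivity)
  calc p u ≤ ∑ j ∈ u.support, ‖u j‖ * (|C| * (2 ^ N * (1 + (sz i : ℝ)) ^ N)) := h5
    _ = (∑ j ∈ u.support, ‖u j‖) * (|C| * (2 ^ N * (1 + (sz i : ℝ)) ^ N)) := by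
        rw [Finset.sum_mul]
    _ ≤ (|C'| * (1 + (sz i : ℝ))) * (|C| * (2 ^ N * (1 + (sz i : ℝ)) ^ N)) :=
        mul_le_mul_of_nonneg_right h6 (by positivity)
    _ = |C| * 2 ^ N * |C'| * (1 + (sz i : ℝ)) ^ (N + 1) := by ring

theorem uUp2_PBadd {I : Type} (sz : I → ℕ) (p q : (I →₀ ℂ) → ℝ) (hp : PB sz p) (hq : PB sz q) :
    PB sz (fun v => p v + q v) := by
  obtain ⟨C, N, hC⟩ := hp
  obtain ⟨C', N', hC'⟩ := hq
  refine ⟨|C| + |C'|, max N N', fun i => ?_⟩
  have h1 : (1 : ℝ) ≤ 1 + (sz i : ℝ) := by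
    have : (0 : ℝ) ≤ sz i := Nat.cast_nonneg _
    linarith
  have h2 : C * (1 + (sz i : ℝ)) ^ N ≤ |C| * (1 + (sz i : ℝ)) ^ max N N' := by
    refine mul_le_mul (le_abs_self C) (pow_le_pow_right₀ h1 (le_max_left _ _)) (by positivity)
      (abs_nonneg _)
  have h3 : C' * (1 + (sz i : ℝ)) ^ N' ≤ |C'| * (1 + (sz i : ℝ)) ^ max N N' := by
    refine mul_le_mul (le_abs_self C') (pow_le_pow_right₀ h1 (le_max_right _ _)) (by positivity)
      (abs_nonneg _)
  calc p (ee i) + q (ee i) ≤ C * (1 + (sz i : ℝ)) ^ N + C' * (1 + (sz i : ℝ)) ^ N' :=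
        add_le_add (hC i) (hC' i)
    _ ≤ |C| * (1 + (sz i : ℝ)) ^ max N N' + |C'| * (1 + (sz i : ℝ)) ^ max N N' := add_le_add h2 h3
    _ = (|C| + |C'|) * (1 + (sz i : ℝ)) ^ max N N' := by ring

theorem uUp2_PBsum {I ι : Type} (sz : I → ℕ) (s : Finset ι) (p : ι → (I →₀ ℂ) → ℝ)
    (hp : ∀ a, PB sz (p a)) : PB sz (fun v => ∑ a ∈ s, p a v) := by
  classical
  induction s using Finset.induction_on with
  | empty => exact ⟨0, 0, fun i => by simp⟩
  | insert a s ha ih =>
    obtain ⟨C, N, hC⟩ := uUp2_PBadd sz _ _ (hp a) ih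
    refine ⟨C, N, fun i => ?_⟩
    have h2 := hC i
    simp only [Finset.sum_insert ha]
    exact h2

theorem uUp2_PBmul {I : Type} (sz : I → ℕ) (p : (I →₀ ℂ) → ℝ) (hp : PB sz p) (k : ℝ)
    (hk : 0 ≤ k) : PB sz (fun v => k * p v) := by
  obtain ⟨C, N, hC⟩ := hp
  refine ⟨k * C, N, fun i => ?_⟩
  rw [mul_assoc]
  exact mul_le_mul_of_nonneg_left (hC i) hk

/-- matrix units -/
noncomputable def uUp2_T {I : Type} (M : TMod I) (a : Fin 2 × Fin 2) : Module.End ℂ (I →₀ ℂ) :=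
  M.A (Matrix.single a.1 a.2 1) 0

theorem uUp2_dec {I : Type} (M : TMod I) (h : M.Good) (Y : Mat2) :
    M.A Y 0 = ∑ a : Fin 2 × Fin 2, ((Y a.1 a.2 : ℝ) : ℂ) • uUp2_T M a := by
  let f : Mat2 →+ Module.End ℂ (I →₀ ℂ) :=
    { toFun := fun X => M.A X 0
      map_zero' := by
        have := h.smul 0 0 0
        simpa using this
      map_add' := by
        intro X X'
        have := h.add X X' 0 0
        simpa using this }
  have hf : ∀ X, f X = M.A X 0 := fun _ => rfl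
  rw [← hf Y]
  conv_lhs => rw [Matrix.matrix_eq_sum_single Y]
  rw [map_sum, Fintype.sum_prod_type]
  refine Finset.sum_congr rfl fun i _ => ?_
  rw [map_sum]
  refine Finset.sum_congr rfl fun j _ => ?_
  rw [hf]
  have h1 := h.smul (Y i j) (Matrix.single i j 1) 0
  rw [smul_zero, Matrix.smul_single, smul_eq_mul, mul_one] at h1
  exact h1

theorem uUp2_dec2 {I : Type} (M : TMod I) (h : M.Good) (Y : Mat2) (v : I →₀ ℂ) :
    M.A Y 0 (M.A Y 0 v) = ∑ a : (Fin 2 × Fin 2) × (Fin 2 × Fin 2),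
      (((Y a.1.1 a.1.2 : ℝ) : ℂ) * ((Y a.2.1 a.2.2 : ℝ) : ℂ)) •
        uUp2_T M a.1 (uUp2_T M a.2 v) := by
  have hd : ∀ w : I →₀ ℂ, M.A Y 0 w =
      ∑ b : Fin 2 × Fin 2, ((Y b.1 b.2 : ℝ) : ℂ) • uUp2_T M b w := by
    intro w
    rw [uUp2_dec M h Y]
    simp only [LinearMap.sum_apply, LinearMap.smul_apply]
  rw [hd, hd v]
  symm
  rw [Fintype.sum_prod_type]
  refine Finset.sum_congr rfl fun b _ => ?_
  rw [map_sum, Finset.smul_sum]
  refine Finset.sum_congr rfl fun b' _ => ?_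
  rw [map_smul, smul_smul]

theorem uUp2_F {V ι : Type} [AddCommGroup V] [Module ℂ V] {B : Type} [NormedAddCommGroup B]
    [NormedSpace ℂ B] (F : V → B) (hadd : ∀ u v, F (u + v) = F u + F v)
    (hsmul : ∀ (c : ℂ) v, F (c • v) = c • F v) (s : Finset ι) (c : ι → ℂ) (v : ι → V) :
    F (∑ a ∈ s, c a • v a) = ∑ a ∈ s, c a • F (v a) := by
  let f : V →+ B :=
    { toFun := F
      map_zero' := by
        have := hsmul 0 0
        simpa using this
      map_add' := hadd }
  have hf : ∀ X, f X = F X := fun _ => rfl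
  rw [← hf, map_sum]
  exact Finset.sum_congr rfl fun a _ => by rw [hf, hsmul]

/-- TARGET -/
theorem u_up2 (h1 : S_AA) : S_up2 := by
  intro I M h sz hsz c r hr hpb
  refine ⟨fun v => r v + 4 * |c| * ∑ a : (Fin 2 × Fin 2) × (Fin 2 × Fin 2),
    r (uUp2_T M a.1 (uUp2_T M a.2 v)), ?_, ?_, ?_⟩
  · have hsn : ∀ a : (Fin 2 × Fin 2) × (Fin 2 × Fin 2),
        IsSN (fun v => r (uUp2_T M a.1 (uUp2_T M a.2 v))) := fun a =>
      uUp2_SN (uUp2_T M a.2) _ (uUp2_SN (uUp2_T M a.1) r hr)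
    refine ⟨fun v => ?_, fun u v => ?_, fun k v => ?_⟩
    · have h2 : 0 ≤ ∑ a : (Fin 2 × Fin 2) × (Fin 2 × Fin 2),
          r (uUp2_T M a.1 (uUp2_T M a.2 v)) := Finset.sum_nonneg fun a _ => (hsn a).nonneg v
      have h3 := hr.nonneg v
      positivity
    · have h2 : ∑ a : (Fin 2 × Fin 2) × (Fin 2 × Fin 2),
          r (uUp2_T M a.1 (uUp2_T M a.2 (u + v))) ≤
          ∑ a : (Fin 2 × Fin 2) × (Fin 2 × Fin 2), (r (uUp2_T M a.1 (uUp2_T M a.2 u)) +
            r (uUp2_T M a.1 (uUp2_T M a.2 v))) := Finset.sum_le_sum fun a _ => (hsn a).add u v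
      rw [Finset.sum_add_distrib] at h2
      have h3 := hr.add u v
      have h4 := mul_le_mul_of_nonneg_left h2 (show 0 ≤ 4 * |c| by positivity)
      linarith
    · have h2 : ∑ a : (Fin 2 × Fin 2) × (Fin 2 × Fin 2),
          r (uUp2_T M a.1 (uUp2_T M a.2 (k • v))) =
          ∑ a : (Fin 2 × Fin 2) × (Fin 2 × Fin 2), ‖k‖ * r (uUp2_T M a.1 (uUp2_T M a.2 v)) :=
        Finset.sum_congr rfl fun a _ => (hsn a).smul k v
      rw [h2, hr.smul, ← Finset.mul_sum]
      ring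
  · refine uUp2_PBadd sz _ _ hpb (uUp2_PBmul sz _ ?_ _ (by positivity))
    refine uUp2_PBsum sz _ _ fun a => ?_
    exact uUp2_PB M sz hsz _ _ _ (uUp2_SN (uUp2_T M a.1) r hr) (uUp2_PB M sz hsz _ _ _ hr hpb)
  · intro W B _ _ F hW hF hb v g
    have hA1 : 1 ≤ AA g.1 := h1.1 g.1
    have hA2 : 1 ≤ AA g.1 ^ 2 := one_le_pow₀ hA1
    have hY : ∀ i j : Fin 2, |(adJ g.1) i j| ≤ 2 * AA g.1 := h1.2.2.2.2.1 g.1
    have hWg := hW g
    unfold upF
    rw [uUp2_dec2 M h (adJ g.1) v,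
      uUp2_F (fun v => F v g) (fun u v => hF.add u v g) (fun k v => hF.smul k v g)]
    refine (norm_sub_le _ _).trans ?_
    have h2 : ‖F v g‖ ≤ r v * (W g * AA g.1 ^ 2) := by
      refine (hb v g).trans (mul_le_mul_of_nonneg_left ?_ (hr.nonneg v))
      nlinarith
    have h3 : ‖(c : ℂ) • ∑ a : (Fin 2 × Fin 2) × (Fin 2 × Fin 2),
        ((((adJ g.1) a.1.1 a.1.2 : ℝ) : ℂ) * (((adJ g.1) a.2.1 a.2.2 : ℝ) : ℂ)) •
          F (uUp2_T M a.1 (uUp2_T M a.2 v)) g‖ ≤
        |c| * ∑ a : (Fin 2 × Fin 2) × (Fin 2 × Fin 2), (4 * AA g.1 ^ 2) *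
          (r (uUp2_T M a.1 (uUp2_T M a.2 v)) * W g) := by
      rw [norm_smul, Complex.norm_real, Real.norm_eq_abs]
      refine mul_le_mul_of_nonneg_left ?_ (abs_nonneg _)
      refine (norm_sum_le _ _).trans (Finset.sum_le_sum fun a _ => ?_)
      rw [norm_smul, norm_mul, Complex.norm_real, Complex.norm_real, Real.norm_eq_abs,
        Real.norm_eq_abs]
      refine mul_le_mul ?_ (hb _ g) (norm_nonneg _) (by positivity)
      calc |(adJ g.1) a.1.1 a.1.2| * |(adJ g.1) a.2.1 a.2.2| ≤ (2 * AA g.1) * (2 * AA g.1) :=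
            mul_le_mul (hY _ _) (hY _ _) (abs_nonneg _) (by linarith)
        _ = 4 * AA g.1 ^ 2 := by ring
    refine (add_le_add h2 h3).trans (le_of_eq ?_)
    rw [← Finset.mul_sum, ← Finset.sum_mul]
    ring

end Pool.Agent.H913.LG
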