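import Pool.Agent.H913.SGP.Bridge
import Pool.Agent.H913.LG.GBlk
import Pool.Agent.H913.LG.GRr
import Pool.Agent.H913.LG.GTop
import Pool.Agent.H913.LG.GCoord
import Pool.Agent.H913.LG.GK
import Pool.Agent.H913.LG.GWbd
import Pool.Agent.H913.LG.GPow
import Pool.Agent.H913.LG.GAA
import Pool.Agent.H913.LG.ATay
import Pool.Agent.H913.LG.AUniq
import Pool.Agent.H913.LG.AId
import Pool.Agent.H913.LG.AFam
import Pool.Agent.H913.LG.AKfin
import Pool.Agent.H913.LG.ACoef
import Pool.Agent.H913.LG.APB
import Pool.Agent.H913.LG.AMax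
import Pool.Agent.H913.LG.AMin
import Pool.Agent.H913.LG.ABs
import Pool.Agent.H913.LG.MGood0
import Pool.Agent.H913.LG.MGoodU
import Pool.Agent.H913.LG.MGoodD
import Pool.Agent.H913.LG.MGoodT
import Pool.Agent.H913.LG.MPre0
import Pool.Agent.H913.LG.MPreU
import Pool.Agent.H913.LG.MPreD
import Pool.Agent.H913.LG.MPreT
import Pool.Agent.H913.LG.MBd
import Pool.Agent.H913.LG.MInj
import Pool.Agent.H913.LG.MBase
import Pool.Agent.H913.LG.MMins
import Pool.Agent.H913.LG.UUp1
import Pool.Agent.H913.LG.UUp2
import Pool.Agent.H913.LG.URpos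
import Pool.Agent.H913.LG.UNeg

/-! Assembly of the common part. -/

open Matrix NormedSpace
open scoped Matrix ComplexConjugate

namespace Pool.Agent.H913.LG

open Pool.Agent.H913.SGP

theorem all_gen : S_gen := g_gen g_blk

theorem all_top : S_top := g_top g_blk

theorem all_coord : S_coord := g_coord g_blk

theorem all_wbd : S_wbd := g_wbd g_K

theorem all_basis : S_basis := g_basis g_blk g_K

theorem all_unif : S_unif := by
  intro m b hb w hw
  haveI := all_top.1
  haveI := all_top.2.1
  obtain ⟨S, hS, H⟩ := SGP.main.{0} g_rr hb hw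
  exact ⟨S, hS, fun V _ _ Mo hp => (H V Mo hp).2.2⟩

theorem all_uniq : S_uniq := a_uniq all_wbd all_gen

theorem all_id : S_id := a_id all_uniq

theorem all_fam : S_fam := a_fam all_uniq all_coord all_wbd

theorem all_kfin : S_kfin := a_kfin g_K

theorem all_coef : S_coef := a_coef g_K all_wbd

theorem all_PB : S_PB := a_PB all_unif all_basis g_pow

theorem all_max : S_max := a_max all_unif all_basis g_pow all_PB a_tay all_fam all_kfin

theorem all_min : S_min := a_min all_coef all_id all_PB a_tay all_fam all_kfin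

theorem all_pre0 : S_pre0 := mPre0 g_blk g_AA g_K

theorem all_preU : S_preU := mPreU g_blk g_AA g_K

theorem all_preD : S_preD := mPreD g_blk g_AA g_K

theorem all_preT : S_preT := mPreT g_blk g_AA g_K

theorem all_bd : S_bd := m_bd g_AA

theorem all_inj : S_inj := m_inj g_AA

theorem all_base : S_base := m_base g_AA a_tay all_fam all_kfin all_pre0 all_preU all_preD
  all_preT all_bd all_inj mGood0 mGoodU mGoodD mGoodT

theorem all_mins : S_mins := m_mins g_AA all_min all_base all_pre0 all_preU all_preD all_bd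
  all_inj mGood0 mGoodU mGoodD

theorem all_up1 : S_up1 := u_up1 g_blk g_K

theorem all_up2 : S_up2 := u_up2 g_AA

theorem all_R0 : S_R0 := u_R0 g_AA all_up1 all_up2 a_tay all_fam all_kfin all_pre0 all_bd all_inj
  mGood0

theorem all_RD : S_RD := u_RD g_AA all_up1 all_up2 a_tay all_fam all_kfin all_preD all_bd all_inj
  mGoodD

theorem all_N0 : S_N0 := u_N0 g_AA all_bd

theorem all_ND : S_ND := u_ND g_AA all_bd

end Pool.Agent.H913.LG
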