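import Pool.Agent.H913.LG.HCAux

open Matrix NormedSpace
open scoped Matrix ComplexConjugate

namespace Pool.Agent.H913.LG

open Pool.Agent.H913.SGP

/-- the Harish-Chandra module -/
noncomputable def TMod.toHC {I : Type} (M : TMod I) (h : M.Good) : HCModule GRd rho (I →₀ ℂ) where
  a := lieAct M
  κ := kap M
  isLieRep := aux_lie M h
  isLocFinCont := aux_loc M h
  isCompatible := aux_compat M h
  isDerivative := aux_deriv M h
  isFinGen := aux_fg M h
  isAdmissible := aux_adm M h

/-- the first summand of the Lie algebra action: vector fields on the circle -/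
noncomputable def vfm (X : Mat2) (m : ℤ) : ℤ →₀ ℂ :=
  Finsupp.single (m - 1) (-(m : ℂ) * be X) + Finsupp.single m (-(m : ℂ) * (2 * Complex.I * ((al X).im : ℂ)))
    + Finsupp.single (m + 1) ((m : ℂ) * conj (be X))

/-- functions on the first circle -/
noncomputable def M0 : TMod ℤ where
  μ := fun m => 2 * m
  ν := fun _ => 0
  A := fun X _ => Finsupp.linearCombination ℂ (vfm X)

/-- functions on the first circle, with values in a two-dimensional space on which the centre acts by
unipotent matrices -/
noncomputable def MU : TMod (ℤ × Fin 2) where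
  μ := fun i => 2 * i.1
  ν := fun _ => 0
  A := fun X _ => Finsupp.linearCombination ℂ fun i =>
    (vfm X i.1).mapDomain (fun m => (m, i.2)) +
      if i.2 = 1 then Finsupp.single (i.1, 0) (X.trace : ℂ) else 0

/-- functions on the first circle, with values in the standard representation of the second factor -/
noncomputable def MD : TMod (ℤ × Fin 2) where
  μ := fun i => 2 * i.1
  ν := fun i => if i.2 = 0 then -1 else 1
  A := fun X Y => Finsupp.linearCombination ℂ fun i =>
    (vfm X i.1).mapDomain (fun m => (m, i.2)) +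
      if i.2 = 0 then Finsupp.single (i.1, 0) (Complex.I * ((al Y).im : ℂ)) +
        Finsupp.single (i.1, 1) (conj (be Y))
      else Finsupp.single (i.1, 0) (be Y) + Finsupp.single (i.1, 1) (-Complex.I * ((al Y).im : ℂ))

/-- functions on the product of two circles -/
noncomputable def MT : TMod (ℤ × ℤ) where
  μ := fun i => 2 * i.1
  ν := fun i => 2 * i.2
  A := fun X Y => Finsupp.linearCombination ℂ fun i =>
    (vfm X i.1).mapDomain (fun m => (m, i.2)) + (vfm Y i.2).mapDomain (fun m => (i.1, m))

/-- size functions -/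
def sz0 (m : ℤ) : ℕ := m.natAbs
def sz1 (i : ℤ × Fin 2) : ℕ := i.1.natAbs
def szT (i : ℤ × ℤ) : ℕ := i.1.natAbs + i.2.natAbs

/-- `log det` of the first factor -/
noncomputable def xx (g : Gd) : ℝ := Real.log (mt g.1).det

/-- evaluation of `g v` at the point `w` -/
noncomputable def F0 (w : ℂ) (v : ℤ →₀ ℂ) (g : Gd) : ℂ := v.sum fun m c => c * pw m (mobI g.1 w)

/-- evaluation of `g v` at the point `w` -/
noncomputable def FU (w : ℂ) (v : ℤ × Fin 2 →₀ ℂ) (g : Gd) : Fin 2 → ℂ := fun j =>
  v.sum fun i c => c * pw i.1 (mobI g.1 w) *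
    (if j = 0 then (if i.2 = 0 then 1 else (xx g : ℂ)) else (if i.2 = 0 then 0 else 1))

/-- the matrix of `g.2 / √det` in the basis of weight vectors -/
noncomputable def sg (g : Gp) (j k : Fin 2) : ℂ :=
  (if j = 0 then (if k = 0 then al (mt g) else be (mt g))
    else (if k = 0 then conj (be (mt g)) else conj (al (mt g)))) / (Real.sqrt (mt g).det : ℂ)

/-- evaluation of `g v` at the point `w` -/
noncomputable def FD (w : ℂ) (v : ℤ × Fin 2 →₀ ℂ) (g : Gd) : Fin 2 → ℂ := fun j =>
  v.sum fun i c => c * pw i.1 (mobI g.1 w) * sg g.2 j i.2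

/-- evaluation of `g v` at the point `(w.1, w.2)` -/
noncomputable def FT (w : ℂ × ℂ) (v : ℤ × ℤ →₀ ℂ) (g : Gd) : ℂ :=
  v.sum fun i c => c * (pw i.1 (mobI g.1 w.1) * pw i.2 (mobI g.2 w.2))

end Pool.Agent.H913.LG
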