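import Pool.Agent.H913.LG.Mod

/-! Statements of the lemmas of project LG. -/

open Matrix NormedSpace
open scoped Matrix ComplexConjugate

namespace Pool.Agent.H913.LG

open Pool.Agent.H913.SGP

/-! ### The group -/

/-- GA: the Lie algebra and one-parameter groups -/
def S_blk : Prop :=
  (∀ A D : Mat2, ∃ X : LieAlg GRd, b1 X.1 = A ∧ b2 X.1 = D) ∧
  (∀ X : LieAlg GRd, ∃ γ, IsOneParam rho X.1 γ) ∧
  ∀ (X : LieAlg GRd) (γ : ℝ → Gd), IsOneParam rho X.1 γ → ∀ t : ℝ,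
    mt (γ t).1 = exp (t • b1 X.1) ∧ mt (γ t).2 = exp (t • b2 X.1)

/-- GB -/
def S_rr : Prop := IsRealReductive GRd rho

/-- GC -/
def S_top : Prop := T2Space Gd ∧ SecondCountableTopology Gd ∧ ConnectedSpace Gd

/-- GD: the group is generated by one-parameter groups -/
def S_gen : Prop := ∀ P : Gd → Prop, P 1 →
  (∀ (g : Gd) (X : LieAlg GRd) (γ : ℝ → Gd) (t : ℝ), IsOneParam rho X.1 γ → P g → P (g * γ t)) →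
  ∀ g, P g

/-- GE: coordinates of the second kind near `1` -/
def S_coord : Prop := ∃ (l : ℕ) (X : Fin l → LieAlg GRd) (γ : Fin l → ℝ → Gd) (τ : Fin l → Gd → ℝ),
  (∀ i, IsOneParam rho (X i).1 (γ i)) ∧ (∀ i, Filter.Tendsto (τ i) (nhds 1) (nhds 0)) ∧
  ∀ᶠ g in nhds (1 : Gd), g = (List.ofFn fun i => γ i (τ i g)).prod

/-- GF: the maximal compact subgroup -/
def S_K : Prop := ∃ c : ℝ × ℝ → maxCompact rho, Continuous c ∧ Function.Surjective c ∧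
  (∀ x, mt (c x).1.1 = rot x.1 ∧ mt (c x).1.2 = rot x.2) ∧
  ∀ (I : Type) (M : TMod I) (x : ℝ × ℝ), kap M (c x) = M.kst x.1 x.2

/-- GG: boundedness of weights -/
def S_wbd : Prop := ∀ W : Gd → ℝ, IsWeight W →
  (∀ γ : ℝ → Gd, Continuous γ → ∀ T : ℝ, ∃ C, ∀ t, |t| ≤ T → W (γ t) ≤ C) ∧
  (∃ C, ∀ k ∈ maxCompact rho, W k ≤ C) ∧ (∃ C, ∀ᶠ g in nhds (1 : Gd), W g ≤ C)

/-- GH: bases of the Lie algebra of `K` -/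
def S_basis : Prop := (∃ b : Fin 2 → LieAlg GRd, IsInvBasis GRd rho b) ∧
  ∀ (m : ℕ) (b : Fin m → LieAlg GRd), IsInvBasis GRd rho b → ∃ p q : Fin m → ℝ,
    (∀ l, b1 (b l).1 = p l • Jm ∧ b2 (b l).1 = q l • Jm) ∧ 0 < ∑ l, p l ^ 2 ∧ 0 < ∑ l, q l ^ 2

/-- the eigenvalues of the Laplacian -/
noncomputable def eig {I : Type} (M : TMod I) {m : ℕ} (p q : Fin m → ℝ) (i : I) : ℝ :=
  ∑ l, (p l * M.μ i + q l * M.ν i) ^ 2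

/-- GI: the Laplacian and its powers -/
def S_pow : Prop := ∀ (I : Type) (M : TMod I) (h : M.Good) (m : ℕ) (b : Fin m → LieAlg GRd)
  (p q : Fin m → ℝ), (∀ l, b1 (b l).1 = p l • Jm ∧ b2 (b l).1 = q l • Jm) →
  (∀ i, lap (M.toHC h) b (ee i) = (eig M p q i : ℂ) • ee i) ∧
  ∀ (s : ℝ) (T : Module.End ℂ (I →₀ ℂ)), IsSobolevPow (M.toHC h) b s T ↔
    T = dg fun i => (((1 + eig M p q i) ^ (s / 2) : ℝ) : ℂ)

/-- GJ: properties of `A` -/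
def S_AA : Prop := (∀ g, 1 ≤ AA g) ∧ (∀ g h, AA (g * h) ≤ AA g * AA h) ∧ (∀ g, AA g⁻¹ = AA g) ∧
  Continuous AA ∧ (∀ (g : Gp) (i j : Fin 2), |(mt g⁻¹ * Jm * mt g) i j| ≤ 2 * AA g) ∧
  (∀ g : Gp, AA g = (1 + ‖mobI g 0‖) / (1 - ‖mobI g 0‖) ∧ ‖mobI g 0‖ < 1) ∧
  (∀ (g : Gp) (x y : ℂ), ‖x‖ = 1 → ‖y‖ = 1 → ‖mobI g x - mobI g y‖ ≤ AA g * ‖x - y‖) ∧
  (∀ z : ℂ, ‖z‖ < 1 → ∃ g : Gp, mobI g 0 = z) ∧
  (∀ (g h : Gp) (z : ℂ), ‖z‖ ≤ 1 → mobI (g * h) z = mobI h (mobI g z)) ∧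
  (∀ (g : Gp) (z : ℂ), ‖z‖ ≤ 1 → ‖mobI g z‖ ≤ 1) ∧ (∀ (g : Gp) (z : ℂ), ‖z‖ = 1 → ‖mobI g z‖ = 1)

/-! ### Analysis -/

/-- A0: the uniform Sobolev gap (proved already) -/
def S_unif : Prop := ∀ (m : ℕ) (b : Fin m → LieAlg GRd), IsInvBasis GRd rho b → ∀ w : Gd → ℝ,
  IsWeight w → ∃ S : ℝ, 0 ≤ S ∧ ∀ (V : Type) [AddCommGroup V] [Module ℂ V]
  (Mo : HCModule GRd rho V), (∃ p, IsNormIn Mo w p) → ∃ T : Module.End ℂ V,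
    IsSobolevPow Mo b S T ∧ ∀ p q : V → ℝ, IsNormIn Mo w p → IsNormIn Mo w q →
      NormLE q (fun v => p (T v))

/-- AA1: Taylor series converge for polynomially bounded seminorms -/
def S_tay : Prop := ∀ (I : Type) (M : TMod I) (h : M.Good) (sz : I → ℕ), M.Size sz →
  ∀ p : (I →₀ ℂ) → ℝ, IsSN p → PB sz p → Taylor (M.toHC h) p

/-- AB1: uniqueness -/
def S_uniq : Prop := ∀ (V : Type) [AddCommGroup V] [Module ℂ V] (Mo : HCModule GRd rho V)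
  (r : V → ℝ), (∀ v, 0 ≤ r v) → Taylor Mo r → ∀ W : Gd → ℝ, IsWeight W →
  ∀ (B : Type) [NormedAddCommGroup B] [NormedSpace ℂ B] (Φ : V → Gd → B),
  (∀ (X : LieAlg GRd) (γ : ℝ → Gd), IsOneParam rho X.1 γ → ∀ v g,
    HasDerivAt (fun t : ℝ => Φ v (g * γ t)) (Φ (Mo.a X v) g) 0) →
  (∀ v g, ‖Φ v g‖ ≤ r v * W g) → (∀ v, Φ v 1 = 0) → ∀ v g, Φ v g = 0

/-- AC1: identification of matrix coefficients -/
def S_id : Prop := ∀ (V : Type) [AddCommGroup V] [Module ℂ V] (Mo : HCModule GRd rho V)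
  (E : Type) [NormedAddCommGroup E] [NormedSpace ℂ E] (ι : V →ₗ[ℂ] E) (π : Gd →* (E →L[ℂ] E))
  (W : Gd → ℝ), IsWeight W → (∀ g, ‖π g‖ ≤ W g) →
  (∀ (X : LieAlg GRd) (γ : ℝ → Gd), IsOneParam rho X.1 γ → ∀ v,
    HasDerivAt (fun t : ℝ => π (γ t) (ι v)) (ι (Mo.a X v)) 0) →
  Taylor Mo (fun v => ‖ι v‖) →
  ∀ (B : Type) [NormedAddCommGroup B] [NormedSpace ℂ B] (L : E →L[ℂ] B) (F : V → Gd → B)
  (r : V → ℝ) (W' : Gd → ℝ), IsWeight W' → (∀ v, 0 ≤ r v) → Taylor Mo r →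
  (∀ (X : LieAlg GRd) (γ : ℝ → Gd), IsOneParam rho X.1 γ → ∀ v g,
    HasDerivAt (fun t : ℝ => F v (g * γ t)) (F (Mo.a X v) g) 0) →
  (∀ v g, ‖F v g‖ ≤ r v * W' g) → (∀ v, F v 1 = L (ι v)) → ∀ v g, L (π g (ι v)) = F v g

/-- AD1: the norm of a family is a continuous norm -/
def S_fam : Prop := ∀ (V : Type) [AddCommGroup V] [Module ℂ V] (Mo : HCModule GRd rho V),
  KFin Mo → ∀ W : Gd → ℝ, IsWeight W → ∀ (Ω : Type) (E : Ω → Type) [∀ a, NormedAddCommGroup (E a)]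
  [∀ a, NormedSpace ℂ (E a)] [∀ a, CompleteSpace (E a)] (F : ∀ a, V → Gd → E a),
  IsFam Mo W E F → Taylor Mo (famNorm W E F) → IsNormIn1 Mo W (famNorm W E F)

/-- AE1: `K`-finite vectors -/
def S_kfin : Prop := ∀ (I : Type) (M : TMod I) (h : M.Good), KFin (M.toHC h)

/-- AF1: coordinates are continuous -/
def S_coef : Prop := ∀ (I : Type) (M : TMod I) (h : M.Good) (w : Gd → ℝ), IsWeight w →
  ∀ q, IsNormIn (M.toHC h) w q → ∀ i, ∃ C : ℝ, ∀ v, ‖v i‖ ≤ C * q v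

/-- AG1: all norms are polynomially bounded -/
def S_PB : Prop := ∀ (I : Type) (M : TMod I) (h : M.Good) (sz : I → ℕ), M.Size sz →
  ∀ w₀ w : Gd → ℝ, IsWeight w₀ → IsWeight w → ∀ p₀ p, IsNormIn (M.toHC h) w₀ p₀ → PB sz p₀ →
  IsNormIn (M.toHC h) w p → PB sz p

/-- AH1: existence of a largest norm -/
def S_max : Prop := ∀ (I : Type) (M : TMod I) (h : M.Good) (sz : I → ℕ), M.Size sz →
  ∀ w₀ w : Gd → ℝ, IsWeight w₀ → IsWeight w → ∀ p₀, IsNormIn (M.toHC h) w₀ p₀ → PB sz p₀ →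
  (∃ p, IsNormIn (M.toHC h) w p) → ∃ p, IsMaxNorm (M.toHC h) w p

/-- the conditions on a single function of a family -/
structure PreFam {V : Type} [AddCommGroup V] [Module ℂ V] (Mo : HCModule GRd rho V)
    {B : Type} [NormedAddCommGroup B] [NormedSpace ℂ B] (F : V → Gd → B) : Prop where
  add : ∀ u v g, F (u + v) g = F u g + F v g
  smul : ∀ (c : ℂ) v g, F (c • v) g = c • F v g
  deriv : ∀ (X : LieAlg GRd) (γ : ℝ → Gd), IsOneParam rho X.1 γ → ∀ v g,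
    HasDerivAt (fun t : ℝ => F v (g * γ t)) (F (Mo.a X v) g) 0
  K : ∀ (k : maxCompact rho) v g, F v (g * k.1) = F (Mo.κ k v) g

/-- AI1: existence of a smallest norm, given by a family of finite type -/
def S_min : Prop := ∀ (I : Type) (M : TMod I) (h : M.Good) (sz : I → ℕ), M.Size sz →
  ∀ w₀ : Gd → ℝ, IsWeight w₀ → ∀ p₀, IsNormIn (M.toHC h) w₀ p₀ → PB sz p₀ →
  ∀ (B : Type) [NormedAddCommGroup B] [NormedSpace ℂ B] [CompleteSpace B]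
  (F : (I →₀ ℂ) → Gd → B), PreFam (M.toHC h) F → (∀ v, (∀ g, F v g = 0) → v = 0) →
  (∃ r : (I →₀ ℂ) → ℝ, IsSN r ∧ PB sz r ∧ ∀ v g, ‖F v g‖ ≤ r v * w₀ g) →
  (∃ S : Finset I, ∀ v : I →₀ ℂ, (∀ i ∈ S, v i = 0) → F v 1 = 0) →
  ∀ w : Gd → ℝ, IsWeight w → (∃ p, IsNormIn (M.toHC h) w p) →
    IsMinNorm (M.toHC h) w (famNorm w (fun _ : Unit => B) (fun _ => F))

/-- AJ1: continuous representations have locally bounded operator norms -/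
def S_bs : Prop := ∀ (E : Type) [NormedAddCommGroup E] [NormedSpace ℂ E] [CompleteSpace E]
  (π : Gd →* (E →L[ℂ] E)), (∀ x, Continuous fun g => π g x) → IsWeight fun g => max 1 ‖π g‖

/-! ### Modules and evaluation families -/

/-- MA -/
def S_good0 : Prop := M0.Good ∧ M0.Size sz0
def S_goodU : Prop := MU.Good ∧ MU.Size sz1
def S_goodD : Prop := MD.Good ∧ MD.Size sz1
def S_goodT : Prop := MT.Good ∧ MT.Size szT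

/-- MB: the evaluation families -/
def S_pre0 : Prop := ∀ h : M0.Good, ∀ w : ℂ, ‖w‖ ≤ 1 → PreFam (M0.toHC h) (F0 w)
def S_preU : Prop := ∀ h : MU.Good, ∀ w : ℂ, ‖w‖ ≤ 1 → PreFam (MU.toHC h) (FU w)
def S_preD : Prop := ∀ h : MD.Good, ∀ w : ℂ, ‖w‖ ≤ 1 → PreFam (MD.toHC h) (FD w)
def S_preT : Prop := ∀ h : MT.Good, ∀ w : ℂ × ℂ, ‖w.1‖ ≤ 1 → ‖w.2‖ ≤ 1 → PreFam (MT.toHC h) (FT w)

/-- MC: bounds -/
def S_bd : Prop :=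
  (∀ (w : ℂ) v g, ‖w‖ ≤ 1 → ‖F0 w v g‖ ≤ (v.sum fun _ c => ‖c‖)) ∧
  (∀ (w : ℂ) v g, ‖w‖ ≤ 1 → ‖FU w v g‖ ≤ (v.sum fun _ c => ‖c‖) * (1 + |xx g|)) ∧
  (∀ (w : ℂ) v g, ‖w‖ ≤ 1 → ‖FD w v g‖ ≤ (v.sum fun _ c => ‖c‖) * Real.sqrt (AA g.2)) ∧
  (∀ (w : ℂ × ℂ) v g, ‖w.1‖ ≤ 1 → ‖w.2‖ ≤ 1 → ‖FT w v g‖ ≤ (v.sum fun _ c => ‖c‖))

/-- MD: injectivity -/
def S_inj : Prop :=
  (∀ v, (∀ w : ℂ, ‖w‖ = 1 → F0 w v 1 = 0) → v = 0) ∧ (∀ v, (∀ g, F0 0 v g = 0) → v = 0) ∧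
  (∀ v, (∀ w : ℂ, ‖w‖ = 1 → FU w v 1 = 0) → v = 0) ∧ (∀ v, (∀ g, FU 0 v g = 0) → v = 0) ∧
  (∀ v, (∀ w : ℂ, ‖w‖ = 1 → FD w v 1 = 0) → v = 0) ∧ (∀ v, (∀ g, FD 0 v g = 0) → v = 0) ∧
  (∀ v, (∀ w : ℂ × ℂ, ‖w.1‖ = 1 → ‖w.2‖ = 1 → FT w v 1 = 0) → v = 0)

/-- the unit circle -/
abbrev Sc := {w : ℂ // ‖w‖ = 1}

/-- the sup norms -/
noncomputable def p0 : (ℤ →₀ ℂ) → ℝ := famNorm (fun _ => 1) (fun _ : Sc => ℂ) fun w => F0 w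
noncomputable def pU : (ℤ × Fin 2 →₀ ℂ) → ℝ :=
  famNorm (fun g => 1 + |xx g|) (fun _ : Sc => Fin 2 → ℂ) fun w => FU w
noncomputable def pD : (ℤ × Fin 2 →₀ ℂ) → ℝ :=
  famNorm (fun g => Real.sqrt (AA g.2)) (fun _ : Sc => Fin 2 → ℂ) fun w => FD w
noncomputable def pT : (ℤ × ℤ →₀ ℂ) → ℝ :=
  famNorm (fun _ => 1) (fun _ : Sc × Sc => ℂ) fun w => FT (w.1.1, w.2.1)

/-- ME: base norms -/
def S_base : Prop :=
  (IsWeight (fun _ : Gd => (1 : ℝ)) ∧ ∀ h : M0.Good, IsNormIn1 (M0.toHC h) (fun _ => 1) p0 ∧ PB sz0 p0) ∧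
  (IsWeight (fun g : Gd => 1 + |xx g|) ∧
    ∀ h : MU.Good, IsNormIn1 (MU.toHC h) (fun g => 1 + |xx g|) pU ∧ PB sz1 pU) ∧
  (IsWeight (fun g : Gd => Real.sqrt (AA g.2)) ∧
    ∀ h : MD.Good, IsNormIn1 (MD.toHC h) (fun g => Real.sqrt (AA g.2)) pD ∧ PB sz1 pD) ∧
  (∀ h : MT.Good, IsNormIn1 (MT.toHC h) (fun _ => 1) pT ∧ PB szT pT)

/-- MF: smallest norms -/
def S_mins : Prop := ∀ w : Gd → ℝ, IsWeight w →
  (∀ h : M0.Good, (∃ p, IsNormIn (M0.toHC h) w p) →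
    IsMinNorm (M0.toHC h) w (famNorm w (fun _ : Unit => ℂ) (fun _ => F0 0))) ∧
  (∀ h : MU.Good, (∃ p, IsNormIn (MU.toHC h) w p) →
    IsMinNorm (MU.toHC h) w (famNorm w (fun _ : Unit => Fin 2 → ℂ) (fun _ => FU 0))) ∧
  (∀ h : MD.Good, (∃ p, IsNormIn (MD.toHC h) w p) →
    IsMinNorm (MD.toHC h) w (famNorm w (fun _ : Unit => Fin 2 → ℂ) (fun _ => FD 0)))

/-! ### Raising the order -/

/-- `Ad(g⁻¹) J` -/
noncomputable def adJ (g : Gp) : Mat2 := mt g⁻¹ * Jm * mt g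

/-- `F' = (1 - c J²) F` (the operator acts on the left) -/
noncomputable def upF {I : Type} (M : TMod I) (c : ℝ) {B : Type} [NormedAddCommGroup B]
    [NormedSpace ℂ B] (F : (I →₀ ℂ) → Gd → B) (v : I →₀ ℂ) (g : Gd) : B :=
  F v g - (c : ℂ) • F (M.A (adJ g.1) 0 (M.A (adJ g.1) 0 v)) g

/-- UA -/
def S_up1 : Prop := ∀ (I : Type) (M : TMod I) (h : M.Good) (c : ℝ) (B : Type)
  [NormedAddCommGroup B] [NormedSpace ℂ B] (F : (I →₀ ℂ) → Gd → B),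
  PreFam (M.toHC h) F → PreFam (M.toHC h) (upF M c F)

/-- UB -/
def S_up2 : Prop := ∀ (I : Type) (M : TMod I) (h : M.Good) (sz : I → ℕ), M.Size sz → ∀ (c : ℝ)
  (r : (I →₀ ℂ) → ℝ), IsSN r → PB sz r → ∃ r' : (I →₀ ℂ) → ℝ, IsSN r' ∧ PB sz r' ∧
  ∀ (W : Gd → ℝ) (B : Type) [NormedAddCommGroup B] [NormedSpace ℂ B] (F : (I →₀ ℂ) → Gd → B),
  (∀ g, 0 ≤ W g) → PreFam (M.toHC h) F → (∀ v g, ‖F v g‖ ≤ r v * W g) →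
  ∀ v g, ‖upF M c F v g‖ ≤ r' v * (W g * AA g.1 ^ 2)

/-- UC: norms of positive order; `M` is a module with weights `(2m, ·)` -/
def S_R0 : Prop := ∀ (κ : ℕ) (c : ℝ), 0 < c → ∀ h : M0.Good, ∃ r,
  IsNormIn (M0.toHC h) (fun g => AA g.1 ^ (2 * κ)) r ∧
  ∃ C : ℝ, ∀ v, p0 (dg (fun m : ℤ => (((1 + 4 * c * (m : ℝ) ^ 2) ^ κ : ℝ) : ℂ)) v) ≤ C * r v

/-- UD -/
def S_RD : Prop := ∀ (κ : ℕ) (h : MD.Good), ∃ r,
  IsNormIn (MD.toHC h) (fun g => AA g.1 ^ (2 * κ) * Real.sqrt (AA g.2)) r ∧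
  ∃ c : ℝ, 0 < c ∧ ∀ m : ℤ, c * (1 + (m : ℝ) ^ 2) ^ κ ≤ r (ee (m, 0))

/-- UE: norms of negative order -/
def S_N0 : Prop := ∀ (κ : ℕ) (c : ℝ), 0 < c → ∀ W : Gd → ℝ, (∀ g, AA g.1 ^ (2 * κ + 1) ≤ W g) →
  ∃ C : ℝ, ∀ u, famNorm W (fun _ : Unit => ℂ) (fun _ => F0 0)
    (dg (fun m : ℤ => (((1 + 4 * c * (m : ℝ) ^ 2) ^ κ : ℝ) : ℂ)) u) ≤ C * p0 u

/-- UF -/
def S_ND : Prop := ∀ (a : ℕ) (W : Gd → ℝ) (c : ℝ), 0 < c →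
  (∀ g, c * (AA g.1 ^ a * Real.sqrt (AA g.2)) ≤ W g) →
  ∃ C : ℝ, ∀ m : ℤ, famNorm W (fun _ : Unit => Fin 2 → ℂ) (fun _ => FD 0) (ee (m, 0)) *
    (1 + |(m : ℝ)|) ^ a ≤ C

end Pool.Agent.H913.LG
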