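import Pool.Agent.H913.LG.Stmts
import Pool.Agent.H913.LGP.Definitions

/-! Statements for the four problems. -/

open Matrix NormedSpace
open scoped Matrix ComplexConjugate

namespace Pool.Agent.H913.LG

open Pool.Agent.H913.SGP Pool.Agent.H913.LGP

/-! ### MP_c67f28 -/

/-- the weight -/
noncomputable def wk (a : ℕ) (g : Gd) : ℝ := max (AA g.1 ^ a) (1 + |xx g|)

/-- `u ⊗ e₀ + v ⊗ e₁` -/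
noncomputable def emb (u v : ℤ →₀ ℂ) : ℤ × Fin 2 →₀ ℂ :=
  u.mapDomain (fun m => (m, 0)) + v.mapDomain (fun m => (m, 1))

/-- CA -/
def S_wk : Prop := ∀ a : ℕ, IsWeight (wk a)

/-- CB -/
def S_c4 : Prop := ∀ (a : ℕ) (hU : MU.Good) (h0 : M0.Good) (Q : (ℤ × Fin 2 →₀ ℂ) → ℝ),
  IsNormIn (MU.toHC hU) (wk a) Q → ∃ N, IsNormIn (M0.toHC h0) (fun _ => 1) N ∧
    (∃ C : ℝ, ∀ u, Q (emb u 0) ≤ C * N u) ∧ ∃ C : ℝ, ∀ u v, N v ≤ C * Q (emb u v)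

/-- CC -/
def S_c5 : Prop := ∀ (a : ℕ) (hU : MU.Good) (h0 : M0.Good) (Q : (ℤ × Fin 2 →₀ ℂ) → ℝ),
  IsNormIn (MU.toHC hU) (wk a) Q → ∃ N, IsNormIn (M0.toHC h0) (wk a) N ∧
    ∃ C : ℝ, ∀ v, Q (emb 0 v) ≤ C * N v

/-- CD -/
def S_c6 : Prop := ∀ (a : ℕ) (hU : MU.Good) (Q : (ℤ × Fin 2 →₀ ℂ) → ℝ),
  IsNormIn (MU.toHC hU) (wk a) Q →
    ∃ C : ℝ, ∀ u v, famNorm (wk a) (fun _ : Unit => ℂ) (fun _ => F0 0) u ≤ C * Q (emb u v)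

/-- CE -/
def S_c7 : Prop := ∀ (h0 : M0.Good) (hU : MU.Good) (m : ℕ) (b : Fin m → LieAlg GRd),
  IsInvBasis GRd rho b → ∃ a : ℕ, (gapSet (MU.toHC hU) b (wk a)).Nonempty ∧
    (gapSet (M0.toHC h0) b (wk a)).Nonempty ∧
    sobolevGap (MU.toHC hU) b (wk a) < sobolevGap (M0.toHC h0) b (wk a)

/-! ### MP_d7c545 -/

/-- the weight -/
noncomputable def wD (a : ℕ) (g : Gd) : ℝ := max (AA g.1 ^ a) (Real.sqrt (AA g.2))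

/-- DA -/
def S_wD : Prop := ∀ a : ℕ, IsWeight (wD a)

/-- DB -/
def S_ad : Prop := (∀ g : Gd, 1 ≤ adNorm GRd rho g ∧ AA g.1 ≤ 2 * adNorm GRd rho g ∧
    AA g.2 ≤ 2 * adNorm GRd rho g) ∧
  (∀ (w : Gd → ℝ) (t : ℝ), IsWeight w → 0 ≤ t → IsWeight (twist GRd rho w t))

/-- DC -/
def S_d1 : Prop := ∀ (a : ℕ) (h : MD.Good) (P : (ℤ × Fin 2 →₀ ℂ) → ℝ),
  IsNormIn (MD.toHC h) (wD a) P → IsNormIn (MD.toHC h) (fun g => Real.sqrt (AA g.2)) P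

/-- DD -/
def S_d2 : Prop := ∀ (h : MD.Good) (m : ℕ) (b : Fin m → LieAlg GRd), IsInvBasis GRd rho b →
  ∀ C : ℝ, ∃ a : ℕ, (∃ p, IsNormIn (MD.toHC h) (wD a) p) ∧
    (gapSet (MD.toHC h) b (wD a)).Nonempty ∧
    (gapSet (MD.toHC h) b (twist GRd rho (wD a) (1 / 2))).Nonempty ∧
    sobolevGap (MD.toHC h) b (wD a) + C * (1 / 2) <
      sobolevGap (MD.toHC h) b (twist GRd rho (wD a) (1 / 2))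

/-! ### MP_a304db -/

/-- the weight -/
noncomputable def wA (g : Gd) : ℝ := 1 + Real.log (AA g.1)

/-- `log (2e/|x-y|)` -/
noncomputable def ell (x y : ℂ) : ℝ := if x = y then 0 else Real.log (2 * Real.exp 1 / ‖x - y‖)

/-- the family -/
noncomputable def Fq : (a : Sc ⊕ (Sc × Sc)) → (ℤ →₀ ℂ) → Gd → ℂ :=
  Sum.elim (fun w => F0 w.1) fun x v g => (ell x.1.1 x.2.1 : ℂ) * (F0 x.1.1 v g - F0 x.2.1 v g)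

/-- the logarithmic Hölder norm -/
noncomputable def qn : (ℤ →₀ ℂ) → ℝ := famNorm wA (fun _ : Sc ⊕ (Sc × Sc) => ℂ) Fq

/-- EA -/
def S_e1 : Prop := IsWeight wA ∧ (∀ h : M0.Good, IsNormIn (M0.toHC h) wA qn ∧
    IsNormIn (M0.toHC h) wA p0) ∧ NormLE p0 qn ∧
  ∀ (v : ℤ →₀ ℂ) (K : ℝ), (∀ x y : Sc, ell x.1 y.1 * ‖F0 x.1 v 1 - F0 y.1 v 1‖ ≤ K) →
    qn v ≤ K + 2 * p0 v

/-- EB: maximum principle and Landau inequality -/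
def S_e2a : Prop := (∀ (μ α : ℝ), 0 < μ → 0 < α → ∀ v : ℤ →₀ ℂ,
    μ * p0 v ≤ p0 (dg (fun m : ℤ => ((μ + α * (m : ℝ) ^ 2 : ℝ) : ℂ)) v)) ∧
  (∀ v : ℤ →₀ ℂ, p0 (dg (fun m : ℤ => (m : ℂ)) v) ^ 2 ≤
    4 * (p0 v * p0 (dg (fun m : ℤ => ((m : ℂ)) ^ 2) v))) ∧
  ∀ (v : ℤ →₀ ℂ) (x y : Sc), ‖F0 x.1 v 1 - F0 y.1 v 1‖ ≤
    2 * ‖x.1 - y.1‖ * p0 (dg (fun m : ℤ => (m : ℂ)) v)

/-- EC -/
def S_e2 : Prop := ∀ (ε α : ℝ), 0 < ε → ε < 1 → 0 < α → ∃ C : ℝ, ∀ v : ℤ →₀ ℂ,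
  p0 v ≤ C * p0 (dg (fun m : ℤ => (((1 + α * (m : ℝ) ^ 2) ^ (ε / 2) : ℝ) : ℂ)) v) ∧
  ∀ x y : Sc, ell x.1 y.1 * ‖F0 x.1 v 1 - F0 y.1 v 1‖ ≤
    C * p0 (dg (fun m : ℤ => (((1 + α * (m : ℝ) ^ 2) ^ (ε / 2) : ℝ) : ℂ)) v)

/-- ED -/
def S_e3 : Prop := ¬ NormLE qn p0

/-- EE -/
def S_e4 : Prop := ∀ (h : M0.Good) (m : ℕ) (b : Fin m → LieAlg GRd), IsInvBasis GRd rho b →
  sdist (M0.toHC h) b p0 qn = 0 ∧ 0 ∈ dSet (M0.toHC h) b p0 qn ∧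
    ∀ s : ℝ, 0 < s → s < 1 → s ∈ dSet (M0.toHC h) b qn p0

/-! ### MP_6a3a89 -/

/-- `(1 - ∑ (Ad(g⁻¹) b_l)²) v` evaluated -/
noncomputable def upT {m : ℕ} (p q : Fin m → ℝ) (w : ℂ × ℂ) (v : ℤ × ℤ →₀ ℂ) (g : Gd) : ℂ :=
  FT w (v - ∑ l, MT.A (p l • adJ g.1) (q l • adJ g.2) (MT.A (p l • adJ g.1) (q l • adJ g.2) v)) g

/-- FA -/
def S_f1 : Prop := ∀ (h : MT.Good) (m : ℕ) (p q : Fin m → ℝ),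
  (∀ w : ℂ × ℂ, ‖w.1‖ ≤ 1 → ‖w.2‖ ≤ 1 → PreFam (MT.toHC h) (upT p q w)) ∧
  ∃ r : (ℤ × ℤ →₀ ℂ) → ℝ, IsSN r ∧ PB szT r ∧ ∀ w : ℂ × ℂ, ‖w.1‖ ≤ 1 → ‖w.2‖ ≤ 1 →
    ∀ v g, ‖upT p q w v g‖ ≤ r v * (AA g.1 + AA g.2) ^ 2

/-- FB -/
def S_f2 : Prop := ∀ (h : MT.Good) (m : ℕ) (p q : Fin m → ℝ),
  IsGContinuous (MT.toHC h) (fun v => pT (dg (fun i => ((1 + eig MT p q i : ℝ) : ℂ)) v)) →
  ∀ g : Gd, ∃ C : ℝ, ∀ (w : Sc × Sc) (v : ℤ × ℤ →₀ ℂ), ‖upT p q (w.1.1, w.2.1) v g‖ ≤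
    C * pT (dg (fun i => ((1 + eig MT p q i : ℝ) : ℂ)) v)

/-- FC: the counterexample functions -/
def S_f3 : Prop := ∀ (m : ℕ) (p q : Fin m → ℝ), 0 < ∑ l, p l ^ 2 → 0 < ∑ l, q l ^ 2 →
  ∃ K : ℝ, ∀ N : ℕ, ∃ v : ℤ × ℤ →₀ ℂ,
    pT (dg (fun i => ((1 + eig MT p q i : ℝ) : ℂ)) v) ≤ K ∧
    (N : ℝ) ≤ ‖FT (1, 1) (v - ∑ l, MT.A (p l • !![0, -1/2; 2, 0]) (q l • Jm)
      (MT.A (p l • !![0, -1/2; 2, 0]) (q l • Jm) v)) 1‖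

/-- FD -/
def S_f4 : Prop := ∀ (h : MT.Good) (m : ℕ) (b : Fin m → LieAlg GRd), IsInvBasis GRd rho b →
  ∃ T : Module.End ℂ (ℤ × ℤ →₀ ℂ), IsSobolevPow (MT.toHC h) b 2 T ∧
    ¬ IsGContinuous (MT.toHC h) (fun v => pT (T v))

end Pool.Agent.H913.LG
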