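import Pool.Agent.H913.LG.Stmts

open Matrix NormedSpace
open scoped Matrix ComplexConjugate

namespace Pool.Agent.H913.LG

open Pool.Agent.H913.SGP

section uRpos

variable {I : Type}

theorem uRpos_dg_ee (a : I → ℂ) (i : I) : dg a (ee i) = a i • ee i := by
  simp [dg]

theorem uRpos_dg_apply (a : I → ℂ) (v : I →₀ ℂ) (i : I) : dg a v i = a i * v i := by
  induction v using Finsupp.induction_linear with
  | zero => simp
  | add u v hu hv => rw [map_add, Finsupp.add_apply, Finsupp.add_apply, hu, hv, mul_add]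
  | single j b =>
    classical
    have h1 : dg a (Finsupp.single j b) = Finsupp.single j (b * a j) := by
      simp [dg]
    rw [h1, Finsupp.single_apply, Finsupp.single_apply]
    by_cases hij : j = i
    · subst hij
      simp [mul_comm]
    · simp [hij]

theorem uRpos_dg_dg (a b : I → ℂ) (v : I →₀ ℂ) : dg a (dg b v) = dg (fun i => a i * b i) v := by
  ext i
  rw [uRpos_dg_apply, uRpos_dg_apply, uRpos_dg_apply]
  ring

theorem uRpos_dg_inj {a : I → ℂ} (ha : ∀ i, a i ≠ 0) {v : I →₀ ℂ} (h : dg a v = 0) : v = 0 := by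
  ext i
  have h1 : dg a v i = 0 := by rw [h]; rfl
  rw [uRpos_dg_apply] at h1
  rcases mul_eq_zero.1 h1 with h2 | h2
  · exact absurd h2 (ha i)
  · exact h2

theorem uRpos_adJ : adJ (1 : Gd).1 = Jm := by
  simp [adJ, mt]

theorem uRpos_A2 (M : TMod I) (h : M.Good) (c : ℝ) (v : I →₀ ℂ) :
    v + (-(c : ℂ)) • M.A Jm 0 (M.A Jm 0 v) =
      dg (fun i => ((1 + c * (M.μ i : ℝ) ^ 2 : ℝ) : ℂ)) v := by
  have key : LinearMap.id + (-(c : ℂ)) • (M.A Jm 0 ∘ₗ M.A Jm 0) =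
      dg (fun i => ((1 + c * (M.μ i : ℝ) ^ 2 : ℝ) : ℂ)) := by
    apply Finsupp.lhom_ext'
    intro i
    apply LinearMap.ext_ring
    have h1 : M.A Jm 0 (M.A Jm 0 (ee i)) = (-((M.μ i : ℂ) ^ 2)) • ee i := by
      rw [h.J1, map_smul, h.J1, smul_smul]
      congr 1
      ring_nf
      rw [Complex.I_sq]
      ring
    show ee i + (-(c : ℂ)) • (M.A Jm 0 (M.A Jm 0 (ee i))) = dg _ (ee i)
    rw [uRpos_dg_ee, h1, smul_smul]
    push_cast
    rw [add_smul, one_smul]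
    congr 2
    ring
  exact congrArg (fun f : (I →₀ ℂ) →ₗ[ℂ] (I →₀ ℂ) => f v) key

variable {B : Type} [NormedAddCommGroup B] [NormedSpace ℂ B]

theorem uRpos_up_one (M : TMod I) (h : M.Good) (c : ℝ) {F : (I →₀ ℂ) → Gd → B}
    (hF : PreFam (M.toHC h) F) (v : I →₀ ℂ) :
    upF M c F v 1 = F (dg (fun i => ((1 + c * (M.μ i : ℝ) ^ 2 : ℝ) : ℂ)) v) 1 := by
  unfold upF
  rw [uRpos_adJ, ← uRpos_A2 M h, hF.add, hF.smul, neg_smul, sub_eq_add_neg]

theorem uRpos_pre (h2 : S_up1) (M : TMod I) (h : M.Good) (c : ℝ) {F : (I →₀ ℂ) → Gd → B}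
    (hF : PreFam (M.toHC h) F) (κ : ℕ) : PreFam (M.toHC h) ((upF M c)^[κ] F) := by
  induction κ with
  | zero => exact hF
  | succ κ ih =>
    rw [Function.iterate_succ_apply']
    exact h2 I M h c B _ ih

theorem uRpos_iter_one (h2 : S_up1) (M : TMod I) (h : M.Good) (c : ℝ) {F : (I →₀ ℂ) → Gd → B}
    (hF : PreFam (M.toHC h) F) (κ : ℕ) (v : I →₀ ℂ) :
    (upF M c)^[κ] F v 1 = F (dg (fun i => (((1 + c * (M.μ i : ℝ) ^ 2) ^ κ : ℝ) : ℂ)) v) 1 := by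
  induction κ generalizing v with
  | zero =>
    have h1 : dg (fun i => (((1 + c * (M.μ i : ℝ) ^ 2) ^ 0 : ℝ) : ℂ)) v = v := by
      ext i
      rw [uRpos_dg_apply]
      simp
    rw [h1]
    rfl
  | succ κ ih =>
    rw [Function.iterate_succ_apply', uRpos_up_one M h c (uRpos_pre h2 M h c hF κ), ih,
      uRpos_dg_dg]
    congr 3
    funext i
    push_cast
    ring

theorem uRpos_bound (h2 : S_up1) (h3 : S_up2) (M : TMod I) (h : M.Good) (sz : I → ℕ)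
    (hsz : M.Size sz) (c : ℝ) {Ω : Type} {F : Ω → (I →₀ ℂ) → Gd → B}
    (hF : ∀ w, PreFam (M.toHC h) (F w)) {W₀ : Gd → ℝ} (hW₀ : ∀ g, 0 ≤ W₀ g)
    (hA : ∀ g : Gd, 0 ≤ AA g.1) {r₀ : (I →₀ ℂ) → ℝ} (hr₀ : IsSN r₀) (hp₀ : PB sz r₀)
    (hb : ∀ w v g, ‖F w v g‖ ≤ r₀ v * W₀ g) (κ : ℕ) :
    ∃ r : (I →₀ ℂ) → ℝ, IsSN r ∧ PB sz r ∧
      ∀ w v g, ‖(upF M c)^[κ] (F w) v g‖ ≤ r v * (W₀ g * AA g.1 ^ (2 * κ)) := by
  induction κ with
  | zero =>
    refine ⟨r₀, hr₀, hp₀, ?_⟩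
    intro w v g
    have := hb w v g
    simpa using this
  | succ κ ih =>
    obtain ⟨r, hr1, hr2, hr3⟩ := ih
    obtain ⟨r', hr1', hr2', hr3'⟩ := h3 I M h sz hsz c r hr1 hr2
    refine ⟨r', hr1', hr2', ?_⟩
    intro w v g
    rw [Function.iterate_succ_apply']
    have h4 := hr3' (fun g => W₀ g * AA g.1 ^ (2 * κ)) B ((upF M c)^[κ] (F w))
      (fun g => mul_nonneg (hW₀ g) (pow_nonneg (hA g) _)) (uRpos_pre h2 M h c (hF w) κ) (hr3 w) v g
    refine h4.trans (le_of_eq ?_)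
    ring

/-- famNorm of a bounded family -/
theorem uRpos_fam {Ω : Type} {V : Type} [AddCommGroup V] [Module ℂ V] {G : Ω → V → Gd → B}
    {W : Gd → ℝ} (hW : ∀ g, 0 < W g) (hadd : ∀ a u v g, G a (u + v) g = G a u g + G a v g)
    (hsmul : ∀ a (c : ℂ) v g, G a (c • v) g = c • G a v g) {r : V → ℝ}
    (hr0 : ∀ v, 0 ≤ r v) (hr : ∀ a v g, ‖G a v g‖ ≤ r v * W g) :
    IsSN (famNorm W (fun _ : Ω => B) G) ∧ (∀ v, famNorm W (fun _ : Ω => B) G v ≤ r v) ∧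
      ∀ a v g, ‖G a v g‖ / W g ≤ famNorm W (fun _ : Ω => B) G v := by
  have hle : ∀ v (x : Ω × Gd), ‖G x.1 v x.2‖ / W x.2 ≤ r v := by
    intro v x
    rw [div_le_iff₀ (hW x.2)]
    exact hr x.1 v x.2
  have hbdd : ∀ v, BddAbove (Set.range fun x : Ω × Gd => ‖G x.1 v x.2‖ / W x.2) := by
    intro v
    refine ⟨r v, ?_⟩
    rintro _ ⟨x, rfl⟩
    exact hle v x
  have hget : ∀ a v g, ‖G a v g‖ / W g ≤ famNorm W (fun _ : Ω => B) G v := by
    intro a v g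
    exact le_ciSup (hbdd v) (a, g)
  refine ⟨⟨?_, ?_, ?_⟩, ?_, hget⟩
  · intro v
    exact Real.iSup_nonneg fun x => div_nonneg (norm_nonneg _) (hW x.2).le
  · intro u v
    apply Real.iSup_le
    · intro x
      have h1 := hget x.1 u x.2
      have h2 := hget x.1 v x.2
      have h3 : ‖G x.1 (u + v) x.2‖ / W x.2 ≤ ‖G x.1 u x.2‖ / W x.2 + ‖G x.1 v x.2‖ / W x.2 := by
        rw [← add_div, hadd]
        exact div_le_div_of_nonneg_right (norm_add_le _ _) (hW x.2).le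
      linarith
    · exact add_nonneg (Real.iSup_nonneg fun x => div_nonneg (norm_nonneg _) (hW x.2).le)
        (Real.iSup_nonneg fun x => div_nonneg (norm_nonneg _) (hW x.2).le)
  · intro c v
    unfold famNorm
    rw [Real.mul_iSup_of_nonneg (norm_nonneg c)]
    congr 1
    funext x
    rw [hsmul, norm_smul, mul_div_assoc]
  · intro v
    apply Real.iSup_le (hle v) (hr0 v)

theorem uRpos_IsNormIn {V : Type} [AddCommGroup V] [Module ℂ V] {Mo : HCModule GRd rho V}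
    {w : Gd → ℝ} {p : V → ℝ} (h : IsNormIn1 Mo w p) : IsNormIn Mo w p := by
  obtain ⟨E, i1, i2, i3, ι, π, h1, h2, h3⟩ := h
  exact ⟨E, i1, i2, i3, ι, π, h1, h2, 1, one_pos, fun g => by rw [one_mul]; exact h3 g⟩

theorem uRpos_weight (h1 : S_AA) {W₀ : Gd → ℝ} (hW : IsWeight W₀) (n : ℕ) :
    IsWeight fun g : Gd => W₀ g * AA g.1 ^ n := by
  obtain ⟨ha1, ha2, -, ha4, -⟩ := h1
  refine ⟨?_, ?_, ?_⟩
  · intro g
    exact mul_pos (hW.1 g) (pow_pos (by linarith [ha1 g.1]) n)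
  · intro g
    obtain ⟨U, hU, C, hC⟩ := hW.2.1 g
    have hcont : Continuous fun x : Gd => AA x.1 ^ n := (ha4.comp continuous_fst).pow n
    have hV : {x : Gd | AA x.1 ^ n < AA g.1 ^ n + 1} ∈ nhds g :=
      hcont.continuousAt.eventually_lt_const (by linarith)
    refine ⟨U ∩ {x : Gd | AA x.1 ^ n < AA g.1 ^ n + 1}, Filter.inter_mem hU hV,
      C * (AA g.1 ^ n + 1), ?_⟩
    rintro x ⟨hx1, hx2⟩
    have hx2' : AA x.1 ^ n < AA g.1 ^ n + 1 := hx2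
    have h0 : 0 ≤ AA x.1 ^ n := pow_nonneg (by linarith [ha1 x.1]) n
    exact mul_le_mul (hC x hx1) hx2'.le h0 ((hW.1 x).le.trans (hC x hx1))
  · intro g k
    have h0 : 0 ≤ AA (g * k).1 ^ n := pow_nonneg (by linarith [ha1 (g * k).1]) n
    have h3 : AA (g * k).1 ^ n ≤ AA g.1 ^ n * AA k.1 ^ n := by
      rw [← mul_pow]
      exact pow_le_pow_left₀ (by have := ha1 (g.1 * k.1); exact zero_le_one.trans this) (ha2 g.1 k.1) n
    calc W₀ (g * k) * AA (g * k).1 ^ n ≤ (W₀ g * W₀ k) * (AA g.1 ^ n * AA k.1 ^ n) :=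
          mul_le_mul (hW.2.2 g k) h3 h0 (mul_pos (hW.1 g) (hW.1 k)).le
      _ = _ := by ring

theorem uRpos_weight_one : IsWeight fun _ : Gd => (1 : ℝ) :=
  ⟨fun _ => one_pos, fun g => ⟨Set.univ, Filter.univ_mem, 1, fun _ _ => le_rfl⟩,
    fun _ _ => by norm_num⟩

theorem uRpos_weight_sqrt (h1 : S_AA) : IsWeight fun g : Gd => Real.sqrt (AA g.2) := by
  obtain ⟨ha1, ha2, -, ha4, -⟩ := h1
  refine ⟨?_, ?_, ?_⟩
  · intro g
    exact Real.sqrt_pos.2 (by linarith [ha1 g.2])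
  · intro g
    have hcont : Continuous fun x : Gd => Real.sqrt (AA x.2) :=
      Real.continuous_sqrt.comp (ha4.comp continuous_snd)
    have hV : {x : Gd | Real.sqrt (AA x.2) < Real.sqrt (AA g.2) + 1} ∈ nhds g :=
      hcont.continuousAt.eventually_lt_const (by linarith)
    refine ⟨_, hV, Real.sqrt (AA g.2) + 1, ?_⟩
    intro x hx
    have hx' : Real.sqrt (AA x.2) < Real.sqrt (AA g.2) + 1 := hx
    exact hx'.le
  · intro g k
    rw [← Real.sqrt_mul (by linarith [ha1 g.2])]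
    exact Real.sqrt_le_sqrt (ha2 g.2 k.2)

theorem uRpos_AA_one : AA (1 : Gd).1 = 1 := by
  have h1 : al (1 : Mat2) = 1 := by
    simp [al, Complex.ext_iff]
  have h2 : be (1 : Mat2) = 0 := by
    simp [be, Complex.ext_iff]
  simp [AA, mt, h1, h2]

theorem uRpos_sum_SN : IsSN (fun v : I →₀ ℂ => v.sum fun _ c => ‖c‖) := by
  classical
  refine ⟨?_, ?_, ?_⟩
  · intro v
    exact Finset.sum_nonneg fun i _ => norm_nonneg _
  · intro u v
    have e : ∀ (x : I →₀ ℂ) (s : Finset I), x.support ⊆ s →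
        (x.sum fun _ c => ‖c‖) = ∑ i ∈ s, ‖x i‖ := by
      intro x s hs
      exact Finsupp.sum_of_support_subset x hs _ (fun i _ => norm_zero)
    have hu := e u (u.support ∪ v.support) Finset.subset_union_left
    have hv := e v (u.support ∪ v.support) Finset.subset_union_right
    have huv := e (u + v) (u.support ∪ v.support) Finsupp.support_add
    show ((u + v).sum fun _ c => ‖c‖) ≤ (u.sum fun _ c => ‖c‖) + (v.sum fun _ c => ‖c‖)
    rw [hu, hv, huv, ← Finset.sum_add_distrib]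
    apply Finset.sum_le_sum
    intro i _
    rw [Finsupp.add_apply]
    exact norm_add_le _ _
  · intro c v
    show ((c • v).sum fun _ c => ‖c‖) = ‖c‖ * (v.sum fun _ c => ‖c‖)
    have e : ((c • v).sum fun _ c => ‖c‖) = ∑ i ∈ v.support, ‖(c • v) i‖ :=
      Finsupp.sum_of_support_subset _ Finsupp.support_smul _ (fun i _ => norm_zero)
    rw [e, Finsupp.sum, Finset.mul_sum]
    apply Finset.sum_congr rfl
    intro i _
    rw [Finsupp.smul_apply, norm_smul]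

theorem uRpos_sum_PB (sz : I → ℕ) : PB sz (fun v : I →₀ ℂ => v.sum fun _ c => ‖c‖) := by
  refine ⟨1, 0, ?_⟩
  intro i
  simp

theorem uRpos_main (h1 : S_AA) (h2 : S_up1) (h3 : S_up2) (h4 : S_tay) (h5 : S_fam) (h6 : S_kfin)
    [CompleteSpace B] (M : TMod I) (h : M.Good) (sz : I → ℕ) (hsz : M.Size sz)
    (F : Sc → (I →₀ ℂ) → Gd → B) (hF : ∀ w, PreFam (M.toHC h) (F w)) (W₀ : Gd → ℝ)
    (hW₀ : IsWeight W₀) (hW1 : W₀ 1 = 1)
    (hb : ∀ w v g, ‖F w v g‖ ≤ (v.sum fun _ c => ‖c‖) * W₀ g)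
    (hinj : ∀ v, (∀ w, F w v 1 = 0) → v = 0) (c : ℝ) (hc : 0 < c) (κ : ℕ) :
    ∃ r : (I →₀ ℂ) → ℝ, IsNormIn (M.toHC h) (fun g => W₀ g * AA g.1 ^ (2 * κ)) r ∧
      ∀ w v, ‖F w (dg (fun i => (((1 + c * (M.μ i : ℝ) ^ 2) ^ κ : ℝ) : ℂ)) v) 1‖ ≤ r v := by
  have hA : ∀ g : Gd, 0 ≤ AA g.1 := fun g => by linarith [h1.1 g.1]
  obtain ⟨r, hr1, hr2, hr3⟩ := uRpos_bound h2 h3 M h sz hsz c hF (fun g => (hW₀.1 g).le) hA
    uRpos_sum_SN (uRpos_sum_PB sz) hb κ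
  have hWt : IsWeight fun g : Gd => W₀ g * AA g.1 ^ (2 * κ) := uRpos_weight h1 hW₀ (2 * κ)
  have hpre : ∀ w, PreFam (M.toHC h) ((upF M c)^[κ] (F w)) := fun w =>
    uRpos_pre h2 M h c (hF w) κ
  obtain ⟨hs1, hs2, hs3⟩ := uRpos_fam (G := fun w : Sc => (upF M c)^[κ] (F w)) hWt.1
    (fun a u v g => (hpre a).add u v g) (fun a c v g => (hpre a).smul c v g) hr1.nonneg hr3
  have hPB : PB sz (famNorm (fun g => W₀ g * AA g.1 ^ (2 * κ)) (fun _ : Sc => B)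
      (fun w : Sc => (upF M c)^[κ] (F w))) := by
    obtain ⟨C, N, hCN⟩ := hr2
    exact ⟨C, N, fun i => (hs2 _).trans (hCN i)⟩
  have hfam : IsFam (M.toHC h) (fun g => W₀ g * AA g.1 ^ (2 * κ)) (fun _ : Sc => B)
      (fun w : Sc => (upF M c)^[κ] (F w)) :=
    { add := fun a u v g => (hpre a).add u v g
      smul := fun a c v g => (hpre a).smul c v g
      deriv := fun a X γ hγ v g => (hpre a).deriv X γ hγ v g
      K := fun a k v g => (hpre a).K k v g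
      bound := fun v => ⟨r v, fun a g => hr3 a v g⟩
      inj := by
        intro v hv
        have h7 : dg (fun i => (((1 + c * (M.μ i : ℝ) ^ 2) ^ κ : ℝ) : ℂ)) v = 0 := by
          apply hinj
          intro w
          rw [← uRpos_iter_one h2 M h c (hF w) κ v]
          exact hv w 1
        refine uRpos_dg_inj (fun i => ?_) h7
        have h8 : (0 : ℝ) < (1 + c * (M.μ i : ℝ) ^ 2) ^ κ := by positivity
        exact_mod_cast h8.ne' }
  have hT := h4 I M h sz hsz _ hs1 hPB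
  have hN := h5 (I →₀ ℂ) (M.toHC h) (h6 I M h) _ hWt Sc (fun _ => B) _ hfam hT
  refine ⟨_, uRpos_IsNormIn hN, ?_⟩
  intro w v
  rw [← uRpos_iter_one h2 M h c (hF w) κ v]
  have h7 := hs3 w v 1
  have h8 : W₀ 1 * AA (1 : Gd).1 ^ (2 * κ) = 1 := by
    rw [hW1, uRpos_AA_one, one_pow, one_mul]
  rw [h8, div_one] at h7
  exact h7

end uRpos

theorem uRpos_mobI_one (w : ℂ) : mobI (1 : Gd).1 w = w := by
  have h1 : al (1 : Mat2) = 1 := by
    simp [al, Complex.ext_iff]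
  have h2 : be (1 : Mat2) = 0 := by
    simp [be, Complex.ext_iff]
  simp [mobI, mob, mt, h1, h2]

theorem uRpos_F0 (w : ℂ) (u : ℤ →₀ ℂ) (g : Gd) : F0 w u g = F0 (mobI g.1 w) u 1 := by
  unfold F0
  rw [uRpos_mobI_one]

theorem uRpos_pw {m : ℤ} {w : ℂ} (hw : ‖w‖ = 1) : ‖pw m w‖ = 1 := by
  unfold pw
  split_ifs
  · rw [norm_pow, hw, one_pow]
  · rw [norm_pow, RCLike.norm_conj, hw, one_pow]

/-- TARGET -/
theorem u_R0 (h1 : S_AA) (h2 : S_up1) (h3 : S_up2) (h4 : S_tay) (h5 : S_fam) (h6 : S_kfin)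
    (h7 : S_pre0) (h9 : S_bd) (h10 : S_inj) (h11 : S_good0) : S_R0 := by
  intro κ c hc h
  obtain ⟨r, hr1, hr2⟩ := uRpos_main h1 h2 h3 h4 h5 h6 M0 h sz0 h11.2 (fun w : Sc => F0 w.1)
    (fun w => h7 h w.1 w.2.le) (fun _ => 1) uRpos_weight_one rfl
    (fun w v g => by rw [mul_one]; exact h9.1 w.1 v g w.2.le)
    (fun v hv => h10.1 v (fun w hw => hv ⟨w, hw⟩)) c hc κ
  have e1 : (fun g : Gd => (1 : ℝ) * AA g.1 ^ (2 * κ)) = fun g : Gd => AA g.1 ^ (2 * κ) := by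
    funext g
    rw [one_mul]
  rw [e1] at hr1
  refine ⟨r, hr1, 1, ?_⟩
  intro v
  rw [one_mul]
  have e2 : (fun m : ℤ => (((1 + 4 * c * (m : ℝ) ^ 2) ^ κ : ℝ) : ℂ)) =
      fun m : ℤ => (((1 + c * ((M0.μ m : ℤ) : ℝ) ^ 2) ^ κ : ℝ) : ℂ) := by
    funext m
    congr 2
    show 1 + 4 * c * (m : ℝ) ^ 2 = 1 + c * ((2 * m : ℤ) : ℝ) ^ 2
    push_cast
    ring
  rw [e2]
  have hr0 : 0 ≤ r v := (norm_nonneg _).trans (hr2 ⟨1, norm_one⟩ v)
  unfold p0 famNorm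
  apply Real.iSup_le _ hr0
  rintro ⟨w, g⟩
  have hw : ‖mobI g.1 w.1‖ = 1 := h1.2.2.2.2.2.2.2.2.2.2 g.1 w.1 w.2
  have h12 := hr2 ⟨mobI g.1 w.1, hw⟩ v
  show ‖F0 w.1 _ g‖ / 1 ≤ r v
  rw [div_one, uRpos_F0]
  exact h12

/-- TARGET -/
theorem u_RD (h1 : S_AA) (h2 : S_up1) (h3 : S_up2) (h4 : S_tay) (h5 : S_fam) (h6 : S_kfin)
    (h7 : S_preD) (h9 : S_bd) (h10 : S_inj) (h11 : S_goodD) : S_RD := by
  intro κ h
  have hA1 : AA (1 : Gd).2 = 1 := uRpos_AA_one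
  obtain ⟨r, hr1, hr2⟩ := uRpos_main h1 h2 h3 h4 h5 h6 MD h sz1 h11.2 (fun w : Sc => FD w.1)
    (fun w => h7 h w.1 w.2.le) (fun g => Real.sqrt (AA g.2)) (uRpos_weight_sqrt h1)
    (by show Real.sqrt (AA (1 : Gd).2) = 1; rw [hA1, Real.sqrt_one])
    (fun w v g => h9.2.2.1 w.1 v g w.2.le)
    (fun v hv => h10.2.2.2.2.1 v (fun w hw => hv ⟨w, hw⟩)) (1 / 4) (by norm_num) κ
  have e1 : (fun g : Gd => Real.sqrt (AA g.2) * AA g.1 ^ (2 * κ)) =
      fun g : Gd => AA g.1 ^ (2 * κ) * Real.sqrt (AA g.2) := by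
    funext g
    rw [mul_comm]
  rw [e1] at hr1
  refine ⟨r, hr1, 1, one_pos, ?_⟩
  intro m
  rw [one_mul]
  have h12 := hr2 ⟨1, norm_one⟩ (ee (m, 0))
  rw [uRpos_dg_ee] at h12
  have e2 : (1 + 1 / 4 * ((MD.μ (m, (0 : Fin 2)) : ℤ) : ℝ) ^ 2) ^ κ = (1 + (m : ℝ) ^ 2) ^ κ := by
    congr 1
    show 1 + 1 / 4 * ((2 * m : ℤ) : ℝ) ^ 2 = 1 + (m : ℝ) ^ 2
    push_cast
    ring
  have hpos : (0 : ℝ) ≤ (1 + (m : ℝ) ^ 2) ^ κ := by positivity
  rw [(h7 h 1 (by simp)).smul, norm_smul, Complex.norm_real, Real.norm_eq_abs, e2,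
    abs_of_nonneg hpos] at h12
  have h13 : ‖FD 1 (ee (m, 0)) 1‖ = 1 := by
    have a1 : al (1 : Mat2) = 1 := by
      simp [al, Complex.ext_iff]
    have a2 : be (1 : Mat2) = 0 := by
      simp [be, Complex.ext_iff]
    have a3 : FD 1 (ee (m, 0)) 1 = fun j => if j = 0 then pw m 1 else 0 := by
      funext j
      unfold FD
      rw [Finsupp.sum_single_index (by simp), uRpos_mobI_one]
      fin_cases j
      · simp [sg, mt, a1]
      · simp [sg, mt, a2]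
    rw [a3]
    apply le_antisymm
    · rw [pi_norm_le_iff_of_nonneg zero_le_one]
      intro j
      by_cases hj : j = 0
      · simp [hj, uRpos_pw]
      · simp [hj]
    · have := norm_le_pi_norm (fun j : Fin 2 => if j = 0 then pw m 1 else (0 : ℂ)) 0
      simpa [uRpos_pw] using this
  rw [h13, mul_one] at h12
  exact h12

end Pool.Agent.H913.LG
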